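import Pool.Agent.Run7.h729.Iso.Conv

/-!
# The winding of the crossings: final form
-/

set_option autoImplicit false

namespace H729I
open H906K Pool.Agent.H974R3 Filter Topology MeasureTheory ProbabilityTheory Set
open Y994.KW (Pa ModC chI chB Crit IsBM)

/-- the displacement is the leftmost corner connected to the arc -/
theorem dis_left {n M : ℕ} (hn : 1 ≤ n) (c : Conf n M) : dis c = (Y994.KW.Lft n M c : ℝ) := by
  have h1 := Y994.KW.Lft_eq Y994.KW.All.CRS n M c hn
  have h2 := Y994.KW.All.XD n M c hn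
  have h3 : Xd n M c = (run (2 * n) M c (start n)).2 := by
    have hE : End n M c (Xd n M c) :=
      Classical.epsilon_spec (p := End n M c) ⟨_, (end_run n M c _).2 rfl⟩
    exact (end_run n M c _).1 hE
  unfold dis
  rw [h1, ← h2, h3]

theorem wp_one {n : ℕ} (v : ℝ → ℝ) {θ : Strat n} (hθ : AdmO θ) (H a : ℝ) {M : ℕ} (c : Conf n M)
    (hH : Sm (fun t c => Real.sin (θ t c)) M c = H) : wp v θ H a c 1 = a * Yd v θ M c := by
  show a * ∑ t ∈ Finset.range M, (Yd v θ (t + 1) (rows c (t + 1)) - Yd v θ t (rows c t)) *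
    cx (Sq θ c) (sn θ c) (((1 : unitInterval) : ℝ) * H) t = _
  have e : ∀ t ∈ Finset.range M, (Yd v θ (t + 1) (rows c (t + 1)) - Yd v θ t (rows c t)) *
    cx (Sq θ c) (sn θ c) (((1 : unitInterval) : ℝ) * H) t
      = Yd v θ (t + 1) (rows c (t + 1)) - Yd v θ t (rows c t) := by
    intro t ht
    rw [cx_one_of (clk hθ c), mul_one]
    have h1 : Sq θ c (t + 1) ≤ Sq θ c M := clk_mono (clk hθ c) (Finset.mem_range.1 ht)
    rw [Sq_self, hH] at h1
    simpa using h1
  rw [Finset.sum_congr rfl e, Finset.sum_range_sub (fun t => Yd v θ t (rows c t)), rows_self]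
  have h0 : Yd v θ 0 (rows c 0) = 0 := by
    unfold Yd dis
    rw [Sm_zero]
    show ((0 : ℤ) : ℝ) - 0 = 0
    simp
  rw [h0, sub_zero]

open Classical in
/-- the invariance principle and the crossing probabilities -/
theorem final : ∃ (K : ℝ) (v : ℕ → ℝ → ℝ) (C : ℕ → ℝ) (W : Measure Pa), IsBM 1 W ∧
    (∀ n, 1 ≤ n → ContinuousOn (v n) (Icc 0 Real.pi) ∧ ∀ θ ∈ Icc 0 Real.pi,
      |v n θ - Real.cos θ| ≤ K * Real.sin θ ^ 2 / (2 * n + 1) ^ 2) ∧
    ∀ (n : ℕ → ℕ) (θ : ∀ i, Strat (n i)) (H : ℕ → ℝ) (M : ℕ → ℕ), Tendsto n atTop atTop →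
      (∀ i, C (n i) ≤ H i) → (∀ i, AdmO (θ i)) →
      (∀ i, ∀ c : Conf (n i) (M i), H i ≤ Sm (fun t c => Real.sin (θ i t c)) (M i) c) →
      (∀ F : BoundedContinuousFunction Pa ℝ, Tendsto (fun i => EE (θ i) (M i)
        (fun c => F (√6 • wp (v (n i)) (θ i) (H i) (scA (n i) (H i)) c))) atTop
          (𝓝 (∫ w, F (√6 • w) ∂W))) ∧
      ((∀ i, ∀ c : Conf (n i) (M i), Sm (fun t c => Real.sin (θ i t c)) (M i) c = H i) →
        ∀ x : ℝ, Tendsto (fun i => EE (θ i) (M i) (fun c =>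
          if x ≤ (dis c + 2 * n i - Sm (fun t c => v (n i) (θ i t c)) (M i) c) /
            √((2 * n i + 1) * H i / (2 * Real.pi)) then (1 : ℝ) else 0)) atTop
          (𝓝 ((gaussianReal 0 6).real (Set.Ici x)))) := by
  obtain ⟨K, f, g, v, D, R, W, hK, hall, hW, hconv⟩ := conv_all
  have hpi := Real.pi_pos
  refine ⟨K, v, fun n => ((n : ℝ) + 1) ^ 2 * R n ^ 6, W, hW, fun n hn =>
    ⟨(hall n hn).2.1, fun θ hθ => ((hall n hn).2.2.2.1 θ hθ).1⟩, ?_⟩
  intro n θ H M htop hH hθ hM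
  -- an index with positive `n`
  obtain ⟨i0, hi0⟩ := eventually_atTop.1 (htop.eventually_ge_atTop 1)
  set κ : ℕ → ℕ := fun i => i + i0 with hκ
  have hn1 : ∀ i, 1 ≤ n (κ i) := fun i => hi0 _ (by show i0 ≤ i + i0; omega)
  have hκtop : Tendsto κ atTop atTop := tendsto_add_atTop_nat i0
  have hP := hconv (fun i => n (κ i)) (fun i => θ (κ i)) (fun i => H (κ i)) (fun i => M (κ i))
    (fun i => hθ (κ i)) hn1 (htop.comp hκtop) (fun i => hH (κ i)) (fun i => hM (κ i))
  refine ⟨fun F => ?_, fun hM' x => ?_⟩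
  · rw [← tendsto_add_atTop_iff_nat i0]
    rw [ProbabilityMeasure.tendsto_iff_forall_integral_tendsto] at hP
    have h1 := hP (F.compContinuous ⟨fun w : Pa => √6 • w, by fun_prop⟩)
    refine h1.congr fun i => ?_
    show ∫ w, F (√6 • w) ∂(lwe (θ (κ i)) (M (κ i)) _) = _
    rw [lwe_int (hθ (κ i)).adm _ _ (fun w => F (√6 • w))]
  · -- the final values
    rw [← tendsto_add_atTop_iff_nat i0]
    obtain ⟨G, hG⟩ : ∃ G : ProbabilityMeasure ℝ, (G : Measure ℝ) = gaussianReal 0 6 :=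
      ⟨⟨gaussianReal 0 6, inferInstance⟩, rfl⟩
    have hR1 : ∀ i, 1 ≤ R (n (κ i)) := fun i => (hall _ (hn1 i)).2.2.2.2.one
    have hH2 : ∀ i, ((n (κ i) : ℝ) + 1) ^ 2 ≤ H (κ i) := fun i => by
      refine le_trans ?_ (hH (κ i))
      have h1 : 1 ≤ R (n (κ i)) ^ 6 := one_le_pow₀ (hR1 i)
      have h2 : 0 ≤ ((n (κ i) : ℝ) + 1) ^ 2 := sq_nonneg _
      show ((n (κ i) : ℝ) + 1) ^ 2 ≤ ((n (κ i) : ℝ) + 1) ^ 2 * R (n (κ i)) ^ 6
      nlinarith
    have hH0 : ∀ i, 0 < H (κ i) := fun i => lt_of_lt_of_le (by positivity) (hH2 i)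
    set sc : ℕ → ℝ := fun i => √((2 * n (κ i) + 1) * H (κ i) / (2 * Real.pi)) with hsc
    have hsc0 : ∀ i, 0 < sc i := fun i => Real.sqrt_pos.2 (by have := hH0 i; positivity)
    have hs : Tendsto (fun i => 2 * (n (κ i) : ℝ) / sc i) atTop (𝓝 0) := by
      have hlim : Tendsto (fun i => √(4 * Real.pi / ((n (κ i) : ℝ) + 1))) atTop (𝓝 0) := by
        have h1 : Tendsto (fun i => 4 * Real.pi / ((n (κ i) : ℝ) + 1)) atTop (𝓝 0) := by
          refine Tendsto.div_atTop tendsto_const_nhds ?_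
          refine tendsto_atTop_add_const_right _ _ ?_
          exact tendsto_natCast_atTop_atTop.comp (htop.comp hκtop)
        have := (Real.continuous_sqrt.tendsto 0).comp h1
        rwa [Real.sqrt_zero] at this
      refine squeeze_zero (fun i => by have := hsc0 i; positivity) (fun i => ?_) hlim
      have hni : (0 : ℝ) ≤ n (κ i) := Nat.cast_nonneg _
      rw [div_le_iff₀ (hsc0 i)]
      rw [hsc]
      dsimp only
      rw [← Real.sqrt_mul (by positivity)]
      apply Real.le_sqrt_of_sq_le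
      have h1 := hH2 i
      have h2 : 4 * Real.pi / ((n (κ i) : ℝ) + 1) * ((2 * n (κ i) + 1) * H (κ i) / (2 * Real.pi))
          = 2 * (2 * n (κ i) + 1) * H (κ i) / ((n (κ i) : ℝ) + 1) := by
        field_simp
        ring
      rw [h2, le_div_iff₀ (by positivity)]
      nlinarith [mul_nonneg hni hni, mul_nonneg (mul_nonneg hni hni) hni]
    set Z : ∀ i, Conf (n (κ i)) (M (κ i)) → ℝ := fun i c =>
      (dis c + 2 * n (κ i) - Sm (fun t c => v (n (κ i)) (θ (κ i) t c)) (M (κ i)) c) / sc i with hZ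
    have hZF : ∀ F : BoundedContinuousFunction ℝ ℝ, Tendsto (fun i => EE (θ (κ i)) (M (κ i))
        (fun c => F (Z i c))) atTop (𝓝 (∫ x, F x ∂(G : Measure ℝ))) := by
      intro F
      have h1 := Y994.KW.scal_gen _ W hP (fun i => 2 * (n (κ i) : ℝ) / sc i) 0 hs
        (fun z : ℝ × Pa => √6 * z.2 1 + z.1) (by fun_prop) F
      have h2 : ∫ w, F (√6 * (w : Pa) 1 + 0) ∂(W : Measure Pa) = ∫ x, F x ∂(gaussianReal 0 6) := by
        simp only [add_zero]
        exact Y994.KW.bm_int _ hW F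
      rw [hG, ← h2]
      refine h1.congr fun i => ?_
      change ∫ w : Pa, F (√6 * w 1 + 2 * (n (κ i) : ℝ) / sc i) ∂(lwe (θ (κ i)) (M (κ i)) _) = _
      rw [lwe_int (hθ (κ i)).adm _ _ (fun w : Pa => F (√6 * w 1 + 2 * (n (κ i) : ℝ) / sc i))]
      congr 1
      funext c
      congr 1
      rw [wp_one (v (n (κ i))) (hθ (κ i)) _ _ c (hM' (κ i) c), hZ]
      have e2 : √6 * scA (n (κ i)) (H (κ i)) = 1 / sc i := by
        unfold scA
        rw [hsc]
        dsimp only
        rw [← Real.sqrt_mul (by norm_num), ← Real.sqrt_one, ← Real.sqrt_div (by norm_num)]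
        congr 1
        rw [Real.sqrt_one]
        have := (hH0 i).ne'
        field_simp
        ring
      rw [← mul_assoc, e2]
      unfold Yd
      ring
    have hna : NullSingletonClass (G : Measure ℝ) := by
      rw [hG]
      exact nullSingletonClass_gaussianReal (by norm_num)
    have h1 : Tendsto (fun i => lwq (hθ (κ i)).adm (M (κ i)) (Z i)) atTop (𝓝 G) := by
      rw [ProbabilityMeasure.tendsto_iff_forall_integral_tendsto]
      intro F
      refine (hZF F).congr fun i => ?_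
      exact (lwe_int (hθ (κ i)).adm _ (Z i) F).symm
    have h2 := ProbabilityMeasure.tendsto_measure_of_null_frontier_of_tendsto' h1
      (E := Set.Ici x) (by
        rw [frontier_Ici]
        exact measure_singleton x)
    have h3 := (ENNReal.tendsto_toReal (measure_ne_top (G : Measure ℝ) (Set.Ici x))).comp h2
    rw [hG] at h3
    refine h3.congr fun i => ?_
    have h4 := lwe_int (hθ (κ i)).adm (M (κ i)) (Z i)
      (Set.indicator (Set.Ici x) (fun _ => (1 : ℝ)))
    rw [integral_indicator_const _ measurableSet_Ici, smul_eq_mul, mul_one] at h4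
    change (lwe (θ (κ i)) (M (κ i)) (Z i)).real (Set.Ici x) = _
    rw [h4]
    rfl

end H729I
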