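import Pool.Agent.H906R3.K6.Final

/-!
# Layered percolation on cylinders of odd circumference: the common left eigenvector

The twisted row transfer matrices `TL(x)` commute; at the root of unity the expansion of the common
left eigenvector in the twist gives correctors which do not depend on the spectral parameter.
-/

set_option autoImplicit false

namespace H729I
open H906K Pool.Agent.H974R3 Polynomial

/-- uniqueness of the left eigenvector -/
theorem left_unique {ι : Type*} [Fintype ι] [DecidableEq ι] [Nonempty ι]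
    (A : Matrix ι ι (PowerSeries ℂ)) (l0 : ℂ)
    (h1 : ∀ j, ∑ i, PowerSeries.coeff 0 (A i j) = l0)
    (h2 : ∀ u : ι → ℂ, (∀ i, ∑ j, PowerSeries.coeff 0 (A i j) * u j = l0 * u i) →
      ∑ i, u i = 0 → u = 0)
    (v w : ι → PowerSeries ℂ) (L : PowerSeries ℂ) (hL0 : PowerSeries.coeff 0 L = l0)
    (hw : A.vecMul w = L • w) (hwv : ∑ i, w i * v i ≠ 0)
    (y : ι → PowerSeries ℂ) (hy : A.vecMul y = L • y) (hyv : ∑ i, y i * v i = 0) : y = 0 := by
  obtain ⟨e, he⟩ : ∃ e : ι → ℂ, ∑ i, e i = 1 := by
    refine ⟨Pi.single (Classical.arbitrary ι) 1, ?_⟩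
    rw [Finset.sum_pi_single' (Classical.arbitrary ι) (1 : ℂ) Finset.univ,
      if_pos (Finset.mem_univ _)]
  have hu := e1M_isUnit A l0 h1 h2 e he L hL0
  have hinj : ∀ z : ι → PowerSeries ℂ, (e1M A e L).vecMul z = 0 → z = 0 := by
    intro z hz
    have : z = ((e1M A e L)⁻¹).vecMul ((e1M A e L).vecMul z) := by
      rw [Matrix.vecMul_vecMul, Matrix.mul_nonsing_inv _ hu, Matrix.vecMul_one]
    rw [this, hz, Matrix.zero_vecMul]
  set a : PowerSeries ℂ := ∑ i, w i * PowerSeries.C (e i) with ha
  set b : PowerSeries ℂ := ∑ i, y i * PowerSeries.C (e i) with hb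
  have hz : (fun i => a * y i - b * w i) = 0 := by
    apply hinj
    funext j
    have h3 := congrFun hw j
    have h4 := congrFun hy j
    rw [Pi.smul_apply, smul_eq_mul] at h3 h4
    have h5 : A.vecMul (fun i => a * y i - b * w i) j = a * A.vecMul y j - b * A.vecMul w j := by
      unfold Matrix.vecMul dotProduct
      rw [Finset.mul_sum, Finset.mul_sum, ← Finset.sum_sub_distrib]
      exact Finset.sum_congr rfl fun i _ => by ring
    have h6 : ∑ i, (a * y i - b * w i) * PowerSeries.C (e i) = a * b - b * a := by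
      rw [hb, ha, Finset.mul_sum, Finset.mul_sum, ← Finset.sum_sub_distrib]
      exact Finset.sum_congr rfl fun i _ => by ring
    rw [e1M_vecMul, h5, h6, h3, h4]
    simp only [Pi.zero_apply]
    ring
  have hzv : ∑ i, (a * y i - b * w i) * v i = a * ∑ i, y i * v i - b * ∑ i, w i * v i := by
    rw [Finset.mul_sum, Finset.mul_sum, ← Finset.sum_sub_distrib]
    exact Finset.sum_congr rfl fun i _ => by ring
  have hz0 : ∑ i, (a * y i - b * w i) * v i = 0 :=
    Finset.sum_eq_zero fun i _ => by
      have := congrFun hz i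
      simp only [Pi.zero_apply] at this
      rw [this, zero_mul]
  rw [hzv, hyv, mul_zero, zero_sub, neg_eq_zero] at hz0
  have hb0 : b = 0 := by
    rcases mul_eq_zero.1 hz0 with h | h
    · exact h
    · exact absurd h hwv
  apply hinj
  funext j
  have h4 := congrFun hy j
  rw [Pi.smul_apply, smul_eq_mul] at h4
  rw [e1M_vecMul, ← hb, hb0, h4]
  simp

/-- the common left eigenvector of the transfer matrices -/
theorem left_all (n : ℕ) : ∃ (v w : Pat (2 * n + 1) → PowerSeries ℂ) (t : (PowerSeries ℂ)[X]),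
    ∑ σ, v σ = 1 ∧ (∀ σ, PowerSeries.coeff 0 (w σ) = 1) ∧ TSpec n t ∧
    (TL (2 * n) (C (PowerSeries.C om)) (X : (PowerSeries ℂ)[X]) ezX).mulVec (fun σ => C (v σ))
      = t • (fun σ => C (v σ)) ∧
    (TL (2 * n) (C (PowerSeries.C om)) (X : (PowerSeries ℂ)[X]) ezX).vecMul (fun σ => C (w σ))
      = t • (fun σ => C (w σ)) := by
  obtain ⟨v, t, hv, hd, ht, w, hw, hwL⟩ := exists_t n
  refine ⟨v, w, t, hv, hw, tspec n v t hv hd ht, ht, ?_⟩
  have : Nonempty (Pat (2 * n + 1)) := ⟨base n⟩
  set A := TL (2 * n) (PowerSeries.C om) 1 ez with hA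
  set B := TL (2 * n) (C (PowerSeries.C om)) (X : (PowerSeries ℂ)[X]) ezX with hB
  set L := t.eval 1 with hL
  set Cw : Pat (2 * n + 1) → (PowerSeries ℂ)[X] := fun σ => C (w σ) with hCw
  set Cv : Pat (2 * n + 1) → (PowerSeries ℂ)[X] := fun σ => C (v σ) with hCv
  have hsp := tspec n v t hv hd ht
  have hL0 : PowerSeries.coeff 0 L = 2 ^ (2 * n + 1) := by
    have h1 : L = ∑ j ∈ Finset.range (2 * n + 1 + 1), t.coeff j := by
      rw [hL, Polynomial.eval_eq_sum_range' (n := 2 * n + 1 + 1) (by omega)]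
      simp
    rw [h1, map_sum]
    simp only [hsp.const]
    have h2 := Nat.sum_range_choose (2 * n + 1)
    exact_mod_cast h2
  have hAv : A.mulVec v = L • v := by
    funext σ
    have h3 := e2_eval n
    rw [← hA, ← hB] at h3
    have h4 := congrArg (fun p : (PowerSeries ℂ)[X] => p.eval 1) (congrFun ht σ)
    simp only [Matrix.mulVec, dotProduct, Polynomial.eval_finsetSum, hCv,
        Polynomial.eval_mul, Polynomial.eval_C, Pi.smul_apply, smul_eq_mul] at h4
    rw [← h3]
    simp only [Matrix.mulVec, dotProduct, Matrix.map_apply, Pi.smul_apply, smul_eq_mul]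
    exact h4
  have hcomm : B * A.map C = A.map C * B := by
    have := TL_comm_X n
    rw [e2_CA] at this
    exact this
  have hCA : (A.map C).vecMul Cw = C L • Cw := by
    funext σ
    have h1 := congrFun hwL σ
    simp only [Matrix.vecMul, dotProduct, Matrix.map_apply, Pi.smul_apply, smul_eq_mul, hCw]
      at h1 ⊢
    rw [← map_mul, ← h1, map_sum]
    simp
  have hwv : ∑ i, w i * v i ≠ 0 := by
    intro h0
    have h1 := congrArg (PowerSeries.coeff (R := ℂ) 0) h0
    rw [map_sum, map_zero] at h1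
    have h2 : ∀ i, PowerSeries.coeff 0 (w i * v i) = PowerSeries.coeff 0 (v i) := by
      intro i
      have := hw i
      rw [PowerSeries.coeff_zero_eq_constantCoeff] at this ⊢
      rw [map_mul, this, one_mul]
    rw [Finset.sum_congr rfl (fun i _ => h2 i), ← map_sum, hv] at h1
    simp at h1
  have huB : (A.map C).vecMul (B.vecMul Cw) = C L • B.vecMul Cw := by
    rw [Matrix.vecMul_vecMul, hcomm, ← Matrix.vecMul_vecMul, hCA, Matrix.smul_vecMul]
  have hdot : ∑ i, B.vecMul Cw i * Cv i = t * ∑ i, Cw i * Cv i := by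
    have h1 : B.vecMul Cw ⬝ᵥ Cv = Cw ⬝ᵥ B.mulVec Cv := (Matrix.dotProduct_mulVec _ _ _).symm
    rw [ht] at h1
    have h2 : Cw ⬝ᵥ (t • Cv) = t * ∑ i, Cw i * Cv i := by
      unfold dotProduct
      rw [Finset.mul_sum]
      exact Finset.sum_congr rfl fun i _ => by
        rw [Pi.smul_apply, smul_eq_mul]; ring
    rw [h2] at h1
    exact h1
  funext σ
  ext1 k
  have hk : (fun σ => (B.vecMul Cw σ).coeff k - t.coeff k * w σ) = 0 := by
    apply left_unique A (2 ^ (2 * n + 1)) (fun σ => e2_h1 (2 * n) σ)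
      (fun u hu hs => e2_h2 n u hu hs) v w L hL0 hwL hwv
    · funext τ
      have h1 := congrArg (fun p : (PowerSeries ℂ)[X] => p.coeff k) (congrFun huB τ)
      have h2 := congrFun hwL τ
      simp only [Matrix.vecMul, dotProduct, Matrix.map_apply, Pi.smul_apply, smul_eq_mul,
        Polynomial.finsetSum_coeff, Polynomial.coeff_C_mul, Polynomial.coeff_mul_C] at h1 h2 ⊢
      simp only [sub_mul, Finset.sum_sub_distrib]
      rw [h1, mul_sub]
      congr 1
      rw [mul_left_comm, ← h2, Finset.mul_sum]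
      exact Finset.sum_congr rfl fun _ _ => by ring
    · have h1 := congrArg (fun p : (PowerSeries ℂ)[X] => p.coeff k) hdot
      simp only [hCv, hCw, Polynomial.finsetSum_coeff, Polynomial.coeff_mul_C] at h1
      have h2 : t * ∑ i, (C (w i) : (PowerSeries ℂ)[X]) * C (v i)
          = t * C (∑ i, w i * v i) := by
        rw [map_sum]
        simp
      rw [h2, Polynomial.coeff_mul_C] at h1
      have h3 : ∑ i, ((B.vecMul Cw i).coeff k - t.coeff k * w i) * v i
          = ∑ i, (B.vecMul Cw i).coeff k * v i - t.coeff k * ∑ i, w i * v i := by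
        rw [Finset.mul_sum, ← Finset.sum_sub_distrib]
        exact Finset.sum_congr rfl fun i _ => by ring
      rw [h3]
      rw [sub_eq_zero]
      exact h1
  have h3 := congrFun hk σ
  simp only [Pi.zero_apply] at h3
  simp only [Pi.smul_apply, smul_eq_mul, hCw, Polynomial.coeff_mul_C]
  exact sub_eq_zero.1 h3

end H729I
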