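import Pool.Agent.Run7.h729.Iso.Strip
import Pool.Agent.H906R3.K6.A7Core

/-!
# Elementary integrals
-/

set_option autoImplicit false

namespace H729I
open MeasureTheory Filter Topology Set H906K

/-- `tanh (3 u / 4)` -/
noncomputable def ta (u : ℝ) : ℝ := Real.tanh (3 * u / 4)

theorem ta_sq_lt (u : ℝ) : ta u ^ 2 < 1 := by
  unfold ta
  have := Real.abs_tanh_lt_one (3 * u / 4)
  rw [← sq_abs]
  have h0 := abs_nonneg (Real.tanh (3 * u / 4))
  nlinarith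

theorem ta_abs (u : ℝ) : |ta u| ≤ 1 := (Real.abs_tanh_lt_one _).le

theorem one_sub_ta (u : ℝ) : 1 - ta u ^ 2 = 1 / Real.cosh (3 * u / 4) ^ 2 := by
  unfold ta
  have h := Real.cosh_pos (3 * u / 4)
  rw [Real.tanh_eq_sinh_div_cosh]
  field_simp
  rw [Real.cosh_sq]
  ring

theorem sinh_ta (u : ℝ) : Real.sinh (3 * u / 2) * (1 - ta u ^ 2) = 2 * ta u := by
  rw [one_sub_ta]
  have h := Real.cosh_pos (3 * u / 4)
  unfold ta
  have e : 3 * u / 2 = 2 * (3 * u / 4) := by ring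
  rw [e, Real.sinh_two_mul, Real.tanh_eq_sinh_div_cosh]
  field_simp

theorem cosh_ta (u : ℝ) : Real.cosh (3 * u / 2) * (1 - ta u ^ 2) = 1 + ta u ^ 2 := by
  have h := Real.cosh_pos (3 * u / 4)
  rw [one_sub_ta]
  unfold ta
  have e : 3 * u / 2 = 2 * (3 * u / 4) := by ring
  rw [e, Real.cosh_two_mul, Real.tanh_eq_sinh_div_cosh]
  field_simp

theorem ta_cont : Continuous ta := a8_tanh_cont.comp (by fun_prop)

theorem ta_deriv (u : ℝ) : HasDerivAt ta (3 / 4 * (1 - ta u ^ 2)) u := by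
  have h1 : HasDerivAt (fun u : ℝ => 3 * u / 4) (3 / 4) u := by
    have := ((hasDerivAt_id u).const_mul 3).div_const 4
    simpa using this
  have h2 : ta = fun u => Real.sinh (3 * u / 4) / Real.cosh (3 * u / 4) := by
    funext u; unfold ta; rw [Real.tanh_eq_sinh_div_cosh]
  rw [h2]
  have hc := (Real.cosh_pos (3 * u / 4)).ne'
  refine ((h1.sinh).div (h1.cosh) hc).congr_deriv ?_
  simp only
  field_simp

theorem ta_top : Tendsto ta atTop (𝓝 1) := a7_tendsto_tanh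

theorem ta_neg (u : ℝ) : ta (-u) = -ta u := by
  unfold ta
  rw [← Real.tanh_neg]
  congr 1
  ring

theorem ta_bot : Tendsto ta atBot (𝓝 (-1)) := by
  have h := (ta_top.comp tendsto_neg_atBot_atTop).neg
  refine h.congr fun u => ?_
  simp only [Function.comp]
  rw [ta_neg, neg_neg]

/-- the weight `tanh (3u/4)^(2m) (1 - tanh (3u/4)^2)^3` -/
noncomputable def w3 (m : ℕ) (u : ℝ) : ℝ := ta u ^ (2 * m) * (1 - ta u ^ 2) ^ 3

theorem one_sub_le (u : ℝ) : 1 - ta u ^ 2 ≤ 4 * Real.exp (-(3 * |u| / 2)) := by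
  rw [one_sub_ta]
  have h1 := a2a_cosh (3 * u / 4)
  have h2 : |3 * u / 4| = 3 * |u| / 4 := by
    rw [abs_div, abs_mul]; norm_num
  rw [h2] at h1
  have h3 := Real.exp_pos (3 * |u| / 4)
  have h4 : (Real.exp (3 * |u| / 4) / 2) ^ 2 ≤ Real.cosh (3 * u / 4) ^ 2 :=
    pow_le_pow_left₀ (by positivity) h1 2
  have h5 : Real.exp (3 * |u| / 4) ^ 2 = Real.exp (3 * |u| / 2) := by
    rw [← Real.exp_nat_mul]; congr 1; push_cast; ring
  rw [Real.exp_neg, div_le_iff₀ (by have := Real.cosh_pos (3 * u / 4); positivity)]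
  have h6 : (Real.exp (3 * |u| / 4) / 2) ^ 2 = Real.exp (3 * |u| / 2) / 4 := by
    rw [div_pow, h5]; norm_num
  rw [h6] at h4
  have h7 := Real.exp_pos (3 * |u| / 2)
  calc (1 : ℝ) = 4 * (Real.exp (3 * |u| / 2))⁻¹ * (Real.exp (3 * |u| / 2) / 4) := by
        field_simp
    _ ≤ _ := mul_le_mul_of_nonneg_left h4 (by positivity)

theorem one_sub_int : Integrable (fun u => 1 - ta u ^ 2) := by
  refine (a2a_exp_integrable.const_mul 4).mono' ?_ (Eventually.of_forall fun u => ?_)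
  · exact (continuous_const.sub (ta_cont.pow 2)).aestronglyMeasurable
  · rw [Real.norm_of_nonneg (by linarith [ta_sq_lt u])]
    exact one_sub_le u

theorem w3_nonneg (m : ℕ) (u : ℝ) : 0 ≤ w3 m u := by
  unfold w3
  have h1 := ta_sq_lt u
  rw [pow_mul]
  have : 0 ≤ 1 - ta u ^ 2 := by linarith
  positivity

theorem w3_cont (m : ℕ) : Continuous (w3 m) :=
  (ta_cont.pow _).mul ((continuous_const.sub (ta_cont.pow 2)).pow 3)

theorem w3_int (m : ℕ) : Integrable (w3 m) := by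
  refine one_sub_int.mono' (w3_cont m).aestronglyMeasurable (Eventually.of_forall fun u => ?_)
  rw [Real.norm_of_nonneg (w3_nonneg m u)]
  have h1 := ta_sq_lt u
  have h0 : 0 ≤ ta u ^ 2 := sq_nonneg _
  have h2 : 0 ≤ 1 - ta u ^ 2 := by linarith
  have h3 : (1 - ta u ^ 2) ^ 3 ≤ 1 - ta u ^ 2 := by
    have : (1 - ta u ^ 2) ^ 3 = (1 - ta u ^ 2) * (1 - ta u ^ 2) ^ 2 := by ring
    rw [this]
    have h4 : (1 - ta u ^ 2) ^ 2 ≤ 1 := pow_le_one₀ h2 (by linarith)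
    nlinarith
  have h4 : ta u ^ (2 * m) ≤ 1 := by
    rw [pow_mul]
    exact pow_le_one₀ h0 h1.le
  have h5 : 0 ≤ ta u ^ (2 * m) := by rw [pow_mul]; positivity
  unfold w3
  nlinarith [pow_nonneg h2 3]

theorem w3_integral (m : ℕ) : ∫ u, w3 m u
    = (64 / 3) / ((2 * m + 1) * (2 * m + 3) * (2 * m + 5)) := by
  have hd : ∀ u, HasDerivAt (fun u => 4 / 3 * (ta u ^ (2 * m + 1) / (2 * m + 1)
      - 2 * ta u ^ (2 * m + 3) / (2 * m + 3) + ta u ^ (2 * m + 5) / (2 * m + 5))) (w3 m u) u := by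
    intro u
    have h1 := ta_deriv u
    have a1 := (h1.pow (2 * m + 1)).div_const (2 * (m : ℝ) + 1)
    have a2 := ((h1.pow (2 * m + 3)).const_mul 2).div_const (2 * (m : ℝ) + 3)
    have a3 := (h1.pow (2 * m + 5)).div_const (2 * (m : ℝ) + 5)
    refine (((a1.sub a2).add a3).const_mul (4 / 3)).congr_deriv ?_
    unfold w3
    have e1 : 2 * m + 1 - 1 = 2 * m := by omega
    have e2 : 2 * m + 3 - 1 = 2 * m + 2 := by omega
    have e3 : 2 * m + 5 - 1 = 2 * m + 4 := by omega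
    rw [e1, e2, e3]
    push_cast
    have n1 : (2 * (m : ℝ) + 1) ≠ 0 := by positivity
    have n2 : (2 * (m : ℝ) + 3) ≠ 0 := by positivity
    have n3 : (2 * (m : ℝ) + 5) ≠ 0 := by positivity
    field_simp
    ring
  have htop : Tendsto (fun u => 4 / 3 * (ta u ^ (2 * m + 1) / (2 * m + 1)
      - 2 * ta u ^ (2 * m + 3) / (2 * m + 3) + ta u ^ (2 * m + 5) / (2 * m + 5))) atTop
      (𝓝 (4 / 3 * (1 ^ (2 * m + 1) / (2 * m + 1)
      - 2 * 1 ^ (2 * m + 3) / (2 * m + 3) + 1 ^ (2 * m + 5) / (2 * m + 5)))) :=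
    ((((ta_top.pow _).div_const _).sub (((ta_top.pow _).const_mul 2).div_const _)).add
      ((ta_top.pow _).div_const _)).const_mul _
  have hbot : Tendsto (fun u => 4 / 3 * (ta u ^ (2 * m + 1) / (2 * m + 1)
      - 2 * ta u ^ (2 * m + 3) / (2 * m + 3) + ta u ^ (2 * m + 5) / (2 * m + 5))) atBot
      (𝓝 (4 / 3 * ((-1) ^ (2 * m + 1) / (2 * m + 1)
      - 2 * (-1) ^ (2 * m + 3) / (2 * m + 3) + (-1) ^ (2 * m + 5) / (2 * m + 5)))) :=
    ((((ta_bot.pow _).div_const _).sub (((ta_bot.pow _).const_mul 2).div_const _)).add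
      ((ta_bot.pow _).div_const _)).const_mul _
  rw [integral_of_hasDerivAt_of_tendsto hd (w3_int m) hbot htop]
  have o1 : (-1 : ℝ) ^ (2 * m + 1) = -1 := Odd.neg_one_pow ⟨m, rfl⟩
  have o2 : (-1 : ℝ) ^ (2 * m + 3) = -1 := Odd.neg_one_pow ⟨m + 1, by ring⟩
  have o3 : (-1 : ℝ) ^ (2 * m + 5) = -1 := Odd.neg_one_pow ⟨m + 2, by ring⟩
  rw [o1, o2, o3, one_pow, one_pow, one_pow]
  have n1 : (2 * (m : ℝ) + 1) ≠ 0 := by positivity
  have n2 : (2 * (m : ℝ) + 3) ≠ 0 := by positivity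
  have n3 : (2 * (m : ℝ) + 5) ≠ 0 := by positivity
  field_simp
  ring

/-- pointwise bound of `|tanh|^N / (|S| (S² + c²))` -/
theorem pt_A (m : ℕ) (u c : ℝ) :
    |ta u| ^ (2 * m + 3) * |1 / (Real.sinh (3 * u / 2) * (Real.sinh (3 * u / 2) ^ 2 + c ^ 2))|
      ≤ w3 m u / 8 := by
  by_cases hu : ta u = 0
  · rw [hu, abs_zero, zero_pow (by omega), zero_mul]
    have := w3_nonneg m u
    linarith
  set S := Real.sinh (3 * u / 2) with hS
  set τ := ta u with hτ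
  have h1 : 0 < 1 - τ ^ 2 := by have := ta_sq_lt u; linarith
  have h2 : S * (1 - τ ^ 2) = 2 * τ := sinh_ta u
  have hS0 : S ≠ 0 := by
    intro h0
    rw [h0, zero_mul] at h2
    exact hu (by linarith)
  have hτ0 : 0 < |τ| := abs_pos.2 hu
  have hSa : |S| * (1 - τ ^ 2) = 2 * |τ| := by
    have := congrArg abs h2
    rw [abs_mul, abs_mul, abs_of_pos h1, abs_of_pos (by norm_num : (0:ℝ) < 2)] at this
    exact this
  have hS1 : 0 < |S| := abs_pos.2 hS0
  rw [abs_div, abs_one, abs_mul, abs_of_pos (by positivity : 0 < S ^ 2 + c ^ 2)]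
  have h3 : |S| ^ 3 ≤ |S| * (S ^ 2 + c ^ 2) := by
    have : |S| ^ 3 = |S| * S ^ 2 := by rw [pow_succ', sq_abs]
    rw [this]
    exact mul_le_mul_of_nonneg_left (by nlinarith [sq_nonneg c]) hS1.le
  have h4 : 1 / (|S| * (S ^ 2 + c ^ 2)) ≤ 1 / |S| ^ 3 :=
    one_div_le_one_div_of_le (by positivity) h3
  calc |τ| ^ (2 * m + 3) * (1 / (|S| * (S ^ 2 + c ^ 2)))
      ≤ |τ| ^ (2 * m + 3) * (1 / |S| ^ 3) := mul_le_mul_of_nonneg_left h4 (by positivity)
    _ = w3 m u / 8 := by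
      have e1 : |S| = 2 * |τ| / (1 - τ ^ 2) := by
        rw [eq_div_iff h1.ne']; exact hSa
      rw [e1]
      unfold w3
      have e2 : ta u ^ (2 * m) = |τ| ^ (2 * m) := by
        rw [pow_mul, pow_mul, sq_abs]
      rw [e2, ← hτ]
      field_simp
      rw [pow_add]
      ring

/-- pointwise bound of `|tanh|^N / |S|` -/
theorem pt_B (m : ℕ) (u : ℝ) :
    |ta u| ^ (2 * m + 3) * |1 / Real.sinh (3 * u / 2)| ≤ (1 - ta u ^ 2) / 2 := by
  have h1 : 0 < 1 - ta u ^ 2 := by have := ta_sq_lt u; linarith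
  by_cases hu : ta u = 0
  · rw [hu, abs_zero, zero_pow (by omega), zero_mul]
    norm_num
  set S := Real.sinh (3 * u / 2) with hS
  set τ := ta u with hτ
  have h2 : S * (1 - τ ^ 2) = 2 * τ := sinh_ta u
  have hS0 : S ≠ 0 := by
    intro h0
    rw [h0, zero_mul] at h2
    exact hu (by linarith)
  have hτ0 : 0 < |τ| := abs_pos.2 hu
  have hSa : |S| * (1 - τ ^ 2) = 2 * |τ| := by
    have := congrArg abs h2
    rw [abs_mul, abs_mul, abs_of_pos h1, abs_of_pos (by norm_num : (0:ℝ) < 2)] at this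
    exact this
  have e1 : |S| = 2 * |τ| / (1 - τ ^ 2) := by
    rw [eq_div_iff h1.ne']; exact hSa
  rw [abs_div, abs_one, e1]
  have h3 : |τ| ^ (2 * m + 3) ≤ |τ| := by
    have : |τ| ^ (2 * m + 3) = |τ| * |τ| ^ (2 * m + 2) := by ring
    rw [this]
    have h4 : |τ| ^ (2 * m + 2) ≤ 1 := pow_le_one₀ hτ0.le (ta_abs u)
    nlinarith
  calc |τ| ^ (2 * m + 3) * (1 / (2 * |τ| / (1 - τ ^ 2)))
      ≤ |τ| * (1 / (2 * |τ| / (1 - τ ^ 2))) := mul_le_mul_of_nonneg_right h3 (by positivity)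
    _ = _ := by field_simp

/-- pointwise bound of `|tanh|^N / (C (S² + c²))` -/
theorem pt_C (m : ℕ) (u c : ℝ) :
    |ta u| ^ (2 * m + 3) * |1 / (Real.cosh (3 * u / 2) * (Real.sinh (3 * u / 2) ^ 2 + c ^ 2))|
      ≤ w3 m u / 4 := by
  by_cases hu : ta u = 0
  · rw [hu, abs_zero, zero_pow (by omega), zero_mul]
    have := w3_nonneg m u
    linarith
  set S := Real.sinh (3 * u / 2) with hS
  set C := Real.cosh (3 * u / 2) with hC
  set τ := ta u with hτ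
  have h1 : 0 < 1 - τ ^ 2 := by have := ta_sq_lt u; linarith
  have h2 : S * (1 - τ ^ 2) = 2 * τ := sinh_ta u
  have h2' : C * (1 - τ ^ 2) = 1 + τ ^ 2 := cosh_ta u
  have hC0 : 0 < C := Real.cosh_pos _
  have hS0 : S ≠ 0 := by
    intro h0
    rw [h0, zero_mul] at h2
    exact hu (by linarith)
  have hτ0 : 0 < |τ| := abs_pos.2 hu
  have hS2 : 0 < S ^ 2 := by positivity
  rw [abs_div, abs_one, abs_mul, abs_of_pos (by positivity : 0 < S ^ 2 + c ^ 2), abs_of_pos hC0]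
  have e1 : S = 2 * τ / (1 - τ ^ 2) := by
    rw [eq_div_iff h1.ne']; exact h2
  have h5 : 1 / (1 - τ ^ 2) ≤ C := by
    rw [div_le_iff₀ h1, h2']
    nlinarith [sq_nonneg τ]
  have h3 : 1 / (1 - τ ^ 2) * S ^ 2 ≤ C * (S ^ 2 + c ^ 2) := by
    have := mul_le_mul_of_nonneg_right h5 hS2.le
    nlinarith [mul_nonneg hC0.le (sq_nonneg c)]
  have h4 : 1 / (C * (S ^ 2 + c ^ 2)) ≤ 1 / (1 / (1 - τ ^ 2) * S ^ 2) :=
    one_div_le_one_div_of_le (by positivity) h3
  have h6 : |τ| ^ (2 * m + 3) = |τ| ^ (2 * m) * τ ^ 2 * |τ| := by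
    rw [pow_add, ← sq_abs τ]; ring
  calc |τ| ^ (2 * m + 3) * (1 / (C * (S ^ 2 + c ^ 2)))
      ≤ |τ| ^ (2 * m + 3) * (1 / (1 / (1 - τ ^ 2) * S ^ 2)) :=
        mul_le_mul_of_nonneg_left h4 (by positivity)
    _ = w3 m u / 4 * |τ| := by
      rw [h6, e1]
      unfold w3
      have e2 : ta u ^ (2 * m) = |τ| ^ (2 * m) := by
        rw [pow_mul, pow_mul, sq_abs]
      rw [e2, ← hτ]
      have hτ1 : τ ≠ 0 := hu
      field_simp
      ring
    _ ≤ w3 m u / 4 * 1 := mul_le_mul_of_nonneg_left (ta_abs u) (by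
      have := w3_nonneg m u
      positivity)
    _ = _ := by ring

end H729I
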