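import Pool.Agent.Run7.h729.Iso.Refl
import Pool.Agent.Run7.h729.Iso.Int

/-!
# The drift and the diffusivity as functions of the angle
-/

set_option autoImplicit false

namespace H729I
open MeasureTheory Filter Topology Set H906K Pool.Agent.H974R3 Complex

/-- real and imaginary part of the representation at imaginary points -/
theorem rep_parts (f : ℂ → ℂ) (g : ℝ → ℝ) (K Kg : ℝ)
    (hf : ∀ z : ℂ, |z.im| ≤ Real.pi / 3 → DifferentiableAt ℂ f z)
    (hb : ∀ z : ℂ, |z.im| ≤ Real.pi / 3 → ‖f z‖ ≤ K)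
    (hg : ∀ u : ℝ, f (u + Real.pi / 3 * Complex.I) + f (u - Real.pi / 3 * Complex.I) = (g u : ℂ))
    (hgc : Continuous g) (hgb : ∀ u, |g u| ≤ Kg)
    (φ : ℝ) (hφ : |φ| < Real.pi / 3) :
    (f ((φ : ℂ) * I)).re = ∫ u : ℝ, (3 / (4 * Real.pi) * (Real.cosh (3 * u / 2) * Real.cos (3 * φ / 2))
      / (Real.sinh (3 * u / 2) ^ 2 + Real.cos (3 * φ / 2) ^ 2)) * g u ∧
    (f ((φ : ℂ) * I)).im = ∫ u : ℝ, (3 / (4 * Real.pi) * (Real.sinh (3 * u / 2) * Real.sin (3 * φ / 2))
      / (Real.sinh (3 * u / 2) ^ 2 + Real.cos (3 * φ / 2) ^ 2)) * g u := by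
  have h1 := strip_im f K hf hb φ hφ
  have hki : Integrable (fun u : ℝ => kkc ((φ : ℂ) * I - u)) :=
    (kk_integrable.const_mul (1 / Real.cos (3 * φ / 2))).mono'
      (kkc_cont φ hφ).aestronglyMeasurable (Eventually.of_forall fun u => kkc_le φ hφ le_rfl u)
  have hi : Integrable (fun u : ℝ => kkc ((φ : ℂ) * I - u) * (g u : ℂ)) := by
    refine (hki.norm.const_mul Kg).mono'
      ((kkc_cont φ hφ).mul (Complex.continuous_ofReal.comp hgc)).aestronglyMeasurable
      (Eventually.of_forall fun u => ?_)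
    rw [norm_mul, mul_comm, Complex.norm_real, Real.norm_eq_abs]
    exact mul_le_mul_of_nonneg_right (hgb u) (norm_nonneg _)
  simp_rw [hg] at h1
  have hre : ∀ u : ℝ, (kkc ((φ : ℂ) * I - u) * (g u : ℂ)).re
      = (3 / (4 * Real.pi) * (Real.cosh (3 * u / 2) * Real.cos (3 * φ / 2))
      / (Real.sinh (3 * u / 2) ^ 2 + Real.cos (3 * φ / 2) ^ 2)) * g u := by
    intro u
    rw [Complex.re_mul_ofReal, kkc_eq, Complex.add_re, Complex.re_ofReal_mul, Complex.I_re,
      mul_zero, add_zero, Complex.ofReal_re]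
  have him : ∀ u : ℝ, (kkc ((φ : ℂ) * I - u) * (g u : ℂ)).im
      = (3 / (4 * Real.pi) * (Real.sinh (3 * u / 2) * Real.sin (3 * φ / 2))
      / (Real.sinh (3 * u / 2) ^ 2 + Real.cos (3 * φ / 2) ^ 2)) * g u := by
    intro u
    rw [Complex.im_mul_ofReal, kkc_eq, Complex.add_im, Complex.im_ofReal_mul, Complex.I_im,
      mul_one, Complex.ofReal_im, zero_add]
  rw [h1]
  constructor
  · rw [← integral_congr_ae (Eventually.of_forall hre)]
    exact (integral_re hi).symm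
  · rw [← integral_congr_ae (Eventually.of_forall him)]
    exact (integral_im hi).symm

theorem ph_trig (θ : ℝ) : Real.cos (3 * ph θ / 2) = Real.sin θ ∧
    Real.sin (3 * ph θ / 2) = Real.cos θ := by
  have h : 3 * ph θ / 2 = Real.pi / 2 - θ := by unfold ph; ring
  rw [h]
  exact ⟨Real.cos_pi_div_two_sub θ, Real.sin_pi_div_two_sub θ⟩

theorem ph_lt {θ : ℝ} (h : θ ∈ Ioo 0 Real.pi) : |ph θ| < Real.pi / 3 := by
  rw [abs_lt]
  unfold ph
  constructor <;> [linarith [h.2]; linarith [h.1]]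

/-- the integral of the odd part -/
noncomputable def JA (A : ℝ → ℝ) : ℝ := ∫ u : ℝ, A u / Real.sinh (3 * u / 2)

theorem odd_part (m : ℕ) (A : ℝ → ℝ) (a : ℝ) (ha : 0 ≤ a) (hA : Continuous A)
    (hAb : ∀ u, |A u| ≤ a * |ta u| ^ (2 * m + 3)) {s c : ℝ} (hc : 0 < c) :
    |(∫ u : ℝ, (3 / (4 * Real.pi) * (Real.sinh (3 * u / 2) * s)
      / (Real.sinh (3 * u / 2) ^ 2 + c ^ 2)) * A u) - 3 / (4 * Real.pi) * s * JA A|
      ≤ 3 / (4 * Real.pi) * |s| * c ^ 2 * (a / 8 *
        ((64 / 3) / ((2 * m + 1) * (2 * m + 3) * (2 * m + 5)))) := by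
  have hpi := Real.pi_pos
  have hta : ∀ u, |Real.tanh (3 * u / 4)| = |ta u| := fun u => rfl
  have hSm : Measurable (fun u : ℝ => Real.sinh (3 * u / 2)) :=
    (Real.continuous_sinh.comp (by fun_prop)).measurable
  -- integrability
  have i1 : Integrable (fun u : ℝ => A u / Real.sinh (3 * u / 2)) := by
    refine (one_sub_int.const_mul (a / 2)).mono' (hA.measurable.div hSm).aestronglyMeasurable
      (Eventually.of_forall fun u => ?_)
    rw [Real.norm_eq_abs, div_eq_mul_one_div, abs_mul]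
    calc |A u| * |1 / Real.sinh (3 * u / 2)|
        ≤ (a * |ta u| ^ (2 * m + 3)) * |1 / Real.sinh (3 * u / 2)| :=
          mul_le_mul_of_nonneg_right (hAb u) (abs_nonneg _)
      _ = a * (|ta u| ^ (2 * m + 3) * |1 / Real.sinh (3 * u / 2)|) := by ring
      _ ≤ a * ((1 - ta u ^ 2) / 2) := mul_le_mul_of_nonneg_left (pt_B m u) ha
      _ = _ := by ring
  have b2 : ∀ u : ℝ, |A u / (Real.sinh (3 * u / 2) * (Real.sinh (3 * u / 2) ^ 2 + c ^ 2))|
      ≤ a / 8 * w3 m u := by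
    intro u
    rw [div_eq_mul_one_div, abs_mul]
    calc _ ≤ (a * |ta u| ^ (2 * m + 3)) *
            |1 / (Real.sinh (3 * u / 2) * (Real.sinh (3 * u / 2) ^ 2 + c ^ 2))| :=
          mul_le_mul_of_nonneg_right (hAb u) (abs_nonneg _)
      _ = a * (|ta u| ^ (2 * m + 3) *
            |1 / (Real.sinh (3 * u / 2) * (Real.sinh (3 * u / 2) ^ 2 + c ^ 2))|) := by ring
      _ ≤ a * (w3 m u / 8) := mul_le_mul_of_nonneg_left (pt_A m u c) ha
      _ = _ := by ring
  have i2 : Integrable (fun u : ℝ => A u /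
      (Real.sinh (3 * u / 2) * (Real.sinh (3 * u / 2) ^ 2 + c ^ 2))) := by
    refine ((w3_int m).const_mul (a / 8)).mono'
      (hA.measurable.div (hSm.mul ((hSm.pow_const 2).add_const _))).aestronglyMeasurable
      (Eventually.of_forall fun u => ?_)
    rw [Real.norm_eq_abs]
    exact b2 u
  have hpt : ∀ u : ℝ, (3 / (4 * Real.pi) * (Real.sinh (3 * u / 2) * s)
      / (Real.sinh (3 * u / 2) ^ 2 + c ^ 2)) * A u
      = 3 / (4 * Real.pi) * s * (A u / Real.sinh (3 * u / 2))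
        - 3 / (4 * Real.pi) * s * c ^ 2 * (A u /
      (Real.sinh (3 * u / 2) * (Real.sinh (3 * u / 2) ^ 2 + c ^ 2))) := by
    intro u
    by_cases hS : Real.sinh (3 * u / 2) = 0
    · rw [hS]; simp
    · have h2 : Real.sinh (3 * u / 2) ^ 2 + c ^ 2 ≠ 0 := by positivity
      field_simp
      ring
  simp_rw [hpt]
  rw [integral_sub (i1.const_mul _) (i2.const_mul _), integral_const_mul, integral_const_mul]
  unfold JA
  rw [sub_sub_cancel_left, abs_neg, abs_mul, abs_mul, abs_mul, abs_of_pos (by positivity :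
    0 < 3 / (4 * Real.pi)), abs_of_pos (by positivity : 0 < c ^ 2)]
  refine mul_le_mul_of_nonneg_left ?_ (by positivity)
  rw [← Real.norm_eq_abs]
  refine (norm_integral_le_of_norm_le ((w3_int m).const_mul (a / 8))
    (Eventually.of_forall fun u => ?_)).trans ?_
  · rw [Real.norm_eq_abs]; exact b2 u
  · rw [integral_const_mul, w3_integral]

theorem even_part (m : ℕ) (A : ℝ → ℝ) (a : ℝ) (ha : 0 ≤ a) (hA : Continuous A)
    (hAb : ∀ u, |A u| ≤ a * |ta u| ^ (2 * m + 3)) {c : ℝ} (hc : 0 < c) (hc1 : c ≤ 1) :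
    |(∫ u : ℝ, (3 / (4 * Real.pi) * (Real.cosh (3 * u / 2) * c)
      / (Real.sinh (3 * u / 2) ^ 2 + c ^ 2)) * A u)
      - c * ∫ u : ℝ, (3 / (4 * Real.pi) * (Real.cosh (3 * u / 2) * 1)
      / (Real.sinh (3 * u / 2) ^ 2 + 1 ^ 2)) * A u|
      ≤ c * (3 / (4 * Real.pi) * (a / 4 *
        ((64 / 3) / ((2 * m + 1) * (2 * m + 3) * (2 * m + 5))))) := by
  have hpi := Real.pi_pos
  have hSm : Measurable (fun u : ℝ => Real.sinh (3 * u / 2)) :=
    (Real.continuous_sinh.comp (by fun_prop)).measurable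
  have hCm : Measurable (fun u : ℝ => Real.cosh (3 * u / 2)) :=
    (Real.continuous_cosh.comp (by fun_prop)).measurable
  have hAa : ∀ u, |A u| ≤ a := by
    intro u
    refine (hAb u).trans ?_
    have : |ta u| ^ (2 * m + 3) ≤ 1 := pow_le_one₀ (abs_nonneg _) (ta_abs u)
    nlinarith
  have hsq : ∀ u : ℝ, Real.cosh (3 * u / 2) ^ 2 = Real.sinh (3 * u / 2) ^ 2 + 1 :=
    fun u => Real.cosh_sq _
  have i1 : Integrable (fun u : ℝ => kk u * A u) := by
    refine (kk_integrable.const_mul a).mono' (kk_cont.mul hA).aestronglyMeasurable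
      (Eventually.of_forall fun u => ?_)
    rw [Real.norm_eq_abs, abs_mul, abs_of_pos (kk_pos u), mul_comm]
    exact mul_le_mul_of_nonneg_right (hAa u) (kk_pos u).le
  have b2 : ∀ u : ℝ, |A u / (Real.cosh (3 * u / 2) * (Real.sinh (3 * u / 2) ^ 2 + c ^ 2))|
      ≤ a / 4 * w3 m u := by
    intro u
    rw [div_eq_mul_one_div, abs_mul]
    calc _ ≤ (a * |ta u| ^ (2 * m + 3)) *
            |1 / (Real.cosh (3 * u / 2) * (Real.sinh (3 * u / 2) ^ 2 + c ^ 2))| :=
          mul_le_mul_of_nonneg_right (hAb u) (abs_nonneg _)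
      _ = a * (|ta u| ^ (2 * m + 3) *
            |1 / (Real.cosh (3 * u / 2) * (Real.sinh (3 * u / 2) ^ 2 + c ^ 2))|) := by ring
      _ ≤ a * (w3 m u / 4) := mul_le_mul_of_nonneg_left (pt_C m u c) ha
      _ = _ := by ring
  have i2 : Integrable (fun u : ℝ => A u /
      (Real.cosh (3 * u / 2) * (Real.sinh (3 * u / 2) ^ 2 + c ^ 2))) := by
    refine ((w3_int m).const_mul (a / 4)).mono'
      (hA.measurable.div (hCm.mul ((hSm.pow_const 2).add_const _))).aestronglyMeasurable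
      (Eventually.of_forall fun u => ?_)
    rw [Real.norm_eq_abs]
    exact b2 u
  have hpt : ∀ u : ℝ, (3 / (4 * Real.pi) * (Real.cosh (3 * u / 2) * c)
      / (Real.sinh (3 * u / 2) ^ 2 + c ^ 2)) * A u
      = c * (kk u * A u) + c * (3 / (4 * Real.pi)) * (1 - c ^ 2) * (A u /
      (Real.cosh (3 * u / 2) * (Real.sinh (3 * u / 2) ^ 2 + c ^ 2))) := by
    intro u
    have h2 : Real.sinh (3 * u / 2) ^ 2 + c ^ 2 ≠ 0 := by positivity
    have h3 := (Real.cosh_pos (3 * u / 2)).ne'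
    unfold kk
    field_simp
    rw [hsq u]
    ring
  have hpt1 : ∀ u : ℝ, (3 / (4 * Real.pi) * (Real.cosh (3 * u / 2) * 1)
      / (Real.sinh (3 * u / 2) ^ 2 + 1 ^ 2)) * A u = kk u * A u := by
    intro u
    have h3 := (Real.cosh_pos (3 * u / 2)).ne'
    rw [one_pow, ← hsq u]
    unfold kk
    field_simp
  simp_rw [hpt, hpt1]
  rw [integral_add (i1.const_mul _) (i2.const_mul _), integral_const_mul, integral_const_mul,
    add_sub_cancel_left, abs_mul, abs_mul, abs_mul, abs_of_pos hc, abs_of_pos (by positivity :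
    0 < 3 / (4 * Real.pi)), abs_of_nonneg (by nlinarith : 0 ≤ 1 - c ^ 2)]
  have h4 : |∫ u : ℝ, A u / (Real.cosh (3 * u / 2) * (Real.sinh (3 * u / 2) ^ 2 + c ^ 2))|
      ≤ a / 4 * ((64 / 3) / ((2 * m + 1) * (2 * m + 3) * (2 * m + 5))) := by
    rw [← Real.norm_eq_abs]
    refine (norm_integral_le_of_norm_le ((w3_int m).const_mul (a / 4))
      (Eventually.of_forall fun u => ?_)).trans ?_
    · rw [Real.norm_eq_abs]; exact b2 u
    · rw [integral_const_mul, w3_integral]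
  have h5 : 1 - c ^ 2 ≤ 1 := by nlinarith [sq_nonneg c]
  have h6 : 0 ≤ 1 - c ^ 2 := by nlinarith
  calc c * (3 / (4 * Real.pi)) * (1 - c ^ 2) * |∫ u : ℝ, A u / (Real.cosh (3 * u / 2) *
        (Real.sinh (3 * u / 2) ^ 2 + c ^ 2))|
      ≤ c * (3 / (4 * Real.pi)) * 1 * (a / 4 * ((64 / 3) / ((2 * m + 1) * (2 * m + 3) * (2 * m + 5)))) := by
        gcongr
    _ = _ := by ring

end H729I
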