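import Pool.Agent.Run7.h729.Iso.Mom

/-!
# Degenerate rows
-/

set_option autoImplicit false

namespace H729I
open H906K Pool.Agent.H974R3

theorem rw1_zero (n : ℕ) (b : Fin (2 * n + 1) → Bool) :
    rw1 n 0 b = if b = (fun _ => false) then 1 else 0 := by
  unfold rw1
  by_cases h : b = (fun _ => false)
  · rw [if_pos h, h]; simp
  · rw [if_neg h]
    obtain ⟨j, hj⟩ := Function.ne_iff.1 h
    have hj' : b j = true := by simpa using hj
    exact Finset.prod_eq_zero (Finset.mem_univ j) (by rw [if_pos hj'])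

theorem rw1_one (n : ℕ) (b : Fin (2 * n + 1) → Bool) :
    rw1 n 1 b = if b = (fun _ => true) then 1 else 0 := by
  unfold rw1
  by_cases h : b = (fun _ => true)
  · rw [if_pos h, h]; simp
  · rw [if_neg h]
    obtain ⟨j, hj⟩ := Function.ne_iff.1 h
    have hj' : ¬ b j = true := by simpa using hj
    exact Finset.prod_eq_zero (Finset.mem_univ j) (by rw [if_neg hj']; norm_num)

theorem dword_false (m k j : ℕ) (σ : Pat (m + 1)) : dword m (fun _ => false) k j σ = 0 := by
  induction j with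
  | zero => rfl
  | succ j ih => unfold dword; rw [ih]; simp

theorem dTc_false (m : ℕ) (σ : Pat (m + 1)) : dTc m (fun _ => false) σ = 1 := by
  have h : ∃ k : ℕ, k < m + 1 ∧ (fun _ : Fin (m + 1) => false) (ix m k) = false :=
    ⟨0, by omega, rfl⟩
  unfold dTc
  rw [dif_pos h, dword_false]
  rfl

theorem dTc_true (m : ℕ) (σ : Pat (m + 1)) : dTc m (fun _ => true) σ = -1 := by
  have h : ¬ ∃ k : ℕ, k < m + 1 ∧ (fun _ : Fin (m + 1) => true) (ix m k) = false := by
    rintro ⟨k, -, hk⟩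
    exact Bool.noConfusion hk
  unfold dTc
  rw [dif_neg h]

theorem prob_zero : prob 0 = 0 := by
  unfold prob
  simp

theorem prob_pi : prob Real.pi = 1 := by
  unfold prob
  have h : 0 < Real.sin (Real.pi / 3) := by
    apply Real.sin_pos_of_pos_of_lt_pi <;> linarith [Real.pi_pos]
  rw [sub_self, zero_div, Real.sin_zero, add_zero, div_self h.ne']

theorem iter_zero {α : Type*} (F : α → α) (h : α → ℝ) (B : ℝ) (hB : ∀ a, |h a| ≤ B) (d : ℝ)
    (hd : ∀ a, h (F a) = h a + d) (a : α) : d = 0 := by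
  have h1 : ∀ k : ℕ, h (F^[k] a) = h a + k * d := by
    intro k
    induction k with
    | zero => simp
    | succ k ih =>
      rw [Function.iterate_succ_apply', hd, ih]
      push_cast
      ring
  by_contra hne
  have hpos : 0 < |d| := abs_pos.2 hne
  obtain ⟨k, hk⟩ := exists_nat_gt (2 * B / |d|)
  have h2 := h1 k
  have h3 : |(k : ℝ) * d| ≤ 2 * B := by
    have : (k : ℝ) * d = h (F^[k] a) - h a := by rw [h2]; ring
    rw [this]
    have a1 := hB (F^[k] a)
    have a2 := hB a
    calc _ ≤ |h (F^[k] a)| + |h a| := abs_sub _ _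
      _ ≤ _ := by linarith
  rw [abs_mul, abs_of_nonneg (Nat.cast_nonneg k : (0 : ℝ) ≤ k)] at h3
  rw [div_lt_iff₀ hpos] at hk
  linarith

variable {n : ℕ} {f g : Pat (2 * n + 1) → ℝ} {v D : ℝ → ℝ}

/-- the facts about the degenerate rows -/
structure Dg (n : ℕ) (f g : Pat (2 * n + 1) → ℝ) (v D : ℝ → ℝ) : Prop where
  v0 : v 0 = 1
  v1 : v Real.pi = -1
  D0 : D 0 = 0
  D1 : D Real.pi = 0
  f0 : ∀ σ, f (Tc (2 * n) (fun _ => false) σ) = f σ
  f1 : ∀ σ, f (Tc (2 * n) (fun _ => true) σ) = f σ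
  g0 : ∀ σ, g (Tc (2 * n) (fun _ => false) σ) = g σ
  g1 : ∀ σ, g (Tc (2 * n) (fun _ => true) σ) = g σ

theorem dg (h : Crr n f g v D) : Dg n f g v D := by
  have hpi := Real.pi_pos
  have m0 : (0 : ℝ) ∈ Set.Icc 0 Real.pi := ⟨le_rfl, hpi.le⟩
  have mp : Real.pi ∈ Set.Icc 0 Real.pi := ⟨hpi.le, le_rfl⟩
  have a1 : ∀ σ, 1 + f (Tc (2 * n) (fun _ => false) σ) = f σ + v 0 := by
    intro σ
    have h1 := h.m1 0 m0 σ
    rw [prob_zero] at h1
    simp only [rw1_zero, ite_mul, one_mul, zero_mul, Finset.sum_ite_eq', Finset.mem_univ,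
      if_true, dTc_false] at h1
    simpa using h1
  have v0 : v 0 = 1 := by
    have h2 := iter_zero (Tc (2 * n) (fun _ => false)) f (bd f) (bd_le f) (v 0 - 1)
      (fun σ => by linarith [a1 σ]) (start n)
    linarith
  have f0 : ∀ σ, f (Tc (2 * n) (fun _ => false) σ) = f σ := fun σ => by linarith [a1 σ]
  have b1 : ∀ σ, -1 + f (Tc (2 * n) (fun _ => true) σ) = f σ + v Real.pi := by
    intro σ
    have h1 := h.m1 Real.pi mp σ
    rw [prob_pi] at h1
    simp only [rw1_one, ite_mul, one_mul, zero_mul, Finset.sum_ite_eq', Finset.mem_univ,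
      if_true, dTc_true] at h1
    push_cast at h1
    linarith
  have v1 : v Real.pi = -1 := by
    have h2 := iter_zero (Tc (2 * n) (fun _ => true)) f (bd f) (bd_le f) (v Real.pi + 1)
      (fun σ => by linarith [b1 σ]) (start n)
    linarith
  have f1 : ∀ σ, f (Tc (2 * n) (fun _ => true) σ) = f σ := fun σ => by linarith [b1 σ]
  have a2 : ∀ σ, g (Tc (2 * n) (fun _ => false) σ) = g σ + D 0 := by
    intro σ
    have h1 := h.m2 0 m0 σ
    rw [prob_zero] at h1
    simp only [rw1_zero, ite_mul, one_mul, zero_mul, Finset.sum_ite_eq', Finset.mem_univ,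
      if_true, dTc_false] at h1
    rw [f0, v0] at h1
    push_cast at h1
    nlinarith
  have D0 : D 0 = 0 := iter_zero (Tc (2 * n) (fun _ => false)) g (bd g) (bd_le g) (D 0)
      a2 (start n)
  have b2 : ∀ σ, g (Tc (2 * n) (fun _ => true) σ) = g σ + D Real.pi := by
    intro σ
    have h1 := h.m2 Real.pi mp σ
    rw [prob_pi] at h1
    simp only [rw1_one, ite_mul, one_mul, zero_mul, Finset.sum_ite_eq', Finset.mem_univ,
      if_true, dTc_true] at h1
    rw [f1, v1] at h1
    push_cast at h1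
    nlinarith
  have D1 : D Real.pi = 0 := iter_zero (Tc (2 * n) (fun _ => true)) g (bd g) (bd_le g) (D Real.pi)
      b2 (start n)
  exact ⟨v0, v1, D0, D1, f0, f1, fun σ => by rw [a2, D0, add_zero],
    fun σ => by rw [b2, D1, add_zero]⟩

end H729I
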