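import Pool.Agent.Run7.h729.Iso.Asy
import Pool.Agent.Run7.h729.Iso.Deg

/-!
# The drift is the cosine, the diffusivity is the sine of the angle
-/

set_option autoImplicit false

namespace H729I
open MeasureTheory Filter Topology Set H906K Pool.Agent.H974R3 Complex Polynomial

theorem T1_eq {n : ℕ} {t : (PowerSeries ℂ)[X]} {s1 : ℝ[X]}
    (h : C (1 / (2 * n + 1 : ℂ)) * e4_cf 1 t = s1.map (algebraMap ℝ ℂ)) (θ : ℝ) :
    T1 n t θ = (2 * n + 1 : ℂ) * Xc n s1 ((ph θ : ℂ) * I) := by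
  have hN : ((2 * n + 1 : ℂ)) ≠ 0 := by exact_mod_cast (by omega : 2 * n + 1 ≠ 0)
  have h1 := congrArg (fun p : ℂ[X] => p.eval (cexp ((ph θ : ℂ) * I))) h
  simp only [eval_mul, eval_C] at h1
  unfold T1 Xc
  rw [← h1]
  field_simp

theorem T2_eq {n : ℕ} {t : (PowerSeries ℂ)[X]} {s2 r2 : ℝ[X]}
    (h : C (1 / (2 * n + 1 : ℂ) ^ 2) * e4_cf 2 t
      = s2.map (algebraMap ℝ ℂ) + C I * r2.map (algebraMap ℝ ℂ)) (θ : ℝ) :
    T2 n t θ = (2 * n + 1 : ℂ) ^ 2 * (Xc n s2 ((ph θ : ℂ) * I) + I * Xc n r2 ((ph θ : ℂ) * I)) := by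
  have hN : ((2 * n + 1 : ℂ)) ≠ 0 := by exact_mod_cast (by omega : 2 * n + 1 ≠ 0)
  have h1 := congrArg (fun p : ℂ[X] => p.eval (cexp ((ph θ : ℂ) * I))) h
  simp only [eval_mul, eval_C, eval_add] at h1
  unfold T2 Xc
  have h2 : (e4_cf 2 t).eval (cexp ((ph θ : ℂ) * I)) = (2 * n + 1 : ℂ) ^ 2 *
      ((s2.map (algebraMap ℝ ℂ)).eval (cexp ((ph θ : ℂ) * I))
        + I * (r2.map (algebraMap ℝ ℂ)).eval (cexp ((ph θ : ℂ) * I))) := by
    rw [← h1]
    field_simp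
  rw [h2]
  ring

theorem im_poly (p : ℂ[X]) (a : ℝ[X]) (ha : ∀ k, a.coeff k = (p.coeff k).re) :
    ∃ b : ℝ[X], p = a.map (algebraMap ℝ ℂ) + C I * b.map (algebraMap ℝ ℂ) := by
  refine ⟨∑ k ∈ p.support, monomial k (p.coeff k).im, ?_⟩
  ext1 j
  rw [coeff_add, coeff_map, coeff_C_mul, coeff_map, finsetSum_coeff, ha]
  simp only [coeff_monomial]
  rw [Finset.sum_ite_eq' p.support j]
  by_cases hj : j ∈ p.support
  · rw [if_pos hj]
    conv_lhs => rw [← re_add_im (p.coeff j)]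
    simp only [Complex.coe_algebraMap]
    ring
  · rw [if_neg hj]
    have : p.coeff j = 0 := by simpa using hj
    rw [this]
    simp

theorem Xc_conj (n : ℕ) (r : ℝ[X]) (z : ℂ) :
    Xc n r ((starRingEnd ℂ) z) = (starRingEnd ℂ) (Xc n r z) := by
  unfold Xc
  rw [Complex.exp_conj, eval_map_algebraMap, eval_map_algebraMap, aeval_conj]
  simp [map_div₀, map_pow, map_add]

theorem conj_phI (θ : ℝ) : ((ph (Real.pi - θ) : ℝ) : ℂ) * I
    = (starRingEnd ℂ) (((ph θ : ℝ) : ℂ) * I) := by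
  rw [map_mul, conj_ofReal, conj_I]
  have : ph (Real.pi - θ) = -ph θ := by unfold ph; ring
  rw [this]
  push_cast
  ring

/-- the boundary values of the second cumulant -/
theorem bdry_Y {n : ℕ} {t1 t2 V1 V2 : ℝ[X]} (h : RPert n t1 t2 V1 V2) (u : ℝ) :
    (fun z => Xc n t2 z - Xc n t1 z ^ 2 / 2) (u + Real.pi / 3 * Complex.I)
      + (fun z => Xc n t2 z - Xc n t1 z ^ 2 / 2) (u - Real.pi / 3 * Complex.I)
      = (A2 (2 * n + 1) (fun u => (Xc n t1 u).re) (fun u => (Bc V1 V2 u).re) u : ℂ) := by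
  obtain ⟨a3, ⟨K3, b3⟩, c3, d3, e3, f3⟩ := Bc_an h
  have h1 := g5_A1 h u
  have h2 := rel_two h u
  rw [h1] at h2
  have h3 := g5_re (c3 u)
  rw [h3] at h2
  have e : Xc n t2 (u + Real.pi / 3 * Complex.I) - Xc n t1 (u + Real.pi / 3 * Complex.I) ^ 2 / 2
      + (Xc n t2 (u - Real.pi / 3 * Complex.I)
        - Xc n t1 (u - Real.pi / 3 * Complex.I) ^ 2 / 2) =
      (Xc n t2 (u + Real.pi / 3 * Complex.I) + Xc n t2 (u - Real.pi / 3 * Complex.I)
        + Xc n t1 (u + Real.pi / 3 * Complex.I) * Xc n t1 (u - Real.pi / 3 * Complex.I))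
      - (Xc n t1 (u + Real.pi / 3 * Complex.I)
        + Xc n t1 (u - Real.pi / 3 * Complex.I)) ^ 2 / 2 := by ring
  show Xc n t2 (u + Real.pi / 3 * Complex.I) - Xc n t1 (u + Real.pi / 3 * Complex.I) ^ 2 / 2
      + (Xc n t2 (u - Real.pi / 3 * Complex.I)
        - Xc n t1 (u - Real.pi / 3 * Complex.I) ^ 2 / 2) = _
  rw [e, h2, h1]
  unfold A2
  push_cast
  ring

/-- the second cumulant -/
noncomputable def Yc (n : ℕ) (s1 s2 : ℝ[X]) (z : ℂ) : ℂ := Xc n s2 z - Xc n s1 z ^ 2 / 2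

theorem analytic {m : ℕ} {s1 s2 V1 V2 : ℝ[X]} (h : RPert (m + 1) s1 s2 V1 V2) :
    (∃ J : ℝ, ∀ θ ∈ Ioo 0 Real.pi, |(Xc (m + 1) s1 ((ph θ : ℂ) * I)).im - J * Real.cos θ|
      ≤ 3 / (4 * Real.pi) * |Real.cos θ| * Real.sin θ ^ 2 * (2 * √3 / 8 *
        ((64 / 3) / ((2 * m + 1) * (2 * m + 3) * (2 * m + 5))))) ∧
    ∀ θ ∈ Ioo 0 Real.pi, |(Yc (m + 1) s1 s2 ((ph θ : ℂ) * I)).re
      - Real.sin θ * (Yc (m + 1) s1 s2 0).re|
      ≤ Real.sin θ * (3 / (4 * Real.pi) * (12 / 4 *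
        ((64 / 3) / ((2 * m + 1) * (2 * m + 3) * (2 * m + 5))))) := by
  have hpi := Real.pi_pos
  have hsys := sys_of_rpert h
  obtain ⟨-, -, -, bA1, bA2, -, -⟩ := sys_bounds (by omega) hsys
  obtain ⟨-, -, -, nA1, nA2⟩ := sys_nice (by omega) hsys
  obtain ⟨a1, ⟨K1, b1⟩, c1, d1, e1, f1⟩ := Xc_an (m + 1) s1 (g5_deg h.pert.deg1)
  obtain ⟨a2, ⟨K2, b2⟩, c2, d2, e2, f2⟩ := Xc_an (m + 1) s2 (g5_deg h.pert.deg2)
  have hexp : 2 * (m + 1) + 1 = 2 * m + 3 := by ring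
  have hb1 : ∀ u, |A1 (2 * (m + 1) + 1) (fun u => (Xc (m + 1) s1 u).re) u|
      ≤ 2 * √3 * |ta u| ^ (2 * m + 3) := by
    intro u
    have := bA1 u
    rw [← hexp]
    exact this
  have hb2 : ∀ u, |A2 (2 * (m + 1) + 1) (fun u => (Xc (m + 1) s1 u).re)
      (fun u => (Bc V1 V2 u).re) u| ≤ 12 * |ta u| ^ (2 * m + 3) := by
    intro u
    have := bA2 u
    rw [← hexp]
    exact this
  have hle1 : ∀ u, |A1 (2 * (m + 1) + 1) (fun u => (Xc (m + 1) s1 u).re) u| ≤ 2 * √3 := by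
    intro u
    refine (hb1 u).trans ?_
    have h1 : |ta u| ^ (2 * m + 3) ≤ 1 := pow_le_one₀ (abs_nonneg _) (ta_abs u)
    have h2 : 0 ≤ 2 * √3 := by positivity
    nlinarith
  have hle2 : ∀ u, |A2 (2 * (m + 1) + 1) (fun u => (Xc (m + 1) s1 u).re)
      (fun u => (Bc V1 V2 u).re) u| ≤ 12 := by
    intro u
    refine (hb2 u).trans ?_
    have h1 : |ta u| ^ (2 * m + 3) ≤ 1 := pow_le_one₀ (abs_nonneg _) (ta_abs u)
    linarith
  constructor
  · refine ⟨3 / (4 * Real.pi) * JA (A1 (2 * (m + 1) + 1) (fun u => (Xc (m + 1) s1 u).re)),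
      fun θ hθ => ?_⟩
    obtain ⟨-, him⟩ := rep_parts (Xc (m + 1) s1)
      (A1 (2 * (m + 1) + 1) (fun u => (Xc (m + 1) s1 u).re)) K1 (2 * √3)
      (fun z hz => a1 z (hz.trans g5_pi)) (fun z hz => b1 z (hz.trans g5_pi)) (g5_A1 h)
      nA1.1.continuous hle1 (ph θ) (ph_lt hθ)
    rw [him, (ph_trig θ).1, (ph_trig θ).2]
    have hs : 0 < Real.sin θ := Real.sin_pos_of_mem_Ioo hθ
    have := odd_part m (A1 (2 * (m + 1) + 1) (fun u => (Xc (m + 1) s1 u).re)) (2 * √3)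
      (by positivity) nA1.1.continuous hb1 (s := Real.cos θ) hs
    convert this using 2
    ring
  · intro θ hθ
    have hrep : ∀ θ ∈ Ioo 0 Real.pi, (Yc (m + 1) s1 s2 ((ph θ : ℂ) * I)).re
        = ∫ u : ℝ, (3 / (4 * Real.pi) * (Real.cosh (3 * u / 2) * Real.sin θ)
      / (Real.sinh (3 * u / 2) ^ 2 + Real.sin θ ^ 2)) *
        A2 (2 * (m + 1) + 1) (fun u => (Xc (m + 1) s1 u).re) (fun u => (Bc V1 V2 u).re) u := by
      intro θ hθ
      obtain ⟨hre, -⟩ := rep_parts (fun z => Xc (m + 1) s2 z - Xc (m + 1) s1 z ^ 2 / 2)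
        (A2 (2 * (m + 1) + 1) (fun u => (Xc (m + 1) s1 u).re) (fun u => (Bc V1 V2 u).re))
        (K2 + K1 ^ 2 / 2) 12
        (fun z hz => (a2 z (hz.trans g5_pi)).sub (((a1 z (hz.trans g5_pi)).pow 2).div_const 2))
        (fun z hz => by
          refine (norm_sub_le _ _).trans (add_le_add (b2 z (hz.trans g5_pi)) ?_)
          rw [norm_div, norm_pow, Complex.norm_two]
          have := b1 z (hz.trans g5_pi)
          have h0 := norm_nonneg (Xc (m + 1) s1 z)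
          gcongr)
        (bdry_Y h) nA2.1.continuous hle2 (ph θ) (ph_lt hθ)
      rw [(ph_trig θ).1] at hre
      exact hre
    have hhalf : Real.pi / 2 ∈ Ioo 0 Real.pi := ⟨by positivity, by linarith⟩
    have h0 : ((ph (Real.pi / 2) : ℝ) : ℂ) * I = 0 := by
      have : ph (Real.pi / 2) = 0 := by unfold ph; ring
      rw [this]; simp
    have h1 := hrep _ hhalf
    rw [h0, Real.sin_pi_div_two] at h1
    rw [hrep θ hθ, h1]
    exact even_part m _ 12 (by norm_num) nA2.1.continuous hb2 (Real.sin_pos_of_mem_Ioo hθ)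
      (Real.sin_le_one θ)

/-- **drift and diffusivity**: cosine and sine of the angle -/
theorem main_asy : ∃ K : ℝ, 0 < K ∧ ∀ n : ℕ, 1 ≤ n → ∃ (f g : Pat (2 * n + 1) → ℝ) (v D : ℝ → ℝ),
    Crr n f g v D ∧ ContinuousOn v (Icc 0 Real.pi) ∧ ContinuousOn D (Icc 0 Real.pi) ∧
    ∀ θ ∈ Icc 0 Real.pi, |v θ - Real.cos θ| ≤ K * Real.sin θ ^ 2 / (2 * n + 1) ^ 2 ∧
      |2 * Real.pi * D θ / (2 * n + 1) - 6 * Real.sin θ| ≤ K * Real.sin θ / (2 * n + 1) := by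
  obtain ⟨K0, hK0⟩ := sys_asymp
  have hpi := Real.pi_pos
  refine ⟨4 * Real.pi * |K0| + 500, by positivity, fun n hn => ?_⟩
  obtain ⟨f, g, t, ht, hre, hC⟩ := crr_exists n
  set v : ℝ → ℝ := fun θ => (T1 n t θ).im with hv
  set D : ℝ → ℝ := fun θ => -2 * (T2 n t θ).re - (T1 n t θ).im ^ 2 with hD
  obtain ⟨m, rfl⟩ : ∃ m, n = m + 1 := ⟨n - 1, by omega⟩
  have hP := pert_of_tspec' (m + 1) t ht
  obtain ⟨s1, s2, V1, V2, hR, hs1, hs2⟩ := rpert_of_pert (m + 1) _ _ hP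
  obtain ⟨r2, hr2⟩ := im_poly _ s2 hs2
  have e1 := T1_eq hs1
  have e2 := T2_eq hr2
  obtain ⟨⟨J, hJ⟩, hY⟩ := analytic hR
  have hdg := dg hC
  -- continuity
  have hne : ∀ θ ∈ Icc 0 Real.pi, (1 + cexp ((ph θ : ℂ) * I)) ^ (2 * (m + 1) + 1) ≠ 0 :=
    fun θ hθ => pow_ne_zero _ (one_add_ne hθ)
  have hphc : Continuous fun θ : ℝ => cexp ((ph θ : ℂ) * I) := by
    have : Continuous ph := by unfold ph; fun_prop
    exact Complex.continuous_exp.comp ((Complex.continuous_ofReal.comp this).mul continuous_const)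
  have cT1 : ContinuousOn (T1 (m + 1) t) (Icc 0 Real.pi) := by
    unfold T1
    refine ContinuousOn.div ?_ ?_ hne
    · exact ((Polynomial.continuous _).comp hphc).continuousOn
    · exact ((continuous_const.add hphc).pow _).continuousOn
  have cT2 : ContinuousOn (T2 (m + 1) t) (Icc 0 Real.pi) := by
    unfold T2
    refine ContinuousOn.div ?_ ?_ hne
    · exact ((Polynomial.continuous _).comp hphc).continuousOn
    · exact ((continuous_const.add hphc).pow _).continuousOn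
  have cv : ContinuousOn v (Icc 0 Real.pi) := Complex.continuous_im.comp_continuousOn cT1
  have cD : ContinuousOn D (Icc 0 Real.pi) :=
    ((Complex.continuous_re.comp_continuousOn cT2).const_mul _).sub (cv.pow 2)
  -- the numbers
  have hN : (2 * ((m + 1 : ℕ) : ℝ) + 1) = 2 * m + 3 := by push_cast; ring
  have hNC : (2 * ((m + 1 : ℕ) : ℂ) + 1) = ((2 * m + 3 : ℝ) : ℂ) := by push_cast; ring
  set N : ℝ := 2 * m + 3 with hNdef
  have hN3 : 3 ≤ N := by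
    have : (0 : ℝ) ≤ m := Nat.cast_nonneg m
    linarith
  have hN0 : 0 < N := by linarith
  have hprod : ((2 * (m : ℝ) + 1) * (2 * m + 3) * (2 * m + 5)) = N * (N ^ 2 - 4) := by
    rw [hNdef]; ring
  have hN4 : 5 / 9 * N ^ 2 ≤ N ^ 2 - 4 := by nlinarith
  have hN4p : 0 < N ^ 2 - 4 := by nlinarith
  rw [hprod] at hJ hY
  have hvX : ∀ θ, v θ = N * (Xc (m + 1) s1 ((ph θ : ℂ) * I)).im := by
    intro θ
    simp only [hv]
    rw [e1 θ, hNC, Complex.im_ofReal_mul]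
  -- the drift
  have hvJ : ∀ θ ∈ Ioo 0 Real.pi, |v θ - N * J * Real.cos θ|
      ≤ 4 * √3 / Real.pi / (N ^ 2 - 4) * |Real.cos θ| * Real.sin θ ^ 2 := by
    intro θ hθ
    have h1 := hJ θ hθ
    have h2 : v θ - N * J * Real.cos θ = N * ((Xc (m + 1) s1 ((ph θ : ℂ) * I)).im
        - J * Real.cos θ) := by rw [hvX]; ring
    rw [h2, abs_mul, abs_of_pos hN0]
    calc _ ≤ N * (3 / (4 * Real.pi) * |Real.cos θ| * Real.sin θ ^ 2 * (2 * √3 / 8 *
        ((64 / 3) / (N * (N ^ 2 - 4))))) := mul_le_mul_of_nonneg_left h1 hN0.le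
      _ = _ := by field_simp; ring
  have hNJ : N * J = 1 := by
    have hT : Tendsto v (𝓝[>] 0) (𝓝 1) := by
      have h1 : ContinuousWithinAt v (Icc 0 Real.pi) 0 := cv 0 ⟨le_rfl, hpi.le⟩
      have h2 : Tendsto v (𝓝[Ioo 0 Real.pi] 0) (𝓝 (v 0)) := h1.mono Ioo_subset_Icc_self
      rw [hdg.v0] at h2
      rwa [nhdsWithin_Ioo_eq_nhdsGT hpi] at h2
    have hc : Tendsto Real.cos (𝓝[>] 0) (𝓝 1) := by
      have := Real.continuous_cos.tendsto 0
      rw [Real.cos_zero] at this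
      exact this.mono_left nhdsWithin_le_nhds
    have hs : Tendsto Real.sin (𝓝[>] 0) (𝓝 0) := by
      have := Real.continuous_sin.tendsto 0
      rw [Real.sin_zero] at this
      exact this.mono_left nhdsWithin_le_nhds
    have h3 : Tendsto (fun θ => |v θ - N * J * Real.cos θ|) (𝓝[>] 0) (𝓝 |1 - N * J * 1|) :=
      (hT.sub (hc.const_mul _)).abs
    have h4 : Tendsto (fun θ => 4 * √3 / Real.pi / (N ^ 2 - 4) * |Real.cos θ| * Real.sin θ ^ 2)
        (𝓝[>] 0) (𝓝 (4 * √3 / Real.pi / (N ^ 2 - 4) * |1| * 0 ^ 2)) :=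
      ((hc.abs).const_mul _).mul (hs.pow 2)
    have h5 : ∀ᶠ θ in 𝓝[>] (0 : ℝ), θ ∈ Ioo 0 Real.pi := by
      rw [← nhdsWithin_Ioo_eq_nhdsGT hpi]
      exact self_mem_nhdsWithin
    have h6 := le_of_tendsto_of_tendsto h3 h4 (h5.mono fun θ hθ => hvJ θ hθ)
    have h7 : |1 - N * J * 1| ≤ 0 := by
      refine h6.trans (le_of_eq ?_)
      ring
    have h8 := abs_nonpos_iff.1 h7
    linarith
  have hvb : ∀ θ ∈ Ioo 0 Real.pi, |v θ - Real.cos θ| ≤ 5 * Real.sin θ ^ 2 / N ^ 2 := by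
    intro θ hθ
    have h1 := hvJ θ hθ
    rw [hNJ, one_mul] at h1
    refine h1.trans ?_
    have h2 : |Real.cos θ| ≤ 1 := Real.abs_cos_le_one θ
    have h3 : 4 * √3 / Real.pi ≤ 25 / 9 := by
      have a1 : √3 ≤ 1.7321 := by
        rw [Real.sqrt_le_left (by norm_num)]; norm_num
      have a2 := Real.pi_gt_d2
      rw [div_le_iff₀ hpi]
      nlinarith
    have h4 : 4 * √3 / Real.pi / (N ^ 2 - 4) ≤ 5 / N ^ 2 := by
      rw [div_le_div_iff₀ hN4p (by positivity)]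
      nlinarith [sq_nonneg N]
    have h5 : 0 ≤ 4 * √3 / Real.pi / (N ^ 2 - 4) := by positivity
    calc 4 * √3 / Real.pi / (N ^ 2 - 4) * |Real.cos θ| * Real.sin θ ^ 2
        ≤ 4 * √3 / Real.pi / (N ^ 2 - 4) * 1 * Real.sin θ ^ 2 := by gcongr
      _ ≤ 5 / N ^ 2 * 1 * Real.sin θ ^ 2 := by gcongr
      _ = _ := by ring
  -- the diffusivity
  have hDY : ∀ θ ∈ Icc 0 Real.pi, D θ = -2 * N ^ 2 * (Yc (m + 1) s1 s2 ((ph θ : ℂ) * I)).re := by
    intro θ hθ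
    set z : ℂ := (ph θ : ℂ) * I with hz
    have hz' : ((ph (Real.pi - θ) : ℝ) : ℂ) * I = (starRingEnd ℂ) z := conj_phI θ
    have hsq : ((2 * m + 3 : ℝ) : ℂ) ^ 2 = ((N ^ 2 : ℝ) : ℂ) := by rw [hNdef]; push_cast; ring
    have h2 : ∀ θ, (T2 (m + 1) t θ).re = N ^ 2 * ((Xc (m + 1) s2 ((ph θ : ℂ) * I)).re
        - (Xc (m + 1) r2 ((ph θ : ℂ) * I)).im) := by
      intro θ
      rw [e2 θ, hNC, hsq, Complex.re_ofReal_mul, Complex.add_re, Complex.I_mul_re]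
      ring
    have h3 : D θ = -2 * (N ^ 2 * ((Xc (m + 1) s2 z).re - (Xc (m + 1) r2 z).im)) - v θ ^ 2 := by
      simp only [hD]
      rw [h2 θ]
    have h4 : D (Real.pi - θ) = -2 * (N ^ 2 * ((Xc (m + 1) s2 z).re + (Xc (m + 1) r2 z).im))
        - v θ ^ 2 := by
      have h5 : D (Real.pi - θ) = -2 * (N ^ 2 * ((Xc (m + 1) s2 ((starRingEnd ℂ) z)).re
          - (Xc (m + 1) r2 ((starRingEnd ℂ) z)).im)) - v (Real.pi - θ) ^ 2 := by
        simp only [hD]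
        rw [h2 (Real.pi - θ), hz']
      rw [h5, v_refl hC hθ, Xc_conj, Xc_conj, Complex.conj_re, Complex.conj_im]
      ring
    have h5 := D_refl hC hθ
    have h6 : (Xc (m + 1) r2 z).im = 0 := by
      have : N ^ 2 * (Xc (m + 1) r2 z).im = 0 := by linarith
      rcases mul_eq_zero.1 this with h | h
      · exact absurd h (by positivity)
      · exact h
    have h7 : (Xc (m + 1) s1 z).re = 0 := by
      have a1 := hre θ hθ
      rw [e1 θ, hNC, Complex.re_ofReal_mul] at a1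
      rcases mul_eq_zero.1 a1 with h | h
      · exact absurd h (by positivity)
      · exact h
    rw [h3, h6, hvX θ]
    unfold Yc
    have h8 : (Xc (m + 1) s2 z - Xc (m + 1) s1 z ^ 2 / 2).re
        = (Xc (m + 1) s2 z).re + (Xc (m + 1) s1 z).im ^ 2 / 2 := by
      have a1 : Xc (m + 1) s1 z = (((Xc (m + 1) s1 z).im : ℝ) : ℂ) * I := by
        apply Complex.ext
        · simp [h7]
        · simp
      have a2 : Xc (m + 1) s1 z ^ 2 / 2 = ((-((Xc (m + 1) s1 z).im ^ 2 / 2) : ℝ) : ℂ) := by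
        conv_lhs => rw [a1]
        push_cast
        rw [mul_pow, Complex.I_sq]
        ring
      rw [Complex.sub_re, a2, Complex.ofReal_re]
      ring
    rw [h8]
    ring
  have hY0 : |N * (Yc (m + 1) s1 s2 0).re + 3 / (2 * Real.pi)| ≤ |K0| / N := by
    have h1 := hK0 (m + 1) _ _ _ (by omega) (sys_of_rpert hR)
    rw [hN] at h1
    have h2 : (Xc (m + 1) s2 ((0 : ℝ) : ℂ)).re - (Xc (m + 1) s1 ((0 : ℝ) : ℂ)).re ^ 2 / 2
        = (Yc (m + 1) s1 s2 0).re := by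
      obtain ⟨-, -, c1, -⟩ := Xc_an (m + 1) s1 (g5_deg hR.pert.deg1)
      have a1 := g5_re (c1 0)
      rw [Complex.ofReal_zero] at a1 ⊢
      unfold Yc
      rw [Complex.sub_re]
      have a3 : Xc (m + 1) s1 0 ^ 2 / 2
          = (((Xc (m + 1) s1 0).re ^ 2 / 2 : ℝ) : ℂ) := by
        conv_lhs => rw [a1]
        push_cast
        ring
      rw [a3, Complex.ofReal_re]
    rw [h2] at h1
    refine h1.trans ?_
    gcongr
    exact le_abs_self _
  have hDb : ∀ θ ∈ Ioo 0 Real.pi, |2 * Real.pi * D θ / N - 6 * Real.sin θ|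
      ≤ (4 * Real.pi * |K0| + 500) * Real.sin θ / N := by
    intro θ hθ
    have hs : 0 < Real.sin θ := Real.sin_pos_of_mem_Ioo hθ
    have h1 := hY θ hθ
    rw [hDY θ (Ioo_subset_Icc_self hθ)]
    set Yt := (Yc (m + 1) s1 s2 ((ph θ : ℂ) * I)).re with hYt
    set Y0 := (Yc (m + 1) s1 s2 0).re with hY0'
    have h2 : 2 * Real.pi * (-2 * N ^ 2 * Yt) / N - 6 * Real.sin θ
        = -(4 * Real.pi * N) * (Yt - Real.sin θ * Y0)
          - 4 * Real.pi * Real.sin θ * (N * Y0 + 3 / (2 * Real.pi)) := by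
      field_simp
      ring
    rw [h2]
    have h3 : |-(4 * Real.pi * N) * (Yt - Real.sin θ * Y0)|
        ≤ 4 * Real.pi * N * (Real.sin θ * (3 / (4 * Real.pi) * (12 / 4 *
        ((64 / 3) / (N * (N ^ 2 - 4)))))) := by
      rw [abs_mul, abs_neg, abs_of_pos (by positivity : 0 < 4 * Real.pi * N)]
      exact mul_le_mul_of_nonneg_left h1 (by positivity)
    have h4 : |4 * Real.pi * Real.sin θ * (N * Y0 + 3 / (2 * Real.pi))|
        ≤ 4 * Real.pi * Real.sin θ * (|K0| / N) := by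
      rw [abs_mul, abs_of_pos (by positivity : 0 < 4 * Real.pi * Real.sin θ)]
      exact mul_le_mul_of_nonneg_left hY0 (by positivity)
    have h5 : 4 * Real.pi * N * (Real.sin θ * (3 / (4 * Real.pi) * (12 / 4 *
        ((64 / 3) / (N * (N ^ 2 - 4)))))) ≤ 500 * Real.sin θ / N := by
      have : 4 * Real.pi * N * (Real.sin θ * (3 / (4 * Real.pi) * (12 / 4 *
        ((64 / 3) / (N * (N ^ 2 - 4)))))) = 192 * Real.sin θ / (N ^ 2 - 4) := by
        field_simp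
        ring
      rw [this, div_le_div_iff₀ hN4p hN0]
      have a1 : 192 * N ≤ 500 * (N ^ 2 - 4) := by nlinarith
      nlinarith
    calc _ ≤ |-(4 * Real.pi * N) * (Yt - Real.sin θ * Y0)|
          + |4 * Real.pi * Real.sin θ * (N * Y0 + 3 / (2 * Real.pi))| := abs_sub _ _
      _ ≤ 500 * Real.sin θ / N + 4 * Real.pi * Real.sin θ * (|K0| / N) :=
        add_le_add (h3.trans h5) h4
      _ = _ := by ring
  refine ⟨f, g, v, D, hC, cv, cD, fun θ hθ => ?_⟩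
  have hcast : (2 * ((m + 1 : ℕ) : ℝ) + 1) = N := hN
  rw [hcast]
  have hK : (5 : ℝ) ≤ 4 * Real.pi * |K0| + 500 := by
    have : 0 ≤ 4 * Real.pi * |K0| := by positivity
    linarith
  rcases eq_or_lt_of_le hθ.1 with h0 | h0
  · rw [← h0, hdg.v0, hdg.D0]
    simp
  rcases eq_or_lt_of_le hθ.2 with h1 | h1
  · rw [h1, hdg.v1, hdg.D1]
    simp
  have hθ' : θ ∈ Ioo 0 Real.pi := ⟨h0, h1⟩
  refine ⟨(hvb θ hθ').trans ?_, hDb θ hθ'⟩
  gcongr

end H729I
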