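import Pool.Agent.Run7.h729.Iso.Mkv

/-!
# The characteristic function of the displacement in a block of rows
-/

set_option autoImplicit false

namespace H729I
open H906K Pool.Agent.H974R3 Polynomial Complex Filter Topology

variable {n : ℕ} {t : (PowerSeries ℂ)[X]} {w : Pat (2 * n + 1) → PowerSeries ℂ}
  {μ : Pat (2 * n + 1) → ℝ}

theorem QQ_hom (m : ℕ) (F : Pat (2 * n + 1) → ℝ) :
    QQ n (fun _ => Real.pi / 2) m F = (Qo n (Real.pi / 2))^[m] F := by
  induction m generalizing F with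
  | zero => rfl
  | succ m ih =>
    rw [Function.iterate_succ_apply, ← ih]
    rfl

/-- second moment of the displacement for the stationary law -/
def M2 (n : ℕ) (μ : Pat (2 * n + 1) → ℝ) (C0 : ℝ) : Prop := ∀ j : ℕ, 1 ≤ j →
  ∑ σ, μ σ * EE (hom n) (j * (2 * n + 1)) (fun ω => |((run (2 * n) (j * (2 * n + 1)) ω σ).2 : ℝ)|)
    ≤ C0 * j * (2 * n + 1)

theorem m2_exists : ∃ C0 : ℝ, 0 < C0 ∧ ∀ n : ℕ, 1 ≤ n → ∀ (t : (PowerSeries ℂ)[X])
    (w : Pat (2 * n + 1) → PowerSeries ℂ) (μ : Pat (2 * n + 1) → ℝ), Eg n t w μ → M2 n μ C0 := by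
  obtain ⟨K', hK', hall⟩ := main_asy
  obtain ⟨B, hB⟩ := momB_exists
  have hB0 := hB.1
  refine ⟨1 + (2 * B + 2) + 2 * K', by positivity, fun n hn t w μ h j hj => ?_⟩
  obtain ⟨f, g, v, D, hc, -, -, hA⟩ := hall n hn
  set ϑ : ℕ → ℝ := fun _ => Real.pi / 2 with hϑd
  have hϑ : ∀ t, ϑ t ∈ Set.Icc 0 Real.pi := fun _ => half_mem
  set m := j * (2 * n + 1) with hm
  obtain ⟨K0, hK0⟩ := winding hB hK'.le hn hc hA hϑ m
  have hpi := Real.pi_pos
  have hN3 : (3 : ℝ) ≤ 2 * n + 1 := by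
    have : (1 : ℝ) ≤ n := by exact_mod_cast hn
    linarith
  have hj1 : (1 : ℝ) ≤ j := by exact_mod_cast hj
  have hsum : ∑ t ∈ Finset.range m, Real.sin (ϑ t) = j * (2 * n + 1) := by
    simp only [hϑd, Real.sin_pi_div_two, Finset.sum_const, Finset.card_range, nsmul_eq_mul, mul_one]
    rw [hm]; push_cast; ring
  have hcos : ∑ t ∈ Finset.range m, Real.cos (ϑ t) = 0 := by
    simp only [hϑd, Real.cos_pi_div_two, Finset.sum_const_zero]
  set N : ℝ := 2 * n + 1 with hN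
  have hN0 : 0 < N := by linarith
  set c : ℝ := (1 + (2 * B + 2) + 2 * K') * j * N with hcd
  have hc0 : 0 < c := by positivity
  -- the bound of the second moment
  have hnr : ∀ K ≥ K0, nr (det n (cat K ϑ)) (fun c : Conf n (K + m) => Aa Real.cos ϑ K c) ≤ c := by
    intro K hK
    have h1 := (abs_le.1 (hK0 K hK).2).2
    rw [hsum] at h1
    have e1 : √(3 * N / Real.pi * (j * N)) ≤ j * N := by
      rw [Real.sqrt_le_left (by positivity)]
      have h3 : 3 * N / Real.pi ≤ N := by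
        rw [div_le_iff₀ hpi]
        nlinarith [Real.pi_gt_three]
      calc 3 * N / Real.pi * (j * N) ≤ N * (j * N) := by gcongr
        _ = (1 * j) * N ^ 2 := by ring
        _ ≤ (j * j) * N ^ 2 := by gcongr
        _ = _ := by ring
    have e2 : √(j * N / N) ≤ j := by
      rw [mul_div_assoc, div_self hN0.ne', mul_one, Real.sqrt_le_left (by positivity)]
      nlinarith
    have e3 : K' * (j * N) / N ^ 2 ≤ K' * j * N := by
      rw [div_le_iff₀ (by positivity)]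
      have : (1 : ℝ) ≤ N ^ 2 := by nlinarith
      calc K' * (j * N) = K' * j * N * 1 := by ring
        _ ≤ K' * j * N * N ^ 2 := by gcongr
    have e4 : K' * √(j * N / N) ≤ K' * j * N := by
      calc K' * √(j * N / N) ≤ K' * j := by gcongr
        _ ≤ K' * j * N := le_mul_of_one_le_right (by positivity) (by linarith)
    have e5 : (2 * B + 2) * N ≤ (2 * B + 2) * j * N := by
      calc (2 * B + 2) * N = (2 * B + 2) * 1 * N := by ring
        _ ≤ _ := by gcongr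
    rw [hcd]
    nlinarith
  -- the first absolute moment
  have hlim := mu_lim h (fun σ => EE (hom n) m (fun ω => |((run (2 * n) m ω σ).2 : ℝ)|))
  refine le_of_tendsto hlim ?_
  filter_upwards [eventually_ge_atTop K0] with K hK
  have hcat : cat K ϑ = fun _ => Real.pi / 2 := by
    funext t
    unfold cat
    split_ifs <;> rfl
  have h1 := EE_prod (n := n) (V := ℝ) (cat K ϑ) K m (fun c' ω => |((run (2 * n) m ω (pat c')).2 : ℝ)|)
  rw [shf_cat] at h1
  have h2 : EE (hom n) K (fun c => EE (hom n) m (fun ω => |((run (2 * n) m ω (pat c)).2 : ℝ)|))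
      = EE (det n (cat K ϑ)) (K + m) (fun c => |((run (2 * n) m (rgh K c) (pat (rows c K))).2 : ℝ)|) := by
    rw [h1, hcat]
    rfl
  rw [h2]
  have h3 := hnr K hK
  have h4 : EE (det n (cat K ϑ)) (K + m) (fun c => Aa Real.cos ϑ K c ^ 2) ≤ c ^ 2 := by
    rw [← nr_sq (det_adm (cat_mem hϑ))]
    exact pow_le_pow_left₀ (nr_nonneg _ _) h3 2
  have h5 : EE (det n (cat K ϑ)) (K + m)
      (fun c => |((run (2 * n) m (rgh K c) (pat (rows c K))).2 : ℝ)|)
      ≤ EE (det n (cat K ϑ)) (K + m) (fun c' => 1 / (2 * c) * Aa Real.cos ϑ K c' ^ 2 + c / 2) := by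
    refine EE_mono (det_adm (cat_mem hϑ)) fun c' => ?_
    have e : Aa Real.cos ϑ K c' = ((run (2 * n) m (rgh K c') (pat (rows c' K))).2 : ℝ) := by
      unfold Aa
      rw [hcos, sub_zero, (dis_split c').1]
      ring
    rw [e]
    set x : ℝ := ((run (2 * n) m (rgh K c') (pat (rows c' K))).2 : ℝ)
    have h6 : 1 / (2 * c) * x ^ 2 + c / 2 - |x| = 1 / (2 * c) * (|x| - c) ^ 2 := by
      rw [sub_sq, sq_abs]
      field_simp
      ring
    have h7 : 0 ≤ 1 / (2 * c) * (|x| - c) ^ 2 := by positivity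
    linarith
  refine h5.trans ?_
  rw [EE_add, EE_mul, EE_const]
  have h6 : 1 / (2 * c) * EE (det n (cat K ϑ)) (K + m) (fun c => Aa Real.cos ϑ K c ^ 2)
      ≤ 1 / (2 * c) * c ^ 2 := mul_le_mul_of_nonneg_left h4 (by positivity)
  have h7 : 1 / (2 * c) * c ^ 2 = c / 2 := by field_simp
  linarith

/-- a bound of the logarithm of the eigenvalue -/
theorem ev_small {g : ℕ → ℝ} (hb : Lb n t g) (hn : 1 ≤ n) {θ : ℝ} (hθ : θ ∈ Set.Icc 0 Real.pi)
    {α : ℝ} (hα : |α| ≤ 1 / 10000) :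
    ‖ev α (lgs (tz n t ((ph θ : ℂ) * I)))‖ ≤ 100 * |α| / (2 * n + 1) := by
  have hN0 : (0 : ℝ) < 2 * n + 1 := by positivity
  unfold ev
  have hs := su_lgs hb hn hθ
  have hr : ‖(α : ℂ)‖ = |α| := by rw [Complex.norm_real, Real.norm_eq_abs]
  set l : ℕ → ℝ := fun k => ‖lc n t θ k‖ * (1 / 10000) ^ k with hl
  have hle : ∀ k, ‖PowerSeries.coeff k (lgs (tz n t ((ph θ : ℂ) * I))) * (α : ℂ) ^ k‖
      ≤ 10000 * |α| * l k := by
    intro k
    rw [norm_mul, norm_pow, hr]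
    rcases Nat.eq_zero_or_pos k with rfl | hk
    · rw [lgs_zero, norm_zero, zero_mul]
      rw [hl]
      beta_reduce
      positivity
    · obtain ⟨k, rfl⟩ : ∃ m, k = m + 1 := ⟨k - 1, by omega⟩
      have h1 : |α| ^ k ≤ (1 / 10000) ^ k := pow_le_pow_left₀ (abs_nonneg _) hα k
      rw [hl]
      beta_reduce
      have e : 10000 * |α| * (‖lc n t θ (k + 1)‖ * (1 / 10000) ^ (k + 1))
          = ‖lc n t θ (k + 1)‖ * ((1 / 10000) ^ k * |α|) := by
        rw [pow_succ]; ring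
      rw [e, pow_succ]
      exact mul_le_mul_of_nonneg_left (mul_le_mul_of_nonneg_right h1 (abs_nonneg _)) (norm_nonneg _)
  have hsum : Summable l := hs
  have h1 : ‖∑' k, PowerSeries.coeff k (lgs (tz n t ((ph θ : ℂ) * I))) * (α : ℂ) ^ k‖
      ≤ ∑' k, 10000 * |α| * l k := tsum_of_norm_bounded (hsum.mul_left _).hasSum hle
  refine h1.trans ?_
  rw [tsum_mul_left]
  have h2 : ∑' k, l k ≤ 1 / (100 * (2 * n + 1)) := by
    refine hsum.tsum_le_of_sum_range_le fun K => ?_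
    rcases K with _ | K
    · rw [Finset.range_zero, Finset.sum_empty]; positivity
    · exact lc_ps hb hn hθ K
  calc 10000 * |α| * ∑' k, l k ≤ 10000 * |α| * (1 / (100 * (2 * n + 1))) := by gcongr
    _ = _ := by field_simp; ring

/-- powers of the eigenvalue -/
theorem lm_pow {g : ℕ → ℝ} (h : Eg n t w μ) (hb : Lb n t g) (hn : 1 ≤ n) {α : ℝ} {j : ℕ}
    (hj : 1 ≤ j) (hα : 100 * (|α| * j) ≤ 1 / 8) (hα2 : |α| < 1 / 10000) :
    ‖lm t n α (Real.pi / 2) ^ (j * (2 * n + 1)) - 1‖ ≤ 200 * (|α| * j) := by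
  have hN0 : (0 : ℝ) < 2 * n + 1 := by positivity
  have hz : ‖(α : ℂ)‖ < 1 / 10000 := by rwa [Complex.norm_real, Real.norm_eq_abs]
  unfold lm
  rw [ev_tz h hb hn half_mem hz, ← Complex.exp_nat_mul]
  set L := ev α (lgs (tz n t ((ph (Real.pi / 2) : ℂ) * I)))
  have h1 : ‖L‖ ≤ 100 * |α| / (2 * n + 1) := ev_small hb hn half_mem hα2.le
  have h2 : ‖((j * (2 * n + 1) : ℕ) : ℂ) * L‖ ≤ 100 * (|α| * j) := by
    rw [norm_mul, Complex.norm_natCast]
    push_cast
    calc (j : ℝ) * (2 * n + 1) * ‖L‖ ≤ j * (2 * n + 1) * (100 * |α| / (2 * n + 1)) := by gcongr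
      _ = _ := by field_simp
  have h3 := Complex.norm_exp_sub_one_le (x := ((j * (2 * n + 1) : ℕ) : ℂ) * L) (by linarith)
  linarith

open Classical in
/-- **the eigenvector is almost constant** -/
theorem Ps_close {C0 : ℝ} {g : ℕ → ℝ} (hM : M2 n μ C0) (h : Eg n t w μ) (hb : Lb n t g)
    (hn : 1 ≤ n) {α : ℝ} {j : ℕ} (hj : 1 ≤ j) (hα : 100 * (|α| * j) ≤ 1 / 8) (hα2 : |α| < 1 / 10000)
    (hδ : dl n (j * (2 * n + 1)) ≤ 1 / 16) :
    ∃ z : ℂ, n1 μ (fun σ => Ps h α σ - z) ≤ 2 * ((C0 + 200) * (|α| * j)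
      + 2 * dl n (j * (2 * n + 1))) * n1 μ (Ps h α) := by
  have hN0 : (0 : ℝ) < 2 * n + 1 := by positivity
  set m := j * (2 * n + 1) with hm
  set δ := dl n m with hδd
  have hδ0 : 0 ≤ δ := dl_nonneg n m
  set Ψ := Ps h α with hΨ
  set lam := lm t n α (Real.pi / 2) ^ m with hlam
  have hl1 : ‖lam - 1‖ ≤ 200 * (|α| * j) := lm_pow h hb hn hj hα hα2
  have hl2 : 3 / 4 ≤ ‖lam‖ := by
    have h1 := norm_sub_norm_le (1 : ℂ) (1 - lam)
    rw [sub_sub_cancel, norm_one, norm_sub_rev] at h1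
    linarith
  -- the supremum over the reachable patterns
  obtain ⟨s0, hs0, hmax⟩ : ∃ s0, Rch s0 ∧ ∀ σ, Rch σ → ‖Ψ σ‖ ≤ ‖Ψ s0‖ := by
    have hne : (Finset.univ.filter (fun σ : Pat (2 * n + 1) => Rch σ)).Nonempty :=
      ⟨start n, by simp [rch_start]⟩
    obtain ⟨s0, h1, h2⟩ := Finset.exists_max_image _ (fun σ => ‖Ψ σ‖) hne
    refine ⟨s0, (Finset.mem_filter.1 h1).2, fun σ hσ => h2 σ ?_⟩
    exact Finset.mem_filter.2 ⟨Finset.mem_univ _, hσ⟩
  set S := ‖Ψ s0‖ with hS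
  have hS0 : 0 ≤ S := norm_nonneg _
  have hcls : Cls Ψ := Ps_cls h α
  have hclsN : Cls (fun σ => ‖Ψ σ‖) := fun σ σ' hσ => by
    show ‖Ψ σ‖ = ‖Ψ σ'‖
    rw [hcls σ σ' hσ]
  have hab : ∀ σ, Rch σ → |‖Ψ σ‖| ≤ S := fun σ hσ => by
    rw [abs_of_nonneg (norm_nonneg _)]; exact hmax σ hσ
  have heig : ∀ σ, Bk n (fun _ => Real.pi / 2) m α Ψ σ = lam * Ψ σ := by
    intro σ
    rw [Bk_Ps h hα2.le (fun _ => half_mem), Finset.prod_const, Finset.card_range]
  -- the supremum is controlled by the mean value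
  have hSn : S ≤ 2 * n1 μ Ψ := by
    have h1 : ‖lam‖ * S ≤ (Qo n (Real.pi / 2))^[m] (fun σ => ‖Ψ σ‖) s0 := by
      rw [hS, ← norm_mul, ← heig, ← QQ_hom]
      exact Bk_norm (fun _ => half_mem) m α Ψ s0
    have h2 := (abs_le.1 (couple hn hclsN hab hs0 m)).2
    have h3 := (abs_le.1 (mixC h hn hclsN hab m)).2
    have h4 : ∑ σ, μ σ * ‖Ψ σ‖ = n1 μ Ψ := rfl
    rw [h4] at h3
    have h5 : 3 / 4 * S ≤ ‖lam‖ * S := mul_le_mul_of_nonneg_right hl2 hS0
    have h6 : S * δ ≤ S * (1 / 16) := mul_le_mul_of_nonneg_left hδ hS0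
    linarith
  -- the constant
  refine ⟨EE (hom n) m (fun ω => Ψ (run (2 * n) m ω (start n)).1), ?_⟩
  set z : ℂ := EE (hom n) m (fun ω => Ψ (run (2 * n) m ω (start n)).1) with hz
  have hpt : ∀ σ, Rch σ → ‖Ψ σ - z‖ ≤ S * (|α| / (2 * n + 1)
      * EE (hom n) m (fun ω => |((run (2 * n) m ω σ).2 : ℝ)|) + 2 * δ + 200 * (|α| * j)) := by
    intro σ hσ
    obtain ⟨K, c, rfl⟩ := hσ
    have h1 : ‖lam * Ψ (pat c) - z‖ ≤ S * (|α| / (2 * n + 1)
      * EE (hom n) m (fun ω => |((run (2 * n) m ω (pat c)).2 : ℝ)|) + 2 * δ) := by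
      rw [← heig, hz]
      unfold Bk
      have e : EE (det n (fun _ => Real.pi / 2)) m (fun ω => phs n α (run (2 * n) m ω (pat c)).2
          * Ψ (run (2 * n) m ω (pat c)).1) = EE (hom n) m (fun ω => phs n α
            (run (2 * n) m ω (pat c)).2 * Ψ (run (2 * n) m ω (pat c)).1) := rfl
      rw [e, ← EE_sub]
      refine (EE_norm (hom_adm n) _).trans ?_
      have key : ∀ ω : Conf n m, ‖phs n α (run (2 * n) m ω (pat c)).2 * Ψ (run (2 * n) m ω (pat c)).1
          - Ψ (run (2 * n) m ω (start n)).1‖ ≤ S * (|α| / (2 * n + 1)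
            * |((run (2 * n) m ω (pat c)).2 : ℝ)|
            + 2 * (if Y994.KW.T1 n (Y994.KW.cfg n m ω) 0 m then (0 : ℝ) else 1)) := by
        intro ω
        set d := (run (2 * n) m ω (pat c)).2
        have a1 : ‖phs n α d - 1‖ ≤ |α| / (2 * n + 1) * |(d : ℝ)| := by
          unfold phs
          have e : (d : ℂ) / (2 * n + 1) * I * α = I * (((d : ℝ) / (2 * n + 1) * α : ℝ) : ℂ) := by
            push_cast; ring
          rw [e]
          refine (Real.norm_exp_I_mul_ofReal_sub_one_le).trans (le_of_eq ?_)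
          rw [Real.norm_eq_abs, abs_mul, abs_div, abs_of_pos hN0]
          ring
        have r1 := hmax _ (Rch.run ⟨K, c, rfl⟩ ω : Rch (run (2 * n) m ω (pat c)).1)
        have r2 := hmax _ (rch_start.run ω)
        have a2 : ‖Ψ (run (2 * n) m ω (pat c)).1 - Ψ (run (2 * n) m ω (start n)).1‖
            ≤ S * (2 * (if Y994.KW.T1 n (Y994.KW.cfg n m ω) 0 m then (0 : ℝ) else 1)) := by
          split_ifs with hT
          · rw [hcls _ _ (coal hn c ω hT), sub_self, norm_zero, mul_zero, mul_zero]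
          · have := norm_sub_le (Ψ (run (2 * n) m ω (pat c)).1) (Ψ (run (2 * n) m ω (start n)).1)
            linarith
        have a3 : phs n α d * Ψ (run (2 * n) m ω (pat c)).1 - Ψ (run (2 * n) m ω (start n)).1
            = (phs n α d - 1) * Ψ (run (2 * n) m ω (pat c)).1
              + (Ψ (run (2 * n) m ω (pat c)).1 - Ψ (run (2 * n) m ω (start n)).1) := by ring
        rw [a3]
        refine (norm_add_le _ _).trans ?_
        rw [norm_mul, mul_add]
        refine add_le_add ?_ a2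
        calc ‖phs n α d - 1‖ * ‖Ψ (run (2 * n) m ω (pat c)).1‖
            ≤ (|α| / (2 * n + 1) * |(d : ℝ)|) * S := mul_le_mul a1 r1 (norm_nonneg _) (by positivity)
          _ = _ := by ring
      refine (EE_mono (hom_adm n) key).trans (le_of_eq ?_)
      rw [EE_mul, EE_add, EE_mul, EE_mul]
      rfl
    have h2 : Ψ (pat c) - z = (lam * Ψ (pat c) - z) - (lam - 1) * Ψ (pat c) := by ring
    rw [h2]
    refine (norm_sub_le _ _).trans ?_
    rw [norm_mul]
    have h3 : ‖lam - 1‖ * ‖Ψ (pat c)‖ ≤ 200 * (|α| * j) * S :=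
      mul_le_mul hl1 (hmax _ ⟨K, c, rfl⟩) (norm_nonneg _) (by positivity)
    linarith
  have h1 : n1 μ (fun σ => Ψ σ - z) ≤ ∑ σ, μ σ * (S * (|α| / (2 * n + 1)
      * EE (hom n) m (fun ω => |((run (2 * n) m ω σ).2 : ℝ)|) + 2 * δ + 200 * (|α| * j))) :=
    mu_mono h hpt
  have h2 : ∑ σ, μ σ * (S * (|α| / (2 * n + 1)
      * EE (hom n) m (fun ω => |((run (2 * n) m ω σ).2 : ℝ)|) + 2 * δ + 200 * (|α| * j)))
      = S * (|α| / (2 * n + 1) * (∑ σ, μ σ * EE (hom n) m (fun ω => |((run (2 * n) m ω σ).2 : ℝ)|))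
        + 2 * δ + 200 * (|α| * j)) := by
    have e : ∀ σ, μ σ * (S * (|α| / (2 * n + 1)
      * EE (hom n) m (fun ω => |((run (2 * n) m ω σ).2 : ℝ)|) + 2 * δ + 200 * (|α| * j)))
      = S * (|α| / (2 * n + 1)) * (μ σ * EE (hom n) m (fun ω => |((run (2 * n) m ω σ).2 : ℝ)|))
        + μ σ * (S * (2 * δ + 200 * (|α| * j))) := fun σ => by ring
    rw [Finset.sum_congr rfl fun σ _ => e σ, Finset.sum_add_distrib, ← Finset.mul_sum,
      ← Finset.sum_mul, h.m1]
    ring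
  have h3 : |α| / (2 * n + 1) * (∑ σ, μ σ * EE (hom n) m (fun ω => |((run (2 * n) m ω σ).2 : ℝ)|))
      ≤ C0 * (|α| * j) := by
    calc _ ≤ |α| / (2 * n + 1) * (C0 * j * (2 * n + 1)) :=
          mul_le_mul_of_nonneg_left (hM j hj) (by positivity)
      _ = _ := by field_simp
  rw [h2] at h1
  refine h1.trans ?_
  have h4 : S * (|α| / (2 * n + 1) * (∑ σ, μ σ * EE (hom n) m (fun ω => |((run (2 * n) m ω σ).2 : ℝ)|))
        + 2 * δ + 200 * (|α| * j)) ≤ S * (C0 * (|α| * j) + 2 * δ + 200 * (|α| * j)) :=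
    mul_le_mul_of_nonneg_left (by linarith) hS0
  have hC0 : 0 ≤ C0 * (|α| * j) := by
    refine le_trans ?_ h3
    refine mul_nonneg (by positivity) (Finset.sum_nonneg fun σ _ => mul_nonneg (mu_nonneg h σ) ?_)
    have := EE_mono (hom_adm n) (M := m) (F := fun _ => (0 : ℝ))
      (G := fun ω => |((run (2 * n) m ω σ).2 : ℝ)|) (fun ω => abs_nonneg _)
    rwa [EE_const] at this
  have h5 : 0 ≤ C0 * (|α| * j) + 2 * δ + 200 * (|α| * j) := by positivity
  calc _ ≤ S * (C0 * (|α| * j) + 2 * δ + 200 * (|α| * j)) := h4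
    _ ≤ (2 * n1 μ Ψ) * (C0 * (|α| * j) + 2 * δ + 200 * (|α| * j)) :=
        mul_le_mul_of_nonneg_right hSn h5
    _ = _ := by ring

end H729I
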