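import Pool.Agent.Run7.h729.Iso.Blk

/-!
# The characteristic function of the displacement in a block of rows, second part
-/

set_option autoImplicit false

namespace H729I
open H906K Pool.Agent.H974R3 Polynomial Complex Filter Topology

variable {n : ℕ} {t : (PowerSeries ℂ)[X]} {w : Pat (2 * n + 1) → PowerSeries ℂ}
  {μ : Pat (2 * n + 1) → ℝ}

/-- the distance of the eigenvector from the constants -/
noncomputable def kap (C0 : ℝ) (n j : ℕ) (α : ℝ) : ℝ :=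
  (C0 + 200) * (|α| * j) + 2 * dl n (j * (2 * n + 1))

/-- the difference to the product of the eigenvalues -/
noncomputable def dfb (n : ℕ) (t : (PowerSeries ℂ)[X]) (ϑ : ℕ → ℝ) (M : ℕ) (α : ℝ)
    (σ : Pat (2 * n + 1)) : ℂ :=
  Bk n ϑ M α (fun _ => 1) σ - ∏ s ∈ Finset.range M, lm t n α (ϑ s)

theorem blk_ne {C0 : ℝ} {g : ℕ → ℝ} (hM : M2 n μ C0) (h : Eg n t w μ) (hb : Lb n t g)
    (hn : 1 ≤ n) {α : ℝ} {j : ℕ} (hj : 1 ≤ j) (hα : 100 * (|α| * j) ≤ 1 / 8) (hα2 : |α| < 1 / 10000)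
    (hδ : dl n (j * (2 * n + 1)) ≤ 1 / 16) (hκ : kap C0 n j α ≤ 1 / 4)
    (hne : ev α (dt h : PowerSeries ℂ) ≠ 0) {ϑ : ℕ → ℝ} (hϑ : ∀ t, ϑ t ∈ Set.Icc 0 Real.pi) (M : ℕ) :
    n1 μ (dfb n t ϑ M α) ≤ 8 * kap C0 n j α := by
  obtain ⟨z, hz⟩ := Ps_close hM h hb hn hj hα hα2 hδ
  set Ψ := Ps h α with hΨ
  set κ := kap C0 n j α with hκd
  have hz' : n1 μ (fun σ => Ψ σ - z) ≤ 2 * κ * n1 μ Ψ := hz
  set Λ : ℂ := ∏ s ∈ Finset.range M, lm t n α (ϑ s) with hΛ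
  have hzn : ‖(α : ℂ)‖ ≤ 1 / 10000 := by
    rw [Complex.norm_real, Real.norm_eq_abs]; exact hα2.le
  have hpos : 0 < n1 μ Ψ := by
    have h1 := mu_n1 h Ψ
    rw [hΨ, Ps_mu h hzn] at h1
    exact lt_of_lt_of_le (norm_pos_iff.2 hne) h1
  have heig : Bk n ϑ M α Ψ = fun σ => Λ * Ψ σ := by
    funext σ
    rw [Bk_Ps h hα2.le hϑ]
  have hΛ1 : ‖Λ‖ ≤ 1 := by
    have h1 := n1_Bk h hϑ M α Ψ
    rw [heig, n1_cmul] at h1
    exact le_of_mul_le_mul_right (by linarith) hpos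
  -- the identity
  have hid : (fun σ => z * dfb n t ϑ M α σ)
      = fun σ => Bk n ϑ M α (fun τ => z - Ψ τ) σ + Λ * (Ψ σ - z) := by
    funext σ
    rw [Bk_sub, heig]
    have e1 := Bk_cmul ϑ M α z (fun _ => (1 : ℂ)) σ
    simp only [mul_one] at e1
    rw [e1]
    unfold dfb
    rw [← hΛ]
    ring
  have hn2 : n1 μ (fun τ => z - Ψ τ) = n1 μ (fun τ => Ψ τ - z) := by
    rw [← n1_neg]
    congr 1
    funext τ
    ring
  have h1 : ‖z‖ * n1 μ (dfb n t ϑ M α) ≤ 4 * κ * n1 μ Ψ := by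
    rw [← n1_cmul, hid]
    refine (n1_add h _ _).trans ?_
    have a1 := n1_Bk h hϑ M α (fun τ => z - Ψ τ)
    rw [hn2] at a1
    rw [n1_cmul]
    have a2 : ‖Λ‖ * n1 μ (fun σ => Ψ σ - z) ≤ 1 * n1 μ (fun σ => Ψ σ - z) :=
      mul_le_mul_of_nonneg_right hΛ1 (n1_nonneg h _)
    linarith
  have h2 : n1 μ Ψ ≤ 2 * ‖z‖ := by
    have a1 := n1_add h (fun _ => z) (fun σ => Ψ σ - z)
    have e : (fun σ => (fun _ => z) σ + (fun σ => Ψ σ - z) σ) = Ψ := by
      funext σ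
      show z + (Ψ σ - z) = Ψ σ
      ring
    rw [e, n1_const h] at a1
    have a2 : κ * n1 μ Ψ ≤ 1 / 4 * n1 μ Ψ := mul_le_mul_of_nonneg_right hκ hpos.le
    linarith
  have hz0 : 0 < ‖z‖ := by linarith
  have hκ0 : 0 ≤ κ := by
    by_contra hneg
    have := n1_nonneg h (fun σ => Ψ σ - z)
    have h3 : κ * n1 μ Ψ < 0 := mul_neg_of_neg_of_pos (not_le.1 hneg) hpos
    linarith
  have h3 : ‖z‖ * n1 μ (dfb n t ϑ M α) ≤ ‖z‖ * (8 * κ) := by
    refine h1.trans ?_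
    have := mul_le_mul_of_nonneg_left h2 hκ0
    linarith
  exact le_of_mul_le_mul_left h3 hz0

/-- the evaluation is analytic -/
theorem ev_an {a : PowerSeries ℂ} (ha : Su (1 / 10000) a) :
    DifferentiableOn ℂ (fun z => ev z a) (Metric.ball 0 (1 / 10000)) := by
  intro z hz
  rw [mem_ball_zero_iff] at hz
  exact (ev_deriv ha hz).2.differentiableAt.differentiableWithinAt

theorem ev_cont {a : PowerSeries ℂ} (ha : Su (1 / 10000) a) {α : ℝ} (hα : |α| < 1 / 10000) :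
    ContinuousAt (fun β : ℝ => ev (β : ℂ) a) α := by
  have hz : ‖(α : ℂ)‖ < 1 / 10000 := by rwa [Complex.norm_real, Real.norm_eq_abs]
  exact ContinuousAt.comp (f := fun β : ℝ => (β : ℂ)) (ev_deriv ha hz).2.continuousAt
    Complex.continuous_ofReal.continuousAt

/-- the determinant has isolated zeros -/
theorem dt_iso (h : Eg n t w μ) {α : ℝ} (hα : |α| < 1 / 10000) :
    ∀ᶠ β : ℝ in 𝓝[≠] α, ev (β : ℂ) (dt h : PowerSeries ℂ) ≠ 0 := by
  have hd : Su (1 / 10000) (dt h : PowerSeries ℂ) := (dt h).2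
  have han : AnalyticOnNhd ℂ (fun z => ev z (dt h : PowerSeries ℂ)) (Metric.ball 0 (1 / 10000)) :=
    (ev_an hd).analyticOnNhd Metric.isOpen_ball
  have hz : (α : ℂ) ∈ Metric.ball (0 : ℂ) (1 / 10000) := by
    rw [mem_ball_zero_iff, Complex.norm_real, Real.norm_eq_abs]; exact hα
  have h1 : ∀ᶠ z in 𝓝[≠] (α : ℂ), ev z (dt h : PowerSeries ℂ) ≠ 0 := by
    by_contra hcon
    rw [Filter.not_eventually] at hcon
    have h2 := han.eqOn_zero_of_preconnected_of_frequently_eq_zero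
      (convex_ball (0 : ℂ) (1 / 10000)).isPreconnected hz (hcon.mono fun z hz => not_not.1 hz)
    have h3 := h2 (x := 0) (by rw [mem_ball_zero_iff, norm_zero]; norm_num)
    exact dt_zero h h3
  have h2 : Tendsto (fun β : ℝ => (β : ℂ)) (𝓝[≠] α) (𝓝[≠] (α : ℂ)) := by
    refine tendsto_nhdsWithin_of_tendsto_nhds_of_eventually_within _
      (Complex.continuous_ofReal.continuousAt.tendsto.mono_left nhdsWithin_le_nhds) ?_
    filter_upwards [self_mem_nhdsWithin] with β hβ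
    intro h0
    exact hβ (Complex.ofReal_injective h0)
  exact h2.eventually h1

theorem phs_cont (d : ℤ) : Continuous (fun α : ℝ => phs n α d) := by
  unfold phs
  fun_prop

theorem dfb_cont (h : Eg n t w μ) {ϑ : ℕ → ℝ} (hϑ : ∀ t, ϑ t ∈ Set.Icc 0 Real.pi) (M : ℕ) {α : ℝ}
    (hα : |α| < 1 / 10000) (σ : Pat (2 * n + 1)) :
    ContinuousAt (fun β : ℝ => dfb n t ϑ M β σ) α := by
  unfold dfb
  refine ContinuousAt.sub ?_ ?_
  · unfold Bk EE
    refine Continuous.continuousAt ?_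
    refine continuous_finsetSum _ fun c _ => ?_
    exact ((phs_cont _).mul continuous_const).const_smul _
  · refine tendsto_finsetProd _ fun s _ => ?_
    exact ev_cont (h.su _ (hϑ s)) hα

/-- **the block estimate** -/
theorem blk_all {C0 : ℝ} {g : ℕ → ℝ} (hM : M2 n μ C0) (h : Eg n t w μ) (hb : Lb n t g)
    (hn : 1 ≤ n) {α : ℝ} {j : ℕ} (hj : 1 ≤ j) (hα : 100 * (|α| * j) < 1 / 8) (hα2 : |α| < 1 / 10000)
    (hδ : dl n (j * (2 * n + 1)) ≤ 1 / 16) (hκ : kap C0 n j α < 1 / 4)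
    {ϑ : ℕ → ℝ} (hϑ : ∀ t, ϑ t ∈ Set.Icc 0 Real.pi) (M : ℕ) :
    n1 μ (dfb n t ϑ M α) ≤ 8 * kap C0 n j α := by
  have hkc : Continuous (fun β : ℝ => kap C0 n j β) := by
    unfold kap
    fun_prop
  have h1 : Tendsto (fun β : ℝ => n1 μ (dfb n t ϑ M β)) (𝓝[≠] α) (𝓝 (n1 μ (dfb n t ϑ M α))) := by
    refine Tendsto.mono_left ?_ nhdsWithin_le_nhds
    unfold n1
    refine tendsto_finsetSum _ fun σ _ => ?_
    exact ((dfb_cont h hϑ M hα2 σ).norm).const_mul _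
  have h2 : Tendsto (fun β : ℝ => 8 * kap C0 n j β) (𝓝[≠] α) (𝓝 (8 * kap C0 n j α)) :=
    ((hkc.tendsto α).const_mul 8).mono_left nhdsWithin_le_nhds
  refine le_of_tendsto_of_tendsto h1 h2 ?_
  have c1 : ∀ᶠ β : ℝ in 𝓝 α, 100 * (|β| * j) < 1 / 8 := by
    have : Continuous (fun β : ℝ => 100 * (|β| * j)) := by fun_prop
    exact this.continuousAt.eventually (gt_mem_nhds hα)
  have c2 : ∀ᶠ β : ℝ in 𝓝 α, |β| < 1 / 10000 :=
    continuous_abs.continuousAt.eventually (gt_mem_nhds hα2)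
  have c3 : ∀ᶠ β : ℝ in 𝓝 α, kap C0 n j β < 1 / 4 :=
    hkc.continuousAt.eventually (gt_mem_nhds hκ)
  filter_upwards [dt_iso h hα2, nhdsWithin_le_nhds c1, nhdsWithin_le_nhds c2,
    nhdsWithin_le_nhds c3] with β b0 b1 b2 b3
  exact blk_ne hM h hb hn hj b1.le b2 hδ b3.le b0 hϑ M

/-- the expansion of the logarithm of the eigenvalue -/
theorem ev_exp2 {f g' : Pat (2 * n + 1) → ℝ} {v D : ℝ → ℝ} {g : ℕ → ℝ} (h : Eg n t w μ)
    (hc : Crr n f g' v D) (hb : Lb n t g) (hn : 1 ≤ n) {θ : ℝ} (hθ : θ ∈ Set.Icc 0 Real.pi)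
    {α : ℝ} (hα : |α| ≤ 1 / 10000) :
    ‖ev α (lgs (tz n t ((ph θ : ℂ) * I)))
      - (I * (α * v θ / (2 * n + 1) : ℝ) - ((α ^ 2 * D θ / (2 * (2 * n + 1) ^ 2) : ℝ) : ℂ))‖
      ≤ (10000 * |α|) ^ 3 * (3 * Real.sin θ / (2 * n + 1)) := by
  have hN0 : (0 : ℝ) < 2 * n + 1 := by positivity
  have hs0 : 0 ≤ Real.sin θ := Real.sin_nonneg_of_nonneg_of_le_pi hθ.1 hθ.2
  have hs := su_lgs hb hn hθ
  have hr : ‖(α : ℂ)‖ = |α| := by rw [Complex.norm_real, Real.norm_eq_abs]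
  have hsum : Summable (fun k => PowerSeries.coeff k (lgs (tz n t ((ph θ : ℂ) * I))) * (α : ℂ) ^ k) :=
    (Su.nz (Su.mono (norm_nonneg _) (by rw [hr]; exact hα) hs)).of_norm
  obtain ⟨e1, e2⟩ := lc_vD h hc hθ
  unfold lc at e1 e2
  have hsplit : ev α (lgs (tz n t ((ph θ : ℂ) * I)))
      = (I * (α * v θ / (2 * n + 1) : ℝ) - ((α ^ 2 * D θ / (2 * (2 * n + 1) ^ 2) : ℝ) : ℂ))
        + ∑' k, PowerSeries.coeff (k + 3) (lgs (tz n t ((ph θ : ℂ) * I))) * (α : ℂ) ^ (k + 3) := by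
    unfold ev
    rw [← hsum.sum_add_tsum_nat_add 3]
    congr 1
    rw [Finset.sum_range_succ, Finset.sum_range_succ, Finset.sum_range_one, lgs_zero, e1, e2]
    push_cast
    ring
  rw [hsplit, add_sub_cancel_left]
  have hgs : Summable g := by
    refine summable_of_sum_range_le (c := 1 / 2000) hb.g0 fun K => ?_
    rcases K with _ | K
    · rw [Finset.range_zero, Finset.sum_empty]; norm_num
    · exact hb.gs K
  have hg3 : Summable (fun k => g (k + 3)) := (summable_nat_add_iff 3).2 hgs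
  have hg1 : ∑' k, g (k + 3) ≤ 1 := by
    refine hg3.tsum_le_of_sum_range_le fun K => ?_
    have h1 : ∑ i ∈ Finset.range K, g (i + 3) ≤ ps g (K + 2) := by
      unfold ps
      rw [show K + 2 + 1 = K + 1 + 1 + 1 from rfl, Finset.sum_range_succ', Finset.sum_range_succ',
        Finset.sum_range_succ']
      have a0 := hb.g0 0
      have a1 := hb.g0 (0 + 1)
      have a2 := hb.g0 (0 + 1 + 1)
      have e : ∀ i, g (i + 1 + 1 + 1) = g (i + 3) := fun i => rfl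
      simp only [e]
      linarith
    refine h1.trans ((hb.gs _).trans (by norm_num))
  set x := 10000 * |α| with hx
  have hx0 : 0 ≤ x := by positivity
  have hx1 : x ≤ 1 := by rw [hx]; linarith
  have hle : ∀ k, ‖PowerSeries.coeff (k + 3) (lgs (tz n t ((ph θ : ℂ) * I))) * (α : ℂ) ^ (k + 3)‖
      ≤ x ^ 3 * (3 * Real.sin θ / (2 * n + 1)) * g (k + 3) := by
    intro k
    rw [norm_mul, norm_pow, hr]
    have h1 := hb.l2 (k + 3) (by omega) θ hθ
    unfold lc at h1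
    have h2 : |α| ^ (k + 3) = x ^ (k + 3) * (1 / 10000) ^ (k + 3) := by
      rw [hx, ← mul_pow]
      congr 1
      ring
    have h3 : x ^ (k + 3) ≤ x ^ 3 := pow_le_pow_of_le_one hx0 hx1 (by omega)
    rw [h2]
    calc _ = x ^ (k + 3) * (‖PowerSeries.coeff (k + 3) (lgs (tz n t ((ph θ : ℂ) * I)))‖
          * (1 / 10000) ^ (k + 3)) := by ring
      _ ≤ x ^ 3 * (g (k + 3) * (3 * Real.sin θ / (2 * n + 1))) :=
          mul_le_mul h3 h1 (by positivity) (by positivity)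
      _ = _ := by ring
  refine (tsum_of_norm_bounded (hg3.mul_left _).hasSum hle).trans ?_
  rw [tsum_mul_left]
  have h4 : 0 ≤ x ^ 3 * (3 * Real.sin θ / (2 * n + 1)) := by positivity
  calc _ ≤ x ^ 3 * (3 * Real.sin θ / (2 * n + 1)) * 1 := mul_le_mul_of_nonneg_left hg1 h4
    _ = _ := mul_one _

end H729I
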