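import Pool.Agent.Run7.h729.Iso.Row

/-!
# The characteristic functional of the compensated displacement
-/

set_option autoImplicit false

namespace H729I
open H906K Pool.Agent.H974R3 Set Complex

variable {n : ℕ} {f g : Pat (2 * n + 1) → ℝ} {v D : ℝ → ℝ}

/-- the stochastic integral of the predictable function `l` -/
noncomputable def NN (f : Pat (2 * n + 1) → ℝ) (v : ℝ → ℝ) (θ l : Strat n) (M : ℕ)
    (c : Conf n M) : ℝ :=
  ∑ t ∈ Finset.range M, l t (rows c t) *
    (Uu f v θ (t + 1) (rows c (t + 1)) - Uu f v θ t (rows c t))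

theorem NN_app (θ l : Strat n) {M : ℕ} (c : Conf n M) (b : Fin (2 * n + 1) → Bool) :
    NN f v θ l (M + 1) (app c b) = NN f v θ l M c + l M c * inc f v (θ M c) (pat c) b := by
  unfold NN
  rw [Finset.sum_range_succ, rows_app c b le_rfl, rows_self, rows_self, Uu_app]
  congr 1
  · refine Finset.sum_congr rfl fun t ht => ?_
    have ht' := Finset.mem_range.1 ht
    rw [rows_app c b ht'.le, rows_app c b (show t + 1 ≤ M by omega)]
  · unfold inc
    ring

theorem NN_zero (θ l : Strat n) (c : Conf n 0) : NN f v θ l 0 c = 0 := by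
  unfold NN; simp

/-- the bracket -/
noncomputable def AA (D : ℝ → ℝ) (θ l : Strat n) (M : ℕ) (c : Conf n M) : ℝ :=
  Sm (fun t c => l t c ^ 2 * D (θ t c)) M c

theorem AA_app (θ l : Strat n) {M : ℕ} (c : Conf n M) (b : Fin (2 * n + 1) → Bool) :
    AA D θ l (M + 1) (app c b) = AA D θ l M c + l M c ^ 2 * D (θ M c) := by
  unfold AA
  rw [Sm_app]

/-- the total variation of the square of `l` -/
noncomputable def TV2 (l : Strat n) (M : ℕ) (c : Conf n M) : ℝ :=
  ∑ t ∈ Finset.range M, |l (t + 1) (rows c (t + 1)) ^ 2 - l t (rows c t) ^ 2|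

theorem TV2_app (l : Strat n) {M : ℕ} (c : Conf n M) (b : Fin (2 * n + 1) → Bool) :
    TV2 l (M + 1) (app c b) = TV2 l M c + |l (M + 1) (app c b) ^ 2 - l M c ^ 2| := by
  unfold TV2
  rw [Finset.sum_range_succ, rows_app c b le_rfl, rows_self, rows_self]
  congr 1
  refine Finset.sum_congr rfl fun t ht => ?_
  have ht' := Finset.mem_range.1 ht
  rw [rows_app c b ht'.le, rows_app c b (show t + 1 ≤ M by omega)]

theorem TV2_zero (l : Strat n) (c : Conf n 0) : TV2 l 0 c = 0 := by
  unfold TV2; simp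

/-- the exponential functional -/
noncomputable def Ph (f g : Pat (2 * n + 1) → ℝ) (v D : ℝ → ℝ) (κ : ℂ) (θ l : Strat n) (M : ℕ)
    (c : Conf n M) : ℂ :=
  cexp (κ * NN f v θ l M c - κ ^ 2 * AA D θ l M c / 2) * (1 + κ ^ 2 * (l M c ^ 2 * g (pat c)) / 2)

/-- one row -/
theorem step_row (h : Crr n f g v D) {R : ℝ} (hB : Bnd n f g v D R) {θ : ℝ}
    (hθ : θ ∈ Icc 0 Real.pi) (σ : Pat (2 * n + 1)) (κ : ℂ) (hκ : ‖κ‖ = 1) (l : ℝ)
    (hl : |l| * R ≤ 1) :
    ‖∑ b : Fin (2 * n + 1) → Bool, (rw1 n (prob θ) b : ℂ) *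
        (cexp (κ * (l * inc f v θ σ b) - κ ^ 2 * (l ^ 2 * D θ) / 2)
          * (1 + κ ^ 2 * (l ^ 2 * g (Tc (2 * n) b σ)) / 2))
      - (1 + κ ^ 2 * (l ^ 2 * g σ) / 2)‖ ≤ 6 * R ^ 3 * |l| * (l ^ 2 * Real.sin θ) := by
  have hp := prob_mem hθ
  have hs : 0 ≤ Real.sin θ := Real.sin_nonneg_of_nonneg_of_le_pi hθ.1 hθ.2
  have hR := hB.one
  have hDb := hB.bD θ hθ
  have hD0 := D_nonneg h hθ
  have h1 := step_z (fun b => rw1 n (prob θ) b) (fun b => inc f v θ σ b)
    (fun b => g (Tc (2 * n) b σ)) (κ * l) (g σ) (D θ) (R * Real.sin θ) R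
    (fun b => rw1_nonneg n hp b) (rw1_sum n _) (step_mean h hθ σ) (h.m2 θ hθ σ)
    (hB.bm θ hθ σ) hR (fun b => hB.bu θ hθ σ b) (fun b => hB.bg _) (hB.bg σ) hD0
    (hDb.trans (by nlinarith [Real.sin_le_one θ])) (by
      rw [norm_mul, hκ, one_mul, Complex.norm_real, Real.norm_eq_abs]; exact hl)
  rw [norm_mul, hκ, one_mul, Complex.norm_real, Real.norm_eq_abs] at h1
  have e : ∀ b : Fin (2 * n + 1) → Bool, (rw1 n (prob θ) b : ℂ) *
        (cexp (κ * (l * inc f v θ σ b) - κ ^ 2 * (l ^ 2 * D θ) / 2)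
          * (1 + κ ^ 2 * (l ^ 2 * g (Tc (2 * n) b σ)) / 2))
      = (rw1 n (prob θ) b : ℂ) * (cexp (κ * l * inc f v θ σ b - (κ * l) ^ 2 * D θ / 2)
          * (1 + (κ * l) ^ 2 * g (Tc (2 * n) b σ) / 2)) := by
    intro b
    congr 3 <;> ring
  have e2 : (1 : ℂ) + κ ^ 2 * ((l : ℂ) ^ 2 * g σ) / 2 = 1 + (κ * l) ^ 2 * g σ / 2 := by ring
  rw [Finset.sum_congr rfl fun b _ => e b, e2]
  refine h1.trans ?_
  have hl0 := abs_nonneg l
  have e3 : |l| ^ 3 = |l| * l ^ 2 := by rw [pow_succ', sq_abs]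
  rw [e3]
  have h5 : D θ + 5 * R ^ 2 * (R * Real.sin θ) ≤ 6 * R ^ 3 * Real.sin θ := by
    have : R ≤ R ^ 3 := by nlinarith [sq_nonneg R]
    nlinarith
  calc |l| * l ^ 2 * (D θ + 5 * R ^ 2 * (R * Real.sin θ))
      ≤ |l| * l ^ 2 * (6 * R ^ 3 * Real.sin θ) := mul_le_mul_of_nonneg_left h5 (by positivity)
    _ = _ := by ring

theorem chf_aux (h : Crr n f g v D) {R : ℝ} (hB : Bnd n f g v D R) {θ : Strat n} (hθ : Adm θ)
    (l : Strat n) {δ L : ℝ} (hδ : δ * R ≤ 1) (hl : ∀ t c, |l t c| ≤ δ) (M : ℕ)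
    (hL : ∀ t ≤ M, ∀ c : Conf n t, AA D θ l t c ≤ L) :
    ‖EE θ M (Ph f g v D I θ l M) - Ph f g v D I θ l 0 (fun t => t.elim0)‖
      ≤ Real.exp (L / 2) * EE θ M (fun c => 6 * R ^ 3 * δ *
        Sm (fun t c => l t c ^ 2 * Real.sin (θ t c)) M c + R / 2 * TV2 l M c) := by
  have hR := hB.one
  have hδ0 : 0 ≤ δ := (abs_nonneg _).trans (hl 0 (fun t => t.elim0))
  induction M with
  | zero =>
    rw [EE_zero, EE_zero, sub_self, norm_zero, Sm_zero, TV2_zero]
    simp
  | succ M ih =>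
    have ih' := ih (fun t ht c => hL t (by omega) c)
    have hstep : ‖EE θ (M + 1) (Ph f g v D I θ l (M + 1)) - EE θ M (Ph f g v D I θ l M)‖
        ≤ Real.exp (L / 2) * EE θ M (fun c => 6 * R ^ 3 * δ * (l M c ^ 2 * Real.sin (θ M c))
          + R / 2 * ∑ b : Fin (2 * n + 1) → Bool, rw1 n (prob (θ M c)) b
            * |l (M + 1) (app c b) ^ 2 - l M c ^ 2|) := by
      rw [EE_succ, ← EE_sub, ← EE_mul]
      refine (EE_norm hθ _).trans (EE_mono hθ fun c => ?_)
      have hp := prob_mem (hθ M c)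
      have hAM := hL M (by omega) c
      set x : ℂ := cexp (I * NN f v θ l M c - I ^ 2 * AA D θ l M c / 2) with hx
      have nx : ‖x‖ = Real.exp (AA D θ l M c / 2) := by
        rw [hx, Complex.norm_exp]
        congr 1
        have e : I * (NN f v θ l M c : ℂ) - I ^ 2 * (AA D θ l M c : ℂ) / 2
            = ((AA D θ l M c / 2 : ℝ) : ℂ) + ((NN f v θ l M c : ℝ) : ℂ) * I := by
          rw [I_sq]; push_cast; ring
        rw [e, Complex.add_re, Complex.ofReal_re, Complex.re_ofReal_mul, I_re]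
        ring
      have nx1 : ‖x‖ ≤ Real.exp (L / 2) := by
        rw [nx]; exact Real.exp_le_exp.2 (by linarith)
      have e1 : (∑ b : Fin (2 * n + 1) → Bool, rw1 n (prob (θ M c)) b •
          Ph f g v D I θ l (M + 1) (app c b)) - Ph f g v D I θ l M c
          = x * ((∑ b : Fin (2 * n + 1) → Bool, (rw1 n (prob (θ M c)) b : ℂ) *
            (cexp (I * (l M c * inc f v (θ M c) (pat c) b) - I ^ 2 * (l M c ^ 2 * D (θ M c)) / 2)
            * (1 + I ^ 2 * (l M c ^ 2 * g (Tc (2 * n) b (pat c))) / 2)))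
            - (1 + I ^ 2 * (l M c ^ 2 * g (pat c)) / 2))
          + ∑ b : Fin (2 * n + 1) → Bool, (rw1 n (prob (θ M c)) b : ℂ) *
            (cexp (I * NN f v θ l (M + 1) (app c b) - I ^ 2 * AA D θ l (M + 1) (app c b) / 2)
            * (I ^ 2 * ((l (M + 1) (app c b) ^ 2 - l M c ^ 2) * g (Tc (2 * n) b (pat c))) / 2)) := by
        rw [mul_sub, Finset.mul_sum]
        have e2 : Ph f g v D I θ l M c = x * (1 + I ^ 2 * (l M c ^ 2 * g (pat c)) / 2) := by
          rw [hx]; rfl
        rw [e2]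
        have e3 : ∀ b : Fin (2 * n + 1) → Bool, rw1 n (prob (θ M c)) b •
            Ph f g v D I θ l (M + 1) (app c b)
            = x * ((rw1 n (prob (θ M c)) b : ℂ) *
            (cexp (I * (l M c * inc f v (θ M c) (pat c) b) - I ^ 2 * (l M c ^ 2 * D (θ M c)) / 2)
            * (1 + I ^ 2 * (l M c ^ 2 * g (Tc (2 * n) b (pat c))) / 2)))
            + (rw1 n (prob (θ M c)) b : ℂ) *
            (cexp (I * NN f v θ l (M + 1) (app c b) - I ^ 2 * AA D θ l (M + 1) (app c b) / 2)
            * (I ^ 2 * ((l (M + 1) (app c b) ^ 2 - l M c ^ 2) * g (Tc (2 * n) b (pat c))) / 2)) := by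
          intro b
          unfold Ph
          rw [NN_app, AA_app, (run_app c b).1, Complex.real_smul]
          have e4 : cexp (I * ((NN f v θ l M c + l M c * inc f v (θ M c) (pat c) b : ℝ) : ℂ)
              - I ^ 2 * ((AA D θ l M c + l M c ^ 2 * D (θ M c) : ℝ) : ℂ) / 2)
              = x * cexp (I * (l M c * inc f v (θ M c) (pat c) b)
                - I ^ 2 * (l M c ^ 2 * D (θ M c)) / 2) := by
            rw [hx, ← Complex.exp_add]
            congr 1
            push_cast
            ring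
          rw [e4]
          ring
        rw [Finset.sum_congr rfl fun b _ => e3 b, Finset.sum_add_distrib]
        ring
      show ‖(∑ b : Fin (2 * n + 1) → Bool, rw1 n (prob (θ M c)) b •
          Ph f g v D I θ l (M + 1) (app c b)) - Ph f g v D I θ l M c‖ ≤ _
      rw [e1]
      refine (norm_add_le _ _).trans ?_
      rw [mul_add]
      apply add_le_add
      · rw [norm_mul]
        have h2 := step_row h hB (hθ M c) (pat c) I Complex.norm_I (l M c)
          ((mul_le_mul_of_nonneg_right (hl M c) (by linarith)).trans hδ)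
        apply mul_le_mul nx1 (h2.trans ?_) (norm_nonneg _) (Real.exp_pos _).le
        have hs : 0 ≤ Real.sin (θ M c) :=
          Real.sin_nonneg_of_nonneg_of_le_pi (hθ M c).1 (hθ M c).2
        have := mul_le_mul_of_nonneg_left (hl M c) (by positivity : 0 ≤ 6 * R ^ 3)
        exact mul_le_mul_of_nonneg_right this (by positivity)
      · refine (norm_sum_le _ _).trans ?_
        rw [Finset.mul_sum, Finset.mul_sum]
        refine Finset.sum_le_sum fun b _ => ?_
        rw [norm_mul, norm_mul, Complex.norm_real, Real.norm_of_nonneg (rw1_nonneg n hp b)]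
        have ny : ‖cexp (I * NN f v θ l (M + 1) (app c b) - I ^ 2 * AA D θ l (M + 1) (app c b) / 2)‖
            ≤ Real.exp (L / 2) := by
          rw [Complex.norm_exp]
          apply Real.exp_le_exp.2
          have e : I * (NN f v θ l (M + 1) (app c b) : ℂ)
              - I ^ 2 * (AA D θ l (M + 1) (app c b) : ℂ) / 2
              = ((AA D θ l (M + 1) (app c b) / 2 : ℝ) : ℂ)
                + ((NN f v θ l (M + 1) (app c b) : ℝ) : ℂ) * I := by
            rw [I_sq]; push_cast; ring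
          rw [e, Complex.add_re, Complex.ofReal_re, Complex.re_ofReal_mul, I_re]
          have := hL (M + 1) le_rfl (app c b)
          linarith
        have ng : ‖I ^ 2 * (((l (M + 1) (app c b) : ℂ) ^ 2 - (l M c : ℂ) ^ 2)
            * (g (Tc (2 * n) b (pat c)) : ℂ)) / 2‖
            ≤ R / 2 * |l (M + 1) (app c b) ^ 2 - l M c ^ 2| := by
          rw [norm_div, norm_mul, norm_mul, norm_pow, Complex.norm_I]
          have e : ((l (M + 1) (app c b) : ℂ) ^ 2 - (l M c : ℂ) ^ 2)
              = ((l (M + 1) (app c b) ^ 2 - l M c ^ 2 : ℝ) : ℂ) := by push_cast; ring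
          rw [e, Complex.norm_real, Complex.norm_real, Real.norm_eq_abs, Real.norm_eq_abs]
          have n2 : ‖(2 : ℂ)‖ = 2 := by simp
          rw [n2]
          have := mul_le_mul_of_nonneg_left (hB.bg (Tc (2 * n) b (pat c)))
            (abs_nonneg (l (M + 1) (app c b) ^ 2 - l M c ^ 2))
          linarith
        calc rw1 n (prob (θ M c)) b * (_ * _)
            ≤ rw1 n (prob (θ M c)) b * (Real.exp (L / 2)
              * (R / 2 * |l (M + 1) (app c b) ^ 2 - l M c ^ 2|)) :=
              mul_le_mul_of_nonneg_left (mul_le_mul ny ng (norm_nonneg _) (Real.exp_pos _).le)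
                (rw1_nonneg n hp b)
          _ = _ := by ring
    have hsum : EE θ (M + 1) (fun c => 6 * R ^ 3 * δ *
        Sm (fun t c => l t c ^ 2 * Real.sin (θ t c)) (M + 1) c + R / 2 * TV2 l (M + 1) c)
        = EE θ M (fun c => 6 * R ^ 3 * δ *
        Sm (fun t c => l t c ^ 2 * Real.sin (θ t c)) M c + R / 2 * TV2 l M c)
        + EE θ M (fun c => 6 * R ^ 3 * δ * (l M c ^ 2 * Real.sin (θ M c))
          + R / 2 * ∑ b : Fin (2 * n + 1) → Bool, rw1 n (prob (θ M c)) b
            * |l (M + 1) (app c b) ^ 2 - l M c ^ 2|) := by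
      rw [EE_succ, ← EE_add]
      congr 1
      funext c
      have e : ∀ b : Fin (2 * n + 1) → Bool, rw1 n (prob (θ M c)) b • (6 * R ^ 3 * δ *
          Sm (fun t c => l t c ^ 2 * Real.sin (θ t c)) (M + 1) (app c b)
          + R / 2 * TV2 l (M + 1) (app c b))
          = (6 * R ^ 3 * δ * Sm (fun t c => l t c ^ 2 * Real.sin (θ t c)) M c
            + R / 2 * TV2 l M c + 6 * R ^ 3 * δ * (l M c ^ 2 * Real.sin (θ M c)))
              * rw1 n (prob (θ M c)) b
            + R / 2 * (rw1 n (prob (θ M c)) b * |l (M + 1) (app c b) ^ 2 - l M c ^ 2|) := by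
        intro b
        rw [Sm_app, TV2_app, smul_eq_mul]
        ring
      rw [Finset.sum_congr rfl fun b _ => e b, Finset.sum_add_distrib, ← Finset.mul_sum,
        ← Finset.mul_sum, rw1_sum]
      ring
    rw [hsum, mul_add]
    have e5 : EE θ (M + 1) (Ph f g v D I θ l (M + 1)) - Ph f g v D I θ l 0 (fun t => t.elim0)
        = (EE θ M (Ph f g v D I θ l M) - Ph f g v D I θ l 0 (fun t => t.elim0))
          + (EE θ (M + 1) (Ph f g v D I θ l (M + 1)) - EE θ M (Ph f g v D I θ l M)) := by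
      abel
    rw [e5]
    exact (norm_add_le _ _).trans (add_le_add ih' hstep)

end H729I
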