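import Pool.Agent.Run7.h729.Iso.Idn

/-!
# The eigenvector is a function of the future displacements
-/

set_option autoImplicit false

namespace H729I
open H906K Pool.Agent.H974R3 Polynomial Complex Filter Topology

variable {n : ℕ} {t : (PowerSeries ℂ)[X]} {w : Pat (2 * n + 1) → PowerSeries ℂ}
  {μ : Pat (2 * n + 1) → ℝ}

theorem harm_eqv {a : Pat (2 * n + 1) → ℝ} (ha : ∀ σ σ', Eqv σ σ' →
    Qo n (Real.pi / 2) a σ - Qo n (Real.pi / 2) a σ' = a σ - a σ') {σ σ' : Pat (2 * n + 1)}
    (hσ : Eqv σ σ') : a σ = a σ' := by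
  have h1 : ∀ m : ℕ, ∀ σ σ', Eqv σ σ' → (Qo n (Real.pi / 2))^[m] a σ - (Qo n (Real.pi / 2))^[m] a σ'
      = a σ - a σ' := by
    intro m
    induction m with
    | zero => intro σ σ' _; rfl
    | succ m ih =>
      intro σ σ' hσ
      rw [Function.iterate_succ_apply', Qo_sub, ← ha σ σ' hσ, Qo_sub]
      refine Finset.sum_congr rfl fun b _ => ?_
      rw [ih _ _ (hσ.step b).2]
  by_contra hne
  have hpos : 0 < |a σ - a σ'| := abs_pos.2 (sub_ne_zero.2 hne)
  obtain ⟨K0, hK0⟩ := os_tendsto a (half_pos hpos)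
  have h2 := hK0 K0 le_rfl σ σ'
  rw [h1 K0 σ σ' hσ] at h2
  linarith

theorem w_cls (h : Eg n t w μ) (k : ℕ) : ∀ σ σ', Eqv σ σ' →
    PowerSeries.coeff k (wr n w σ) = PowerSeries.coeff k (wr n w σ') := by
  induction k using Nat.strong_induction_on with
  | _ k ih =>
    have key : ∀ σ σ', Eqv σ σ' →
        (∑ b : Fin (2 * n + 1) → Bool, ((rw1 n (prob (Real.pi / 2)) b : ℝ) : ℂ)
          * PowerSeries.coeff k (wr n w (Tc (2 * n) b σ)))
        - (∑ b : Fin (2 * n + 1) → Bool, ((rw1 n (prob (Real.pi / 2)) b : ℝ) : ℂ)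
          * PowerSeries.coeff k (wr n w (Tc (2 * n) b σ')))
        = PowerSeries.coeff k (wr n w σ) - PowerSeries.coeff k (wr n w σ') := by
      intro σ σ' hσ
      have h1 := congrArg (PowerSeries.coeff k) (eig h.hL half_mem σ)
      have h2 := congrArg (PowerSeries.coeff k) (eig h.hL half_mem σ')
      have h3 : PowerSeries.coeff k (tz n t ((ph (Real.pi / 2) : ℂ) * I) * wr n w σ)
          - PowerSeries.coeff k (tz n t ((ph (Real.pi / 2) : ℂ) * I) * wr n w σ')
          = PowerSeries.coeff k (wr n w σ) - PowerSeries.coeff k (wr n w σ') := by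
        rw [PowerSeries.coeff_mul, PowerSeries.coeff_mul, ← Finset.sum_sub_distrib,
          Finset.Nat.sum_antidiagonal_eq_sum_range_succ_mk, Finset.sum_range_succ',
          Finset.sum_eq_zero]
        · simp only [Nat.sub_zero, zero_add]
          rw [tz_c0 h.hT half_mem, one_mul, one_mul]
        · intro j hj
          have hj' := Finset.mem_range.1 hj
          simp only
          rw [ih (k - (j + 1)) (by omega) σ σ' hσ, sub_self]
      rw [← h3, ← h1, ← h2, map_sum, map_sum, ← Finset.sum_sub_distrib, ← Finset.sum_sub_distrib]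
      refine Finset.sum_congr rfl fun b _ => ?_
      obtain ⟨e1, e2⟩ := hσ.step b
      rw [PowerSeries.coeff_C_mul, PowerSeries.coeff_C_mul, ← mul_sub, ← mul_sub, e1]
      congr 1
      rw [PowerSeries.coeff_mul, PowerSeries.coeff_mul, ← Finset.sum_sub_distrib,
        Finset.Nat.sum_antidiagonal_eq_sum_range_succ_mk, Finset.sum_range_succ,
        Finset.sum_eq_zero]
      · simp only [Nat.sub_self, zero_add]
        rw [e4_expI]
        simp
      · intro j hj
        have hj' := Finset.mem_range.1 hj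
        simp only
        rw [ih j hj' _ _ e2, sub_self]
    intro σ σ' hσ
    apply Complex.ext
    · refine harm_eqv (a := fun σ => (PowerSeries.coeff k (wr n w σ)).re) (fun σ σ' hσ => ?_) hσ
      have := congrArg Complex.re (key σ σ' hσ)
      simp only [Complex.sub_re, Complex.re_sum, Complex.re_ofReal_mul] at this
      exact this
    · refine harm_eqv (a := fun σ => (PowerSeries.coeff k (wr n w σ)).im) (fun σ σ' hσ => ?_) hσ
      have := congrArg Complex.im (key σ σ' hσ)
      simp only [Complex.sub_im, Complex.im_sum, Complex.im_ofReal_mul] at this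
      exact this

theorem Ps_cls (h : Eg n t w μ) (z : ℂ) : Cls (Ps h z) := by
  intro σ σ' hσ
  unfold Ps
  rw [ut_cls h (PowerSeries.ext fun k => w_cls h k σ σ' hσ)]

/-! ## the stationary law -/

theorem mu_lim (h : Eg n t w μ) (F : Pat (2 * n + 1) → ℝ) :
    Tendsto (fun K => EE (hom n) K (fun c => F (pat c))) atTop (𝓝 (∑ σ, μ σ * F σ)) := by
  refine (mix h.m1 h.ms F (start n)).congr fun K => ?_
  rw [Qo_iter]
  rfl

theorem mu_le (h : Eg n t w μ) {F : Pat (2 * n + 1) → ℝ} {B : ℝ} (hF : ∀ σ, Rch σ → F σ ≤ B) :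
    ∑ σ, μ σ * F σ ≤ B := by
  refine le_of_tendsto (mu_lim h F) (Eventually.of_forall fun K => ?_)
  have := EE_mono (hom_adm n) (M := K) (F := fun c => F (pat c)) (G := fun _ => B)
    (fun c => hF _ ⟨K, c, rfl⟩)
  rwa [EE_const] at this

theorem mu_mono (h : Eg n t w μ) {F G : Pat (2 * n + 1) → ℝ} (hF : ∀ σ, Rch σ → F σ ≤ G σ) :
    ∑ σ, μ σ * F σ ≤ ∑ σ, μ σ * G σ := by
  have := mu_le h (F := fun σ => F σ - G σ) (B := 0) (fun σ hσ => by linarith [hF σ hσ])
  simp only [mul_sub] at this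
  rw [Finset.sum_sub_distrib] at this
  linarith

theorem mu_nonneg (h : Eg n t w μ) (σ : Pat (2 * n + 1)) : 0 ≤ μ σ := by
  classical
  have := mu_mono h (F := fun _ => 0) (G := fun τ => if τ = σ then 1 else 0)
    (fun τ _ => by beta_reduce; split_ifs <;> norm_num)
  simp only [mul_zero, Finset.sum_const_zero] at this
  simpa using this

theorem mixC (h : Eg n t w μ) (hn : 1 ≤ n) {F : Pat (2 * n + 1) → ℝ} (hc : Cls F) {H : ℝ}
    (hH : ∀ σ, Rch σ → |F σ| ≤ H) (m : ℕ) :
    |(Qo n (Real.pi / 2))^[m] F (start n) - ∑ σ, μ σ * F σ| ≤ 2 * H * dl n m := by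
  have hinv : ∀ K : ℕ, ∀ G : Pat (2 * n + 1) → ℝ,
      ∑ τ, μ τ * (Qo n (Real.pi / 2))^[K] G τ = ∑ τ, μ τ * G τ := by
    intro K
    induction K with
    | zero => intro G; rfl
    | succ K ih =>
      intro G
      rw [Function.iterate_succ_apply, ih, h.ms _ half_mem]
  rw [← hinv m F, abs_sub_comm, abs_le]
  have e : ∀ c : ℝ, ∑ σ, μ σ * ((Qo n (Real.pi / 2))^[m] F σ - c)
      = ∑ σ, μ σ * (Qo n (Real.pi / 2))^[m] F σ - c := by
    intro c
    simp only [mul_sub]
    rw [Finset.sum_sub_distrib, ← Finset.sum_mul, h.m1, one_mul]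
  have e' : ∀ c : ℝ, ∑ σ, μ σ * (c - (Qo n (Real.pi / 2))^[m] F σ)
      = c - ∑ σ, μ σ * (Qo n (Real.pi / 2))^[m] F σ := by
    intro c
    simp only [mul_sub]
    rw [Finset.sum_sub_distrib, ← Finset.sum_mul, h.m1, one_mul]
  constructor
  · have := mu_le h (F := fun σ => (Qo n (Real.pi / 2))^[m] F (start n)
      - (Qo n (Real.pi / 2))^[m] F σ) (B := 2 * H * dl n m) (fun σ hσ => by
        have := (abs_le.1 (couple hn hc hH hσ m)).1
        linarith)
    rw [e'] at this
    linarith
  · have := mu_le h (F := fun σ => (Qo n (Real.pi / 2))^[m] F σ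
      - (Qo n (Real.pi / 2))^[m] F (start n)) (B := 2 * H * dl n m) (fun σ hσ => by
        have := (abs_le.1 (couple hn hc hH hσ m)).2
        linarith)
    rw [e] at this
    linarith

end H729I
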