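import Pool.Agent.Run7.h729.Iso.Uni

/-!
# Coalescence: slabs crossed by one strand forget the past
-/

set_option autoImplicit false

namespace H729I
open H906K Pool.Agent.H974R3 Filter Topology

variable {n : ℕ}

theorem run_app' {M : ℕ} (c : Conf n M) (b : Fin (2 * n + 1) → Bool) (σ : Pat (2 * n + 1)) :
    run (2 * n) (M + 1) (app c b) σ = (Tc (2 * n) b (run (2 * n) M c σ).1,
      (run (2 * n) M c σ).2 + dTc (2 * n) b (run (2 * n) M c σ).1) := by
  have h1 : (fun i : Fin M => (app c b) i.castSucc) = c := by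
    funext i
    unfold app
    exact Fin.snoc_castSucc (α := fun _ => Fin (2 * n + 1) → Bool) b c i
  have h2 : app c b (Fin.last M) = b := by
    unfold app
    exact Fin.snoc_last (α := fun _ => Fin (2 * n + 1) → Bool) b c
  show (Tc (2 * n) ((app c b) (Fin.last M)) (run (2 * n) M (fun i => (app c b) i.castSucc)
      σ).1, (run (2 * n) M (fun i => (app c b) i.castSucc) σ).2
      + dTc (2 * n) ((app c b) (Fin.last M)) (run (2 * n) M (fun i => (app c b) i.castSucc)
      σ).1) = _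
  rw [h1, h2]

/-- concatenation -/
def cc {P m : ℕ} (c : Conf n P) (ω : Conf n m) : Conf n (P + m) :=
  Fin.append (α := Fin (2 * n + 1) → Bool) c ω

theorem run_cc {P m : ℕ} (c : Conf n P) (ω : Conf n m) (σ : Pat (2 * n + 1)) :
    run (2 * n) (P + m) (cc c ω) σ = ((run (2 * n) m ω (run (2 * n) P c σ).1).1,
      (run (2 * n) P c σ).2 + (run (2 * n) m ω (run (2 * n) P c σ).1).2) := by
  induction m with
  | zero =>
    have e : cc c ω = c := by
      funext i
      have : i = Fin.castAdd 0 i := rfl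
      unfold cc
      rw [this, Fin.append_left]
      rfl
    show run (2 * n) P (cc c ω) σ = _
    rw [e]
    show run (2 * n) P c σ = ((run (2 * n) P c σ).1, (run (2 * n) P c σ).2 + 0)
    rw [add_zero]
  | succ m ih =>
    have e1 : (fun i : Fin (P + m) => (cc c ω) i.castSucc) = cc c (fun i : Fin m => ω i.castSucc) := by
      funext i
      unfold cc
      refine Fin.addCases (fun i => ?_) (fun i => ?_) i
      · have : (Fin.castAdd m i).castSucc = Fin.castAdd (m + 1) i := rfl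
        rw [this, Fin.append_left, Fin.append_left]
      · have : (Fin.natAdd P i).castSucc = Fin.natAdd P i.castSucc := rfl
        rw [this, Fin.append_right, Fin.append_right]
    have e2 : (cc c ω) (Fin.last (P + m)) = ω (Fin.last m) := by
      unfold cc
      have : Fin.last (P + m) = Fin.natAdd P (Fin.last m) := rfl
      rw [this, Fin.append_right]
    show (Tc (2 * n) ((cc c ω) (Fin.last (P + m))) (run (2 * n) (P + m)
      (fun i => (cc c ω) i.castSucc) σ).1, (run (2 * n) (P + m) (fun i => (cc c ω) i.castSucc) σ).2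
      + dTc (2 * n) ((cc c ω) (Fin.last (P + m))) (run (2 * n) (P + m)
      (fun i => (cc c ω) i.castSucc) σ).1) = _
    rw [e1, e2, ih]
    show _ = (Tc (2 * n) (ω (Fin.last m)) (run (2 * n) m (fun i => ω i.castSucc)
      (run (2 * n) P c σ).1).1, (run (2 * n) P c σ).2 + ((run (2 * n) m (fun i => ω i.castSucc)
      (run (2 * n) P c σ).1).2 + dTc (2 * n) (ω (Fin.last m)) (run (2 * n) m
      (fun i => ω i.castSucc) (run (2 * n) P c σ).1).1))
    rw [← add_assoc]

/-- the two patterns have the same future displacements -/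
def Eqv (σ σ' : Pat (2 * n + 1)) : Prop :=
  ∀ (m : ℕ) (ω : Conf n m), (run (2 * n) m ω σ).2 = (run (2 * n) m ω σ').2

theorem Eqv.symm {σ σ' : Pat (2 * n + 1)} (h : Eqv σ σ') : Eqv σ' σ := fun m ω => (h m ω).symm

theorem Eqv.trans {σ σ' τ : Pat (2 * n + 1)} (h : Eqv σ σ') (h' : Eqv σ' τ) : Eqv σ τ :=
  fun m ω => (h m ω).trans (h' m ω)

theorem run_one (b : Fin (2 * n + 1) → Bool) (σ : Pat (2 * n + 1)) :
    run (2 * n) 1 (fun _ => b) σ = (Tc (2 * n) b σ, dTc (2 * n) b σ) := by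
  show (Tc (2 * n) b σ, 0 + dTc (2 * n) b σ) = _
  rw [zero_add]

theorem Eqv.step {σ σ' : Pat (2 * n + 1)} (h : Eqv σ σ') (b : Fin (2 * n + 1) → Bool) :
    dTc (2 * n) b σ = dTc (2 * n) b σ' ∧ Eqv (Tc (2 * n) b σ) (Tc (2 * n) b σ') := by
  have h1 := h 1 (fun _ => b)
  rw [run_one, run_one] at h1
  refine ⟨h1, fun m ω => ?_⟩
  have h2 := h (1 + m) (cc (fun _ => b) ω)
  rw [run_cc, run_cc, run_one, run_one] at h2
  simp only at h1 h2
  rw [h1] at h2
  exact add_left_cancel h2

/-- reachable patterns -/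
def Rch (σ : Pat (2 * n + 1)) : Prop := ∃ (K : ℕ) (c : Conf n K), pat c = σ

theorem rch_start : Rch (start n) := ⟨0, fun i => i.elim0, rfl⟩

theorem Rch.step {σ : Pat (2 * n + 1)} (h : Rch σ) (b : Fin (2 * n + 1) → Bool) :
    Rch (Tc (2 * n) b σ) := by
  obtain ⟨K, c, rfl⟩ := h
  exact ⟨K + 1, app c b, (run_app c b).1⟩

theorem Rch.run {σ : Pat (2 * n + 1)} (h : Rch σ) {m : ℕ} (ω : Conf n m) :
    Rch (run (2 * n) m ω σ).1 := by
  obtain ⟨K, c, rfl⟩ := h
  refine ⟨K + m, cc c ω, ?_⟩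
  unfold pat
  rw [run_cc]

theorem cfg_cc {P m : ℕ} (c : Conf n P) (ω : Conf n m) (j t : ℤ) (h0 : 0 ≤ t) (h1 : t < m) :
    Y994.KW.cfg n (P + m) (cc c ω) j (t + P) = Y994.KW.cfg n m ω j t := by
  refine Pool.Agent.Y941.KW.cfg_shift n (P + m) m P (cc c ω) ω le_rfl (fun t => ?_) j t h0 h1
  have : (⟨P + t, by omega⟩ : Fin (P + m)) = Fin.natAdd P t := rfl
  unfold cc
  rw [this, Fin.append_right]

theorem cfg_cl {P m : ℕ} (c : Conf n P) (ω : Conf n m) (j t : ℤ) (h0 : 0 ≤ t) (h1 : t < P) :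
    Y994.KW.cfg n (P + m) (cc c ω) j t = Y994.KW.cfg n P c j t := by
  have := Pool.Agent.Y941.KW.cfg_shift n (P + m) P 0 (cc c ω) c (by omega) (fun t => by
    have : (⟨0 + t, by omega⟩ : Fin (P + m)) = Fin.castAdd m t := by
      apply Fin.ext; simp
    unfold cc
    rw [this, Fin.append_left]) j t h0 h1
  rwa [Nat.cast_zero, add_zero] at this

theorem run_start (hn : 1 ≤ n) {M : ℕ} (c : Conf n M) :
    (run (2 * n) M c (start n)).2 = Y994.KW.dsp n 0 M (Y994.KW.cfg n M c) := by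
  have h := dis_X hn c
  unfold dis at h
  exact_mod_cast h

/-- **a slab crossed by one strand forgets the pattern below it** -/
theorem coal (hn : 1 ≤ n) {K m : ℕ} (c : Conf n K) (ω : Conf n m)
    (hT : Y994.KW.T1 n (Y994.KW.cfg n m ω) 0 m) :
    Eqv (run (2 * n) m ω (pat c)).1 (run (2 * n) m ω (start n)).1 := by
  intro m' ω'
  have hm : 0 < m := by
    rcases Nat.eq_zero_or_pos m with rfl | h
    · exact absurd (Pool.Agent.Y290.KW.T1_lt (by norm_num) hT) (by norm_num)
    · exact h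
  set C : Y994.KW.Cfg := Y994.KW.cfg n (K + (m + m')) (cc c (cc ω ω')) with hC
  have hper : Y994.KW.Per n C := Pool.Agent.Y941.KW.per_cfg n _ _
  have h0 := (run_start hn (cc c (cc ω ω'))).symm
  rw [run_cc, run_cc] at h0
  -- the displacement of the upper part
  have h1 : Y994.KW.dsp n K ((K : ℤ) + (m + m' : ℕ)) C
      = (run (2 * n) m ω (start n)).2 + (run (2 * n) m' ω' (run (2 * n) m ω (start n)).1).2 := by
    have e := run_start hn (cc ω ω')
    rw [run_cc] at e
    simp only at e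
    rw [e]
    have := Y994.KW.All.LOC n 0 (m + m' : ℕ) K (Y994.KW.cfg n (m + m') (cc ω ω')) C hn
      (by positivity) (fun j t h0 h1 => by
        rw [hC]
        exact cfg_cc c (cc ω ω') j t h0 h1)
    rw [zero_add, add_comm ((m + m' : ℕ) : ℤ)] at this
    exact this
  have h2 : Y994.KW.dsp n K ((K : ℤ) + m) C = (run (2 * n) m ω (start n)).2 := by
    have e := run_start hn ω
    rw [e]
    have := Y994.KW.All.LOC n 0 m K (Y994.KW.cfg n m ω) C hn
      (by positivity) (fun j t h0 h1 => by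
        rw [hC, cfg_cc c (cc ω ω') j t h0 (by push_cast; linarith [Int.natCast_nonneg m'])]
        exact cfg_cl ω ω' j t h0 h1)
    rw [zero_add, add_comm (m : ℤ)] at this
    exact this
  have h3 : Y994.KW.dsp n 0 ((K : ℤ) + m) C
      = (run (2 * n) K c (start n)).2 + (run (2 * n) m ω (run (2 * n) K c (start n)).1).2 := by
    have e := run_start hn (cc c ω)
    rw [run_cc] at e
    simp only at e
    rw [e]
    have := Y994.KW.All.LOC n 0 (K + m : ℕ) 0 (Y994.KW.cfg n (K + m) (cc c ω)) C hn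
      (by positivity) (fun j t h0 h1 => by
        rw [add_zero]
        rcases lt_or_ge t K with h | h
        · rw [hC, cfg_cl c (cc ω ω') j t h0 h, cfg_cl c ω j t h0 h]
        · obtain ⟨s, hs⟩ : ∃ s : ℤ, t = s + K := ⟨t - K, by ring⟩
          have hs0 : 0 ≤ s := by linarith
          have hs1 : s < m := by push_cast at h1; linarith
          rw [hs, hC, cfg_cc c (cc ω ω') j s hs0 (by push_cast; linarith [Int.natCast_nonneg m']),
            cfg_cc c ω j s hs0 hs1, cfg_cl ω ω' j s hs0 hs1])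
    rw [zero_add, add_zero] at this
    push_cast at this
    exact this
  have hT' : Y994.KW.T1 n C K ((K : ℤ) + m) := by
    have := Y994.KW.All.T1LOC n 0 m K (Y994.KW.cfg n m ω) C (fun j t h0 h1 => by
        rw [hC, cfg_cc c (cc ω ω') j t h0 (by push_cast; linarith [Int.natCast_nonneg m'])]
        exact cfg_cl ω ω' j t h0 h1) hT
    rw [zero_add, add_comm (m : ℤ)] at this
    exact this
  have hmz : (0 : ℤ) < m := by exact_mod_cast hm
  have hmz' : (0 : ℤ) ≤ m' := Int.natCast_nonneg m'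
  have hKz : (0 : ℤ) ≤ K := Int.natCast_nonneg K
  obtain ⟨i1, a1⟩ := Y994.KW.All.HIT n 0 ((K : ℤ) + m) C hn hper (by linarith)
  obtain ⟨i2, a2⟩ := Y994.KW.All.HIT n 0 ((K : ℤ) + (m + m' : ℕ)) C hn hper (by positivity)
  obtain ⟨i3, a3⟩ := Y994.KW.All.HIT n K ((K : ℤ) + m) C hn hper (by linarith)
  obtain ⟨i4, a4⟩ := Y994.KW.All.HIT n K ((K : ℤ) + (m + m' : ℕ)) C hn hper (by push_cast; linarith)
  have h4 := Pool.Agent.Y290.KW.tail Y994.KW.All.INJ hn hper hKz (by linarith)
    (by push_cast; linarith) hT' a1 a2 a3 a4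
  rw [h1, h2, h3] at h4
  have h5 : Y994.KW.dsp n 0 ((K : ℤ) + (m + m' : ℕ)) C
      = (run (2 * n) K c (start n)).2 + ((run (2 * n) m ω (run (2 * n) K c (start n)).1).2
        + (run (2 * n) m' ω' (run (2 * n) m ω (run (2 * n) K c (start n)).1).1).2) := by
    simp only at h0
    rw [← h0, hC]
    push_cast
    rfl
  rw [h5] at h4
  unfold pat
  linarith

open Classical in
/-- the probability that no strand forgets -/
noncomputable def dl (n m : ℕ) : ℝ :=
  EE (hom n) m (fun ω => if Y994.KW.T1 n (Y994.KW.cfg n m ω) 0 m then (0 : ℝ) else 1)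

theorem dl_nonneg (n m : ℕ) : 0 ≤ dl n m := by
  classical
  unfold dl
  have := EE_mono (hom_adm n) (M := m) (F := fun _ => (0 : ℝ)) (G := fun ω =>
    if Y994.KW.T1 n (Y994.KW.cfg n m ω) 0 m then (0 : ℝ) else 1)
    (fun ω => by split_ifs <;> norm_num)
  rwa [EE_const] at this

theorem dl_le : ∃ q : ℝ, 0 ≤ q ∧ q < 1 ∧ ∀ n m j : ℕ, 1 ≤ n → j * (2 * n + 1) ≤ m → dl n m ≤ q ^ j := by
  obtain ⟨c, hc0, hc⟩ := Y994.KW.All.T1P
  have hc1 : c ≤ 1 := (hc 1 le_rfl).trans (Pool.Agent.Y941.KW.pr_le_one _)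
  refine ⟨1 - c, by linarith, by linarith, fun n m j hn hj => ?_⟩
  have h1 := Pool.Agent.Y941.KW.bad Y994.KW.All.T1LOC hc n m j 0 hn (by omega)
  refine le_trans ?_ h1
  unfold dl
  rw [← Ex_eq]
  have h2 := Pool.Agent.Y941.KW.pr_mono (n := n) (M := m)
    (A := fun ω => ¬ Y994.KW.T1 n (Y994.KW.cfg n m ω) 0 m)
    (B := fun ω => ∀ i : Fin j, ¬ Y994.KW.T1 n (Y994.KW.cfg n m ω) (((0 + i * (2 * n + 1) : ℕ)) : ℤ)
      (((0 + i * (2 * n + 1) : ℕ) : ℤ) + (2 * n + 1))) (fun ω hω i hi => hω (by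
        refine Y994.KW.All.T1MONO n _ 0 _ _ m hn (Pool.Agent.Y941.KW.per_cfg n _ ω) ?_ ?_ ?_ hi
        · positivity
        · linarith
        · have h2 := Nat.mul_le_mul_right (2 * n + 1) (Nat.succ_le_of_lt i.2)
          rw [Nat.succ_mul] at h2
          have h3 : (0 + i * (2 * n + 1) + (2 * n + 1) : ℕ) ≤ m := by omega
          have h4 : ((0 + i * (2 * n + 1) + (2 * n + 1) : ℕ) : ℤ) ≤ m := by exact_mod_cast h3
          push_cast at h4 ⊢
          linarith))
  refine le_trans (le_of_eq ?_) h2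
  unfold Y994.KW.pr
  congr 1
  funext ω
  by_cases h : Y994.KW.T1 n (Y994.KW.cfg n m ω) 0 m
  · rw [if_pos h, if_neg (not_not.2 h)]
  · rw [if_neg h, if_pos h]

/-- the iterates of the Markov operator as mean values -/
theorem Qo_iter (m : ℕ) (h : Pat (2 * n + 1) → ℝ) (σ : Pat (2 * n + 1)) :
    (Qo n (Real.pi / 2))^[m] h σ = EE (hom n) m (fun ω => h (run (2 * n) m ω σ).1) := by
  induction m generalizing h with
  | zero =>
    rw [EE_zero]
    rfl
  | succ m ih =>
    rw [Function.iterate_succ_apply, ih, EE_succ]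
    congr 1
    funext ω
    unfold Qo
    refine Finset.sum_congr rfl fun b _ => ?_
    rw [run_app', smul_eq_mul]
    rfl

/-- functions of the future displacements -/
def Cls {V : Type*} (h : Pat (2 * n + 1) → V) : Prop := ∀ σ σ', Eqv σ σ' → h σ = h σ'

theorem couple (hn : 1 ≤ n) {h : Pat (2 * n + 1) → ℝ} (hc : Cls h) {H : ℝ}
    (hH : ∀ σ, Rch σ → |h σ| ≤ H) {σ : Pat (2 * n + 1)} (hσ : Rch σ) (m : ℕ) :
    |(Qo n (Real.pi / 2))^[m] h σ - (Qo n (Real.pi / 2))^[m] h (start n)| ≤ 2 * H * dl n m := by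
  classical
  obtain ⟨K, c, rfl⟩ := hσ
  rw [Qo_iter, Qo_iter, ← EE_sub]
  have key : ∀ ω : Conf n m, |h (run (2 * n) m ω (pat c)).1 - h (run (2 * n) m ω (start n)).1|
      ≤ 2 * H * (if Y994.KW.T1 n (Y994.KW.cfg n m ω) 0 m then (0 : ℝ) else 1) := by
    intro ω
    split_ifs with hT
    · rw [hc _ _ (coal hn c ω hT), sub_self, abs_zero, mul_zero]
    · have h1 := hH _ (Rch.run ⟨K, c, rfl⟩ ω : Rch (run (2 * n) m ω (pat c)).1)
      have h2 := hH _ (rch_start.run ω)
      have h3 := abs_sub (h (run (2 * n) m ω (pat c)).1) (h (run (2 * n) m ω (start n)).1)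
      linarith
  have hd : 2 * H * dl n m = EE (hom n) m (fun ω =>
      2 * H * (if Y994.KW.T1 n (Y994.KW.cfg n m ω) 0 m then (0 : ℝ) else 1)) := by
    rw [EE_mul]
    unfold dl
    congr 1
  rw [hd, abs_le]
  constructor
  · rw [← neg_one_mul, ← EE_mul]
    refine EE_mono (hom_adm n) fun ω => ?_
    have := (abs_le.1 (key ω)).1
    linarith
  · refine EE_mono (hom_adm n) fun ω => ?_
    exact (abs_le.1 (key ω)).2

end H729I
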