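import Pool.Agent.Run7.h729.Iso.Ind2

/-!
# Bounds of all the Taylor coefficients of the eigenvalue, third part
-/

set_option autoImplicit false

namespace H729I
open H906K Pool.Agent.H974R3 Polynomial Complex

variable {n : ℕ} {t Q : (PowerSeries ℂ)[X]} {s1 s2 V1 V2 : ℝ[X]}

/-- the majorant of the product -/
noncomputable def ym (r : ℝ) (n : ℕ) (Q : (PowerSeries ℂ)[X]) (V1 : ℝ[X]) (k : ℕ) : ℝ :=
  if k = 0 then 0 else 3.4642 * r * (if k = 1 then 1 else wq r (fun u : ℝ => Bz n Q V1 u) (k - 1))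

theorem ym_nonneg {r : ℝ} (hr : 0 ≤ r) (k : ℕ) : 0 ≤ ym r n Q V1 k := by
  unfold ym
  split_ifs
  · exact le_rfl
  · positivity
  · have := wq_nonneg hr (fun u : ℝ => Bz n Q V1 u) (k - 1)
    positivity

theorem ta_pow_le (u : ℝ) (N : ℕ) : |ta u| ^ N ≤ 1 := pow_le_one₀ (abs_nonneg _) (ta_abs u)

theorem sum_coeff (d : Datq n t Q s1 s2 V1 V2) (u : ℝ) {r : ℝ} (hr : 0 ≤ r) (k : ℕ) :
    ‖PowerSeries.coeff k (lgs (tz n t (u + Real.pi / 3 * I)))
      + PowerSeries.coeff k (lgs (tz n t (u - Real.pi / 3 * I)))‖ * r ^ k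
      ≤ gm (ym r n Q V1) k * |ta u| ^ (2 * n + 1) := by
  have hs3 : √3 ≤ 1.7321 := by
    rw [Real.sqrt_le_left (by norm_num)]; norm_num
  rw [← map_add, lgs_tz d]
  have hA : ‖Ax n s1 u‖ ≤ 3.4642 * |ta u| ^ (2 * n + 1) := by
    refine (Ax_le d u).trans ?_
    apply mul_le_mul_of_nonneg_right _ (by positivity)
    linarith
  have hb : ∀ j, Bd (fun u : ℝ => PowerSeries.coeff j (Bz n Q V1 u)) := fun j =>
    (nic_Bz d.hQ d.hR j).bd
  refine gm_bound (ym_nonneg hr) (if_pos rfl) hr (by positivity) (ta_pow_le u _) ?_ ?_ k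
  · rw [map_add, PowerSeries.coeff_zero_one, PowerSeries.coeff_zero_X_mul, add_zero]
  · intro k hk
    obtain ⟨m, rfl⟩ : ∃ m, k = m + 1 := ⟨k - 1, by omega⟩
    rw [map_add, PowerSeries.coeff_one, if_neg (by omega), zero_add, PowerSeries.coeff_succ_X_mul,
      PowerSeries.coeff_C_mul, norm_mul]
    rcases Nat.eq_zero_or_pos m with rfl | hm
    · rw [Bz_zero' d (u_half u), norm_one, mul_one, zero_add, pow_one]
      unfold ym
      rw [if_neg one_ne_zero, if_pos rfl, mul_one]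
      nlinarith [mul_le_mul_of_nonneg_right hA hr]
    · unfold ym
      rw [if_neg (by omega), if_neg (by omega), Nat.add_sub_cancel]
      unfold wq
      rw [if_neg (by omega)]
      have h1 := le_sn (hb m) u
      calc ‖Ax n s1 u‖ * ‖PowerSeries.coeff m (Bz n Q V1 u)‖ * r ^ (m + 1)
          ≤ (3.4642 * |ta u| ^ (2 * n + 1)) * sn1 (fun u : ℝ => PowerSeries.coeff m (Bz n Q V1 u))
            * r ^ (m + 1) := by
            apply mul_le_mul_of_nonneg_right _ (by positivity)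
            exact mul_le_mul hA h1 (norm_nonneg _) (by positivity)
        _ = _ := by rw [pow_succ]; ring

theorem majh (d : Datq n t Q s1 s2 V1 V2) {r : ℝ} (hr : 0 < r) (hr1 : r ≤ 1 / 10000) :
    MajH r (wq r (fun u : ℝ => lgs (tz n t u))) (wq r (fun u : ℝ => tz n t u))
      (wq r (fun u : ℝ => lgs (Bz n Q V1 u))) (wq r (fun u : ℝ => Bz n Q V1 u))
      (ym r n Q V1) (gm (ym r n Q V1)) (wq r (Rh n Q V1)) (wq r (fun u => lgs (Rh n Q V1 u)))
      (sq r) := by
  have hs3 : √3 ≤ 1.7321 := by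
    rw [Real.sqrt_le_left (by norm_num)]; norm_num
  have hu0 : ∀ u : ℝ, |((u : ℝ) : ℂ).im| ≤ 2 * Real.pi / 3 := fun u => by
    rw [Complex.ofReal_im, abs_zero]; positivity
  have rt := wq_rec hr.le (F := fun u : ℝ => tz n t u) (fun u => tz_zero d.h (hu0 u))
    (fun k => (nic_tz d.h k).bd) (fun k => (nic_lt d k).bd)
  have rb := wq_rec hr.le (F := fun u : ℝ => Bz n Q V1 u) (fun u => Bz_zero' d (u_half u))
    (fun k => (nic_Bz d.hQ d.hR k).bd) (fun k => (nic_lB d k).bd)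
  have rr := wq_rec hr.le (F := Rh n Q V1) (Rh_zero d) (bd_Rh d) (bd_lRh d)
  refine ⟨wq_nonneg hr.le _, wq_nonneg hr.le _, wq_nonneg hr.le _, wq_nonneg hr.le _,
    ym_nonneg hr.le, gm_nonneg (ym_nonneg hr.le), wq_nonneg hr.le _, wq_nonneg hr.le _,
    sq_nonneg hr.le, wq_zero _ _, wq_zero _ _, wq_zero _ _, wq_zero _ _, if_pos rfl,
    gm_zero (if_pos rfl), wq_zero _ _, wq_zero _ _, fun k => (rt k).1, fun k => (rb k).1,
    gm_le (if_pos rfl), fun k => (rr k).2, ?_, ?_, ?_, ?_, ?_, fun k hk => r8 d hr hk,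
    ps_sq hr hr1⟩
  · -- the bound of the logarithm
    intro k hk
    have hrk : 0 < r ^ (k + 1) := by positivity
    unfold wq
    rw [if_neg (by omega), ← le_div_iff₀ hrk]
    refine sn_le fun l => ?_
    have h1 := (nic_lt d (k + 1)).rep_le (c := gm (ym r n Q V1) (k + 1) / r ^ (k + 1)) (fun u => by
      rw [le_div_iff₀ hrk]
      refine (sum_coeff d u hr.le (k + 1)).trans ?_
      have h2 := ta_pow_le u (2 * n + 1)
      have h3 := gm_nonneg (ym_nonneg (n := n) (Q := Q) (V1 := V1) hr.le) (k + 1)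
      nlinarith) l
    refine h1.trans (le_of_eq ?_)
    ring
  · -- the first coefficient
    unfold wq
    rw [if_neg one_ne_zero, pow_one]
    apply mul_le_mul_of_nonneg_right _ hr.le
    refine sn_le fun u => ?_
    have h1 := lgs_rec (tz_zero d.h (hu0 u)) le_rfl
    rw [Finset.Ico_self, Finset.sum_empty, add_zero, tz_one d, X1_eq d] at h1
    rw [← h1, Complex.norm_real, Real.norm_eq_abs]
    exact (X1_le d u).trans hs3
  · intro k
    rcases Nat.eq_zero_or_pos k with rfl | hk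
    · rw [wq_zero, wq_zero]; simp
    unfold wq
    rw [if_neg (by omega), if_neg (by omega)]
    have hrk : 0 < r ^ k := by positivity
    have h1 : sn1 (fun u : ℝ => PowerSeries.coeff k (lgs (Bz n Q V1 u)))
        ≤ sn1 (fun u => PowerSeries.coeff k (lgs (Rh n Q V1 u))) / 2 := by
      refine sn_le fun l => ?_
      refine (nic_lB d k).rep_le (fun u => ?_) l
      rw [← map_add, ← lgs_Rh d]
      exact le_sn (bd_lRh d k) u
    nlinarith [mul_le_mul_of_nonneg_right h1 hrk.le]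
  · unfold ym
    rw [if_neg one_ne_zero, if_pos rfl, mul_one]
  · intro k hk
    unfold ym
    rw [if_neg (by omega), if_neg (by omega), Nat.add_sub_cancel]

/-- **the coefficients of the logarithm of the eigenvalue, uniformly in the circumference** -/
theorem coef_bounds (d : Datq n t Q s1 s2 V1 V2) : ∃ g : ℕ → ℝ, (∀ k, 0 ≤ g k) ∧
    (∀ K, ps g K ≤ 1 / 2000) ∧ ∀ k, ∀ u : ℝ,
      ‖PowerSeries.coeff k (lgs (tz n t (u + Real.pi / 3 * I)))
        + PowerSeries.coeff k (lgs (tz n t (u - Real.pi / 3 * I)))‖ * (1 / 10000) ^ k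
        ≤ g k * |ta u| ^ (2 * n + 1) := by
  have hr : (0 : ℝ) < 1 / 10000 := by norm_num
  refine ⟨gm (ym (1 / 10000) n Q V1), gm_nonneg (ym_nonneg hr.le), fun K => ?_, fun k u =>
    sum_coeff d u hr.le k⟩
  have h1 := (maj hr le_rfl (majh d hr le_rfl) K).2.2.2.2.2.2.1
  have h2 := ps_le (gm_nonneg (ym_nonneg (n := n) (Q := Q) (V1 := V1) hr.le)) (Nat.le_succ K)
  refine h2.trans (h1.trans ?_)
  norm_num

end H729I
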