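import Pool.Agent.Run7.h729.Iso.Modl
import Pool.Agent.Run7.h729.Iso.Asy2
import Pool.Agent.Y994.KW.All2

/-!
# Convergence of the path to Brownian motion
-/

set_option autoImplicit false

namespace H729I
open H906K Pool.Agent.H974R3 Filter Topology MeasureTheory ProbabilityTheory Set
open Y994.KW (Pa ModC chI chB Crit IsBM)

section law

variable {n : ℕ} {E : Type} [MeasurableSpace E] [MeasurableSingletonClass E]

/-- the law of a function of the configuration -/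
noncomputable def lwe (θ : Strat n) (M : ℕ) (P : Conf n M → E) : Measure E :=
  ∑ c, ENNReal.ofReal (wgt θ M c) • Measure.dirac (P c)

theorem lwe_apply {θ : Strat n} (hθ : Adm θ) {M : ℕ} (P : Conf n M → E) (S : Set E)
    [DecidablePred (fun c => P c ∈ S)] :
    lwe θ M P S = ENNReal.ofReal (EE θ M (fun c => if P c ∈ S then (1 : ℝ) else 0)) := by
  unfold lwe EE
  rw [Measure.finsetSum_apply, ENNReal.ofReal_sum_of_nonneg]
  · refine Finset.sum_congr rfl (fun c _ => ?_)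
    rw [Measure.smul_apply, Measure.dirac_apply, smul_eq_mul]
    by_cases h : P c ∈ S
    · simp [h]
    · simp [h]
  · intro c _
    have := wgt_nonneg hθ c
    beta_reduce
    split_ifs <;> simp [this]

theorem lwe_prob {θ : Strat n} (hθ : Adm θ) (M : ℕ) (P : Conf n M → E) :
    IsProbabilityMeasure (lwe θ M P) := by
  classical
  constructor
  rw [lwe_apply hθ]
  simp only [Set.mem_univ, if_true]
  rw [EE_const]
  simp

theorem lwe_int {V : Type*} [NormedAddCommGroup V] [NormedSpace ℝ V] [CompleteSpace V]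
    {θ : Strat n} (hθ : Adm θ) (M : ℕ) (P : Conf n M → E) (F : E → V) :
    ∫ w, F w ∂(lwe θ M P) = EE θ M (fun c => F (P c)) := by
  unfold lwe
  rw [integral_finsetSum_measure]
  · unfold EE
    refine Finset.sum_congr rfl (fun c _ => ?_)
    rw [integral_smul_measure, integral_dirac, ENNReal.toReal_ofReal (wgt_nonneg hθ c)]
  · intro c _
    exact (integrable_dirac (by simp [enorm_lt_top])).smul_measure ENNReal.ofReal_ne_top

/-- as a probability measure -/
noncomputable def lwq {θ : Strat n} (hθ : Adm θ) (M : ℕ) (P : Conf n M → E) :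
    ProbabilityMeasure E := ⟨lwe θ M P, lwe_prob hθ M P⟩

end law

/-- the scale of the path -/
noncomputable def scA (n : ℕ) (H : ℝ) : ℝ := √(Real.pi / (3 * (2 * n + 1) * H))

theorem wp_zero {n : ℕ} (v : ℝ → ℝ) {θ : Strat n} (hθ : AdmO θ) (H a : ℝ) {M : ℕ} (c : Conf n M) :
    wp v θ H a c 0 = 0 := by
  show a * ∑ t ∈ Finset.range M, (Yd v θ (t + 1) (rows c (t + 1)) - Yd v θ t (rows c t)) *
    cx (Sq θ c) (sn θ c) (((0 : unitInterval) : ℝ) * H) t = 0
  have : ∀ t ∈ Finset.range M, (Yd v θ (t + 1) (rows c (t + 1)) - Yd v θ t (rows c t)) *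
    cx (Sq θ c) (sn θ c) (((0 : unitInterval) : ℝ) * H) t = 0 := by
    intro t _
    rw [cx_zero_of (clk hθ c), mul_zero]
    have := clk_nonneg (clk hθ c) t
    simpa using this
  rw [Finset.sum_eq_zero this, mul_zero]

/-- a sequence of environments with all data -/
structure Dat (K : ℝ) (n : ℕ → ℕ) (f g : ∀ i, Pat (2 * n i + 1) → ℝ) (v D : ℕ → ℝ → ℝ)
    (R : ℕ → ℝ) (θ : ∀ i, Strat (n i)) (H : ℕ → ℝ) (M : ℕ → ℕ) : Prop where
  crr : ∀ i, Crr (n i) (f i) (g i) (v i) (D i)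
  bnd : ∀ i, Bnd (n i) (f i) (g i) (v i) (D i) (R i)
  asy : ∀ i, Asym (n i) (v i) (D i) K
  one : ∀ i, 1 ≤ n i
  top : Tendsto n atTop atTop
  adm : ∀ i, AdmO (θ i)
  H1 : ∀ i, 1 ≤ H i
  HR : ∀ i, R i ^ 6 ≤ H i
  Hq : Tendsto (fun i => R i ^ 3 / √(H i)) atTop (𝓝 0)
  hgt : ∀ i, ∀ c : Conf (n i) (M i), H i ≤ Sm (fun t c => Real.sin (θ i t c)) (M i) c

theorem crit {K : ℝ} (hK : 0 ≤ K) {n : ℕ → ℕ} {f g : ∀ i, Pat (2 * n i + 1) → ℝ} {v D : ℕ → ℝ → ℝ}
    {R : ℕ → ℝ} {θ : ∀ i, Strat (n i)} {H : ℕ → ℝ} {M : ℕ → ℕ} (h : Dat K n f g v D R θ H M) :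
    Crit (fun i => lwq (h.adm i).adm (M i) (fun c => wp (v i) (θ i) (H i) (scA (n i) (H i)) c)) := by
  classical
  refine ⟨fun i => ?_, ?_, ?_⟩
  · rw [ae_iff]
    show lwe (θ i) (M i) _ _ = 0
    rw [lwe_apply (h.adm i).adm]
    have : (fun c : Conf (n i) (M i) => if wp (v i) (θ i) (H i) (scA (n i) (H i)) c ∈
        {a : Pa | ¬ a 0 = 0} then (1 : ℝ) else 0) = fun _ => 0 := by
      funext c
      rw [if_neg]
      simp [wp_zero (v i) (h.adm i)]
    rw [this, EE_const, ENNReal.ofReal_zero]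
  · intro ε η hε hη
    obtain ⟨δ, q0, hδ, hq0, hme⟩ := mod_est hK hε hη
    obtain ⟨i0, hi0⟩ := eventually_atTop.1 (h.Hq.eventually (gt_mem_nhds hq0))
    refine ⟨δ, i0, hδ, fun i hi => ?_⟩
    show lwe (θ i) (M i) _ _ ≤ _
    rw [lwe_apply (h.adm i).adm]
    refine ENNReal.ofReal_le_ofReal ?_
    exact hme (n i) (f i) (g i) (v i) (D i) (R i) (h.crr i) (h.bnd i) (h.asy i) (h.one i) (θ i)
      (h.adm i) (H i) (h.H1 i) (hi0 i hi).le (M i)
  · intro k t ϑ ht
    rw [tendsto_iff_norm_sub_tendsto_zero]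
    set C : ℝ := (3 * Th ϑ + Real.exp (Th ϑ ^ 2 * (1 + K) / 2) * (k * Th ϑ ^ 2
        + K * Th ϑ ^ 2 * (1 + 2 * k) + 6 * Th ϑ ^ 3 + 2 * Th ϑ ^ 2) + Th ϑ ^ 2) with hC
    have hN : Tendsto (fun i => 1 / (2 * (n i : ℝ) + 1)) atTop (𝓝 0) := by
      refine Tendsto.div_atTop tendsto_const_nhds ?_
      refine tendsto_atTop_add_const_right _ _ ?_
      exact Tendsto.const_mul_atTop (by norm_num) (tendsto_natCast_atTop_atTop.comp h.top)
    have hlim : Tendsto (fun i => C * (R i ^ 3 / √(H i) + 1 / (2 * (n i : ℝ) + 1))) atTop (𝓝 0) := by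
      have := (h.Hq.add hN).const_mul C
      simpa using this
    refine squeeze_zero (fun i => norm_nonneg _) (fun i => ?_) hlim
    have h1 := fdd_est (h.crr i) (h.bnd i) (h.asy i) (h.one i) hK (h.adm i) (h.H1 i) (h.HR i)
      (h.hgt i) t ht ϑ
    have e : chI (lwe (θ i) (M i) (fun c => wp (v i) (θ i) (H i) (scA (n i) (H i)) c)) t ϑ
        = EE (θ i) (M i) (fun c => Complex.exp (((∑ j : Fin k, ϑ j *
        (wp (v i) (θ i) (H i) (scA (n i) (H i)) c (t j.succ)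
          - wp (v i) (θ i) (H i) (scA (n i) (H i)) c (t j.castSucc)) : ℝ) : ℂ) * Complex.I)) := by
      unfold chI
      rw [lwe_int (h.adm i).adm]
    show ‖chI (lwe (θ i) (M i) (fun c => wp (v i) (θ i) (H i) (scA (n i) (H i)) c)) t ϑ - chB t ϑ‖ ≤ _
    rw [e]
    exact h1

/-- all data for each `n` -/
theorem all_data : ∃ (K : ℝ) (f g : ∀ n : ℕ, Pat (2 * n + 1) → ℝ) (v D : ℕ → ℝ → ℝ) (R : ℕ → ℝ),
    0 < K ∧ ∀ n, 1 ≤ n → Crr n (f n) (g n) (v n) (D n) ∧ ContinuousOn (v n) (Icc 0 Real.pi) ∧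
      ContinuousOn (D n) (Icc 0 Real.pi) ∧ Asym n (v n) (D n) K ∧
      Bnd n (f n) (g n) (v n) (D n) (R n) := by
  obtain ⟨K, hK, h⟩ := main_asy
  have h' : ∀ n : ℕ, ∃ (f g : Pat (2 * n + 1) → ℝ) (v D : ℝ → ℝ) (R : ℝ), 1 ≤ n →
      Crr n f g v D ∧ ContinuousOn v (Icc 0 Real.pi) ∧
      ContinuousOn D (Icc 0 Real.pi) ∧ Asym n v D K ∧ Bnd n f g v D R := by
    intro n
    by_cases hn : 1 ≤ n
    · obtain ⟨f, g, v, D, h1, h2, h3, h4⟩ := h n hn
      have hA : Asym n v D K := h4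
      have hN3 : (3 : ℝ) ≤ 2 * n + 1 := by
        have : (1 : ℝ) ≤ n := by exact_mod_cast hn
        linarith
      obtain ⟨R, hR⟩ := bnd_exists h1 (K + 3 * (2 * n + 1) + K) (fun θ hθ => by
          refine (hA θ hθ).1.trans ?_
          have hs := Real.sin_nonneg_of_nonneg_of_le_pi hθ.1 hθ.2
          have hs1 := Real.sin_le_one θ
          have a1 : K * Real.sin θ ^ 2 / (2 * n + 1) ^ 2 ≤ K * Real.sin θ ^ 2 := by
            apply div_le_self (by positivity)
            nlinarith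
          have a2 : K * Real.sin θ ^ 2 ≤ K * Real.sin θ := by
            apply mul_le_mul_of_nonneg_left _ hK.le
            nlinarith
          have a3 : 0 ≤ (3 * (2 * (n : ℝ) + 1) + K) * Real.sin θ := by positivity
          linarith) (fun θ hθ => by
          have hs := Real.sin_nonneg_of_nonneg_of_le_pi hθ.1 hθ.2
          have h5 := (abs_le.1 (asym_D hA hθ)).2
          have hpi3 := Real.pi_gt_three
          have a1 : 3 * (2 * (n : ℝ) + 1) / Real.pi * Real.sin θ ≤ 3 * (2 * n + 1) * Real.sin θ := by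
            apply mul_le_mul_of_nonneg_right _ hs
            apply div_le_self (by positivity) (by linarith)
          have a2 : K / (2 * Real.pi) * Real.sin θ ≤ K * Real.sin θ := by
            apply mul_le_mul_of_nonneg_right _ hs
            exact div_le_self hK.le (by linarith)
          have a3 : 0 ≤ K * Real.sin θ := by positivity
          linarith)
      exact ⟨f, g, v, D, R, fun _ => ⟨h1, h2, h3, hA, hR⟩⟩
    · exact ⟨fun _ => 0, fun _ => 0, fun _ => 0, fun _ => 0, 0, fun h => absurd h hn⟩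
  choose f g v D R hall using h'
  exact ⟨K, f, g, v, D, R, hK, hall⟩

/-- the law of Brownian motion and the convergence -/
theorem conv_all : ∃ (K : ℝ) (f g : ∀ n : ℕ, Pat (2 * n + 1) → ℝ) (v D : ℕ → ℝ → ℝ) (R : ℕ → ℝ)
    (W : ProbabilityMeasure Pa),
    0 < K ∧ (∀ n, 1 ≤ n → Crr n (f n) (g n) (v n) (D n) ∧ ContinuousOn (v n) (Icc 0 Real.pi) ∧
      ContinuousOn (D n) (Icc 0 Real.pi) ∧ Asym n (v n) (D n) K ∧
      Bnd n (f n) (g n) (v n) (D n) (R n)) ∧ IsBM 1 (W : Measure Pa) ∧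
    ∀ (n : ℕ → ℕ) (θ : ∀ i, Strat (n i)) (H : ℕ → ℝ) (M : ℕ → ℕ) (hθ : ∀ i, AdmO (θ i)),
      (∀ i, 1 ≤ n i) → Tendsto n atTop atTop → (∀ i, ((n i : ℝ) + 1) ^ 2 * R (n i) ^ 6 ≤ H i) →
      (∀ i, ∀ c : Conf (n i) (M i), H i ≤ Sm (fun t c => Real.sin (θ i t c)) (M i) c) →
      Tendsto (fun i => lwq (hθ i).adm (M i)
        (fun c => wp (v (n i)) (θ i) (H i) (scA (n i) (H i)) c)) atTop (𝓝 W) := by
  obtain ⟨K, f, g, v, D, R, hK, hall⟩ := all_data
  have key : ∀ (n : ℕ → ℕ) (θ : ∀ i, Strat (n i)) (H : ℕ → ℝ) (M : ℕ → ℕ) (hθ : ∀ i, AdmO (θ i)),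
      (∀ i, 1 ≤ n i) → Tendsto n atTop atTop → (∀ i, ((n i : ℝ) + 1) ^ 2 * R (n i) ^ 6 ≤ H i) →
      (∀ i, ∀ c : Conf (n i) (M i), H i ≤ Sm (fun t c => Real.sin (θ i t c)) (M i) c) →
      Dat K n (fun i => f (n i)) (fun i => g (n i)) (fun i => v (n i)) (fun i => D (n i))
        (fun i => R (n i)) θ H M := by
    intro n θ H M hθ hn htop hH hM
    have hR1 : ∀ i, 1 ≤ R (n i) := fun i => (hall (n i) (hn i)).2.2.2.2.one
    have hRR : ∀ i, 1 ≤ R (n i) ^ 6 := fun i => one_le_pow₀ (hR1 i)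
    have hn2 : ∀ i, 1 ≤ ((n i : ℝ) + 1) ^ 2 := fun i => by
      have : (0 : ℝ) ≤ n i := Nat.cast_nonneg _
      nlinarith
    have hRH : ∀ i, R (n i) ^ 6 ≤ H i := fun i => by
      refine le_trans ?_ (hH i)
      have := hRR i
      have := hn2 i
      nlinarith
    refine ⟨fun i => (hall _ (hn i)).1, fun i => (hall _ (hn i)).2.2.2.2,
      fun i => (hall _ (hn i)).2.2.2.1, hn, htop, hθ, fun i => (hRR i).trans (hRH i), hRH, ?_, hM⟩
    have hlim : Tendsto (fun i => 1 / ((n i : ℝ) + 1)) atTop (𝓝 0) := by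
      refine Tendsto.div_atTop tendsto_const_nhds ?_
      refine tendsto_atTop_add_const_right _ _ ?_
      exact tendsto_natCast_atTop_atTop.comp htop
    refine squeeze_zero (fun i => ?_) (fun i => ?_) hlim
    · have := hR1 i
      positivity
    · have h0 : 0 < R (n i) ^ 3 := by have := hR1 i; positivity
      have hn0 : (0 : ℝ) < (n i : ℝ) + 1 := by positivity
      have h1 : ((n i : ℝ) + 1) * R (n i) ^ 3 ≤ √(H i) := by
        apply Real.le_sqrt_of_sq_le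
        calc (((n i : ℝ) + 1) * R (n i) ^ 3) ^ 2 = ((n i : ℝ) + 1) ^ 2 * R (n i) ^ 6 := by ring
          _ ≤ H i := hH i
      have h2 : 0 < √(H i) := lt_of_lt_of_le (by positivity) h1
      rw [div_le_div_iff₀ h2 hn0]
      linarith
  -- the base sequence
  set θ0 : ∀ i : ℕ, Strat (i + 1) := fun i _ _ => Real.pi / 2 with hθ0
  have hpi := Real.pi_pos
  have hadm0 : ∀ i, AdmO (θ0 i) := fun i t c => ⟨by positivity, by
    show Real.pi / 2 < Real.pi
    linarith⟩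
  set H0 : ℕ → ℝ := fun i => (((i + 1 : ℕ) : ℝ) + 1) ^ 2 * R (i + 1) ^ 6 with hH0
  have hd := key (fun i => i + 1) θ0 H0 (fun i => ⌈H0 i⌉₊) hadm0 (fun i => by omega)
    (tendsto_add_atTop_nat 1) (fun i => le_rfl) (fun i c => by
      have e : Sm (fun t c => Real.sin (θ0 i t c)) ⌈H0 i⌉₊ c = ⌈H0 i⌉₊ := by
        unfold Sm
        simp [hθ0]
      rw [e]
      exact Nat.le_ceil _)
  obtain ⟨W, hW, hlim⟩ := Y994.KW.All.DON _ (crit hK.le hd)
  refine ⟨K, f, g, v, D, R, W, hK, hall, hW, ?_⟩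
  intro n θ H M hθ hn htop hH hM
  exact hlim _ (crit hK.le (key n θ H M hθ hn htop hH hM))

end H729I
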