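import Pool.Agent.Run7.h729.Iso.Alg

/-!
# Layered percolation on cylinders of odd circumference: the correctors
-/

set_option autoImplicit false

namespace H729I
open H906K Pool.Agent.H974R3 Polynomial

/-- the expansion of the eigenvalue, for all spectral parameters -/
theorem pert_of_tspec' (n : ℕ) (t : (PowerSeries ℂ)[X]) (h : TSpec n t) :
    Pert n (C (1 / (2 * n + 1 : ℂ)) * e4_cf 1 t) (C (1 / (2 * n + 1 : ℂ) ^ 2) * e4_cf 2 t) := by
  have hN : ((2 * n + 1 : ℂ)) ≠ 0 := by
    exact_mod_cast (by omega : 2 * n + 1 ≠ 0)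
  set N : ℂ := 2 * n + 1 with hNdef
  have hev0 : ∀ x : ℂ, PowerSeries.coeff 0 (t.eval (PowerSeries.C x)) = (1 + x) ^ (2 * n + 1) := by
    intro x
    rw [e4_eval, e4_cf0 h]
    simp
  have hfac : ∀ x : ℂ, (1 + x ^ 3) ^ (2 * n + 1)
      = (1 + x) ^ (2 * n + 1) * (1 + om * x) ^ (2 * n + 1) * (1 + om ^ 2 * x) ^ (2 * n + 1) := by
    intro x
    rw [← mul_pow, ← mul_pow, e4_fac]
  have hI2 : Complex.I ^ 2 = -1 := Complex.I_sq
  have hom := e4_om1
  have homI := e4_omI
  obtain ⟨Q, hQ⟩ := e4_div h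
  · refine ⟨?_, ?_, ?_, ?_, ?_, ?_, ?_, ?_, ?_, ?_⟩
    · exact (natDegree_C_mul_le _ _).trans (e4_cf_deg 1 t h.deg)
    · exact (natDegree_C_mul_le _ _).trans (e4_cf_deg 2 t h.deg)
    · rw [coeff_C_mul, e4_cf_coeff, h.bot, map_sub, neg_mul, map_neg, PowerSeries.coeff_C_mul,
        PowerSeries.coeff_C_mul, e4_expI, e4_expI]
      simp only [← hNdef]
      field_simp
      simp
      linear_combination Complex.I * homI + (Real.sqrt 3 : ℂ) * hI2
    · rw [coeff_C_mul, e4_cf_coeff, h.top, map_sub, neg_mul, map_neg, PowerSeries.coeff_C_mul,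
        PowerSeries.coeff_C_mul, e4_expI, e4_expI]
      simp only [← hNdef]
      field_simp
      simp
      linear_combination -Complex.I * homI - (Real.sqrt 3 : ℂ) * hI2
    · rw [coeff_C_mul, e4_cf_coeff, h.bot, map_sub, neg_mul, map_neg, PowerSeries.coeff_C_mul,
        PowerSeries.coeff_C_mul, e4_expI, e4_expI]
      simp only [← hNdef]
      field_simp
      simp
      linear_combination -hom
    · rw [coeff_C_mul, e4_cf_coeff, h.top, map_sub, neg_mul, map_neg, PowerSeries.coeff_C_mul,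
        PowerSeries.coeff_C_mul, e4_expI, e4_expI]
      simp only [← hNdef]
      field_simp
      simp
      linear_combination -hom
    · intro x
      have h2 := congrArg (PowerSeries.coeff 2) (e4_fus h x)
      simp only [e4_mul2, e4_mul1, e4_mul0, map_sub, map_add, PowerSeries.coeff_C_mul, hev0,
        e4_expI, e4_eval, mul_pow, hfac x] at h2
      simp only [eval_mul, eval_C, hfac x]
      simp only [← hNdef, Nat.factorial] at h2
      push_cast at h2
      field_simp
      linear_combination h2 - 9 * N ^ 2 * ((1 + x) ^ (2 * n + 1) * (1 + om * x) ^ (2 * n + 1)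
        * (1 + om ^ 2 * x) ^ (2 * n + 1)) * hI2
    · intro x
      have h3 := congrArg (PowerSeries.coeff 3) (e4_fus h x)
      simp only [e4_mul3, e4_mul2, e4_mul1, e4_mul0, map_sub, map_add, PowerSeries.coeff_C_mul, hev0,
        e4_expI, e4_eval, mul_pow, hfac x] at h3
      simp only [eval_mul, eval_C, hfac x]
      simp only [← hNdef, Nat.factorial] at h3
      push_cast at h3
      field_simp
      linear_combination h3
    · refine ⟨C (1 / N) * e4_cf 1 Q, fun x => ?_⟩
      have h1 := congrArg (PowerSeries.coeff 1) (hQ x)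
      simp only [e4_mul1, map_add, PowerSeries.coeff_C_mul, hev0, e4_eval, mul_pow] at h1
      simp only [eval_mul, eval_C]
      have hz : PowerSeries.coeff 1 (PowerSeries.C ((1 + om * x) ^ (2 * n + 1)
          * (1 + om ^ 2 * x) ^ (2 * n + 1))) = 0 := by
        rw [PowerSeries.coeff_C]; simp
      rw [hz] at h1
      field_simp
      linear_combination h1
    · refine ⟨C (1 / N ^ 2) * e4_cf 2 Q, fun x => ?_⟩
      have h1 := congrArg (PowerSeries.coeff 2) (hQ x)
      simp only [e4_mul2, map_add, PowerSeries.coeff_C_mul, hev0, e4_eval, mul_pow] at h1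
      simp only [eval_mul, eval_C]
      have hz : PowerSeries.coeff 2 (PowerSeries.C ((1 + om * x) ^ (2 * n + 1)
          * (1 + om ^ 2 * x) ^ (2 * n + 1))) = 0 := by
        rw [PowerSeries.coeff_C]; simp
      rw [hz] at h1
      field_simp
      linear_combination h1

theorem ez_zpow (d : ℤ) : ((ez ^ d : (PowerSeries ℂ)ˣ) : PowerSeries ℂ) = expI d := by
  rcases d with k | k
  · have := e3_ez_pow k
    simpa using this
  · rw [zpow_negSucc]
    have := e3_ez_inv_pow (k + 1)
    rw [inv_pow] at this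
    rw [this]
    congr 1
    rw [Int.cast_negSucc]

/-- the weights of a row -/
noncomputable def Wc (n : ℕ) (x : ℂ) (b : Fin (2 * n + 1) → Bool) : ℂ := ∏ j, wt om (b j) x

theorem left_eval {n : ℕ} {w : Pat (2 * n + 1) → PowerSeries ℂ} {t : (PowerSeries ℂ)[X]}
    (h : (TL (2 * n) (C (PowerSeries.C om)) (X : (PowerSeries ℂ)[X]) ezX).vecMul (fun σ => C (w σ))
      = t • (fun σ => C (w σ))) (x : ℂ) (σ : Pat (2 * n + 1)) :
    ∑ b : Fin (2 * n + 1) → Bool, PowerSeries.C (Wc n x b) * (w (Tc (2 * n) b σ)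
      * expI (dTc (2 * n) b σ)) = t.eval (PowerSeries.C x) * w σ := by
  have h1 := congrArg (evalRingHom (PowerSeries.C x)) (congrFun h σ)
  rw [Pi.smul_apply, smul_eq_mul, map_mul] at h1
  have h2 : (evalRingHom (PowerSeries.C x)) ((TL (2 * n) (C (PowerSeries.C om))
      (X : (PowerSeries ℂ)[X]) ezX).vecMul (fun σ => C (w σ)) σ)
      = ∑ τ, w τ * TL (2 * n) (PowerSeries.C om) (PowerSeries.C x) ez τ σ := by
    unfold Matrix.vecMul dotProduct
    rw [map_sum]
    refine Finset.sum_congr rfl fun τ _ => ?_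
    rw [map_mul, ← e3_TL, e3_eval_map]
    simp
  rw [h2] at h1
  have h3 : ∑ τ, w τ * TL (2 * n) (PowerSeries.C om) (PowerSeries.C x) ez τ σ
      = ∑ b : Fin (2 * n + 1) → Bool, PowerSeries.C (Wc n x b) * (w (Tc (2 * n) b σ)
      * expI (dTc (2 * n) b σ)) := by
    unfold TL
    simp only [Finset.mul_sum]
    rw [Finset.sum_comm]
    refine Finset.sum_congr rfl fun b _ => ?_
    have h4 : ∀ τ, w τ * (if Tc (2 * n) b σ = τ then
        (∏ j, wt (PowerSeries.C om) (b j) (PowerSeries.C x))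
          * ((ez ^ dTc (2 * n) b σ : (PowerSeries ℂ)ˣ) : PowerSeries ℂ) else 0)
        = if Tc (2 * n) b σ = τ then w τ * ((∏ j, wt (PowerSeries.C om) (b j) (PowerSeries.C x))
          * ((ez ^ dTc (2 * n) b σ : (PowerSeries ℂ)ˣ) : PowerSeries ℂ)) else 0 := by
      intro τ
      split_ifs <;> simp
    rw [Finset.sum_congr rfl fun τ _ => h4 τ, Finset.sum_ite_eq, if_pos (Finset.mem_univ _),
      ez_zpow]
    have h5 : ∏ j, wt (PowerSeries.C om) (b j) (PowerSeries.C x)
        = PowerSeries.C (Wc n x b) := by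
      unfold Wc
      rw [map_prod]
      refine Finset.prod_congr rfl fun j _ => ?_
      exact e3_wt (PowerSeries.C : ℂ →+* PowerSeries ℂ) om x (b j)
    rw [h5]
    ring
  rw [h3] at h1
  rw [h1]
  simp

theorem left_one {n : ℕ} {w : Pat (2 * n + 1) → PowerSeries ℂ} {t : (PowerSeries ℂ)[X]}
    (h : (TL (2 * n) (C (PowerSeries.C om)) (X : (PowerSeries ℂ)[X]) ezX).vecMul (fun σ => C (w σ))
      = t • (fun σ => C (w σ))) (hw : ∀ σ, PowerSeries.coeff 0 (w σ) = 1) (ht : TSpec n t)
    (x : ℂ) (σ : Pat (2 * n + 1)) :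
    ∑ b : Fin (2 * n + 1) → Bool, Wc n x b * (PowerSeries.coeff 1 (w (Tc (2 * n) b σ))
      + (dTc (2 * n) b σ : ℂ) * Complex.I) = (e4_cf 1 t).eval x
        + (1 + x) ^ (2 * n + 1) * PowerSeries.coeff 1 (w σ) := by
  have h1 := congrArg (PowerSeries.coeff 1) (left_eval h x σ)
  rw [map_sum] at h1
  simp only [PowerSeries.coeff_C_mul, e4_mul1, hw, e4_expI, e4_eval, e4_cf0 ht] at h1
  simp only [eval_pow, eval_add, eval_one, eval_X, Nat.factorial] at h1
  have h2 : (e4_cf 1 t).eval x + (1 + x) ^ (2 * n + 1) * PowerSeries.coeff 1 (w σ)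
      = (1 + x) ^ (2 * n + 1) * PowerSeries.coeff 1 (w σ) + (e4_cf 1 t).eval x := add_comm _ _
  rw [h2]
  convert h1 using 1
  · refine Finset.sum_congr rfl fun b _ => ?_
    push_cast
    ring
  · ring

theorem left_two {n : ℕ} {w : Pat (2 * n + 1) → PowerSeries ℂ} {t : (PowerSeries ℂ)[X]}
    (h : (TL (2 * n) (C (PowerSeries.C om)) (X : (PowerSeries ℂ)[X]) ezX).vecMul (fun σ => C (w σ))
      = t • (fun σ => C (w σ))) (hw : ∀ σ, PowerSeries.coeff 0 (w σ) = 1) (ht : TSpec n t)
    (x : ℂ) (σ : Pat (2 * n + 1)) :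
    ∑ b : Fin (2 * n + 1) → Bool, Wc n x b * (PowerSeries.coeff 2 (w (Tc (2 * n) b σ))
      + (dTc (2 * n) b σ : ℂ) * Complex.I * PowerSeries.coeff 1 (w (Tc (2 * n) b σ))
      - (dTc (2 * n) b σ : ℂ) ^ 2 / 2) = (e4_cf 2 t).eval x
        + (e4_cf 1 t).eval x * PowerSeries.coeff 1 (w σ)
        + (1 + x) ^ (2 * n + 1) * PowerSeries.coeff 2 (w σ) := by
  have h1 := congrArg (PowerSeries.coeff 2) (left_eval h x σ)
  rw [map_sum] at h1
  simp only [PowerSeries.coeff_C_mul, e4_mul2, hw, e4_expI, e4_eval, e4_cf0 ht] at h1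
  simp only [eval_pow, eval_add, eval_one, eval_X, Nat.factorial] at h1
  have hI : Complex.I ^ 2 = -1 := Complex.I_sq
  convert h1 using 1
  · refine Finset.sum_congr rfl fun b _ => ?_
    push_cast
    linear_combination (-(Wc n x b) * (dTc (2 * n) b σ : ℂ) ^ 2 / 2) * hI
  · ring

end H729I
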