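import Pool.Agent.Run7.h729.Iso.Corr

/-!
# Layered percolation on cylinders of odd circumference: real form of the correctors
-/

set_option autoImplicit false

namespace H729I
open H906K Pool.Agent.H974R3 Polynomial Complex

/-- probability of the state `true` in a row with the angle `θ` -/
noncomputable def prob (θ : ℝ) : ℝ :=
  Real.sin (θ / 3) / (Real.sin (θ / 3) + Real.sin ((Real.pi - θ) / 3))

/-- the spectral parameter is `exp (i ph θ)` -/
noncomputable def ph (θ : ℝ) : ℝ := (Real.pi - 2 * θ) / 3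

/-- the weight of a row for independent tiles -/
noncomputable def rw1 (n : ℕ) (p : ℝ) (b : Fin (2 * n + 1) → Bool) : ℝ :=
  ∏ j, if b j = true then p else 1 - p

theorem prob_den (θ : ℝ) : Real.sin (θ / 3) + Real.sin ((Real.pi - θ) / 3) = Real.cos (ph θ / 2) := by
  have h1 : (Real.pi - θ) / 3 = Real.pi / 3 - θ / 3 := by ring
  have h2 : ph θ / 2 = Real.pi / 6 - θ / 3 := by unfold ph; ring
  rw [h1, h2, Real.sin_sub, Real.cos_sub, Real.sin_pi_div_three, Real.cos_pi_div_three,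
    Real.cos_pi_div_six, Real.sin_pi_div_six]
  ring

theorem ph_mem {θ : ℝ} (h : θ ∈ Set.Icc 0 Real.pi) :
    -(Real.pi / 3) ≤ ph θ ∧ ph θ ≤ Real.pi / 3 := by
  unfold ph
  constructor <;> [linarith [h.2]; linarith [h.1]]

theorem ph_cos {θ : ℝ} (h : θ ∈ Set.Icc 0 Real.pi) : 0 < Real.cos (ph θ / 2) := by
  have h1 := ph_mem h
  have hpi := Real.pi_pos
  exact Real.cos_pos_of_mem_Ioo ⟨by linarith, by linarith⟩

theorem prob_sin (θ : ℝ) : Real.cos (ph θ / 2) - Real.sqrt 3 * Real.sin (ph θ / 2)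
    = 2 * Real.sin (θ / 3) := by
  have h2 : ph θ / 2 = Real.pi / 6 - θ / 3 := by unfold ph; ring
  have h3 : Real.sqrt 3 * Real.sqrt 3 = 3 := Real.mul_self_sqrt (by norm_num)
  rw [h2, Real.sin_sub, Real.cos_sub, Real.cos_pi_div_six, Real.sin_pi_div_six]
  linear_combination (Real.sin (θ / 3) / 2) * h3

theorem om_re_im : om = ((-1 / 2 : ℝ) : ℂ) + ((Real.sqrt 3 / 2 : ℝ) : ℂ) * I := by
  apply Complex.ext
  · simp [om]
  · simp [om]

theorem expx (θ : ℝ) : cexp ((ph θ : ℂ) * I)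
    = ((Real.cos (ph θ / 2) : ℝ) + (Real.sin (ph θ / 2) : ℝ) * I : ℂ) ^ 2 := by
  have h1 : (ph θ : ℂ) * I = 2 * (((ph θ / 2 : ℝ) : ℂ) * I) := by push_cast; ring
  rw [h1, two_mul, Complex.exp_add, ← pow_two, Complex.exp_mul_I]
  push_cast
  rfl

theorem one_add_x (θ : ℝ) : 1 + cexp ((ph θ : ℂ) * I)
    = 2 * (Real.cos (ph θ / 2) : ℝ) * ((Real.cos (ph θ / 2) : ℝ)
      + (Real.sin (ph θ / 2) : ℝ) * I : ℂ) := by
  have h1 : ((Real.cos (ph θ / 2) : ℝ) : ℂ) ^ 2 + ((Real.sin (ph θ / 2) : ℝ) : ℂ) ^ 2 = 1 := by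
    rw [← Complex.ofReal_pow, ← Complex.ofReal_pow, ← Complex.ofReal_add, Real.cos_sq_add_sin_sq,
      Complex.ofReal_one]
  rw [expx]
  have hI : I ^ 2 = -1 := Complex.I_sq
  linear_combination -h1 + ((Real.sin (ph θ / 2) : ℝ) : ℂ) ^ 2 * hI

theorem wt_prob {θ : ℝ} (h : θ ∈ Set.Icc 0 Real.pi) (b : Bool) :
    wt om b (cexp ((ph θ : ℂ) * I)) = (1 + cexp ((ph θ : ℂ) * I))
      * ((if b = true then prob θ else 1 - prob θ : ℝ) : ℂ) := by
  have hc := (ph_cos h).ne'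
  have hc' : ((Real.cos (ph θ / 2) : ℝ) : ℂ) ≠ 0 := Complex.ofReal_ne_zero.2 hc
  have hp : 2 * ((Real.cos (ph θ / 2) : ℝ) : ℂ) * ((prob θ : ℝ) : ℂ)
      = ((Real.cos (ph θ / 2) : ℝ) : ℂ) - ((Real.sqrt 3 : ℝ) : ℂ) * ((Real.sin (ph θ / 2) : ℝ) : ℂ) := by
    have : 2 * Real.cos (ph θ / 2) * prob θ
        = Real.cos (ph θ / 2) - Real.sqrt 3 * Real.sin (ph θ / 2) := by
      rw [prob_sin, prob, prob_den]
      field_simp
    exact_mod_cast this
  have h1 : ((Real.cos (ph θ / 2) : ℝ) : ℂ) ^ 2 + ((Real.sin (ph θ / 2) : ℝ) : ℂ) ^ 2 = 1 := by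
    rw [← Complex.ofReal_pow, ← Complex.ofReal_pow, ← Complex.ofReal_add, Real.cos_sq_add_sin_sq,
      Complex.ofReal_one]
  have h3 : ((Real.sqrt 3 : ℝ) : ℂ) ^ 2 = 3 := by
    have : Real.sqrt 3 ^ 2 = 3 := Real.sq_sqrt (by norm_num)
    exact_mod_cast this
  have hI : I ^ 2 = -1 := Complex.I_sq
  have ht : wt om true (cexp ((ph θ : ℂ) * I)) = (1 + cexp ((ph θ : ℂ) * I))
      * ((prob θ : ℝ) : ℂ) := by
    have e1 : (1 + cexp ((ph θ : ℂ) * I)) * ((prob θ : ℝ) : ℂ)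
        = ((Real.cos (ph θ / 2) : ℝ) + (Real.sin (ph θ / 2) : ℝ) * I : ℂ)
          * (((Real.cos (ph θ / 2) : ℝ) : ℂ) - ((Real.sqrt 3 : ℝ) : ℂ)
            * ((Real.sin (ph θ / 2) : ℝ) : ℂ)) := by
      rw [← hp, one_add_x]
      ring
    rw [e1]
    simp only [wt, if_true]
    rw [expx, om_re_im]
    generalize ((Real.cos (ph θ / 2) : ℝ) : ℂ) = c at h1 ⊢
    generalize ((Real.sin (ph θ / 2) : ℝ) : ℂ) = s at h1 ⊢
    push_cast
    generalize ((Real.sqrt 3 : ℝ) : ℂ) = r at h3 ⊢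
    have hs : s ^ 2 = 1 - c ^ 2 := by linear_combination h1
    linear_combination (-1 / 2 + r * I / 2) * h1
      + (-1 / 4 * (c + s * I) ^ 2 * (h3 * I ^ 2 + 3 * hI)
        + (1 / 2 * s ^ 2 + r * c * s + r * s ^ 2 * I / 2) * hI)
  have hsum : wt om true (cexp ((ph θ : ℂ) * I)) + wt om false (cexp ((ph θ : ℂ) * I))
      = 1 + cexp ((ph θ : ℂ) * I) := by
    simp only [wt, if_true, Bool.false_eq_true, if_false]
    linear_combination (-1 - cexp ((ph θ : ℂ) * I)) * e3_om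
  cases b
  · simp only [Bool.false_eq_true, if_false]
    push_cast
    linear_combination hsum - ht
  · simpa using ht

theorem one_add_ne {θ : ℝ} (h : θ ∈ Set.Icc 0 Real.pi) : 1 + cexp ((ph θ : ℂ) * I) ≠ 0 := by
  rw [one_add_x]
  have hc := (ph_cos h).ne'
  have hc' : ((Real.cos (ph θ / 2) : ℝ) : ℂ) ≠ 0 := Complex.ofReal_ne_zero.2 hc
  refine mul_ne_zero (mul_ne_zero two_ne_zero hc') ?_
  intro h0
  have := congrArg Complex.re h0
  rw [Complex.add_re, Complex.ofReal_re, Complex.re_ofReal_mul, Complex.I_re, mul_zero, add_zero,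
    Complex.zero_re] at this
  exact hc this

theorem Wc_eq (n : ℕ) {θ : ℝ} (h : θ ∈ Set.Icc 0 Real.pi) (b : Fin (2 * n + 1) → Bool) :
    Wc n (cexp ((ph θ : ℂ) * I)) b
      = (1 + cexp ((ph θ : ℂ) * I)) ^ (2 * n + 1) * ((rw1 n (prob θ) b : ℝ) : ℂ) := by
  unfold Wc rw1
  rw [Complex.ofReal_prod]
  simp only [wt_prob h]
  rw [Finset.prod_mul_distrib, Finset.prod_const, Finset.card_univ, Fintype.card_fin]

theorem rw1_sum (n : ℕ) (p : ℝ) : ∑ b : Fin (2 * n + 1) → Bool, rw1 n p b = 1 := by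
  have h9 := (Finset.prod_univ_sum (κ := fun _ : Fin (2 * n + 1) => Bool)
    (t := fun _ => Finset.univ) (f := fun _ b => if b = true then p else 1 - p))
  rw [Fintype.piFinset_univ] at h9
  unfold rw1
  rw [← h9]
  simp

/-- the stationary vector -/
theorem right_eval {n : ℕ} {v : Pat (2 * n + 1) → PowerSeries ℂ} {t : (PowerSeries ℂ)[X]}
    (h : (TL (2 * n) (C (PowerSeries.C om)) (X : (PowerSeries ℂ)[X]) ezX).mulVec (fun σ => C (v σ))
      = t • (fun σ => C (v σ))) (ht : TSpec n t) (x : ℂ) (F : Pat (2 * n + 1) → ℂ) :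
    ∑ σ, PowerSeries.coeff 0 (v σ) * ∑ b : Fin (2 * n + 1) → Bool, Wc n x b * F (Tc (2 * n) b σ)
      = (1 + x) ^ (2 * n + 1) * ∑ σ, F σ * PowerSeries.coeff 0 (v σ) := by
  have h1 : ∀ τ, ∑ σ, TL (2 * n) (PowerSeries.C om) (PowerSeries.C x) ez τ σ * v σ
      = t.eval (PowerSeries.C x) * v τ := by
    intro τ
    have h1 := congrArg (evalRingHom (PowerSeries.C x)) (congrFun h τ)
    rw [Pi.smul_apply, smul_eq_mul, map_mul] at h1
    unfold Matrix.mulVec dotProduct at h1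
    rw [map_sum] at h1
    simp only [map_mul, ← e3_TL, e3_eval_map] at h1
    simpa using h1
  have h2 : ∀ τ, ∑ σ, (∑ b : Fin (2 * n + 1) → Bool, if Tc (2 * n) b σ = τ then Wc n x b else 0)
      * PowerSeries.coeff 0 (v σ) = (1 + x) ^ (2 * n + 1) * PowerSeries.coeff 0 (v τ) := by
    intro τ
    have h3 := congrArg (PowerSeries.coeff 0) (h1 τ)
    rw [map_sum, e4_mul0, e4_eval, e4_cf0 ht] at h3
    simp only [eval_pow, eval_add, eval_one, eval_X] at h3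
    rw [← h3]
    refine Finset.sum_congr rfl fun σ _ => ?_
    rw [e4_mul0]
    congr 1
    unfold TL
    rw [map_sum]
    refine Finset.sum_congr rfl fun b _ => ?_
    by_cases hb : Tc (2 * n) b σ = τ
    · rw [if_pos hb, if_pos hb, e4_mul0, ez_zpow, e4_expI]
      have h5 : ∏ j, wt (PowerSeries.C om) (b j) (PowerSeries.C x)
          = PowerSeries.C (Wc n x b) := by
        unfold Wc
        rw [map_prod]
        refine Finset.prod_congr rfl fun j _ => ?_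
        exact e3_wt (PowerSeries.C : ℂ →+* PowerSeries ℂ) om x (b j)
      rw [h5]
      simp
    · rw [if_neg hb, if_neg hb, map_zero]
  have h4 : ∑ τ, F τ * (∑ σ, (∑ b : Fin (2 * n + 1) → Bool,
      if Tc (2 * n) b σ = τ then Wc n x b else 0) * PowerSeries.coeff 0 (v σ))
      = (1 + x) ^ (2 * n + 1) * ∑ σ, F σ * PowerSeries.coeff 0 (v σ) := by
    rw [Finset.mul_sum]
    refine Finset.sum_congr rfl fun τ _ => ?_
    rw [h2 τ]
    ring
  rw [← h4]
  simp only [Finset.mul_sum, Finset.sum_mul]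
  have h5 : ∀ σ : Pat (2 * n + 1), ∀ b : Fin (2 * n + 1) → Bool,
      ∑ τ, F τ * ((if Tc (2 * n) b σ = τ then Wc n x b else 0) * PowerSeries.coeff 0 (v σ))
      = PowerSeries.coeff 0 (v σ) * (Wc n x b * F (Tc (2 * n) b σ)) := by
    intro σ b
    have h6 : ∀ τ, F τ * ((if Tc (2 * n) b σ = τ then Wc n x b else 0) * PowerSeries.coeff 0 (v σ))
        = if Tc (2 * n) b σ = τ then F τ * (Wc n x b * PowerSeries.coeff 0 (v σ)) else 0 := by
      intro τ
      split_ifs <;> simp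
    rw [Finset.sum_congr rfl fun τ _ => h6 τ, Finset.sum_ite_eq, if_pos (Finset.mem_univ _)]
    ring
  symm
  rw [Finset.sum_comm]
  refine Finset.sum_congr rfl fun σ _ => ?_
  rw [Finset.sum_comm]
  exact Finset.sum_congr rfl fun b _ => h5 σ b

theorem T1_re {n : ℕ} {v w : Pat (2 * n + 1) → PowerSeries ℂ} {t : (PowerSeries ℂ)[X]}
    (hv : ∑ σ, v σ = 1) (hw : ∀ σ, PowerSeries.coeff 0 (w σ) = 1) (ht : TSpec n t)
    (hr : (TL (2 * n) (C (PowerSeries.C om)) (X : (PowerSeries ℂ)[X]) ezX).mulVec (fun σ => C (v σ))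
      = t • (fun σ => C (v σ)))
    (hl : (TL (2 * n) (C (PowerSeries.C om)) (X : (PowerSeries ℂ)[X]) ezX).vecMul (fun σ => C (w σ))
      = t • (fun σ => C (w σ))) {θ : ℝ} (h : θ ∈ Set.Icc 0 Real.pi) :
    ((e4_cf 1 t).eval (cexp ((ph θ : ℂ) * I)) / (1 + cexp ((ph θ : ℂ) * I)) ^ (2 * n + 1)).re = 0 := by
  set x := cexp ((ph θ : ℂ) * I) with hx
  have hne : (1 + x) ^ (2 * n + 1) ≠ 0 := pow_ne_zero _ (one_add_ne h)
  set T1 := (e4_cf 1 t).eval x / (1 + x) ^ (2 * n + 1) with hT1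
  have h1 : ∀ σ, ∑ b : Fin (2 * n + 1) → Bool, ((rw1 n (prob θ) b : ℝ) : ℂ)
      * (PowerSeries.coeff 1 (w (Tc (2 * n) b σ)) + (dTc (2 * n) b σ : ℂ) * Complex.I)
      = T1 + PowerSeries.coeff 1 (w σ) := by
    intro σ
    have h2 := left_one hl hw ht x σ
    have h3 : ∑ b : Fin (2 * n + 1) → Bool, Wc n x b * (PowerSeries.coeff 1 (w (Tc (2 * n) b σ))
      + (dTc (2 * n) b σ : ℂ) * Complex.I) = (1 + x) ^ (2 * n + 1)
        * ∑ b : Fin (2 * n + 1) → Bool, ((rw1 n (prob θ) b : ℝ) : ℂ)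
      * (PowerSeries.coeff 1 (w (Tc (2 * n) b σ)) + (dTc (2 * n) b σ : ℂ) * Complex.I) := by
      rw [Finset.mul_sum]
      refine Finset.sum_congr rfl fun b _ => ?_
      rw [hx, Wc_eq n h]
      ring
    rw [h3] at h2
    have h4 : (e4_cf 1 t).eval x = (1 + x) ^ (2 * n + 1) * T1 := by
      rw [hT1]; field_simp
    rw [h4, ← mul_add] at h2
    exact mul_left_cancel₀ hne h2
  have h2 : ∀ σ, ∑ b : Fin (2 * n + 1) → Bool, rw1 n (prob θ) b
      * (PowerSeries.coeff 1 (w (Tc (2 * n) b σ))).re = T1.re + (PowerSeries.coeff 1 (w σ)).re := by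
    intro σ
    have h3 := congrArg Complex.re (h1 σ)
    rw [Complex.re_sum, Complex.add_re] at h3
    rw [← h3]
    refine Finset.sum_congr rfl fun b _ => ?_
    rw [Complex.re_ofReal_mul, Complex.add_re]
    have : ((dTc (2 * n) b σ : ℂ) * Complex.I).re = 0 := by
      have e : (dTc (2 * n) b σ : ℂ) = (((dTc (2 * n) b σ : ℤ) : ℝ) : ℂ) := by push_cast; rfl
      rw [e, Complex.re_ofReal_mul, Complex.I_re, mul_zero]
    rw [this, add_zero]
  have h3 := right_eval hr ht x (fun σ => (((PowerSeries.coeff 1 (w σ)).re : ℝ) : ℂ))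
  have h4 : ∀ σ, ∑ b : Fin (2 * n + 1) → Bool, Wc n x b
      * (((PowerSeries.coeff 1 (w (Tc (2 * n) b σ))).re : ℝ) : ℂ)
      = (1 + x) ^ (2 * n + 1) * ((T1.re + (PowerSeries.coeff 1 (w σ)).re : ℝ) : ℂ) := by
    intro σ
    rw [← h2 σ, Complex.ofReal_sum, Finset.mul_sum]
    refine Finset.sum_congr rfl fun b _ => ?_
    rw [hx, Wc_eq n h]
    push_cast
    ring
  simp only [h4] at h3
  have h5 : ∑ σ, PowerSeries.coeff 0 (v σ) = 1 := by
    rw [← map_sum, hv]; simp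
  have h6 : ∑ σ, PowerSeries.coeff 0 (v σ) * ((1 + x) ^ (2 * n + 1)
      * ((T1.re + (PowerSeries.coeff 1 (w σ)).re : ℝ) : ℂ))
      = (1 + x) ^ (2 * n + 1) * ((T1.re : ℂ) + ∑ σ, (((PowerSeries.coeff 1 (w σ)).re : ℝ) : ℂ)
        * PowerSeries.coeff 0 (v σ)) := by
    have e : (T1.re : ℂ) = (T1.re : ℂ) * ∑ σ, PowerSeries.coeff 0 (v σ) := by rw [h5, mul_one]
    rw [e, Finset.mul_sum, ← Finset.sum_add_distrib, Finset.mul_sum]
    refine Finset.sum_congr rfl fun σ _ => ?_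
    push_cast
    ring
  rw [h6] at h3
  have h7 := mul_left_cancel₀ hne h3
  have h8 : ((T1.re : ℝ) : ℂ) = 0 := by linear_combination h7
  exact_mod_cast h8

/-- the first and second moments of one row, with correctors which do not depend on the angle -/
theorem moments (n : ℕ) : ∃ (f a : Pat (2 * n + 1) → ℝ) (t : (PowerSeries ℂ)[X]), TSpec n t ∧
    ∀ θ ∈ Set.Icc 0 Real.pi,
    ((e4_cf 1 t).eval (cexp ((ph θ : ℂ) * I))
      / (1 + cexp ((ph θ : ℂ) * I)) ^ (2 * n + 1)).re = 0 ∧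
    ∀ σ, (∑ b : Fin (2 * n + 1) → Bool, rw1 n (prob θ) b
        * ((dTc (2 * n) b σ : ℝ) + f (Tc (2 * n) b σ))
        = f σ + ((e4_cf 1 t).eval (cexp ((ph θ : ℂ) * I))
            / (1 + cexp ((ph θ : ℂ) * I)) ^ (2 * n + 1)).im) ∧
      ∑ b : Fin (2 * n + 1) → Bool, rw1 n (prob θ) b
        * (a (Tc (2 * n) b σ) - (dTc (2 * n) b σ : ℝ) * f (Tc (2 * n) b σ)
          - (dTc (2 * n) b σ : ℝ) ^ 2 / 2)
        = ((e4_cf 2 t).eval (cexp ((ph θ : ℂ) * I))
            / (1 + cexp ((ph θ : ℂ) * I)) ^ (2 * n + 1)).re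
          - ((e4_cf 1 t).eval (cexp ((ph θ : ℂ) * I))
            / (1 + cexp ((ph θ : ℂ) * I)) ^ (2 * n + 1)).im * f σ + a σ := by
  obtain ⟨v, w, t, hv, hw, ht, hr, hl⟩ := left_all n
  refine ⟨fun σ => (PowerSeries.coeff 1 (w σ)).im, fun σ => (PowerSeries.coeff 2 (w σ)).re, t, ht,
    fun θ h => ⟨T1_re hv hw ht hr hl h, fun σ => ?_⟩⟩
  have hre := T1_re hv hw ht hr hl h
  set x := cexp ((ph θ : ℂ) * I) with hx
  have hne : (1 + x) ^ (2 * n + 1) ≠ 0 := pow_ne_zero _ (one_add_ne h)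
  set T1 := (e4_cf 1 t).eval x / (1 + x) ^ (2 * n + 1) with hT1
  set T2 := (e4_cf 2 t).eval x / (1 + x) ^ (2 * n + 1) with hT2
  have e4 : (e4_cf 1 t).eval x = (1 + x) ^ (2 * n + 1) * T1 := by
    rw [hT1]; field_simp
  have e5 : (e4_cf 2 t).eval x = (1 + x) ^ (2 * n + 1) * T2 := by
    rw [hT2]; field_simp
  have h1 : ∑ b : Fin (2 * n + 1) → Bool, ((rw1 n (prob θ) b : ℝ) : ℂ)
      * (PowerSeries.coeff 1 (w (Tc (2 * n) b σ)) + (dTc (2 * n) b σ : ℂ) * Complex.I)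
      = T1 + PowerSeries.coeff 1 (w σ) := by
    have h2 := left_one hl hw ht x σ
    have h3 : ∑ b : Fin (2 * n + 1) → Bool, Wc n x b * (PowerSeries.coeff 1 (w (Tc (2 * n) b σ))
      + (dTc (2 * n) b σ : ℂ) * Complex.I) = (1 + x) ^ (2 * n + 1)
        * ∑ b : Fin (2 * n + 1) → Bool, ((rw1 n (prob θ) b : ℝ) : ℂ)
      * (PowerSeries.coeff 1 (w (Tc (2 * n) b σ)) + (dTc (2 * n) b σ : ℂ) * Complex.I) := by
      rw [Finset.mul_sum]
      refine Finset.sum_congr rfl fun b _ => ?_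
      rw [hx, Wc_eq n h]
      ring
    rw [h3, e4, ← mul_add] at h2
    exact mul_left_cancel₀ hne h2
  have h2 : ∑ b : Fin (2 * n + 1) → Bool, ((rw1 n (prob θ) b : ℝ) : ℂ)
      * (PowerSeries.coeff 2 (w (Tc (2 * n) b σ))
      + (dTc (2 * n) b σ : ℂ) * Complex.I * PowerSeries.coeff 1 (w (Tc (2 * n) b σ))
      - (dTc (2 * n) b σ : ℂ) ^ 2 / 2)
      = T2 + T1 * PowerSeries.coeff 1 (w σ) + PowerSeries.coeff 2 (w σ) := by
    have h2 := left_two hl hw ht x σ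
    have h3 : ∑ b : Fin (2 * n + 1) → Bool, Wc n x b * (PowerSeries.coeff 2 (w (Tc (2 * n) b σ))
      + (dTc (2 * n) b σ : ℂ) * Complex.I * PowerSeries.coeff 1 (w (Tc (2 * n) b σ))
      - (dTc (2 * n) b σ : ℂ) ^ 2 / 2) = (1 + x) ^ (2 * n + 1)
        * ∑ b : Fin (2 * n + 1) → Bool, ((rw1 n (prob θ) b : ℝ) : ℂ)
      * (PowerSeries.coeff 2 (w (Tc (2 * n) b σ))
      + (dTc (2 * n) b σ : ℂ) * Complex.I * PowerSeries.coeff 1 (w (Tc (2 * n) b σ))
      - (dTc (2 * n) b σ : ℂ) ^ 2 / 2) := by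
      rw [Finset.mul_sum]
      refine Finset.sum_congr rfl fun b _ => ?_
      rw [hx, Wc_eq n h]
      ring
    rw [h3, e4, e5, mul_assoc, ← mul_add, ← mul_add] at h2
    exact mul_left_cancel₀ hne h2
  have ed : ∀ b : Fin (2 * n + 1) → Bool, (dTc (2 * n) b σ : ℂ)
      = (((dTc (2 * n) b σ : ℤ) : ℝ) : ℂ) := fun b => by push_cast; rfl
  constructor
  · have h3 := congrArg Complex.im h1
    rw [Complex.im_sum, Complex.add_im] at h3
    show ∑ b : Fin (2 * n + 1) → Bool, rw1 n (prob θ) b * ((dTc (2 * n) b σ : ℝ)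
      + (PowerSeries.coeff 1 (w (Tc (2 * n) b σ))).im) = (PowerSeries.coeff 1 (w σ)).im + T1.im
    rw [add_comm (PowerSeries.coeff 1 (w σ)).im T1.im, ← h3]
    refine Finset.sum_congr rfl fun b _ => ?_
    rw [Complex.im_ofReal_mul, Complex.add_im, ed, Complex.im_ofReal_mul, Complex.I_im]
    ring
  · have h3 := congrArg Complex.re h2
    rw [Complex.re_sum, Complex.add_re, Complex.add_re, Complex.mul_re, hre] at h3
    have h4 : T2.re - T1.im * (PowerSeries.coeff 1 (w σ)).im + (PowerSeries.coeff 2 (w σ)).re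
        = T2.re + (0 * (PowerSeries.coeff 1 (w σ)).re - T1.im * (PowerSeries.coeff 1 (w σ)).im)
          + (PowerSeries.coeff 2 (w σ)).re := by ring
    rw [h4, ← h3]
    refine Finset.sum_congr rfl fun b _ => ?_
    rw [Complex.re_ofReal_mul, Complex.sub_re, Complex.add_re, ed]
    have e6 : ((((dTc (2 * n) b σ : ℤ) : ℝ) : ℂ) * I * PowerSeries.coeff 1 (w (Tc (2 * n) b σ))).re
        = -(((dTc (2 * n) b σ : ℤ) : ℝ) * (PowerSeries.coeff 1 (w (Tc (2 * n) b σ))).im) := by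
      rw [mul_assoc, Complex.re_ofReal_mul, Complex.I_mul_re]
      ring
    have e7 : ((((dTc (2 * n) b σ : ℤ) : ℝ) : ℂ) ^ 2 / 2).re = ((dTc (2 * n) b σ : ℤ) : ℝ) ^ 2 / 2 := by
      have : ((((dTc (2 * n) b σ : ℤ) : ℝ) : ℂ) ^ 2 / 2)
          = ((((dTc (2 * n) b σ : ℤ) : ℝ) ^ 2 / 2 : ℝ) : ℂ) := by push_cast; ring
      rw [this, Complex.ofReal_re]
    rw [e6, e7]
    ring

end H729I
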