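import Pool.Agent.Run7.h729.Iso.Cof

/-!
# Calculus of functions of the line with values in the formal power series
-/

set_option autoImplicit false

namespace H729I
open H906K MeasureTheory Filter Topology

/-- bounded `C¹` functions with integrable derivative -/
structure Nc (f f' : ℝ → ℂ) : Prop where
  d : ∀ u, HasDerivAt f (f' u) u
  c : Continuous f'
  i : Integrable f'
  b : ∃ K : ℝ, ∀ u, ‖f u‖ ≤ K

variable {f f' g g' : ℝ → ℂ}

theorem Nc.cont (h : Nc f f') : Continuous f := continuous_iff_continuousAt.2 fun u => (h.d u).continuousAt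

theorem Nc.const (a : ℂ) : Nc (fun _ => a) (fun _ => 0) :=
  ⟨fun u => hasDerivAt_const u a, continuous_const, integrable_zero _ _ _, ‖a‖, fun _ => le_rfl⟩

theorem Nc.add (hf : Nc f f') (hg : Nc g g') : Nc (fun u => f u + g u) (fun u => f' u + g' u) := by
  obtain ⟨K, hK⟩ := hf.b
  obtain ⟨L, hL⟩ := hg.b
  exact ⟨fun u => (hf.d u).add (hg.d u), hf.c.add hg.c, hf.i.add hg.i, K + L, fun u =>
    (norm_add_le _ _).trans (add_le_add (hK u) (hL u))⟩

theorem Nc.mul (hf : Nc f f') (hg : Nc g g') :
    Nc (fun u => f u * g u) (fun u => f' u * g u + f u * g' u) := by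
  obtain ⟨K, hK⟩ := hf.b
  obtain ⟨L, hL⟩ := hg.b
  refine ⟨fun u => (hf.d u).mul (hg.d u), (hf.c.mul hg.cont).add (hf.cont.mul hg.c), ?_,
    |K| * |L|, fun u => ?_⟩
  · refine Integrable.add ?_ ?_
    · have := hf.i.bdd_mul (c := L) hg.cont.aestronglyMeasurable (ae_of_all _ fun u => hL u)
      exact this.congr (ae_of_all _ fun u => mul_comm _ _)
    · exact hg.i.bdd_mul (c := K) hf.cont.aestronglyMeasurable (ae_of_all _ fun u => hK u)
  · rw [norm_mul]
    exact mul_le_mul ((hK u).trans (le_abs_self K)) ((hL u).trans (le_abs_self L)) (norm_nonneg _)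
      (abs_nonneg _)

theorem Nc.congr (h : Nc f f') (e : g = f) (e' : g' = f') : Nc g g' := by rw [e, e']; exact h

theorem Nc.cmul (a : ℂ) (hf : Nc f f') : Nc (fun u => a * f u) (fun u => a * f' u) := by
  refine ((Nc.const a).mul hf).congr rfl ?_
  funext u; ring

theorem Nc.neg (hf : Nc f f') : Nc (fun u => -f u) (fun u => -f' u) := by
  refine (hf.cmul (-1)).congr ?_ ?_ <;> (funext u; ring)

theorem Nc.sum {ι : Type*} (s : Finset ι) {f f' : ι → ℝ → ℂ} (h : ∀ i ∈ s, Nc (f i) (f' i)) :
    Nc (fun u => ∑ i ∈ s, f i u) (fun u => ∑ i ∈ s, f' i u) := by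
  classical
  induction s using Finset.induction_on with
  | empty => simpa using Nc.const 0
  | insert a s ha ih =>
    refine ((h a (Finset.mem_insert_self a s)).add
      (ih fun i hi => h i (Finset.mem_insert_of_mem hi))).congr ?_ ?_
    · funext u; rw [Finset.sum_insert ha]
    · funext u; rw [Finset.sum_insert ha]

theorem Nc.uniq (h : Nc f f') (h' : Nc f g') : f' = g' := funext fun u => (h.d u).unique (h'.d u)

theorem Nc.re (h : Nc f f') : Nice (fun u => (f u).re) ∧ deriv (fun u => (f u).re) = fun u => (f' u).re := by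
  have hd : ∀ u, HasDerivAt (fun u => (f u).re) ((f' u).re) u := fun u =>
    Complex.reCLM.hasFDerivAt.comp_hasDerivAt u (h.d u)
  have e : deriv (fun u => (f u).re) = fun u => (f' u).re := funext fun u => (hd u).deriv
  refine ⟨⟨fun u => (hd u).differentiableAt, ?_, ?_⟩, e⟩
  · rw [e]; exact Complex.continuous_re.comp h.c
  · rw [e]; exact h.i.re

theorem Nc.im (h : Nc f f') : Nice (fun u => (f u).im) ∧ deriv (fun u => (f u).im) = fun u => (f' u).im := by
  have hd : ∀ u, HasDerivAt (fun u => (f u).im) ((f' u).im) u := fun u =>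
    Complex.imCLM.hasFDerivAt.comp_hasDerivAt u (h.d u)
  have e : deriv (fun u => (f u).im) = fun u => (f' u).im := funext fun u => (hd u).deriv
  refine ⟨⟨fun u => (hd u).differentiableAt, ?_, ?_⟩, e⟩
  · rw [e]; exact Complex.continuous_im.comp h.c
  · rw [e]; exact h.i.im

/-- a real nice function -/
theorem Nc.real {x : ℝ → ℝ} (h : Nice x) {K : ℝ} (hK : ∀ u, |x u| ≤ K) :
    Nc (fun u => (x u : ℂ)) (fun u => ((deriv x u : ℝ) : ℂ)) :=
  ⟨fun u => (h.1 u).hasDerivAt.ofReal_comp, Complex.continuous_ofReal.comp h.2.1, h.2.2.ofReal, K,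
    fun u => by rw [Complex.norm_real]; exact hK u⟩

/-- the convolution with the kernel -/
noncomputable def kv (f : ℝ → ℂ) (l : ℝ) : ℂ := ∫ u : ℝ, (kk (l - u) : ℂ) * f u

theorem kv_int {K : ℝ} (hf : Continuous f) (hK : ∀ u, ‖f u‖ ≤ K) (l : ℝ) :
    Integrable (fun u : ℝ => (kk (l - u) : ℂ) * f u) :=
  (a2a_integrable_shift l).ofReal.mul_bdd (c := K) hf.aestronglyMeasurable (ae_of_all _ hK)

theorem kv_int' (hf : Integrable f) (l : ℝ) : Integrable (fun u : ℝ => (kk (l - u) : ℂ) * f u) := by
  refine hf.bdd_mul (c := 3 / (2 * Real.pi)) ?_ (ae_of_all _ fun u => ?_)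
  · exact (Complex.continuous_ofReal.comp (a1_kk_cont l)).aestronglyMeasurable
  · rw [Complex.norm_real, Real.norm_eq_abs, abs_of_pos (kk_pos _)]
    refine (kk_le _).trans ?_
    have : Real.exp (-(3 * |l - u| / 2)) ≤ 1 := by
      rw [Real.exp_le_one_iff]
      have := abs_nonneg (l - u)
      linarith
    have h3 : 0 ≤ 3 / (2 * Real.pi) := by have := Real.pi_pos; positivity
    nlinarith

theorem kv_split {l : ℝ} (h : Integrable (fun u : ℝ => (kk (l - u) : ℂ) * f u)) :
    kv f l = ((∫ u : ℝ, kk (l - u) * (f u).re : ℝ) : ℂ)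
      + ((∫ u : ℝ, kk (l - u) * (f u).im : ℝ) : ℂ) * Complex.I := by
  unfold kv
  rw [← integral_re_add_im h]
  have e1 : ∀ u, RCLike.re ((kk (l - u) : ℂ) * f u) = kk (l - u) * (f u).re := fun u => by
    show ((kk (l - u) : ℂ) * f u).re = _
    rw [Complex.re_ofReal_mul]
  have e2 : ∀ u, RCLike.im ((kk (l - u) : ℂ) * f u) = kk (l - u) * (f u).im := fun u => by
    show ((kk (l - u) : ℂ) * f u).im = _
    rw [Complex.im_ofReal_mul]
  simp only [e1, e2]
  rfl

/-- the convolution of a nice function -/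
theorem Nc.kv (h : Nc f f') : Nc (kv f) (kv f') ∧
    ∀ K : ℝ, (∀ u, ‖f u‖ ≤ K) → ∀ l, ‖H729I.kv f' l‖ ≤ 2 * K := by
  obtain ⟨K, hK⟩ := h.b
  obtain ⟨n1, e1⟩ := h.re
  obtain ⟨n2, e2⟩ := h.im
  have b1 : ∀ {K : ℝ}, (∀ u, ‖f u‖ ≤ K) → ∀ u, |(f u).re| ≤ K := fun hK u =>
    (Complex.abs_re_le_norm _).trans (hK u)
  have b2 : ∀ {K : ℝ}, (∀ u, ‖f u‖ ≤ K) → ∀ u, |(f u).im| ≤ K := fun hK u =>
    (Complex.abs_im_le_norm _).trans (hK u)
  obtain ⟨c1, d1⟩ := kk_conv_nice _ K n1 (b1 hK)
  obtain ⟨c2, d2⟩ := kk_conv_nice _ K n2 (b2 hK)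
  have s0 : H729I.kv f = fun l => ((∫ u : ℝ, kk (l - u) * (f u).re : ℝ) : ℂ)
      + ((∫ u : ℝ, kk (l - u) * (f u).im : ℝ) : ℂ) * Complex.I :=
    funext fun l => kv_split (kv_int h.cont hK l)
  have s1 : H729I.kv f' = fun l => ((deriv (fun l => ∫ u : ℝ, kk (l - u) * (f u).re) l : ℝ) : ℂ)
      + ((deriv (fun l => ∫ u : ℝ, kk (l - u) * (f u).im) l : ℝ) : ℂ) * Complex.I := by
    funext l
    rw [kv_split (kv_int' h.i l), d1, d2, e1, e2]
  refine ⟨⟨fun l => ?_, ?_, ?_, K / 2, fun l => ?_⟩, fun L hL l => ?_⟩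
  · rw [s0, s1]
    exact ((c1.1 l).hasDerivAt.ofReal_comp).add (((c2.1 l).hasDerivAt.ofReal_comp).mul_const _)
  · rw [s1]
    exact (Complex.continuous_ofReal.comp c1.2.1).add
      ((Complex.continuous_ofReal.comp c2.2.1).mul continuous_const)
  · rw [s1]
    exact (c1.2.2.ofReal).add ((c2.2.2.ofReal).mul_const _)
  · unfold H729I.kv
    have h1 := norm_integral_le_of_norm_le (f := fun u => (kk (l - u) : ℂ) * f u)
      ((a2a_integrable_shift l).mul_const K) (ae_of_all _ fun u => by
        rw [norm_mul, Complex.norm_real, Real.norm_eq_abs, abs_of_pos (kk_pos _)]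
        exact mul_le_mul_of_nonneg_left (hK u) (kk_pos _).le)
    rw [integral_mul_const, a2a_integral_shift] at h1
    linarith
  · rw [s1]
    refine (norm_add_le _ _).trans ?_
    rw [norm_mul, Complex.norm_I, mul_one, Complex.norm_real, Complex.norm_real]
    have h1 := kk_conv_deriv_le _ L n1 (b1 hL) l
    have h2 := kk_conv_deriv_le _ L n2 (b2 hL) l
    rw [Real.norm_eq_abs, Real.norm_eq_abs]
    linarith

/-! ## power series -/

/-- all the coefficients are nice -/
def Ncs (F F' : ℝ → PowerSeries ℂ) : Prop :=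
  ∀ k, Nc (fun u => PowerSeries.coeff k (F u)) (fun u => PowerSeries.coeff k (F' u))

variable {F F' G G' : ℝ → PowerSeries ℂ}

theorem Ncs.const (a : PowerSeries ℂ) : Ncs (fun _ => a) (fun _ => 0) := fun k => by
  simpa using Nc.const (PowerSeries.coeff k a)

theorem Ncs.add (hF : Ncs F F') (hG : Ncs G G') : Ncs (fun u => F u + G u) (fun u => F' u + G' u) :=
  fun k => ((hF k).add (hG k)).congr (by funext u; rw [map_add]) (by funext u; rw [map_add])

theorem Ncs.mul (hF : Ncs F F') (hG : Ncs G G') :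
    Ncs (fun u => F u * G u) (fun u => F' u * G u + F u * G' u) := fun k => by
  refine (Nc.sum (Finset.HasAntidiagonal.antidiagonal k) fun p _ => (hF p.1).mul (hG p.2)).congr ?_ ?_
  · funext u; rw [PowerSeries.coeff_mul]
  · funext u; rw [map_add, PowerSeries.coeff_mul, PowerSeries.coeff_mul, ← Finset.sum_add_distrib]

theorem Ncs.congr (h : Ncs F F') (e : G = F) (e' : G' = F') : Ncs G G' := by rw [e, e']; exact h

theorem Ncs.neg (hF : Ncs F F') : Ncs (fun u => -F u) (fun u => -F' u) := fun k =>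
  (hF k).neg.congr (by funext u; rw [map_neg]) (by funext u; rw [map_neg])

theorem Ncs.C (hf : Nc f f') : Ncs (fun u => PowerSeries.C (f u)) (fun u => PowerSeries.C (f' u)) := by
  intro k
  rcases Nat.eq_zero_or_pos k with rfl | hk
  · simpa using hf
  · refine (Nc.const 0).congr ?_ ?_ <;>
      (funext u; rw [PowerSeries.coeff_C, if_neg (by omega)])

theorem Ncs.X (hF : Ncs F F') : Ncs (fun u => PowerSeries.X * F u) (fun u => PowerSeries.X * F' u) := by
  intro k
  rcases k with _ | k
  · simpa using Nc.const 0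
  · simpa only [PowerSeries.coeff_succ_X_mul] using hF k

theorem Ncs.dX (hF : Ncs F F') : Ncs (fun u => PowerSeries.derivative ℂ (F u))
    (fun u => PowerSeries.derivative ℂ (F' u)) := by
  intro k
  refine ((hF (k + 1)).cmul ((k : ℂ) + 1)).congr ?_ ?_ <;>
    (funext u; rw [PowerSeries.coeff_derivative]; ring)

theorem cc1 {A : PowerSeries ℂ} (h : PowerSeries.coeff 0 A = 1) :
    PowerSeries.constantCoeff A ≠ 0 := by
  rw [← PowerSeries.coeff_zero_eq_constantCoeff_apply, h]; exact one_ne_zero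

theorem Ncs.d0 (hF : Ncs F F') {a : ℂ} (h0 : ∀ u, PowerSeries.coeff 0 (F u) = a) (u : ℝ) :
    PowerSeries.coeff 0 (F' u) = 0 := by
  have h1 := hF 0
  have h2 : (fun u => PowerSeries.coeff 0 (F u)) = fun _ => a := funext h0
  rw [h2] at h1
  exact congrFun (h1.uniq (Nc.const a)) u

theorem mulsplit (A B : PowerSeries ℂ) (k : ℕ) : PowerSeries.coeff k (A * B)
    = PowerSeries.coeff 0 A * PowerSeries.coeff k B
      + ∑ j ∈ Finset.range k, PowerSeries.coeff (j + 1) A * PowerSeries.coeff (k - (j + 1)) B := by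
  rw [PowerSeries.coeff_mul, Finset.Nat.sum_antidiagonal_eq_sum_range_succ
    (fun i j => PowerSeries.coeff i A * PowerSeries.coeff j B), Finset.sum_range_succ', add_comm]
  rfl

theorem Ncs.inv (hF : Ncs F F') (h0 : ∀ u, PowerSeries.coeff 0 (F u) = 1) :
    Ncs (fun u => (F u)⁻¹) (fun u => -(F' u * (F u)⁻¹ * (F u)⁻¹)) := by
  have hi : ∀ u, F u * (F u)⁻¹ = 1 := fun u => PowerSeries.mul_inv_cancel _ (cc1 (h0 u))
  have hi0 : ∀ u, PowerSeries.coeff 0 ((F u)⁻¹) = 1 := by
    intro u
    have := congrArg (PowerSeries.coeff 0) (hi u)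
    rw [e4_mul0, h0, one_mul] at this
    simpa using this
  intro k
  induction k using Nat.strong_induction_on with
  | _ k ih =>
    rcases Nat.eq_zero_or_pos k with rfl | hk
    · refine (Nc.const 1).congr (funext hi0) ?_
      funext u
      rw [map_neg, e4_mul0, e4_mul0, hF.d0 h0 u]
      ring
    · refine (Nc.sum (Finset.range k) fun j hj => (((hF (j + 1)).mul
        (ih (k - (j + 1)) (by omega))).neg)).congr ?_ ?_
      · funext u
        have h1 := congrArg (PowerSeries.coeff k) (hi u)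
        rw [mulsplit, h0, one_mul, PowerSeries.coeff_one, if_neg (by omega)] at h1
        rw [Finset.sum_neg_distrib]
        linear_combination h1
      · funext u
        have h1 : F u * -(F' u * (F u)⁻¹ * (F u)⁻¹) = -(F' u * (F u)⁻¹) := by
          linear_combination (-(F' u * (F u)⁻¹)) * hi u
        have h2 := congrArg (PowerSeries.coeff k) h1
        rw [mulsplit, h0, one_mul, map_neg (PowerSeries.coeff k) (F' u * (F u)⁻¹), mulsplit, hF.d0 h0 u,
          zero_mul, zero_add] at h2
        rw [Finset.sum_neg_distrib, Finset.sum_add_distrib]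
        linear_combination h2

theorem Ncs.lgs (hF : Ncs F F') (h0 : ∀ u, PowerSeries.coeff 0 (F u) = 1) :
    Ncs (fun u => H729I.lgs (F u)) (fun u => F' u * (F u)⁻¹) := by
  intro k
  rcases k with _ | k
  · refine (Nc.const 0).congr (funext fun u => lgs_zero _) ?_
    funext u
    rw [e4_mul0, hF.d0 h0 u, zero_mul]
  · have h1 := ((hF.dX.mul (hF.inv h0)) k).cmul (1 / ((k : ℂ) + 1))
    have hk0 : ((k : ℂ) + 1) ≠ 0 := Nat.cast_add_one_ne_zero k
    refine h1.congr ?_ ?_
    · funext u
      beta_reduce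
      rw [← lgs_deriv, PowerSeries.coeff_derivative]
      field_simp
    · funext u
      beta_reduce
      have h2 : PowerSeries.derivative ℂ (F' u) * (F u)⁻¹ + PowerSeries.derivative ℂ (F u)
          * -(F' u * (F u)⁻¹ * (F u)⁻¹) = PowerSeries.derivative ℂ (F' u * (F u)⁻¹) := by
        rw [Derivation.leibniz, PowerSeries.derivative_inv', smul_eq_mul, smul_eq_mul]
        ring
      rw [h2, PowerSeries.coeff_derivative]
      field_simp

/-- from the logarithm to the function -/
theorem Ncs.exp {L' : ℝ → PowerSeries ℂ} (hL : Ncs (fun u => H729I.lgs (F u)) L')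
    (h0 : ∀ u, PowerSeries.coeff 0 (F u) = 1) : Ncs F (fun u => F u * L' u) := by
  have hL0 : ∀ u, PowerSeries.coeff 0 (L' u) = 0 := hL.d0 (a := 0) fun u => lgs_zero _
  intro k
  induction k using Nat.strong_induction_on with
  | _ k ih =>
    rcases Nat.eq_zero_or_pos k with rfl | hk
    · refine (Nc.const 1).congr (funext h0) ?_
      funext u
      rw [e4_mul0, hL0, mul_zero]
    · have hk0 : (k : ℂ) ≠ 0 := by exact_mod_cast (by omega : k ≠ 0)
      refine ((hL k).add (Nc.sum (Finset.Ico 1 k) fun j hj => ((hL j).cmul ((j : ℂ) / k)).mul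
        (ih (k - j) (by have := Finset.mem_Ico.1 hj; omega)))).congr ?_ ?_
      · funext u
        exact lgs_rec (h0 u) hk
      · funext u
        beta_reduce
        obtain ⟨m, rfl⟩ : ∃ m, k = m + 1 := ⟨k - 1, by omega⟩
        have hi : F u * (F u)⁻¹ = 1 := PowerSeries.mul_inv_cancel _ (cc1 (h0 u))
        have e1 : PowerSeries.derivative ℂ (F u * L' u)
            = PowerSeries.derivative ℂ (H729I.lgs (F u)) * (F u * L' u)
              + PowerSeries.derivative ℂ (L' u) * F u := by
          rw [Derivation.leibniz, lgs_deriv, smul_eq_mul, smul_eq_mul]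
          linear_combination (-(L' u * PowerSeries.derivative ℂ (F u))) * hi
        have e2 := congrArg (PowerSeries.coeff m) e1
        rw [PowerSeries.coeff_derivative, map_add,
          PowerSeries.coeff_mul m (PowerSeries.derivative ℂ (H729I.lgs (F u))),
          PowerSeries.coeff_mul m (PowerSeries.derivative ℂ (L' u)),
          Finset.Nat.sum_antidiagonal_eq_sum_range_succ (fun i j => PowerSeries.coeff i
            (PowerSeries.derivative ℂ (H729I.lgs (F u))) * PowerSeries.coeff j (F u * L' u)),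
          Finset.Nat.sum_antidiagonal_eq_sum_range_succ (fun i j => PowerSeries.coeff i
            (PowerSeries.derivative ℂ (L' u)) * PowerSeries.coeff j (F u))] at e2
        simp only [PowerSeries.coeff_derivative] at e2
        rw [Finset.sum_range_succ, Finset.sum_range_succ, Nat.sub_self, h0, e4_mul0, hL0, mul_zero,
          mul_zero, add_zero] at e2
        rw [Finset.sum_Ico_eq_sum_range, Nat.add_sub_cancel]
        have e3 : PowerSeries.coeff (m + 1) (F u * L' u) = PowerSeries.coeff (m + 1) (L' u)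
            + (∑ x ∈ Finset.range m, (PowerSeries.coeff (x + 1) (H729I.lgs (F u)) * ((x : ℂ) + 1)
              * PowerSeries.coeff (m - x) (F u * L' u)
              + PowerSeries.coeff (x + 1) (L' u) * ((x : ℂ) + 1) * PowerSeries.coeff (m - x) (F u)))
              / ((m : ℂ) + 1) := by
          rw [Finset.sum_add_distrib]
          have : ((m : ℂ) + 1) ≠ 0 := Nat.cast_add_one_ne_zero m
          field_simp
          linear_combination e2
        rw [e3, Finset.sum_div]
        congr 1
        refine Finset.sum_congr rfl fun x hx => ?_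
        have e : m + 1 - (1 + x) = m - x := by omega
        rw [e, add_comm 1 x]
        push_cast
        ring

end H729I
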