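import Pool.Agent.Run7.h729.Iso.Dil9

/-!
# The reflection, and the bound of the coefficients at the symmetric point
-/

set_option autoImplicit false

namespace H729I
open H906K MeasureTheory Set Filter Topology

variable {n : ℕ} {x : ℝ → ℝ} {T B R : ℝ → PowerSeries ℂ}

theorem Nc.refl {f f' : ℝ → ℂ} (h : Nc f f') : Nc (fun u => f (-u)) (fun u => -f' (-u)) := by
  obtain ⟨K, hK⟩ := h.b
  refine ⟨fun u => ?_, (h.c.comp continuous_neg).neg, ?_, K, fun u => hK _⟩
  · have h1 := (h.d (-u)).scomp u (hasDerivAt_neg u)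
    refine h1.congr_deriv ?_
    simp
  · exact (h.i.comp_neg).neg

theorem kv_refl (f : ℝ → ℂ) (u : ℝ) : kv (fun v => f (-v)) u = kv f (-u) := by
  unfold kv
  rw [← integral_neg_eq_self (fun v : ℝ => (kk (-u - v) : ℂ) * f v)]
  congr 1
  funext v
  have : -u - -v = -(u - v) := by ring
  rw [this, kk_even]

/-- the reflected function -/
noncomputable def rm (F : ℝ → PowerSeries ℂ) (u : ℝ) : PowerSeries ℂ :=
  PowerSeries.rescale (-1) (F (-u))

theorem rm_coeff (F : ℝ → PowerSeries ℂ) (k : ℕ) (u : ℝ) :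
    PowerSeries.coeff k (rm F u) = (-1) ^ k * PowerSeries.coeff k (F (-u)) := by
  unfold rm; rw [PowerSeries.coeff_rescale]

theorem neg_one_pow_mul (k : ℕ) : ((-1 : ℂ)) ^ k * (-1) ^ k = 1 := by
  rw [← mul_pow]; norm_num

theorem lgs_rs {F : PowerSeries ℂ} (h0 : PowerSeries.coeff 0 F = 1) :
    lgs (PowerSeries.rescale (-1) F) = PowerSeries.rescale (-1) (lgs F) := by
  have h0' : PowerSeries.coeff 0 (PowerSeries.rescale (-1) F) = 1 := by
    rw [PowerSeries.coeff_rescale, pow_zero, one_mul, h0]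
  ext k
  rw [PowerSeries.coeff_rescale]
  induction k using Nat.strong_induction_on with
  | _ k ih =>
    rcases Nat.eq_zero_or_pos k with rfl | hk
    · rw [lgs_zero, lgs_zero, mul_zero]
    · have h1 := lgs_rec h0' hk
      have h2 := lgs_rec h0 hk
      have h3 : ∑ j ∈ Finset.Ico 1 k, ((j : ℂ) / k) * PowerSeries.coeff j
          (lgs (PowerSeries.rescale (-1) F)) * PowerSeries.coeff (k - j) (PowerSeries.rescale (-1) F)
          = (-1) ^ k * ∑ j ∈ Finset.Ico 1 k, ((j : ℂ) / k) * PowerSeries.coeff j (lgs F)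
            * PowerSeries.coeff (k - j) F := by
        rw [Finset.mul_sum]
        refine Finset.sum_congr rfl fun j hj => ?_
        have hj' := Finset.mem_Ico.1 hj
        rw [ih j hj'.2, PowerSeries.coeff_rescale]
        have e : (-1 : ℂ) ^ k = (-1) ^ j * (-1) ^ (k - j) := by rw [← pow_add]; congr 1; omega
        rw [e]
        ring
      rw [h3, PowerSeries.coeff_rescale] at h1
      linear_combination (-1 : ℂ) * h1 + (-1) ^ k * h2

theorem rs_expI (a : ℂ) : PowerSeries.rescale (-1) (expI a) = expI (-a) := by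
  ext j
  rw [PowerSeries.coeff_rescale, e4_expI, e4_expI, ← mul_div_assoc, ← mul_pow]
  congr 2
  ring

theorem rs_kc : PowerSeries.rescale (-1) kc = kc := by
  rw [kc_eq, map_sub, map_add, rs_expI, rs_expI, neg_neg, map_ofNat]
  ring

theorem rs_X : PowerSeries.rescale (-1 : ℂ) PowerSeries.X = -PowerSeries.X := by
  ext k
  rw [PowerSeries.coeff_rescale, map_neg, PowerSeries.coeff_X]
  split_ifs with h
  · rw [h]; norm_num
  · rw [mul_zero, neg_zero]

theorem MB.refl {r C : ℝ} {F : ℝ → PowerSeries ℂ} (h : MB r C (fun _ => 1) F) :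
    MB r C (fun _ => 1) (rm F) := by
  obtain ⟨f, f0, fs, hf⟩ := h
  refine ⟨f, f0, fs, fun k u => ?_⟩
  rw [rm_coeff, norm_mul, norm_pow, norm_neg, norm_one, one_pow, one_mul]
  exact hf k (-u)

theorem rm_sub1 (F : ℝ → PowerSeries ℂ) (u : ℝ) : rm F u - 1 = rm (fun v => F v - 1) u := by
  unfold rm
  rw [map_sub, map_one]

theorem rm_Y (hB0 : ∀ u, PowerSeries.coeff 0 (B u) = 1) (u : ℝ) :
    AAc n (fun v => -x (-v)) (rm B) u = rm (AAc n x B) u := by
  have h1 : (1 : PowerSeries ℂ) + Yy n (fun v => -x (-v)) (rm B) u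
      = PowerSeries.rescale (-1) (1 + Yy n x B (-u)) := by
    unfold Yy rm
    rw [a9_A1, map_add, map_one, map_mul, map_mul, rs_X, rescale_C]
    push_cast
    rw [map_neg]
    ring
  have h2 : PowerSeries.coeff 0 (1 + Yy n x B (-u)) = 1 := by
    unfold Yy
    rw [map_add, PowerSeries.coeff_zero_X_mul, PowerSeries.coeff_one, if_pos rfl, add_zero]
  have e : rm (AAc n x B) u = PowerSeries.rescale (-1) (lgs (1 + Yy n x B (-u))) := rfl
  rw [e, ← lgs_rs h2, ← h1]
  rfl

theorem Fs.refl (h : Fs n x T B R) : Fs n (fun v => -x (-v)) (rm T) (rm B) (rm R) := by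
  obtain ⟨y, b, hs⟩ := h.sys
  obtain ⟨T', nT⟩ := h.nT
  have hr : (0 : ℝ) ≤ 1 / 10000 := by norm_num
  refine ⟨h.n1, ⟨_, _, sys_reflect hs⟩, fun u => ?_, fun u => ?_, fun u => ?_, fun u => ?_,
    ⟨fun u => PowerSeries.mk fun k => (-1) ^ k * -PowerSeries.coeff k (T' (-u)), fun k => ?_⟩,
    fun k u => ?_, fun k u => ?_, fun u => ?_, fun k => ?_, fun k => ?_, ?_, ?_, ?_, ?_⟩
  · rw [rm_coeff, h.T0]; norm_num
  · rw [rm_coeff, h.T1]; push_cast; ring
  · rw [rm_coeff, h.B0]; norm_num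
  · rw [rm_coeff, h.R0]; norm_num
  · refine ((nT k).refl.cmul ((-1) ^ k)).congr (funext fun u => rm_coeff T k u) ?_
    funext u
    rw [PowerSeries.coeff_mk]
  · have e1 : ∀ v, PowerSeries.coeff k (lgs (1 + PowerSeries.X
        * (PowerSeries.C ((A1 (2 * n + 1) (fun w => -x (-w)) v : ℝ) : ℂ) * rm B v)))
        = (-1) ^ k * PowerSeries.coeff k (AAc n x B (-v)) := by
      intro v
      have := rm_Y (n := n) (x := x) h.B0 v
      have h2 := congrArg (PowerSeries.coeff k) this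
      rw [rm_coeff] at h2
      exact h2
    have e2 : PowerSeries.coeff k (lgs (rm T u)) = (-1) ^ k * PowerSeries.coeff k (lgs (T (-u))) := by
      unfold rm
      rw [lgs_rs (h.T0 _), PowerSeries.coeff_rescale]
    simp only [e1]
    rw [e2, kv_cmul ((-1) ^ k) (fun v => PowerSeries.coeff k (AAc n x B (-v))),
      kv_refl (fun v => PowerSeries.coeff k (AAc n x B v)), h.k1]
    rfl
  · have e1 : ∀ v, PowerSeries.coeff k (lgs (rm R v)) = (-1) ^ k * PowerSeries.coeff k (lgs (R (-v))) := by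
      intro v
      unfold rm
      rw [lgs_rs (h.R0 _), PowerSeries.coeff_rescale]
    have e2 : PowerSeries.coeff k (lgs (rm B u)) = (-1) ^ k * PowerSeries.coeff k (lgs (B (-u))) := by
      unfold rm
      rw [lgs_rs (h.B0 _), PowerSeries.coeff_rescale]
    simp only [e1]
    rw [e2, kv_cmul ((-1) ^ k) (fun v => PowerSeries.coeff k (lgs (R (-v)))),
      kv_refl (fun v => PowerSeries.coeff k (lgs (R v))), h.k2]
  · have h1 := congrArg (PowerSeries.rescale (-1)) (h.rl (-u))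
    rw [map_mul, map_mul, map_mul, rs_X, rescale_C, map_add, map_pow, map_sub, map_one, map_mul,
      rs_kc] at h1
    have e : ((9 + (-x (-u)) ^ 2 : ℝ) : ℂ) = ((9 + x (-u) ^ 2 : ℝ) : ℂ) := by rw [neg_sq]
    beta_reduce
    rw [e]
    unfold rm
    rw [← h1]
    ring
  · have h1 := ((h.bot k).comp tendsto_neg_atTop_atBot).const_mul ((-1 : ℂ) ^ k)
    rw [PowerSeries.coeff_rescale, ← mul_assoc, neg_one_pow_mul, one_mul] at h1
    exact h1.congr fun u => (rm_coeff T k u).symm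
  · have h1 := ((h.top k).comp tendsto_neg_atBot_atTop).const_mul ((-1 : ℂ) ^ k)
    rw [PowerSeries.coeff_rescale]
    exact h1.congr fun u => (rm_coeff T k u).symm
  · exact h.mT.refl.congr fun u => rm_sub1 T u
  · exact h.mB.refl.congr fun u => rm_sub1 B u
  · exact h.mR.refl.congr fun u => rm_sub1 R u
  · refine h.mL.refl.congr fun u => ?_
    unfold rm
    rw [lgs_rs (h.R0 _)]

/-- **the coefficients at the symmetric point** -/
theorem lgsT_bound : ∃ r3 K : ℝ, 0 < r3 ∧ r3 ≤ 1 / 10000 ∧ 0 < K ∧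
    ∀ {n : ℕ} {x : ℝ → ℝ} {T B R : ℝ → PowerSeries ℂ}, Fs n x T B R → ∃ e : ℕ → ℝ,
      (∀ k, 0 ≤ e k) ∧ (∀ L, ps e L ≤ K / (2 * n + 1) ^ 2) ∧ ∀ k : ℕ, 3 ≤ k →
        ‖PowerSeries.coeff k (lgs (T 0))‖ * r3 ^ k ≤ e k := by
  obtain ⟨c, hc, h1⟩ := fd_exists
  obtain ⟨r3, K, hr3, hr3', hK, h2⟩ := half_bound hc
  refine ⟨r3, 2 * K, hr3, hr3', by positivity, ?_⟩
  intro n x T B R hF
  obtain ⟨T', Bp, Ap, hD⟩ := h1 hF
  obtain ⟨T2', Bp2, Ap2, hD2⟩ := h1 hF.refl
  obtain ⟨e, e0, es, he⟩ := h2 hF hD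
  obtain ⟨d, d0, ds, hd⟩ := h2 hF.refl hD2
  refine ⟨fun k => e k + d k, fun k => add_nonneg (e0 k) (d0 k), fun L => ?_, fun k hk => ?_⟩
  · rw [ps_add]
    calc _ ≤ K / (2 * (n : ℝ) + 1) ^ 2 + K / (2 * (n : ℝ) + 1) ^ 2 := add_le_add (es L) (ds L)
      _ = _ := by ring
  · have h3 : PowerSeries.coeff k (lgs (T 0)) = kv (fun v => PowerSeries.coeff k (AAc n x B v)) 0 :=
      hF.k1 k 0
    have hi : Integrable (fun v : ℝ => (kk v : ℂ) * PowerSeries.coeff k (AAc n x B v)) := by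
      obtain ⟨L, hL⟩ := (hD.nA k).b
      have hkk : Integrable (fun v : ℝ => (kk v : ℂ)) := by
        have := (a8_exp_int).mono' (kk_cont).aestronglyMeasurable (ae_of_all _ fun v => by
          rw [Real.norm_eq_abs, abs_of_pos (kk_pos v)]; exact a8_kk_le1 v)
        exact this.ofReal
      exact (hkk.bdd_mul (c := L) (hD.nA k).cont.aestronglyMeasurable (ae_of_all _ hL)).congr
        (ae_of_all _ fun v => mul_comm _ _)
    have h4 : kv (fun v => PowerSeries.coeff k (AAc n x B v)) 0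
        = (∫ v in Iic (0 : ℝ), (kk v : ℂ) * PowerSeries.coeff k (AAc n x B v))
          + ∫ v in Ioi (0 : ℝ), (kk v : ℂ) * PowerSeries.coeff k (AAc n x B v) := by
      rw [intervalIntegral.integral_Iic_add_Ioi hi.integrableOn hi.integrableOn]
      unfold kv
      congr 1
      funext v
      rw [zero_sub, kk_even]
    have h5 : (∫ v in Iic (0 : ℝ), (kk v : ℂ) * PowerSeries.coeff k (AAc n x B v))
        = (-1) ^ k * ∫ v in Ioi (0 : ℝ), (kk v : ℂ)
          * PowerSeries.coeff k (AAc n (fun w => -x (-w)) (rm B) v) := by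
      have e1 : ∀ v : ℝ, (kk v : ℂ) * PowerSeries.coeff k (AAc n (fun w => -x (-w)) (rm B) v)
          = (-1) ^ k * ((kk (-v) : ℂ) * PowerSeries.coeff k (AAc n x B (-v))) := by
        intro v
        rw [rm_Y hF.B0, rm_coeff, kk_even]
        ring
      simp only [e1]
      rw [integral_const_mul, ← mul_assoc, neg_one_pow_mul, one_mul,
        integral_comp_neg_Ioi (0 : ℝ) (fun v => (kk v : ℂ) * PowerSeries.coeff k (AAc n x B v)),
        neg_zero]
    have h6 := he k hk
    have h7 := hd k hk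
    rw [h3, h4, h5]
    have h8 := norm_add_le ((-1 : ℂ) ^ k * ∫ v in Ioi (0 : ℝ), (kk v : ℂ)
          * PowerSeries.coeff k (AAc n (fun w => -x (-w)) (rm B) v))
      (∫ v in Ioi (0 : ℝ), (kk v : ℂ) * PowerSeries.coeff k (AAc n x B v))
    rw [norm_mul, norm_pow, norm_neg, norm_one, one_pow, one_mul] at h8
    have h9 := mul_le_mul_of_nonneg_right h8 (show 0 ≤ r3 ^ k by positivity)
    linarith

end H729I
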