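import Pool.Agent.Run7.h729.Iso.Bst

/-!
# The Gaussian estimate for one block
-/

set_option autoImplicit false

namespace H729I
open H906K Pool.Agent.H974R3 Polynomial Complex Filter Topology

variable {n : ℕ} {t : (PowerSeries ℂ)[X]} {w : Pat (2 * n + 1) → PowerSeries ℂ}
  {μ : Pat (2 * n + 1) → ℝ}

theorem pow_decay {q : ℝ} (h0 : 0 ≤ q) (h1 : q ≤ 1) (j : ℕ) : j * (1 - q) * q ^ j ≤ 1 - q ^ j := by
  induction j with
  | zero => simp
  | succ j ih =>
    have hq : 0 ≤ 1 - q := by linarith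
    have h2 : 0 ≤ q ^ j := pow_nonneg h0 j
    have h3 : q ^ j ≤ 1 := pow_le_one₀ h0 h1
    have h4 := mul_le_mul_of_nonneg_left ih h0
    push_cast
    rw [pow_succ]
    nlinarith [mul_nonneg hq (mul_nonneg h0 h2), mul_nonneg hq hq]

/-- the sums of cosines and sines of a block -/
noncomputable def cosS (ϑ : ℕ → ℝ) (M : ℕ) : ℝ := ∑ s ∈ Finset.range M, Real.cos (ϑ s)
noncomputable def hgt (n : ℕ) (ϑ : ℕ → ℝ) (M : ℕ) : ℝ :=
  2 * Real.pi / (2 * n + 1) * ∑ s ∈ Finset.range M, Real.sin (ϑ s)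

/-- the Gaussian value -/
noncomputable def gv (n : ℕ) (ϑ : ℕ → ℝ) (M : ℕ) (a : ℝ) : ℂ :=
  cexp (I * (2 * Real.pi * a / (2 * n + 1) * cosS ϑ M : ℝ) - ((3 * a ^ 2 * hgt n ϑ M : ℝ) : ℂ))

/-- the error -/
noncomputable def err (C : ℝ) (n : ℕ) (a T : ℝ) : ℝ :=
  C * (√|a| + |a| ^ 3 * T + |a| * T / (2 * n + 1) ^ 2 + a ^ 2 * T / (2 * n + 1))

theorem hgt_nonneg {ϑ : ℕ → ℝ} (hϑ : ∀ t, ϑ t ∈ Set.Icc 0 Real.pi) (M : ℕ) : 0 ≤ hgt n ϑ M := by
  unfold hgt
  refine mul_nonneg (by positivity) (Finset.sum_nonneg fun s _ => ?_)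
  exact Real.sin_nonneg_of_nonneg_of_le_pi (hϑ s).1 (hϑ s).2

theorem gv_norm {ϑ : ℕ → ℝ} (hϑ : ∀ t, ϑ t ∈ Set.Icc 0 Real.pi) (M : ℕ) (a : ℝ) :
    ‖gv n ϑ M a‖ ≤ 1 := by
  unfold gv
  rw [Complex.norm_exp, Real.exp_le_one_iff]
  simp only [Complex.sub_re, Complex.mul_re, Complex.I_re, Complex.ofReal_re, Complex.I_im,
    Complex.ofReal_im, zero_mul, one_mul, mul_zero, sub_zero]
  have := hgt_nonneg (n := n) hϑ M
  have : 0 ≤ 3 * a ^ 2 * hgt n ϑ M := by positivity
  linarith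

theorem n1_triv (h : Eg n t w μ) {ϑ : ℕ → ℝ} (hϑ : ∀ t, ϑ t ∈ Set.Icc 0 Real.pi) (M : ℕ) (α : ℝ)
    {c : ℂ} (hc : ‖c‖ ≤ 1) : n1 μ (fun σ => Bk n ϑ M α (fun _ => 1) σ - c) ≤ 2 := by
  have h1 := n1_add h (Bk n ϑ M α (fun _ => 1)) (fun _ => -c)
  have h2 := n1_Bk h hϑ M α (fun _ => 1)
  rw [n1_const h, norm_one] at h2
  rw [n1_const h, norm_neg] at h1
  have e : (fun σ => Bk n ϑ M α (fun _ => 1) σ - c)
      = fun σ => Bk n ϑ M α (fun _ => 1) σ + (fun _ => -c) σ := by
    funext σ; show _ - c = _ + -c; ring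
  rw [e]
  linarith

/-- **the Gaussian estimate** -/
theorem blk_gauss : ∃ C : ℝ, 0 < C ∧ ∀ n : ℕ, 1 ≤ n → ∃ (t : (PowerSeries ℂ)[X])
    (w : Pat (2 * n + 1) → PowerSeries ℂ) (μ : Pat (2 * n + 1) → ℝ), Eg n t w μ ∧
    ∀ ϑ : ℕ → ℝ, (∀ t, ϑ t ∈ Set.Icc 0 Real.pi) → ∀ (M : ℕ) (a : ℝ),
      n1 μ (fun σ => Bk n ϑ M (2 * Real.pi * a) (fun _ => 1) σ - gv n ϑ M a)
        ≤ err C n a (hgt n ϑ M) := by
  obtain ⟨C0, hC0, hm2⟩ := m2_exists
  obtain ⟨q, hq0, hq1, hdl⟩ := dl_le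
  obtain ⟨K, hK, hall⟩ := main_asy
  have hpi := Real.pi_pos
  have hq' : 0 < 1 - q := by linarith
  set C1 : ℝ := (C0 + 200) * (4 * Real.pi) + 2 / (1 - q) with hC1
  have hC1p : 0 < C1 := by positivity
  set C2 : ℝ := 4 * C1 + 16 / (1 - q) + 400000 * Real.pi with hC2
  have hC2p : 0 < C2 := by positivity
  set C3 : ℝ := (10000 * (2 * Real.pi)) ^ 3 * (3 / (2 * Real.pi)) with hC3
  have hC3p : 0 < C3 := by positivity
  refine ⟨2 * C2 + 8 * C1 + 2 * C3 + 2 * K, by positivity, fun n hn => ?_⟩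
  obtain ⟨t, w, μ, g, h, hb⟩ := eg_exists hn
  refine ⟨t, w, μ, h, fun ϑ hϑ M a => ?_⟩
  have hM := hm2 n hn t w μ h
  obtain ⟨f, g', v, D, hc, -, -, hA⟩ := hall n hn
  set C : ℝ := 2 * C2 + 8 * C1 + 2 * C3 + 2 * K with hCd
  set T := hgt n ϑ M with hT
  have hT0 : 0 ≤ T := hgt_nonneg hϑ M
  have hN3 : (3 : ℝ) ≤ 2 * n + 1 := by
    have : (1 : ℝ) ≤ n := by exact_mod_cast hn
    linarith
  set N : ℝ := 2 * n + 1 with hN
  have hN0 : 0 < N := by linarith
  have hgv := gv_norm (n := n) hϑ M a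
  have herr : err C n a T = C * (√|a| + |a| ^ 3 * T + |a| * T / N ^ 2 + a ^ 2 * T / N) := rfl
  have hs0 := Real.sqrt_nonneg |a|
  have hrest : 0 ≤ |a| ^ 3 * T + |a| * T / N ^ 2 + a ^ 2 * T / N := by positivity
  have htriv := n1_triv h hϑ M (2 * Real.pi * a) hgv
  -- large values of a
  rcases lt_or_ge (1 / C2) (√|a|) with hbig | hsmall
  · refine htriv.trans ?_
    rw [herr]
    have h1 : 1 ≤ C2 * √|a| := by
      rw [div_lt_iff₀ hC2p] at hbig
      linarith
    have h2 : 0 ≤ (8 * C1 + 2 * C3 + 2 * K) * √|a| := by positivity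
    have h3 : 0 ≤ C * (|a| ^ 3 * T + |a| * T / N ^ 2 + a ^ 2 * T / N) := by positivity
    have h4 : C * (√|a| + |a| ^ 3 * T + |a| * T / N ^ 2 + a ^ 2 * T / N)
        = 2 * (C2 * √|a|) + (8 * C1 + 2 * C3 + 2 * K) * √|a|
          + C * (|a| ^ 3 * T + |a| * T / N ^ 2 + a ^ 2 * T / N) := by rw [hCd]; ring
    rw [h4]
    linarith
  -- a = 0
  rcases eq_or_ne a 0 with ha | ha
  · have e1 : (fun σ => Bk n ϑ M (2 * Real.pi * a) (fun _ => 1) σ - gv n ϑ M a)
        = fun _ => (0 : ℂ) := by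
      funext σ
      have e2 : gv n ϑ M a = 1 := by
        unfold gv; rw [ha]; simp
      have e3 : Bk n ϑ M (2 * Real.pi * a) (fun _ => 1) σ = 1 := by
        unfold Bk
        have : (fun ω : Conf n M => phs n (2 * Real.pi * a) (run (2 * n) M ω σ).2 * (1 : ℂ))
            = fun _ => 1 := by
          funext ω
          unfold phs
          rw [ha]
          simp
        rw [this, EE_const]
      rw [e2, e3, sub_self]
    rw [e1, n1_const h, norm_zero, herr]
    positivity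
  -- small values of a
  have hap : 0 < |a| := abs_pos.2 ha
  set s := √|a| with hs
  have hsp : 0 < s := Real.sqrt_pos.2 hap
  have hss : s * s = |a| := Real.mul_self_sqrt hap.le
  have hCs : C2 * s ≤ 1 := by
    rw [le_div_iff₀ hC2p] at hsmall
    linarith
  have hs1 : s ≤ 1 := by
    have h1 : (1 : ℝ) ≤ C2 := by
      have : 0 < 4 * C1 + 16 / (1 - q) := by positivity
      have := Real.pi_gt_three
      rw [hC2]; linarith
    nlinarith
  set j : ℕ := ⌈1 / s⌉₊ with hj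
  have hj1 : 1 / s ≤ j := Nat.le_ceil _
  have hj2 : (j : ℝ) < 1 / s + 1 := Nat.ceil_lt_add_one (by positivity)
  have hj0 : 1 ≤ j := Nat.one_le_iff_ne_zero.2 (by
    intro h0
    rw [h0, Nat.cast_zero] at hj1
    have : 0 < 1 / s := by positivity
    linarith)
  have hjp : (0 : ℝ) < j := by exact_mod_cast hj0
  set α := 2 * Real.pi * a with hα
  have hαa : |α| = 2 * Real.pi * |a| := by
    rw [hα, abs_mul, abs_of_pos (by positivity : 0 < 2 * Real.pi)]
  have hαj : |α| * j ≤ 4 * Real.pi * s := by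
    have h1 : |a| * j ≤ 2 * s := by
      calc |a| * j ≤ |a| * (1 / s + 1) := mul_le_mul_of_nonneg_left hj2.le hap.le
        _ = s + s * s := by rw [← hss]; field_simp
        _ ≤ s + s * 1 := by nlinarith
        _ = 2 * s := by ring
    rw [hαa]
    nlinarith
  have hdlj : dl n (j * (2 * n + 1)) ≤ s / (1 - q) := by
    refine (hdl n _ j hn le_rfl).trans ?_
    have h1 := pow_decay hq0 hq1.le j
    have h2 : 0 ≤ q ^ j := pow_nonneg hq0 j
    have h3 : q ^ j ≤ 1 / (j * (1 - q)) := by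
      rw [le_div_iff₀ (by positivity)]
      linarith
    refine h3.trans ?_
    rw [div_le_div_iff₀ (by positivity) hq']
    have h4 : 1 ≤ s * j := by
      rw [div_le_iff₀ hsp] at hj1
      linarith
    nlinarith
  have hκ : kap C0 n j α ≤ C1 * s := by
    unfold kap
    have h1 : (C0 + 200) * (|α| * j) ≤ (C0 + 200) * (4 * Real.pi * s) :=
      mul_le_mul_of_nonneg_left hαj (by positivity)
    have h2 : C1 * s = (C0 + 200) * (4 * Real.pi * s) + 2 * (s / (1 - q)) := by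
      rw [hC1]; ring
    linarith
  have k1 : C1 * s * 4 ≤ C2 * s := by
    rw [hC2]
    have : 0 ≤ (16 / (1 - q) + 400000 * Real.pi) * s := by positivity
    linarith
  have k2 : s / (1 - q) * 16 ≤ C2 * s := by
    rw [hC2]
    have : 0 ≤ (4 * C1 + 400000 * Real.pi) * s := by positivity
    have e : s / (1 - q) * 16 = 16 / (1 - q) * s := by ring
    rw [e]
    linarith
  have k3 : 400000 * Real.pi * s ≤ C2 * s := by
    rw [hC2]
    have : 0 ≤ (4 * C1 + 16 / (1 - q)) * s := by positivity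
    linarith
  have k0 : 0 < C1 * s := by positivity
  have k4 : 0 < 16 / (1 - q) * s := by positivity
  have k5 : 0 < 400000 * Real.pi * s := by positivity
  have hc1 : 100 * (|α| * j) < 1 / 8 := by nlinarith
  have hc2 : |α| < 1 / 10000 := by
    have h1 : |α| ≤ |α| * j := le_mul_of_one_le_right (abs_nonneg _) (by exact_mod_cast hj0)
    nlinarith
  have hc3 : dl n (j * (2 * n + 1)) ≤ 1 / 16 := by linarith
  have hc4 : kap C0 n j α < 1 / 4 := by
    have : C1 * s * 4 < C2 * s := by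
      rw [hC2]
      have : 0 < (16 / (1 - q) + 400000 * Real.pi) * s := by positivity
      linarith
    linarith
  have hblk := blk_all hM h hb hn hj0 hc1 hc2 hc3 hc4 hϑ M
  -- the product of the eigenvalues
  set A : ℂ := ∑ i ∈ Finset.range M, ev α (lgs (tz n t ((ph (ϑ i) : ℂ) * I))) with hAd
  set b0 : ℂ := I * (2 * Real.pi * a / (2 * n + 1) * cosS ϑ M : ℝ) - ((3 * a ^ 2 * T : ℝ) : ℂ)
    with hb0
  have hprod : ∏ i ∈ Finset.range M, lm t n α (ϑ i) = cexp A := by
    rw [hAd, Complex.exp_sum]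
    refine Finset.prod_congr rfl fun i _ => ?_
    exact ev_tz h hb hn (hϑ i) (by rw [Complex.norm_real, Real.norm_eq_abs]; exact hc2)
  have hSs : ∑ i ∈ Finset.range M, Real.sin (ϑ i) = T * N / (2 * Real.pi) := by
    rw [hT]; unfold hgt; rw [← hN]; field_simp
  have hsin : ∀ i, 0 ≤ Real.sin (ϑ i) := fun i =>
    Real.sin_nonneg_of_nonneg_of_le_pi (hϑ i).1 (hϑ i).2
  have hAb : ‖A - b0‖ ≤ C3 * (|a| ^ 3 * T) + K * (|a| * T / N ^ 2) + K * (a ^ 2 * T / N) := by
    set b1 : ℂ := ∑ i ∈ Finset.range M, (I * (α * v (ϑ i) / N : ℝ)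
      - ((α ^ 2 * D (ϑ i) / (2 * N ^ 2) : ℝ) : ℂ)) with hb1
    have h1 : ‖A - b1‖ ≤ C3 * (|a| ^ 3 * T) := by
      rw [hAd, hb1, ← Finset.sum_sub_distrib]
      refine (norm_sum_le _ _).trans ?_
      refine (Finset.sum_le_sum fun i _ => ev_exp2 h hc hb hn (hϑ i) hc2.le).trans ?_
      rw [← Finset.mul_sum, ← Finset.sum_div, ← Finset.mul_sum, hSs, hαa, hC3]
      refine le_of_eq ?_
      rw [← hN]
      field_simp
    have h2 : ‖b1 - b0‖ ≤ K * (|a| * T / N ^ 2) + K * (a ^ 2 * T / N) := by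
      have e1 : b1 - b0 = I * ((∑ i ∈ Finset.range M, α / N * (v (ϑ i) - Real.cos (ϑ i)) : ℝ) : ℂ)
          - ((∑ i ∈ Finset.range M, Real.pi * a ^ 2 / N * (2 * Real.pi * D (ϑ i) / N
            - 6 * Real.sin (ϑ i)) : ℝ) : ℂ) := by
        have e2 : 3 * a ^ 2 * T = ∑ i ∈ Finset.range M, Real.pi * a ^ 2 / N * (6 * Real.sin (ϑ i)) := by
          rw [hT]; unfold hgt
          rw [Finset.mul_sum, Finset.mul_sum]
          refine Finset.sum_congr rfl fun i _ => ?_
          field_simp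
          ring
        have e3 : 2 * Real.pi * a / (2 * n + 1) * cosS ϑ M
            = ∑ i ∈ Finset.range M, α / N * Real.cos (ϑ i) := by
          unfold cosS
          rw [Finset.mul_sum]
        rw [hb1, hb0, e2, e3, Finset.sum_sub_distrib, ← Finset.mul_sum]
        have e4 : (∑ i ∈ Finset.range M, α / N * (v (ϑ i) - Real.cos (ϑ i)) : ℝ)
            = ∑ i ∈ Finset.range M, α * v (ϑ i) / N - ∑ i ∈ Finset.range M, α / N * Real.cos (ϑ i) := by
          rw [← Finset.sum_sub_distrib]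
          exact Finset.sum_congr rfl fun i _ => by ring
        have e5 : (∑ i ∈ Finset.range M, Real.pi * a ^ 2 / N * (2 * Real.pi * D (ϑ i) / N
            - 6 * Real.sin (ϑ i)) : ℝ)
            = ∑ i ∈ Finset.range M, α ^ 2 * D (ϑ i) / (2 * N ^ 2)
              - ∑ i ∈ Finset.range M, Real.pi * a ^ 2 / N * (6 * Real.sin (ϑ i)) := by
          rw [← Finset.sum_sub_distrib]
          refine Finset.sum_congr rfl fun i _ => ?_
          rw [hα]
          field_simp
        rw [e4, e5]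
        push_cast
        ring
      rw [e1]
      refine (norm_sub_le _ _).trans ?_
      rw [norm_mul, Complex.norm_I, one_mul, Complex.norm_real, Complex.norm_real, Real.norm_eq_abs,
        Real.norm_eq_abs]
      refine add_le_add ?_ ?_
      · refine (Finset.abs_sum_le_sum_abs _ _).trans ?_
        have h3 : ∀ i ∈ Finset.range M, |α / N * (v (ϑ i) - Real.cos (ϑ i))|
            ≤ |α| / N * (K / N ^ 2) * Real.sin (ϑ i) := by
          intro i _
          rw [abs_mul, abs_div, abs_of_pos hN0]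
          have h4 := (hA _ (hϑ i)).1
          have h5 : K * Real.sin (ϑ i) ^ 2 / (2 * n + 1) ^ 2 ≤ K / N ^ 2 * Real.sin (ϑ i) := by
            have h6 : Real.sin (ϑ i) ^ 2 ≤ Real.sin (ϑ i) := by
              nlinarith [hsin i, Real.sin_le_one (ϑ i)]
            rw [← hN]
            calc K * Real.sin (ϑ i) ^ 2 / N ^ 2 ≤ K * Real.sin (ϑ i) / N ^ 2 := by gcongr
              _ = _ := by ring
          rw [mul_assoc]
          exact mul_le_mul_of_nonneg_left (h4.trans h5) (by positivity)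
        refine (Finset.sum_le_sum h3).trans (le_of_eq ?_)
        rw [← Finset.mul_sum, hSs, hαa]
        field_simp
      · refine (Finset.abs_sum_le_sum_abs _ _).trans ?_
        have h3 : ∀ i ∈ Finset.range M, |Real.pi * a ^ 2 / N * (2 * Real.pi * D (ϑ i) / N
            - 6 * Real.sin (ϑ i))| ≤ Real.pi * a ^ 2 / N * (K / N) * Real.sin (ϑ i) := by
          intro i _
          rw [abs_mul, abs_of_nonneg (by positivity : 0 ≤ Real.pi * a ^ 2 / N)]
          have h4 := (hA _ (hϑ i)).2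
          have e7 : Real.pi * a ^ 2 / N * (K / N) * Real.sin (ϑ i)
              = Real.pi * a ^ 2 / N * (K * Real.sin (ϑ i) / N) := by ring
          rw [e7]
          exact mul_le_mul_of_nonneg_left h4 (by positivity)
        refine (Finset.sum_le_sum h3).trans ?_
        rw [← Finset.mul_sum, hSs]
        have e6 : Real.pi * a ^ 2 / N * (K / N) * (T * N / (2 * Real.pi)) = K * (a ^ 2 * T / N) / 2 := by
          field_simp
        rw [e6]
        have : 0 ≤ K * (a ^ 2 * T / N) := by positivity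
        linarith
    calc ‖A - b0‖ = ‖(A - b1) + (b1 - b0)‖ := by congr 1; ring
      _ ≤ _ := (norm_add_le _ _).trans (by linarith)
  have hfin : n1 μ (fun σ => Bk n ϑ M α (fun _ => 1) σ - gv n ϑ M a)
      ≤ 8 * (C1 * s) + 2 * ‖A - b0‖ := by
    rcases le_or_gt ‖A - b0‖ 1 with h1 | h1
    · have h2 : ‖cexp A - gv n ϑ M a‖ ≤ 2 * ‖A - b0‖ := by
        have e : cexp A - gv n ϑ M a = gv n ϑ M a * (cexp (A - b0) - 1) := by
          have : gv n ϑ M a = cexp b0 := rfl
          rw [this, mul_sub, ← Complex.exp_add, mul_one]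
          congr 2
          ring
        rw [e, norm_mul]
        have h3 := Complex.norm_exp_sub_one_le h1
        calc ‖gv n ϑ M a‖ * ‖cexp (A - b0) - 1‖ ≤ 1 * (2 * ‖A - b0‖) :=
              mul_le_mul hgv h3 (norm_nonneg _) (by norm_num)
          _ = _ := one_mul _
      have h3 := n1_add h (dfb n t ϑ M α) (fun _ => cexp A - gv n ϑ M a)
      have e : (fun σ => dfb n t ϑ M α σ + (fun _ => cexp A - gv n ϑ M a) σ)
          = fun σ => Bk n ϑ M α (fun _ => 1) σ - gv n ϑ M a := by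
        funext σ
        show dfb n t ϑ M α σ + (cexp A - gv n ϑ M a) = _
        unfold dfb
        rw [hprod]
        ring
      rw [e, n1_const h] at h3
      linarith
    · have : 0 < C1 * s := by positivity
      linarith
  refine hfin.trans ?_
  rw [herr]
  have p1 : 0 ≤ |a| ^ 3 * T := by positivity
  have p2 : 0 ≤ |a| * T / N ^ 2 := by positivity
  have p3 : 0 ≤ a ^ 2 * T / N := by positivity
  have u1 : 8 * C1 * s ≤ C * s := by
    apply mul_le_mul_of_nonneg_right _ hsp.le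
    rw [hCd]
    have : 0 ≤ 2 * C2 + 2 * C3 + 2 * K := by positivity
    linarith
  have u2 : 2 * C3 * (|a| ^ 3 * T) ≤ C * (|a| ^ 3 * T) := by
    apply mul_le_mul_of_nonneg_right _ p1
    rw [hCd]
    have : 0 ≤ 2 * C2 + 8 * C1 + 2 * K := by positivity
    linarith
  have u3 : 2 * K * (|a| * T / N ^ 2) ≤ C * (|a| * T / N ^ 2) := by
    apply mul_le_mul_of_nonneg_right _ p2
    rw [hCd]
    have : 0 ≤ 2 * C2 + 8 * C1 + 2 * C3 := by positivity
    linarith
  have u4 : 2 * K * (a ^ 2 * T / N) ≤ C * (a ^ 2 * T / N) := by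
    apply mul_le_mul_of_nonneg_right _ p3
    rw [hCd]
    have : 0 ≤ 2 * C2 + 8 * C1 + 2 * C3 := by positivity
    linarith
  have u5 : C * (s + |a| ^ 3 * T + |a| * T / N ^ 2 + a ^ 2 * T / N)
      = C * s + C * (|a| ^ 3 * T) + C * (|a| * T / N ^ 2) + C * (a ^ 2 * T / N) := by ring
  rw [u5]
  linarith

end H729I
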