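import Pool.Agent.Run7.h729.Iso.Dil10
import Pool.Agent.Run7.h729.Iso.Gau

/-!
# The logarithm of the eigenvalue of the homogeneous row
-/

set_option autoImplicit false

namespace H729I
open H906K Pool.Agent.H974R3 Polynomial Complex Filter Topology

theorem ph_half : ph (Real.pi / 2) = 0 := by unfold ph; ring

theorem lc_small : ∃ r K : ℝ, 0 < r ∧ r ≤ 1 / 10000 ∧ 0 < K ∧ ∀ n : ℕ, 1 ≤ n →
    ∀ (t : (PowerSeries ℂ)[X]) (w : Pat (2 * n + 1) → PowerSeries ℂ) (μ : Pat (2 * n + 1) → ℝ),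
      Eg n t w μ → ∃ e : ℕ → ℝ, (∀ k, 0 ≤ e k) ∧ (∀ L, ps e L ≤ K / (2 * n + 1) ^ 2) ∧
        ∀ k : ℕ, 3 ≤ k → ‖lc n t (Real.pi / 2) k‖ * r ^ k ≤ e k := by
  obtain ⟨r, K, hr, hr', hK, h1⟩ := lgsT_bound
  refine ⟨r, K, hr, hr', hK, fun n hn t w μ h => ?_⟩
  obtain ⟨Q, s1, s2, V1, V2, d⟩ := dat_exists h.hT
  obtain ⟨e, e0, es, he⟩ := h1 (fs_exists hn d)
  refine ⟨e, e0, es, fun k hk => ?_⟩
  have h2 := he k hk
  unfold lc
  rw [ph_half]
  simpa using h2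

/-- **the logarithm of the eigenvalue is quadratic up to a small error** -/
theorem log_quad : ∃ r K : ℝ, 0 < r ∧ r < 1 / 10000 ∧ 0 < K ∧ ∀ n : ℕ, 1 ≤ n →
    ∀ (t : (PowerSeries ℂ)[X]) (w : Pat (2 * n + 1) → PowerSeries ℂ) (μ : Pat (2 * n + 1) → ℝ)
      (g : ℕ → ℝ), Eg n t w μ → Lb n t g → ∀ α : ℝ, |α| ≤ r →
        ‖ev α (lgs (tz n t ((ph (Real.pi / 2) : ℂ) * I)))
          + ((3 * α ^ 2 / (2 * Real.pi * (2 * n + 1)) : ℝ) : ℂ)‖
          ≤ K * (|α| / (2 * n + 1) ^ 3 + α ^ 2 / (2 * n + 1) ^ 2) := by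
  obtain ⟨r, K, hr, hr', hK, h1⟩ := lc_small
  obtain ⟨K2, hK2, h2⟩ := main_asy
  refine ⟨r / 2, K2 + K2 + (1 / r) ^ 2 * K, by positivity, by linarith, by positivity, ?_⟩
  intro n hn t w μ g h hb α hα
  obtain ⟨e, e0, es, he⟩ := h1 n hn t w μ h
  obtain ⟨f, g', v, D, hc, -, -, hA⟩ := h2 n hn
  obtain ⟨a1, a2⟩ := hA _ half_mem
  have hN0 : (0 : ℝ) < 2 * n + 1 := by positivity
  have hpi := Real.pi_pos
  set N : ℝ := 2 * n + 1 with hN
  rw [Real.cos_pi_div_two, sub_zero, Real.sin_pi_div_two, one_pow, mul_one] at a1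
  rw [Real.sin_pi_div_two, mul_one, mul_one] at a2
  have hs := su_lgs hb hn half_mem
  have hrr : ‖(α : ℂ)‖ = |α| := by rw [Complex.norm_real, Real.norm_eq_abs]
  have hαr : |α| ≤ r := by linarith
  have hsum : Summable (fun k => PowerSeries.coeff k (lgs (tz n t ((ph (Real.pi / 2) : ℂ) * I)))
      * (α : ℂ) ^ k) :=
    (Su.nz (Su.mono (norm_nonneg _) (by rw [hrr]; linarith) hs)).of_norm
  obtain ⟨c1, c2⟩ := lc_vD h hc half_mem
  have hle0 : ∀ k, 3 ≤ k → ‖PowerSeries.coeff k (lgs (tz n t ((ph (Real.pi / 2) : ℂ) * I)))‖ * r ^ k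
      ≤ e k := he
  unfold lc at c1 c2
  have hsplit : ev α (lgs (tz n t ((ph (Real.pi / 2) : ℂ) * I)))
      = (I * (α * v (Real.pi / 2) / N : ℝ) - ((α ^ 2 * D (Real.pi / 2) / (2 * N ^ 2) : ℝ) : ℂ))
        + ∑' k, PowerSeries.coeff (k + 3) (lgs (tz n t ((ph (Real.pi / 2) : ℂ) * I)))
          * (α : ℂ) ^ (k + 3) := by
    unfold ev
    rw [← hsum.sum_add_tsum_nat_add 3]
    congr 1
    rw [Finset.sum_range_succ, Finset.sum_range_succ, Finset.sum_range_one, lgs_zero, c1, c2, hN]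
    push_cast
    ring
  have hes : Summable e := by
    refine summable_of_sum_range_le (c := K / (2 * n + 1) ^ 2) e0 fun L => ?_
    rcases L with _ | L
    · rw [Finset.range_zero, Finset.sum_empty]; positivity
    · exact es L
  have he3 : Summable (fun k => e (k + 3)) := (summable_nat_add_iff 3).2 hes
  have he1 : ∑' k, e (k + 3) ≤ K / N ^ 2 := by
    refine he3.tsum_le_of_sum_range_le fun L => ?_
    have h1 : ∑ i ∈ Finset.range L, e (i + 3) ≤ ps e (L + 2) := by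
      unfold ps
      rw [show L + 2 + 1 = L + 1 + 1 + 1 from rfl, Finset.sum_range_succ', Finset.sum_range_succ',
        Finset.sum_range_succ']
      have a0 := e0 0
      have a1 := e0 (0 + 1)
      have a2 := e0 (0 + 1 + 1)
      have e : ∀ i, e (i + 1 + 1 + 1) = e (i + 3) := fun i => rfl
      simp only [e]
      linarith
    exact h1.trans (es _)
  set x := |α| / r with hx
  have hx0 : 0 ≤ x := by positivity
  have hx1 : x ≤ 1 := by rw [hx, div_le_one hr]; exact hαr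
  have hle : ∀ k, ‖PowerSeries.coeff (k + 3) (lgs (tz n t ((ph (Real.pi / 2) : ℂ) * I)))
      * (α : ℂ) ^ (k + 3)‖ ≤ x ^ 2 * e (k + 3) := by
    intro k
    rw [norm_mul, norm_pow, hrr]
    have h3 : |α| ^ (k + 3) = x ^ (k + 3) * r ^ (k + 3) := by
      rw [hx, ← mul_pow]
      congr 1
      field_simp
    have h4 : x ^ (k + 3) ≤ x ^ 2 := pow_le_pow_of_le_one hx0 hx1 (by omega)
    rw [h3]
    calc _ = x ^ (k + 3) * (‖PowerSeries.coeff (k + 3) (lgs (tz n t ((ph (Real.pi / 2) : ℂ) * I)))‖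
          * r ^ (k + 3)) := by ring
      _ ≤ x ^ 2 * e (k + 3) := mul_le_mul h4 (hle0 (k + 3) (by omega)) (by positivity) (by positivity)
  have htail : ‖∑' k, PowerSeries.coeff (k + 3) (lgs (tz n t ((ph (Real.pi / 2) : ℂ) * I)))
      * (α : ℂ) ^ (k + 3)‖ ≤ (1 / r) ^ 2 * K * (α ^ 2 / N ^ 2) := by
    refine (tsum_of_norm_bounded (he3.mul_left _).hasSum hle).trans ?_
    rw [tsum_mul_left]
    calc x ^ 2 * ∑' k, e (k + 3) ≤ x ^ 2 * (K / N ^ 2) := mul_le_mul_of_nonneg_left he1 (by positivity)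
      _ = _ := by
        rw [hx, div_pow, sq_abs]
        ring
  rw [hsplit]
  set S := ∑' k, PowerSeries.coeff (k + 3) (lgs (tz n t ((ph (Real.pi / 2) : ℂ) * I)))
      * (α : ℂ) ^ (k + 3) with hS
  have e1 : (I * (α * v (Real.pi / 2) / N : ℝ) - ((α ^ 2 * D (Real.pi / 2) / (2 * N ^ 2) : ℝ) : ℂ))
      + S + ((3 * α ^ 2 / (2 * Real.pi * N) : ℝ) : ℂ)
      = I * ((α * v (Real.pi / 2) / N : ℝ) : ℂ)
        - ((α ^ 2 / (4 * Real.pi * N) * (2 * Real.pi * D (Real.pi / 2) / N - 6) : ℝ) : ℂ) + S := by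
    have e2 : α ^ 2 / (4 * Real.pi * N) * (2 * Real.pi * D (Real.pi / 2) / N - 6)
        = α ^ 2 * D (Real.pi / 2) / (2 * N ^ 2) - 3 * α ^ 2 / (2 * Real.pi * N) := by
      field_simp
      ring
    rw [e2]
    push_cast
    ring
  rw [e1]
  have n1 : ‖I * ((α * v (Real.pi / 2) / N : ℝ) : ℂ)‖ ≤ K2 * (|α| / N ^ 3) := by
    rw [norm_mul, Complex.norm_I, one_mul, Complex.norm_real, Real.norm_eq_abs, abs_div, abs_mul,
      abs_of_pos hN0]
    calc |α| * |v (Real.pi / 2)| / N ≤ |α| * (K2 / N ^ 2) / N := by gcongr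
      _ = _ := by field_simp
  have n2 : ‖((α ^ 2 / (4 * Real.pi * N) * (2 * Real.pi * D (Real.pi / 2) / N - 6) : ℝ) : ℂ)‖
      ≤ K2 * (α ^ 2 / N ^ 2) := by
    rw [Complex.norm_real, Real.norm_eq_abs, abs_mul, abs_of_nonneg (by positivity)]
    have h5 : α ^ 2 / (4 * Real.pi * N) ≤ α ^ 2 / N := by
      apply div_le_div_of_nonneg_left (by positivity) hN0
      nlinarith [Real.pi_gt_three]
    calc _ ≤ α ^ 2 / N * (K2 / N) := mul_le_mul h5 a2 (abs_nonneg _) (by positivity)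
      _ = _ := by ring
  have h6 := norm_add_le (I * ((α * v (Real.pi / 2) / N : ℝ) : ℂ)
        - ((α ^ 2 / (4 * Real.pi * N) * (2 * Real.pi * D (Real.pi / 2) / N - 6) : ℝ) : ℂ)) S
  have h7 := norm_sub_le (I * ((α * v (Real.pi / 2) / N : ℝ) : ℂ))
    ((α ^ 2 / (4 * Real.pi * N) * (2 * Real.pi * D (Real.pi / 2) / N - 6) : ℝ) : ℂ)
  have p1 : 0 ≤ |α| / N ^ 3 := by positivity
  have p2 : 0 ≤ α ^ 2 / N ^ 2 := by positivity
  have p3 : 0 ≤ (1 / r) ^ 2 * K := by positivity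
  nlinarith [mul_nonneg hK2.le p1, mul_nonneg hK2.le p2, mul_nonneg p3 p1]

end H729I
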