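import Pool.Agent.Run7.h729.Iso.Dil1

/-!
# Majorants
-/

set_option autoImplicit false

namespace H729I
open H906K MeasureTheory Filter Topology

/-- weighted bounds of all the coefficients -/
def MB (r C : ℝ) (w : ℝ → ℝ) (F : ℝ → PowerSeries ℂ) : Prop :=
  ∃ f : ℕ → ℝ, (∀ k, 0 ≤ f k) ∧ (∀ K, ps f K ≤ C) ∧
    ∀ k u, ‖PowerSeries.coeff k (F u)‖ * r ^ k ≤ f k * w u

variable {r C D : ℝ} {w : ℝ → ℝ} {F G : ℝ → PowerSeries ℂ}

theorem MB.nonneg (h : MB r C w F) : 0 ≤ C := by
  obtain ⟨f, f0, fs, -⟩ := h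
  exact (ps_nonneg f0 0).trans (fs 0)

theorem MB.mono (h : MB r C w F) (hC : C ≤ D) : MB r D w F := by
  obtain ⟨f, f0, fs, hf⟩ := h
  exact ⟨f, f0, fun K => (fs K).trans hC, hf⟩

theorem MB.monow {w' : ℝ → ℝ} (h : MB r C w F) (hw : ∀ u, w u ≤ w' u) : MB r C w' F := by
  obtain ⟨f, f0, fs, hf⟩ := h
  exact ⟨f, f0, fs, fun k u => (hf k u).trans (mul_le_mul_of_nonneg_left (hw u) (f0 k))⟩

theorem MB.congr (h : MB r C w F) (e : ∀ u, G u = F u) : MB r C w G := by
  have : G = F := funext e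
  rw [this]; exact h

theorem MB.add (hr : 0 ≤ r) (hF : MB r C w F) (hG : MB r D w G) :
    MB r (C + D) w (fun u => F u + G u) := by
  obtain ⟨f, f0, fs, hf⟩ := hF
  obtain ⟨g, g0, gs, hg⟩ := hG
  refine ⟨fun k => f k + g k, fun k => add_nonneg (f0 k) (g0 k), fun K => ?_, fun k u => ?_⟩
  · rw [ps_add]; exact add_le_add (fs K) (gs K)
  · rw [map_add]
    have := mul_le_mul_of_nonneg_right (norm_add_le (PowerSeries.coeff k (F u))
      (PowerSeries.coeff k (G u))) (pow_nonneg hr k)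
    have h1 := hf k u
    have h2 := hg k u
    nlinarith

theorem MB.neg (hF : MB r C w F) : MB r C w (fun u => -F u) := by
  obtain ⟨f, f0, fs, hf⟩ := hF
  exact ⟨f, f0, fs, fun k u => by rw [map_neg, norm_neg]; exact hf k u⟩

theorem MB.mul (hr : 0 ≤ r) (hw : ∀ u, 0 ≤ w u) (hF : MB r C w F) (hG : MB r D (fun _ => 1) G) :
    MB r (C * D) w (fun u => F u * G u) := by
  have hC := hF.nonneg
  obtain ⟨f, f0, fs, hf⟩ := hF
  obtain ⟨g, g0, gs, hg⟩ := hG
  refine ⟨cv f g, cv_nonneg f0 g0, fun K => ?_, fun k u => ?_⟩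
  · exact (cv_le' f0 g0 K).trans (mul_le_mul (fs K) (gs K) (ps_nonneg g0 K) hC)
  · rw [PowerSeries.coeff_mul, Finset.Nat.sum_antidiagonal_eq_sum_range_succ (fun i j =>
      PowerSeries.coeff i (F u) * PowerSeries.coeff j (G u))]
    unfold cv
    rw [Finset.sum_mul]
    refine (mul_le_mul_of_nonneg_right (norm_sum_le _ _) (pow_nonneg hr k)).trans ?_
    rw [Finset.sum_mul]
    refine Finset.sum_le_sum fun j hj => ?_
    have hj' := Finset.mem_range.1 hj
    have h1 := hf j u
    have h2 := hg (k - j) u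
    rw [mul_one] at h2
    have e : r ^ k = r ^ j * r ^ (k - j) := by rw [← pow_add]; congr 1; omega
    rw [norm_mul, e]
    calc ‖PowerSeries.coeff j (F u)‖ * ‖PowerSeries.coeff (k - j) (G u)‖ * (r ^ j * r ^ (k - j))
        = (‖PowerSeries.coeff j (F u)‖ * r ^ j) * (‖PowerSeries.coeff (k - j) (G u)‖ * r ^ (k - j)) := by
          ring
      _ ≤ (f j * w u) * g (k - j) := mul_le_mul h1 h2 (by positivity) (mul_nonneg (f0 j) (hw u))
      _ = _ := by ring

theorem ps_single (c : ℝ) (K : ℕ) : ps (fun k => if k = 0 then c else 0) K = c := by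
  unfold ps
  rw [Finset.sum_ite_eq' (Finset.range (K + 1)) 0, if_pos (Finset.mem_range.2 (Nat.succ_pos K))]

theorem MB.cst {f : ℝ → ℂ} {c : ℝ} (hc : 0 ≤ c) (hw : ∀ u, 0 ≤ w u) (h : ∀ u, ‖f u‖ ≤ c * w u) :
    MB r c w (fun u => PowerSeries.C (f u)) := by
  refine ⟨fun k => if k = 0 then c else 0, fun k => by beta_reduce; split_ifs <;> simp [hc], fun K =>
    (ps_single c K).le, fun k u => ?_⟩
  rw [PowerSeries.coeff_C]
  split_ifs with hk
  · rw [hk, pow_zero, mul_one]; simpa using h u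
  · simp [hk]

theorem MB.one : MB r 1 (fun _ => 1) (fun _ => 1) := by
  have := MB.cst (r := r) (w := fun _ => 1) (f := fun _ => 1) (c := 1) zero_le_one (fun _ => zero_le_one)
    (fun _ => by simp)
  exact this.congr fun _ => by simp

theorem MB.X (hr : 0 ≤ r) (hF : MB r C w F) : MB r (r * C) w (fun u => PowerSeries.X * F u) := by
  obtain ⟨f, f0, fs, hf⟩ := hF
  refine ⟨fun k => if k = 0 then 0 else r * f (k - 1), fun k => ?_, fun K => ?_, fun k u => ?_⟩
  · beta_reduce
    split_ifs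
    · exact le_rfl
    · exact mul_nonneg hr (f0 _)
  · unfold ps
    rw [Finset.sum_range_succ']
    simp only [Nat.succ_ne_zero, if_false, if_true, add_zero, Nat.add_sub_cancel]
    rw [← Finset.mul_sum]
    apply mul_le_mul_of_nonneg_left _ hr
    rcases K with _ | K
    · rw [Finset.range_zero, Finset.sum_empty]; exact (ps_nonneg f0 0).trans (fs 0)
    · exact fs K
  · beta_reduce
    rcases k with _ | k
    · simp
    · rw [if_neg (Nat.succ_ne_zero k), PowerSeries.coeff_succ_X_mul, Nat.add_sub_cancel, pow_succ]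
      have := mul_le_mul_of_nonneg_left (hf k u) hr
      nlinarith

/-- division by `X` -/
theorem MB.divX (hr : 0 < r) (hF : MB r C w F) (h : ∀ u, F u = PowerSeries.X * G u) :
    MB r (C / r) w G := by
  obtain ⟨f, f0, fs, hf⟩ := hF
  refine ⟨fun k => f (k + 1) / r, fun k => div_nonneg (f0 _) hr.le, fun K => ?_, fun k u => ?_⟩
  · unfold ps
    rw [← Finset.sum_div]
    apply div_le_div_of_nonneg_right _ hr.le
    refine le_trans ?_ (fs (K + 1))
    unfold ps
    rw [Finset.sum_range_succ' f]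
    have := f0 0
    linarith
  · have h1 := hf (k + 1) u
    rw [h u, PowerSeries.coeff_succ_X_mul, pow_succ] at h1
    rw [div_mul_eq_mul_div, le_div_iff₀ hr]
    linarith

theorem gm_ps {y : ℕ → ℝ} (hy : ∀ k, 0 ≤ y k) (h0 : y 0 = 0) {c : ℝ} (hc : c < 1)
    (hs : ∀ K, ps y K ≤ c) (K : ℕ) : ps (gm y) K ≤ c / (1 - c) := by
  have h1 := ps_mono (a := gm y) (b := fun k => y k + cv (gm y) y k) K (fun k _ => gm_le h0 k)
  rw [ps_add] at h1
  have h2 := cv_le' (gm_nonneg hy) hy K
  have h3 := ps_nonneg (gm_nonneg hy) K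
  have h4 := mul_le_mul_of_nonneg_left (hs K) h3
  have h5 := hs K
  rw [le_div_iff₀ (by linarith)]
  nlinarith

theorem gm_inv {y : ℕ → ℝ} (hy : ∀ k, 0 ≤ y k) (h0 : y 0 = 0) {r : ℝ} (hr : 0 ≤ r)
    {A : PowerSeries ℂ} (hA0 : PowerSeries.coeff 0 A = 1)
    (hA : ∀ k, 1 ≤ k → ‖PowerSeries.coeff k A‖ * r ^ k ≤ y k) (k : ℕ) (hk : 1 ≤ k) :
    ‖PowerSeries.coeff k A⁻¹‖ * r ^ k ≤ gm y k := by
  have hi : A * A⁻¹ = 1 := PowerSeries.mul_inv_cancel _ (cc1 hA0)
  have hi0 : PowerSeries.coeff 0 (A⁻¹) = 1 := by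
    have := congrArg (PowerSeries.coeff 0) hi
    rw [e4_mul0, hA0, one_mul] at this
    simpa using this
  induction k using Nat.strong_induction_on with
  | _ k ih =>
    have h1 := congrArg (PowerSeries.coeff k) hi
    rw [mulsplit, hA0, one_mul, PowerSeries.coeff_one, if_neg (by omega)] at h1
    have h2 : PowerSeries.coeff k A⁻¹ = -∑ j ∈ Finset.range k, PowerSeries.coeff (j + 1) A
        * PowerSeries.coeff (k - (j + 1)) A⁻¹ := by linear_combination h1
    rw [h2, norm_neg]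
    refine (mul_le_mul_of_nonneg_right (norm_sum_le _ _) (pow_nonneg hr k)).trans ?_
    rw [Finset.sum_mul]
    obtain ⟨m, rfl⟩ : ∃ m, k = m + 1 := ⟨k - 1, by omega⟩
    rw [Finset.sum_range_succ, Nat.sub_self, hi0, gm_eq, Finset.sum_range_succ', gm_zero h0, zero_mul,
      add_zero, add_comm (y (m + 1))]
    refine add_le_add ?_ (by rw [mul_one]; exact hA (m + 1) (by omega))
    rw [← Finset.sum_range_reflect (fun x => gm y (x + 1) * y (m + 1 - (x + 1)))]
    refine Finset.sum_le_sum fun j hj => ?_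
    have hj' := Finset.mem_range.1 hj
    have e1 : m - 1 - j + 1 = m - j := by omega
    have e2 : m + 1 - (j + 1) = m - j := by omega
    have e3 : m + 1 - (m - j) = j + 1 := by omega
    rw [e1, e2, e3]
    have i1 := hA (j + 1) (by omega)
    have i2 := ih (m - j) (by omega) (by omega)
    have e : r ^ (m + 1) = r ^ (j + 1) * r ^ (m - j) := by rw [← pow_add]; congr 1; omega
    rw [norm_mul, e]
    calc ‖PowerSeries.coeff (j + 1) A‖ * ‖PowerSeries.coeff (m - j) A⁻¹‖ * (r ^ (j + 1) * r ^ (m - j))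
        = (‖PowerSeries.coeff (m - j) A⁻¹‖ * r ^ (m - j)) * (‖PowerSeries.coeff (j + 1) A‖
          * r ^ (j + 1)) := by ring
      _ ≤ gm y (m - j) * y (j + 1) := mul_le_mul i2 i1 (by positivity) (gm_nonneg hy _)

/-- the inverse -/
theorem MB.inv (hr : 0 ≤ r) (h0 : ∀ u, PowerSeries.coeff 0 (F u) = 1) (hC : C < 1)
    (hF : MB r C (fun _ => 1) (fun u => F u - 1)) : MB r (1 / (1 - C)) (fun _ => 1) (fun u => (F u)⁻¹) := by
  obtain ⟨f, f0, fs, hf⟩ := hF
  set y : ℕ → ℝ := fun k => if k = 0 then 0 else f k with hy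
  have hy0 : ∀ k, 0 ≤ y k := fun k => by
    rw [hy]; beta_reduce; split_ifs
    · exact le_rfl
    · exact f0 k
  have hys : ∀ K, ps y K ≤ C := fun K => (ps_mono K fun k _ => by
    rw [hy]; beta_reduce; split_ifs
    · exact f0 k
    · exact le_rfl).trans (fs K)
  have hg0 := gm_nonneg hy0
  refine ⟨fun k => (if k = 0 then 1 else 0) + gm y k, fun k => ?_, fun K => ?_, fun k u => ?_⟩
  · beta_reduce
    have := hg0 k
    split_ifs <;> linarith
  · rw [ps_add, ps_single]
    have := gm_ps hy0 (if_pos rfl) hC hys K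
    have h1 : 0 < 1 - C := by linarith
    have e : 1 / (1 - C) = 1 + C / (1 - C) := by field_simp; ring
    rw [e]
    linarith
  · beta_reduce
    rw [mul_one]
    rcases Nat.eq_zero_or_pos k with rfl | hk
    · have hi : F u * (F u)⁻¹ = 1 := PowerSeries.mul_inv_cancel _ (cc1 (h0 u))
      have hi0 : PowerSeries.coeff 0 ((F u)⁻¹) = 1 := by
        have := congrArg (PowerSeries.coeff 0) hi
        rw [e4_mul0, h0, one_mul] at this
        simpa using this
      rw [hi0, if_pos rfl, norm_one, pow_zero, mul_one]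
      have := hg0 0
      linarith
    · rw [if_neg (by omega), zero_add]
      refine gm_inv hy0 (if_pos rfl) hr (h0 u) (fun j hj => ?_) k hk
      have := hf j u
      rw [map_sub, PowerSeries.coeff_one, if_neg (by omega), sub_zero, mul_one] at this
      rw [hy]; beta_reduce
      rw [if_neg (by omega)]
      exact this

/-- the logarithm -/
theorem MB.lgs (hr : 0 ≤ r) (hw : ∀ u, 0 ≤ w u) (hw1 : ∀ u, w u ≤ 1)
    (h0 : ∀ u, PowerSeries.coeff 0 (F u) = 1) (hC : C < 1)
    (hF : MB r C w (fun u => F u - 1)) : MB r (C / (1 - C)) w (fun u => H729I.lgs (F u)) := by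
  obtain ⟨f, f0, fs, hf⟩ := hF
  set y : ℕ → ℝ := fun k => if k = 0 then 0 else f k with hy
  have hy0 : ∀ k, 0 ≤ y k := fun k => by
    rw [hy]; beta_reduce; split_ifs
    · exact le_rfl
    · exact f0 k
  have hys : ∀ K, ps y K ≤ C := fun K => (ps_mono K fun k _ => by
    rw [hy]; beta_reduce; split_ifs
    · exact f0 k
    · exact le_rfl).trans (fs K)
  refine ⟨gm y, gm_nonneg hy0, gm_ps hy0 (if_pos rfl) hC hys, fun k u => ?_⟩
  refine gm_bound hy0 (if_pos rfl) hr (hw u) (hw1 u) (h0 u) (fun j hj => ?_) k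
  have := hf j u
  rw [map_sub, PowerSeries.coeff_one, if_neg (by omega), sub_zero] at this
  rw [hy]; beta_reduce
  rw [if_neg (by omega)]
  exact this

/-- from the sup norms -/
theorem MB.of_wq (h0 : ∀ u, PowerSeries.coeff 0 (F u) = 0)
    (hb : ∀ k, Bd (fun u => PowerSeries.coeff k (F u))) (hr : 0 ≤ r)
    (hs : ∀ K, ps (wq r F) K ≤ C) : MB r C (fun _ => 1) F := by
  refine ⟨wq r F, wq_nonneg hr F, hs, fun k u => ?_⟩
  rw [mul_one]
  rcases Nat.eq_zero_or_pos k with rfl | hk
  · rw [h0, norm_zero, zero_mul]; exact wq_nonneg hr F 0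
  · unfold wq
    rw [if_neg (by omega)]
    exact mul_le_mul_of_nonneg_right (le_sn (hb k) u) (by positivity)

/-- the convolution of the derivatives -/
theorem MB.kv {G' : ℝ → PowerSeries ℂ} {L : ℝ → PowerSeries ℂ} (hG : Ncs G G')
    (h : MB r C (fun _ => 1) G) (hr : 0 ≤ r)
    (hL : ∀ k u, PowerSeries.coeff k (L u) = H729I.kv (fun v => PowerSeries.coeff k (G' v)) u) :
    MB r (2 * C) (fun _ => 1) L := by
  obtain ⟨f, f0, fs, hf⟩ := h
  refine ⟨fun k => 2 * f k, fun k => mul_nonneg (by norm_num) (f0 k), fun K => ?_, fun k u => ?_⟩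
  · rw [ps_mul]; linarith [fs K]
  · rw [hL, mul_one]
    rcases eq_or_lt_of_le hr with hr0 | hr0
    · rcases Nat.eq_zero_or_pos k with rfl | hk
      · have := (hG 0).kv.2 (f 0) (fun v => by
          have := hf 0 v
          rwa [pow_zero, mul_one, mul_one] at this) u
        rw [pow_zero, mul_one]; exact this
      · rw [← hr0, zero_pow (by omega), mul_zero]
        exact mul_nonneg (by norm_num) (f0 k)
    · have hrk : 0 < r ^ k := by positivity
      have := (hG k).kv.2 (f k / r ^ k) (fun v => by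
        rw [le_div_iff₀ hrk]
        have := hf k v
        rwa [mul_one] at this) u
      calc _ ≤ 2 * (f k / r ^ k) * r ^ k := mul_le_mul_of_nonneg_right this hrk.le
        _ = _ := by field_simp

end H729I
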