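import Pool.Agent.Run7.h729.Iso.Dil1

/-!
# The exchange functional
-/

set_option autoImplicit false

namespace H729I
open H906K MeasureTheory Set Filter Topology

theorem x3_Iic : IntegrableOn (fun y : ℝ => Real.exp (-(3 * |y| / 2))) (Iic 0) ∧
    ∫ y in Iic (0 : ℝ), Real.exp (-(3 * |y| / 2)) = 2 / 3 := by
  have e : EqOn (fun y : ℝ => Real.exp (3 / 2 * y)) (fun y : ℝ => Real.exp (-(3 * |y| / 2)))
      (Iic 0) := by
    intro y hy
    simp only
    rw [abs_of_nonpos hy]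
    ring_nf
  refine ⟨(integrableOn_exp_mul_Iic (by norm_num : (0 : ℝ) < 3 / 2) 0).congr_fun e
    measurableSet_Iic, ?_⟩
  rw [← setIntegral_congr_fun measurableSet_Iic e, integral_exp_mul_Iic (by norm_num)]
  norm_num

theorem x3_Ioi : IntegrableOn (fun y : ℝ => Real.exp (-(3 * |y| / 2))) (Ioi 0) ∧
    ∫ y in Ioi (0 : ℝ), Real.exp (-(3 * |y| / 2)) = 2 / 3 := by
  have e : EqOn (fun y : ℝ => Real.exp (-(3 / 2) * y)) (fun y : ℝ => Real.exp (-(3 * |y| / 2)))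
      (Ioi 0) := by
    intro y hy
    simp only
    rw [abs_of_pos hy]
    ring_nf
  refine ⟨(integrableOn_exp_mul_Ioi (by norm_num : (-(3 / 2) : ℝ) < 0) 0).congr_fun e
    measurableSet_Ioi, ?_⟩
  rw [← setIntegral_congr_fun measurableSet_Ioi e, integral_exp_mul_Ioi (by norm_num)]
  norm_num

/-- the exchange functional -/
noncomputable def Ex (φ ψ : ℝ → ℂ) : ℂ := ∫ l in Ioi (0 : ℝ), (φ l * kv ψ l - kv φ l * ψ l)

/-- the integrand -/
noncomputable def xH (φ ψ : ℝ → ℂ) (l u : ℝ) : ℂ := (kk (l - u) : ℂ) * (φ l * ψ u)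

variable {φ ψ : ℝ → ℂ} {K : ℝ}

theorem xH_int (hφ : Continuous φ) (hK : ∀ l, ‖φ l‖ ≤ K) (hψi : Integrable ψ) :
    Integrable (Function.uncurry (xH φ ψ)) ((volume : Measure ℝ).prod volume) := by
  have hk : Integrable (fun l : ℝ => (kk l : ℂ)) := kk_integrable.ofReal
  have e1 : Integrable (fun p : ℝ × ℝ => ψ p.2 * (kk (p.1 - p.2) : ℂ))
      ((volume : Measure ℝ).prod volume) :=
    Integrable.convolution_integrand (ContinuousLinearMap.mul ℝ ℂ) hψi hk
  have e3 : Integrable (fun p : ℝ × ℝ => φ p.1 * (ψ p.2 * (kk (p.1 - p.2) : ℂ)))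
      ((volume : Measure ℝ).prod volume) :=
    e1.bdd_mul (c := K) (hφ.comp continuous_fst).aestronglyMeasurable
      (ae_of_all _ fun p => hK p.1)
  refine e3.congr (ae_of_all _ fun p => ?_)
  simp only [xH, Function.uncurry]
  ring

theorem xrow (hψi : Integrable ψ) (l : ℝ) :
    Integrable (fun u => xH φ ψ l u) ∧ φ l * kv ψ l = ∫ u, xH φ ψ l u := by
  have i1 := (kv_int' hψi l).const_mul (φ l)
  have e : (fun u => xH φ ψ l u) = fun u => φ l * ((kk (l - u) : ℂ) * ψ u) := by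
    funext u
    unfold xH
    ring
  rw [e]
  refine ⟨i1, ?_⟩
  rw [integral_const_mul]
  rfl

theorem xcol (hφ : Continuous φ) (hK : ∀ l, ‖φ l‖ ≤ K) (l : ℝ) :
    Integrable (fun u => xH φ ψ u l) ∧ kv φ l * ψ l = ∫ u, xH φ ψ u l := by
  have i1 := (kv_int hφ hK l).mul_const (ψ l)
  have e : (fun u => xH φ ψ u l) = fun u => ((kk (l - u) : ℂ) * φ u) * ψ l := by
    funext u
    unfold xH
    rw [← kk_even (u - l), neg_sub]
    ring
  rw [e]
  refine ⟨i1, ?_⟩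
  rw [integral_mul_const]
  rfl

theorem ExJ_eq (hφ : Continuous φ) (hK : ∀ l, ‖φ l‖ ≤ K) (hψi : Integrable ψ) :
    Ex φ ψ = (∫ l in Ioi (0 : ℝ), ∫ u in Iic (0 : ℝ), xH φ ψ l u)
      - ∫ l in Iic (0 : ℝ), ∫ u in Ioi (0 : ℝ), xH φ ψ l u := by
  have hH := xH_int hφ hK hψi
  have hr : ∀ S T : Set ℝ, Integrable (Function.uncurry (xH φ ψ))
      ((volume.restrict S).prod (volume.restrict T)) := by
    intro S T
    rw [Measure.prod_restrict]
    exact hH.restrict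
  have hr' : ∀ S T : Set ℝ, Integrable (Function.uncurry (fun l u => xH φ ψ u l))
      ((volume.restrict S).prod (volume.restrict T)) := by
    intro S T
    exact (hr T S).swap
  unfold Ex
  have s1 : ∀ l, φ l * kv ψ l
      = (∫ u in Iic (0 : ℝ), xH φ ψ l u) + ∫ u in Ioi (0 : ℝ), xH φ ψ l u := by
    intro l
    obtain ⟨h1, h2⟩ := xrow (φ := φ) hψi l
    rw [h2, intervalIntegral.integral_Iic_add_Ioi h1.integrableOn h1.integrableOn]
  have s2 : ∀ l, kv φ l * ψ l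
      = (∫ u in Iic (0 : ℝ), xH φ ψ u l) + ∫ u in Ioi (0 : ℝ), xH φ ψ u l := by
    intro l
    obtain ⟨h1, h2⟩ := xcol (ψ := ψ) hφ hK l
    rw [h2, intervalIntegral.integral_Iic_add_Ioi h1.integrableOn h1.integrableOn]
  simp_rw [s1, s2]
  have ia : ∀ S T : Set ℝ, IntegrableOn (fun l => ∫ u in T, xH φ ψ l u) S :=
    fun S T => (hr S T).integral_prod_left
  have ib : ∀ S T : Set ℝ, IntegrableOn (fun l => ∫ u in T, xH φ ψ u l) S :=
    fun S T => (hr' S T).integral_prod_left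
  have ja : IntegrableOn (fun l => (∫ u in Iic (0 : ℝ), xH φ ψ l u) + ∫ u in Ioi (0 : ℝ), xH φ ψ l u)
    (Ioi 0) := (ia (Ioi 0) (Iic 0)).add (ia (Ioi 0) (Ioi 0))
  have jb : IntegrableOn (fun l => (∫ u in Iic (0 : ℝ), xH φ ψ u l) + ∫ u in Ioi (0 : ℝ), xH φ ψ u l)
    (Ioi 0) := (ib (Ioi 0) (Iic 0)).add (ib (Ioi 0) (Ioi 0))
  rw [integral_sub ja jb,
    integral_add (ia (Ioi 0) (Iic 0)) (ia (Ioi 0) (Ioi 0)),
    integral_add (ib (Ioi 0) (Iic 0)) (ib (Ioi 0) (Ioi 0)),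
    integral_integral_swap (hr' (Ioi 0) (Iic 0)), integral_integral_swap (hr' (Ioi 0) (Ioi 0))]
  ring

theorem x3_bd {a c : ℝ} {w : ℝ → ℝ} (x y : ℝ) (h : |x - y| = |x| + |y|)
    (hb : ‖φ x * ψ y‖ ≤ a * w x * c) : ‖xH φ ψ x y‖ ≤ (a * w x * c) * (3 / (2 * Real.pi)
      * Real.exp (-(3 * |x| / 2))) * Real.exp (-(3 * |y| / 2)) := by
  unfold xH
  rw [norm_mul, Complex.norm_real, Real.norm_eq_abs, abs_of_pos (kk_pos _)]
  have h1 : kk (x - y) ≤ 3 / (2 * Real.pi) * Real.exp (-(3 * |x| / 2))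
      * Real.exp (-(3 * |y| / 2)) := by
    refine (kk_le _).trans (le_of_eq ?_)
    rw [h, mul_assoc, ← Real.exp_add]
    ring_nf
  have hpi := Real.pi_pos
  calc kk (x - y) * ‖φ x * ψ y‖
      ≤ (3 / (2 * Real.pi) * Real.exp (-(3 * |x| / 2)) * Real.exp (-(3 * |y| / 2)))
        * (a * w x * c) := mul_le_mul h1 hb (norm_nonneg _) (by positivity)
    _ = _ := by ring

theorem x3_half {a c : ℝ} {w : ℝ → ℝ} (x : ℝ) (S : Set ℝ) (hS : MeasurableSet S)
    (hSi : IntegrableOn (fun y : ℝ => Real.exp (-(3 * |y| / 2))) S)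
    (hSv : ∫ y in S, Real.exp (-(3 * |y| / 2)) = 2 / 3) {G : ℝ → ℂ}
    (hG : ∀ y ∈ S, ‖G y‖ ≤ (a * w x * c) * (3 / (2 * Real.pi)
      * Real.exp (-(3 * |x| / 2))) * Real.exp (-(3 * |y| / 2))) (hac : 0 ≤ a * w x * c) :
    ‖∫ y in S, G y‖ ≤ a * c * (w x * Real.exp (-(3 * |x| / 2))) := by
  refine (norm_integral_le_of_norm_le (hSi.const_mul ((a * w x * c)
    * (3 / (2 * Real.pi) * Real.exp (-(3 * |x| / 2))))) ?_).trans ?_
  · rw [ae_restrict_iff' hS]
    exact ae_of_all _ fun y hy => hG y hy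
  · rw [integral_const_mul, hSv]
    have h3 : 3 / (2 * Real.pi) * (2 / 3) ≤ (1 : ℝ) := by
      have : 3 / (2 * Real.pi) * (2 / 3) = 1 / Real.pi := by
        field_simp
      rw [this, div_le_one Real.pi_pos]
      linarith [Real.pi_gt_three]
    have h4 : 0 ≤ (a * w x * c) * Real.exp (-(3 * |x| / 2)) := by positivity
    calc _ = ((a * w x * c) * Real.exp (-(3 * |x| / 2)))
          * (3 / (2 * Real.pi) * (2 / 3)) := by ring
      _ ≤ ((a * w x * c) * Real.exp (-(3 * |x| / 2))) * 1 :=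
        mul_le_mul_of_nonneg_left h3 h4
      _ = _ := by ring

theorem opp1 {x y : ℝ} (hx : 0 < x) (hy : y ≤ 0) : |x - y| = |x| + |y| := by
  rw [abs_of_pos hx, abs_of_nonpos hy, abs_of_nonneg (by linarith)]; ring

theorem opp2 {x y : ℝ} (hx : x ≤ 0) (hy : 0 < y) : |x - y| = |x| + |y| := by
  rw [abs_of_nonpos hx, abs_of_pos hy, abs_of_nonpos (by linarith)]; ring

/-- the first bound -/
theorem Ex_le1 (hφ : Continuous φ) (hK : ∀ l, ‖φ l‖ ≤ K) (hψi : Integrable ψ) {a c : ℝ}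
    {w : ℝ → ℝ} (ha : 0 ≤ a) (hc : 0 ≤ c) (hw : ∀ l, 0 ≤ w l)
    (hwi : Integrable (fun l => w l * Real.exp (-(3 * |l| / 2))))
    (h1 : ∀ l, ‖φ l‖ ≤ a * w l) (h2 : ∀ l, ‖ψ l‖ ≤ c) :
    ‖Ex φ ψ‖ ≤ a * c * ∫ l : ℝ, w l * Real.exp (-(3 * |l| / 2)) := by
  have hb : ∀ x y, ‖φ x * ψ y‖ ≤ a * w x * c := fun x y => by
    rw [norm_mul]
    exact mul_le_mul (h1 x) (h2 y) (norm_nonneg _) (mul_nonneg ha (hw x))
  have hac : ∀ x, 0 ≤ a * w x * c := fun x => mul_nonneg (mul_nonneg ha (hw x)) hc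
  rw [ExJ_eq hφ hK hψi, ← integral_const_mul,
    ← intervalIntegral.integral_Iic_add_Ioi (b := (0 : ℝ)) (hwi.const_mul _).integrableOn
      (hwi.const_mul _).integrableOn]
  refine (norm_sub_le _ _).trans ?_
  rw [add_comm]
  refine add_le_add ?_ ?_
  · refine norm_integral_le_of_norm_le (hwi.const_mul _).integrableOn ?_
    rw [ae_restrict_iff' measurableSet_Iic]
    refine ae_of_all _ fun x hx => x3_half x (Ioi 0) measurableSet_Ioi
      x3_Ioi.1 x3_Ioi.2 (fun y hy => x3_bd x y (opp2 hx hy) (hb x y)) (hac x)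
  · refine norm_integral_le_of_norm_le (hwi.const_mul _).integrableOn ?_
    rw [ae_restrict_iff' measurableSet_Ioi]
    refine ae_of_all _ fun x hx => x3_half x (Iic 0) measurableSet_Iic
      x3_Iic.1 x3_Iic.2 (fun y hy => x3_bd x y (opp1 hx hy) (hb x y)) (hac x)

/-- the second bound -/
theorem Ex_le2 (hφ : Continuous φ) (hψi : Integrable ψ) {a c : ℝ}
    {w : ℝ → ℝ} (ha : 0 ≤ a) (hc : 0 ≤ c) (hw : ∀ l, 0 ≤ w l)
    (hwi : Integrable (fun l => w l * Real.exp (-(3 * |l| / 2))))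
    (h1 : ∀ l, ‖φ l‖ ≤ c) (h2 : ∀ l, ‖ψ l‖ ≤ a * w l) :
    ‖Ex φ ψ‖ ≤ a * c * ∫ l : ℝ, w l * Real.exp (-(3 * |l| / 2)) := by
  have hH := xH_int hφ h1 hψi
  have hr : ∀ S T : Set ℝ, Integrable (Function.uncurry (xH φ ψ))
      ((volume.restrict S).prod (volume.restrict T)) := by
    intro S T
    rw [Measure.prod_restrict]
    exact hH.restrict
  have hb : ∀ x y, ‖ψ x * φ y‖ ≤ a * w x * c := fun x y => by
    rw [norm_mul]
    exact mul_le_mul (h2 x) (h1 y) (norm_nonneg _) (mul_nonneg ha (hw x))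
  have hac : ∀ x, 0 ≤ a * w x * c := fun x => mul_nonneg (mul_nonneg ha (hw x)) hc
  have hsw : ∀ x y, xH φ ψ y x = xH ψ φ x y := fun x y => by
    unfold xH
    rw [← kk_even (y - x), neg_sub]
    ring
  rw [ExJ_eq hφ h1 hψi, integral_integral_swap (hr (Ioi 0) (Iic 0)),
    integral_integral_swap (hr (Iic 0) (Ioi 0)), ← integral_const_mul,
    ← intervalIntegral.integral_Iic_add_Ioi (b := (0 : ℝ)) (hwi.const_mul _).integrableOn
      (hwi.const_mul _).integrableOn]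
  simp only [hsw]
  refine (norm_sub_le _ _).trans ?_
  refine add_le_add ?_ ?_
  · refine norm_integral_le_of_norm_le (hwi.const_mul _).integrableOn ?_
    rw [ae_restrict_iff' measurableSet_Iic]
    refine ae_of_all _ fun x hx => x3_half x (Ioi 0) measurableSet_Ioi
      x3_Ioi.1 x3_Ioi.2 (fun y hy => x3_bd x y (opp2 hx hy) (hb x y)) (hac x)
  · refine norm_integral_le_of_norm_le (hwi.const_mul _).integrableOn ?_
    rw [ae_restrict_iff' measurableSet_Ioi]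
    refine ae_of_all _ fun x hx => x3_half x (Iic 0) measurableSet_Iic
      x3_Iic.1 x3_Iic.2 (fun y hy => x3_bd x y (opp1 hx hy) (hb x y)) (hac x)

/-- the integrand of the exchange functional is integrable -/
theorem Ex_int (hφ : Continuous φ) (hK : ∀ l, ‖φ l‖ ≤ K) (hψi : Integrable ψ) :
    Integrable (fun l => φ l * kv ψ l - kv φ l * ψ l) := by
  have hH := xH_int hφ hK hψi
  have i1 : Integrable (fun l => ∫ u, xH φ ψ l u) := hH.integral_prod_left
  have i2 : Integrable (fun l => ∫ u, xH φ ψ u l) := hH.integral_prod_right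
  refine (i1.sub i2).congr (ae_of_all _ fun l => ?_)
  simp only [Pi.sub_apply]
  rw [(xrow (φ := φ) hψi l).2, (xcol (ψ := ψ) hφ hK l).2]

end H729I
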