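import Pool.Agent.Run7.h729.Iso.Dil2
import Pool.Agent.Run7.h729.Iso.Dil3

/-!
# The system on the line, for all the coefficients
-/

set_option autoImplicit false

namespace H729I
open H906K MeasureTheory Filter Topology Polynomial

/-- the limit of the eigenvalue at infinity: `2 cos (X - π/3)` -/
noncomputable def Tinf : PowerSeries ℂ :=
  -(PowerSeries.C om * expI 1) - PowerSeries.C (om ^ 2) * expI (-1)

/-- the relations on the line -/
structure Fs (n : ℕ) (x : ℝ → ℝ) (T B R : ℝ → PowerSeries ℂ) : Prop where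
  n1 : 1 ≤ n
  sys : ∃ y b : ℝ → ℝ, Sys (2 * n + 1) x y b
  T0 : ∀ u, PowerSeries.coeff 0 (T u) = 1
  T1 : ∀ u, PowerSeries.coeff 1 (T u) = x u
  B0 : ∀ u, PowerSeries.coeff 0 (B u) = 1
  R0 : ∀ u, PowerSeries.coeff 0 (R u) = 1
  nT : ∃ T', Ncs T T'
  k1 : ∀ k u, PowerSeries.coeff k (lgs (T u)) = kv (fun v => PowerSeries.coeff k
    (lgs (1 + PowerSeries.X * (PowerSeries.C ((A1 (2 * n + 1) x v : ℝ) : ℂ) * B v)))) u
  k2 : ∀ k u, PowerSeries.coeff k (lgs (B u)) = kv (fun v => PowerSeries.coeff k (lgs (R v))) u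
  rl : ∀ u, PowerSeries.X * (PowerSeries.X * (PowerSeries.C ((9 + x u ^ 2 : ℝ) : ℂ) * R u))
    = (T u - 1) ^ 2 + kc * T u
  top : ∀ k, Tendsto (fun u => PowerSeries.coeff k (T u)) atTop (𝓝 (PowerSeries.coeff k Tinf))
  bot : ∀ k, Tendsto (fun u => PowerSeries.coeff k (T u)) atBot
    (𝓝 (PowerSeries.coeff k (PowerSeries.rescale (-1) Tinf)))
  mT : MB (1 / 10000) (3 * (1 / 10000)) (fun _ => 1) (fun u => T u - 1)
  mB : MB (1 / 10000) (1 / 24) (fun _ => 1) (fun u => B u - 1)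
  mR : MB (1 / 10000) (1 / 50) (fun _ => 1) (fun u => R u - 1)
  mL : MB (1 / 10000) (1 / 24) (fun _ => 1) (fun u => lgs (R u))

/-- coefficient functions of the eigenvalue -/
theorem nc_frac {n : ℕ} {p : ℂ[X]} (hp : p.natDegree ≤ 2 * n + 1) :
    (∃ f', Nc (fun u : ℝ => p.eval (Complex.exp u) / (1 + Complex.exp u) ^ (2 * n + 1)) f') ∧
    Tendsto (fun u : ℝ => p.eval (Complex.exp u) / (1 + Complex.exp u) ^ (2 * n + 1)) atTop
      (𝓝 (p.coeff (2 * n + 1))) ∧
    Tendsto (fun u : ℝ => p.eval (Complex.exp u) / (1 + Complex.exp u) ^ (2 * n + 1)) atBot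
      (𝓝 (p.coeff 0)) := by
  have h1 : ∀ j : ℕ, j < 2 * n + 2 → (∃ f', Nc (fun u : ℝ => Xc n (X ^ j : ℝ[X]) u) f') ∧
      Tendsto (fun u : ℝ => Xc n (X ^ j : ℝ[X]) u) atTop
        (𝓝 ((((X ^ j : ℝ[X]).coeff (2 * n + 1) : ℝ)) : ℂ)) ∧
      Tendsto (fun u : ℝ => Xc n (X ^ j : ℝ[X]) u) atBot
        (𝓝 ((((X ^ j : ℝ[X]).coeff 0 : ℝ)) : ℂ)) := by
    intro j hj
    obtain ⟨-, ⟨K, hK⟩, h3, h4, h5, h6⟩ := Xc_an n (X ^ j : ℝ[X]) (by
      rw [natDegree_X_pow]; omega)
    have e : (fun u : ℝ => Xc n (X ^ j : ℝ[X]) u)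
        = fun u : ℝ => (((Xc n (X ^ j : ℝ[X]) u).re : ℝ) : ℂ) := by
      funext u
      apply Complex.ext
      · simp
      · rw [h3 u]; simp
    rw [e]
    refine ⟨⟨_, Nc.real h4 (K := K) fun u => ?_⟩, ?_, ?_⟩
    · refine (Complex.abs_re_le_norm _).trans (hK u ?_)
      rw [Complex.ofReal_im, abs_zero]
      have := Real.pi_pos
      positivity
    · exact (Complex.continuous_ofReal.tendsto _).comp h5
    · exact (Complex.continuous_ofReal.tendsto _).comp h6
  have e : (fun u : ℝ => p.eval (Complex.exp u) / (1 + Complex.exp u) ^ (2 * n + 1))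
      = fun u : ℝ => ∑ j ∈ Finset.range (2 * n + 2), p.coeff j * Xc n (X ^ j : ℝ[X]) u := by
    funext u
    rw [eval_eq_sum_range' (by omega : p.natDegree < 2 * n + 2), Finset.sum_div]
    refine Finset.sum_congr rfl fun j _ => ?_
    unfold Xc
    simp only [Polynomial.map_pow, map_X, eval_pow, eval_X]
    rw [mul_div_assoc]
  rw [e]
  have c1 : ∀ k, k < 2 * n + 2 → ∑ j ∈ Finset.range (2 * n + 2),
      p.coeff j * ((((X ^ j : ℝ[X]).coeff k : ℝ)) : ℂ) = p.coeff k := by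
    intro k hk
    simp only [coeff_X_pow]
    rw [Finset.sum_eq_single k]
    · simp
    · intro j _ hj
      rw [if_neg (fun h => hj h.symm)]
      simp
    · intro h
      exact absurd (Finset.mem_range.2 hk) h
  refine ⟨?_, ?_, ?_⟩
  · have h2 : ∀ j : ℕ, ∃ f', j ∈ Finset.range (2 * n + 2) → Nc (fun u : ℝ => Xc n (X ^ j : ℝ[X]) u) f' := by
      intro j
      by_cases hj : j < 2 * n + 2
      · obtain ⟨f', hf'⟩ := (h1 j hj).1
        exact ⟨f', fun _ => hf'⟩
      · exact ⟨fun _ => 0, fun h => absurd (Finset.mem_range.1 h) hj⟩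
    choose f' hf' using h2
    exact ⟨_, Nc.sum (Finset.range (2 * n + 2)) fun j hj => (hf' j hj).cmul (p.coeff j)⟩
  · rw [← c1 (2 * n + 1) (by omega)]
    refine tendsto_finset_sum _ fun j hj => ?_
    exact (h1 j (Finset.mem_range.1 hj)).2.1.const_mul _
  · rw [← c1 0 (by omega)]
    refine tendsto_finset_sum _ fun j hj => ?_
    exact (h1 j (Finset.mem_range.1 hj)).2.2.const_mul _

theorem tz_nc {n : ℕ} {t : (PowerSeries ℂ)[X]} (h : TSpec n t) (k : ℕ) :
    (∃ f', Nc (fun u : ℝ => PowerSeries.coeff k (tz n t u)) f') ∧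
    Tendsto (fun u : ℝ => PowerSeries.coeff k (tz n t u)) atTop (𝓝 (PowerSeries.coeff k Tinf)) ∧
    Tendsto (fun u : ℝ => PowerSeries.coeff k (tz n t u)) atBot
      (𝓝 (PowerSeries.coeff k (PowerSeries.rescale (-1) Tinf))) := by
  obtain ⟨h1, h2, h3⟩ := nc_frac (n := n) (p := C ((1 / (2 * n + 1 : ℂ)) ^ k) * e4_cf k t)
    ((natDegree_C_mul_le _ _).trans (e4_cf_deg k t h.deg))
  have e : (fun u : ℝ => PowerSeries.coeff k (tz n t u)) = fun u : ℝ =>
      (C ((1 / (2 * n + 1 : ℂ)) ^ k) * e4_cf k t).eval (Complex.exp u)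
        / (1 + Complex.exp u) ^ (2 * n + 1) := by
    funext u; rw [tz_coeff]
  have hs : ∀ a : PowerSeries ℂ, (1 / (2 * n + 1 : ℂ)) ^ k * PowerSeries.coeff k a
      = PowerSeries.coeff k (PowerSeries.rescale (1 / (2 * n + 1 : ℂ)) a) := fun a => by
    rw [PowerSeries.coeff_rescale]
  have r1 : PowerSeries.rescale (1 / (2 * n + 1 : ℂ)) (expI (2 * n + 1)) = expI 1 := by
    have := rescale_expI n 1
    rwa [one_mul] at this
  have r2 : PowerSeries.rescale (1 / (2 * n + 1 : ℂ)) (expI (-(2 * n + 1))) = expI (-1) := by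
    have := rescale_expI n (-1)
    rwa [neg_one_mul] at this
  have hm : ∀ a : ℂ, PowerSeries.rescale (-1) (expI a) = expI (-a) := by
    intro a
    ext j
    rw [PowerSeries.coeff_rescale, e4_expI, e4_expI, ← mul_div_assoc, ← mul_pow]
    congr 2
    ring
  rw [e]
  refine ⟨h1, ?_, ?_⟩
  · have e1 : (C ((1 / (2 * n + 1 : ℂ)) ^ k) * e4_cf k t).coeff (2 * n + 1)
        = PowerSeries.coeff k Tinf := by
      rw [coeff_C_mul, e4_cf_coeff, h.top, hs]
      congr 1
      unfold Tinf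
      rw [map_sub, map_mul, map_mul, map_neg, rescale_C, rescale_C, r1, r2]
      ring
    rw [← e1]; exact h2
  · have e1 : (C ((1 / (2 * n + 1 : ℂ)) ^ k) * e4_cf k t).coeff 0
        = PowerSeries.coeff k (PowerSeries.rescale (-1) Tinf) := by
      rw [coeff_C_mul, e4_cf_coeff, h.bot, hs]
      congr 1
      unfold Tinf
      rw [map_sub, map_mul, map_mul, map_neg, rescale_C, rescale_C, r1, r2, map_sub, map_neg,
        map_mul, map_mul, rescale_C, rescale_C, hm, hm, neg_neg]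
      ring
    rw [← e1]; exact h3

/-- the eigenvalue satisfies the relations -/
theorem fs_exists {n : ℕ} (hn : 1 ≤ n) {t Q : (PowerSeries ℂ)[X]} {s1 s2 V1 V2 : ℝ[X]}
    (d : Datq n t Q s1 s2 V1 V2) :
    Fs n (X1 n s1) (fun u : ℝ => tz n t u) (fun u : ℝ => Bz n Q V1 u) (Rh n Q V1) := by
  have hr : (0 : ℝ) < 1 / 10000 := by norm_num
  have hu0 : ∀ u : ℝ, |((u : ℝ) : ℂ).im| ≤ 2 * Real.pi / 3 := fun u => by
    rw [Complex.ofReal_im, abs_zero]; have := Real.pi_pos; positivity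
  have hA : ∀ u : ℝ, Ax n s1 u = ((A1 (2 * n + 1) (X1 n s1) u : ℝ) : ℂ) := by
    intro u
    unfold Ax
    exact g5_A1 d.hR u
  have hmaj := fun K => maj hr le_rfl (majh d hr le_rfl) K
  have hps : ∀ {a : ℕ → ℝ} {c : ℝ}, (∀ k, 0 ≤ a k) → (∀ K, ps a (K + 1) ≤ c) → ∀ K, ps a K ≤ c :=
    fun h0 h K => (ps_le h0 (Nat.le_succ K)).trans (h K)
  have hsub : ∀ {F : ℝ → PowerSeries ℂ}, (∀ k, Bd (fun u => PowerSeries.coeff k (F u))) → ∀ k,
      Bd (fun u => PowerSeries.coeff k (F u - 1)) := by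
    intro F hF k
    obtain ⟨K, hK⟩ := hF k
    refine ⟨K + ‖PowerSeries.coeff k (1 : PowerSeries ℂ)‖, ?_⟩
    rintro _ ⟨u, rfl⟩
    beta_reduce
    rw [map_sub]
    exact (norm_sub_le _ _).trans (add_le_add (hK ⟨u, rfl⟩) le_rfl)
  have hwq : ∀ {F : ℝ → PowerSeries ℂ} (k : ℕ), wq (1 / 10000) (fun u => F u - 1) k
      = wq (1 / 10000) F k := by
    intro F k
    unfold wq
    split_ifs with hk
    · rfl
    · congr 2
      funext u
      rw [map_sub, PowerSeries.coeff_one, if_neg hk, sub_zero]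
  have hmb : ∀ {F : ℝ → PowerSeries ℂ} {c : ℝ}, (∀ u, PowerSeries.coeff 0 (F u) = 1) →
      (∀ k, Bd (fun u => PowerSeries.coeff k (F u))) → (∀ K, ps (wq (1 / 10000) F) K ≤ c) →
      MB (1 / 10000) c (fun _ => 1) (fun u => F u - 1) := by
    intro F c h0 hb hs
    refine MB.of_wq (fun u => ?_) (hsub hb) hr.le fun K => ?_
    · rw [map_sub, h0, PowerSeries.coeff_one, if_pos rfl, sub_self]
    · have : wq (1 / 10000) (fun u => F u - 1) = wq (1 / 10000) F := funext fun k => hwq k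
      rw [this]; exact hs K
  refine ⟨hn, ⟨_, _, sys_of_rpert d.hR⟩, fun u => tz_zero d.h (hu0 u), fun u => ?_,
    fun u => Bz_zero' d (u_half u), Rh_zero d, ?_, fun k u => ?_, fun k u => ?_, fun u => ?_,
    fun k => (tz_nc d.h k).2.1, fun k => (tz_nc d.h k).2.2, ?_, ?_, ?_, ?_⟩
  · rw [tz_one d, X1_eq d]
  · choose f' hf' using fun k => (tz_nc d.h k).1
    exact ⟨fun u => PowerSeries.mk fun k => f' k u, fun k => (hf' k).congr rfl (by
      funext u; rw [PowerSeries.coeff_mk])⟩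
  · rw [(nic_lt d k).rep u]
    unfold kv
    congr 1
    funext v
    rw [← map_add, lgs_tz d, hA]
  · rw [(nic_lB d k).rep u]
    unfold kv
    congr 1
    funext v
    rw [← map_add, ← lgs_Rh d]
  · ext k
    rcases k with _ | _ | k
    · have h0 := tz_zero d.h (hu0 u)
      rw [PowerSeries.coeff_zero_X_mul, map_add, pow_two, e4_mul0, e4_mul0, kc0, map_sub, h0,
        PowerSeries.coeff_one, if_pos rfl]
      ring
    · have h0 := tz_zero d.h (hu0 u)
      rw [PowerSeries.coeff_succ_X_mul, PowerSeries.coeff_zero_X_mul, map_add, pow_two, e4_mul1,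
        e4_mul1, kc0, kc1, map_sub, map_sub, h0, PowerSeries.coeff_one, PowerSeries.coeff_one,
        if_pos rfl]
      ring
    · rw [PowerSeries.coeff_succ_X_mul, PowerSeries.coeff_succ_X_mul, PowerSeries.coeff_C_mul]
      exact Rh_rel d u k
  · exact hmb (fun u => tz_zero d.h (hu0 u)) (fun k => (nic_tz d.h k).bd)
      (hps (wq_nonneg hr.le _) fun K => (hmaj K).2.2.2.1)
  · exact hmb (fun u => Bz_zero' d (u_half u)) (fun k => (nic_Bz d.hQ d.hR k).bd)
      fun K => (hmaj K).2.2.2.2.1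
  · exact hmb (Rh_zero d) (bd_Rh d) fun K => (hmaj K).2.2.2.2.2.2.2.1
  · exact MB.of_wq (fun u => lgs_zero _) (bd_lRh d) hr.le fun K => (hmaj K).2.2.2.2.2.2.2.2

end H729I
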