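import Pool.Agent.Run7.h729.Iso.Phy

/-!
# Evaluation of power series
-/

set_option autoImplicit false

namespace H729I
open H906K Pool.Agent.H974R3 Complex Filter Topology

/-- absolutely summable at the radius `r` -/
def Su (r : ℝ) (a : PowerSeries ℂ) : Prop := Summable fun k => ‖PowerSeries.coeff k a‖ * r ^ k

/-- evaluation -/
noncomputable def ev (z : ℂ) (a : PowerSeries ℂ) : ℂ := ∑' k, PowerSeries.coeff k a * z ^ k

theorem Su.mono {r r' : ℝ} (h0 : 0 ≤ r') (h : r' ≤ r) {a : PowerSeries ℂ} (ha : Su r a) :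
    Su r' a := by
  refine Summable.of_nonneg_of_le (fun k => by positivity) (fun k => ?_) ha
  gcongr

theorem Su.add {r : ℝ} (hr : 0 ≤ r) {a b : PowerSeries ℂ} (ha : Su r a) (hb : Su r b) :
    Su r (a + b) := by
  refine Summable.of_nonneg_of_le (fun k => by positivity) (fun k => ?_) (Summable.add ha hb)
  rw [map_add, ← add_mul]
  exact mul_le_mul_of_nonneg_right (norm_add_le _ _) (by positivity)

theorem Su.neg {r : ℝ} {a : PowerSeries ℂ} (ha : Su r a) : Su r (-a) := by
  unfold Su
  simp only [map_neg, norm_neg]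
  exact ha

theorem su_C {r : ℝ} (c : ℂ) : Su r (PowerSeries.C c) := by
  refine summable_of_ne_finset_zero (s := {0}) fun k hk => ?_
  rw [PowerSeries.coeff_C, if_neg (by simpa using hk), norm_zero, zero_mul]

theorem Su.norm {r : ℝ} (hr : 0 ≤ r) {a : PowerSeries ℂ} (ha : Su r a) :
    Summable fun k => ‖PowerSeries.coeff k a * (r : ℂ) ^ k‖ := by
  refine ha.congr fun k => ?_
  rw [norm_mul, norm_pow, Complex.norm_real, Real.norm_of_nonneg hr]

theorem Su.nz {z : ℂ} {a : PowerSeries ℂ} (ha : Su ‖z‖ a) :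
    Summable fun k => ‖PowerSeries.coeff k a * z ^ k‖ := by
  refine ha.congr fun k => ?_
  rw [norm_mul, norm_pow]

theorem anti_eq (a b : PowerSeries ℂ) (z : ℂ) (k : ℕ) :
    ∑ kl ∈ Finset.HasAntidiagonal.antidiagonal k, (PowerSeries.coeff kl.1 a * z ^ kl.1)
      * (PowerSeries.coeff kl.2 b * z ^ kl.2) = PowerSeries.coeff k (a * b) * z ^ k := by
  rw [PowerSeries.coeff_mul, Finset.sum_mul]
  refine Finset.sum_congr rfl fun kl hkl => ?_
  rw [← Finset.HasAntidiagonal.mem_antidiagonal.1 hkl, pow_add]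
  ring

theorem Su.mul {r : ℝ} (hr : 0 ≤ r) {a b : PowerSeries ℂ} (ha : Su r a) (hb : Su r b) :
    Su r (a * b) := by
  have h1 := summable_norm_sum_mul_antidiagonal_of_summable_norm (ha.norm hr) (hb.norm hr)
  refine h1.congr fun k => ?_
  rw [anti_eq, norm_mul, norm_pow, Complex.norm_real, Real.norm_of_nonneg hr]

theorem ev_mul {z : ℂ} {a b : PowerSeries ℂ} (ha : Su ‖z‖ a) (hb : Su ‖z‖ b) :
    ev z (a * b) = ev z a * ev z b := by
  unfold ev
  rw [tsum_mul_tsum_eq_tsum_sum_antidiagonal_of_summable_norm ha.nz hb.nz]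
  simp only [anti_eq]

theorem ev_add {z : ℂ} {a b : PowerSeries ℂ} (ha : Su ‖z‖ a) (hb : Su ‖z‖ b) :
    ev z (a + b) = ev z a + ev z b := by
  unfold ev
  rw [← Summable.tsum_add ha.nz.of_norm hb.nz.of_norm]
  refine tsum_congr fun k => ?_
  rw [map_add, add_mul]

theorem ev_C (z c : ℂ) : ev z (PowerSeries.C c) = c := by
  unfold ev
  rw [tsum_eq_single 0]
  · simp
  · intro k hk
    rw [PowerSeries.coeff_C, if_neg hk, zero_mul]

theorem ev_one (z : ℂ) : ev z 1 = 1 := by
  have := ev_C z 1
  rwa [map_one] at this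

theorem ev_zero (z : ℂ) : ev z 0 = 0 := by
  unfold ev; simp

theorem su_expI (r : ℝ) (hr : 0 ≤ r) (c : ℂ) : Su r (expI c) := by
  have h := Real.summable_pow_div_factorial (‖c‖ * r)
  refine h.congr fun k => ?_
  rw [e4_expI, norm_div, norm_pow, norm_mul, Complex.norm_I, mul_one, Complex.norm_natCast, mul_pow]
  ring

theorem ev_expI (z c : ℂ) : ev z (expI c) = cexp (c * I * z) := by
  unfold ev
  rw [Complex.exp_eq_exp_ℂ, NormedSpace.exp_eq_tsum_div]
  refine tsum_congr fun k => ?_
  rw [e4_expI, mul_pow (c * I) z]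
  ring

/-- a power series whose logarithm has a small norm -/
theorem su_of_lgs {r : ℝ} (hr : 0 ≤ r) {F : PowerSeries ℂ} (h0 : PowerSeries.coeff 0 F = 1)
    (h : ∀ K, ps (fun k => ‖PowerSeries.coeff k (lgs F)‖ * r ^ k) K ≤ 1 / 2) : Su r F := by
  set l : ℕ → ℝ := fun k => ‖PowerSeries.coeff k (lgs F)‖ * r ^ k with hl
  set f : ℕ → ℝ := fun k => ‖PowerSeries.coeff k F‖ * r ^ k with hf
  have hl0 : ∀ k, 0 ≤ l k := fun k => by rw [hl]; positivity
  have hf0 : ∀ k, 0 ≤ f k := fun k => by rw [hf]; positivity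
  have h1 : ∀ k, f k ≤ (if k = 0 then 1 else 0) + cv l f k := by
    intro k
    rcases Nat.eq_zero_or_pos k with rfl | hk
    · rw [if_pos rfl]
      have := cv_nonneg hl0 hf0 0
      have h2 : f 0 = 1 := by rw [hf]; simp [h0]
      linarith
    · rw [if_neg (by omega), zero_add, hf]
      beta_reduce
      have hz : l 0 = 0 := by rw [hl]; simp [lgs_zero]
      have hc : cv l f k = l k + ∑ j ∈ Finset.Ico 1 k, l j * f (k - j) := by
        unfold cv
        rw [Finset.sum_range_succ, Nat.sub_self, Finset.range_eq_Ico,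
          Finset.sum_eq_sum_Ico_succ_bot hk, hz, zero_mul, zero_add]
        have h2 : f 0 = 1 := by rw [hf]; simp [h0]
        rw [h2, mul_one, add_comm]
      rw [hc, lgs_rec h0 hk]
      refine (mul_le_mul_of_nonneg_right (norm_add_le _ _) (by positivity)).trans ?_
      rw [add_mul]
      refine add_le_add le_rfl ?_
      refine (mul_le_mul_of_nonneg_right (norm_sum_le _ _) (by positivity)).trans ?_
      rw [Finset.sum_mul]
      refine Finset.sum_le_sum fun j hj => ?_
      have hj' := Finset.mem_Ico.1 hj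
      have hk0 : (0 : ℝ) < k := by exact_mod_cast (by omega : 0 < k)
      rw [norm_mul, norm_mul]
      have h1 : ‖((j : ℂ) / k)‖ ≤ 1 := by
        rw [norm_div, Complex.norm_natCast, Complex.norm_natCast, div_le_one hk0]
        exact_mod_cast hj'.2.le
      have h4 : r ^ k = r ^ j * r ^ (k - j) := by rw [← pow_add]; congr 1; omega
      rw [h4, hl, hf]
      beta_reduce
      have h5 : ‖((j : ℂ) / k)‖ * ‖PowerSeries.coeff j (lgs F)‖ * ‖PowerSeries.coeff (k - j) F‖
          ≤ 1 * ‖PowerSeries.coeff j (lgs F)‖ * ‖PowerSeries.coeff (k - j) F‖ := by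
        gcongr
      calc _ ≤ 1 * ‖PowerSeries.coeff j (lgs F)‖ * ‖PowerSeries.coeff (k - j) F‖
            * (r ^ j * r ^ (k - j)) := mul_le_mul_of_nonneg_right h5 (by positivity)
        _ = _ := by ring
  have h2 : ∀ K, ps f K ≤ 2 := by
    intro K
    have h3 := ps_mono (a := f) (b := fun k => (if k = 0 then 1 else 0) + cv l f k) K
      (fun k _ => h1 k)
    rw [ps_add] at h3
    have h4 : ps (fun k => if k = 0 then (1 : ℝ) else 0) K = 1 := by
      unfold ps
      rw [Finset.sum_ite_eq' (Finset.range (K + 1)) 0 (fun _ => (1 : ℝ)), if_pos (by simp)]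
    have h5 := cv_le' hl0 hf0 K
    have h6 := mul_le_mul_of_nonneg_right (h K) (ps_nonneg hf0 K)
    linarith
  refine summable_of_sum_range_le (c := 2) hf0 fun K => ?_
  rcases K with _ | K
  · simp
  · exact h2 K

/-- the derivative of the evaluation -/
theorem ev_deriv {r : ℝ} {a : PowerSeries ℂ} (ha : Su r a) {z : ℂ} (hz : ‖z‖ < r) :
    Su ‖z‖ (PowerSeries.derivative ℂ a) ∧
      HasDerivAt (fun w => ev w a) (ev z (PowerSeries.derivative ℂ a)) z := by
  set U : Set ℂ := Metric.ball 0 r with hU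
  have hzU : z ∈ U := by rw [hU, mem_ball_zero_iff]; exact hz
  have hd : ∀ k, DifferentiableOn ℂ (fun w : ℂ => PowerSeries.coeff k a * w ^ k) U := fun k =>
    ((differentiable_id.pow k).const_mul _).differentiableOn
  have hle : ∀ k, ∀ w ∈ U, ‖PowerSeries.coeff k a * w ^ k‖ ≤ ‖PowerSeries.coeff k a‖ * r ^ k := by
    intro k w hw
    rw [norm_mul, norm_pow]
    rw [hU, mem_ball_zero_iff] at hw
    gcongr
  have h1 := hasSum_deriv_of_summable_norm ha hd Metric.isOpen_ball hle hzU
  have h2 := differentiableOn_tsum_of_summable_norm ha hd Metric.isOpen_ball hle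
  have h3 : ∀ k, deriv (fun w : ℂ => PowerSeries.coeff k a * w ^ k) z
      = PowerSeries.coeff k a * (k * z ^ (k - 1)) := by
    intro k
    exact ((hasDerivAt_pow k z).const_mul _).deriv
  have h4 : HasSum (fun k => PowerSeries.coeff k (PowerSeries.derivative ℂ a) * z ^ k)
      (deriv (fun w => ∑' i, PowerSeries.coeff i a * w ^ i) z) := by
    have h5 := (hasSum_nat_add_iff' 1).2 h1
    simp only [h3, Finset.range_one, Finset.sum_singleton, Nat.cast_zero, zero_mul, mul_zero,
      sub_zero] at h5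
    refine h5.congr_fun ?_ |> fun h => h
    intro k
    rw [PowerSeries.coeff_derivative]
    push_cast
    ring
  constructor
  · have h5 := h4.summable.norm
    refine h5.congr fun k => ?_
    rw [norm_mul, norm_pow]
  · have h5 : ev z (PowerSeries.derivative ℂ a)
        = deriv (fun w => ∑' i, PowerSeries.coeff i a * w ^ i) z := h4.tsum_eq
    rw [h5]
    exact (h2.differentiableAt (Metric.isOpen_ball.mem_nhds hzU)).hasDerivAt

theorem der_lgs {F : PowerSeries ℂ} (h0 : PowerSeries.coeff 0 F = 1) :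
    PowerSeries.derivative ℂ F = PowerSeries.derivative ℂ (lgs F) * F := by
  have hF' : PowerSeries.constantCoeff F = 1 := by
    rw [← PowerSeries.coeff_zero_eq_constantCoeff_apply]; exact h0
  have h1 : F * F⁻¹ = 1 := PowerSeries.mul_inv_cancel F (by rw [hF']; exact one_ne_zero)
  rw [lgs_deriv]
  linear_combination (-PowerSeries.derivative ℂ F) * h1

theorem ev_at_zero (a : PowerSeries ℂ) : ev 0 a = PowerSeries.coeff 0 a := by
  unfold ev
  rw [tsum_eq_single 0]
  · simp
  · intro k hk
    rw [zero_pow hk, mul_zero]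

/-- **the evaluation of the logarithm is a logarithm of the evaluation** -/
theorem ev_exp {r : ℝ} {F : PowerSeries ℂ} (h0 : PowerSeries.coeff 0 F = 1)
    (hF : Su r F) (hl : Su r (lgs F)) {z : ℂ} (hz : ‖z‖ < r) : ev z F = cexp (ev z (lgs F)) := by
  have hr : 0 < r := lt_of_le_of_lt (norm_nonneg z) hz
  set g : ℂ → ℂ := fun w => ev w F * cexp (-ev w (lgs F)) with hg
  have hd : ∀ w : ℂ, ‖w‖ < r → HasDerivAt g 0 w := by
    intro w hw
    obtain ⟨s1, d1⟩ := ev_deriv hF hw
    obtain ⟨s2, d2⟩ := ev_deriv hl hw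
    have h1 := d1.mul (d2.neg.cexp)
    refine h1.congr_deriv ?_
    rw [der_lgs h0, ev_mul s2 (hF.mono (norm_nonneg _) hw.le)]
    ring
  have hball : ∀ w ∈ Metric.ball (0 : ℂ) r, ‖w‖ < r := fun w hw => by
    rwa [mem_ball_zero_iff] at hw
  have h1 : g z = g 0 := by
    refine IsOpen.is_const_of_deriv_eq_zero (s := Metric.ball (0 : ℂ) r) Metric.isOpen_ball
      (convex_ball (0 : ℂ) r).isPreconnected
      (fun w hw => (hd w (hball w hw)).differentiableAt.differentiableWithinAt)
      (fun w hw => (hd w (hball w hw)).deriv) ?_ ?_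
    · rw [mem_ball_zero_iff]; exact hz
    · rw [mem_ball_zero_iff, norm_zero]; exact hr
  have h2 : g 0 = 1 := by
    rw [hg]
    beta_reduce
    rw [ev_at_zero, ev_at_zero, h0, lgs_zero, neg_zero, Complex.exp_zero, mul_one]
  rw [h2, hg] at h1
  beta_reduce at h1
  rw [Complex.exp_neg] at h1
  have := Complex.exp_ne_zero (ev z (lgs F))
  field_simp at h1
  exact h1

/-- the series which converge absolutely at the radius `1/10000` -/
noncomputable def SS : Subring (PowerSeries ℂ) where
  carrier := {a | Su (1 / 10000) a}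
  mul_mem' := fun ha hb => Su.mul (by norm_num) ha hb
  one_mem' := by
    have := su_C (r := 1 / 10000) (1 : ℂ)
    rwa [map_one] at this
  add_mem' := fun ha hb => Su.add (by norm_num) ha hb
  zero_mem' := by
    have := su_C (r := 1 / 10000) (0 : ℂ)
    rwa [map_zero] at this
  neg_mem' := fun ha => Su.neg ha

/-- evaluation as a ring homomorphism -/
noncomputable def evH (z : ℂ) (hz : ‖z‖ ≤ 1 / 10000) : SS →+* ℂ where
  toFun a := ev z a.1
  map_one' := ev_one z
  map_mul' a b := ev_mul (Su.mono (norm_nonneg _) hz a.2) (Su.mono (norm_nonneg _) hz b.2)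
  map_zero' := ev_zero z
  map_add' a b := ev_add (Su.mono (norm_nonneg _) hz a.2) (Su.mono (norm_nonneg _) hz b.2)

end H729I
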