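import Pool.Agent.Run7.h729.Iso.Dil4
import Pool.Agent.Run7.h729.Iso.Evl

/-!
# Derivatives on the line
-/

set_option autoImplicit false

namespace H729I
open H906K MeasureTheory Filter Topology

theorem MB.su {r : ℝ} (hr : 0 ≤ r) {a : PowerSeries ℂ} (h : Su r a) :
    MB r (∑' k, ‖PowerSeries.coeff k a‖ * r ^ k) (fun _ => 1) (fun _ => a) :=
  ⟨fun k => ‖PowerSeries.coeff k a‖ * r ^ k, fun k => by positivity, fun K =>
    h.sum_le_tsum _ (fun k _ => by positivity), fun k u => by rw [mul_one]⟩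

/-- the Euler operator -/
noncomputable def Eu (F : PowerSeries ℂ) : PowerSeries ℂ := PowerSeries.X * PowerSeries.derivative ℂ F

theorem Eu_coeff (k : ℕ) (F : PowerSeries ℂ) :
    PowerSeries.coeff k (Eu F) = k * PowerSeries.coeff k F := by
  unfold Eu
  rcases k with _ | k
  · simp
  · rw [PowerSeries.coeff_succ_X_mul, PowerSeries.coeff_derivative]
    push_cast
    ring

theorem Eu_mul (F G : PowerSeries ℂ) : Eu (F * G) = Eu F * G + F * Eu G := by
  unfold Eu
  rw [Derivation.leibniz, smul_eq_mul, smul_eq_mul]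
  ring

theorem Eu_add (F G : PowerSeries ℂ) : Eu (F + G) = Eu F + Eu G := by
  unfold Eu; rw [map_add, mul_add]

theorem Eu_C (a : ℂ) : Eu (PowerSeries.C a) = 0 := by
  ext k
  rw [Eu_coeff, PowerSeries.coeff_C]
  split_ifs with h
  · rw [h]; simp
  · simp

theorem Eu_X : Eu PowerSeries.X = PowerSeries.X := by
  ext k
  rw [Eu_coeff, PowerSeries.coeff_X]
  split_ifs with h
  · rw [h]; simp
  · simp

theorem Eu_lgs {F : PowerSeries ℂ} (h : PowerSeries.coeff 0 F = 1) : F * Eu (lgs F) = Eu F := by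
  have hi : F * F⁻¹ = 1 := PowerSeries.mul_inv_cancel _ (cc1 h)
  unfold Eu
  rw [lgs_deriv]
  linear_combination (PowerSeries.X * PowerSeries.derivative ℂ F) * hi

/-- the product function and its logarithm -/
noncomputable def Yy (n : ℕ) (x : ℝ → ℝ) (B : ℝ → PowerSeries ℂ) (u : ℝ) : PowerSeries ℂ :=
  PowerSeries.X * (PowerSeries.C ((A1 (2 * n + 1) x u : ℝ) : ℂ) * B u)

noncomputable def AAc (n : ℕ) (x : ℝ → ℝ) (B : ℝ → PowerSeries ℂ) (u : ℝ) : PowerSeries ℂ :=
  lgs (1 + Yy n x B u)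

noncomputable def g0 (x : ℝ → ℝ) (u : ℝ) : ℂ := ((deriv (G0 x) u : ℝ) : ℂ)

noncomputable def D0 (n : ℕ) (u : ℝ) : ℝ := 3 / 2 * ((2 * n + 1 : ℕ) : ℝ) / Real.sinh (3 * u / 2)

noncomputable def Wt (n : ℕ) (l : ℝ) : ℝ := |Real.tanh (3 * l / 4)| ^ (2 * n + 1)
      + ((2 * n + 1 : ℕ) : ℝ) * |Real.tanh (3 * l / 4)| ^ (2 * n + 1 - 1) / Real.cosh (3 * l / 4) ^ 2

theorem Wt_ge (n : ℕ) (l : ℝ) : |ta l| ^ (2 * n + 1) ≤ Wt n l := by
  unfold Wt ta
  have : 0 ≤ ((2 * n + 1 : ℕ) : ℝ) * |Real.tanh (3 * l / 4)| ^ (2 * n + 1 - 1)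
      / Real.cosh (3 * l / 4) ^ 2 := by positivity
  linarith

theorem Wt_nonneg (n : ℕ) (l : ℝ) : 0 ≤ Wt n l := le_trans (by positivity) (Wt_ge n l)

/-- the convolution of all the coefficients -/
noncomputable def kvS (F : ℝ → PowerSeries ℂ) (u : ℝ) : PowerSeries ℂ :=
  PowerSeries.mk fun k => kv (fun v => PowerSeries.coeff k (F v)) u

/-- the derived data -/
structure Fd (c : ℝ) (n : ℕ) (x : ℝ → ℝ) (T B R T' Bp Ap : ℝ → PowerSeries ℂ) : Prop where
  nT : Ncs T T'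
  nA : Ncs (AAc n x B) Ap
  nR : Ncs (fun u => lgs (R u)) (fun u => Bp u - PowerSeries.C (g0 x u))
  ng : Continuous (g0 x) ∧ Integrable (g0 x)
  kb : ∀ u, T' u * (T u)⁻¹ = kvS Ap u
  PB : ∀ u, ((T u - 1) ^ 2 + kc * T u) * Bp u = (2 * (T u - 1) + kc) * T' u
  i1 : ∀ u, 0 < u → Eu (AAc n x B u) * (PowerSeries.C ((D0 n u : ℝ) : ℂ) + kvS Bp u)
      = (1 + Eu (lgs (B u))) * Ap u
  mA : MB (1 / 10000) c (fun u => |ta u| ^ (2 * n + 1)) (AAc n x B)
  mA' : MB (1 / 10000) c (Wt n) Ap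
  mBp : MB (1 / 10000) c (fun _ => 1) Bp

theorem Ncs.dk {F F' : ℝ → PowerSeries ℂ} (hF : Ncs F F') {k : ℕ} {a : ℂ}
    (h0 : ∀ u, PowerSeries.coeff k (F u) = a) (u : ℝ) : PowerSeries.coeff k (F' u) = 0 := by
  have h1 := hF k
  have h2 : (fun u => PowerSeries.coeff k (F u)) = fun _ => a := funext h0
  rw [h2] at h1
  exact congrFun (h1.uniq (Nc.const a)) u

theorem su_kc : Su (1 / 10000) kc := by
  have hr : (0 : ℝ) ≤ 1 / 10000 := by norm_num
  unfold kc
  have e : (2 : PowerSeries ℂ) = PowerSeries.C 2 := (map_ofNat PowerSeries.C 2).symm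
  rw [e, sub_eq_add_neg]
  exact Su.add hr (su_C 2) (Su.neg (Su.add hr (su_expI _ hr 3) (su_expI _ hr (-3))))

theorem kv_real (f : ℝ → ℝ) (u : ℝ) : kv (fun v => ((f v : ℝ) : ℂ)) u
    = ((∫ v : ℝ, kk (u - v) * f v : ℝ) : ℂ) := by
  unfold kv
  have : (fun v : ℝ => (kk (u - v) : ℂ) * ((f v : ℝ) : ℂ)) = fun v : ℝ => ((kk (u - v) * f v : ℝ) : ℂ) := by
    funext v
    push_cast
    rfl
  beta_reduce
  rw [this]
  exact integral_ofReal

theorem fd_exists : ∃ c : ℝ, 0 < c ∧ ∀ {n : ℕ} {x : ℝ → ℝ} {T B R : ℝ → PowerSeries ℂ},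
    Fs n x T B R → ∃ T' Bp Ap, Fd c n x T B R T' Bp Ap := by
  obtain ⟨K, hK0, hK⟩ := sys_deriv
  set ck : ℝ := ∑' k, ‖PowerSeries.coeff k kc‖ * (1 / 10000) ^ k with hck
  have hr : (0 : ℝ) ≤ 1 / 10000 := by norm_num
  have hr' : (0 : ℝ) < 1 / 10000 := by norm_num
  have mkc : MB (1 / 10000) ck (fun _ => 1) (fun _ => kc) := MB.su hr su_kc
  have hck0 : 0 ≤ ck := mkc.nonneg
  set c1 : ℝ := (2 * (3 * (1 / 10000)) + ck) * ((1 + 3 * (1 / 10000)) * (2 * (1 / 1000)))
    / (1 / 10000) / (1 / 10000) with hc1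
  have hc10 : 0 ≤ c1 := by positivity
  set c2 : ℝ := (K * (1 + 1 / 24) + 3.4642 * ((1 + 1 / 24) * (2 * (1 / 24)))) with hc2
  have hc20 : 0 ≤ c2 := by positivity
  refine ⟨1 * c1 * 2 + 1 / 10000 * c2 * 2 + 1, by positivity, ?_⟩
  intro n x T B R hF
  obtain ⟨y, b, hs⟩ := hF.sys
  have N1 : 1 ≤ 2 * n + 1 := by omega
  obtain ⟨nG0, -, nbe, nA1, -⟩ := sys_nice N1 hs
  obtain ⟨bx, -, -, bA1, -, -, bG0⟩ := sys_bounds N1 hs
  obtain ⟨dG0, -, dA1, -⟩ := hK (2 * n + 1) x y b N1 hs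
  obtain ⟨T', nT⟩ := hF.nT
  have hs3 : √3 ≤ 1.7321 := by
    rw [Real.sqrt_le_left (by norm_num)]; norm_num
  -- the polynomial
  have nT1 : Ncs (fun u => T u - 1) T' := (nT.add (Ncs.const (-1))).congr
    (by funext u; ring) (by funext u; ring)
  have nP : Ncs (fun u => (T u - 1) ^ 2 + kc * T u) (fun u => (2 * (T u - 1) + kc) * T' u) :=
    ((nT1.mul nT1).add ((Ncs.const kc).mul nT)).congr (by funext u; ring) (by funext u; ring)
  set S : ℝ → PowerSeries ℂ := fun u => PowerSeries.C ((9 + x u ^ 2 : ℝ) : ℂ) * R u with hSd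
  have hPS : ∀ u, (T u - 1) ^ 2 + kc * T u = PowerSeries.X * (PowerSeries.X * S u) := fun u =>
    (hF.rl u).symm
  set S' : ℝ → PowerSeries ℂ := fun u => PowerSeries.mk fun k =>
    PowerSeries.coeff (k + 2) ((2 * (T u - 1) + kc) * T' u) with hS'd
  have nS : Ncs S S' := fun k => (nP (k + 2)).congr (by
    funext u
    beta_reduce
    rw [hPS u, PowerSeries.coeff_succ_X_mul, PowerSeries.coeff_succ_X_mul]) (by
    funext u
    rw [hS'd]
    beta_reduce
    rw [PowerSeries.coeff_mk])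
  have hS' : ∀ u, (2 * (T u - 1) + kc) * T' u = PowerSeries.X * (PowerSeries.X * S' u) := by
    intro u
    ext k
    rcases k with _ | _ | k
    · rw [PowerSeries.coeff_zero_X_mul]
      exact nP.dk (k := 0) (a := 0) (fun v => by rw [hPS v, PowerSeries.coeff_zero_X_mul]) u
    · rw [PowerSeries.coeff_succ_X_mul, PowerSeries.coeff_zero_X_mul]
      exact nP.dk (k := 1) (a := 0) (fun v => by
        rw [hPS v, PowerSeries.coeff_succ_X_mul, PowerSeries.coeff_zero_X_mul]) u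
    · rw [PowerSeries.coeff_succ_X_mul, PowerSeries.coeff_succ_X_mul, hS'd]
      beta_reduce
      rw [PowerSeries.coeff_mk]
  -- the weight
  have hpos : ∀ u, 0 < 9 + x u ^ 2 := fun u => by positivity
  have hφ : ContDiff ℝ 1 (fun y : ℝ => (9 + y ^ 2)⁻¹) :=
    ContDiff.inv (by fun_prop) fun y => by positivity
  have hφd : ∀ y : ℝ, deriv (fun y : ℝ => (9 + y ^ 2)⁻¹) y = -(2 * y) / (9 + y ^ 2) ^ 2 := by
    intro y
    have h1 : HasDerivAt (fun y : ℝ => 9 + y ^ 2) (2 * y) y := by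
      have := (hasDerivAt_pow 2 y).const_add 9
      refine this.congr_deriv ?_
      simp
    exact (h1.inv (by positivity)).deriv
  obtain ⟨nw, dw⟩ := a4_comp hφ hs.niceX bx
  have bw : ∀ u, |(9 + x u ^ 2)⁻¹| ≤ 1 := fun u => by
    rw [abs_of_pos (inv_pos.2 (hpos u))]
    apply inv_le_one_of_one_le₀
    nlinarith [_root_.sq_nonneg (x u)]
  have ncw : Nc (fun u => (((9 + x u ^ 2)⁻¹ : ℝ) : ℂ))
      (fun u => ((-(2 * x u) / (9 + x u ^ 2) ^ 2 * deriv x u : ℝ) : ℂ)) :=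
    (Nc.real nw bw).congr rfl (by funext u; rw [dw, hφd])
  have hg0 : ∀ u, deriv (G0 x) u = 2 * x u * deriv x u / (9 + x u ^ 2) := by
    intro u
    have h1 : HasDerivAt (fun l => 9 + x l ^ 2) (2 * x u * deriv x u) u := by
      have := ((hs.niceX.1 u).hasDerivAt.fun_pow 2).const_add 9
      refine this.congr_deriv ?_
      simp
    exact (h1.log (hpos u).ne').deriv
  have hC : ∀ u, PowerSeries.C (((9 + x u ^ 2)⁻¹ : ℝ) : ℂ) * PowerSeries.C ((9 + x u ^ 2 : ℝ) : ℂ)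
      = 1 := by
    intro u
    rw [← map_mul, ← Complex.ofReal_mul, inv_mul_cancel₀ (hpos u).ne']
    simp
  have hRS : ∀ u, R u = PowerSeries.C (((9 + x u ^ 2)⁻¹ : ℝ) : ℂ) * S u := by
    intro u
    rw [hSd]
    beta_reduce
    linear_combination (-R u) * hC u
  have nR1 : Ncs R (fun u => PowerSeries.C ((-(2 * x u) / (9 + x u ^ 2) ^ 2 * deriv x u : ℝ) : ℂ) * S u
      + PowerSeries.C (((9 + x u ^ 2)⁻¹ : ℝ) : ℂ) * S' u) :=
    ((Ncs.C ncw).mul nS).congr (funext hRS) rfl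
  have hRi : ∀ u, R u * (R u)⁻¹ = 1 := fun u => PowerSeries.mul_inv_cancel _ (cc1 (hF.R0 u))
  set Bp : ℝ → PowerSeries ℂ := fun u => PowerSeries.C (((9 + x u ^ 2)⁻¹ : ℝ) : ℂ) * S' u * (R u)⁻¹
    with hBp
  have nlR : Ncs (fun u => lgs (R u)) (fun u => Bp u - PowerSeries.C (g0 x u)) := by
    refine (nR1.lgs hF.R0).congr rfl ?_
    funext u
    have e1 : PowerSeries.C ((-(2 * x u) / (9 + x u ^ 2) ^ 2 * deriv x u : ℝ) : ℂ)
        * PowerSeries.C ((9 + x u ^ 2 : ℝ) : ℂ) = -PowerSeries.C (g0 x u) := by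
      rw [← map_mul, ← map_neg, ← Complex.ofReal_mul]
      unfold g0
      rw [hg0 u, ← Complex.ofReal_neg]
      congr 2
      have := (hpos u).ne'
      field_simp
    rw [hBp]
    beta_reduce
    have e2 : S u = PowerSeries.C ((9 + x u ^ 2 : ℝ) : ℂ) * R u := rfl
    rw [e2]
    linear_combination (-(R u * (R u)⁻¹)) * e1 + (PowerSeries.C (g0 x u)) * hRi u
  have hPB : ∀ u, ((T u - 1) ^ 2 + kc * T u) * Bp u = (2 * (T u - 1) + kc) * T' u := by
    intro u
    rw [hPS u, hS' u, hBp]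
    beta_reduce
    have e2 : S u = PowerSeries.C ((9 + x u ^ 2 : ℝ) : ℂ) * R u := rfl
    rw [e2]
    linear_combination (PowerSeries.X * PowerSeries.X * S' u * (R u * (R u)⁻¹)) * hC u
      + (PowerSeries.X * PowerSeries.X * S' u) * hRi u
  -- the logarithmic derivative of `B`
  set Lp : ℝ → PowerSeries ℂ := kvS (fun u => Bp u - PowerSeries.C (g0 x u)) with hLp
  have nLB : Ncs (fun u => lgs (B u)) Lp := by
    intro k
    refine ((nlR k).kv.1).congr (funext fun u => hF.k2 k u) ?_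
    funext u
    rw [hLp]
    unfold kvS
    rw [PowerSeries.coeff_mk]
  have nB : Ncs B (fun u => B u * Lp u) := nLB.exp hF.B0
  -- the product
  have bA1' : ∀ l, |A1 (2 * n + 1) x l| ≤ 3.4642 * |ta l| ^ (2 * n + 1) := fun l =>
    (bA1 l).trans (mul_le_mul_of_nonneg_right (by linarith) (by positivity))
  have bA1'' : ∀ l, |A1 (2 * n + 1) x l| ≤ 3.4642 := fun l => (bA1' l).trans (by
    have := ta_pow_le l (2 * n + 1)
    nlinarith)
  have ncA : Nc (fun u => ((A1 (2 * n + 1) x u : ℝ) : ℂ))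
      (fun u => ((deriv (A1 (2 * n + 1) x) u : ℝ) : ℂ)) := Nc.real nA1 bA1''
  set Y' : ℝ → PowerSeries ℂ := fun u => PowerSeries.X
    * (PowerSeries.C ((deriv (A1 (2 * n + 1) x) u : ℝ) : ℂ) * B u
      + PowerSeries.C ((A1 (2 * n + 1) x u : ℝ) : ℂ) * (B u * Lp u)) with hY'
  have nY : Ncs (Yy n x B) Y' := ((Ncs.C ncA).mul nB).X
  have n1Y : Ncs (fun u => 1 + Yy n x B u) Y' :=
    ((Ncs.const 1).add nY).congr rfl (by funext u; rw [zero_add])
  have h1Y : ∀ u, PowerSeries.coeff 0 (1 + Yy n x B u) = 1 := by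
    intro u
    unfold Yy
    rw [map_add, PowerSeries.coeff_zero_X_mul, PowerSeries.coeff_one, if_pos rfl, add_zero]
  have hYi : ∀ u, (1 + Yy n x B u) * (1 + Yy n x B u)⁻¹ = 1 := fun u =>
    PowerSeries.mul_inv_cancel _ (cc1 (h1Y u))
  have nAA : Ncs (AAc n x B) (fun u => Y' u * (1 + Yy n x B u)⁻¹) := n1Y.lgs h1Y
  -- bounds
  have hta0 : ∀ u : ℝ, 0 ≤ |ta u| ^ (2 * n + 1) := fun u => by positivity
  have mB1 : MB (1 / 10000) (1 + 1 / 24) (fun _ => 1) B :=
    (MB.one.add hr hF.mB).congr fun u => by ring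
  have mC : MB (1 / 10000) 3.4642 (fun u => |ta u| ^ (2 * n + 1))
      (fun u => PowerSeries.C ((A1 (2 * n + 1) x u : ℝ) : ℂ)) :=
    MB.cst (by norm_num) hta0 fun u => by
      rw [Complex.norm_real, Real.norm_eq_abs]; exact bA1' u
  have mY : MB (1 / 10000) (1 / 2000) (fun u => |ta u| ^ (2 * n + 1)) (Yy n x B) :=
    ((mC.mul hr hta0 mB1).X hr).mono (by norm_num)
  have hsub : ∀ u, 1 + Yy n x B u - 1 = Yy n x B u := fun u => by ring
  have mA : MB (1 / 10000) (1 / 1000) (fun u => |ta u| ^ (2 * n + 1)) (AAc n x B) :=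
    (MB.lgs hr hta0 (fun u => ta_pow_le u _) h1Y (by norm_num) (mY.congr hsub)).mono (by norm_num)
  have mYi : MB (1 / 10000) 2 (fun _ => 1) (fun u => (1 + Yy n x B u)⁻¹) :=
    (MB.inv hr h1Y (by norm_num) ((mY.monow fun u => ta_pow_le u _).congr hsub)).mono (by norm_num)
  have kb : ∀ u, T' u * (T u)⁻¹ = kvS (fun u => Y' u * (1 + Yy n x B u)⁻¹) u := by
    intro u
    ext k
    have e1 := nT.lgs hF.T0 k
    have e2 := (nAA k).kv.1
    have e3 : (fun u => PowerSeries.coeff k (lgs (T u)))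
        = kv (fun u => PowerSeries.coeff k (AAc n x B u)) := funext fun u => hF.k1 k u
    rw [e3] at e1
    unfold kvS
    rw [PowerSeries.coeff_mk]
    exact congrFun (e1.uniq e2) u
  have mb : MB (1 / 10000) (2 * (1 / 1000)) (fun _ => 1) (fun u => T' u * (T u)⁻¹) :=
    MB.kv nAA (mA.monow fun u => ta_pow_le u _) hr (fun k u => by
      rw [kb u]; unfold kvS; rw [PowerSeries.coeff_mk])
  have mT : MB (1 / 10000) (1 + 3 * (1 / 10000)) (fun _ => 1) T :=
    (MB.one.add hr hF.mT).congr fun u => by ring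
  have hTi : ∀ u, T u * (T u)⁻¹ = 1 := fun u => PowerSeries.mul_inv_cancel _ (cc1 (hF.T0 u))
  have one0 : ∀ _ : ℝ, (0 : ℝ) ≤ 1 := fun _ => zero_le_one
  have mT' : MB (1 / 10000) ((1 + 3 * (1 / 10000)) * (2 * (1 / 1000))) (fun _ => 1) T' :=
    (mT.mul hr one0 mb).congr fun u => by linear_combination (-T' u) * hTi u
  have mT2 : MB (1 / 10000) (2 * (3 * (1 / 10000)) + ck) (fun _ => 1)
      (fun u => 2 * (T u - 1) + kc) :=
    (((hF.mT.add hr hF.mT).mono (by norm_num)).add hr mkc).congr fun u => by ring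
  have mP' := mT2.mul hr one0 mT'
  have mS' : MB (1 / 10000) c1 (fun _ => 1) S' := by
    have h1 : MB (1 / 10000) _ (fun _ => 1) (fun u => PowerSeries.X * S' u) := mP'.divX hr' hS'
    exact h1.divX hr' fun u => rfl
  have mRi : MB (1 / 10000) 2 (fun _ => 1) (fun u => (R u)⁻¹) :=
    (MB.inv hr hF.R0 (by norm_num) hF.mR).mono (by norm_num)
  have mw : MB (1 / 10000) 1 (fun _ => 1)
      (fun u => PowerSeries.C (((9 + x u ^ 2)⁻¹ : ℝ) : ℂ)) :=
    MB.cst zero_le_one one0 fun u => by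
      rw [Complex.norm_real, Real.norm_eq_abs, mul_one]; exact bw u
  have mBp : MB (1 / 10000) (1 * c1 * 2) (fun _ => 1) Bp := (mw.mul hr one0 mS').mul hr one0 mRi
  have mL : MB (1 / 10000) (2 * (1 / 24)) (fun _ => 1) Lp :=
    MB.kv nlR hF.mL hr (fun k u => by rw [hLp]; unfold kvS; rw [PowerSeries.coeff_mk])
  have hW0 := Wt_nonneg n
  have mC' : MB (1 / 10000) K (Wt n)
      (fun u => PowerSeries.C ((deriv (A1 (2 * n + 1) x) u : ℝ) : ℂ)) :=
    MB.cst hK0.le hW0 fun u => by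
      rw [Complex.norm_real, Real.norm_eq_abs]; exact dA1 u
  have mY' : MB (1 / 10000) (1 / 10000 * c2) (Wt n) Y' :=
    ((mC'.mul hr hW0 mB1).add hr ((mC.monow (Wt_ge n)).mul hr hW0 (mB1.mul hr one0 mL))).X hr
  have mA' : MB (1 / 10000) (1 / 10000 * c2 * 2) (Wt n) (fun u => Y' u * (1 + Yy n x B u)⁻¹) :=
    mY'.mul hr hW0 mYi
  refine ⟨T', Bp, fun u => Y' u * (1 + Yy n x B u)⁻¹, nT, nAA, nlR, ⟨?_, ?_⟩, kb, hPB, ?_,
    mA.mono ?_, mA'.mono ?_, mBp.mono ?_⟩
  · exact Complex.continuous_ofReal.comp nG0.2.1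
  · exact nG0.2.2.ofReal
  · intro u hu
    -- the splitting of the convolution
    have hg : Integrable (g0 x) := nG0.2.2.ofReal
    have e1 : kvS Bp u = Lp u + PowerSeries.C (kv (g0 x) u) := by
      ext k
      rw [map_add, hLp]
      unfold kvS
      rw [PowerSeries.coeff_mk, PowerSeries.coeff_mk]
      have hi := (nlR k).i
      have i1 := kv_int' hi u
      have i2 : Integrable (fun v : ℝ => (kk (u - v) : ℂ)
          * PowerSeries.coeff k (PowerSeries.C (g0 x v))) := by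
        rcases Nat.eq_zero_or_pos k with rfl | hk
        · simpa using kv_int' hg u
        · simp only [PowerSeries.coeff_C, if_neg (show ¬ k = 0 by omega), mul_zero]
          exact integrable_zero _ _ _
      have e3 : kv (fun v => PowerSeries.coeff k (Bp v)) u
          = kv (fun v => PowerSeries.coeff k (Bp v - PowerSeries.C (g0 x v))) u
            + kv (fun v => PowerSeries.coeff k (PowerSeries.C (g0 x v))) u := by
        unfold kv
        rw [← integral_add i1 i2]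
        congr 1
        funext v
        rw [map_sub]
        ring
      rw [e3]
      congr 1
      rw [PowerSeries.coeff_C]
      split_ifs with hk
      · subst hk
        simp
      · unfold kv
        simp [PowerSeries.coeff_C, hk]
    have e2 : kv (g0 x) u = ((deriv (be0 x) u : ℝ) : ℂ) := by
      unfold g0
      rw [kv_real]
      congr 1
      have bG0' : ∀ l, |G0 x l| ≤ 3 := fun l => by
        rw [abs_of_nonneg (bG0 l).1]
        exact (bG0 l).2
      exact ((kk_conv_nice (G0 x) 3 nG0 bG0').2 u).symm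
    have e4 : deriv (A1 (2 * n + 1) x) u = A1 (2 * n + 1) x u * (D0 n u + deriv (be0 x) u) := by
      have h1 : HasDerivAt (fun l => Real.tanh (3 * l / 4) ^ (2 * n + 1) * Real.exp (be0 x l))
          (Real.tanh (3 * u / 4) ^ (2 * n + 1) * (3 / 2 * ((2 * n + 1 : ℕ) : ℝ)
            / Real.sinh (3 * u / 2)) * Real.exp (be0 x u)
            + Real.tanh (3 * u / 4) ^ (2 * n + 1) * (Real.exp (be0 x u) * deriv (be0 x) u)) u :=
        (a7_pow_deriv (2 * n + 1) N1 u hu).mul (nbe.1 u).hasDerivAt.exp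
      have h2 : deriv (A1 (2 * n + 1) x) u = _ := h1.deriv
      rw [h2]
      unfold A1 D0
      ring
    have e5 : Y' u = Yy n x B u * (PowerSeries.C ((D0 n u : ℝ) : ℂ) + kvS Bp u) := by
      rw [hY']
      beta_reduce
      rw [e1, e2, e4]
      unfold Yy
      rw [Complex.ofReal_mul, Complex.ofReal_add, map_mul, map_add]
      ring
    have e6 : Eu (Yy n x B u) = Yy n x B u * (1 + Eu (lgs (B u))) := by
      unfold Yy
      rw [Eu_mul, Eu_mul, Eu_X, Eu_C, ← Eu_lgs (hF.B0 u)]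
      ring
    have e7 : (1 + Yy n x B u) * Eu (AAc n x B u) = Eu (Yy n x B u) := by
      unfold AAc
      rw [Eu_lgs (h1Y u), Eu_add]
      have : Eu (1 : PowerSeries ℂ) = 0 := by
        have := Eu_C 1
        rwa [map_one] at this
      rw [this, zero_add]
    have e8 : (1 + Yy n x B u) * (Eu (AAc n x B u) * (PowerSeries.C ((D0 n u : ℝ) : ℂ) + kvS Bp u))
        = (1 + Yy n x B u) * ((1 + Eu (lgs (B u))) * (Y' u * (1 + Yy n x B u)⁻¹)) := by
      rw [← mul_assoc, e7, e6, e5]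
      linear_combination (-(1 + Eu (lgs (B u))) * (Yy n x B u
        * (PowerSeries.C ((D0 n u : ℝ) : ℂ) + kvS Bp u))) * hYi u
    have hne : (1 + Yy n x B u) ≠ 0 := by
      intro h0
      have := h1Y u
      rw [h0, map_zero] at this
      exact zero_ne_one this
    exact mul_left_cancel₀ hne e8
  · have : 0 ≤ 1 / 10000 * c2 * 2 := by positivity
    have : 0 ≤ 1 * c1 * 2 := by positivity
    linarith
  · have : 0 ≤ 1 * c1 * 2 := by positivity
    linarith
  · have : 0 ≤ 1 / 10000 * c2 * 2 := by positivity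
    linarith

end H729I
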