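import Pool.Agent.Run7.h729.Iso.Dil5

/-!
# The integrated identity
-/

set_option autoImplicit false

namespace H729I
open H906K MeasureTheory Set Filter Topology

variable {c : ℝ} {n : ℕ} {x : ℝ → ℝ} {T B R T' Bp Ap : ℝ → PowerSeries ℂ}

/-- the right side -/
noncomputable def Vvc (T R T' Bp : ℝ → PowerSeries ℂ) (u : ℝ) : PowerSeries ℂ :=
  (2 + Eu (lgs (R u))) * (T' u * (T u)⁻¹) - Eu (lgs (T u)) * Bp u

/-- the first factor -/
noncomputable def ph2 (R : ℝ → PowerSeries ℂ) (u : ℝ) : PowerSeries ℂ := 2 + Eu (lgs (R u))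

theorem kv_cmul (a : ℂ) (f : ℝ → ℂ) (u : ℝ) : kv (fun v => a * f v) u = a * kv f u := by
  unfold kv
  rw [← integral_const_mul]
  congr 1
  funext v
  ring

theorem kv_const (a : ℂ) (u : ℝ) : kv (fun _ => a) u = a / 2 := by
  unfold kv
  rw [integral_mul_const]
  have : (∫ v : ℝ, (kk (u - v) : ℂ)) = ((∫ v : ℝ, kk (u - v) : ℝ) : ℂ) := integral_ofReal
  rw [this, a2a_integral_shift]
  push_cast
  ring

theorem kvT (hF : Fs n x T B R) (u : ℝ) : Eu (lgs (T u)) = kvS (fun v => Eu (AAc n x B v)) u := by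
  ext k
  unfold kvS
  rw [Eu_coeff, hF.k1, PowerSeries.coeff_mk]
  simp only [Eu_coeff]
  rw [kv_cmul]
  rfl

theorem kvR (hF : Fs n x T B R) (u : ℝ) : 1 + Eu (lgs (B u)) = kvS (ph2 R) u := by
  ext k
  unfold kvS ph2
  rw [map_add, Eu_coeff, hF.k2, PowerSeries.coeff_mk, PowerSeries.coeff_one]
  have e2 : (2 : PowerSeries ℂ) = PowerSeries.C 2 := (map_ofNat PowerSeries.C 2).symm
  simp only [map_add, Eu_coeff, e2, PowerSeries.coeff_C]
  rcases Nat.eq_zero_or_pos k with rfl | hk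
  · simp only [if_true, Nat.cast_zero, zero_mul, add_zero]
    rw [kv_const]
    norm_num
  · simp only [if_neg (show ¬ k = 0 by omega), zero_add]
    rw [kv_cmul]

theorem cBp (hD : Fd c n x T B R T' Bp Ap) (k : ℕ) :
    Continuous (fun u => PowerSeries.coeff k (Bp u)) ∧ Integrable (fun u => PowerSeries.coeff k (Bp u)) := by
  have h1 := hD.nR k
  have e : (fun u => PowerSeries.coeff k (Bp u)) = fun u =>
      PowerSeries.coeff k (Bp u - PowerSeries.C (g0 x u)) + (if k = 0 then g0 x u else 0) := by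
    funext u
    rw [map_sub, PowerSeries.coeff_C]
    ring
  rw [e]
  by_cases hk : k = 0
  · simp only [hk, if_true]
    subst hk
    exact ⟨h1.c.add hD.ng.1, h1.i.add hD.ng.2⟩
  · simp only [hk, if_false, add_zero]
    exact ⟨h1.c, h1.i⟩

theorem ncE {F F' : ℝ → PowerSeries ℂ} (h : Ncs F F') : Ncs (fun u => Eu (F u)) (fun u => Eu (F' u)) :=
  fun k => ((h k).cmul (k : ℂ)).congr (by funext u; rw [Eu_coeff]) (by funext u; rw [Eu_coeff])

theorem ncph (hD : Fd c n x T B R T' Bp Ap) :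
    Ncs (ph2 R) (fun u => Eu (Bp u - PowerSeries.C (g0 x u))) :=
  ((Ncs.const 2).add (ncE hD.nR)).congr rfl (by funext u; rw [zero_add])

/-- the decomposition of the right side -/
theorem V_dec (hF : Fs n x T B R) (hD : Fd c n x T B R T' Bp Ap) {u : ℝ} (hu : 0 < u) (k : ℕ) :
    PowerSeries.coeff k (Vvc T R T' Bp u) = (D0 n u : ℂ) * (k * PowerSeries.coeff k (AAc n x B u))
      + ∑ p ∈ Finset.HasAntidiagonal.antidiagonal k,
        (PowerSeries.coeff p.1 (Eu (AAc n x B u)) * kv (fun v => PowerSeries.coeff p.2 (Bp v)) u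
          - kv (fun v => PowerSeries.coeff p.1 (Eu (AAc n x B v))) u * PowerSeries.coeff p.2 (Bp u))
      + ∑ p ∈ Finset.HasAntidiagonal.antidiagonal k,
        (PowerSeries.coeff p.1 (ph2 R u) * kv (fun v => PowerSeries.coeff p.2 (Ap v)) u
          - kv (fun v => PowerSeries.coeff p.1 (ph2 R v)) u * PowerSeries.coeff p.2 (Ap u)) := by
  have h1 : Vvc T R T' Bp u = PowerSeries.C ((D0 n u : ℝ) : ℂ) * Eu (AAc n x B u)
      + (Eu (AAc n x B u) * kvS Bp u - kvS (fun v => Eu (AAc n x B v)) u * Bp u)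
      + (ph2 R u * kvS Ap u - kvS (ph2 R) u * Ap u) := by
    have i1 := hD.i1 u hu
    rw [kvR hF u] at i1
    unfold Vvc
    rw [hD.kb u, kvT hF u]
    unfold ph2 at *
    linear_combination (-1 : PowerSeries ℂ) * i1
  rw [h1, map_add, map_add, PowerSeries.coeff_C_mul, Eu_coeff, map_sub, map_sub,
    PowerSeries.coeff_mul, PowerSeries.coeff_mul, PowerSeries.coeff_mul, PowerSeries.coeff_mul,
    ← Finset.sum_sub_distrib, ← Finset.sum_sub_distrib]
  unfold kvS
  simp only [PowerSeries.coeff_mk]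

theorem Ex_cmul (a : ℂ) (φ ψ : ℝ → ℂ) : Ex (fun u => a * φ u) ψ = a * Ex φ ψ := by
  unfold Ex
  rw [← integral_const_mul]
  congr 1
  funext l
  rw [kv_cmul]
  ring

theorem wt_int (n : ℕ) : Integrable (fun l : ℝ => |ta l| ^ (2 * n + 1) * Real.exp (-(3 * |l| / 2))) ∧
    Integrable (fun l : ℝ => Wt n l * Real.exp (-(3 * |l| / 2))) := by
  refine ⟨a8_T_int (2 * n + 1), ((a8_T_int (2 * n + 1)).add (a8_S_int (2 * n + 1))).congr
    (ae_of_all _ fun l => ?_)⟩
  simp only [Pi.add_apply]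
  unfold Wt
  ring

theorem wt_dec : ∃ K : ℝ, 0 < K ∧ ∀ n : ℕ, 1 ≤ n →
    (∫ l : ℝ, |ta l| ^ (2 * n + 1) * Real.exp (-(3 * |l| / 2))) ≤ K / (2 * n + 1) ∧
    (∫ l : ℝ, Wt n l * Real.exp (-(3 * |l| / 2))) ≤ K / (2 * n + 1) ∧
    (∫ l in Ioi (0 : ℝ), Real.tanh (3 * l / 4) ^ (2 * n + 1) * D0 n l
      * (1 - Real.tanh (3 * l / 2))) ≤ K / (2 * n + 1) := by
  obtain ⟨K, hK, h⟩ := dec_int
  refine ⟨2 * K, by positivity, fun n hn => ?_⟩
  obtain ⟨h1, h2, h3⟩ := h (2 * n + 1) (by omega)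
  have e : ((2 * n + 1 : ℕ) : ℝ) = 2 * n + 1 := by push_cast; ring
  rw [e] at h1 h2 h3
  have hN : (0 : ℝ) < 2 * n + 1 := by positivity
  have hle : K / (2 * (n : ℝ) + 1) ≤ 2 * K / (2 * n + 1) := by
    apply div_le_div_of_nonneg_right _ hN.le
    linarith
  refine ⟨h1.trans hle, ?_, ?_⟩
  · have e2 : (∫ l : ℝ, Wt n l * Real.exp (-(3 * |l| / 2)))
        = (∫ l : ℝ, |Real.tanh (3 * l / 4)| ^ (2 * n + 1) * Real.exp (-(3 * |l| / 2)))
          + ∫ l : ℝ, ((2 * n + 1 : ℕ) : ℝ) * |Real.tanh (3 * l / 4)| ^ (2 * n + 1 - 1)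
            / Real.cosh (3 * l / 4) ^ 2 * Real.exp (-(3 * |l| / 2)) := by
      rw [← integral_add (a8_T_int (2 * n + 1)) (a8_S_int (2 * n + 1))]
      congr 1
      funext l
      unfold Wt
      ring
    rw [e2, e]
    have : 2 * K / (2 * (n : ℝ) + 1) = K / (2 * n + 1) + K / (2 * n + 1) := by ring
    rw [this]
    exact add_le_add h1 h2
  · refine le_trans (le_of_eq ?_) (h3.trans hle)
    congr 1
    funext l
    unfold D0
    rw [e]

theorem V_int (hF : Fs n x T B R) (hD : Fd c n x T B R T' Bp Ap) (k : ℕ) :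
    Integrable (fun u => PowerSeries.coeff k (Vvc T R T' Bp u)) := by
  have e : (fun u => PowerSeries.coeff k (Vvc T R T' Bp u)) = fun u =>
      ∑ p ∈ Finset.HasAntidiagonal.antidiagonal k,
        (PowerSeries.coeff p.1 (ph2 R u) * PowerSeries.coeff p.2 (T' u * (T u)⁻¹)
          - PowerSeries.coeff p.1 (Eu (lgs (T u))) * PowerSeries.coeff p.2 (Bp u)) := by
    funext u
    unfold Vvc ph2
    rw [map_sub, PowerSeries.coeff_mul, PowerSeries.coeff_mul, ← Finset.sum_sub_distrib]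
  rw [e]
  refine integrable_finset_sum _ fun p _ => Integrable.sub ?_ ?_
  · obtain ⟨K, hK⟩ := (ncph hD p.1).b
    exact ((hD.nT.lgs hF.T0) p.2).i.bdd_mul (c := K) (ncph hD p.1).cont.aestronglyMeasurable
      (ae_of_all _ hK)
  · have h1 := ncE (hD.nT.lgs hF.T0) p.1
    obtain ⟨K, hK⟩ := h1.b
    exact (cBp hD p.2).2.bdd_mul (c := K) h1.cont.aestronglyMeasurable (ae_of_all _ hK)

/-- **the half line identity** -/
theorem half_int : ∃ K : ℝ, 0 < K ∧ ∀ {c : ℝ} {n : ℕ} {x : ℝ → ℝ} {T B R T' Bp Ap : ℝ → PowerSeries ℂ},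
    0 < c → Fs n x T B R → Fd c n x T B R T' Bp Ap → ∃ e : ℕ → ℝ, (∀ k, 0 ≤ e k) ∧
      (∀ L, ps e L ≤ K * (c * c + 3 * c)) ∧ ∀ k : ℕ, 2 ≤ k →
      IntegrableOn (fun u => (D0 n u : ℂ) * PowerSeries.coeff k (AAc n x B u)) (Ioi 0) ∧
      ‖(∫ u in Ioi (0 : ℝ), (D0 n u : ℂ) * PowerSeries.coeff k (AAc n x B u))
        - 1 / k * ∫ u in Ioi (0 : ℝ), PowerSeries.coeff k (Vvc T R T' Bp u)‖ * (1 / 10000) ^ k
        ≤ e k / (2 * n + 1) := by
  obtain ⟨K, hK, hdec⟩ := wt_dec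
  refine ⟨K, hK, ?_⟩
  intro c n x T B R T' Bp Ap hc hF hD
  obtain ⟨d1, d2, -⟩ := hdec n hF.n1
  obtain ⟨i1, i2⟩ := wt_int n
  obtain ⟨a, a0, as, ha⟩ := hD.mA
  obtain ⟨α, α0, αs, hα⟩ := hD.mA'
  obtain ⟨β, β0, βs, hβ⟩ := hD.mBp
  obtain ⟨l, l0, ls, hl⟩ := hF.mL
  set l' : ℕ → ℝ := fun k => (if k = 0 then 2 else 0) + l k with hl'
  have l'0 : ∀ k, 0 ≤ l' k := fun k => by
    rw [hl']; beta_reduce; have := l0 k; split_ifs <;> linarith
  have l's : ∀ L, ps l' L ≤ 3 := fun L => by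
    rw [hl', ps_add, ps_single]; have := ls L; linarith
  have hN : (0 : ℝ) < 2 * n + 1 := by positivity
  have hr : (0 : ℝ) < 1 / 10000 := by norm_num
  refine ⟨fun k => K * (cv a β k + cv l' α k), fun k => ?_, fun L => ?_, fun k hk => ?_⟩
  · have h1 := cv_nonneg a0 β0 k
    have h2 := cv_nonneg l'0 α0 k
    positivity
  · rw [ps_mul, ps_add]
    apply mul_le_mul_of_nonneg_left _ hK.le
    refine add_le_add ?_ ?_
    · exact (cv_le' a0 β0 L).trans (mul_le_mul (as L) (βs L) (ps_nonneg β0 L) hc.le)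
    · exact (cv_le' l'0 α0 L).trans (mul_le_mul (l's L) (αs L) (ps_nonneg α0 L) (by norm_num))
  have hk0 : (k : ℂ) ≠ 0 := by exact_mod_cast (by omega : k ≠ 0)
  have hkr : (0 : ℝ) < k := by exact_mod_cast (by omega : 0 < k)
  -- the coefficient functions
  have nE : Ncs (fun u => Eu (AAc n x B u)) (fun u => Eu (Ap u)) := ncE hD.nA
  have X1' : ∀ p : ℕ × ℕ, Integrable (fun u => PowerSeries.coeff p.1 (Eu (AAc n x B u))
      * kv (fun v => PowerSeries.coeff p.2 (Bp v)) u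
      - kv (fun v => PowerSeries.coeff p.1 (Eu (AAc n x B v))) u * PowerSeries.coeff p.2 (Bp u)) := by
    intro p
    obtain ⟨L, hL⟩ := (nE p.1).b
    exact Ex_int (nE p.1).cont hL (cBp hD p.2).2
  have X2' : ∀ p : ℕ × ℕ, Integrable (fun u => PowerSeries.coeff p.1 (ph2 R u)
      * kv (fun v => PowerSeries.coeff p.2 (Ap v)) u
      - kv (fun v => PowerSeries.coeff p.1 (ph2 R v)) u * PowerSeries.coeff p.2 (Ap u)) := by
    intro p
    obtain ⟨L, hL⟩ := (ncph hD p.1).b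
    exact Ex_int (ncph hD p.1).cont hL (hD.nA p.2).i
  have hVi := V_int hF hD k
  have hS1 := integrable_finset_sum (Finset.HasAntidiagonal.antidiagonal k) fun p _ => X1' p
  have hS2 := integrable_finset_sum (Finset.HasAntidiagonal.antidiagonal k) fun p _ => X2' p
  -- the integrand
  have hint : EqOn (fun u => (D0 n u : ℂ) * PowerSeries.coeff k (AAc n x B u))
      (fun u => 1 / k * (PowerSeries.coeff k (Vvc T R T' Bp u)
        - ∑ p ∈ Finset.HasAntidiagonal.antidiagonal k,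
          (PowerSeries.coeff p.1 (Eu (AAc n x B u)) * kv (fun v => PowerSeries.coeff p.2 (Bp v)) u
            - kv (fun v => PowerSeries.coeff p.1 (Eu (AAc n x B v))) u * PowerSeries.coeff p.2 (Bp u))
        - ∑ p ∈ Finset.HasAntidiagonal.antidiagonal k,
          (PowerSeries.coeff p.1 (ph2 R u) * kv (fun v => PowerSeries.coeff p.2 (Ap v)) u
            - kv (fun v => PowerSeries.coeff p.1 (ph2 R v)) u * PowerSeries.coeff p.2 (Ap u)))) (Ioi 0) := by
    intro u hu
    beta_reduce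
    rw [V_dec hF hD hu k]
    field_simp
    ring
  have hI : Integrable (fun u => 1 / (k : ℂ) * (PowerSeries.coeff k (Vvc T R T' Bp u)
        - ∑ p ∈ Finset.HasAntidiagonal.antidiagonal k,
          (PowerSeries.coeff p.1 (Eu (AAc n x B u)) * kv (fun v => PowerSeries.coeff p.2 (Bp v)) u
            - kv (fun v => PowerSeries.coeff p.1 (Eu (AAc n x B v))) u * PowerSeries.coeff p.2 (Bp u))
        - ∑ p ∈ Finset.HasAntidiagonal.antidiagonal k,
          (PowerSeries.coeff p.1 (ph2 R u) * kv (fun v => PowerSeries.coeff p.2 (Ap v)) u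
            - kv (fun v => PowerSeries.coeff p.1 (ph2 R v)) u * PowerSeries.coeff p.2 (Ap u)))) :=
    ((hVi.sub hS1).sub hS2).const_mul _
  refine ⟨hI.integrableOn.congr_fun hint.symm measurableSet_Ioi, ?_⟩
  rw [setIntegral_congr_fun measurableSet_Ioi hint, integral_const_mul]
  have hVi' := hVi.integrableOn (s := Ioi (0 : ℝ))
  have hS1' := hS1.integrableOn (s := Ioi (0 : ℝ))
  have hS2' := hS2.integrableOn (s := Ioi (0 : ℝ))
  have hV1 : IntegrableOn (fun u => PowerSeries.coeff k (Vvc T R T' Bp u)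
      - ∑ p ∈ Finset.HasAntidiagonal.antidiagonal k,
          (PowerSeries.coeff p.1 (Eu (AAc n x B u)) * kv (fun v => PowerSeries.coeff p.2 (Bp v)) u
            - kv (fun v => PowerSeries.coeff p.1 (Eu (AAc n x B v))) u * PowerSeries.coeff p.2 (Bp u)))
      (Ioi 0) := hVi'.sub hS1'
  rw [integral_sub hV1 hS2', integral_sub hVi' hS1',
    integral_finset_sum _ fun p _ => (X1' p).integrableOn,
    integral_finset_sum _ fun p _ => (X2' p).integrableOn]
  have e1 : 1 / (k : ℂ) * ((∫ u in Ioi (0 : ℝ), PowerSeries.coeff k (Vvc T R T' Bp u))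
      - (∑ p ∈ Finset.HasAntidiagonal.antidiagonal k, ∫ u in Ioi (0 : ℝ),
        (PowerSeries.coeff p.1 (Eu (AAc n x B u)) * kv (fun v => PowerSeries.coeff p.2 (Bp v)) u
          - kv (fun v => PowerSeries.coeff p.1 (Eu (AAc n x B v))) u * PowerSeries.coeff p.2 (Bp u)))
      - ∑ p ∈ Finset.HasAntidiagonal.antidiagonal k, ∫ u in Ioi (0 : ℝ),
        (PowerSeries.coeff p.1 (ph2 R u) * kv (fun v => PowerSeries.coeff p.2 (Ap v)) u
          - kv (fun v => PowerSeries.coeff p.1 (ph2 R v)) u * PowerSeries.coeff p.2 (Ap u)))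
      - 1 / k * ∫ u in Ioi (0 : ℝ), PowerSeries.coeff k (Vvc T R T' Bp u)
      = -∑ p ∈ Finset.HasAntidiagonal.antidiagonal k,
        (Ex (fun u => 1 / (k : ℂ) * PowerSeries.coeff p.1 (Eu (AAc n x B u)))
          (fun u => PowerSeries.coeff p.2 (Bp u))
        + Ex (fun u => 1 / (k : ℂ) * PowerSeries.coeff p.1 (ph2 R u))
          (fun u => PowerSeries.coeff p.2 (Ap u))) := by
    simp only [Ex_cmul]
    rw [Finset.sum_add_distrib, ← Finset.mul_sum, ← Finset.mul_sum]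
    unfold Ex
    ring
  rw [e1, norm_neg, Finset.Nat.sum_antidiagonal_eq_sum_range_succ (fun i j =>
    (Ex (fun u => 1 / (k : ℂ) * PowerSeries.coeff i (Eu (AAc n x B u)))
          (fun u => PowerSeries.coeff j (Bp u))
        + Ex (fun u => 1 / (k : ℂ) * PowerSeries.coeff i (ph2 R u))
          (fun u => PowerSeries.coeff j (Ap u))))]
  refine (mul_le_mul_of_nonneg_right (norm_sum_le _ _) (by positivity)).trans ?_
  have e2 : K * (cv a β k + cv l' α k) / (2 * n + 1)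
      = ∑ i ∈ Finset.range (k + 1), (a i * β (k - i) * (K / (2 * n + 1))
        + α (k - i) * l' i * (K / (2 * n + 1))) := by
    unfold cv
    rw [← Finset.sum_add_distrib, Finset.mul_sum, Finset.sum_div]
    refine Finset.sum_congr rfl fun i _ => ?_
    ring
  rw [e2, Finset.sum_mul]
  refine Finset.sum_le_sum fun i hi => ?_
  have hi' : i ≤ k := by have := Finset.mem_range.1 hi; omega
  have hik : ‖1 / (k : ℂ) * (i : ℂ)‖ ≤ 1 := by
    rw [norm_mul, norm_div, norm_one, Complex.norm_natCast, Complex.norm_natCast,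
      one_div_mul_eq_div, div_le_one hkr]
    exact_mod_cast hi'
  have hri : 0 < (1 / 10000 : ℝ) ^ i := by positivity
  have hrj : 0 < (1 / 10000 : ℝ) ^ (k - i) := by positivity
  have hrk : (1 / 10000 : ℝ) ^ k = (1 / 10000) ^ i * (1 / 10000) ^ (k - i) := by
    rw [← pow_add]; congr 1; omega
  have t1 : ‖Ex (fun u => 1 / (k : ℂ) * PowerSeries.coeff i (Eu (AAc n x B u)))
      (fun u => PowerSeries.coeff (k - i) (Bp u))‖
      ≤ a i / (1 / 10000) ^ i * (β (k - i) / (1 / 10000) ^ (k - i))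
        * ∫ l : ℝ, |ta l| ^ (2 * n + 1) * Real.exp (-(3 * |l| / 2)) := by
    obtain ⟨L, hL⟩ := ((nE i).cmul (1 / (k : ℂ))).b
    refine Ex_le1 ((nE i).cmul (1 / (k : ℂ))).cont hL (cBp hD (k - i)).2
      (div_nonneg (a0 i) hri.le) (div_nonneg (β0 _) hrj.le) (fun l => by positivity) i1
      (fun l => ?_) (fun l => ?_)
    · have e9 : a i / (1 / 10000) ^ i * |ta l| ^ (2 * n + 1)
          = a i * |ta l| ^ (2 * n + 1) / (1 / 10000) ^ i := by ring
      rw [Eu_coeff, ← mul_assoc, norm_mul, e9, le_div_iff₀ hri]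
      have h1 := ha i l
      calc ‖1 / (k : ℂ) * (i : ℂ)‖ * ‖PowerSeries.coeff i (AAc n x B l)‖ * (1 / 10000) ^ i
          ≤ 1 * ‖PowerSeries.coeff i (AAc n x B l)‖ * (1 / 10000) ^ i := by gcongr
        _ ≤ _ := by rw [one_mul]; exact h1
    · rw [le_div_iff₀ hrj]
      have := hβ (k - i) l
      rwa [mul_one] at this
  have t2 : ‖Ex (fun u => 1 / (k : ℂ) * PowerSeries.coeff i (ph2 R u))
      (fun u => PowerSeries.coeff (k - i) (Ap u))‖
      ≤ α (k - i) / (1 / 10000) ^ (k - i) * (l' i / (1 / 10000) ^ i)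
        * ∫ l : ℝ, Wt n l * Real.exp (-(3 * |l| / 2)) := by
    refine Ex_le2 ((ncph hD i).cmul (1 / (k : ℂ))).cont (hD.nA (k - i)).i
      (div_nonneg (α0 _) hrj.le) (div_nonneg (l'0 i) hri.le) (Wt_nonneg n) i2
      (fun u => ?_) (fun u => ?_)
    · have e2 : (2 : PowerSeries ℂ) = PowerSeries.C 2 := (map_ofNat PowerSeries.C 2).symm
      unfold ph2
      rw [map_add, Eu_coeff, e2, PowerSeries.coeff_C, mul_add, ← mul_assoc, le_div_iff₀ hri]
      have h1 := hl i u
      rw [mul_one] at h1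
      have h2 : ‖1 / (k : ℂ) * (if i = 0 then 2 else 0)‖ * (1 / 10000) ^ i
          ≤ (if i = 0 then 2 else 0) := by
        split_ifs with h0
        · subst h0
          rw [norm_mul, norm_div, norm_one, Complex.norm_natCast, pow_zero, mul_one]
          have : ‖(2 : ℂ)‖ = 2 := by norm_num
          rw [this]
          have : 1 / (k : ℝ) ≤ 1 := by
            rw [div_le_one hkr]
            exact_mod_cast (by omega : 1 ≤ k)
          linarith
        · simp
      have h3 : ‖1 / (k : ℂ) * (i : ℂ) * PowerSeries.coeff i (lgs (R u))‖ * (1 / 10000) ^ i ≤ l i := by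
        rw [norm_mul]
        calc ‖1 / (k : ℂ) * (i : ℂ)‖ * ‖PowerSeries.coeff i (lgs (R u))‖ * (1 / 10000) ^ i
            ≤ 1 * ‖PowerSeries.coeff i (lgs (R u))‖ * (1 / 10000) ^ i := by gcongr
          _ ≤ _ := by rw [one_mul]; exact h1
      have h4 := mul_le_mul_of_nonneg_right (norm_add_le (1 / (k : ℂ) * (if i = 0 then 2 else 0))
        (1 / (k : ℂ) * (i : ℂ) * PowerSeries.coeff i (lgs (R u)))) hri.le
      rw [hl']
      beta_reduce
      linarith
    · rw [div_mul_eq_mul_div, le_div_iff₀ hrj]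
      exact hα (k - i) u
  have t1' : ‖Ex (fun u => 1 / (k : ℂ) * PowerSeries.coeff i (Eu (AAc n x B u)))
      (fun u => PowerSeries.coeff (k - i) (Bp u))‖ * (1 / 10000) ^ k
      ≤ a i * β (k - i) * (K / (2 * n + 1)) := by
    refine (mul_le_mul_of_nonneg_right t1 (by positivity)).trans ?_
    rw [hrk]
    have h1 : 0 ≤ a i * β (k - i) := mul_nonneg (a0 i) (β0 _)
    calc _ = a i * β (k - i) * ∫ l : ℝ, |ta l| ^ (2 * n + 1) * Real.exp (-(3 * |l| / 2)) := by
          field_simp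
      _ ≤ _ := mul_le_mul_of_nonneg_left d1 h1
  have t2' : ‖Ex (fun u => 1 / (k : ℂ) * PowerSeries.coeff i (ph2 R u))
      (fun u => PowerSeries.coeff (k - i) (Ap u))‖ * (1 / 10000) ^ k
      ≤ α (k - i) * l' i * (K / (2 * n + 1)) := by
    refine (mul_le_mul_of_nonneg_right t2 (by positivity)).trans ?_
    rw [hrk]
    have h1 : 0 ≤ α (k - i) * l' i := mul_nonneg (α0 _) (l'0 i)
    calc _ = α (k - i) * l' i * ∫ l : ℝ, Wt n l * Real.exp (-(3 * |l| / 2)) := by
          field_simp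
      _ ≤ _ := mul_le_mul_of_nonneg_left d2 h1
  have t3 := mul_le_mul_of_nonneg_right (norm_add_le
    (Ex (fun u => 1 / (k : ℂ) * PowerSeries.coeff i (Eu (AAc n x B u)))
      (fun u => PowerSeries.coeff (k - i) (Bp u)))
    (Ex (fun u => 1 / (k : ℂ) * PowerSeries.coeff i (ph2 R u))
      (fun u => PowerSeries.coeff (k - i) (Ap u)))) (by positivity : (0 : ℝ) ≤ (1 / 10000) ^ k)
  linarith

end H729I
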