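import Pool.Agent.Run7.h729.Iso.Dil6

/-!
# The boundary values
-/

set_option autoImplicit false

namespace H729I
open H906K MeasureTheory Set Filter Topology

variable {c : ℝ} {n : ℕ} {x : ℝ → ℝ} {T B R T' Bp Ap : ℝ → PowerSeries ℂ}

/-- division by `X` -/
noncomputable def dv (F : PowerSeries ℂ) : PowerSeries ℂ :=
  PowerSeries.mk fun k => PowerSeries.coeff (k + 1) F

theorem X_dv {F : PowerSeries ℂ} (h : PowerSeries.coeff 0 F = 0) : PowerSeries.X * dv F = F := by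
  ext k
  rcases k with _ | k
  · rw [PowerSeries.coeff_zero_X_mul, h]
  · rw [PowerSeries.coeff_succ_X_mul]
    unfold dv
    rw [PowerSeries.coeff_mk]

theorem dv_coeff (k : ℕ) (F : PowerSeries ℂ) : PowerSeries.coeff k (dv F) = PowerSeries.coeff (k + 1) F := by
  unfold dv; rw [PowerSeries.coeff_mk]

theorem dv_add (F G : PowerSeries ℂ) : dv (F + G) = dv F + dv G := by
  ext k; rw [map_add, dv_coeff, dv_coeff, dv_coeff, map_add]

theorem expI_zero (a : ℂ) : PowerSeries.coeff 0 (expI a) = 1 := by rw [e4_expI]; simp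

theorem expI_one (a : ℂ) : PowerSeries.coeff 1 (expI a) = a * Complex.I := by rw [e4_expI]; simp

theorem Eu_expI (a : ℂ) : Eu (expI a) = PowerSeries.C (a * Complex.I) * (PowerSeries.X * expI a) := by
  ext k
  rw [Eu_coeff, PowerSeries.coeff_C_mul]
  rcases k with _ | k
  · simp
  · rw [PowerSeries.coeff_succ_X_mul, e4_expI, e4_expI, Nat.factorial_succ]
    push_cast
    have h1 : ((k : ℂ) + 1) ≠ 0 := Nat.cast_add_one_ne_zero k
    have h2 : ((k.factorial : ℕ) : ℂ) ≠ 0 := by exact_mod_cast Nat.factorial_ne_zero k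
    field_simp
    ring

/-- the factors -/
noncomputable def Mm (F : PowerSeries ℂ) (a : ℂ) : PowerSeries ℂ := dv (F - expI a)

theorem X_Mm {F : PowerSeries ℂ} (h : PowerSeries.coeff 0 F = 1) (a : ℂ) :
    PowerSeries.X * Mm F a = F - expI a := by
  unfold Mm
  apply X_dv
  rw [map_sub, h, expI_zero, sub_self]

theorem Mm_zero {F : PowerSeries ℂ} (a : ℂ) :
    PowerSeries.coeff 0 (Mm F a) = PowerSeries.coeff 1 F - a * Complex.I := by
  unfold Mm
  rw [dv_coeff, map_sub, expI_one]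

theorem re_ne {y : ℝ} {a : ℝ} (ha : a ≠ 0) : ((y : ℂ) - (a : ℂ) * Complex.I) ≠ 0 := by
  intro h
  have := congrArg Complex.im h
  simp at this
  exact ha this

theorem ccm {A : PowerSeries ℂ} (h : PowerSeries.coeff 0 A ≠ 0) : A * A⁻¹ = 1 := by
  apply PowerSeries.mul_inv_cancel
  rwa [← PowerSeries.coeff_zero_eq_constantCoeff_apply]

/-- the logarithmic derivative of the polynomial -/
theorem PV (hF : Fs n x T B R) (hD : Fd c n x T B R T' Bp Ap) (u : ℝ) :
    ((T u - 1) ^ 2 + kc * T u) * Vvc T R T' Bp u = Eu kc * T' u := by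
  have hTi : T u * (T u)⁻¹ = 1 := ccm (by rw [hF.T0]; exact one_ne_zero)
  have hT0 : T u ≠ 0 := by
    intro h0
    have := hF.T0 u
    rw [h0, map_zero] at this
    exact zero_ne_one this
  have h1 : Eu ((T u - 1) ^ 2 + kc * T u) = ((T u - 1) ^ 2 + kc * T u) * (2 + Eu (lgs (R u))) := by
    rw [← hF.rl u, Eu_mul, Eu_mul, Eu_mul, Eu_X, Eu_C, ← Eu_lgs (hF.R0 u)]
    ring
  have h2 : Eu ((T u - 1) ^ 2 + kc * T u) = 2 * (T u - 1) * Eu (T u) + Eu kc * T u + kc * Eu (T u) := by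
    have e : Eu (T u - 1) = Eu (T u) := by
      have e1 : T u = (T u - 1) + PowerSeries.C 1 := by rw [map_one]; ring
      conv_rhs => rw [e1, Eu_add, Eu_C, add_zero]
    rw [Eu_add, Eu_mul, pow_two, Eu_mul, e]
    ring
  have h3 := Eu_lgs (hF.T0 u)
  have h4 := hD.PB u
  apply mul_left_cancel₀ hT0
  unfold Vvc
  rw [h1] at h2
  linear_combination (T' u * (T u * (T u)⁻¹)) * h2
    - ((T u - 1) ^ 2 + kc * T u) * Bp u * h3 - Eu (T u) * h4
    + (T' u * (2 * (T u - 1) * Eu (T u) + Eu kc * T u + kc * Eu (T u))) * hTi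

theorem kc_eq : (kc : PowerSeries ℂ) = 2 - (expI 3 + expI (-3)) := rfl

theorem expI_inv (a : ℂ) : expI a * expI (-a) = 1 := by
  rw [expI_mul, add_neg_cancel]
  ext k
  rw [e4_expI]
  rcases k with _ | k
  · simp
  · simp [PowerSeries.coeff_one]

theorem T'0 (hF : Fs n x T B R) (hD : Fd c n x T B R T' Bp Ap) (u : ℝ) :
    PowerSeries.coeff 0 (T' u) = 0 := hD.nT.dk (k := 0) (a := 1) hF.T0 u

theorem V_form (hF : Fs n x T B R) (hD : Fd c n x T B R T' Bp Ap) (u : ℝ) :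
    Vvc T R T' Bp u = PowerSeries.C (-3 * Complex.I) * (PowerSeries.X
      * (dv (T' u) * (Mm (T u) 3)⁻¹ - dv (T' u) * (Mm (T u) (-3))⁻¹)) := by
  have hM3 : PowerSeries.coeff 0 (Mm (T u) 3) ≠ 0 := by
    rw [Mm_zero, hF.T1]
    exact_mod_cast re_ne (y := x u) (a := 3) (by norm_num)
  have hM3' : PowerSeries.coeff 0 (Mm (T u) (-3)) ≠ 0 := by
    rw [Mm_zero, hF.T1]
    have := re_ne (y := x u) (a := -3) (by norm_num)
    push_cast at this
    exact this
  have i1 := ccm hM3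
  have i2 := ccm hM3'
  have x1 := X_Mm (hF.T0 u) 3
  have x2 := X_Mm (hF.T0 u) (-3)
  have x3 : PowerSeries.X * dv (T' u) = T' u := X_dv (T'0 hF hD u)
  have ee := expI_inv 3
  have hpv := PV hF hD u
  have hP : (T u - 1) ^ 2 + kc * T u
      = PowerSeries.X * (PowerSeries.X * (Mm (T u) 3 * Mm (T u) (-3))) := by
    have : PowerSeries.X * (PowerSeries.X * (Mm (T u) 3 * Mm (T u) (-3)))
        = (PowerSeries.X * Mm (T u) 3) * (PowerSeries.X * Mm (T u) (-3)) := by ring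
    rw [this, x1, x2, kc_eq]
    linear_combination (-1 : PowerSeries ℂ) * ee
  have hk : Eu kc = PowerSeries.C (-3 * Complex.I) * (PowerSeries.X * (expI 3 - expI (-3))) := by
    rw [kc_eq]
    have e1 : Eu ((2 : PowerSeries ℂ) - (expI 3 + expI (-3))) = -(Eu (expI 3) + Eu (expI (-3))) := by
      have e2 : (2 : PowerSeries ℂ) - (expI 3 + expI (-3))
          = PowerSeries.C 2 + PowerSeries.C (-1) * (expI 3 + expI (-3)) := by
        rw [map_neg, map_one, (map_ofNat PowerSeries.C 2 : PowerSeries.C (2 : ℂ) = 2)]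
        ring
      rw [e2, Eu_add, Eu_C, Eu_mul, Eu_C, Eu_add, map_neg, map_one]
      ring
    rw [e1, Eu_expI, Eu_expI]
    have e3 : PowerSeries.C ((-3 : ℂ) * Complex.I) = -PowerSeries.C (3 * Complex.I) := by
      rw [← map_neg]; congr 1; ring
    rw [e3]
    ring
  have hne : (PowerSeries.X : PowerSeries ℂ) ≠ 0 := PowerSeries.X_ne_zero
  have hm1 : Mm (T u) 3 ≠ 0 := fun h => hM3 (by rw [h, map_zero])
  have hm2 : Mm (T u) (-3) ≠ 0 := fun h => hM3' (by rw [h, map_zero])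
  rw [hP, hk] at hpv
  have hE : (expI 3 - expI (-3) : PowerSeries ℂ)
      = PowerSeries.X * (Mm (T u) (-3) - Mm (T u) 3) := by
    rw [mul_sub, x1, x2]; ring
  rw [hE, ← x3] at hpv
  have hx3 : PowerSeries.X * (PowerSeries.X * (Mm (T u) 3 * Mm (T u) (-3))) ≠ 0 :=
    mul_ne_zero hne (mul_ne_zero hne (mul_ne_zero hm1 hm2))
  apply mul_left_cancel₀ hx3
  rw [hpv]
  have hdd : dv (PowerSeries.X * dv (T' u)) = dv (T' u) := by rw [x3]
  generalize dv (T' u) = D at *
  generalize Mm (T u) 3 = M1 at *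
  generalize Mm (T u) (-3) = M2 at *
  linear_combination (-PowerSeries.C (-3 * Complex.I) * PowerSeries.X ^ 3 * D * M2) * i1
    + (PowerSeries.C (-3 * Complex.I) * PowerSeries.X ^ 3 * D * M1) * i2

/-! ## the logarithms of the factors -/

/-- the normalised factor -/
noncomputable def Mh (F : PowerSeries ℂ) (a : ℂ) : PowerSeries ℂ :=
  PowerSeries.C ((PowerSeries.coeff 1 F - a * Complex.I)⁻¹) * Mm F a

theorem Mh_zero {F : PowerSeries ℂ} {a : ℂ} (h : PowerSeries.coeff 1 F - a * Complex.I ≠ 0) :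
    PowerSeries.coeff 0 (Mh F a) = 1 := by
  unfold Mh
  rw [PowerSeries.coeff_C_mul, Mm_zero, inv_mul_cancel₀ h]

theorem nc_inv {x : ℝ → ℝ} (hx : Nice x) {K : ℝ} (bx : ∀ u, |x u| ≤ K) {a : ℝ} (ha : a ^ 2 = 9) :
    ∃ w', Nc (fun u => ((x u : ℂ) - (a : ℂ) * Complex.I)⁻¹) w' := by
  have hφ : ContDiff ℝ 1 (fun y : ℝ => (9 + y ^ 2)⁻¹) :=
    ContDiff.inv (by fun_prop) fun y => by positivity
  obtain ⟨nw, -⟩ := a4_comp hφ hx bx
  have bw : ∀ u, |(9 + x u ^ 2)⁻¹| ≤ 1 := fun u => by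
    have hp : 0 < 9 + x u ^ 2 := by positivity
    rw [abs_of_pos (inv_pos.2 hp)]
    apply inv_le_one_of_one_le₀
    nlinarith [_root_.sq_nonneg (x u)]
  have h1 := (Nc.real nw bw).mul ((Nc.real hx bx).add (Nc.const ((a : ℂ) * Complex.I)))
  refine ⟨_, h1.congr ?_ rfl⟩
  funext u
  have ha0 : a ≠ 0 := by intro h; rw [h] at ha; norm_num at ha
  have hne := re_ne (y := x u) ha0
  have hp : ((9 + x u ^ 2 : ℝ) : ℂ) ≠ 0 := by
    have : (0 : ℝ) < 9 + x u ^ 2 := by positivity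
    exact_mod_cast this.ne'
  rw [inv_eq_iff_eq_inv, mul_inv, Complex.ofReal_inv, inv_inv]
  have hne2 : ((x u : ℂ) + (a : ℂ) * Complex.I) ≠ 0 := by
    have := re_ne (y := x u) (a := -a) (neg_ne_zero.2 ha0)
    push_cast at this
    rwa [neg_mul, sub_neg_eq_add] at this
  rw [eq_mul_inv_iff_mul_eq₀ hne2]
  have e : (a : ℂ) ^ 2 = 9 := by exact_mod_cast ha
  have hI : Complex.I ^ 2 = -1 := Complex.I_sq
  push_cast
  linear_combination (-(a : ℂ) ^ 2) * hI + e

theorem mh_log (hF : Fs n x T B R) (hD : Fd c n x T B R T' Bp Ap) {a : ℝ} (ha : a ^ 2 = 9) {k : ℕ}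
    (hk : 1 ≤ k) : Nc (fun u => PowerSeries.coeff k (lgs (Mh (T u) a)))
      (fun u => PowerSeries.coeff k (dv (T' u) * (Mm (T u) a)⁻¹)) := by
  obtain ⟨y, b, hs⟩ := hF.sys
  obtain ⟨bx, -⟩ := sys_bounds (by omega) hs
  obtain ⟨w', hw⟩ := nc_inv hs.niceX bx ha
  have ha0 : a ≠ 0 := by intro h; rw [h] at ha; norm_num at ha
  have hne : ∀ u, PowerSeries.coeff 1 (T u) - (a : ℂ) * Complex.I ≠ 0 := fun u => by
    rw [hF.T1]; exact re_ne ha0
  have nM : Ncs (fun u => Mm (T u) a) (fun u => dv (T' u)) := by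
    intro j
    refine ((hD.nT (j + 1)).add (Nc.const (-(PowerSeries.coeff (j + 1) (expI a))))).congr ?_ ?_
    · funext u
      unfold Mm
      rw [dv_coeff, map_sub]
      ring
    · funext u
      rw [dv_coeff, add_zero]
  have hw' : Nc (fun u => (PowerSeries.coeff 1 (T u) - (a : ℂ) * Complex.I)⁻¹) w' :=
    hw.congr (by funext u; rw [hF.T1]) rfl
  have nMh : Ncs (fun u => Mh (T u) a) (fun u => PowerSeries.C (w' u) * Mm (T u) a
      + PowerSeries.C ((PowerSeries.coeff 1 (T u) - (a : ℂ) * Complex.I)⁻¹) * dv (T' u)) :=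
    (Ncs.C hw').mul nM
  refine ((nMh.lgs fun u => Mh_zero (hne u)) k).congr rfl ?_
  funext u
  beta_reduce
  have i1 : Mm (T u) a * (Mm (T u) a)⁻¹ = 1 := ccm (by rw [Mm_zero]; exact hne u)
  have i2 : Mh (T u) a * (Mh (T u) a)⁻¹ = 1 := ccm (by rw [Mh_zero (hne u)]; exact one_ne_zero)
  have i3 : PowerSeries.C ((PowerSeries.coeff 1 (T u) - (a : ℂ) * Complex.I)⁻¹)
      * PowerSeries.C (PowerSeries.coeff 1 (T u) - (a : ℂ) * Complex.I) = 1 := by
    rw [← map_mul, inv_mul_cancel₀ (hne u), map_one]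
  have i4 : (Mh (T u) a)⁻¹ = PowerSeries.C (PowerSeries.coeff 1 (T u) - (a : ℂ) * Complex.I)
      * (Mm (T u) a)⁻¹ := by
    have hne0 : Mh (T u) a ≠ 0 := by
      intro h0
      rw [h0, zero_mul] at i2
      exact zero_ne_one i2
    apply mul_left_cancel₀ hne0
    rw [i2]
    unfold Mh
    linear_combination (-(Mm (T u) a * (Mm (T u) a)⁻¹)) * i3 - i1
  have i5 : (PowerSeries.C (w' u) * Mm (T u) a
      + PowerSeries.C ((PowerSeries.coeff 1 (T u) - (a : ℂ) * Complex.I)⁻¹) * dv (T' u))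
      * (Mh (T u) a)⁻¹ = PowerSeries.C (w' u * (PowerSeries.coeff 1 (T u) - (a : ℂ) * Complex.I))
        + dv (T' u) * (Mm (T u) a)⁻¹ := by
    rw [i4, map_mul]
    linear_combination (PowerSeries.C (w' u)
      * PowerSeries.C (PowerSeries.coeff 1 (T u) - (a : ℂ) * Complex.I)) * i1
      + (dv (T' u) * (Mm (T u) a)⁻¹) * i3
  rw [i5, map_add, PowerSeries.coeff_C, if_neg (by omega), zero_add]

theorem lgs_tendsto {F : ℝ → PowerSeries ℂ} {G : PowerSeries ℂ} {l : Filter ℝ}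
    (h0 : ∀ u, PowerSeries.coeff 0 (F u) = 1) (hG : PowerSeries.coeff 0 G = 1)
    (h : ∀ k, Tendsto (fun u => PowerSeries.coeff k (F u)) l (𝓝 (PowerSeries.coeff k G))) (k : ℕ) :
    Tendsto (fun u => PowerSeries.coeff k (lgs (F u))) l (𝓝 (PowerSeries.coeff k (lgs G))) := by
  induction k using Nat.strong_induction_on with
  | _ k ih =>
    rcases Nat.eq_zero_or_pos k with rfl | hk
    · simp only [lgs_zero]; exact tendsto_const_nhds
    · have e1 : (fun u => PowerSeries.coeff k (lgs (F u))) = fun u => PowerSeries.coeff k (F u)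
          - ∑ j ∈ Finset.Ico 1 k, ((j : ℂ) / k) * PowerSeries.coeff j (lgs (F u))
            * PowerSeries.coeff (k - j) (F u) := by
        funext u
        rw [lgs_rec (h0 u) hk]
        ring
      have e2 : PowerSeries.coeff k (lgs G) = PowerSeries.coeff k G
          - ∑ j ∈ Finset.Ico 1 k, ((j : ℂ) / k) * PowerSeries.coeff j (lgs G)
            * PowerSeries.coeff (k - j) G := by
        rw [lgs_rec hG hk]
        ring
      rw [e1, e2]
      refine (h k).sub (tendsto_finset_sum _ fun j hj => ?_)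
      exact ((ih j (Finset.mem_Ico.1 hj).2).const_mul _).mul (h (k - j))

theorem Tinf_zero : PowerSeries.coeff 0 Tinf = 1 := by
  unfold Tinf
  rw [map_sub, map_neg, PowerSeries.coeff_C_mul, PowerSeries.coeff_C_mul, expI_zero, expI_zero]
  linear_combination (-1 : ℂ) * e4_om1

theorem Tinf_one : PowerSeries.coeff 1 Tinf = ((√3 : ℝ) : ℂ) := by
  unfold Tinf
  rw [map_sub, map_neg, PowerSeries.coeff_C_mul, PowerSeries.coeff_C_mul, expI_one, expI_one]
  have hI : Complex.I ^ 2 = -1 := Complex.I_sq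
  linear_combination (-Complex.I) * e4_omI - (√3 : ℂ) * hI

theorem Tinf_rel : Mh Tinf 3 = expI 2 * Mh Tinf (-3) := by
  have h1 : Tinf - expI 3 = PowerSeries.C (om ^ 2) * (expI 2 * (Tinf - expI (-3))) := by
    unfold Tinf
    have e1 : expI 2 * expI 1 = expI 3 := by rw [expI_mul]; norm_num
    have e2 : expI 2 * expI (-1) = expI 1 := by rw [expI_mul]; norm_num
    have e3 : expI 2 * expI (-3) = expI (-1) := by rw [expI_mul]; norm_num
    have o3 : PowerSeries.C (om ^ 2) * PowerSeries.C om = (1 : PowerSeries ℂ) := by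
      rw [← map_mul, ← pow_succ, e4_om3, map_one]
    have o4 : PowerSeries.C (om ^ 2) * PowerSeries.C (om ^ 2) = PowerSeries.C om := by
      rw [← map_mul]; congr 1; linear_combination om * e4_om3
    linear_combination (PowerSeries.C (om ^ 2) * PowerSeries.C om) * e1
      + (PowerSeries.C (om ^ 2) * PowerSeries.C (om ^ 2)) * e2
      + (PowerSeries.C (om ^ 2)) * e3 + (expI 3) * o3 + (expI 1) * o4
  have x1 := X_Mm Tinf_zero 3
  have x2 := X_Mm Tinf_zero (-3)
  have hne : (PowerSeries.X : PowerSeries ℂ) ≠ 0 := PowerSeries.X_ne_zero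
  have h2 : Mm Tinf 3 = PowerSeries.C (om ^ 2) * (expI 2 * Mm Tinf (-3)) := by
    apply mul_left_cancel₀ hne
    rw [x1, h1]
    linear_combination (-PowerSeries.C (om ^ 2) * expI 2) * x2
  have h3 := congrArg (PowerSeries.coeff 0) h2
  rw [PowerSeries.coeff_C_mul, e4_mul0, expI_zero, Mm_zero, Mm_zero, Tinf_one, one_mul] at h3
  have n1 : ((√3 : ℝ) : ℂ) - 3 * Complex.I ≠ 0 := by
    exact_mod_cast re_ne (y := √3) (a := 3) (by norm_num)
  have n2 : ((√3 : ℝ) : ℂ) - -3 * Complex.I ≠ 0 := by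
    have := re_ne (y := √3) (a := -3) (by norm_num)
    push_cast at this
    exact this
  unfold Mh
  rw [Tinf_one, h2]
  have h4 : (((√3 : ℝ) : ℂ) - 3 * Complex.I)⁻¹ * om ^ 2 = (((√3 : ℝ) : ℂ) - -3 * Complex.I)⁻¹ := by
    have j1 := mul_inv_cancel₀ n1
    have j2 := mul_inv_cancel₀ n2
    apply mul_left_cancel₀ n1
    apply mul_left_cancel₀ n2
    linear_combination (om ^ 2 * (((√3 : ℝ) : ℂ) - -3 * Complex.I)) * j1
      - (((√3 : ℝ) : ℂ) - 3 * Complex.I) * j2 - h3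
  have h5 : PowerSeries.C ((((√3 : ℝ) : ℂ) - 3 * Complex.I)⁻¹) * PowerSeries.C (om ^ 2)
      = PowerSeries.C ((((√3 : ℝ) : ℂ) - -3 * Complex.I)⁻¹) := by
    rw [← map_mul, h4]
  linear_combination (expI 2 * Mm Tinf (-3)) * h5

theorem lam_inf {k : ℕ} (hk : 2 ≤ k) : PowerSeries.coeff k (lgs (Mh Tinf 3))
    = PowerSeries.coeff k (lgs (Mh Tinf (-3))) := by
  have n2 : PowerSeries.coeff 1 Tinf - -3 * Complex.I ≠ 0 := by
    rw [Tinf_one]
    have := re_ne (y := √3) (a := -3) (by norm_num)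
    push_cast at this
    exact this
  rw [Tinf_rel, lgs_mul (expI_zero 2) (Mh_zero n2), map_add, lgs_expI]
  rw [PowerSeries.coeff_C_mul, PowerSeries.coeff_X, if_neg (by omega)]
  ring

/-- the integral of the right side -/
theorem V_val (hF : Fs n x T B R) (hD : Fd c n x T B R T' Bp Ap) {k : ℕ} (hk : 2 ≤ k) :
    ∫ u in Ioi (0 : ℝ), PowerSeries.coeff (k + 1) (Vvc T R T' Bp u)
      = 3 * Complex.I * (PowerSeries.coeff k (lgs (Mh (T 0) 3))
        - PowerSeries.coeff k (lgs (Mh (T 0) (-3)))) := by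
  have e1 : ∀ u, PowerSeries.coeff (k + 1) (Vvc T R T' Bp u) = -3 * Complex.I
      * (PowerSeries.coeff k (dv (T' u) * (Mm (T u) ((3 : ℝ) : ℂ))⁻¹)
        - PowerSeries.coeff k (dv (T' u) * (Mm (T u) ((-3 : ℝ) : ℂ))⁻¹)) := by
    intro u
    rw [V_form hF hD u, PowerSeries.coeff_C_mul, PowerSeries.coeff_succ_X_mul, map_sub]
    push_cast
    rfl
  have n1 := mh_log hF hD (a := 3) (by norm_num) (show 1 ≤ k by omega)
  have n2 := mh_log hF hD (a := -3) (by norm_num) (show 1 ≤ k by omega)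
  have n3 := n1.add (n2.neg)
  have ht : ∀ a : ℝ, a ≠ 0 → Tendsto (fun u => PowerSeries.coeff k (lgs (Mh (T u) a))) atTop
      (𝓝 (PowerSeries.coeff k (lgs (Mh Tinf a)))) := by
    intro a ha
    have hne : ∀ u, PowerSeries.coeff 1 (T u) - (a : ℂ) * Complex.I ≠ 0 := fun u => by
      rw [hF.T1]; exact re_ne ha
    have hne' : PowerSeries.coeff 1 Tinf - (a : ℂ) * Complex.I ≠ 0 := by
      rw [Tinf_one]; exact re_ne ha
    refine lgs_tendsto (fun u => Mh_zero (hne u)) (Mh_zero hne') (fun j => ?_) k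
    unfold Mh
    simp only [PowerSeries.coeff_C_mul]
    refine Tendsto.mul (((hF.top 1).sub_const _).inv₀ hne') ?_
    unfold Mm
    simp only [dv_coeff, map_sub]
    exact (hF.top (j + 1)).sub_const _
  have h1 := ht 3 (by norm_num)
  have h2 := ht (-3) (by norm_num)
  have h3 := h1.add h2.neg
  have e3 : ((3 : ℝ) : ℂ) = 3 := by norm_num
  have e4 : ((-3 : ℝ) : ℂ) = -3 := by norm_num
  have h4 : PowerSeries.coeff k (lgs (Mh Tinf ((3 : ℝ) : ℂ)))
      + -PowerSeries.coeff k (lgs (Mh Tinf ((-3 : ℝ) : ℂ))) = 0 := by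
    rw [e3, e4, lam_inf hk]; ring
  rw [h4] at h3
  have h5 := integral_Ioi_of_hasDerivAt_of_tendsto (a := (0 : ℝ)) n3.cont.continuousWithinAt
    (fun u _ => n3.d u) n3.i.integrableOn h3
  simp only [e1]
  rw [integral_const_mul]
  have e6 : (fun u => PowerSeries.coeff k (dv (T' u) * (Mm (T u) ((3 : ℝ) : ℂ))⁻¹)
        - PowerSeries.coeff k (dv (T' u) * (Mm (T u) ((-3 : ℝ) : ℂ))⁻¹))
      = fun u => PowerSeries.coeff k (dv (T' u) * (Mm (T u) ((3 : ℝ) : ℂ))⁻¹)
        + -PowerSeries.coeff k (dv (T' u) * (Mm (T u) ((-3 : ℝ) : ℂ))⁻¹) := by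
    funext u; ring
  rw [e6, h5, e3, e4]
  ring

end H729I
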