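import Pool.Agent.Run7.h729.Iso.Dil7

/-!
# The value at the symmetric point
-/

set_option autoImplicit false

namespace H729I
open H906K MeasureTheory Set Filter Topology

section
variable {r C D : ℝ} {w : ℝ → ℝ} {F G : ℝ → PowerSeries ℂ}

theorem MB.le {r' : ℝ} (h0 : 0 ≤ r') (hr : r' ≤ r) (hF : MB r C w F) : MB r' C w F := by
  obtain ⟨f, f0, fs, hf⟩ := hF
  refine ⟨f, f0, fs, fun k u => le_trans ?_ (hf k u)⟩
  exact mul_le_mul_of_nonneg_left (pow_le_pow_left₀ h0 hr k) (norm_nonneg _)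

theorem MB.shrink {r' : ℝ} (h0 : 0 < r') (hr : r' ≤ r) (hz : ∀ u, PowerSeries.coeff 0 (F u) = 0)
    (hw : ∀ u, 0 ≤ w u) (hF : MB r C w F) : MB r' (r' / r * C) w F := by
  obtain ⟨f, f0, fs, hf⟩ := hF
  have hr0 : 0 < r := h0.trans_le hr
  refine ⟨fun k => r' / r * f k, fun k => mul_nonneg (by positivity) (f0 k), fun K => ?_,
    fun k u => ?_⟩
  · rw [ps_mul]; exact mul_le_mul_of_nonneg_left (fs K) (by positivity)
  · rcases k with _ | k
    · rw [hz, norm_zero, zero_mul]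
      exact mul_nonneg (mul_nonneg (by positivity) (f0 0)) (hw u)
    · have h1 := hf (k + 1) u
      have h2 : r' ^ (k + 1) ≤ r' / r * r ^ (k + 1) := by
        have e : r' / r * r ^ (k + 1) = r' * r ^ k := by
          rw [pow_succ]; field_simp
        rw [e, pow_succ, mul_comm]
        exact mul_le_mul_of_nonneg_left (pow_le_pow_left₀ h0.le hr k) h0.le
      calc ‖PowerSeries.coeff (k + 1) (F u)‖ * r' ^ (k + 1)
          ≤ ‖PowerSeries.coeff (k + 1) (F u)‖ * (r' / r * r ^ (k + 1)) :=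
            mul_le_mul_of_nonneg_left h2 (norm_nonneg _)
        _ = r' / r * (‖PowerSeries.coeff (k + 1) (F u)‖ * r ^ (k + 1)) := by ring
        _ ≤ r' / r * (f (k + 1) * w u) := mul_le_mul_of_nonneg_left h1 (by positivity)
        _ = _ := by ring

theorem MB.sub0 (hw : ∀ u, 0 ≤ w u) (hF : MB r C w F) :
    MB r C w (fun u => F u - PowerSeries.C (PowerSeries.coeff 0 (F u))) := by
  obtain ⟨f, f0, fs, hf⟩ := hF
  refine ⟨f, f0, fs, fun k u => ?_⟩
  rw [map_sub, PowerSeries.coeff_C]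
  split_ifs with hk
  · subst hk
    rw [sub_self, norm_zero, zero_mul]
    exact mul_nonneg (f0 0) (hw u)
  · rw [sub_zero]; exact hf k u

theorem MB.ex (hr : 0 ≤ r) (hw : ∀ u, 0 ≤ w u) (h0 : ∀ u, PowerSeries.coeff 0 (F u) = 1)
    (hL : MB r C w (fun u => H729I.lgs (F u))) (hF : MB r D (fun _ => 1) F) :
    MB r (C * D) w (fun u => F u - 1) := by
  have hC := hL.nonneg
  obtain ⟨l, l0, ls, hl⟩ := hL
  obtain ⟨f, f0, fs, hf⟩ := hF
  refine ⟨cv l f, cv_nonneg l0 f0, fun K =>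
    (cv_le' l0 f0 K).trans (mul_le_mul (ls K) (fs K) (ps_nonneg f0 K) hC), fun k u => ?_⟩
  rcases Nat.eq_zero_or_pos k with rfl | hk
  · rw [map_sub, h0, PowerSeries.coeff_one, if_pos rfl, sub_self, norm_zero, zero_mul]
    exact mul_nonneg (cv_nonneg l0 f0 0) (hw u)
  have hk0 : (k : ℂ) ≠ 0 := by exact_mod_cast (by omega : k ≠ 0)
  have hkr : (0 : ℝ) < k := by exact_mod_cast hk
  have h1 := congrArg (PowerSeries.coeff k) (Eu_lgs (h0 u))
  rw [mul_comm, PowerSeries.coeff_mul, Finset.Nat.sum_antidiagonal_eq_sum_range_succ (fun i j =>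
      PowerSeries.coeff i (Eu (H729I.lgs (F u))) * PowerSeries.coeff j (F u)), Eu_coeff] at h1
  have h2 : PowerSeries.coeff k (F u - 1) = ∑ j ∈ Finset.range (k + 1),
      ((j : ℂ) / k) * PowerSeries.coeff j (H729I.lgs (F u)) * PowerSeries.coeff (k - j) (F u) := by
    rw [map_sub, PowerSeries.coeff_one, if_neg (by omega), sub_zero]
    apply mul_left_cancel₀ hk0
    rw [← h1, Finset.mul_sum]
    refine Finset.sum_congr rfl fun j _ => ?_
    rw [Eu_coeff]
    field_simp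
  rw [h2]
  unfold cv
  rw [Finset.sum_mul]
  refine (mul_le_mul_of_nonneg_right (norm_sum_le _ _) (pow_nonneg hr k)).trans ?_
  rw [Finset.sum_mul]
  refine Finset.sum_le_sum fun j hj => ?_
  have hj' : j ≤ k := by have := Finset.mem_range.1 hj; omega
  have hjk : ‖((j : ℂ) / k)‖ ≤ 1 := by
    rw [norm_div, Complex.norm_natCast, Complex.norm_natCast, div_le_one hkr]
    exact_mod_cast hj'
  have h3 := hl j u
  have h4 := hf (k - j) u
  rw [mul_one] at h4
  have e : r ^ k = r ^ j * r ^ (k - j) := by rw [← pow_add]; congr 1; omega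
  rw [norm_mul, norm_mul, e]
  calc ‖((j : ℂ) / k)‖ * ‖PowerSeries.coeff j (H729I.lgs (F u))‖ * ‖PowerSeries.coeff (k - j) (F u)‖
        * (r ^ j * r ^ (k - j))
      ≤ 1 * ‖PowerSeries.coeff j (H729I.lgs (F u))‖ * ‖PowerSeries.coeff (k - j) (F u)‖
        * (r ^ j * r ^ (k - j)) := by gcongr
    _ = (‖PowerSeries.coeff j (H729I.lgs (F u))‖ * r ^ j)
        * (‖PowerSeries.coeff (k - j) (F u)‖ * r ^ (k - j)) := by ring
    _ ≤ (l j * w u) * f (k - j) := mul_le_mul h3 h4 (by positivity) (mul_nonneg (l0 j) (hw u))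
    _ = _ := by ring

end

/-- a small radius for the inverse -/
theorem inv_small {F : PowerSeries ℂ} (h0 : PowerSeries.coeff 0 F = 1) {r : ℝ} (hr : 0 < r)
    (h : Su r F) : ∃ r', 0 < r' ∧ r' ≤ r ∧ MB r' 2 (fun _ => 1) (fun _ : ℝ => F⁻¹) := by
  have h1 := MB.su hr.le h
  set A : ℝ := ∑' k, ‖PowerSeries.coeff k F‖ * r ^ k with hA
  have hA0 : 0 ≤ A := h1.nonneg
  have h2 : MB r (A + 1) (fun _ => 1) (fun _ : ℝ => F - 1) :=
    (h1.add hr.le (MB.one (r := r)).neg).congr fun _ => by ring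
  refine ⟨min r (r / (2 * (A + 1))), lt_min hr (by positivity), min_le_left _ _, ?_⟩
  set r' := min r (r / (2 * (A + 1))) with hr'
  have hr'0 : 0 < r' := lt_min hr (by positivity)
  have h3 := h2.shrink hr'0 (min_le_left _ _) (fun _ => by
    rw [map_sub, h0, PowerSeries.coeff_one, if_pos rfl, sub_self]) (fun _ => zero_le_one)
  have h4 : r' / r * (A + 1) ≤ 1 / 2 := by
    have : r' ≤ r / (2 * (A + 1)) := min_le_right _ _
    rw [div_mul_eq_mul_div, div_le_iff₀ hr]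
    rw [le_div_iff₀ (by positivity)] at this
    linarith
  exact (MB.inv hr'0.le (fun _ => h0) (by norm_num) (h3.mono h4)).mono (by norm_num)

noncomputable def Qa (a : ℂ) : PowerSeries ℂ := dv (1 - expI a)

theorem X_Qa (a : ℂ) : PowerSeries.X * Qa a = 1 - expI a := by
  unfold Qa
  apply X_dv
  rw [map_sub, expI_zero, PowerSeries.coeff_one, if_pos rfl, sub_self]

theorem Qa_zero (a : ℂ) : PowerSeries.coeff 0 (Qa a) = -(a * Complex.I) := by
  unfold Qa
  rw [dv_coeff, map_sub, expI_one, PowerSeries.coeff_one, if_neg (by norm_num), zero_sub]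

theorem Mm_split {F : PowerSeries ℂ} (h : PowerSeries.coeff 0 F = 1) (a : ℂ) :
    Mm F a = dv (F - 1) + Qa a := by
  have hne : (PowerSeries.X : PowerSeries ℂ) ≠ 0 := PowerSeries.X_ne_zero
  apply mul_left_cancel₀ hne
  rw [mul_add, X_Mm h, X_Qa, X_dv (by rw [map_sub, h, PowerSeries.coeff_one, if_pos rfl, sub_self])]
  ring

/-- the normalised quotients -/
noncomputable def Qh (a : ℂ) : PowerSeries ℂ := PowerSeries.C ((-(a * Complex.I))⁻¹) * Qa a

theorem Qh_zero {a : ℂ} (ha : a ≠ 0) : PowerSeries.coeff 0 (Qh a) = 1 := by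
  unfold Qh
  rw [PowerSeries.coeff_C_mul, Qa_zero, inv_mul_cancel₀ (neg_ne_zero.2 (mul_ne_zero ha Complex.I_ne_zero))]

theorem Qh_rel : Qh 3 = expI 3 * Qh (-3) := by
  have h1 : Qa 3 = -(expI 3 * Qa (-3)) := by
    have hne : (PowerSeries.X : PowerSeries ℂ) ≠ 0 := PowerSeries.X_ne_zero
    apply mul_left_cancel₀ hne
    have h2 := X_Qa (-3)
    rw [X_Qa]
    have h3 := expI_inv 3
    linear_combination (expI 3) * h2 - h3
  unfold Qh
  rw [h1]
  have h4 : (-((-3 : ℂ) * Complex.I))⁻¹ = -(-((3 : ℂ) * Complex.I))⁻¹ := by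
    rw [← inv_neg]; congr 1; ring
  rw [h4, map_neg]
  ring

theorem Qh_su (a : ℂ) : Su 1 (Qh a) := by
  have hr : (0 : ℝ) ≤ 1 := zero_le_one
  have h1 : Su 1 (1 - expI a) := by
    rw [sub_eq_add_neg]
    have e : (1 : PowerSeries ℂ) = PowerSeries.C 1 := (map_one _).symm
    rw [e]
    exact Su.add hr (su_C 1) (Su.neg (su_expI _ hr a))
  have h2 : Su 1 (Qa a) := by
    unfold Su at h1 ⊢
    have h3 := (summable_nat_add_iff 1).2 h1
    refine h3.congr fun k => ?_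
    unfold Qa
    rw [dv_coeff, one_pow, one_pow]
  unfold Qh
  exact Su.mul hr (su_C _) h2

theorem Qh_lgs {k : ℕ} (hk : 2 ≤ k) : PowerSeries.coeff k (lgs (Qh 3))
    = PowerSeries.coeff k (lgs (Qh (-3))) := by
  rw [Qh_rel, lgs_mul (expI_zero 3) (Qh_zero (by norm_num)), map_add, lgs_expI]
  rw [PowerSeries.coeff_C_mul, PowerSeries.coeff_X, if_neg (by omega)]
  ring

/-- the correction factors -/
theorem Mh_split {F : PowerSeries ℂ} {y a : ℝ} (h0 : PowerSeries.coeff 0 F = 1)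
    (h1 : PowerSeries.coeff 1 F = (y : ℂ)) (ha : a ≠ 0) : ∃ H : PowerSeries ℂ,
    PowerSeries.coeff 0 H = 1 ∧ Mh F a = Qh a * H ∧
    ∃ h : ℂ, ‖h‖ ≤ 1 ∧ H - 1 = PowerSeries.C (h * (-((a : ℂ) * Complex.I))⁻¹)
      * (dv (F - 1) * (Qh a)⁻¹ - PowerSeries.C (PowerSeries.coeff 0 (dv (F - 1) * (Qh a)⁻¹))) := by
  have haC : (a : ℂ) ≠ 0 := by exact_mod_cast ha
  set q : ℂ := -((a : ℂ) * Complex.I) with hq
  have hq0 : q ≠ 0 := neg_ne_zero.2 (mul_ne_zero haC Complex.I_ne_zero)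
  have hQ0 := Qh_zero haC
  have hQi : Qh a * (Qh a)⁻¹ = 1 := ccm (by rw [hQ0]; exact one_ne_zero)
  have hQi0 : PowerSeries.coeff 0 ((Qh a)⁻¹) = 1 := by
    have := congrArg (PowerSeries.coeff 0) hQi
    rw [e4_mul0, hQ0, one_mul] at this
    simpa using this
  have hδ : PowerSeries.coeff 0 (dv (F - 1)) = (y : ℂ) := by
    rw [dv_coeff, map_sub, h1, PowerSeries.coeff_one, if_neg (by norm_num), sub_zero]
  have hY : PowerSeries.coeff 0 (dv (F - 1) * (Qh a)⁻¹) = (y : ℂ) := by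
    rw [e4_mul0, hδ, hQi0, mul_one]
  have hne : (y : ℂ) - (a : ℂ) * Complex.I ≠ 0 := re_ne ha
  set h : ℂ := q * ((y : ℂ) - (a : ℂ) * Complex.I)⁻¹ with hh
  refine ⟨PowerSeries.C h * (1 + PowerSeries.C q⁻¹ * (dv (F - 1) * (Qh a)⁻¹)), ?_, ?_, h, ?_, ?_⟩
  · rw [PowerSeries.coeff_C_mul, map_add, PowerSeries.coeff_one, if_pos rfl,
      PowerSeries.coeff_C_mul, hY, hh]
    have e : (1 : ℂ) + q⁻¹ * y = q⁻¹ * ((y : ℂ) - (a : ℂ) * Complex.I) := by
      rw [mul_sub]
      have : q⁻¹ * ((a : ℂ) * Complex.I) = -1 := by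
        have e2 : (a : ℂ) * Complex.I = -q := by rw [hq]; ring
        rw [e2, mul_neg, inv_mul_cancel₀ hq0]
      rw [this]; ring
    rw [e]
    field_simp
  · unfold Mh
    rw [Mm_split h0, h1]
    have hQa : Qa (a : ℂ) = PowerSeries.C q * Qh a := by
      unfold Qh
      rw [← mul_assoc, ← map_mul, ← hq, mul_inv_cancel₀ hq0, map_one, one_mul]
    have c1 : PowerSeries.C h = PowerSeries.C q * PowerSeries.C (((y : ℂ) - (a : ℂ) * Complex.I)⁻¹) := by
      rw [← map_mul]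
    have c2 : PowerSeries.C q * PowerSeries.C q⁻¹ = (1 : PowerSeries ℂ) := by
      rw [← map_mul, mul_inv_cancel₀ hq0, map_one]
    rw [hQa, c1]
    linear_combination (-PowerSeries.C (((y : ℂ) - (a : ℂ) * Complex.I)⁻¹) * (dv (F - 1))
        * (Qh (a : ℂ) * (Qh (a : ℂ))⁻¹)) * c2
      - (PowerSeries.C (((y : ℂ) - (a : ℂ) * Complex.I)⁻¹) * dv (F - 1)) * hQi
  · rw [hh, norm_mul, norm_inv, ← div_eq_mul_inv]
    apply div_le_one_of_le₀ _ (norm_nonneg _)
    rw [hq, norm_neg, norm_mul, Complex.norm_I, mul_one, Complex.norm_real, Real.norm_eq_abs]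
    have := Complex.abs_im_le_norm ((y : ℂ) - (a : ℂ) * Complex.I)
    simpa using this
  · rw [hY]
    have e : PowerSeries.C h * PowerSeries.C (1 + q⁻¹ * y) = (1 : PowerSeries ℂ) := by
      rw [← map_mul, hh]
      have e1 : (1 : ℂ) + q⁻¹ * y = q⁻¹ * ((y : ℂ) - (a : ℂ) * Complex.I) := by
        rw [mul_sub]
        have : q⁻¹ * ((a : ℂ) * Complex.I) = -1 := by
          have e2 : (a : ℂ) * Complex.I = -q := by rw [hq]; ring
          rw [e2, mul_neg, inv_mul_cancel₀ hq0]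
        rw [this]; ring
      rw [e1]
      have : q * ((y : ℂ) - (a : ℂ) * Complex.I)⁻¹ * (q⁻¹ * ((y : ℂ) - (a : ℂ) * Complex.I)) = 1 := by
        field_simp
      rw [this, map_one]
    have c3 : PowerSeries.C (1 + q⁻¹ * (y : ℂ)) = 1 + PowerSeries.C q⁻¹ * PowerSeries.C (y : ℂ) := by
      rw [map_add, map_one, map_mul]
    have c4 : PowerSeries.C (h * q⁻¹) = PowerSeries.C h * PowerSeries.C q⁻¹ := map_mul _ _ _
    rw [c3] at e
    rw [c4]
    linear_combination e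

end H729I
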