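import Pool.Agent.Run7.h729.Iso.Dil8

/-!
# The half line integral of the logarithm
-/

set_option autoImplicit false

namespace H729I
open H906K MeasureTheory Set Filter Topology

variable {c : ℝ} {n : ℕ} {x : ℝ → ℝ} {T B R T' Bp Ap : ℝ → PowerSeries ℂ}

theorem kv0_le {f : ℝ → ℂ} {a : ℝ} (hf : ∀ v, ‖f v‖ ≤ a * |ta v| ^ (2 * n + 1)) :
    ‖kv f 0‖ ≤ a * ∫ l : ℝ, |ta l| ^ (2 * n + 1) * Real.exp (-(3 * |l| / 2)) := by
  unfold kv
  rw [← integral_const_mul]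
  refine norm_integral_le_of_norm_le ((wt_int n).1.const_mul a) (ae_of_all _ fun v => ?_)
  rw [norm_mul, Complex.norm_real, Real.norm_eq_abs, zero_sub, kk_even, abs_of_pos (kk_pos v)]
  calc kk v * ‖f v‖ ≤ Real.exp (-(3 * |v| / 2)) * (a * |ta v| ^ (2 * n + 1)) :=
        mul_le_mul (a8_kk_le1 v) (hf v) (norm_nonneg _) (Real.exp_pos _).le
    _ = _ := by ring

theorem nat2 (n : ℕ) : (0 : ℝ) < 2 * (n : ℝ) + 1 := by positivity

/-- the first bound at the symmetric point -/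
theorem lgsT_first {c : ℝ} (hc : 0 < c) : ∃ K : ℝ, 0 < K ∧ ∀ {n : ℕ} {x : ℝ → ℝ}
    {T B R T' Bp Ap : ℝ → PowerSeries ℂ}, Fs n x T B R → Fd c n x T B R T' Bp Ap →
    MB (1 / 10000) (K / (2 * n + 1)) (fun _ => 1) (fun _ : ℝ => lgs (T 0)) := by
  obtain ⟨K0, hK0, h0⟩ := wt_dec
  refine ⟨c * K0, by positivity, ?_⟩
  intro n x T B R T' Bp Ap hF hD
  obtain ⟨a, a0, as, ha⟩ := hD.mA
  have hN := nat2 n
  have h1 := (h0 n hF.n1).1
  refine ⟨fun k => K0 / (2 * n + 1) * a k, fun k => mul_nonneg (by positivity) (a0 k), fun L => ?_,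
    fun k _ => ?_⟩
  · rw [ps_mul]
    have := mul_le_mul_of_nonneg_left (as L) (show 0 ≤ K0 / (2 * (n : ℝ) + 1) by positivity)
    calc _ ≤ K0 / (2 * (n : ℝ) + 1) * c := this
      _ = _ := by ring
  · have hrk : (0 : ℝ) < (1 / 10000) ^ k := by positivity
    have h2 : PowerSeries.coeff k (lgs (T 0)) = kv (fun v => PowerSeries.coeff k (AAc n x B v)) 0 :=
      hF.k1 k 0
    have h3 := kv0_le (n := n) (f := fun v => PowerSeries.coeff k (AAc n x B v))
      (a := a k / (1 / 10000) ^ k) (fun v => by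
        rw [div_mul_eq_mul_div, le_div_iff₀ hrk]
        exact ha k v)
    rw [h2, mul_one]
    calc _ ≤ (a k / (1 / 10000) ^ k * ∫ l : ℝ, |ta l| ^ (2 * n + 1) * Real.exp (-(3 * |l| / 2)))
          * (1 / 10000) ^ k := mul_le_mul_of_nonneg_right h3 hrk.le
      _ = a k * ∫ l : ℝ, |ta l| ^ (2 * n + 1) * Real.exp (-(3 * |l| / 2)) := by field_simp
      _ ≤ a k * (K0 / (2 * n + 1)) := mul_le_mul_of_nonneg_left h1 (a0 k)
      _ = _ := by ring

theorem H_small {K1 : ℝ} (hK1 : 0 < K1) {a : ℝ} (ha : 1 ≤ |a|) : ∃ r2 K : ℝ, 0 < r2 ∧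
    r2 ≤ 1 / 10000 ∧ 0 < K ∧ ∀ {F : PowerSeries ℂ} {y N : ℝ}, 1 ≤ N →
      PowerSeries.coeff 0 F = 1 → PowerSeries.coeff 1 F = (y : ℂ) →
      MB (1 / 10000) (K1 / N) (fun _ => 1) (fun _ : ℝ => F - 1) →
      ∃ H : PowerSeries ℂ, PowerSeries.coeff 0 H = 1 ∧ Mh F a = Qh a * H ∧
        MB r2 (K / N) (fun _ => 1) (fun _ : ℝ => lgs H) := by
  have ha0 : a ≠ 0 := by intro h; rw [h, abs_zero] at ha; linarith
  have haC : (a : ℂ) ≠ 0 := by exact_mod_cast ha0
  obtain ⟨r1, hr1, hr1', hQ⟩ := inv_small (Qh_zero haC) one_pos (Qh_su a)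
  set s : ℝ := min r1 (1 / 10000) with hs
  have hs0 : 0 < s := lt_min hr1 (by norm_num)
  set A : ℝ := K1 / (1 / 10000) * 2 with hA
  have hA0 : 0 < A := by positivity
  set r2 : ℝ := min s (s / (2 * A)) with hr2
  have hr20 : 0 < r2 := lt_min hs0 (by positivity)
  have hr2s : r2 ≤ s := min_le_left _ _
  have one0 : ∀ _ : ℝ, (0 : ℝ) ≤ 1 := fun _ => zero_le_one
  refine ⟨r2, 2 * A, hr20, hr2s.trans (min_le_right _ _), by positivity, ?_⟩
  intro F y N hN h0 h1 hF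
  have hN0 : 0 < N := by linarith
  obtain ⟨H, hH0, hH1, h, hh, hH2⟩ := Mh_split h0 h1 ha0
  refine ⟨H, hH0, hH1, ?_⟩
  have m1 : MB (1 / 10000) (K1 / N / (1 / 10000)) (fun _ => 1) (fun _ : ℝ => dv (F - 1)) :=
    hF.divX (by norm_num) (fun _ => (X_dv (by
      rw [map_sub, h0, PowerSeries.coeff_one, if_pos rfl, sub_self])).symm)
  have m2 : MB s (K1 / N / (1 / 10000) * 2) (fun _ => 1)
      (fun _ : ℝ => dv (F - 1) * (Qh a)⁻¹) :=
    MB.mul hs0.le one0 (m1.le hs0.le (min_le_right _ _)) (hQ.le hs0.le (min_le_left _ _))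
  have m3 := m2.sub0 one0
  have mC : MB s 1 (fun _ => 1) (fun _ : ℝ => PowerSeries.C (h * (-((a : ℂ) * Complex.I))⁻¹)) :=
    MB.cst zero_le_one one0 (f := fun _ => h * (-((a : ℂ) * Complex.I))⁻¹) fun _ => by
      rw [norm_mul, norm_inv, norm_neg, norm_mul, Complex.norm_I, mul_one, Complex.norm_real,
        Real.norm_eq_abs, mul_one]
      have : |a|⁻¹ ≤ 1 := inv_le_one_of_one_le₀ ha
      have h3 : 0 ≤ |a|⁻¹ := by positivity
      nlinarith [norm_nonneg h]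
  have m4 : MB s (1 * (K1 / N / (1 / 10000) * 2)) (fun _ => 1) (fun _ : ℝ => H - 1) :=
    (MB.mul hs0.le one0 mC m3).congr fun _ => hH2
  have e1 : 1 * (K1 / N / (1 / 10000) * 2) = A / N := by rw [hA]; field_simp
  rw [e1] at m4
  have m5 := m4.shrink hr20 hr2s (fun _ => by
    rw [map_sub, hH0, PowerSeries.coeff_one, if_pos rfl, sub_self]) one0
  have hb : r2 / s * (A / N) ≤ 1 / 2 := by
    have h3 : r2 ≤ s / (2 * A) := min_le_right _ _
    have h4 : r2 / s * (A / N) ≤ (s / (2 * A)) / s * (A / 1) := by gcongr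
    refine h4.trans (le_of_eq ?_)
    field_simp
  have hb2 : r2 / s * (A / N) ≤ A / N := by
    have h3 : r2 / s ≤ 1 := by rw [div_le_one hs0]; exact hr2s
    have h4 : 0 ≤ A / N := by positivity
    nlinarith
  have m6 := MB.lgs hr20.le one0 (fun _ => le_rfl) (fun _ : ℝ => hH0) (by linarith) m5
  refine m6.mono ?_
  rw [div_le_iff₀ (by linarith)]
  have h4 : 0 < A / N := by positivity
  have e2 : 2 * A / N = 2 * (A / N) := by ring
  rw [e2]
  nlinarith

/-- the integral of the right side is small -/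
theorem V_small {c : ℝ} (hc : 0 < c) : ∃ r3 K : ℝ, 0 < r3 ∧ r3 ≤ 1 / 10000 ∧ 0 < K ∧
    ∀ {n : ℕ} {x : ℝ → ℝ} {T B R T' Bp Ap : ℝ → PowerSeries ℂ}, Fs n x T B R →
      Fd c n x T B R T' Bp Ap → ∃ G : PowerSeries ℂ,
        MB r3 (K / (2 * n + 1)) (fun _ => 1) (fun _ : ℝ => G) ∧ ∀ k : ℕ, 3 ≤ k →
          ∫ u in Ioi (0 : ℝ), PowerSeries.coeff k (Vvc T R T' Bp u) = PowerSeries.coeff k G := by
  obtain ⟨K1, hK1, h1⟩ := lgsT_first hc
  obtain ⟨ra, Ka, hra, hra', hKa, hA⟩ := H_small (K1 := 2 * K1) (by positivity) (a := 3)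
    (by norm_num)
  obtain ⟨rb, Kb, hrb, hrb', hKb, hB⟩ := H_small (K1 := 2 * K1) (by positivity) (a := -3)
    (by norm_num)
  set r3 : ℝ := min ra rb with hr3
  have hr30 : 0 < r3 := lt_min hra hrb
  have one0 : ∀ _ : ℝ, (0 : ℝ) ≤ 1 := fun _ => zero_le_one
  refine ⟨r3, 3 * (Ka + Kb), hr30, (min_le_left _ _).trans hra', by positivity, ?_⟩
  intro n x T B R T' Bp Ap hF hD
  have hN := nat2 n
  have hN1 : (1 : ℝ) ≤ 2 * n + 1 := by
    have : (0 : ℝ) ≤ n := Nat.cast_nonneg n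
    linarith
  have mT : MB (1 / 10000) 2 (fun _ => 1) (fun _ : ℝ => T 0) := by
    obtain ⟨f, f0, fs, hf⟩ := (MB.one.add (by norm_num : (0 : ℝ) ≤ 1 / 10000) hF.mT)
    refine ⟨f, f0, fun K => (fs K).trans (by norm_num), fun k u => ?_⟩
    have := hf k 0
    beta_reduce at this ⊢
    have e : (1 : PowerSeries ℂ) + (T 0 - 1) = T 0 := by ring
    rw [e] at this
    exact this
  have mF : MB (1 / 10000) (2 * K1 / (2 * n + 1)) (fun _ => 1) (fun _ : ℝ => T 0 - 1) :=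
    (MB.ex (by norm_num) one0 (fun _ : ℝ => hF.T0 0) (h1 hF hD) mT).mono
      (le_of_eq (by ring))
  obtain ⟨Ha, ha0, ha1, ha2⟩ := hA hN1 (hF.T0 0) (hF.T1 0) mF
  obtain ⟨Hb, hb0, hb1, hb2⟩ := hB hN1 (hF.T0 0) (hF.T1 0) mF
  have m1 : MB r3 ((Ka + Kb) / (2 * n + 1)) (fun _ => 1) (fun _ : ℝ => lgs Ha - lgs Hb) :=
    (((ha2.le hr30.le (min_le_left _ _)).add hr30.le
      (hb2.le hr30.le (min_le_right _ _)).neg).mono (le_of_eq (by ring))).congr fun _ => by ring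
  have mC : MB r3 3 (fun _ => 1) (fun _ : ℝ => PowerSeries.C (3 * Complex.I)) :=
    MB.cst (by norm_num) one0 (f := fun _ => 3 * Complex.I) fun _ => by simp
  refine ⟨PowerSeries.X * (PowerSeries.C (3 * Complex.I) * (lgs Ha - lgs Hb)), ?_, fun k hk => ?_⟩
  · refine (MB.X hr30.le (MB.mul hr30.le one0 mC m1)).mono ?_
    have h3 : r3 ≤ 1 := ((min_le_left _ _).trans hra').trans (by norm_num)
    have h4 : 0 ≤ 3 * ((Ka + Kb) / (2 * (n : ℝ) + 1)) := by positivity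
    calc r3 * (3 * ((Ka + Kb) / (2 * (n : ℝ) + 1))) ≤ 1 * (3 * ((Ka + Kb) / (2 * (n : ℝ) + 1))) :=
          mul_le_mul_of_nonneg_right h3 h4
      _ = _ := by ring
  · obtain ⟨j, rfl⟩ : ∃ j, k = j + 1 := ⟨k - 1, by omega⟩
    rw [V_val hF hD (by omega : 2 ≤ j), PowerSeries.coeff_succ_X_mul, PowerSeries.coeff_C_mul]
    have e3 : ((3 : ℝ) : ℂ) = 3 := by norm_num
    have e4 : ((-3 : ℝ) : ℂ) = -3 := by norm_num
    rw [e3] at ha1
    rw [e4] at hb1
    rw [ha1, hb1, lgs_mul (Qh_zero (by norm_num)) ha0, lgs_mul (Qh_zero (by norm_num)) hb0,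
      map_add, map_add, map_sub, Qh_lgs (by omega : 2 ≤ j)]
    ring

theorem kk_D0 (hn : 1 ≤ n) {v : ℝ} (hv : 0 < v) : kk v
    = 1 / (2 * Real.pi * (2 * n + 1)) * (D0 n v - D0 n v * (1 - Real.tanh (3 * v / 2))) := by
  unfold kk D0
  have h1 : 0 < Real.sinh (3 * v / 2) := Real.sinh_pos_iff.mpr (by linarith)
  have h2 : 0 < Real.cosh (3 * v / 2) := Real.cosh_pos _
  rw [Real.tanh_eq_sinh_div_cosh]
  have hN := nat2 n
  have hp := Real.pi_pos
  push_cast
  field_simp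
  ring

/-- **the half line integral** -/
theorem half_bound {c : ℝ} (hc : 0 < c) : ∃ r3 K : ℝ, 0 < r3 ∧ r3 ≤ 1 / 10000 ∧ 0 < K ∧
    ∀ {n : ℕ} {x : ℝ → ℝ} {T B R T' Bp Ap : ℝ → PowerSeries ℂ}, Fs n x T B R →
      Fd c n x T B R T' Bp Ap → ∃ e : ℕ → ℝ, (∀ k, 0 ≤ e k) ∧
        (∀ L, ps e L ≤ K / (2 * n + 1) ^ 2) ∧ ∀ k : ℕ, 3 ≤ k →
          ‖∫ u in Ioi (0 : ℝ), (kk u : ℂ) * PowerSeries.coeff k (AAc n x B u)‖ * r3 ^ k ≤ e k := by
  obtain ⟨K1, hK1, h1⟩ := half_int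
  obtain ⟨r3, K2, hr3, hr3', hK2, h2⟩ := V_small hc
  obtain ⟨K3, hK3, h3⟩ := wt_dec
  refine ⟨r3, K1 * (c * c + 3 * c) + K2 + c * K3, hr3, hr3', by positivity, ?_⟩
  intro n x T B R T' Bp Ap hF hD
  obtain ⟨e1, e10, e1s, he1⟩ := h1 hc hF hD
  obtain ⟨G, ⟨g, g0, gs, hg⟩, hG⟩ := h2 hF hD
  obtain ⟨a, a0, as, ha⟩ := hD.mA
  have h33 := (h3 n hF.n1).2.2
  have hN := nat2 n
  refine ⟨fun k => (1 / (2 * n + 1)) * (1 / (2 * n + 1) * e1 k + g k + K3 / (2 * n + 1) * a k),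
    fun k => ?_, fun L => ?_, fun k hk => ?_⟩
  · have := e10 k
    have := g0 k
    have := a0 k
    positivity
  · rw [ps_mul, ps_add, ps_add, ps_mul, ps_mul]
    have i1 := mul_le_mul_of_nonneg_left (e1s L) (show 0 ≤ 1 / (2 * (n : ℝ) + 1) by positivity)
    have i2 := gs L
    have i3 := mul_le_mul_of_nonneg_left (as L) (show 0 ≤ K3 / (2 * (n : ℝ) + 1) by positivity)
    calc _ ≤ 1 / (2 * (n : ℝ) + 1) * (1 / (2 * (n : ℝ) + 1) * (K1 * (c * c + 3 * c))
          + K2 / (2 * n + 1) + K3 / (2 * (n : ℝ) + 1) * c) := by gcongr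
      _ = _ := by field_simp
  · obtain ⟨i1, i2⟩ := he1 k (by omega)
    have i3 := hG k hk
    have hkr : (1 : ℝ) ≤ k := by exact_mod_cast (by omega : 1 ≤ k)
    have hrk : 0 < r3 ^ k := by positivity
    have hrk' : r3 ^ k ≤ (1 / 10000) ^ k := pow_le_pow_left₀ hr3.le hr3' k
    -- the difference
    have i4 : IntegrableOn (fun u => ((1 - Real.tanh (3 * u / 2) : ℝ) : ℂ)
        * ((D0 n u : ℂ) * PowerSeries.coeff k (AAc n x B u))) (Ioi 0) := by
      refine i1.bdd_mul (c := 2) ?_ ?_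
      · apply Measurable.aestronglyMeasurable
        exact Complex.measurable_ofReal.comp (measurable_const.sub
          (a8_tanh_cont.measurable.comp (by fun_prop)))
      · refine ae_of_all _ fun u => ?_
        rw [Complex.norm_real, Real.norm_eq_abs, abs_le]
        have := Real.tanh_lt_one (3 * u / 2)
        have := Real.neg_one_lt_tanh (3 * u / 2)
        constructor <;> linarith
    have i5 : EqOn (fun u => (kk u : ℂ) * PowerSeries.coeff k (AAc n x B u))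
        (fun u => ((1 / (2 * Real.pi * (2 * n + 1)) : ℝ) : ℂ)
          * ((D0 n u : ℂ) * PowerSeries.coeff k (AAc n x B u) - ((1 - Real.tanh (3 * u / 2) : ℝ) : ℂ)
            * ((D0 n u : ℂ) * PowerSeries.coeff k (AAc n x B u)))) (Ioi 0) := by
      intro u hu
      beta_reduce
      rw [kk_D0 hF.n1 hu]
      push_cast
      ring
    rw [setIntegral_congr_fun measurableSet_Ioi i5, integral_const_mul, integral_sub i1 i4]
    have i6 : ‖∫ u in Ioi (0 : ℝ), ((1 - Real.tanh (3 * u / 2) : ℝ) : ℂ)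
        * ((D0 n u : ℂ) * PowerSeries.coeff k (AAc n x B u))‖ * (1 / 10000) ^ k
        ≤ a k * (K3 / (2 * n + 1)) := by
      have hak : (0 : ℝ) < (1 / 10000) ^ k := by positivity
      have j1 : ‖∫ u in Ioi (0 : ℝ), ((1 - Real.tanh (3 * u / 2) : ℝ) : ℂ)
          * ((D0 n u : ℂ) * PowerSeries.coeff k (AAc n x B u))‖
          ≤ ∫ u in Ioi (0 : ℝ), a k / (1 / 10000) ^ k * (Real.tanh (3 * u / 4) ^ (2 * n + 1)
            * D0 n u * (1 - Real.tanh (3 * u / 2))) := by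
        refine norm_integral_le_of_norm_le ((a8_W_int (N := 2 * n + 1) (by omega)).const_mul _) ?_
        refine (ae_restrict_iff' measurableSet_Ioi).2 (ae_of_all _ fun u hu => ?_)
        have hu' : (0 : ℝ) < u := hu
        have p1 : 0 < Real.sinh (3 * u / 2) := Real.sinh_pos_iff.mpr (by linarith)
        have p2 : 0 ≤ D0 n u := by unfold D0; positivity
        have p3 : 0 ≤ 1 - Real.tanh (3 * u / 2) := by linarith [Real.tanh_lt_one (3 * u / 2)]
        have p4 : |ta u| = Real.tanh (3 * u / 4) := by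
          unfold ta
          exact abs_of_nonneg (a8_tanh_nonneg (by linarith))
        have p5 := ha k u
        beta_reduce at p5
        rw [p4] at p5
        rw [norm_mul, norm_mul, Complex.norm_real, Complex.norm_real, Real.norm_eq_abs,
          Real.norm_eq_abs, abs_of_nonneg p3, abs_of_nonneg p2, div_mul_eq_mul_div, le_div_iff₀ hak]
        have p6 := mul_le_mul_of_nonneg_left p5 (mul_nonneg p3 p2)
        calc _ = (1 - Real.tanh (3 * u / 2)) * D0 n u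
              * (‖PowerSeries.coeff k (AAc n x B u)‖ * (1 / 10000) ^ k) := by ring
          _ ≤ _ := p6
          _ = _ := by ring
      rw [integral_const_mul] at j1
      calc _ ≤ (a k / (1 / 10000) ^ k * ∫ u in Ioi (0 : ℝ), Real.tanh (3 * u / 4) ^ (2 * n + 1)
            * D0 n u * (1 - Real.tanh (3 * u / 2))) * (1 / 10000) ^ k :=
            mul_le_mul_of_nonneg_right j1 hak.le
        _ = a k * ∫ u in Ioi (0 : ℝ), Real.tanh (3 * u / 4) ^ (2 * n + 1)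
            * D0 n u * (1 - Real.tanh (3 * u / 2)) := by field_simp
        _ ≤ _ := mul_le_mul_of_nonneg_left h33 (a0 k)
    set I1 := ∫ u in Ioi (0 : ℝ), (D0 n u : ℂ) * PowerSeries.coeff k (AAc n x B u) with hI1
    set I2 := ∫ u in Ioi (0 : ℝ), ((1 - Real.tanh (3 * u / 2) : ℝ) : ℂ)
        * ((D0 n u : ℂ) * PowerSeries.coeff k (AAc n x B u)) with hI2
    set V := ∫ u in Ioi (0 : ℝ), PowerSeries.coeff k (Vvc T R T' Bp u) with hV
    have j1 : ‖I1 - 1 / k * V‖ * r3 ^ k ≤ 1 / (2 * n + 1) * e1 k := by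
      refine (mul_le_mul_of_nonneg_left hrk' (norm_nonneg _)).trans (i2.trans (le_of_eq (by ring)))
    have j2 : ‖1 / (k : ℂ) * V‖ * r3 ^ k ≤ g k := by
      have q1 := hg k 0
      rw [mul_one, ← i3] at q1
      have q2 : ‖1 / (k : ℂ)‖ ≤ 1 := by
        rw [norm_div, norm_one, Complex.norm_natCast, div_le_one (by linarith)]
        exact hkr
      rw [norm_mul]
      calc _ ≤ 1 * ‖V‖ * r3 ^ k := by gcongr
        _ = ‖V‖ * r3 ^ k := by ring
        _ ≤ _ := q1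
    have j3 : ‖I2‖ * r3 ^ k ≤ K3 / (2 * n + 1) * a k :=
      (mul_le_mul_of_nonneg_left hrk' (norm_nonneg _)).trans (i6.trans (le_of_eq (by ring)))
    have j4 : ‖I1 - I2‖ ≤ ‖I1 - 1 / k * V‖ + ‖1 / (k : ℂ) * V‖ + ‖I2‖ := by
      have : I1 - I2 = (I1 - 1 / k * V) + 1 / k * V - I2 := by ring
      rw [this]
      exact (norm_sub_le _ _).trans (add_le_add (norm_add_le _ _) le_rfl)
    have j5 : ‖((1 / (2 * Real.pi * (2 * n + 1)) : ℝ) : ℂ)‖ ≤ 1 / (2 * n + 1) := by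
      rw [Complex.norm_real, Real.norm_eq_abs, abs_of_pos (by positivity)]
      apply one_div_le_one_div_of_le hN
      nlinarith [Real.pi_gt_three]
    have j6 : ‖I1 - I2‖ * r3 ^ k ≤ 1 / (2 * n + 1) * e1 k + g k + K3 / (2 * n + 1) * a k := by
      have := mul_le_mul_of_nonneg_right j4 hrk.le
      linarith
    rw [norm_mul, mul_assoc]
    exact mul_le_mul j5 j6 (by positivity) (by positivity)

end H729I
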