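import Pool.Agent.Run7.h729.Iso.Coa
import Pool.Agent.Run7.h729.Iso.Evl

/-!
# The common eigenvector for small real values of the twist
-/

set_option autoImplicit false

namespace H729I
open H906K Pool.Agent.H974R3 Polynomial Complex Filter Topology

variable {n : ℕ} {t : (PowerSeries ℂ)[X]} {w : Pat (2 * n + 1) → PowerSeries ℂ}
  {μ : Pat (2 * n + 1) → ℝ}

/-- the data -/
structure Eg (n : ℕ) (t : (PowerSeries ℂ)[X]) (w : Pat (2 * n + 1) → PowerSeries ℂ)
    (μ : Pat (2 * n + 1) → ℝ) : Prop where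
  hT : TSpec n t
  w0 : ∀ σ, PowerSeries.coeff 0 (w σ) = 1
  hL : (TL (2 * n) (C (PowerSeries.C om)) (X : (PowerSeries ℂ)[X]) ezX).vecMul (fun σ => C (w σ))
      = t • (fun σ => C (w σ))
  m1 : ∑ σ, μ σ = 1
  ms : ∀ θ ∈ Set.Icc 0 Real.pi, ∀ F : Pat (2 * n + 1) → ℝ,
      ∑ σ, μ σ * Qo n θ F σ = ∑ σ, μ σ * F σ
  su : ∀ θ ∈ Set.Icc 0 Real.pi, Su (1 / 10000) (tz n t ((ph θ : ℂ) * I))

open Classical in
theorem mv_eq {R : Type*} [CommRing R] (x : (Fin (2 * n + 1) → Bool) → Pat (2 * n + 1) → R)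
    (u : Pat (2 * n + 1) → R) (σ : Pat (2 * n + 1)) :
    ∑ τ, (∑ b : Fin (2 * n + 1) → Bool, if Tc (2 * n) b σ = τ then x b σ else 0) * u τ
      = ∑ b : Fin (2 * n + 1) → Bool, x b σ * u (Tc (2 * n) b σ) := by
  simp only [Finset.sum_mul]
  rw [Finset.sum_comm]
  refine Finset.sum_congr rfl fun b _ => ?_
  have : ∀ τ, (if Tc (2 * n) b σ = τ then x b σ else 0) * u τ
      = if Tc (2 * n) b σ = τ then x b σ * u τ else 0 := by
    intro τ; split_ifs <;> simp
  rw [Finset.sum_congr rfl fun τ _ => this τ, Finset.sum_ite_eq, if_pos (Finset.mem_univ _)]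

/-- the entries of the row operator -/
noncomputable def xe (n : ℕ) (θ : ℝ) (b : Fin (2 * n + 1) → Bool) (σ : Pat (2 * n + 1)) :
    PowerSeries ℂ :=
  PowerSeries.C ((rw1 n (prob θ) b : ℝ) : ℂ) * expI (dTc (2 * n) b σ / (2 * n + 1))

open Classical in
/-- the regularised matrix -/
noncomputable def Gm (n : ℕ) (t : (PowerSeries ℂ)[X]) (μ : Pat (2 * n + 1) → ℝ) :
    Matrix (Pat (2 * n + 1)) (Pat (2 * n + 1)) (PowerSeries ℂ) := fun σ τ =>
  (∑ b : Fin (2 * n + 1) → Bool, if Tc (2 * n) b σ = τ then xe n (Real.pi / 2) b σ else 0)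
    - (if σ = τ then tz n t ((ph (Real.pi / 2) : ℂ) * I) else 0) + PowerSeries.C ((μ τ : ℝ) : ℂ)

theorem Gm_mul (u : Pat (2 * n + 1) → PowerSeries ℂ) (σ : Pat (2 * n + 1)) :
    (Gm n t μ).mulVec u σ = (∑ b : Fin (2 * n + 1) → Bool, xe n (Real.pi / 2) b σ
      * u (Tc (2 * n) b σ)) - tz n t ((ph (Real.pi / 2) : ℂ) * I) * u σ
      + ∑ τ, PowerSeries.C ((μ τ : ℝ) : ℂ) * u τ := by
  classical
  unfold Gm Matrix.mulVec dotProduct
  simp only [sub_mul, add_mul]
  rw [Finset.sum_add_distrib, Finset.sum_sub_distrib, mv_eq]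
  congr 2
  simp [ite_mul]

theorem Su.sum {ι : Type*} (s : Finset ι) {r : ℝ} (hr : 0 ≤ r) {f : ι → PowerSeries ℂ}
    (h : ∀ i ∈ s, Su r (f i)) : Su r (∑ i ∈ s, f i) := by
  classical
  induction s using Finset.induction_on with
  | empty =>
    rw [Finset.sum_empty]
    have := su_C (r := r) (0 : ℂ)
    rwa [map_zero] at this
  | insert a s ha ih =>
    rw [Finset.sum_insert ha]
    exact Su.add hr (h a (Finset.mem_insert_self a s)) (ih fun i hi => h i (Finset.mem_insert_of_mem hi))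

theorem ev_sum {ι : Type*} (s : Finset ι) {z : ℂ} {f : ι → PowerSeries ℂ}
    (h : ∀ i ∈ s, Su ‖z‖ (f i)) : ev z (∑ i ∈ s, f i) = ∑ i ∈ s, ev z (f i) := by
  classical
  induction s using Finset.induction_on with
  | empty => simp [ev_zero]
  | insert a s ha ih =>
    rw [Finset.sum_insert ha, Finset.sum_insert ha, ev_add (h a (Finset.mem_insert_self a s))
      (Su.sum s (norm_nonneg _) fun i hi => h i (Finset.mem_insert_of_mem hi)),
      ih fun i hi => h i (Finset.mem_insert_of_mem hi)]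

theorem su_xe (θ : ℝ) (b : Fin (2 * n + 1) → Bool) (σ : Pat (2 * n + 1)) {r : ℝ} (hr : 0 ≤ r) :
    Su r (xe n θ b σ) := (su_C _).mul hr (su_expI r hr _)

theorem su_Gm (h : Eg n t w μ) (σ τ : Pat (2 * n + 1)) : Su (1 / 10000) (Gm n t μ σ τ) := by
  have hr : (0 : ℝ) ≤ 1 / 10000 := by norm_num
  have hz : Su (1 / 10000) (0 : PowerSeries ℂ) := SS.zero_mem
  unfold Gm
  rw [sub_eq_add_neg]
  refine Su.add hr (Su.add hr (Su.sum _ hr fun b _ => ?_) (Su.neg ?_)) (su_C _)
  · split_ifs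
    · exact su_xe _ _ _ hr
    · exact hz
  · split_ifs
    · exact h.su _ half_mem
    · exact hz

/-- the matrix over the convergent series -/
noncomputable def GS (h : Eg n t w μ) : Matrix (Pat (2 * n + 1)) (Pat (2 * n + 1)) SS :=
  fun σ τ => ⟨Gm n t μ σ τ, su_Gm h σ τ⟩

theorem GS_map (h : Eg n t w μ) : (GS h).map SS.subtype = Gm n t μ := rfl

open Classical in
/-- the convergent eigenvector -/
noncomputable def ut (h : Eg n t w μ) (σ : Pat (2 * n + 1)) : SS :=
  (GS h).adjugate.mulVec (fun _ => 1) σ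

open Classical in
/-- the determinant -/
noncomputable def dt (h : Eg n t w μ) : SS := (GS h).det

theorem GS_ut (h : Eg n t w μ) (σ : Pat (2 * n + 1)) :
    (GS h).mulVec (ut h) σ = dt h := by
  classical
  have h1 : (GS h).mulVec ((GS h).adjugate.mulVec (fun _ => 1)) = fun _ => dt h := by
    rw [Matrix.mulVec_mulVec, Matrix.mul_adjugate, Matrix.smul_mulVec, Matrix.one_mulVec]
    funext σ
    rw [Pi.smul_apply, smul_eq_mul, mul_one]
    unfold dt
    congr!
  have h2 := congrFun h1 σ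
  convert h2 using 3
  unfold ut
  congr!

theorem Gm_ut (h : Eg n t w μ) (σ : Pat (2 * n + 1)) :
    (Gm n t μ).mulVec (fun τ => (ut h τ : PowerSeries ℂ)) σ = (dt h : PowerSeries ℂ) := by
  have h1 := congrArg SS.subtype (GS_ut h σ)
  rw [RingHom.map_mulVec] at h1
  exact h1

theorem xe_eig (h : Eg n t w μ) {θ : ℝ} (hθ : θ ∈ Set.Icc 0 Real.pi) (σ : Pat (2 * n + 1)) :
    ∑ b : Fin (2 * n + 1) → Bool, xe n θ b σ * wr n w (Tc (2 * n) b σ)
      = tz n t ((ph θ : ℂ) * I) * wr n w σ := by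
  rw [← eig h.hL hθ σ]
  refine Finset.sum_congr rfl fun b _ => ?_
  unfold xe
  ring

/-- the pairing with the stationary law -/
noncomputable def pw (n : ℕ) (w : Pat (2 * n + 1) → PowerSeries ℂ) (μ : Pat (2 * n + 1) → ℝ) :
    PowerSeries ℂ := ∑ τ, PowerSeries.C ((μ τ : ℝ) : ℂ) * wr n w τ

theorem pw_ne (h : Eg n t w μ) : pw n w μ ≠ 0 := by
  intro h0
  have h1 := congrArg (PowerSeries.coeff 0) h0
  unfold pw at h1
  rw [map_sum, map_zero] at h1
  simp only [PowerSeries.coeff_C_mul, wr_zero h.w0, mul_one] at h1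
  rw [← Complex.ofReal_sum, h.m1] at h1
  simp at h1

theorem ut_prop (h : Eg n t w μ) (σ : Pat (2 * n + 1)) :
    (ut h σ : PowerSeries ℂ) * pw n w μ = (dt h : PowerSeries ℂ) * wr n w σ := by
  classical
  -- the matrix applied to the formal eigenvector
  have h1 : (Gm n t μ).mulVec (wr n w) = fun _ => pw n w μ := by
    funext σ
    rw [Gm_mul, xe_eig h half_mem, sub_self, zero_add]
    rfl
  have h2 : (Gm n t μ).adjugate.mulVec ((Gm n t μ).mulVec (wr n w))
      = (Gm n t μ).det • wr n w := by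
    rw [Matrix.mulVec_mulVec, Matrix.adjugate_mul, Matrix.smul_mulVec, Matrix.one_mulVec]
  rw [h1] at h2
  have h3 := congrFun h2 σ
  have h4 : (dt h : PowerSeries ℂ) = (Gm n t μ).det := by
    have := RingHom.map_det SS.subtype (GS h)
    unfold dt
    convert this using 2 <;> rfl
  have h5 : ∀ τ, (ut h τ : PowerSeries ℂ) = (Gm n t μ).adjugate.mulVec (fun _ => 1) τ := by
    intro τ
    have e1 := RingHom.map_mulVec SS.subtype (GS h).adjugate (fun _ => (1 : SS)) τ
    have e2 := RingHom.map_adjugate SS.subtype (GS h)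
    rw [RingHom.mapMatrix_apply, RingHom.mapMatrix_apply] at e2
    rw [e2] at e1
    have e3 : (SS.subtype ∘ fun _ : Pat (2 * n + 1) => (1 : SS)) = fun _ => 1 := by
      funext i; simp
    rw [e3, GS_map] at e1
    unfold ut
    exact e1
  rw [h4, h5]
  have h6 : (Gm n t μ).adjugate.mulVec (fun _ => pw n w μ) σ
      = (Gm n t μ).adjugate.mulVec (fun _ => 1) σ * pw n w μ := by
    unfold Matrix.mulVec dotProduct
    rw [Finset.sum_mul]
    refine Finset.sum_congr rfl fun i _ => ?_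
    ring
  rw [← h6]
  exact h3

/-- the formal eigenvalue equation for all angles -/
theorem ut_eig (h : Eg n t w μ) {θ : ℝ} (hθ : θ ∈ Set.Icc 0 Real.pi) (σ : Pat (2 * n + 1)) :
    ∑ b : Fin (2 * n + 1) → Bool, xe n θ b σ * (ut h (Tc (2 * n) b σ) : PowerSeries ℂ)
      = tz n t ((ph θ : ℂ) * I) * (ut h σ : PowerSeries ℂ) := by
  apply mul_right_cancel₀ (pw_ne h)
  rw [Finset.sum_mul]
  have h1 : ∀ b : Fin (2 * n + 1) → Bool, xe n θ b σ * (ut h (Tc (2 * n) b σ) : PowerSeries ℂ)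
      * pw n w μ = (dt h : PowerSeries ℂ) * (xe n θ b σ * wr n w (Tc (2 * n) b σ)) := by
    intro b
    linear_combination (xe n θ b σ) * ut_prop h (Tc (2 * n) b σ)
  rw [Finset.sum_congr rfl fun b _ => h1 b, ← Finset.mul_sum, xe_eig h hθ]
  linear_combination (-(tz n t ((ph θ : ℂ) * I))) * ut_prop h σ

theorem ut_cls (h : Eg n t w μ) {σ σ' : Pat (2 * n + 1)} (hw : wr n w σ = wr n w σ') :
    ut h σ = ut h σ' := by
  apply Subtype.ext
  apply mul_right_cancel₀ (pw_ne h)
  rw [ut_prop, ut_prop, hw]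

/-- the eigenvector at the value `z` of the twist -/
noncomputable def Ps (h : Eg n t w μ) (z : ℂ) (σ : Pat (2 * n + 1)) : ℂ := ev z (ut h σ : PowerSeries ℂ)

theorem sut (h : Eg n t w μ) (σ : Pat (2 * n + 1)) : Su (1 / 10000) (ut h σ : PowerSeries ℂ) :=
  (ut h σ).2

theorem Ps_eig (h : Eg n t w μ) {z : ℂ} (hz : ‖z‖ ≤ 1 / 10000) {θ : ℝ} (hθ : θ ∈ Set.Icc 0 Real.pi)
    (σ : Pat (2 * n + 1)) :
    ∑ b : Fin (2 * n + 1) → Bool, ((rw1 n (prob θ) b : ℝ) : ℂ)
      * cexp ((dTc (2 * n) b σ : ℂ) / (2 * n + 1) * I * z) * Ps h z (Tc (2 * n) b σ)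
      = ev z (tz n t ((ph θ : ℂ) * I)) * Ps h z σ := by
  have h1 := congrArg (ev z) (ut_eig h hθ σ)
  have hn := norm_nonneg z
  have hs : ∀ τ, Su ‖z‖ (ut h τ : PowerSeries ℂ) := fun τ => (sut h τ).mono hn hz
  rw [ev_mul ((h.su θ hθ).mono hn hz) (hs σ), ev_sum] at h1
  · unfold Ps
    rw [← h1]
    refine Finset.sum_congr rfl fun b _ => ?_
    rw [ev_mul (su_xe _ _ _ hn) (hs _)]
    unfold xe
    rw [ev_mul (su_C _) (su_expI _ hn _), ev_C, ev_expI]
  · intro b _
    exact (su_xe _ _ _ hn).mul hn (hs _)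

theorem Ps_det (h : Eg n t w μ) {z : ℂ} (hz : ‖z‖ ≤ 1 / 10000) (σ : Pat (2 * n + 1)) :
    (∑ b : Fin (2 * n + 1) → Bool, ((rw1 n (prob (Real.pi / 2)) b : ℝ) : ℂ)
      * cexp ((dTc (2 * n) b σ : ℂ) / (2 * n + 1) * I * z) * Ps h z (Tc (2 * n) b σ))
      - ev z (tz n t ((ph (Real.pi / 2) : ℂ) * I)) * Ps h z σ + ∑ τ, ((μ τ : ℝ) : ℂ) * Ps h z τ
      = ev z (dt h : PowerSeries ℂ) := by
  have h1 := congrArg (ev z) (Gm_ut h σ)
  have hn := norm_nonneg z
  have hs : ∀ τ, Su ‖z‖ (ut h τ : PowerSeries ℂ) := fun τ => (sut h τ).mono hn hz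
  rw [Gm_mul, ut_eig h half_mem, sub_self, zero_add, ev_sum] at h1
  · rw [Ps_eig h hz half_mem, sub_self, zero_add, ← h1]
    refine Finset.sum_congr rfl fun τ _ => ?_
    rw [ev_mul (su_C _) (hs _), ev_C]
    rfl
  · intro τ _
    exact (su_C _).mul hn (hs _)

/-- the mean value of the eigenvector is the determinant -/
theorem Ps_mu (h : Eg n t w μ) {z : ℂ} (hz : ‖z‖ ≤ 1 / 10000) :
    ∑ τ, ((μ τ : ℝ) : ℂ) * Ps h z τ = ev z (dt h : PowerSeries ℂ) := by
  have h1 := Ps_det h hz (start n)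
  rwa [Ps_eig h hz half_mem, sub_self, zero_add] at h1

/-- harmonic functions of the homogeneous chain vanish when their mean value vanishes -/
theorem harm (h : Eg n t w μ) {a : Pat (2 * n + 1) → ℝ}
    (ha : ∀ σ, Qo n (Real.pi / 2) a σ - a σ + ∑ τ, μ τ * a τ = 0) : a = 0 := by
  have h1 : ∑ τ, μ τ * a τ = 0 := by
    have h2 := h.ms _ half_mem a
    have h3 : ∀ σ, Qo n (Real.pi / 2) a σ = a σ - ∑ τ, μ τ * a τ := fun σ => by
      linarith [ha σ]
    simp only [h3, mul_sub] at h2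
    rw [Finset.sum_sub_distrib, ← Finset.sum_mul, h.m1, one_mul] at h2
    linarith
  have h2 : Qo n (Real.pi / 2) a = a := by
    funext σ
    have := ha σ
    rw [h1] at this
    linarith
  have h3 : ∀ K : ℕ, (Qo n (Real.pi / 2))^[K] a = a := by
    intro K
    induction K with
    | zero => rfl
    | succ K ih => rw [Function.iterate_succ_apply, h2, ih]
  funext σ
  have h4 := mix h.m1 h.ms a σ
  simp only [h3] at h4
  rw [h1] at h4
  exact tendsto_nhds_unique tendsto_const_nhds h4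

/-- the determinant does not vanish at zero -/
theorem dt_zero (h : Eg n t w μ) : ev 0 (dt h : PowerSeries ℂ) ≠ 0 := by
  classical
  rw [ev_at_zero, PowerSeries.coeff_zero_eq_constantCoeff_apply]
  have h4 : (dt h : PowerSeries ℂ) = (Gm n t μ).det := by
    have := RingHom.map_det SS.subtype (GS h)
    unfold dt
    convert this using 2 <;> rfl
  rw [h4, RingHom.map_det]
  intro h0
  obtain ⟨u, hu, hu0⟩ := Matrix.exists_mulVec_eq_zero_iff.2 h0
  have hx : ∀ b (σ : Pat (2 * n + 1)), PowerSeries.constantCoeff (xe n (Real.pi / 2) b σ)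
      = ((rw1 n (prob (Real.pi / 2)) b : ℝ) : ℂ) := by
    intro b σ
    unfold xe
    rw [map_mul, PowerSeries.constantCoeff_C]
    have : PowerSeries.constantCoeff (expI (dTc (2 * n) b σ / (2 * n + 1))) = 1 := by
      rw [← PowerSeries.coeff_zero_eq_constantCoeff_apply, e4_expI]
      simp
    rw [this, mul_one]
  have htz : PowerSeries.constantCoeff (tz n t ((ph (Real.pi / 2) : ℂ) * I)) = 1 := by
    rw [← PowerSeries.coeff_zero_eq_constantCoeff_apply]
    apply tz_zero h.hT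
    have h1 := ph_mem half_mem
    simp only [Complex.mul_im, Complex.ofReal_re, Complex.I_im, mul_one, Complex.ofReal_im,
      Complex.I_re, mul_zero, add_zero]
    have h2 : ph (Real.pi / 2) = 0 := by unfold ph; ring
    rw [h2, abs_zero]
    positivity
  have h1 : ∀ σ, (∑ b : Fin (2 * n + 1) → Bool, ((rw1 n (prob (Real.pi / 2)) b : ℝ) : ℂ)
      * u (Tc (2 * n) b σ)) - u σ + ∑ τ, ((μ τ : ℝ) : ℂ) * u τ = 0 := by
    intro σ
    have h2 := congrFun hu0 σ
    unfold Matrix.mulVec dotProduct at h2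
    simp only [RingHom.mapMatrix_apply, Matrix.map_apply, Pi.zero_apply] at h2
    unfold Gm at h2
    simp only [map_add, map_sub, map_sum, PowerSeries.constantCoeff_C, apply_ite
      (PowerSeries.constantCoeff (R := ℂ)), map_zero, hx, htz, sub_mul, add_mul] at h2
    rw [Finset.sum_add_distrib, Finset.sum_sub_distrib] at h2
    have h5 := mv_eq (fun b (σ : Pat (2 * n + 1)) => ((rw1 n (prob (Real.pi / 2)) b : ℝ) : ℂ)) u σ
    rw [h5] at h2
    rw [← h2]
    congr 2
    simp [ite_mul]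
  have hre : (fun σ => (u σ).re) = 0 := by
    apply harm h
    intro σ
    have := congrArg Complex.re (h1 σ)
    simp only [Complex.add_re, Complex.sub_re, Complex.re_sum, Complex.re_ofReal_mul,
      Complex.zero_re] at this
    exact this
  have him : (fun σ => (u σ).im) = 0 := by
    apply harm h
    intro σ
    have := congrArg Complex.im (h1 σ)
    simp only [Complex.add_im, Complex.sub_im, Complex.im_sum, Complex.im_ofReal_mul,
      Complex.zero_im] at this
    exact this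
  apply hu
  funext σ
  exact Complex.ext (congrFun hre σ) (congrFun him σ)

end H729I
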