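import Pool.Agent.Run7.h729.Iso.Corr2

/-!
# Layered percolation on cylinders of odd circumference: adaptive environments
-/

set_option autoImplicit false

namespace H729I
open H906K Pool.Agent.H974R3

/-- configurations of `M` rows -/
abbrev Conf (n M : ℕ) : Type := Fin M → Fin (2 * n + 1) → Bool

/-- the first `m` rows -/
def rows {n M : ℕ} (c : Conf n M) (m : ℕ) : Conf n m :=
  fun t j => if h : (t : ℕ) < M then c ⟨t, h⟩ j else false

/-- an adaptive choice: the value at the row `t` is a function of the rows below it -/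
abbrev Strat (n : ℕ) : Type := (t : ℕ) → Conf n t → ℝ

/-- the weight of a configuration, when the row `t` consists of independent tiles with the angle
`θ t` -/
noncomputable def wgt {n : ℕ} (θ : Strat n) (M : ℕ) (c : Conf n M) : ℝ :=
  ∏ t : Fin M, rw1 n (prob (θ t (rows c t))) (c t)

/-- the mean value -/
noncomputable def EE {n : ℕ} {V : Type*} [AddCommGroup V] [Module ℝ V] (θ : Strat n) (M : ℕ)
    (F : Conf n M → V) : V := ∑ c, wgt θ M c • F c

/-- all angles lie in `[0,π]` -/
def Adm {n : ℕ} (θ : Strat n) : Prop := ∀ t c, θ t c ∈ Set.Icc (0 : ℝ) Real.pi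

/-- a configuration with one more row -/
abbrev app {n M : ℕ} (c : Conf n M) (b : Fin (2 * n + 1) → Bool) : Conf n (M + 1) :=
  Fin.snoc (α := fun _ => Fin (2 * n + 1) → Bool) c b

theorem rows_app {n M : ℕ} (c : Conf n M) (b : Fin (2 * n + 1) → Bool) {t : ℕ} (h : t ≤ M) :
    rows (app c b) t = rows c t := by
  funext i j
  have hi := i.2
  have h1 : (i : ℕ) < M + 1 := by omega
  have h2 : (i : ℕ) < M := by omega
  unfold rows
  rw [dif_pos h1, dif_pos h2]
  unfold app Fin.snoc
  simp only [h2, dif_pos]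
  rfl

theorem rows_self {n M : ℕ} (c : Conf n M) : rows c M = c := by
  funext i j
  unfold rows
  rw [dif_pos i.2]

theorem wgt_app {n M : ℕ} (θ : Strat n) (c : Conf n M) (b : Fin (2 * n + 1) → Bool) :
    wgt θ (M + 1) (app c b) = wgt θ M c * rw1 n (prob (θ M c)) b := by
  unfold wgt
  rw [Fin.prod_univ_castSucc]
  congr 1
  · refine Finset.prod_congr rfl fun t _ => ?_
    have h1 : app c b (Fin.castSucc t) = c t := by
      unfold app
      exact Fin.snoc_castSucc (α := fun _ => Fin (2 * n + 1) → Bool) b c t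
    rw [h1]
    congr 2
    have := rows_app c b (t := (t : ℕ)) t.2.le
    simp only [Fin.val_castSucc]
    rw [this]
  · have h1 : app c b (Fin.last M) = b := by
      unfold app
      exact Fin.snoc_last (α := fun _ => Fin (2 * n + 1) → Bool) b c
    rw [h1]
    congr 2
    simp only [Fin.val_last]
    rw [rows_app c b le_rfl, rows_self]

theorem sum_app {n M : ℕ} {V : Type*} [AddCommMonoid V] (F : Conf n (M + 1) → V) :
    ∑ c, F c = ∑ c : Conf n M, ∑ b : Fin (2 * n + 1) → Bool, F (app c b) := by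
  rw [← (Fin.snocEquiv (fun _ : Fin (M + 1) => Fin (2 * n + 1) → Bool)).sum_comp]
  rw [Fintype.sum_prod_type, Finset.sum_comm]
  rfl

theorem EE_succ {n M : ℕ} {V : Type*} [AddCommGroup V] [Module ℝ V] (θ : Strat n)
    (F : Conf n (M + 1) → V) : EE θ (M + 1) F
      = EE θ M fun c => ∑ b : Fin (2 * n + 1) → Bool, rw1 n (prob (θ M c)) b • F (app c b) := by
  unfold EE
  rw [sum_app]
  refine Finset.sum_congr rfl fun c _ => ?_
  rw [Finset.smul_sum]
  refine Finset.sum_congr rfl fun b _ => ?_
  rw [wgt_app, smul_smul]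

theorem EE_zero {n : ℕ} {V : Type*} [AddCommGroup V] [Module ℝ V] (θ : Strat n)
    (F : Conf n 0 → V) : EE θ 0 F = F (fun t => t.elim0) := by
  unfold EE wgt
  rw [Fintype.sum_eq_single (fun t => t.elim0 : Conf n 0) (fun c hc => absurd
    (funext fun t => t.elim0) hc)]
  simp

theorem prob_mem {θ : ℝ} (h : θ ∈ Set.Icc 0 Real.pi) : 0 ≤ prob θ ∧ prob θ ≤ 1 := by
  have hpi := Real.pi_pos
  have h1 : 0 ≤ Real.sin (θ / 3) := Real.sin_nonneg_of_nonneg_of_le_pi (by linarith [h.1])
    (by linarith [h.2])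
  have h2 : 0 ≤ Real.sin ((Real.pi - θ) / 3) := Real.sin_nonneg_of_nonneg_of_le_pi
    (by linarith [h.2]) (by linarith [h.1])
  have h3 : 0 < Real.sin (θ / 3) + Real.sin ((Real.pi - θ) / 3) := by
    rw [prob_den]; exact ph_cos h
  unfold prob
  exact ⟨div_nonneg h1 h3.le, (div_le_one h3).2 (by linarith)⟩

theorem rw1_nonneg (n : ℕ) {p : ℝ} (hp : 0 ≤ p ∧ p ≤ 1) (b : Fin (2 * n + 1) → Bool) :
    0 ≤ rw1 n p b := by
  refine Finset.prod_nonneg fun j _ => ?_
  split_ifs
  · exact hp.1
  · linarith [hp.2]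

theorem wgt_nonneg {n M : ℕ} {θ : Strat n} (h : Adm θ) (c : Conf n M) : 0 ≤ wgt θ M c :=
  Finset.prod_nonneg fun t _ => rw1_nonneg n (prob_mem (h _ _)) _

section lin
variable {n M : ℕ} {V : Type*} [AddCommGroup V] [Module ℝ V] (θ : Strat n)

theorem EE_add (F G : Conf n M → V) : EE θ M (fun c => F c + G c) = EE θ M F + EE θ M G := by
  unfold EE
  rw [← Finset.sum_add_distrib]
  exact Finset.sum_congr rfl fun c _ => smul_add _ _ _

theorem EE_sub (F G : Conf n M → V) : EE θ M (fun c => F c - G c) = EE θ M F - EE θ M G := by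
  unfold EE
  rw [← Finset.sum_sub_distrib]
  exact Finset.sum_congr rfl fun c _ => smul_sub _ _ _

theorem EE_smul (a : ℝ) (F : Conf n M → V) : EE θ M (fun c => a • F c) = a • EE θ M F := by
  unfold EE
  rw [Finset.smul_sum]
  exact Finset.sum_congr rfl fun c _ => smul_comm _ _ _

theorem EE_mul (a : ℝ) (F : Conf n M → ℝ) : EE θ M (fun c => a * F c) = a * EE θ M F :=
  EE_smul θ a F

end lin

theorem EE_const {n : ℕ} {V : Type*} [AddCommGroup V] [Module ℝ V] (θ : Strat n) (M : ℕ) (a : V) :
    EE θ M (fun _ => a) = a := by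
  induction M with
  | zero => rw [EE_zero]
  | succ M ih =>
    rw [EE_succ]
    have : (fun c : Conf n M => ∑ b : Fin (2 * n + 1) → Bool, rw1 n (prob (θ M c)) b • a)
        = fun _ => a := by
      funext c
      rw [← Finset.sum_smul, rw1_sum, one_smul]
    rw [this, ih]

theorem EE_mono {n M : ℕ} {θ : Strat n} (h : Adm θ) {F G : Conf n M → ℝ} (hFG : ∀ c, F c ≤ G c) :
    EE θ M F ≤ EE θ M G :=
  Finset.sum_le_sum fun c _ => mul_le_mul_of_nonneg_left (hFG c) (wgt_nonneg h c)

theorem EE_norm {n M : ℕ} {θ : Strat n} (h : Adm θ) (F : Conf n M → ℂ) :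
    ‖EE θ M F‖ ≤ EE θ M (fun c => ‖F c‖) := by
  unfold EE
  refine (norm_sum_le _ _).trans (Finset.sum_le_sum fun c _ => ?_)
  rw [norm_smul, Real.norm_of_nonneg (wgt_nonneg h c)]
  rfl

theorem EE_abs {n M : ℕ} {θ : Strat n} (h : Adm θ) (F : Conf n M → ℝ) :
    |EE θ M F| ≤ EE θ M (fun c => |F c|) := by
  unfold EE
  refine (Finset.abs_sum_le_sum_abs _ _).trans (Finset.sum_le_sum fun c _ => ?_)
  rw [smul_eq_mul, smul_eq_mul, abs_mul, abs_of_nonneg (wgt_nonneg h c)]

/-- functions of the first rows -/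
theorem EE_rows {n : ℕ} {V : Type*} [AddCommGroup V] [Module ℝ V] (θ : Strat n) {m M : ℕ}
    (hm : m ≤ M) (F : Conf n m → V) : EE θ M (fun c => F (rows c m)) = EE θ m F := by
  induction M, hm using Nat.le_induction with
  | base => simp only [rows_self]
  | succ M hM ih =>
    rw [EE_succ, ← ih]
    congr 1
    funext c
    have : ∀ b, F (rows (app c b) m) = F (rows c m) := fun b => by rw [rows_app c b hM]
    simp only [this]
    rw [← Finset.sum_smul, rw1_sum, one_smul]

/-- the pattern and the displacement after `M` rows -/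
noncomputable def pat {n M : ℕ} (c : Conf n M) : Pat (2 * n + 1) := (run (2 * n) M c (start n)).1
noncomputable def dis {n M : ℕ} (c : Conf n M) : ℝ := ((run (2 * n) M c (start n)).2 : ℝ)

theorem run_app {n M : ℕ} (c : Conf n M) (b : Fin (2 * n + 1) → Bool) :
    pat (app c b) = Tc (2 * n) b (pat c) ∧
    dis (app c b) = dis c + (dTc (2 * n) b (pat c) : ℝ) := by
  have h1 : (fun i : Fin M => (app c b) i.castSucc) = c := by
    funext i
    unfold app
    exact Fin.snoc_castSucc (α := fun _ => Fin (2 * n + 1) → Bool) b c i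
  have h2 : app c b (Fin.last M) = b := by
    unfold app
    exact Fin.snoc_last (α := fun _ => Fin (2 * n + 1) → Bool) b c
  unfold pat dis
  constructor
  · show Tc (2 * n) ((app c b) (Fin.last M)) (run (2 * n) M (fun i => (app c b) i.castSucc)
      (start n)).1 = _
    rw [h1, h2]
  · show (((run (2 * n) M (fun i => (app c b) i.castSucc) (start n)).2
      + dTc (2 * n) ((app c b) (Fin.last M)) (run (2 * n) M (fun i => (app c b) i.castSucc)
      (start n)).1 : ℤ) : ℝ) = _
    rw [h1, h2]
    push_cast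
    rfl

/-- the sum of a function of the angles along the rows -/
noncomputable def Sm {n : ℕ} (φ : Strat n) (M : ℕ) (c : Conf n M) : ℝ :=
  ∑ t ∈ Finset.range M, φ t (rows c t)

theorem Sm_app {n M : ℕ} (φ : Strat n) (c : Conf n M) (b : Fin (2 * n + 1) → Bool) :
    Sm φ (M + 1) (app c b) = Sm φ M c + φ M c := by
  unfold Sm
  rw [Finset.sum_range_succ, rows_app c b le_rfl, rows_self]
  congr 1
  exact Finset.sum_congr rfl fun t ht => by
    rw [rows_app c b (Finset.mem_range.1 ht).le]

theorem Sm_zero {n : ℕ} (φ : Strat n) (c : Conf n 0) : Sm φ 0 c = 0 := by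
  unfold Sm
  simp

end H729I
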