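import Pool.Agent.Run7.h729.Iso.Stn
import Pool.Agent.Y994.KW.All

/-!
# The corrector of the drift is of the order of the circumference
-/

set_option autoImplicit false

namespace H729I
open H906K Pool.Agent.H974R3 Filter Topology

variable {n : ℕ} {f g : Pat (2 * n + 1) → ℝ} {v D : ℝ → ℝ}

/-- the homogeneous environment -/
noncomputable def hom (n : ℕ) : Strat n := fun _ _ => Real.pi / 2

theorem hom_adm (n : ℕ) : Adm (hom n) := fun _ _ => half_mem

theorem Ex_eq {M : ℕ} (F : Conf n M → ℝ) : Ex n M F = EE (hom n) M F := by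
  unfold Ex EE
  rw [Finset.sum_div]
  refine Finset.sum_congr rfl fun c _ => ?_
  have : wgt (hom n) M c = ((1 / 2 : ℝ) ^ (2 * n + 1)) ^ M := by
    unfold wgt hom
    simp only [rw1_half, Finset.prod_const, Finset.card_univ, Fintype.card_fin]
  rw [this, smul_eq_mul, ← pow_mul, one_div, inv_pow]
  field_simp

/-- the last rows -/
def rgh {n : ℕ} (K : ℕ) {m : ℕ} (c : Conf n (K + m)) : Conf n m := fun i => c (Fin.natAdd K i)

theorem rgh_app {K m : ℕ} (c : Conf n (K + m)) (b : Fin (2 * n + 1) → Bool) :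
    rgh K (m := m + 1) (app c b) = app (rgh K c) b := by
  funext i
  refine Fin.lastCases ?_ (fun i => ?_) i
  · have e1 : Fin.natAdd K (Fin.last m) = Fin.last (K + m) := rfl
    unfold rgh app
    rw [e1]
    exact (Fin.snoc_last (α := fun _ => Fin (2 * n + 1) → Bool) b c).trans
      (Fin.snoc_last (α := fun _ => Fin (2 * n + 1) → Bool) b
        (fun i : Fin m => c (Fin.natAdd K i))).symm
  · have e1 : Fin.natAdd K (Fin.castSucc i) = Fin.castSucc (Fin.natAdd K i) := rfl
    unfold rgh app
    rw [e1]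
    exact (Fin.snoc_castSucc (α := fun _ => Fin (2 * n + 1) → Bool) b c _).trans
      (Fin.snoc_castSucc (α := fun _ => Fin (2 * n + 1) → Bool) b
        (fun i : Fin m => c (Fin.natAdd K i)) i).symm

/-- the defect of additivity -/
noncomputable def Ad {n : ℕ} (K : ℕ) {m : ℕ} (c : Conf n (K + m)) : ℝ :=
  dis c - dis (rows c K) - dis (rgh K c)

theorem Ad_app {K m : ℕ} (c : Conf n (K + m)) (b : Fin (2 * n + 1) → Bool) :
    Ad K (m := m + 1) (app c b) = Ad K c + (dTc (2 * n) b (pat c) : ℝ)
      - (dTc (2 * n) b (pat (rgh K c)) : ℝ) := by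
  unfold Ad
  rw [rgh_app, (run_app c b).2, (run_app (rgh K c) b).2, rows_app c b (by omega)]
  ring

theorem Ad_mean (h : Crr n f g v D) (K m : ℕ) (k : Conf n K → ℝ) :
    EE (hom n) (K + m) (fun c => k (rows c K) * (Ad K c + f (pat c) - f (pat (rgh K c))))
      = EE (hom n) K (fun c => k c * (f (pat c) - f (start n))) := by
  induction m with
  | zero =>
    show EE (hom n) K _ = _
    congr 1
    funext c
    have e1 : rows c K = c := rows_self c
    have e2 : Ad K (m := 0) c = 0 := by
      unfold Ad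
      rw [dis_zero]
      show dis c - dis (rows c K) - 0 = 0
      rw [e1]
      ring
    have e3 : pat (rgh K (m := 0) c) = start n := rfl
    rw [e2, e3]
    show k (rows c K) * _ = _
    rw [e1]
    ring
  | succ m ih =>
    show EE (hom n) (K + m + 1) _ = _
    rw [EE_succ, ← ih]
    congr 1
    funext c
    have h1 := h.m1 _ half_mem (pat c)
    have h2 := h.m1 _ half_mem (pat (rgh K c))
    have h3 := rw1_sum n (prob (Real.pi / 2))
    have e : ∀ b : Fin (2 * n + 1) → Bool, rw1 n (prob (hom n (K + m) c)) b •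
        (k (rows (app c b) K) * (Ad K (m := m + 1) (app c b) + f (pat (app c b))
          - f (pat (rgh K (m := m + 1) (app c b)))))
        = k (rows c K) * (Ad K c * rw1 n (prob (Real.pi / 2)) b
          + rw1 n (prob (Real.pi / 2)) b * ((dTc (2 * n) b (pat c) : ℝ) + f (Tc (2 * n) b (pat c)))
          - rw1 n (prob (Real.pi / 2)) b * ((dTc (2 * n) b (pat (rgh K c)) : ℝ)
            + f (Tc (2 * n) b (pat (rgh K c))))) := by
      intro b
      rw [Ad_app, rgh_app, (run_app c b).1, (run_app (rgh K c) b).1, rows_app c b (by omega),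
        smul_eq_mul]
      show rw1 n (prob (Real.pi / 2)) b * _ = _
      ring
    rw [Finset.sum_congr rfl fun b _ => e b, ← Finset.mul_sum, Finset.sum_sub_distrib,
      Finset.sum_add_distrib, ← Finset.mul_sum, h1, h2, h3]
    ring

theorem EE_top (K m : ℕ) (k : Conf n K → ℝ) (F : Pat (2 * n + 1) → ℝ) :
    EE (hom n) (K + m) (fun c => k (rows c K) * F (pat c))
      = EE (hom n) K (fun c => k c * (Qo n (Real.pi / 2))^[m] F (pat c)) := by
  induction m generalizing F with
  | zero =>
    show EE (hom n) K _ = _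
    congr 1
    funext c
    have e1 : rows c K = c := rows_self c
    show k (rows c K) * _ = _
    rw [e1]
    rfl
  | succ m ih =>
    show EE (hom n) (K + m + 1) _ = _
    rw [EE_succ, Function.iterate_succ_apply, ← ih]
    congr 1
    funext c
    unfold Qo
    rw [Finset.mul_sum]
    refine Finset.sum_congr rfl fun b _ => ?_
    rw [(run_app c b).1, rows_app c b (by omega), smul_eq_mul]
    show rw1 n (prob (Real.pi / 2)) b * _ = _
    ring

theorem EE_rgh (K m : ℕ) (k : Conf n K → ℝ) (F : Pat (2 * n + 1) → ℝ) :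
    EE (hom n) (K + m) (fun c => k (rows c K) * F (pat (rgh K c)))
      = EE (hom n) K k * (Qo n (Real.pi / 2))^[m] F (start n) := by
  induction m generalizing F with
  | zero =>
    show EE (hom n) K _ = _
    have e : (fun c : Conf n K => k (rows c K) * F (pat (rgh K (m := 0) c)))
        = fun c => F (start n) * k c := by
      funext c
      have e3 : pat (rgh K (m := 0) c) = start n := rfl
      have e1 : rows c K = c := rows_self c
      rw [e3]
      show k (rows c K) * _ = _
      rw [e1]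
      ring
    show EE (hom n) K (fun c : Conf n K => k (rows c K) * F (pat (rgh K (m := 0) c))) = _
    rw [e, EE_mul]
    show _ = _ * F (start n)
    ring
  | succ m ih =>
    show EE (hom n) (K + m + 1) _ = _
    rw [EE_succ, Function.iterate_succ_apply, ← ih]
    congr 1
    funext c
    unfold Qo
    rw [Finset.mul_sum]
    refine Finset.sum_congr rfl fun b _ => ?_
    rw [rgh_app, (run_app (rgh K c) b).1, rows_app c b (by omega), smul_eq_mul]
    show rw1 n (prob (Real.pi / 2)) b * _ = _
    ring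

/-- duality -/
theorem f_dual (h : Crr n f g v D) (K m : ℕ) (k : Conf n K → ℝ) {η : ℝ}
    (hη : Os ((Qo n (Real.pi / 2))^[m] f) η) :
    EE (hom n) K (fun c => k c * (f (pat c) - f (start n)))
      ≤ EE (hom n) (K + m) (fun c => k (rows c K) * Ad K c) + η * EE (hom n) K (fun c => |k c|) := by
  have h1 := Ad_mean h K m k
  have e1 : (fun c : Conf n (K + m) => k (rows c K) * (Ad K c + f (pat c) - f (pat (rgh K c))))
      = fun c => (k (rows c K) * Ad K c + k (rows c K) * f (pat c))
        - k (rows c K) * f (pat (rgh K c)) := by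
    funext c
    ring
  rw [e1, EE_sub, EE_add, EE_top, EE_rgh] at h1
  rw [← h1]
  have e2 : EE (hom n) K (fun c => k c * (Qo n (Real.pi / 2))^[m] f (pat c))
      - EE (hom n) K k * (Qo n (Real.pi / 2))^[m] f (start n)
      = EE (hom n) K (fun c => k c * ((Qo n (Real.pi / 2))^[m] f (pat c)
        - (Qo n (Real.pi / 2))^[m] f (start n))) := by
    have : (fun c : Conf n K => k c * ((Qo n (Real.pi / 2))^[m] f (pat c)
        - (Qo n (Real.pi / 2))^[m] f (start n)))
        = fun c => k c * (Qo n (Real.pi / 2))^[m] f (pat c)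
          - (Qo n (Real.pi / 2))^[m] f (start n) * k c := by
      funext c; ring
    rw [this, EE_sub, EE_mul]
    ring
  have h3 : EE (hom n) K (fun c => k c * ((Qo n (Real.pi / 2))^[m] f (pat c)
        - (Qo n (Real.pi / 2))^[m] f (start n))) ≤ η * EE (hom n) K (fun c => |k c|) := by
    rw [← EE_mul]
    refine EE_mono (hom_adm n) fun c => ?_
    refine (le_abs_self _).trans ?_
    rw [abs_mul, mul_comm η]
    exact mul_le_mul_of_nonneg_left (hη _ _) (abs_nonneg _)
  linarith

/-- the displacement is the one of the walker -/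
theorem dis_X {M : ℕ} (hn : 1 ≤ n) (c : Conf n M) : dis c = (Y994.KW.X n M c : ℝ) := by
  have h2 := Y994.KW.All.XD n M c hn
  have h3 : Xd n M c = (run (2 * n) M c (start n)).2 := by
    have hE : End n M c (Xd n M c) :=
      Classical.epsilon_spec (p := End n M c) ⟨_, (end_run n M c _).2 rfl⟩
    exact (end_run n M c _).1 hE
  unfold dis
  rw [← h2, h3]

/-- the constant of the fourth moments -/
def MomB (B : ℝ) : Prop := 0 < B ∧ ∀ n : ℕ, 1 ≤ n → ∀ K m : ℕ,
  EE (hom n) (K + m) (fun c => Ad K c ^ 4) ≤ (B * (2 * n + 1)) ^ 4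

theorem momB_exists : ∃ B, MomB B := by
  obtain ⟨B, hB, h⟩ := Y994.KW.All.MOM
  refine ⟨B, hB, fun n hn K m => ?_⟩
  refine le_trans (le_of_eq ?_) ((h n hn).1 K m)
  rw [← Ex_eq]
  congr 1
  funext c
  unfold Ad
  rw [dis_X hn, dis_X hn, dis_X hn]
  have e1 : rows c K = Y994.KW.lft K m c := by
    funext i j
    have hi : (i : ℕ) < K + m := by have := i.2; omega
    unfold rows Y994.KW.lft
    rw [dif_pos hi]
    rfl
  rw [e1]
  rfl

theorem f_four (h : Crr n f g v D) {B : ℝ} (hB : MomB B) (hn : 1 ≤ n) (K : ℕ) :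
    EE (hom n) K (fun c => (f (pat c) - f (start n)) ^ 4) ≤ (B * (2 * n + 1)) ^ 4 := by
  set H : Conf n K → ℝ := fun c => f (pat c) - f (start n) with hH
  set E3 : ℝ := EE (hom n) K (fun c => |H c ^ 3|) with hE3
  have hE30 : 0 ≤ E3 := by
    have := EE_mono (hom_adm n) (F := fun _ : Conf n K => (0 : ℝ)) (G := fun c => |H c ^ 3|)
      (fun c => abs_nonneg _)
    rwa [EE_const] at this
  apply le_of_forall_pos_le_add
  intro ε hε
  obtain ⟨m, hm⟩ := os_tendsto f (show 0 < ε / (4 * (E3 + 1)) by positivity)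
  have h1 := f_dual h K m (fun c => H c ^ 3) (hm m le_rfl)
  have h2 : EE (hom n) (K + m) (fun c => H (rows c K) ^ 3 * Ad K c)
      ≤ 3 / 4 * EE (hom n) K (fun c => H c ^ 4) + 1 / 4 * (B * (2 * n + 1)) ^ 4 := by
    have e1 : EE (hom n) K (fun c => H c ^ 4) = EE (hom n) (K + m) (fun c => H (rows c K) ^ 4) :=
      (EE_rows (hom n) (by omega) (fun c : Conf n K => H c ^ 4)).symm
    rw [e1]
    refine le_trans ?_ (add_le_add le_rfl (mul_le_mul_of_nonneg_left (hB.2 n hn K m)
      (by norm_num : (0 : ℝ) ≤ 1 / 4)))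
    rw [← EE_mul, ← EE_mul, ← EE_add]
    refine EE_mono (hom_adm n) fun c => ?_
    have key : ∀ x y : ℝ, x ^ 3 * y ≤ 3 / 4 * x ^ 4 + 1 / 4 * y ^ 4 := by
      intro x y
      nlinarith [sq_nonneg (x ^ 2 - y ^ 2), sq_nonneg (x - y), sq_nonneg (x * (x - y)),
        mul_nonneg (sq_nonneg (x - y)) (add_nonneg (add_nonneg (sq_nonneg (x + y))
          (sq_nonneg x)) (sq_nonneg x))]
    exact key _ _
  have e2 : (fun c => H c ^ 3 * (f (pat c) - f (start n))) = fun c => H c ^ 4 := by
    funext c
    rw [hH]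
    ring
  change EE (hom n) K (fun c => H c ^ 3 * (f (pat c) - f (start n))) ≤ _ at h1
  rw [e2] at h1
  have h3 : ε / (4 * (E3 + 1)) * E3 ≤ ε / 4 := by
    rw [div_mul_eq_mul_div, div_le_div_iff₀ (by positivity) (by norm_num)]
    nlinarith
  change EE (hom n) K (fun c => H c ^ 4)
    ≤ EE (hom n) (K + m) (fun c => H (rows c K) ^ 3 * Ad K c) + ε / (4 * (E3 + 1)) * E3 at h1
  linarith

theorem f_two (h : Crr n f g v D) {B : ℝ} (hB : MomB B) (hn : 1 ≤ n) (K : ℕ) :
    EE (hom n) K (fun c => (f (pat c) - f (start n)) ^ 2) ≤ (B * (2 * n + 1)) ^ 2 := by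
  have h1 := f_four h hB hn K
  have h2 := EE_cs (hom_adm n) (fun c : Conf n K => (f (pat c) - f (start n)) ^ 2)
  have e1 : (fun c : Conf n K => |(f (pat c) - f (start n)) ^ 2|)
      = fun c => (f (pat c) - f (start n)) ^ 2 := by
    funext c
    exact abs_of_nonneg (sq_nonneg _)
  have e2 : (fun c : Conf n K => ((f (pat c) - f (start n)) ^ 2) ^ 2)
      = fun c => (f (pat c) - f (start n)) ^ 4 := by
    funext c; ring
  rw [e1, e2] at h2
  apply le_of_sq_le_sq _ (by positivity)
  calc _ ≤ _ := h2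
    _ ≤ _ := h1
    _ = _ := by ring

end H729I
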