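import Mathlib

/-!
# The clock
-/

set_option autoImplicit false

namespace H729I

/-- an increasing clock with steps at most one -/
structure Clk (S s : ℕ → ℝ) : Prop where
  zero : S 0 = 0
  step : ∀ t, S (t + 1) = S t + s t
  pos : ∀ t, 0 < s t
  le : ∀ t, s t ≤ 1

/-- the part of the step `t` which lies below the level `h` -/
noncomputable def cx (S s : ℕ → ℝ) (h : ℝ) (t : ℕ) : ℝ := max 0 (min 1 ((h - S t) / s t))

variable {S s : ℕ → ℝ}

theorem cx_nonneg (h : ℝ) (t : ℕ) : 0 ≤ cx S s h t := le_max_left _ _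

theorem cx_le_one (h : ℝ) (t : ℕ) : cx S s h t ≤ 1 := max_le (by norm_num) (min_le_left _ _)

theorem cx_mul (hc : Clk S s) (h : ℝ) (t : ℕ) : s t * cx S s h t = min h (S (t + 1)) - min h (S t) := by
  have hp := hc.pos t
  have hs := hc.step t
  unfold cx
  rcases le_total h (S t) with h1 | h1
  · have h2 : (h - S t) / s t ≤ 0 := div_nonpos_of_nonpos_of_nonneg (by linarith) hp.le
    rw [min_eq_right (by linarith), max_eq_left h2, mul_zero, min_eq_left (by linarith),
      min_eq_left h1, sub_self]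
  · rcases le_total h (S (t + 1)) with h2 | h2
    · have h3 : (h - S t) / s t ≤ 1 := by rw [div_le_one hp]; linarith
      have h4 : 0 ≤ (h - S t) / s t := div_nonneg (by linarith) hp.le
      rw [min_eq_right h3, max_eq_right h4, min_eq_left h2, min_eq_right h1]
      field_simp
    · have h3 : 1 ≤ (h - S t) / s t := by rw [le_div_iff₀ hp]; linarith
      rw [min_eq_left h3, max_eq_right (by norm_num), min_eq_right h2, min_eq_right h1, hs]
      ring

theorem cx_one_of (hc : Clk S s) {h : ℝ} {t : ℕ} (h1 : S (t + 1) ≤ h) : cx S s h t = 1 := by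
  have hp := hc.pos t
  have hs := hc.step t
  have h3 : 1 ≤ (h - S t) / s t := by rw [le_div_iff₀ hp]; linarith
  unfold cx
  rw [min_eq_left h3, max_eq_right (by norm_num)]

theorem cx_zero_of (hc : Clk S s) {h : ℝ} {t : ℕ} (h1 : h ≤ S t) : cx S s h t = 0 := by
  have hp := hc.pos t
  have h2 : (h - S t) / s t ≤ 0 := div_nonpos_of_nonpos_of_nonneg (by linarith) hp.le
  unfold cx
  rw [min_eq_right (by linarith), max_eq_left h2]

theorem cx_zero_succ (hc : Clk S s) {h : ℝ} {t : ℕ} (h1 : cx S s h t ≠ 1) :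
    cx S s h (t + 1) = 0 := by
  apply cx_zero_of hc
  by_contra h2
  exact h1 (cx_one_of hc (not_le.1 h2).le)

theorem cx_anti (hc : Clk S s) (h : ℝ) (t : ℕ) : cx S s h (t + 1) ≤ cx S s h t := by
  by_cases h1 : cx S s h t = 1
  · rw [h1]; exact cx_le_one _ _
  · rw [cx_zero_succ hc h1]; exact cx_nonneg _ _

theorem cx_frac (hc : Clk S s) (h : ℝ) (t : ℕ) :
    cx S s h t * (1 - cx S s h t) ≤ cx S s h t - cx S s h (t + 1) := by
  by_cases h1 : cx S s h t = 1
  · rw [h1]
    have := cx_le_one (S := S) (s := s) h (t + 1)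
    linarith
  · rw [cx_zero_succ hc h1]
    have := cx_nonneg (S := S) (s := s) h t
    nlinarith

theorem cx_mono (hc : Clk S s) {h h' : ℝ} (hh : h ≤ h') (t : ℕ) : cx S s h t ≤ cx S s h' t := by
  have hp := hc.pos t
  unfold cx
  apply max_le_max le_rfl
  apply min_le_min le_rfl
  exact div_le_div_of_nonneg_right (by linarith) hp.le

theorem clk_nonneg (hc : Clk S s) (t : ℕ) : 0 ≤ S t := by
  induction t with
  | zero => rw [hc.zero]
  | succ t ih => rw [hc.step]; linarith [hc.pos t]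

theorem clk_mono (hc : Clk S s) : Monotone S := by
  apply monotone_nat_of_le_succ
  intro t
  rw [hc.step]
  linarith [hc.pos t]

theorem cx_sum (hc : Clk S s) {h : ℝ} (h0 : 0 ≤ h) (M : ℕ) :
    ∑ t ∈ Finset.range M, s t * cx S s h t = min h (S M) := by
  simp only [cx_mul hc]
  rw [Finset.sum_range_sub (fun t => min h (S t)), hc.zero, min_eq_right h0, sub_zero]

theorem cx_tv (hc : Clk S s) (h : ℝ) (M : ℕ) :
    ∑ t ∈ Finset.range M, (cx S s h t - cx S s h (t + 1)) ≤ 1 := by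
  rw [Finset.sum_range_sub' (fun t => cx S s h t)]
  have := cx_le_one (S := S) (s := s) h 0
  have := cx_nonneg (S := S) (s := s) h M
  linarith

section fdd

variable {k : ℕ} (τ : Fin (k + 1) → ℝ) (θ : Fin k → ℝ)

/-- the part of the step `t` between the levels `τ j` and `τ (j+1)` -/
noncomputable def yx (S s : ℕ → ℝ) (τ : Fin (k + 1) → ℝ) (j : Fin k) (t : ℕ) : ℝ :=
  cx S s (τ j.succ) t - cx S s (τ j.castSucc) t

/-- the coefficients -/
noncomputable def lx (S s : ℕ → ℝ) (τ : Fin (k + 1) → ℝ) (θ : Fin k → ℝ) (t : ℕ) : ℝ :=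
  ∑ j, θ j * yx S s τ j t

/-- the size of the coefficients -/
noncomputable def Th (θ : Fin k → ℝ) : ℝ := ∑ j, |θ j|

theorem Th_nonneg : 0 ≤ Th θ := Finset.sum_nonneg fun _ _ => abs_nonneg _

variable {τ}

theorem yx_nonneg (hc : Clk S s) (hτ : Monotone τ) (j : Fin k) (t : ℕ) : 0 ≤ yx S s τ j t :=
  sub_nonneg.2 (cx_mono hc (hτ j.castSucc_lt_succ.le) t)

theorem yx_le (hc : Clk S s) (hτ : Monotone τ) (j : Fin k) (t : ℕ) :
    yx S s τ j t ≤ cx S s (τ (Fin.last k)) t := by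
  have h1 := cx_mono hc (hτ (Fin.le_last j.succ)) t
  have h2 := cx_nonneg (S := S) (s := s) (τ j.castSucc) t
  unfold yx
  linarith

theorem yx_sum (hc : Clk S s) (t : ℕ) : ∑ j, yx S s τ j t ≤ 1 := by
  unfold yx
  have h : ∑ j : Fin k, (cx S s (τ j.succ) t - cx S s (τ j.castSucc) t)
      = cx S s (τ (Fin.last k)) t - cx S s (τ 0) t := by
    rw [Finset.sum_sub_distrib]
    have h1 := Fin.sum_univ_succ (fun j : Fin (k + 1) => cx S s (τ j) t)
    have h2 := Fin.sum_univ_castSucc (fun j : Fin (k + 1) => cx S s (τ j) t)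
    linarith
  rw [h]
  have := cx_le_one (S := S) (s := s) (τ (Fin.last k)) t
  have := cx_nonneg (S := S) (s := s) (τ 0) t
  linarith

theorem lx_le (hc : Clk S s) (hτ : Monotone τ) (t : ℕ) :
    |lx S s τ θ t| ≤ Th θ * cx S s (τ (Fin.last k)) t := by
  unfold lx Th
  refine (Finset.abs_sum_le_sum_abs _ _).trans ?_
  rw [Finset.sum_mul]
  refine Finset.sum_le_sum fun j _ => ?_
  rw [abs_mul, abs_of_nonneg (yx_nonneg hc hτ j t)]
  exact mul_le_mul_of_nonneg_left (yx_le hc hτ j t) (abs_nonneg _)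

theorem lx_le' (hc : Clk S s) (hτ : Monotone τ) (t : ℕ) : |lx S s τ θ t| ≤ Th θ := by
  refine (lx_le θ hc hτ t).trans ?_
  have := cx_le_one (S := S) (s := s) (τ (Fin.last k)) t
  have := Th_nonneg θ
  nlinarith

theorem lx_sq_le (hc : Clk S s) (hτ : Monotone τ) (h0 : 0 ≤ τ (Fin.last k)) (M : ℕ) :
    ∑ t ∈ Finset.range M, s t * lx S s τ θ t ^ 2 ≤ Th θ ^ 2 * τ (Fin.last k) := by
  have h1 : ∀ t ∈ Finset.range M, s t * lx S s τ θ t ^ 2
      ≤ Th θ ^ 2 * (s t * cx S s (τ (Fin.last k)) t) := by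
    intro t _
    have a1 := lx_le θ hc hτ t
    have a2 := cx_le_one (S := S) (s := s) (τ (Fin.last k)) t
    have a3 := cx_nonneg (S := S) (s := s) (τ (Fin.last k)) t
    have a4 : lx S s τ θ t ^ 2 ≤ (Th θ * cx S s (τ (Fin.last k)) t) ^ 2 := by
      rw [← sq_abs]
      exact pow_le_pow_left₀ (abs_nonneg _) a1 2
    have a5 : (Th θ * cx S s (τ (Fin.last k)) t) ^ 2 ≤ Th θ ^ 2 * cx S s (τ (Fin.last k)) t := by
      rw [mul_pow]
      apply mul_le_mul_of_nonneg_left _ (sq_nonneg _)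
      nlinarith
    have a6 := mul_le_mul_of_nonneg_left (a4.trans a5) (hc.pos t).le
    linarith
  refine (Finset.sum_le_sum h1).trans ?_
  rw [← Finset.mul_sum, cx_sum hc h0]
  exact mul_le_mul_of_nonneg_left (min_le_left _ _) (sq_nonneg _)

theorem sq_diff {y : Fin k → ℝ} (h0 : ∀ j, 0 ≤ y j) (h1 : ∑ j, y j ≤ 1) :
    |(∑ j, θ j * y j) ^ 2 - ∑ j, θ j ^ 2 * y j| ≤ Th θ ^ 2 * ∑ j, y j * (1 - y j) := by
  have hy1 : ∀ j, y j ≤ 1 := fun j =>
    (Finset.single_le_sum (fun i _ => h0 i) (Finset.mem_univ j)).trans h1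
  have e : (∑ j, θ j * y j) ^ 2 - ∑ j, θ j ^ 2 * y j
      = ∑ i, θ i * y i * ((∑ j, θ j * y j) - θ i) := by
    rw [sq, Finset.sum_mul, ← Finset.sum_sub_distrib]
    exact Finset.sum_congr rfl fun i _ => by ring
  rw [e]
  refine (Finset.abs_sum_le_sum_abs _ _).trans ?_
  rw [Finset.mul_sum]
  refine Finset.sum_le_sum fun i _ => ?_
  have h2 : |(∑ j, θ j * y j) - θ i| ≤ Th θ * (1 - y i) := by
    have e2 : (∑ j, θ j * y j) - θ i = ∑ j, θ j * (y j - if j = i then 1 else 0) := by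
      have : ∀ j, θ j * (y j - if j = i then 1 else 0) = θ j * y j - if j = i then θ i else 0 := by
        intro j
        by_cases hj : j = i
        · rw [if_pos hj, if_pos hj, hj]; ring
        · rw [if_neg hj, if_neg hj]; ring
      rw [Finset.sum_congr rfl fun j _ => this j, Finset.sum_sub_distrib,
        Finset.sum_ite_eq' Finset.univ i, if_pos (Finset.mem_univ _)]
    rw [e2]
    refine (Finset.abs_sum_le_sum_abs _ _).trans ?_
    unfold Th
    rw [Finset.sum_mul]
    refine Finset.sum_le_sum fun j _ => ?_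
    rw [abs_mul]
    apply mul_le_mul_of_nonneg_left _ (abs_nonneg _)
    by_cases hj : j = i
    · rw [if_pos hj, hj, abs_le]
      constructor <;> linarith [hy1 i, h0 i]
    · rw [if_neg hj, sub_zero, abs_of_nonneg (h0 j)]
      have : y i + y j ≤ ∑ l, y l := by
        rw [← Finset.sum_pair (f := y) (Ne.symm hj)]
        exact Finset.sum_le_sum_of_subset_of_nonneg (Finset.subset_univ _) fun l _ _ => h0 l
      linarith
  have h3 : |θ i| ≤ Th θ :=
    Finset.single_le_sum (f := fun j => |θ j|) (fun _ _ => abs_nonneg _) (Finset.mem_univ i)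
  rw [abs_mul, abs_mul, abs_of_nonneg (h0 i)]
  have h4 := Th_nonneg θ
  have h5 : 0 ≤ 1 - y i := by linarith [hy1 i]
  calc |θ i| * y i * |(∑ j, θ j * y j) - θ i| ≤ |θ i| * y i * (Th θ * (1 - y i)) :=
        mul_le_mul_of_nonneg_left h2 (mul_nonneg (abs_nonneg _) (h0 i))
    _ ≤ Th θ * y i * (Th θ * (1 - y i)) := by
        apply mul_le_mul_of_nonneg_right _ (mul_nonneg h4 h5)
        exact mul_le_mul_of_nonneg_right h3 (h0 i)
    _ = _ := by ring

theorem lx_sq (hc : Clk S s) (hτ : Monotone τ) (h0 : 0 ≤ τ 0) {M : ℕ} (hM : τ (Fin.last k) ≤ S M) :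
    |∑ t ∈ Finset.range M, s t * lx S s τ θ t ^ 2 - ∑ j : Fin k, θ j ^ 2 * (τ j.succ - τ j.castSucc)|
      ≤ Th θ ^ 2 * (2 * k) := by
  have hpos : ∀ j, 0 ≤ τ j := fun j => h0.trans (hτ (Fin.zero_le j))
  have hle : ∀ j, τ j ≤ S M := fun j => (hτ (Fin.le_last j)).trans hM
  have e1 : ∑ j : Fin k, θ j ^ 2 * (τ j.succ - τ j.castSucc)
      = ∑ t ∈ Finset.range M, s t * ∑ j, θ j ^ 2 * yx S s τ j t := by
    have : ∀ j : Fin k, τ j.succ - τ j.castSucc = ∑ t ∈ Finset.range M, s t * yx S s τ j t := by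
      intro j
      unfold yx
      simp only [mul_sub]
      rw [Finset.sum_sub_distrib, cx_sum hc (hpos _), cx_sum hc (hpos _), min_eq_left (hle _),
        min_eq_left (hle _)]
    simp only [this, Finset.mul_sum]
    rw [Finset.sum_comm]
    exact Finset.sum_congr rfl fun t _ => Finset.sum_congr rfl fun j _ => by ring
  rw [e1, ← Finset.sum_sub_distrib]
  refine (Finset.abs_sum_le_sum_abs _ _).trans ?_
  have h1 : ∀ t ∈ Finset.range M, |s t * lx S s τ θ t ^ 2 - s t * ∑ j, θ j ^ 2 * yx S s τ j t|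
      ≤ Th θ ^ 2 * ∑ j : Fin k, ((cx S s (τ j.succ) t - cx S s (τ j.succ) (t + 1))
        + (cx S s (τ j.castSucc) t - cx S s (τ j.castSucc) (t + 1))) := by
    intro t _
    rw [← mul_sub, abs_mul, abs_of_pos (hc.pos t)]
    have a1 := sq_diff θ (y := fun j => yx S s τ j t) (fun j => yx_nonneg hc hτ j t) (yx_sum hc t)
    change |lx S s τ θ t ^ 2 - _| ≤ _ at a1
    have a2 : 0 ≤ |lx S s τ θ t ^ 2 - ∑ j, θ j ^ 2 * yx S s τ j t| := abs_nonneg _
    calc _ ≤ 1 * |lx S s τ θ t ^ 2 - ∑ j, θ j ^ 2 * yx S s τ j t| :=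
          mul_le_mul_of_nonneg_right (hc.le t) a2
      _ ≤ Th θ ^ 2 * ∑ j, yx S s τ j t * (1 - yx S s τ j t) := by rw [one_mul]; exact a1
      _ ≤ _ := by
        apply mul_le_mul_of_nonneg_left _ (sq_nonneg _)
        refine Finset.sum_le_sum fun j _ => ?_
        have b1 := cx_frac hc (τ j.succ) t
        have b2 := cx_frac hc (τ j.castSucc) t
        have b3 := cx_mono hc (hτ j.castSucc_lt_succ.le) t
        have b4 := cx_nonneg (S := S) (s := s) (τ j.castSucc) t
        have b5 := cx_le_one (S := S) (s := s) (τ j.succ) t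
        unfold yx
        nlinarith [mul_nonneg b4 (sub_nonneg.2 b5)]
  refine (Finset.sum_le_sum h1).trans ?_
  rw [← Finset.mul_sum, Finset.sum_comm]
  apply mul_le_mul_of_nonneg_left _ (sq_nonneg _)
  have h2 : ∀ j ∈ (Finset.univ : Finset (Fin k)), ∑ t ∈ Finset.range M,
      ((cx S s (τ j.succ) t - cx S s (τ j.succ) (t + 1))
        + (cx S s (τ j.castSucc) t - cx S s (τ j.castSucc) (t + 1))) ≤ 2 := by
    intro j _
    rw [Finset.sum_add_distrib]
    have b1 := cx_tv hc (τ j.succ) M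
    have b2 := cx_tv hc (τ j.castSucc) M
    linarith
  refine (Finset.sum_le_sum h2).trans ?_
  rw [Finset.sum_const, Finset.card_univ, Fintype.card_fin, nsmul_eq_mul]
  linarith

theorem lx_tv (hc : Clk S s) (M : ℕ) :
    ∑ t ∈ Finset.range M, |lx S s τ θ (t + 1) - lx S s τ θ t| ≤ 2 * Th θ := by
  have h1 : ∀ t ∈ Finset.range M, |lx S s τ θ (t + 1) - lx S s τ θ t| ≤
      ∑ j : Fin k, |θ j| * ((cx S s (τ j.succ) t - cx S s (τ j.succ) (t + 1))
        + (cx S s (τ j.castSucc) t - cx S s (τ j.castSucc) (t + 1))) := by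
    intro t _
    unfold lx
    rw [← Finset.sum_sub_distrib]
    refine (Finset.abs_sum_le_sum_abs _ _).trans (Finset.sum_le_sum fun j _ => ?_)
    rw [← mul_sub, abs_mul]
    apply mul_le_mul_of_nonneg_left _ (abs_nonneg _)
    have b1 := cx_anti hc (τ j.succ) t
    have b2 := cx_anti hc (τ j.castSucc) t
    unfold yx
    rw [abs_le]
    constructor <;> linarith
  refine (Finset.sum_le_sum h1).trans ?_
  rw [Finset.sum_comm]
  unfold Th
  rw [Finset.mul_sum]
  refine Finset.sum_le_sum fun j _ => ?_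
  rw [← Finset.mul_sum, Finset.sum_add_distrib, mul_comm 2]
  apply mul_le_mul_of_nonneg_left _ (abs_nonneg _)
  have b1 := cx_tv hc (τ j.succ) M
  have b2 := cx_tv hc (τ j.castSucc) M
  linarith

theorem lx_tv2 (hc : Clk S s) (hτ : Monotone τ) (M : ℕ) :
    ∑ t ∈ Finset.range M, |lx S s τ θ (t + 1) ^ 2 - lx S s τ θ t ^ 2| ≤ 4 * Th θ ^ 2 := by
  have h1 : ∀ t ∈ Finset.range M, |lx S s τ θ (t + 1) ^ 2 - lx S s τ θ t ^ 2|
      ≤ 2 * Th θ * |lx S s τ θ (t + 1) - lx S s τ θ t| := by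
    intro t _
    have e : lx S s τ θ (t + 1) ^ 2 - lx S s τ θ t ^ 2
        = (lx S s τ θ (t + 1) + lx S s τ θ t) * (lx S s τ θ (t + 1) - lx S s τ θ t) := by ring
    rw [e, abs_mul]
    apply mul_le_mul_of_nonneg_right _ (abs_nonneg _)
    have a1 := lx_le' θ hc hτ (t + 1)
    have a2 := lx_le' θ hc hτ t
    refine (abs_add_le _ _).trans ?_
    linarith
  refine (Finset.sum_le_sum h1).trans ?_
  rw [← Finset.mul_sum]
  have h2 := lx_tv (τ := τ) θ hc M
  have h3 := Th_nonneg θ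
  nlinarith

theorem lx_end (hc : Clk S s) (hτ : Monotone τ) {M : ℕ} (hM : τ (Fin.last k) ≤ S M) :
    lx S s τ θ M = 0 := by
  have := lx_le θ hc hτ M
  rw [cx_zero_of hc hM, mul_zero] at this
  exact abs_nonpos_iff.1 this

/-- summation by parts -/
theorem sbp (l F : ℕ → ℝ) (M : ℕ) (R : ℝ) (hF : ∀ t, |F t| ≤ R) :
    |∑ t ∈ Finset.range M, l t * (F (t + 1) - F t)| ≤
      R * (|l M| + |l 0| + ∑ t ∈ Finset.range M, |l (t + 1) - l t|) := by
  have e : ∑ t ∈ Finset.range M, l t * (F (t + 1) - F t)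
      = l M * F M - l 0 * F 0 - ∑ t ∈ Finset.range M, (l (t + 1) - l t) * F (t + 1) := by
    induction M with
    | zero => simp
    | succ M ih =>
      rw [Finset.sum_range_succ, Finset.sum_range_succ, ih]
      ring
  rw [e]
  have h1 : |∑ t ∈ Finset.range M, (l (t + 1) - l t) * F (t + 1)|
      ≤ R * ∑ t ∈ Finset.range M, |l (t + 1) - l t| := by
    refine (Finset.abs_sum_le_sum_abs _ _).trans ?_
    rw [Finset.mul_sum]
    refine Finset.sum_le_sum fun t _ => ?_
    rw [abs_mul, mul_comm]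
    exact mul_le_mul_of_nonneg_right (hF _) (abs_nonneg _)
  have h2 : |l M * F M| ≤ R * |l M| := by
    rw [abs_mul, mul_comm]; exact mul_le_mul_of_nonneg_right (hF _) (abs_nonneg _)
  have h3 : |l 0 * F 0| ≤ R * |l 0| := by
    rw [abs_mul, mul_comm]; exact mul_le_mul_of_nonneg_right (hF _) (abs_nonneg _)
  calc _ ≤ |l M * F M - l 0 * F 0| + |∑ t ∈ Finset.range M, (l (t + 1) - l t) * F (t + 1)| :=
        abs_sub _ _
    _ ≤ (|l M * F M| + |l 0 * F 0|) + |∑ t ∈ Finset.range M, (l (t + 1) - l t) * F (t + 1)| := by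
        have := abs_sub (l M * F M) (l 0 * F 0)
        linarith
    _ ≤ _ := by linarith

end fdd

end H729I
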