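import Pool.Agent.Run7.h729.Iso.Chf
import Pool.Agent.Run7.h729.Iso.Seq

/-!
# Characteristic functions of the increments of the path
-/

set_option autoImplicit false

namespace H729I
open H906K Pool.Agent.H974R3 Set Complex

variable {n : ℕ} {f g : Pat (2 * n + 1) → ℝ} {v D : ℝ → ℝ}

theorem rows_rows {M m r : ℕ} (c : Conf n M) (h : r ≤ m) : rows (rows c m) r = rows c r := by
  funext i j
  have hi : (i : ℕ) < m := lt_of_lt_of_le i.2 h
  unfold rows
  rw [dif_pos hi]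

theorem Sm_rows (φ : Strat n) {M : ℕ} (c : Conf n M) (t : ℕ) :
    Sm φ (t + 1) (rows c (t + 1)) = Sm φ t (rows c t) + φ t (rows c t) := by
  unfold Sm
  rw [Finset.sum_range_succ, rows_rows c (Nat.le_succ t)]
  congr 1
  refine Finset.sum_congr rfl fun r hr => ?_
  have hr' := Finset.mem_range.1 hr
  rw [rows_rows c (show r ≤ t + 1 by omega), rows_rows c hr'.le]

/-- all angles lie in the open interval -/
def AdmO (θ : Strat n) : Prop := ∀ t c, θ t c ∈ Ioo (0 : ℝ) Real.pi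

theorem AdmO.adm {θ : Strat n} (h : AdmO θ) : Adm θ := fun t c => Ioo_subset_Icc_self (h t c)

/-- the clock: the height of the first `t` rows in the isoradial embedding -/
noncomputable def Sq (θ : Strat n) {M : ℕ} (c : Conf n M) (t : ℕ) : ℝ :=
  Sm (fun t c => Real.sin (θ t c)) t (rows c t)

/-- the height of the row `t` -/
noncomputable def sn (θ : Strat n) {M : ℕ} (c : Conf n M) (t : ℕ) : ℝ := Real.sin (θ t (rows c t))

theorem clk {θ : Strat n} (h : AdmO θ) {M : ℕ} (c : Conf n M) : Clk (Sq θ c) (sn θ c) where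
  zero := by unfold Sq; exact Sm_zero _ _
  step t := by unfold Sq sn; exact Sm_rows _ c t
  pos t := Real.sin_pos_of_mem_Ioo (h t _)
  le _ := Real.sin_le_one _

theorem Sq_rows (θ : Strat n) {M m : ℕ} (c : Conf n M) {t : ℕ} (h : t ≤ m) :
    Sq θ (rows c m) t = Sq θ c t := by
  unfold Sq
  rw [rows_rows c h]

theorem sn_rows (θ : Strat n) {M m : ℕ} (c : Conf n M) {t : ℕ} (h : t ≤ m) :
    sn θ (rows c m) t = sn θ c t := by
  unfold sn
  rw [rows_rows c h]

theorem Sq_self (θ : Strat n) {M : ℕ} (c : Conf n M) :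
    Sq θ c M = Sm (fun t c => Real.sin (θ t c)) M c := by
  unfold Sq
  rw [rows_self]

/-- the displacement minus the drift -/
noncomputable def Yd (v : ℝ → ℝ) (θ : Strat n) (M : ℕ) (c : Conf n M) : ℝ :=
  dis c - Sm (fun t c => v (θ t c)) M c

/-- the path of the compensated displacement as a function of the height -/
noncomputable def wp (v : ℝ → ℝ) (θ : Strat n) (H a : ℝ) {M : ℕ} (c : Conf n M) :
    C(unitInterval, ℝ) :=
  ⟨fun s => a * ∑ t ∈ Finset.range M, (Yd v θ (t + 1) (rows c (t + 1)) - Yd v θ t (rows c t)) *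
    cx (Sq θ c) (sn θ c) (s * H) t, by unfold cx; fun_prop⟩

/-- the predictable coefficients -/
noncomputable def ls (θ : Strat n) (a : ℝ) {k : ℕ} (τ : Fin (k + 1) → ℝ) (ϑ : Fin k → ℝ) : Strat n :=
  fun t c => a * lx (Sq θ c) (sn θ c) τ ϑ t

theorem ls_rows (θ : Strat n) (a : ℝ) {k : ℕ} (τ : Fin (k + 1) → ℝ) (ϑ : Fin k → ℝ) {M : ℕ}
    (c : Conf n M) (t : ℕ) : ls θ a τ ϑ t (rows c t) = a * lx (Sq θ c) (sn θ c) τ ϑ t := by
  unfold ls lx yx cx
  rw [Sq_rows θ c le_rfl, sn_rows θ c le_rfl]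

/-- the asymptotics of the drift and of the diffusivity -/
def Asym (n : ℕ) (v D : ℝ → ℝ) (K : ℝ) : Prop := ∀ θ ∈ Icc 0 Real.pi,
  |v θ - Real.cos θ| ≤ K * Real.sin θ ^ 2 / (2 * n + 1) ^ 2 ∧
  |2 * Real.pi * D θ / (2 * n + 1) - 6 * Real.sin θ| ≤ K * Real.sin θ / (2 * n + 1)

theorem asym_D {K : ℝ} (h : Asym n v D K) {θ : ℝ} (hθ : θ ∈ Icc 0 Real.pi) :
    |D θ - 3 * (2 * n + 1) / Real.pi * Real.sin θ| ≤ K / (2 * Real.pi) * Real.sin θ := by
  have hpi := Real.pi_pos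
  have hN : (0 : ℝ) < 2 * n + 1 := by positivity
  have h1 := (h θ hθ).2
  have e : D θ - 3 * (2 * n + 1) / Real.pi * Real.sin θ
      = (2 * n + 1) / (2 * Real.pi) * (2 * Real.pi * D θ / (2 * n + 1) - 6 * Real.sin θ) := by
    field_simp
    ring
  rw [e, abs_mul, abs_of_pos (by positivity : 0 < (2 * (n : ℝ) + 1) / (2 * Real.pi))]
  calc _ ≤ (2 * (n : ℝ) + 1) / (2 * Real.pi) * (K * Real.sin θ / (2 * n + 1)) :=
        mul_le_mul_of_nonneg_left h1 (by positivity)
    _ = _ := by field_simp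

theorem fdd_est (h : Crr n f g v D) {R K : ℝ} (hB : Bnd n f g v D R) (hA : Asym n v D K)
    (hn : 1 ≤ n) (hK : 0 ≤ K) {θ : Strat n} (hθ : AdmO θ) {H : ℝ} (hH : 1 ≤ H) (hHR : R ^ 6 ≤ H) {M : ℕ}
    (hM : ∀ c : Conf n M, H ≤ Sm (fun t c => Real.sin (θ t c)) M c) {k : ℕ}
    (t : Fin (k + 1) → unitInterval) (ht : Monotone t) (ϑ : Fin k → ℝ) :
    ‖EE θ M (fun c => cexp (((∑ j : Fin k, ϑ j *
        (wp v θ H (√(Real.pi / (3 * (2 * n + 1) * H))) c (t j.succ)
          - wp v θ H (√(Real.pi / (3 * (2 * n + 1) * H))) c (t j.castSucc)) : ℝ) : ℂ) * I))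
      - cexp (((-∑ j : Fin k, ϑ j ^ 2 * ((t j.succ : ℝ) - t j.castSucc) / 2 : ℝ) : ℂ))‖
      ≤ (3 * Th ϑ + Real.exp (Th ϑ ^ 2 * (1 + K) / 2) * (k * Th ϑ ^ 2
        + K * Th ϑ ^ 2 * (1 + 2 * k) + 6 * Th ϑ ^ 3 + 2 * Th ϑ ^ 2) + Th ϑ ^ 2)
        * (R ^ 3 / √H + 1 / (2 * n + 1)) := by
  have hpi := Real.pi_pos
  have hN3 : (3 : ℝ) ≤ 2 * n + 1 := by
    have : (1 : ℝ) ≤ n := by exact_mod_cast hn
    linarith
  have hH0 : 0 < H := by linarith
  have hR := hB.one
  have hR0 : 0 < R := by linarith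
  have hasymD : ∀ θ ∈ Icc 0 Real.pi, |D θ - 3 * (2 * n + 1) / Real.pi * Real.sin θ|
      ≤ K / (2 * Real.pi) * Real.sin θ := fun θ hθ => asym_D hA hθ
  set N : ℝ := 2 * n + 1 with hNdef
  have hN0 : 0 < N := by linarith
  set a : ℝ := √(Real.pi / (3 * N * H)) with ha
  have ha0 : 0 ≤ a := Real.sqrt_nonneg _
  have ha2 : a ^ 2 = Real.pi / (3 * N * H) := Real.sq_sqrt (by positivity)
  set q : ℝ := R ^ 3 / √H with hq
  have hsH : 0 < √H := Real.sqrt_pos.2 hH0
  have hsH1 : 1 ≤ √H := Real.one_le_sqrt.2 hH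
  have hsHsq : √H ^ 2 = H := Real.sq_sqrt hH0.le
  have hR3 : R ^ 3 ≤ √H := by
    apply Real.le_sqrt_of_sq_le
    calc (R ^ 3) ^ 2 = R ^ 6 := by ring
      _ ≤ H := hHR
  have hq0 : 0 < q := by positivity
  have hq1 : q ≤ 1 := by rw [hq, div_le_one hsH]; exact hR3
  have hR3' : 1 ≤ R ^ 3 := one_le_pow₀ hR
  have hRR3 : R ≤ R ^ 3 := by
    calc R = R ^ 1 := (pow_one R).symm
      _ ≤ R ^ 3 := pow_le_pow_right₀ hR (by norm_num)
  have ha3 : a ^ 2 ≤ 1 / H := by
    rw [ha2, div_le_div_iff₀ (by positivity) hH0]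
    have := Real.pi_lt_four
    nlinarith [mul_pos hN0 hH0]
  have ha4 : a ≤ 1 / √H := by
    apply le_of_sq_le_sq _ (by positivity)
    rw [div_pow, hsHsq, one_pow]
    exact ha3
  have haR : a * R ≤ q := by
    calc a * R ≤ 1 / √H * R ^ 3 := mul_le_mul ha4 hRR3 hR0.le (by positivity)
      _ = q := by rw [hq]; ring
  have ha2R : a ^ 2 * R ≤ q := by
    have h1 : 1 / H ≤ 1 / √H := by
      apply one_div_le_one_div_of_le hsH
      calc √H = √H * 1 := by ring
        _ ≤ √H * √H := mul_le_mul_of_nonneg_left hsH1 hsH.le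
        _ = H := by rw [← sq, hsHsq]
    calc a ^ 2 * R ≤ 1 / √H * R ^ 3 := mul_le_mul (ha3.trans h1) hRR3 hR0.le (by positivity)
      _ = q := by rw [hq]; ring
  have ha3R : a ^ 3 * R ^ 3 * H ≤ q := by
    have h1 : a ^ 3 * H ≤ 1 / √H := by
      calc a ^ 3 * H = a * (a ^ 2 * H) := by ring
        _ ≤ 1 / √H * (1 / H * H) := by
          apply mul_le_mul ha4 _ (by positivity) (by positivity)
          exact mul_le_mul_of_nonneg_right ha3 hH0.le
        _ = 1 / √H := by field_simp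
    calc a ^ 3 * R ^ 3 * H = (a ^ 3 * H) * R ^ 3 := by ring
      _ ≤ 1 / √H * R ^ 3 := mul_le_mul_of_nonneg_right h1 (by positivity)
      _ = q := by rw [hq]; ring
  have hHq : 1 / H ≤ q := by
    rw [hq, div_le_div_iff₀ hH0 hsH]
    calc 1 * √H ≤ √H * √H := mul_le_mul_of_nonneg_right hsH1 hsH.le
      _ = 1 * H := by rw [← sq, hsHsq, one_mul]
      _ ≤ R ^ 3 * H := mul_le_mul_of_nonneg_right hR3' hH0.le
  set Θ := Th ϑ with hΘ
  have hΘ0 : 0 ≤ Θ := Th_nonneg ϑ
  set τ : Fin (k + 1) → ℝ := fun j => (t j : ℝ) * H with hτdef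
  have hτm : Monotone τ := fun i j hij => mul_le_mul_of_nonneg_right (ht hij) hH0.le
  have hτ0 : ∀ j, 0 ≤ τ j := fun j => mul_nonneg (t j).2.1 hH0.le
  have hτH : ∀ j, τ j ≤ H := fun j => by
    calc τ j ≤ 1 * H := mul_le_mul_of_nonneg_right (t j).2.2 hH0.le
      _ = H := one_mul H
  set l : Strat n := ls θ a τ ϑ with hl
  set As : ℝ := ∑ j : Fin k, ϑ j ^ 2 * ((t j.succ : ℝ) - t j.castSucc) with hAs
  have hAs2 : -∑ j : Fin k, ϑ j ^ 2 * ((t j.succ : ℝ) - t j.castSucc) / 2 = -(As / 2) := by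
    rw [hAs, Finset.sum_div]
  rw [hAs2]
  have hdt : ∀ j : Fin k, 0 ≤ (t j.succ : ℝ) - t j.castSucc := fun j =>
    sub_nonneg.2 (ht j.castSucc_lt_succ.le)
  have hAs0 : 0 ≤ As := Finset.sum_nonneg fun j _ => mul_nonneg (sq_nonneg _) (hdt j)
  set E : ℝ := Real.exp (Θ ^ 2 * (1 + K) / 2) with hE
  have hE0 : 0 < E := Real.exp_pos _
  set P : Conf n M → ℝ := fun c => ∑ j : Fin k, ϑ j *
        (wp v θ H a c (t j.succ) - wp v θ H a c (t j.castSucc)) with hP
  have hmul : 0 ≤ E * (k * Θ ^ 2 + K * Θ ^ 2 * (1 + 2 * k) + 6 * Θ ^ 3 + 2 * Θ ^ 2) := by positivity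
  have hNq : 0 < q + 1 / N := by positivity
  have adm := hθ.adm
  -- trivial case
  have triv : ‖EE θ M (fun c => cexp (((P c : ℝ) : ℂ) * I)) - cexp (((-(As / 2) : ℝ) : ℂ))‖ ≤ 2 := by
    refine (norm_sub_le _ _).trans ?_
    have h1 : ‖EE θ M (fun c => cexp (((P c : ℝ) : ℂ) * I))‖ ≤ 1 := by
      refine (EE_norm adm _).trans ?_
      simp only [Complex.norm_exp_ofReal_mul_I]
      rw [EE_const]
    have h2 : ‖cexp (((-(As / 2) : ℝ) : ℂ))‖ ≤ 1 := by
      rw [Complex.norm_exp, Complex.ofReal_re]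
      exact Real.exp_le_one_iff.2 (by linarith)
    linarith
  rcases lt_or_ge 1 (Θ * q) with hbig | hsmall
  · refine triv.trans ?_
    have h1 : 3 * Θ * q ≤ (3 * Θ + E * (k * Θ ^ 2 + K * Θ ^ 2 * (1 + 2 * k) + 6 * Θ ^ 3
        + 2 * Θ ^ 2) + Θ ^ 2) * (q + 1 / N) := by
      apply mul_le_mul _ _ hq0.le _
      · have : 0 ≤ Θ ^ 2 := sq_nonneg _
        linarith
      · have : 0 < 1 / N := by positivity
        linarith
      · have : 0 ≤ Θ ^ 2 := sq_nonneg _
        linarith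
    linarith
  -- the main case
  have hδ : a * Θ * R ≤ 1 := by
    calc a * Θ * R = Θ * (a * R) := by ring
      _ ≤ Θ * q := mul_le_mul_of_nonneg_left haR hΘ0
      _ ≤ 1 := hsmall
  have hlb : ∀ t' c, |l t' c| ≤ a * Θ := by
    intro t' c
    rw [hl]
    unfold ls
    rw [abs_mul, abs_of_nonneg ha0]
    exact mul_le_mul_of_nonneg_left (lx_le' ϑ (clk hθ c) hτm t') ha0
  have hsqle : ∀ (M' : ℕ) (c : Conf n M'),
      Sm (fun t c => l t c ^ 2 * Real.sin (θ t c)) M' c ≤ a ^ 2 * (Θ ^ 2 * H) := by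
    intro M' c
    have h1 := lx_sq_le ϑ (clk hθ c) hτm (hτ0 _) M'
    have e : Sm (fun t c => l t c ^ 2 * Real.sin (θ t c)) M' c
        = a ^ 2 * ∑ t' ∈ Finset.range M', sn θ c t' * lx (Sq θ c) (sn θ c) τ ϑ t' ^ 2 := by
      unfold Sm
      rw [Finset.mul_sum]
      refine Finset.sum_congr rfl fun t' _ => ?_
      show l t' (rows c t') ^ 2 * Real.sin (θ t' (rows c t')) = _
      rw [hl, ls_rows]
      unfold sn
      ring
    rw [e]
    apply mul_le_mul_of_nonneg_left _ (sq_nonneg a)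
    exact h1.trans (mul_le_mul_of_nonneg_left (hτH _) (sq_nonneg _))
  have hDb : ∀ θ ∈ Icc 0 Real.pi, D θ ≤ (3 * N / Real.pi + K / (2 * Real.pi)) * Real.sin θ := by
    intro θ hθ
    have := (abs_le.1 (hasymD θ hθ)).2
    linarith
  have hCa : (3 * N / Real.pi + K / (2 * Real.pi)) * (a ^ 2 * (Θ ^ 2 * H)) ≤ Θ ^ 2 * (1 + K) := by
    have e : (3 * N / Real.pi + K / (2 * Real.pi)) * (a ^ 2 * (Θ ^ 2 * H))
        = Θ ^ 2 * (1 + K / (6 * N)) := by
      rw [ha2]
      field_simp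
      ring
    rw [e]
    apply mul_le_mul_of_nonneg_left _ (sq_nonneg _)
    have : K / (6 * N) ≤ K := div_le_self hK (by linarith)
    linarith
  have hLL : ∀ (M' : ℕ) (c : Conf n M'), AA D θ l M' c ≤ Θ ^ 2 * (1 + K) := by
    intro M' c
    refine le_trans ?_ hCa
    refine le_trans ?_ (mul_le_mul_of_nonneg_left (hsqle M' c) (by positivity))
    unfold AA Sm
    rw [Finset.mul_sum]
    refine Finset.sum_le_sum fun t' _ => ?_
    have := mul_le_mul_of_nonneg_left (hDb _ (adm t' (rows c t'))) (sq_nonneg (l t' (rows c t')))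
    linarith
  have htv : ∀ c : Conf n M, TV2 l M c ≤ 4 * (a ^ 2 * Θ ^ 2) := by
    intro c
    have h1 := lx_tv2 ϑ (clk hθ c) hτm M
    have e : TV2 l M c = a ^ 2 * ∑ t' ∈ Finset.range M,
        |lx (Sq θ c) (sn θ c) τ ϑ (t' + 1) ^ 2 - lx (Sq θ c) (sn θ c) τ ϑ t' ^ 2| := by
      unfold TV2
      rw [Finset.mul_sum]
      refine Finset.sum_congr rfl fun t' _ => ?_
      rw [hl, ls_rows, ls_rows, mul_pow, mul_pow, ← mul_sub, abs_mul,
        abs_of_nonneg (sq_nonneg a)]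
    rw [e]
    have := mul_le_mul_of_nonneg_left h1 (sq_nonneg a)
    linarith
  have hchf := chf_aux h hB adm l hδ hlb M (fun t' _ c => hLL t' c)
  have hchf2 : ‖EE θ M (Ph f g v D I θ l M) - Ph f g v D I θ l 0 (fun t => t.elim0)‖
      ≤ E * ((6 * Θ ^ 3 + 2 * Θ ^ 2) * q) := by
    refine hchf.trans (mul_le_mul_of_nonneg_left ?_ hE0.le)
    refine (EE_mono adm (G := fun _ => (6 * Θ ^ 3 + 2 * Θ ^ 2) * q) fun c => ?_).trans
      (by rw [EE_const])
    have h1 := mul_le_mul_of_nonneg_left (hsqle M c) (by positivity : 0 ≤ 6 * R ^ 3 * (a * Θ))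
    have h2 := mul_le_mul_of_nonneg_left (htv c) (by positivity : 0 ≤ R / 2)
    have h3 : 6 * R ^ 3 * (a * Θ) * (a ^ 2 * (Θ ^ 2 * H)) ≤ 6 * Θ ^ 3 * q := by
      calc _ = 6 * Θ ^ 3 * (a ^ 3 * R ^ 3 * H) := by ring
        _ ≤ _ := mul_le_mul_of_nonneg_left ha3R (by positivity)
    have h4 : R / 2 * (4 * (a ^ 2 * Θ ^ 2)) ≤ 2 * Θ ^ 2 * q := by
      calc _ = 2 * Θ ^ 2 * (a ^ 2 * R) := by ring
        _ ≤ _ := mul_le_mul_of_nonneg_left ha2R (by positivity)
    linarith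
  -- the end and the beginning
  have hend : ∀ c : Conf n M, l M c = 0 := by
    intro c
    rw [hl]
    unfold ls
    rw [lx_end ϑ (clk hθ c) hτm (by
      rw [Sq_self]; exact (hτH _).trans (hM c)), mul_zero]
  have hPhM : Ph f g v D I θ l M = fun c => cexp (I * NN f v θ l M c + AA D θ l M c / 2) := by
    funext c
    unfold Ph
    rw [hend c]
    have e : I * (NN f v θ l M c : ℂ) - I ^ 2 * (AA D θ l M c : ℂ) / 2
        = I * NN f v θ l M c + AA D θ l M c / 2 := by rw [I_sq]; ring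
    rw [e]
    simp
  have hPh0 : ‖Ph f g v D I θ l 0 (fun t => t.elim0) - 1‖ ≤ Θ ^ 2 * q := by
    unfold Ph
    have e0 : AA D θ l 0 (fun t => t.elim0) = 0 := Sm_zero _ _
    rw [NN_zero, e0]
    have e : cexp (I * ((0 : ℝ) : ℂ) - I ^ 2 * ((0 : ℝ) : ℂ) / 2) * (1 + I ^ 2 *
        ((l 0 (fun t => t.elim0) : ℂ) ^ 2 * (g (pat (fun t => t.elim0 : Conf n 0)) : ℂ)) / 2) - 1
        = ((-(l 0 (fun t => t.elim0) ^ 2 * g (pat (fun t => t.elim0 : Conf n 0)) / 2) : ℝ) : ℂ) := by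
      rw [I_sq]
      push_cast
      simp
      ring
    rw [e, Complex.norm_real, Real.norm_eq_abs, abs_neg, abs_div, abs_mul,
      abs_of_nonneg (sq_nonneg _)]
    have h1 : l 0 (fun t => t.elim0) ^ 2 ≤ (a * Θ) ^ 2 := by
      rw [← sq_abs]
      exact pow_le_pow_left₀ (abs_nonneg _) (hlb 0 _) 2
    have h2 := hB.bg (pat (fun t => t.elim0 : Conf n 0))
    have h3 : l 0 (fun t => t.elim0) ^ 2 * |g (pat (fun t => t.elim0 : Conf n 0))| ≤ (a * Θ) ^ 2 * R :=
      mul_le_mul h1 h2 (abs_nonneg _) (sq_nonneg _)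
    have h4 : (a * Θ) ^ 2 * R ≤ Θ ^ 2 * q := by
      calc (a * Θ) ^ 2 * R = Θ ^ 2 * (a ^ 2 * R) := by ring
        _ ≤ _ := mul_le_mul_of_nonneg_left ha2R (sq_nonneg _)
    have n2 : |(2 : ℝ)| = 2 := by norm_num
    rw [n2]
    have h5 : 0 ≤ Θ ^ 2 * q := by positivity
    linarith
  -- the bracket
  have hAM : ∀ c : Conf n M, |AA D θ l M c - As| ≤ K * Θ ^ 2 / (6 * N) + 2 * k * Θ ^ 2 / H := by
    intro c
    have h1 := lx_sq ϑ (clk hθ c) hτm (hτ0 0) (M := M) (by
      rw [Sq_self]; exact (hτH _).trans (hM c))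
    have e1 : ∑ j : Fin k, ϑ j ^ 2 * (τ j.succ - τ j.castSucc) = H * As := by
      rw [hAs, Finset.mul_sum]
      refine Finset.sum_congr rfl fun j _ => ?_
      simp only [hτdef]
      ring
    rw [e1] at h1
    have e2 : Sm (fun t c => l t c ^ 2 * Real.sin (θ t c)) M c
        = a ^ 2 * ∑ t' ∈ Finset.range M, sn θ c t' * lx (Sq θ c) (sn θ c) τ ϑ t' ^ 2 := by
      unfold Sm
      rw [Finset.mul_sum]
      refine Finset.sum_congr rfl fun t' _ => ?_
      show l t' (rows c t') ^ 2 * Real.sin (θ t' (rows c t')) = _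
      rw [hl, ls_rows]
      unfold sn
      ring
    have h2 : |AA D θ l M c - 3 * N / Real.pi * Sm (fun t c => l t c ^ 2 * Real.sin (θ t c)) M c|
        ≤ K / (2 * Real.pi) * Sm (fun t c => l t c ^ 2 * Real.sin (θ t c)) M c := by
      unfold AA Sm
      rw [Finset.mul_sum, Finset.mul_sum, ← Finset.sum_sub_distrib]
      refine (Finset.abs_sum_le_sum_abs _ _).trans (Finset.sum_le_sum fun t' _ => ?_)
      have h3 := hasymD _ (adm t' (rows c t'))
      have e3 : l t' (rows c t') ^ 2 * D (θ t' (rows c t')) - 3 * N / Real.pi *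
          (l t' (rows c t') ^ 2 * Real.sin (θ t' (rows c t')))
          = l t' (rows c t') ^ 2 * (D (θ t' (rows c t'))
            - 3 * N / Real.pi * Real.sin (θ t' (rows c t'))) := by ring
      rw [e3, abs_mul, abs_of_nonneg (sq_nonneg _)]
      have := mul_le_mul_of_nonneg_left h3 (sq_nonneg (l t' (rows c t')))
      linarith
    have h4 : K / (2 * Real.pi) * Sm (fun t c => l t c ^ 2 * Real.sin (θ t c)) M c
        ≤ K * Θ ^ 2 / (6 * N) := by
      calc _ ≤ K / (2 * Real.pi) * (a ^ 2 * (Θ ^ 2 * H)) :=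
            mul_le_mul_of_nonneg_left (hsqle M c) (by positivity)
        _ = _ := by rw [ha2]; field_simp; ring
    have h5 : |3 * N / Real.pi * Sm (fun t c => l t c ^ 2 * Real.sin (θ t c)) M c - As|
        ≤ 2 * k * Θ ^ 2 / H := by
      have e4 : 3 * N / Real.pi * Sm (fun t c => l t c ^ 2 * Real.sin (θ t c)) M c - As
          = 1 / H * (∑ t' ∈ Finset.range M, sn θ c t' * lx (Sq θ c) (sn θ c) τ ϑ t' ^ 2
            - H * As) := by
        rw [e2, ha2]
        field_simp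
      rw [e4, abs_mul, abs_of_pos (by positivity : 0 < 1 / H)]
      calc _ ≤ 1 / H * (Θ ^ 2 * (2 * k)) := mul_le_mul_of_nonneg_left h1 (by positivity)
        _ = _ := by ring
    calc |AA D θ l M c - As| = |(AA D θ l M c
          - 3 * N / Real.pi * Sm (fun t c => l t c ^ 2 * Real.sin (θ t c)) M c)
          + (3 * N / Real.pi * Sm (fun t c => l t c ^ 2 * Real.sin (θ t c)) M c - As)| := by
          congr 1; ring
      _ ≤ _ := (abs_add_le _ _).trans (by linarith)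
  have hAsL : As ≤ Θ ^ 2 * (1 + K) := by
    have h1 : As ≤ Θ ^ 2 := by
      have h2 : ∀ j : Fin k, ϑ j ^ 2 ≤ Θ ^ 2 := by
        intro j
        rw [← sq_abs]
        exact pow_le_pow_left₀ (abs_nonneg _) (Finset.single_le_sum (f := fun j => |ϑ j|)
          (fun _ _ => abs_nonneg _) (Finset.mem_univ j)) 2
      have h3 : As ≤ ∑ j : Fin k, Θ ^ 2 * ((t j.succ : ℝ) - t j.castSucc) :=
        Finset.sum_le_sum fun j _ => mul_le_mul_of_nonneg_right (h2 j) (hdt j)
      have h4 : ∑ j : Fin k, ((t j.succ : ℝ) - t j.castSucc) = (t (Fin.last k) : ℝ) - t 0 := by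
        rw [Finset.sum_sub_distrib]
        have h1 := Fin.sum_univ_succ (fun j : Fin (k + 1) => (t j : ℝ))
        have h2 := Fin.sum_univ_castSucc (fun j : Fin (k + 1) => (t j : ℝ))
        linarith
      rw [← Finset.mul_sum, h4] at h3
      have h5 : (t (Fin.last k) : ℝ) - t 0 ≤ 1 := by
        have := (t (Fin.last k)).2.2
        have := (t 0).2.1
        linarith
      nlinarith [sq_nonneg Θ]
    nlinarith [sq_nonneg Θ]
  -- comparison of the exponents
  have hexp : ∀ c : Conf n M, |Real.exp (As / 2) - Real.exp (AA D θ l M c / 2)|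
      ≤ E * ((K * Θ ^ 2 / (6 * N) + 2 * k * Θ ^ 2 / H) / 2) := by
    intro c
    have key : ∀ x y : ℝ, x ≤ Θ ^ 2 * (1 + K) → y ≤ Θ ^ 2 * (1 + K) → x ≤ y →
        |Real.exp (x / 2) - Real.exp (y / 2)| ≤ E * ((y - x) / 2) := by
      intro x y _ hy hxy
      rw [abs_sub_comm, abs_of_nonneg (sub_nonneg.2 (Real.exp_le_exp.2 (by linarith)))]
      have h1 := Real.add_one_le_exp ((x - y) / 2)
      have h2 : Real.exp (x / 2) = Real.exp (y / 2) * Real.exp ((x - y) / 2) := by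
        rw [← Real.exp_add]; congr 1; ring
      have h3 : Real.exp (y / 2) ≤ E := Real.exp_le_exp.2 (by linarith)
      have h4 := Real.exp_pos (y / 2)
      rw [h2]
      nlinarith
    have h1 := hAM c
    have h2 := abs_le.1 h1
    rcases le_total As (AA D θ l M c) with h3 | h3
    · refine (key _ _ hAsL (hLL M c) h3).trans (mul_le_mul_of_nonneg_left ?_ hE0.le)
      linarith [h2.2]
    · rw [abs_sub_comm]
      refine (key _ _ (hLL M c) hAsL h3).trans (mul_le_mul_of_nonneg_left ?_ hE0.le)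
      linarith [h2.1]
  -- the integral
  have hPN : ∀ c : Conf n M, |P c - NN f v θ l M c| ≤ 3 * Θ * q := by
    intro c
    have e1 : P c = ∑ t' ∈ Finset.range M, l t' (rows c t') *
        (Yd v θ (t' + 1) (rows c (t' + 1)) - Yd v θ t' (rows c t')) := by
      simp only [hP, wp, ContinuousMap.coe_mk]
      have : ∀ t' ∈ Finset.range M, l t' (rows c t') *
        (Yd v θ (t' + 1) (rows c (t' + 1)) - Yd v θ t' (rows c t'))
        = ∑ j : Fin k, ϑ j * (a * ((Yd v θ (t' + 1) (rows c (t' + 1)) - Yd v θ t' (rows c t')) *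
            yx (Sq θ c) (sn θ c) τ j t')) := by
        intro t' _
        rw [hl, ls_rows]
        unfold lx
        rw [Finset.mul_sum, Finset.sum_mul]
        exact Finset.sum_congr rfl fun j _ => by ring
      rw [Finset.sum_congr rfl this, Finset.sum_comm]
      refine Finset.sum_congr rfl fun j _ => ?_
      rw [← mul_sub, ← Finset.sum_sub_distrib, Finset.mul_sum, Finset.mul_sum]
      refine Finset.sum_congr rfl fun t' _ => ?_
      unfold yx
      simp only [hτdef]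
      ring
    have e2 : NN f v θ l M c - P c = ∑ t' ∈ Finset.range M, l t' (rows c t') *
        (f (pat (rows c (t' + 1))) - f (pat (rows c t'))) := by
      rw [e1]
      unfold NN
      rw [← Finset.sum_sub_distrib]
      refine Finset.sum_congr rfl fun t' _ => ?_
      unfold Uu Yd
      ring
    rw [abs_sub_comm, e2]
    have h1 := sbp (fun t' => l t' (rows c t')) (fun t' => f (pat (rows c t'))) M R
      (fun t' => hB.bf _)
    refine h1.trans ?_
    have h2 : |l M (rows c M)| = 0 := by rw [rows_self, hend c, abs_zero]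
    have h3 : |l 0 (rows c 0)| ≤ a * Θ := hlb 0 _
    have h4 : ∑ t' ∈ Finset.range M, |l (t' + 1) (rows c (t' + 1)) - l t' (rows c t')|
        ≤ a * (2 * Θ) := by
      have h5 := lx_tv (τ := τ) ϑ (clk hθ c) M
      have e : ∑ t' ∈ Finset.range M, |l (t' + 1) (rows c (t' + 1)) - l t' (rows c t')|
          = a * ∑ t' ∈ Finset.range M, |lx (Sq θ c) (sn θ c) τ ϑ (t' + 1)
            - lx (Sq θ c) (sn θ c) τ ϑ t'| := by
        rw [Finset.mul_sum]
        refine Finset.sum_congr rfl fun t' _ => ?_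
        rw [hl, ls_rows, ls_rows, ← mul_sub, abs_mul, abs_of_nonneg ha0]
      rw [e]
      exact mul_le_mul_of_nonneg_left h5 ha0
    calc R * (|l M (rows c M)| + |l 0 (rows c 0)| + ∑ t' ∈ Finset.range M,
          |l (t' + 1) (rows c (t' + 1)) - l t' (rows c t')|)
        ≤ R * (0 + a * Θ + a * (2 * Θ)) := by
          apply mul_le_mul_of_nonneg_left _ hR0.le
          rw [h2]
          linarith
      _ = 3 * Θ * (a * R) := by ring
      _ ≤ 3 * Θ * q := mul_le_mul_of_nonneg_left haR (by positivity)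
  -- assembling
  have hA1 : ‖EE θ M (fun c => cexp (((P c : ℝ) : ℂ) * I))
      - EE θ M (fun c => cexp (((NN f v θ l M c : ℝ) : ℂ) * I))‖ ≤ 3 * Θ * q := by
    rw [← EE_sub]
    refine (EE_norm adm _).trans ?_
    refine (EE_mono adm (G := fun _ => 3 * Θ * q) fun c => ?_).trans (by rw [EE_const])
    refine le_trans ?_ (hPN c)
    have e : cexp (((P c : ℝ) : ℂ) * I) - cexp (((NN f v θ l M c : ℝ) : ℂ) * I)
        = cexp (((NN f v θ l M c : ℝ) : ℂ) * I) *
          (cexp (I * ((P c - NN f v θ l M c : ℝ) : ℂ)) - 1) := by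
      rw [mul_sub, mul_one, ← Complex.exp_add]
      congr 2
      push_cast
      ring
    rw [e, norm_mul, Complex.norm_exp_ofReal_mul_I, one_mul]
    have := Real.norm_exp_I_mul_ofReal_sub_one_le (x := P c - NN f v θ l M c)
    rwa [Real.norm_eq_abs] at this
  have hA2 : ‖EE θ M (fun c => cexp (((NN f v θ l M c : ℝ) : ℂ) * I)) * Real.exp (As / 2) - 1‖
      ≤ E * ((K * Θ ^ 2 / (6 * N) + 2 * k * Θ ^ 2 / H) / 2) + E * ((6 * Θ ^ 3 + 2 * Θ ^ 2) * q)
        + Θ ^ 2 * q := by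
    have e1 : EE θ M (fun c => cexp (((NN f v θ l M c : ℝ) : ℂ) * I)) * Real.exp (As / 2)
        = EE θ M (fun c => cexp (((NN f v θ l M c : ℝ) : ℂ) * I) * Real.exp (As / 2)) := by
      unfold EE
      rw [Finset.sum_mul]
      refine Finset.sum_congr rfl fun c _ => ?_
      rw [smul_mul_assoc]
    have e2 : EE θ M (fun c => cexp (((NN f v θ l M c : ℝ) : ℂ) * I) * Real.exp (As / 2))
        = EE θ M (fun c => cexp (((NN f v θ l M c : ℝ) : ℂ) * I)
            * ((Real.exp (As / 2) - Real.exp (AA D θ l M c / 2) : ℝ) : ℂ))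
          + EE θ M (Ph f g v D I θ l M) := by
      rw [hPhM, ← EE_add]
      congr 1
      funext c
      have : cexp (I * NN f v θ l M c + AA D θ l M c / 2)
          = cexp (((NN f v θ l M c : ℝ) : ℂ) * I) * ((Real.exp (AA D θ l M c / 2) : ℝ) : ℂ) := by
        rw [Complex.ofReal_exp, ← Complex.exp_add]
        congr 1
        push_cast
        ring
      rw [this]
      push_cast
      ring
    have h1 : ‖EE θ M (fun c => cexp (((NN f v θ l M c : ℝ) : ℂ) * I)
            * ((Real.exp (As / 2) - Real.exp (AA D θ l M c / 2) : ℝ) : ℂ))‖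
        ≤ E * ((K * Θ ^ 2 / (6 * N) + 2 * k * Θ ^ 2 / H) / 2) := by
      refine (EE_norm adm _).trans ?_
      refine (EE_mono adm (G := fun _ => E * ((K * Θ ^ 2 / (6 * N) + 2 * k * Θ ^ 2 / H) / 2))
        fun c => ?_).trans (by rw [EE_const])
      rw [norm_mul, Complex.norm_exp_ofReal_mul_I, one_mul, Complex.norm_real, Real.norm_eq_abs]
      exact hexp c
    rw [e1, e2]
    have e3 : EE θ M (fun c => cexp (((NN f v θ l M c : ℝ) : ℂ) * I)
            * ((Real.exp (As / 2) - Real.exp (AA D θ l M c / 2) : ℝ) : ℂ))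
          + EE θ M (Ph f g v D I θ l M) - 1
        = EE θ M (fun c => cexp (((NN f v θ l M c : ℝ) : ℂ) * I)
            * ((Real.exp (As / 2) - Real.exp (AA D θ l M c / 2) : ℝ) : ℂ))
          + (EE θ M (Ph f g v D I θ l M) - Ph f g v D I θ l 0 (fun t => t.elim0))
          + (Ph f g v D I θ l 0 (fun t => t.elim0) - 1) := by ring
    rw [e3]
    exact norm_add₃_le.trans (add_le_add (add_le_add h1 hchf2) hPh0)
  have hA3 : ‖EE θ M (fun c => cexp (((NN f v θ l M c : ℝ) : ℂ) * I))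
      - cexp (((-(As / 2) : ℝ) : ℂ))‖
      ≤ E * ((K * Θ ^ 2 / (6 * N) + 2 * k * Θ ^ 2 / H) / 2) + E * ((6 * Θ ^ 3 + 2 * Θ ^ 2) * q)
        + Θ ^ 2 * q := by
    refine le_trans ?_ hA2
    have e : EE θ M (fun c => cexp (((NN f v θ l M c : ℝ) : ℂ) * I))
        - cexp (((-(As / 2) : ℝ) : ℂ))
        = cexp (((-(As / 2) : ℝ) : ℂ)) *
          (EE θ M (fun c => cexp (((NN f v θ l M c : ℝ) : ℂ) * I)) * Real.exp (As / 2) - 1) := by
      have : cexp (((-(As / 2) : ℝ) : ℂ)) * ((Real.exp (As / 2) : ℝ) : ℂ) = 1 := by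
        rw [Complex.ofReal_exp, ← Complex.exp_add]
        have : (((-(As / 2) : ℝ) : ℂ)) + ((As / 2 : ℝ) : ℂ) = 0 := by push_cast; ring
        rw [this, Complex.exp_zero]
      linear_combination (-(EE θ M (fun c => cexp (((NN f v θ l M c : ℝ) : ℂ) * I)))) * this
    rw [e, norm_mul]
    have h2 : ‖cexp (((-(As / 2) : ℝ) : ℂ))‖ ≤ 1 := by
      rw [Complex.norm_exp, Complex.ofReal_re]
      exact Real.exp_le_one_iff.2 (by linarith)
    calc _ ≤ 1 * _ := mul_le_mul_of_nonneg_right h2 (norm_nonneg _)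
      _ = _ := one_mul _
  have hfin : ‖EE θ M (fun c => cexp (((P c : ℝ) : ℂ) * I)) - cexp (((-(As / 2) : ℝ) : ℂ))‖
      ≤ 3 * Θ * q + (E * ((K * Θ ^ 2 / (6 * N) + 2 * k * Θ ^ 2 / H) / 2)
        + E * ((6 * Θ ^ 3 + 2 * Θ ^ 2) * q) + Θ ^ 2 * q) := by
    have e : EE θ M (fun c => cexp (((P c : ℝ) : ℂ) * I)) - cexp (((-(As / 2) : ℝ) : ℂ))
        = (EE θ M (fun c => cexp (((P c : ℝ) : ℂ) * I))
          - EE θ M (fun c => cexp (((NN f v θ l M c : ℝ) : ℂ) * I)))
          + (EE θ M (fun c => cexp (((NN f v θ l M c : ℝ) : ℂ) * I))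
            - cexp (((-(As / 2) : ℝ) : ℂ))) := by ring
    rw [e]
    exact (norm_add_le _ _).trans (add_le_add hA1 hA3)
  refine hfin.trans ?_
  have hk0 : (0 : ℝ) ≤ k := Nat.cast_nonneg k
  have b1 : (K * Θ ^ 2 / (6 * N) + 2 * k * Θ ^ 2 / H) / 2 ≤ K * Θ ^ 2 * (1 / N) + k * Θ ^ 2 * q := by
    have c1 : K * Θ ^ 2 / (6 * N) = K * Θ ^ 2 * (1 / N) / 6 := by field_simp
    have c2 : 2 * k * Θ ^ 2 / H = 2 * (k * Θ ^ 2) * (1 / H) := by ring
    have c3 : 2 * (k * Θ ^ 2) * (1 / H) ≤ 2 * (k * Θ ^ 2) * q :=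
      mul_le_mul_of_nonneg_left hHq (by positivity)
    have c4 : 0 ≤ K * Θ ^ 2 * (1 / N) := by positivity
    rw [c1, c2]
    linarith
  have b2 := mul_le_mul_of_nonneg_left b1 hE0.le
  have d1 : 0 ≤ 1 / N := by positivity
  have d2 : 0 ≤ E * (K * Θ ^ 2) * q := by positivity
  have d3 : 0 ≤ E * (K * Θ ^ 2 * (2 * k)) * (q + 1 / N) := by positivity
  have d4 : 0 ≤ (3 * Θ + E * (k * Θ ^ 2 + 6 * Θ ^ 3 + 2 * Θ ^ 2) + Θ ^ 2) * (1 / N) := by positivity
  nlinarith

end H729I
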