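import Pool.Agent.Run7.h729.Iso.Mul
import Pool.Agent.Run7.h729.Iso.Fin

/-!
# The natural scale: final estimates
-/

set_option autoImplicit false

namespace H729I
open H906K Pool.Agent.H974R3 Complex Filter Topology

/-- the displacement of the homogeneous cylinder, first absolute moment -/
theorem hom_dis : ∃ B : ℝ, 0 < B ∧ ∀ n : ℕ, 1 ≤ n → ∀ j : ℕ,
    EE (hom n) (j * (2 * n + 1)) (fun c => |dis c|) ≤ B * j * (2 * n + 1) := by
  obtain ⟨B, hB, h⟩ := Y994.KW.All.MOM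
  refine ⟨2 * B, by positivity, fun n hn j => ?_⟩
  have hN0 : (0 : ℝ) < 2 * n + 1 := by positivity
  set c : ℝ := B * (2 * n + 1) with hc
  have hc0 : 0 < c := by positivity
  have key : ∀ {M : ℕ} (F : Conf n M → ℝ), EE (hom n) M (fun c' => F c' ^ 4) ≤ c ^ 4 →
      EE (hom n) M (fun c' => |F c'|) ≤ c := by
    intro M F hF
    have h1 : EE (hom n) M (fun c' => |F c'|) ≤ EE (hom n) M (fun c' =>
        1 / (4 * c ^ 3) * F c' ^ 4 + 3 / 4 * c) := by
      refine EE_mono (hom_adm n) fun c' => ?_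
      set x := |F c'|
      have hx : 0 ≤ x := abs_nonneg _
      have e : F c' ^ 4 = x ^ 4 := (Even.pow_abs (by decide) (F c')).symm
      rw [e]
      have h2 : 1 / (4 * c ^ 3) * x ^ 4 + 3 / 4 * c - x
          = 1 / (4 * c ^ 3) * ((x - c) ^ 2 * ((x + c) ^ 2 + 2 * c ^ 2)) := by
        field_simp
        ring
      have h3 : 0 ≤ 1 / (4 * c ^ 3) * ((x - c) ^ 2 * ((x + c) ^ 2 + 2 * c ^ 2)) := by positivity
      linarith
    refine h1.trans ?_
    rw [EE_add, EE_mul, EE_const]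
    have h2 : 1 / (4 * c ^ 3) * EE (hom n) M (fun c' => F c' ^ 4) ≤ 1 / (4 * c ^ 3) * c ^ 4 :=
      mul_le_mul_of_nonneg_left hF (by positivity)
    have h3 : 1 / (4 * c ^ 3) * c ^ 4 = c / 4 := by field_simp
    linarith
  have hone : EE (hom n) (2 * n + 1) (fun c' => |dis c'|) ≤ c := by
    apply key
    have h1 := (h n hn).2 (2 * n + 1) (by omega)
    rw [Ex_eq] at h1
    refine le_trans (le_of_eq ?_) h1
    congr 1
    funext c'
    rw [dis_X hn]
  induction j with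
  | zero =>
    rw [zero_mul, Nat.cast_zero, mul_zero, zero_mul, EE_zero]
    have : dis (fun t => t.elim0 : Conf n 0) = 0 := by
      unfold dis
      show ((0 : ℤ) : ℝ) = 0
      simp
    rw [this, abs_zero]
  | succ j ih =>
    have e : (j + 1) * (2 * n + 1) = j * (2 * n + 1) + (2 * n + 1) := by ring
    rw [e]
    have hAd : EE (hom n) (j * (2 * n + 1) + (2 * n + 1))
        (fun c' => |Ad (j * (2 * n + 1)) c'|) ≤ c := by
      apply key
      have h1 := (h n hn).1 (j * (2 * n + 1)) (2 * n + 1)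
      rw [Ex_eq] at h1
      refine le_trans (le_of_eq ?_) h1
      congr 1
      funext c'
      unfold Ad
      rw [dis_X hn, dis_X hn, dis_X hn]
      have e1 : rows c' (j * (2 * n + 1)) = Y994.KW.lft (j * (2 * n + 1)) (2 * n + 1) c' := by
        funext i j'
        have hi : (i : ℕ) < j * (2 * n + 1) + (2 * n + 1) := by have := i.2; omega
        unfold rows Y994.KW.lft
        rw [dif_pos hi]
        rfl
      rw [e1]
      rfl
    have hd : (hom n : Strat n) = det n (fun _ => Real.pi / 2) := rfl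
    have h1 : EE (hom n) (j * (2 * n + 1) + (2 * n + 1)) (fun c' => |dis (rows c' (j * (2 * n + 1)))|)
        = EE (hom n) (j * (2 * n + 1)) (fun c' => |dis c'|) :=
      EE_rows (hom n) (by omega) (fun c' : Conf n (j * (2 * n + 1)) => |dis c'|)
    have h2 : EE (hom n) (j * (2 * n + 1) + (2 * n + 1))
        (fun c' => |dis (rgh (j * (2 * n + 1)) c')|) ≤ c := by
      rw [hd]
      have := EE_prod (n := n) (V := ℝ) (fun _ => Real.pi / 2) (j * (2 * n + 1)) (2 * n + 1)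
        (fun _ ω => |dis ω|)
      rw [this, EE_const]
      exact hone
    have h3 : EE (hom n) (j * (2 * n + 1) + (2 * n + 1)) (fun c' => |dis c'|)
        ≤ EE (hom n) (j * (2 * n + 1) + (2 * n + 1)) (fun c' => (|dis (rows c' (j * (2 * n + 1)))|
          + |dis (rgh (j * (2 * n + 1)) c')|) + |Ad (j * (2 * n + 1)) c'|) := by
      refine EE_mono (hom_adm n) fun c' => ?_
      have e : dis c' = dis (rows c' (j * (2 * n + 1))) + dis (rgh (j * (2 * n + 1)) c')
          + Ad (j * (2 * n + 1)) c' := by unfold Ad; ring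
      calc |dis c'| = |dis (rows c' (j * (2 * n + 1))) + dis (rgh (j * (2 * n + 1)) c')
          + Ad (j * (2 * n + 1)) c'| := by rw [← e]
        _ ≤ _ := abs_add_three _ _ _
    rw [EE_add, EE_add, h1] at h3
    push_cast
    have e2 : 2 * B * (j + 1) * (2 * n + 1) = 2 * B * j * (2 * n + 1) + c + c := by rw [hc]; ring
    rw [e2]
    linarith

/-- exponential decay of the probability that nothing is forgotten -/
theorem dl_exp : ∃ C c : ℝ, 0 < C ∧ 0 < c ∧ ∀ n K : ℕ, 1 ≤ n →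
    dl n K ≤ C * Real.exp (-c * (K / (2 * n + 1))) := by
  obtain ⟨q, hq0, hq1, h⟩ := dl_le
  set q1 := max q (1 / 2) with hq
  have h1 : q ≤ q1 := le_max_left _ _
  have h2 : 0 < q1 := lt_of_lt_of_le (by norm_num) (le_max_right q (1 / 2))
  have h3 : q1 < 1 := max_lt hq1 (by norm_num)
  have hc : 0 < -Real.log q1 := by
    have := Real.log_neg h2 h3
    linarith
  refine ⟨Real.exp (-Real.log q1), -Real.log q1, Real.exp_pos _, hc, fun n K hn => ?_⟩
  have hN0 : (0 : ℝ) < 2 * n + 1 := by positivity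
  set j := K / (2 * n + 1) with hj
  have hjK : j * (2 * n + 1) ≤ K := Nat.div_mul_le_self K (2 * n + 1)
  have hj2 : (K : ℝ) / (2 * n + 1) ≤ j + 1 := by
    rw [div_le_iff₀ hN0]
    have := Nat.lt_div_mul_add (a := K) (b := 2 * n + 1) (by omega)
    have h5 : K < (j + 1) * (2 * n + 1) := by rw [add_mul, one_mul]; exact this
    have h6 : (K : ℝ) < ((j + 1) * (2 * n + 1) : ℕ) := by exact_mod_cast h5
    push_cast at h6
    exact h6.le
  calc dl n K ≤ q ^ j := h n K j hn hjK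
    _ ≤ q1 ^ j := pow_le_pow_left₀ hq0 h1 j
    _ = Real.exp (Real.log q1 * j) := by
        rw [mul_comm, Real.exp_nat_mul, Real.exp_log h2]
    _ ≤ Real.exp (-Real.log q1 + - -Real.log q1 * (K / (2 * n + 1))) := by
        apply Real.exp_le_exp.2
        nlinarith
    _ = _ := Real.exp_add _ _

/-- the phase of the winding -/
noncomputable def wph {n R : ℕ} (ϑ : ℕ → ℝ) (K A B : ℕ) (c : Conf n R) : ℝ :=
  2 * Real.pi / (2 * n + 1) * (dis (rows c (K + B)) - dis (rows c (K + A))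
    - ∑ t ∈ Finset.Ico A B, Real.cos (ϑ t))

theorem shf_sum (ϑ : ℕ → ℝ) (f : ℝ → ℝ) {A B : ℕ} (h : A ≤ B) :
    ∑ t ∈ Finset.range (B - A), f (shf A ϑ t) = ∑ t ∈ Finset.Ico A B, f (ϑ t) := by
  rw [Finset.sum_Ico_eq_sum_range]
  rfl

/-- **finite dimensional distributions at the natural scale** -/
theorem fdd_nat : ∃ C c : ℝ, 0 < C ∧ 0 < c ∧ ∀ n : ℕ, 1 ≤ n → ∀ ϑ : ℕ → ℝ,
    (∀ t, ϑ t ∈ Set.Icc 0 Real.pi) → ∀ (K R : ℕ) (τ : ℕ → ℕ), Monotone τ → ∀ (a : ℕ → ℝ) (r : ℕ),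
    K + τ r ≤ R →
    ‖EE (det n (cat K ϑ)) R (fun c => cexp (((∑ i ∈ Finset.range r, a i
        * wph ϑ K (τ i) (τ (i + 1)) c : ℝ) : ℂ) * I))
      - cexp ((-(3 * ∑ i ∈ Finset.range r, a i ^ 2 * (2 * Real.pi / (2 * n + 1)
        * ∑ t ∈ Finset.Ico (τ i) (τ (i + 1)), Real.sin (ϑ t))) : ℝ) : ℂ)‖
      ≤ C * ∑ i ∈ Finset.range r, (√|a i| + |a i| ^ 3 * (2 * Real.pi / (2 * n + 1)
          * ∑ t ∈ Finset.Ico (τ i) (τ (i + 1)), Real.sin (ϑ t))
        + |a i| * (2 * Real.pi / (2 * n + 1) * ∑ t ∈ Finset.Ico (τ i) (τ (i + 1)), Real.sin (ϑ t))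
          / (2 * n + 1) ^ 2
        + a i ^ 2 * (2 * Real.pi / (2 * n + 1) * ∑ t ∈ Finset.Ico (τ i) (τ (i + 1)), Real.sin (ϑ t))
          / (2 * n + 1) + Real.exp (-c * (K / (2 * n + 1)))) := by
  obtain ⟨C1, hC1, hg⟩ := blk_gauss
  obtain ⟨C2, c, hC2, hc, hdl⟩ := dl_exp
  refine ⟨C1 + 4 * C2, c, by positivity, hc, ?_⟩
  intro n hn ϑ hϑ K R τ hτ a r hR
  obtain ⟨t, w, μ, h, hG⟩ := hg n hn
  have hN0 : (0 : ℝ) < 2 * n + 1 := by positivity
  have hm := multi_aux h hn hϑ hG K hτ a r R hR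
  -- the phases of the cosines
  set Z : ℂ := cexp (((-∑ i ∈ Finset.range r, 2 * Real.pi * a i / (2 * n + 1)
    * ∑ t ∈ Finset.Ico (τ i) (τ (i + 1)), Real.cos (ϑ t) : ℝ) : ℂ) * I) with hZ
  have hZn : ‖Z‖ = 1 := by rw [hZ, Complex.norm_exp_ofReal_mul_I]
  have hA : ∀ i, τ i ≤ τ (i + 1) := fun i => hτ (Nat.le_succ i)
  have e1 : (fun c : Conf n R => cexp (((∑ i ∈ Finset.range r, a i
        * wph ϑ K (τ i) (τ (i + 1)) c : ℝ) : ℂ) * I)) = fun c => Z * PP K τ a r c := by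
    funext c
    unfold PP ps1
    rw [← Complex.exp_sum, hZ, ← Complex.exp_add]
    congr 1
    push_cast
    rw [← Finset.sum_neg_distrib, Finset.sum_mul, Finset.sum_mul, ← Finset.sum_add_distrib]
    refine Finset.sum_congr rfl fun i _ => ?_
    unfold wph
    push_cast
    ring
  have e2 : cexp ((-(3 * ∑ i ∈ Finset.range r, a i ^ 2 * (2 * Real.pi / (2 * n + 1)
        * ∑ t ∈ Finset.Ico (τ i) (τ (i + 1)), Real.sin (ϑ t))) : ℝ) : ℂ)
      = Z * ∏ i ∈ Finset.range r, gv n (shf (τ i) ϑ) (τ (i + 1) - τ i) (a i) := by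
    unfold gv
    rw [← Complex.exp_sum, hZ, ← Complex.exp_add]
    congr 1
    unfold cosS hgt
    simp only [shf_sum ϑ _ (hA _)]
    push_cast
    rw [← Finset.sum_neg_distrib, Finset.sum_mul, ← Finset.sum_add_distrib, Finset.mul_sum,
      ← Finset.sum_neg_distrib]
    refine Finset.sum_congr rfl fun i _ => ?_
    ring
  rw [e1, EE_cmul, e2, ← mul_sub, norm_mul, hZn, one_mul]
  refine hm.trans ?_
  rw [Finset.mul_sum]
  refine Finset.sum_le_sum fun i _ => ?_
  unfold err hgt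
  rw [shf_sum ϑ _ (hA i)]
  set T := 2 * Real.pi / (2 * n + 1) * ∑ t ∈ Finset.Ico (τ i) (τ (i + 1)), Real.sin (ϑ t) with hT
  have hT0 : 0 ≤ T := mul_nonneg (by positivity) (Finset.sum_nonneg fun t _ =>
    Real.sin_nonneg_of_nonneg_of_le_pi (hϑ t).1 (hϑ t).2)
  have hd := hdl n K hn
  have hE := Real.exp_pos (-c * (K / (2 * (n : ℝ) + 1)))
  have hp : 0 ≤ √|a i| + |a i| ^ 3 * T + |a i| * T / (2 * n + 1) ^ 2 + a i ^ 2 * T / (2 * n + 1) := by
    positivity
  nlinarith [mul_nonneg hC2.le hp, mul_pos hC1 hE]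

end H729I
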