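import Pool.Agent.Run7.h729.Iso.Dil11
import Pool.Agent.Run7.h729.Iso.Nsc

/-!
# The homogeneous row operator with a fixed twist
-/

set_option autoImplicit false

namespace H729I
open H906K Pool.Agent.H974R3 Polynomial Complex Filter Topology

variable {n : ℕ} {t : (PowerSeries ℂ)[X]} {w : Pat (2 * n + 1) → PowerSeries ℂ}
  {μ : Pat (2 * n + 1) → ℝ}

/-- the operator of `m` homogeneous rows -/
noncomputable def Hm (n m : ℕ) (α : ℝ) (F : Pat (2 * n + 1) → ℂ) : Pat (2 * n + 1) → ℂ :=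
  Bk n (fun _ => Real.pi / 2) m α F

theorem Hm_iter (m : ℕ) (α : ℝ) (F : Pat (2 * n + 1) → ℂ) :
    Hm n m α F = (Hs n (Real.pi / 2) α)^[m] F := by
  unfold Hm
  induction m generalizing F with
  | zero => rw [Bk_zero]; rfl
  | succ m ih => rw [Bk_succ, ih, Function.iterate_succ_apply]

theorem Hm_add (a b : ℕ) (α : ℝ) (F : Pat (2 * n + 1) → ℂ) :
    Hm n (a + b) α F = Hm n a α (Hm n b α F) := by
  rw [Hm_iter, Hm_iter, Hm_iter, Function.iterate_add_apply]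

theorem Hs_cls {θ α : ℝ} {F : Pat (2 * n + 1) → ℂ} (hF : Cls F) : Cls (Hs n θ α F) := by
  intro σ σ' h
  unfold Hs
  refine Finset.sum_congr rfl fun b _ => ?_
  rw [(h.step b).1, hF _ _ (h.step b).2]

theorem Hm_cls {F : Pat (2 * n + 1) → ℂ} (hF : Cls F) (m : ℕ) (α : ℝ) : Cls (Hm n m α F) := by
  rw [Hm_iter]
  induction m with
  | zero => exact hF
  | succ m ih => rw [Function.iterate_succ_apply']; exact Hs_cls ih

theorem Hm_sup {F : Pat (2 * n + 1) → ℂ} {S : ℝ} (hS : ∀ σ, Rch σ → ‖F σ‖ ≤ S) (m : ℕ) (α : ℝ)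
    {σ : Pat (2 * n + 1)} (hσ : Rch σ) : ‖Hm n m α F σ‖ ≤ S := by
  unfold Hm Bk
  refine (EE_norm (det_adm fun _ => half_mem) _).trans ?_
  have h1 := EE_mono (n := n) (θ := det n fun _ => Real.pi / 2) (det_adm fun _ => half_mem) (M := m)
    (F := fun ω => ‖phs n α (run (2 * n) m ω σ).2 * F (run (2 * n) m ω σ).1‖) (G := fun _ => S)
    (fun ω => by rw [norm_mul, phs_norm, one_mul]; exact hS _ (hσ.run ω))
  rwa [EE_const] at h1

theorem Hm_lin (m : ℕ) (α : ℝ) (a b : ℂ) (F G : Pat (2 * n + 1) → ℂ) (σ : Pat (2 * n + 1)) :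
    Hm n m α (fun τ => a * F τ + b * G τ) σ = a * Hm n m α F σ + b * Hm n m α G σ := by
  unfold Hm Bk
  rw [← EE_cmul, ← EE_cmul, ← EE_add]
  congr 1
  funext ω
  ring

open Classical in
theorem coupC (hn : 1 ≤ n) {F : Pat (2 * n + 1) → ℂ} (hc : Cls F) {S : ℝ}
    (hS : ∀ σ, Rch σ → ‖F σ‖ ≤ S) {σ : Pat (2 * n + 1)} (hσ : Rch σ) (m : ℕ) :
    ‖EE (hom n) m (fun ω => F (run (2 * n) m ω σ).1)
      - EE (hom n) m (fun ω => F (run (2 * n) m ω (start n)).1)‖ ≤ 2 * S * dl n m := by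
  obtain ⟨K, c, rfl⟩ := hσ
  rw [← EE_sub]
  refine (EE_norm (hom_adm n) _).trans ?_
  have key : ∀ ω : Conf n m, ‖F (run (2 * n) m ω (pat c)).1 - F (run (2 * n) m ω (start n)).1‖
      ≤ 2 * S * (if Y994.KW.T1 n (Y994.KW.cfg n m ω) 0 m then (0 : ℝ) else 1) := by
    intro ω
    have r1 := hS _ (Rch.run ⟨K, c, rfl⟩ ω : Rch (run (2 * n) m ω (pat c)).1)
    have r2 := hS _ (rch_start.run ω)
    split_ifs with hT
    · rw [hc _ _ (coal hn c ω hT), sub_self, norm_zero, mul_zero]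
    · have := norm_sub_le (F (run (2 * n) m ω (pat c)).1) (F (run (2 * n) m ω (start n)).1)
      linarith
  refine (EE_mono (hom_adm n) key).trans (le_of_eq ?_)
  rw [EE_mul]
  rfl

theorem phs0 (d : ℤ) : phs n 0 d = 1 := by unfold phs; simp

theorem Hs0_mu (h : Eg n t w μ) (F : Pat (2 * n + 1) → ℂ) :
    ∑ σ, ((μ σ : ℝ) : ℂ) * Hs n (Real.pi / 2) 0 F σ = ∑ σ, ((μ σ : ℝ) : ℂ) * F σ := by
  rw [← msC h half_mem F]
  refine Finset.sum_congr rfl fun σ _ => ?_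
  unfold Hs
  simp only [phs0, one_mul]

theorem Hm0_mu (h : Eg n t w μ) (m : ℕ) (F : Pat (2 * n + 1) → ℂ) :
    ∑ σ, ((μ σ : ℝ) : ℂ) * Hm n m 0 F σ = ∑ σ, ((μ σ : ℝ) : ℂ) * F σ := by
  rw [Hm_iter]
  induction m generalizing F with
  | zero => rfl
  | succ m ih => rw [Function.iterate_succ_apply, ih, Hs0_mu h]

theorem Hm0_eq (m : ℕ) (F : Pat (2 * n + 1) → ℂ) (σ : Pat (2 * n + 1)) :
    Hm n m 0 F σ = EE (hom n) m (fun ω => F (run (2 * n) m ω σ).1) := by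
  unfold Hm Bk
  simp only [phs0, one_mul]
  rfl

/-- the mean value with respect to the stationary law -/
noncomputable def mm (μ : Pat (2 * n + 1) → ℝ) (F : Pat (2 * n + 1) → ℂ) : ℂ :=
  ∑ σ, ((μ σ : ℝ) : ℂ) * F σ

theorem n1_le (h : Eg n t w μ) {F : Pat (2 * n + 1) → ℂ} {B : ℝ} (hF : ∀ σ, Rch σ → ‖F σ‖ ≤ B) :
    n1 μ F ≤ B := mu_le h hF

theorem mm_le (h : Eg n t w μ) (F : Pat (2 * n + 1) → ℂ) : ‖mm μ F‖ ≤ n1 μ F := mu_n1 h F

theorem mm_one (h : Eg n t w μ) (a : ℂ) : mm μ (fun _ => a) = a := by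
  unfold mm
  rw [← Finset.sum_mul, ← Complex.ofReal_sum, h.m1]
  simp

theorem mm_lin (a b : ℂ) (F G : Pat (2 * n + 1) → ℂ) :
    mm μ (fun σ => a * F σ + b * G σ) = a * mm μ F + b * mm μ G := by
  unfold mm
  rw [Finset.mul_sum, Finset.mul_sum, ← Finset.sum_add_distrib]
  refine Finset.sum_congr rfl fun σ _ => ?_
  ring

theorem meanC (h : Eg n t w μ) (hn : 1 ≤ n) {F : Pat (2 * n + 1) → ℂ} (hc : Cls F) {S : ℝ}
    (hS : ∀ σ, Rch σ → ‖F σ‖ ≤ S) (m : ℕ) :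
    ‖EE (hom n) m (fun ω => F (run (2 * n) m ω (start n)).1) - mm μ F‖ ≤ 2 * S * dl n m := by
  have h1 : EE (hom n) m (fun ω => F (run (2 * n) m ω (start n)).1) - mm μ F
      = mm μ (fun σ => EE (hom n) m (fun ω => F (run (2 * n) m ω (start n)).1) - Hm n m 0 F σ) := by
    have h2 := mm_lin (μ := μ) 1 (-1) (fun _ => EE (hom n) m (fun ω => F (run (2 * n) m ω (start n)).1))
      (Hm n m 0 F)
    have h3 : mm μ (Hm n m 0 F) = mm μ F := Hm0_mu h m F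
    rw [mm_one h, h3] at h2
    have e : (fun σ => EE (hom n) m (fun ω => F (run (2 * n) m ω (start n)).1) - Hm n m 0 F σ)
        = fun σ => 1 * (fun _ => EE (hom n) m (fun ω => F (run (2 * n) m ω (start n)).1)) σ
          + -1 * Hm n m 0 F σ := by
      funext σ; ring
    rw [e, h2]
    ring
  rw [h1]
  refine (mm_le h _).trans (n1_le h fun σ hσ => ?_)
  rw [Hm0_eq, norm_sub_rev]
  exact coupC hn hc hS hσ m

theorem phase_le {F : Pat (2 * n + 1) → ℂ} {S : ℝ} (hS : ∀ σ, Rch σ → ‖F σ‖ ≤ S) (m : ℕ) (α : ℝ)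
    {σ : Pat (2 * n + 1)} (hσ : Rch σ) :
    ‖Hm n m α F σ - EE (hom n) m (fun ω => F (run (2 * n) m ω σ).1)‖
      ≤ S * (|α| / (2 * n + 1) * EE (hom n) m (fun ω => |((run (2 * n) m ω σ).2 : ℝ)|)) := by
  have hN0 : (0 : ℝ) < 2 * n + 1 := by positivity
  have e0 : Hm n m α F σ = EE (hom n) m (fun ω => phs n α (run (2 * n) m ω σ).2
      * F (run (2 * n) m ω σ).1) := rfl
  rw [e0, ← EE_sub]
  refine (EE_norm (hom_adm n) _).trans ?_
  rw [← EE_mul, ← EE_mul]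
  refine EE_mono (hom_adm n) fun ω => ?_
  set d := (run (2 * n) m ω σ).2
  have a1 : ‖phs n α d - 1‖ ≤ |α| / (2 * n + 1) * |(d : ℝ)| := by
    unfold phs
    have e : (d : ℂ) / (2 * n + 1) * I * α = I * (((d : ℝ) / (2 * n + 1) * α : ℝ) : ℂ) := by
      push_cast; ring
    rw [e]
    refine (Real.norm_exp_I_mul_ofReal_sub_one_le).trans (le_of_eq ?_)
    rw [Real.norm_eq_abs, abs_mul, abs_div, abs_of_pos hN0]
    ring
  have r1 := hS _ (hσ.run ω)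
  have a3 : phs n α d * F (run (2 * n) m ω σ).1 - F (run (2 * n) m ω σ).1
      = (phs n α d - 1) * F (run (2 * n) m ω σ).1 := by ring
  rw [a3, norm_mul]
  calc ‖phs n α d - 1‖ * ‖F (run (2 * n) m ω σ).1‖
      ≤ (|α| / (2 * n + 1) * |(d : ℝ)|) * S := mul_le_mul a1 r1 (norm_nonneg _) (by positivity)
    _ = _ := by ring

/-- the estimates of one block -/
structure Kp (n : ℕ) (μ : Pat (2 * n + 1) → ℝ) (α : ℝ) (m : ℕ) (κ : ℝ) : Prop where
  k0 : 0 ≤ κ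
  e2 : ∀ (F : Pat (2 * n + 1) → ℂ) (S : ℝ), Cls F → (∀ σ, Rch σ → ‖F σ‖ ≤ S) →
    n1 μ (fun σ => Hm n m α F σ - mm μ F) ≤ κ * S
  e3 : ∀ (F : Pat (2 * n + 1) → ℂ) (S : ℝ), Cls F → (∀ σ, Rch σ → ‖F σ‖ ≤ S) →
    ‖Hm n m α F (start n) - mm μ F‖ ≤ κ * S
  e4 : ∀ (F : Pat (2 * n + 1) → ℂ) (S : ℝ), Cls F → (∀ σ, Rch σ → ‖F σ‖ ≤ S) →
    ∀ σ, Rch σ → ‖Hm n m α F σ‖ ≤ n1 μ F + κ * S

theorem kp_exists : ∃ C0 : ℝ, 0 < C0 ∧ ∀ n : ℕ, 1 ≤ n → ∀ (t : (PowerSeries ℂ)[X])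
    (w : Pat (2 * n + 1) → PowerSeries ℂ) (μ : Pat (2 * n + 1) → ℝ), Eg n t w μ →
    ∀ (α : ℝ) (j : ℕ), 1 ≤ j →
      Kp n μ α (j * (2 * n + 1)) (C0 * (|α| * j) + 4 * dl n (j * (2 * n + 1))) := by
  obtain ⟨C1, hC1, hm2⟩ := m2_exists
  obtain ⟨B, hB, hdis⟩ := hom_dis
  refine ⟨C1 + B, by positivity, fun n hn t w μ h α j hj => ?_⟩
  have hN0 : (0 : ℝ) < 2 * n + 1 := by positivity
  set m := j * (2 * n + 1) with hm
  have hd0 := dl_nonneg n m
  have hj0 : (0 : ℝ) ≤ j := Nat.cast_nonneg j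
  have pw : ∀ (F : Pat (2 * n + 1) → ℂ) (S : ℝ), Cls F → (∀ σ, Rch σ → ‖F σ‖ ≤ S) →
      ∀ σ, Rch σ → ‖Hm n m α F σ - mm μ F‖ ≤ S * (|α| / (2 * n + 1)
        * EE (hom n) m (fun ω => |((run (2 * n) m ω σ).2 : ℝ)|) + 4 * dl n m) := by
    intro F S hF hS σ hσ
    have a1 := phase_le hS m α hσ
    have a2 := coupC hn hF hS hσ m
    have a3 := meanC h hn hF hS m
    have e : Hm n m α F σ - mm μ F = (Hm n m α F σ - EE (hom n) m (fun ω => F (run (2 * n) m ω σ).1))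
        + (EE (hom n) m (fun ω => F (run (2 * n) m ω σ).1)
          - EE (hom n) m (fun ω => F (run (2 * n) m ω (start n)).1))
        + (EE (hom n) m (fun ω => F (run (2 * n) m ω (start n)).1) - mm μ F) := by ring
    rw [e]
    refine (norm_add₃_le).trans ?_
    linarith
  have hS0 : ∀ (F : Pat (2 * n + 1) → ℂ) (S : ℝ), (∀ σ, Rch σ → ‖F σ‖ ≤ S) → 0 ≤ S := fun F S hS =>
    (norm_nonneg _).trans (hS _ rch_start)
  refine ⟨by positivity, fun F S hF hS => ?_, fun F S hF hS => ?_, fun F S hF hS σ hσ => ?_⟩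
  · have hS' := hS0 F S hS
    have h1 : n1 μ (fun σ => Hm n m α F σ - mm μ F) ≤ ∑ σ, μ σ * (S * (|α| / (2 * n + 1)
        * EE (hom n) m (fun ω => |((run (2 * n) m ω σ).2 : ℝ)|) + 4 * dl n m)) :=
      mu_mono h (pw F S hF hS)
    refine h1.trans ?_
    have e : ∀ σ, μ σ * (S * (|α| / (2 * n + 1)
        * EE (hom n) m (fun ω => |((run (2 * n) m ω σ).2 : ℝ)|) + 4 * dl n m))
        = S * (|α| / (2 * n + 1)) * (μ σ * EE (hom n) m (fun ω => |((run (2 * n) m ω σ).2 : ℝ)|))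
          + μ σ * (S * (4 * dl n m)) := fun σ => by ring
    rw [Finset.sum_congr rfl fun σ _ => e σ, Finset.sum_add_distrib, ← Finset.mul_sum,
      ← Finset.sum_mul, h.m1, one_mul]
    have h2 := hm2 n hn t w μ h j hj
    have h3 : S * (|α| / (2 * n + 1)) * (∑ σ, μ σ * EE (hom n) m
        (fun ω => |((run (2 * n) m ω σ).2 : ℝ)|)) ≤ S * (|α| / (2 * n + 1)) * (C1 * j * (2 * n + 1)) :=
      mul_le_mul_of_nonneg_left h2 (by positivity)
    have h4 : S * (|α| / (2 * n + 1)) * (C1 * j * (2 * n + 1)) = S * (C1 * (|α| * j)) := by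
      field_simp
    have h5 : 0 ≤ S * (B * (|α| * j)) := by positivity
    rw [h4] at h3
    linarith
  · have hS' := hS0 F S hS
    refine (pw F S hF hS _ rch_start).trans ?_
    have h2 := hdis n hn j
    have h3 : EE (hom n) m (fun ω => |((run (2 * n) m ω (start n)).2 : ℝ)|) ≤ B * j * (2 * n + 1) := h2
    have h4 : |α| / (2 * n + 1) * EE (hom n) m (fun ω => |((run (2 * n) m ω (start n)).2 : ℝ)|)
        ≤ |α| / (2 * n + 1) * (B * j * (2 * n + 1)) := mul_le_mul_of_nonneg_left h3 (by positivity)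
    have h5 : |α| / (2 * n + 1) * (B * j * (2 * n + 1)) = B * (|α| * j) := by field_simp
    rw [h5] at h4
    have h6 := mul_le_mul_of_nonneg_left h4 hS'
    have h7 : 0 ≤ S * (C1 * (|α| * j)) := by positivity
    linarith
  · have hS' := hS0 F S hS
    have hclsN : Cls (fun σ => ‖F σ‖) := fun σ σ' hσ => by
      show ‖F σ‖ = ‖F σ'‖
      rw [hF σ σ' hσ]
    have hab : ∀ σ, Rch σ → |‖F σ‖| ≤ S := fun σ hσ => by
      rw [abs_of_nonneg (norm_nonneg _)]; exact hS σ hσ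
    have h1 : ‖Hm n m α F σ‖ ≤ (Qo n (Real.pi / 2))^[m] (fun σ => ‖F σ‖) σ := by
      rw [← QQ_hom]
      exact Bk_norm (fun _ => half_mem) m α F σ
    have h2 := (abs_le.1 (couple hn hclsN hab hσ m)).2
    have h3 := (abs_le.1 (mixC h hn hclsN hab m)).2
    have h4 : ∑ σ, μ σ * ‖F σ‖ = n1 μ F := rfl
    rw [h4] at h3
    have h5 : 0 ≤ (C1 + B) * (|α| * j) * S := by positivity
    linarith

end H729I
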