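import Pool.Agent.Run7.h729.Iso.Fx1

/-!
# The leading eigenvalue dominates
-/

set_option autoImplicit false

namespace H729I
open H906K Pool.Agent.H974R3 Polynomial Complex Filter Topology

variable {n : ℕ} {t : (PowerSeries ℂ)[X]} {w : Pat (2 * n + 1) → PowerSeries ℂ}
  {μ : Pat (2 * n + 1) → ℝ}

/-- the remainders -/
noncomputable def Fr (n : ℕ) (μ : Pat (2 * n + 1) → ℝ) (m : ℕ) (α : ℝ) (u : Pat (2 * n + 1) → ℂ) :
    ℕ → Pat (2 * n + 1) → ℂ
  | 0 => fun σ => 1 - u σ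
  | i + 1 => fun σ => Hm n m α (Fr n μ m α u i) σ - mm μ (Hm n m α (Fr n μ m α u i)) * u σ

theorem gap_main (h : Eg n t w μ) {α : ℝ} (hα : |α| ≤ 1 / 10000) {m : ℕ} {κ : ℝ}
    (hK : Kp n μ α m κ) (hκ : κ ≤ 1 / 200) (hΛ : ‖lm t n α (Real.pi / 2) ^ m - 1‖ ≤ κ)
    (hne : ev α (dt h : PowerSeries ℂ) ≠ 0) :
    ∃ A : ℂ, ‖A - 1‖ ≤ 64 * κ ∧ ∀ k r : ℕ, ‖Hm n (k * m + r) α (fun _ => 1) (start n)
      - lm t n α (Real.pi / 2) ^ (k * m + r) * A‖ ≤ 11 * (1 / 2) ^ k := by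
  have hzn : ‖(α : ℂ)‖ ≤ 1 / 10000 := by rw [Complex.norm_real, Real.norm_eq_abs]; exact hα
  set Λ := lm t n α (Real.pi / 2) with hΛd
  set z0 := ev α (dt h : PowerSeries ℂ) with hz0
  set u : Pat (2 * n + 1) → ℂ := fun σ => z0⁻¹ * Ps h α σ with hu
  have hcls : Cls u := fun σ σ' hσ => by rw [hu]; beta_reduce; rw [Ps_cls h α σ σ' hσ]
  have hmu : mm μ u = 1 := by
    have h1 := Ps_mu h hzn
    rw [← hz0] at h1
    unfold mm
    have e : ∀ σ, ((μ σ : ℝ) : ℂ) * u σ = z0⁻¹ * (((μ σ : ℝ) : ℂ) * Ps h α σ) := fun σ => by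
      rw [hu]; ring
    rw [Finset.sum_congr rfl fun σ _ => e σ, ← Finset.mul_sum, h1, inv_mul_cancel₀ hne]
  have heig : ∀ M : ℕ, ∀ σ, Hm n M α u σ = Λ ^ M * u σ := by
    intro M σ
    have h1 := Bk_cmul (fun _ => Real.pi / 2) M α z0⁻¹ (Ps h α) σ
    have h2 := Bk_Ps h hα (ϑ := fun _ => Real.pi / 2) (fun _ => half_mem) M σ
    rw [Finset.prod_const, Finset.card_range, ← hΛd] at h2
    have h3 : Hm n M α u σ = z0⁻¹ * Bk n (fun _ => Real.pi / 2) M α (Ps h α) σ := h1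
    rw [h3, h2, hu]
    ring
  set lam := Λ ^ m with hlam
  have hk0 := hK.k0
  have hl1 : 1 - κ ≤ ‖lam‖ := by
    have h1 := norm_sub_norm_le (1 : ℂ) (1 - lam)
    rw [sub_sub_cancel, norm_one, norm_sub_rev] at h1
    linarith
  -- the supremum over the reachable patterns
  obtain ⟨s0, hs0, hmax⟩ : ∃ s0, Rch s0 ∧ ∀ σ, Rch σ → ‖u σ‖ ≤ ‖u s0‖ := by
    classical
    have hne : (Finset.univ.filter (fun σ : Pat (2 * n + 1) => Rch σ)).Nonempty :=
      ⟨start n, by simp [rch_start]⟩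
    obtain ⟨s0, h1, h2⟩ := Finset.exists_max_image _ (fun σ => ‖u σ‖) hne
    refine ⟨s0, (Finset.mem_filter.1 h1).2, fun σ hσ => h2 σ ?_⟩
    exact Finset.mem_filter.2 ⟨Finset.mem_univ _, hσ⟩
  set W := ‖u s0‖ with hW
  have hW0 : 0 ≤ W := norm_nonneg _
  have hn0 := n1_nonneg h u
  have hn1 : 1 ≤ n1 μ u := by
    have := mm_le h u
    rwa [hmu, norm_one] at this
  have q1 : ‖lam‖ * W ≤ n1 μ u + κ * W := by
    have := hK.e4 u W hcls hmax s0 hs0
    rwa [heig, norm_mul] at this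
  have q0 : n1 μ (fun σ => lam * u σ - 1) ≤ κ * W := by
    have := hK.e2 u W hcls hmax
    simp only [heig, hmu] at this
    exact this
  have q2 : ‖lam‖ * n1 μ u ≤ 1 + κ * W := by
    have h1 := n1_add h (fun σ => lam * u σ - 1) (fun _ => 1)
    rw [n1_const h, norm_one] at h1
    have e : (fun σ => (fun σ => lam * u σ - 1) σ + (fun _ => (1 : ℂ)) σ) = fun σ => lam * u σ := by
      funext σ; show lam * u σ - 1 + 1 = _; ring
    rw [e, n1_cmul] at h1
    linarith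
  have q3 : 199 / 200 * W ≤ ‖lam‖ * W := mul_le_mul_of_nonneg_right (by linarith) hW0
  have q4 : 199 / 200 * n1 μ u ≤ ‖lam‖ * n1 μ u := mul_le_mul_of_nonneg_right (by linarith) hn0
  have q5 : κ * W ≤ 1 / 200 * W := mul_le_mul_of_nonneg_right hκ hW0
  have hW2 : W ≤ 2 := by linarith
  have hN2 : n1 μ u ≤ 2 := by linarith
  have hu2 : ∀ σ, Rch σ → ‖u σ‖ ≤ 2 := fun σ hσ => (hmax σ hσ).trans hW2
  have q6 : κ * W ≤ 2 * κ := by nlinarith
  -- the modulus of the eigenvalue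
  have hΛ1 : ‖Λ‖ ≤ 1 := by
    have h1 := n1_Bk h (ϑ := fun _ => Real.pi / 2) (fun _ => half_mem) 1 α u
    have e : Bk n (fun _ => Real.pi / 2) 1 α u = fun σ => Λ * u σ := by
      funext σ
      have := heig 1 σ
      rwa [pow_one] at this
    rw [e, n1_cmul] at h1
    exact le_of_mul_le_mul_right (by linarith) (by linarith : 0 < n1 μ u)
  have hlam1 : ‖lam‖ ≤ 1 := by
    rw [hlam, norm_pow]
    exact pow_le_one₀ (norm_nonneg _) hΛ1
  have hlam0 : lam ≠ 0 := by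
    intro h0
    rw [h0, norm_zero] at hl1
    linarith
  have hlamp : 3 / 4 ≤ ‖lam‖ := by linarith
  -- the remainders
  set F := Fr n μ m α u with hF
  have hF0 : F 0 = fun σ => 1 - u σ := rfl
  have hFs : ∀ i, F (i + 1) = fun σ => Hm n m α (F i) σ - mm μ (Hm n m α (F i)) * u σ := fun i => rfl
  have inv : ∀ i : ℕ, Cls (F i) ∧ mm μ (F i) = 0 ∧ (∀ σ, Rch σ → ‖F i σ‖ ≤ 10 * (1 / 4) ^ i) ∧
      n1 μ (F i) ≤ 5 / 4 * (1 / 4) ^ i ∧ ‖mm μ (Hm n m α (F i))‖ ≤ 10 * κ * (1 / 4) ^ i := by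
    have hc : ∀ i : ℕ, Cls (F i) → mm μ (F i) = 0 → (∀ σ, Rch σ → ‖F i σ‖ ≤ 10 * (1 / 4) ^ i) →
        n1 μ (Hm n m α (F i)) ≤ 10 * κ * (1 / 4) ^ i := by
      intro i h1 h2 h3
      have h4 := hK.e2 (F i) _ h1 h3
      rw [h2] at h4
      simp only [sub_zero] at h4
      calc _ ≤ κ * (10 * (1 / 4) ^ i) := h4
        _ = _ := by ring
    intro i
    induction i with
    | zero =>
      have h1 : Cls (F 0) := fun σ σ' hσ => by rw [hF0]; beta_reduce; rw [hcls σ σ' hσ]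
      have h2 : mm μ (F 0) = 0 := by
        have := mm_lin (μ := μ) 1 (-1) (fun _ => 1) u
        rw [mm_one h, hmu] at this
        rw [hF0]
        have e : (fun σ => 1 - u σ) = fun σ => 1 * (fun _ => (1 : ℂ)) σ + -1 * u σ := by
          funext σ; ring
        rw [e, this]
        ring
      have h3 : ∀ σ, Rch σ → ‖F 0 σ‖ ≤ 10 * (1 / 4) ^ 0 := fun σ hσ => by
        rw [hF0]
        beta_reduce
        have := norm_sub_le (1 : ℂ) (u σ)
        rw [norm_one] at this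
        have := hu2 σ hσ
        linarith
      refine ⟨h1, h2, h3, ?_, (mm_le h _).trans (hc 0 h1 h2 h3)⟩
      have a1 := n1_add h (fun σ => -(lam * u σ - 1)) (fun σ => (lam - 1) * u σ)
      rw [n1_neg, n1_cmul] at a1
      have e : (fun σ => (fun σ => -(lam * u σ - 1)) σ + (fun σ => (lam - 1) * u σ) σ) = F 0 := by
        funext σ
        rw [hF0]
        show -(lam * u σ - 1) + (lam - 1) * u σ = 1 - u σ
        ring
      rw [e] at a1
      have a2 : ‖lam - 1‖ * n1 μ u ≤ κ * 2 := mul_le_mul hΛ hN2 hn0 hk0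
      rw [pow_zero]
      linarith
    | succ i ih =>
      obtain ⟨h1, h2, h3, h4, h5⟩ := ih
      set q : ℝ := (1 / 4) ^ i with hq
      have hq0 : 0 ≤ q := by positivity
      have hqs : (1 / 4 : ℝ) ^ (i + 1) = q / 4 := by rw [pow_succ, hq]; ring
      have hP := hc i h1 h2 h3
      have hκq : κ * q ≤ 1 / 200 * q := mul_le_mul_of_nonneg_right hκ hq0
      have g1 : Cls (F (i + 1)) := fun σ σ' hσ => by
        rw [hFs]; beta_reduce; rw [hcls σ σ' hσ, Hm_cls h1 m α σ σ' hσ]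
      have g2 : mm μ (F (i + 1)) = 0 := by
        have := mm_lin (μ := μ) 1 (-mm μ (Hm n m α (F i))) (Hm n m α (F i)) u
        rw [hmu] at this
        rw [hFs]
        have e : (fun σ => Hm n m α (F i) σ - mm μ (Hm n m α (F i)) * u σ)
            = fun σ => 1 * Hm n m α (F i) σ + -mm μ (Hm n m α (F i)) * u σ := by
          funext σ; ring
        rw [e, this]
        ring
      have g3 : ∀ σ, Rch σ → ‖F (i + 1) σ‖ ≤ 10 * (1 / 4) ^ (i + 1) := fun σ hσ => by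
        rw [hFs, hqs]
        beta_reduce
        have b1 := norm_sub_le (Hm n m α (F i) σ) (mm μ (Hm n m α (F i)) * u σ)
        rw [norm_mul] at b1
        have b2 := hK.e4 (F i) _ h1 h3 σ hσ
        have b3 : ‖mm μ (Hm n m α (F i))‖ * ‖u σ‖ ≤ (10 * κ * q) * 2 :=
          mul_le_mul h5 (hu2 σ hσ) (norm_nonneg _) (by positivity)
        linarith
      refine ⟨g1, g2, g3, ?_, (mm_le h _).trans (hc (i + 1) g1 g2 g3)⟩
      have a1 := n1_add h (Hm n m α (F i)) (fun σ => -mm μ (Hm n m α (F i)) * u σ)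
      rw [n1_cmul, norm_neg] at a1
      have e : (fun σ => Hm n m α (F i) σ + (fun σ => -mm μ (Hm n m α (F i)) * u σ) σ)
          = F (i + 1) := by
        funext σ
        rw [hFs]
        show Hm n m α (F i) σ + -mm μ (Hm n m α (F i)) * u σ = _
        ring
      rw [e] at a1
      have a2 : ‖mm μ (Hm n m α (F i))‖ * n1 μ u ≤ (10 * κ * q) * 2 :=
        mul_le_mul h5 hN2 hn0 (by positivity)
      rw [hqs]
      linarith
  -- the coefficients
  set b : ℕ → ℂ := fun k => 1 + ∑ i ∈ Finset.range k, mm μ (Hm n m α (F i)) / lam ^ (i + 1) with hb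
  have hbs : ∀ k, b (k + 1) = b k + mm μ (Hm n m α (F k)) / lam ^ (k + 1) := fun k => by
    rw [hb]; beta_reduce; rw [Finset.sum_range_succ]; ring
  have hstr : ∀ k : ℕ, Hm n (k * m) α (fun _ => 1) = fun σ => (lam ^ k * b k) * u σ + 1 * F k σ := by
    intro k
    induction k with
    | zero =>
      funext σ
      rw [zero_mul, Hm_iter, hF0, hb]
      simp
    | succ k ih =>
      have e : (k + 1) * m = m + k * m := by ring
      funext σ
      rw [e, Hm_add, ih, Hm_lin, heig, hbs, hFs, ← hlam]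
      have e2 : lam ^ (k + 1) * (mm μ (Hm n m α (F k)) / lam ^ (k + 1)) = mm μ (Hm n m α (F k)) :=
        mul_div_cancel₀ _ (pow_ne_zero _ hlam0)
      linear_combination (-(u σ)) * e2
  have hstep : ∀ k : ℕ, dist (b k) (b (k + 1)) ≤ 20 * κ * (1 / 3) ^ k := by
    intro k
    rw [dist_comm, dist_eq_norm, hbs, add_sub_cancel_left, norm_div, norm_pow]
    have h1 := (inv k).2.2.2.2
    have h2 : (3 / 4 : ℝ) ^ (k + 1) ≤ ‖lam‖ ^ (k + 1) := pow_le_pow_left₀ (by norm_num) hlamp _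
    rw [div_le_iff₀ (by positivity)]
    have h3 : (1 / 3 : ℝ) ^ k * (3 / 4) ^ (k + 1) = 3 / 4 * (1 / 4) ^ k := by
      rw [pow_succ, ← mul_assoc, ← mul_pow]
      norm_num
      ring
    calc _ ≤ 10 * κ * (1 / 4) ^ k := h1
      _ ≤ 20 * κ * (3 / 4 * (1 / 4) ^ k) := by
        have : 0 ≤ κ * (1 / 4) ^ k := by positivity
        linarith
      _ = 20 * κ * (1 / 3) ^ k * (3 / 4) ^ (k + 1) := by rw [← h3]; ring
      _ ≤ _ := mul_le_mul_of_nonneg_left h2 (by positivity)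
  obtain ⟨A0, hA0⟩ := cauchySeq_tendsto_of_complete
    (cauchySeq_of_le_geometric (1 / 3) (20 * κ) (by norm_num) hstep)
  have hdist : ∀ k, ‖b k - A0‖ ≤ 30 * κ * (1 / 3) ^ k := by
    intro k
    have := dist_le_of_le_geometric_of_tendsto (1 / 3) (20 * κ) (by norm_num) hstep hA0 k
    rw [dist_eq_norm] at this
    refine this.trans (le_of_eq ?_)
    ring
  have hA1 : ‖A0 - 1‖ ≤ 30 * κ := by
    have h1 := hdist 0
    have h2 : b 0 = 1 := by rw [hb]; simp
    rw [h2, norm_sub_rev, pow_zero, mul_one] at h1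
    exact h1
  have hst := hu2 _ rch_start
  have hw1 : ‖u (start n) - 1‖ ≤ 4 * κ := by
    have h1 := hK.e3 u W hcls hmax
    rw [heig, hmu] at h1
    have h2 : u (start n) - 1 = (lam * u (start n) - 1) - (lam - 1) * u (start n) := by ring
    rw [h2]
    refine (norm_sub_le _ _).trans ?_
    rw [norm_mul]
    have h3 : ‖lam - 1‖ * ‖u (start n)‖ ≤ κ * 2 := mul_le_mul hΛ hst (norm_nonneg _) hk0
    linarith
  refine ⟨A0 * u (start n), ?_, fun k r => ?_⟩
  · have h1 : A0 * u (start n) - 1 = (A0 - 1) * u (start n) + (u (start n) - 1) := by ring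
    rw [h1]
    refine (norm_add_le _ _).trans ?_
    rw [norm_mul]
    have h3 : ‖A0 - 1‖ * ‖u (start n)‖ ≤ 30 * κ * 2 := mul_le_mul hA1 hst (norm_nonneg _)
      (by positivity)
    linarith
  · have e1 : k * m + r = r + k * m := add_comm _ _
    have e2 : Λ ^ (k * m + r) = lam ^ k * Λ ^ r := by
      rw [hlam, ← pow_mul, ← pow_add]
      congr 1
      ring
    rw [e2]
    rw [e1, Hm_add, hstr k, Hm_lin, heig]
    have e3 : lam ^ k * b k * (Λ ^ r * u (start n)) + 1 * Hm n r α (F k) (start n)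
        - lam ^ k * Λ ^ r * (A0 * u (start n))
        = lam ^ k * Λ ^ r * u (start n) * (b k - A0) + Hm n r α (F k) (start n) := by ring
    rw [e3]
    refine (norm_add_le _ _).trans ?_
    have g1 : ‖Hm n r α (F k) (start n)‖ ≤ 10 * (1 / 4) ^ k :=
      Hm_sup (inv k).2.2.1 r α rch_start
    have g2 : ‖lam ^ k * Λ ^ r * u (start n) * (b k - A0)‖ ≤ 2 * (30 * κ * (1 / 3) ^ k) := by
      rw [norm_mul, norm_mul, norm_mul, norm_pow lam k, norm_pow Λ r]
      have p1 : ‖lam‖ ^ k ≤ 1 := pow_le_one₀ (norm_nonneg _) hlam1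
      have p2 : ‖Λ‖ ^ r ≤ 1 := pow_le_one₀ (norm_nonneg _) hΛ1
      have p3 : ‖lam‖ ^ k * ‖Λ‖ ^ r ≤ 1 := mul_le_one₀ p1 (by positivity) p2
      have p4 : ‖lam‖ ^ k * ‖Λ‖ ^ r * ‖u (start n)‖ ≤ 2 := by
        calc _ ≤ 1 * 2 := mul_le_mul p3 hst (norm_nonneg _) zero_le_one
          _ = 2 := by norm_num
      exact mul_le_mul p4 (hdist k) (norm_nonneg _) (by norm_num)
    have g3 : (1 / 4 : ℝ) ^ k ≤ (1 / 2) ^ k := pow_le_pow_left₀ (by norm_num) (by norm_num) k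
    have g4 : (1 / 3 : ℝ) ^ k ≤ (1 / 2) ^ k := pow_le_pow_left₀ (by norm_num) (by norm_num) k
    have g5 : 0 ≤ (1 / 3 : ℝ) ^ k := by positivity
    have g6 : κ * (1 / 3) ^ k ≤ 1 / 200 * (1 / 3) ^ k := mul_le_mul_of_nonneg_right hκ g5
    linarith

end H729I
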