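import Pool.Agent.Run7.h729.Iso.Fx3

/-!
# The winding exponents
-/

set_option autoImplicit false

namespace H729I
open H906K Pool.Agent.H974R3 Polynomial Complex Filter Topology

variable {n : ℕ} {t : (PowerSeries ℂ)[X]} {w : Pat (2 * n + 1) → PowerSeries ℂ}
  {μ : Pat (2 * n + 1) → ℝ}

theorem Hm_cont (M : ℕ) : Continuous (fun β : ℝ => Hm n M β (fun _ => 1) (start n)) := by
  unfold Hm Bk EE
  refine continuous_finsetSum _ fun c _ => ?_
  exact ((phs_cont _).mul continuous_const).const_smul _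

theorem fix_all : ∃ ρ C δ : ℝ, 0 < ρ ∧ ρ < 1 / 10000 ∧ 0 < C ∧ 0 < δ ∧ ∀ n : ℕ, 1 ≤ n →
    ∀ (t : (PowerSeries ℂ)[X]) (w : Pat (2 * n + 1) → PowerSeries ℂ) (μ : Pat (2 * n + 1) → ℝ)
    (g : ℕ → ℝ), Eg n t w μ → Lb n t g → ∀ α : ℝ, |α| ≤ ρ → ∃ A : ℂ, ‖A - 1‖ ≤ C * √|α| ∧
      ∀ M : ℕ, ‖Hm n M α (fun _ => 1) (start n) - lm t n α (Real.pi / 2) ^ M * A‖
        ≤ C * Real.exp (-δ * (M / (2 * n + 1))) := by
  obtain ⟨ρ, C, δ, hρ, hρ', hC, hδ, hgood⟩ := fix_good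
  refine ⟨ρ / 2, C, δ, by positivity, by linarith, hC, hδ, ?_⟩
  intro n hn t w μ g h hb α hα
  have hα' : |α| < 1 / 10000 := by linarith
  have hex : ∀ β : ℝ, ∃ A : ℂ, |β| ≤ ρ → ev β (dt h : PowerSeries ℂ) ≠ 0 →
      ‖A - 1‖ ≤ C * √|β| ∧ ∀ M : ℕ, ‖Hm n M β (fun _ => 1) (start n)
        - lm t n β (Real.pi / 2) ^ M * A‖ ≤ C * Real.exp (-δ * (M / (2 * n + 1))) := by
    intro β
    by_cases h1 : |β| ≤ ρ ∧ ev β (dt h : PowerSeries ℂ) ≠ 0
    · obtain ⟨A, hA⟩ := hgood n hn t w μ g h hb β h1.1 h1.2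
      exact ⟨A, fun _ _ => hA⟩
    · exact ⟨0, fun h2 h3 => absurd ⟨h2, h3⟩ h1⟩
  choose Af hAf using hex
  set U : Ultrafilter ℝ := Ultrafilter.of (𝓝[≠] α) with hU
  have hUle : (U : Filter ℝ) ≤ 𝓝[≠] α := Ultrafilter.of_le _
  have hUn : (U : Filter ℝ) ≤ 𝓝 α := hUle.trans nhdsWithin_le_nhds
  have hev : ∀ᶠ β in (U : Filter ℝ), |β| ≤ ρ ∧ ev (β : ℂ) (dt h : PowerSeries ℂ) ≠ 0 := by
    have h1 : ∀ᶠ β : ℝ in 𝓝 α, |β| < ρ :=
      continuous_abs.continuousAt.eventually (gt_mem_nhds (by linarith))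
    filter_upwards [hUle (dt_iso h hα'), hUn h1] with β h2 h3
    exact ⟨le_of_lt h3, h2⟩
  have hmem : ∀ᶠ β in (U : Filter ℝ), Af β ∈ Metric.closedBall (1 : ℂ) (C * √ρ) := by
    filter_upwards [hev] with β hβ
    rw [mem_closedBall_iff_norm]
    refine (hAf β hβ.1 hβ.2).1.trans ?_
    exact mul_le_mul_of_nonneg_left (Real.sqrt_le_sqrt hβ.1) hC.le
  obtain ⟨A, -, hA⟩ := (isCompact_closedBall (1 : ℂ) (C * √ρ)).ultrafilter_le_nhds (U.map Af)
    (by rw [le_principal_iff]; exact hmem)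
  have hAt : Tendsto Af (U : Filter ℝ) (𝓝 A) := hA
  refine ⟨A, ?_, fun M => ?_⟩
  · have h1 : Tendsto (fun β => ‖Af β - 1‖) (U : Filter ℝ) (𝓝 ‖A - 1‖) := (hAt.sub_const 1).norm
    have h2 : Tendsto (fun β : ℝ => C * √|β|) (U : Filter ℝ) (𝓝 (C * √|α|)) := by
      have : Continuous (fun β : ℝ => C * √|β|) := by fun_prop
      exact (this.tendsto α).mono_left hUn
    refine le_of_tendsto_of_tendsto h1 h2 ?_
    filter_upwards [hev] with β hβ
    exact (hAf β hβ.1 hβ.2).1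
  · have h1 : Tendsto (fun β : ℝ => Hm n M β (fun _ => 1) (start n)) (U : Filter ℝ)
        (𝓝 (Hm n M α (fun _ => 1) (start n))) := ((Hm_cont M).tendsto α).mono_left hUn
    have h2 : Tendsto (fun β : ℝ => lm t n β (Real.pi / 2)) (U : Filter ℝ)
        (𝓝 (lm t n α (Real.pi / 2))) := by
      have h3 := ev_cont (h.su _ half_mem) hα'
      exact h3.tendsto.mono_left hUn
    have h3 : Tendsto (fun β : ℝ => ‖Hm n M β (fun _ => 1) (start n)
        - lm t n β (Real.pi / 2) ^ M * Af β‖) (U : Filter ℝ)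
        (𝓝 ‖Hm n M α (fun _ => 1) (start n) - lm t n α (Real.pi / 2) ^ M * A‖) :=
      (h1.sub ((h2.pow M).mul hAt)).norm
    refine le_of_tendsto h3 ?_
    filter_upwards [hev] with β hβ
    exact (hAf β hβ.1 hβ.2).2 M

/-- the height of `M` rows -/
noncomputable def ht (n M : ℕ) : ℝ := 2 * Real.pi * M / (2 * n + 1)

/-- **the winding at a fixed twist** -/
theorem wind_fixed : ∃ ρ C δ : ℝ, 0 < ρ ∧ 0 < C ∧ 0 < δ ∧ ∀ n : ℕ, 1 ≤ n → ∀ a : ℝ, |a| ≤ ρ →
    ∃ A β : ℂ, ‖A - 1‖ ≤ C * √|a| ∧ ‖β - 3 * a ^ 2‖ ≤ C * (|a| / (2 * n + 1) ^ 2 + a ^ 2 / (2 * n + 1)) ∧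
      ∀ M : ℕ, ‖EE (hom n) M (fun c => cexp (((a * (2 * Real.pi / (2 * n + 1) * dis c) : ℝ) : ℂ) * I))
        - A * cexp (-β * (ht n M : ℝ))‖ ≤ C * Real.exp (-δ * ht n M) := by
  obtain ⟨ρ, C, δ, hρ, hρ', hC, hδ, hall⟩ := fix_all
  obtain ⟨r, K, hr, hr', hK, hlog⟩ := log_quad
  have hpi := Real.pi_pos
  have hpi7 : 2 * Real.pi < 7 := by linarith [Real.pi_lt_d2]
  refine ⟨min ρ r / 7, 3 * C + 7 * K, δ / (2 * Real.pi), by positivity, by positivity,
    by positivity, ?_⟩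
  intro n hn a ha
  have hN0 : (0 : ℝ) < 2 * n + 1 := by positivity
  obtain ⟨t, w, μ, g, h, hb⟩ := eg_exists hn
  set α := 2 * Real.pi * a with hα
  have hαa : |α| = 2 * Real.pi * |a| := by
    rw [hα, abs_mul, abs_of_pos (by positivity : 0 < 2 * Real.pi)]
  have hαm : |α| ≤ min ρ r := by
    rw [hαa]
    have h1 : 0 ≤ |a| := abs_nonneg a
    have h2 : 7 * |a| ≤ min ρ r := by linarith
    nlinarith
  have hα1 : |α| ≤ ρ := hαm.trans (min_le_left _ _)
  have hα2 : |α| ≤ r := hαm.trans (min_le_right _ _)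
  obtain ⟨A, hA1, hA2⟩ := hall n hn t w μ g h hb α hα1
  set L := ev α (lgs (tz n t ((ph (Real.pi / 2) : ℂ) * I))) with hL
  have hlg := hlog n hn t w μ g h hb α hα2
  rw [← hL] at hlg
  have hlm : lm t n α (Real.pi / 2) = cexp L := by
    unfold lm
    exact ev_tz h hb hn half_mem (by rw [Complex.norm_real, Real.norm_eq_abs]; linarith)
  have hNC : ((2 * n + 1 : ℝ) : ℂ) ≠ 0 := by exact_mod_cast hN0.ne'
  have hpC : ((2 * Real.pi : ℝ) : ℂ) ≠ 0 := by exact_mod_cast (by positivity : 2 * Real.pi ≠ 0)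
  refine ⟨A, -(((2 * n + 1) / (2 * Real.pi) : ℝ) : ℂ) * L, ?_, ?_, fun M => ?_⟩
  · refine hA1.trans ?_
    have h1 : √|α| ≤ 3 * √|a| := by
      rw [hαa]
      rw [Real.sqrt_le_left (by positivity), mul_pow, Real.sq_sqrt (abs_nonneg a)]
      nlinarith [abs_nonneg a]
    have h2 : 0 ≤ √|a| := Real.sqrt_nonneg _
    calc C * √|α| ≤ C * (3 * √|a|) := mul_le_mul_of_nonneg_left h1 hC.le
      _ ≤ _ := by nlinarith [mul_nonneg hK.le h2]
  · have e1 : -(((2 * n + 1) / (2 * Real.pi) : ℝ) : ℂ) * L - 3 * (a : ℂ) ^ 2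
        = -(((2 * n + 1) / (2 * Real.pi) : ℝ) : ℂ) * (L
          + ((3 * α ^ 2 / (2 * Real.pi * (2 * n + 1)) : ℝ) : ℂ)) := by
      have e2 : (((2 * n + 1) / (2 * Real.pi) : ℝ) : ℂ)
          * ((3 * α ^ 2 / (2 * Real.pi * (2 * n + 1)) : ℝ) : ℂ) = 3 * (a : ℂ) ^ 2 := by
        rw [← Complex.ofReal_mul]
        have e3 : (2 * (n : ℝ) + 1) / (2 * Real.pi) * (3 * α ^ 2 / (2 * Real.pi * (2 * n + 1)))
            = 3 * a ^ 2 := by
          rw [hα]; field_simp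
        rw [e3]
        push_cast
        rfl
      linear_combination e2
    rw [e1, norm_mul, norm_neg, Complex.norm_real, Real.norm_eq_abs, abs_of_pos (by positivity)]
    have h1 : (2 * (n : ℝ) + 1) / (2 * Real.pi) * ‖L
          + ((3 * α ^ 2 / (2 * Real.pi * (2 * n + 1)) : ℝ) : ℂ)‖
        ≤ (2 * (n : ℝ) + 1) / (2 * Real.pi) * (K * (|α| / (2 * n + 1) ^ 3 + α ^ 2 / (2 * n + 1) ^ 2)) :=
      mul_le_mul_of_nonneg_left hlg (by positivity)
    refine h1.trans ?_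
    have e4 : (2 * (n : ℝ) + 1) / (2 * Real.pi) * (K * (|α| / (2 * n + 1) ^ 3
        + α ^ 2 / (2 * n + 1) ^ 2)) = K * (|a| / (2 * n + 1) ^ 2)
        + (2 * Real.pi) * K * (a ^ 2 / (2 * n + 1)) := by
      rw [hαa, hα]; field_simp
    rw [e4]
    have p1 : 0 ≤ |a| / (2 * (n : ℝ) + 1) ^ 2 := by positivity
    have p2 : 0 ≤ a ^ 2 / (2 * (n : ℝ) + 1) := by positivity
    have p3 : (2 * Real.pi) * K * (a ^ 2 / (2 * (n : ℝ) + 1)) ≤ 7 * K * (a ^ 2 / (2 * (n : ℝ) + 1)) := by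
      gcongr
    have p4 := mul_nonneg hK.le p1
    have p5 := mul_nonneg hC.le p1
    have p6 := mul_nonneg hC.le p2
    linarith
  · have h1 := hA2 M
    have e1 : Hm n M α (fun _ => 1) (start n) = EE (hom n) M (fun c =>
        cexp (((a * (2 * Real.pi / (2 * n + 1) * dis c) : ℝ) : ℂ) * I)) := by
      unfold Hm Bk
      have : (fun ω : Conf n M => phs n α (run (2 * n) M ω (start n)).2 * (1 : ℂ))
          = fun c => cexp (((a * (2 * Real.pi / (2 * n + 1) * dis c) : ℝ) : ℂ) * I) := by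
        funext c
        unfold phs dis
        rw [mul_one, hα]
        congr 1
        push_cast
        ring
      rw [this]
      rfl
    have e2 : lm t n α (Real.pi / 2) ^ M
        = cexp (-(-(((2 * n + 1) / (2 * Real.pi) : ℝ) : ℂ) * L) * (ht n M : ℝ)) := by
      rw [hlm, ← Complex.exp_nat_mul]
      congr 1
      have e3 : (((2 * n + 1) / (2 * Real.pi) : ℝ) : ℂ) * ((ht n M : ℝ) : ℂ) = (M : ℂ) := by
        rw [← Complex.ofReal_mul]
        unfold ht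
        have : (2 * (n : ℝ) + 1) / (2 * Real.pi) * (2 * Real.pi * M / (2 * n + 1)) = M := by
          field_simp
        rw [this, Complex.ofReal_natCast]
      linear_combination (-L) * e3
    rw [e1, e2, mul_comm (cexp _) A] at h1
    refine h1.trans ?_
    have e5 : -(δ / (2 * Real.pi)) * ht n M = -δ * (M / (2 * n + 1)) := by
      unfold ht; field_simp
    rw [e5]
    have p1 : 0 < Real.exp (-δ * (M / (2 * n + 1))) := Real.exp_pos _
    nlinarith [mul_pos hK p1, mul_pos hC p1]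

/-- **the winding exponents** -/
theorem wind_exp : ∃ ρ : ℝ, 0 < ρ ∧ ∀ a : ℝ, |a| ≤ ρ → ∀ ε : ℝ, 0 < ε → ∃ n₀ : ℕ, ∃ T₀ : ℝ,
    ∀ n M : ℕ, n₀ ≤ n → T₀ ≤ ht n M →
      Real.exp (-(3 * a ^ 2 + ε) * ht n M) ≤ ‖EE (hom n) M (fun c =>
        cexp (((a * (2 * Real.pi / (2 * n + 1) * dis c) : ℝ) : ℂ) * I))‖ ∧
      ‖EE (hom n) M (fun c => cexp (((a * (2 * Real.pi / (2 * n + 1) * dis c) : ℝ) : ℂ) * I))‖
        ≤ Real.exp (-(3 * a ^ 2 - ε) * ht n M) := by
  obtain ⟨ρ, C, δ, hρ, hC, hδ, hall⟩ := wind_fixed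
  -- the bound of the arguments
  set ρ' : ℝ := min ρ (min (1 / (2 * C) ^ 2) (min 1 (δ / (12 + 0)))) with hρ'
  have hρ'0 : 0 < ρ' := by positivity
  refine ⟨ρ', hρ'0, fun a ha ε hε => ?_⟩
  have ha1 : |a| ≤ ρ := ha.trans (min_le_left _ _)
  have ha2 : |a| ≤ 1 / (2 * C) ^ 2 := ha.trans ((min_le_right _ _).trans (min_le_left _ _))
  have ha3 : |a| ≤ 1 := ha.trans ((min_le_right _ _).trans ((min_le_right _ _).trans
    (min_le_left _ _)))
  have ha4 : |a| ≤ δ / 12 := by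
    have := ha.trans ((min_le_right _ _).trans ((min_le_right _ _).trans (min_le_right _ _)))
    simpa using this
  have hCs : C * √|a| ≤ 1 / 2 := by
    have h1 : √|a| ≤ 1 / (2 * C) := by
      rw [Real.sqrt_le_left (by positivity), div_pow, one_pow]
      exact ha2
    calc C * √|a| ≤ C * (1 / (2 * C)) := mul_le_mul_of_nonneg_left h1 hC.le
      _ = 1 / 2 := by field_simp
  have ha0 : 0 ≤ |a| := abs_nonneg a
  have hasq : 3 * a ^ 2 ≤ δ / 4 := by
    rw [← sq_abs]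
    nlinarith
  -- the choice of the parameters
  set ε' : ℝ := min (ε / 2) (δ / 4) with hε'
  have hε'0 : 0 < ε' := lt_min (by positivity) (by positivity)
  obtain ⟨n₀, hn₀⟩ := exists_nat_gt (2 * C / ε')
  obtain ⟨T₀, hT₀⟩ : ∃ T₀ : ℝ, 0 ≤ T₀ ∧ ∀ T : ℝ, T₀ ≤ T → C * Real.exp (-(δ / 2) * T) ≤ 1 / 4 ∧
      2 + Real.log 2 ≤ ε / 2 * T := by
    refine ⟨max 0 (max (2 / δ * Real.log (4 * C)) ((2 + Real.log 2) / (ε / 2))), le_max_left _ _,
      fun T hT => ⟨?_, ?_⟩⟩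
    · have h1 : 2 / δ * Real.log (4 * C) ≤ T := ((le_max_left _ _).trans (le_max_right _ _)).trans hT
      have h2 : Real.log (4 * C) ≤ δ / 2 * T := by
        have := mul_le_mul_of_nonneg_left h1 (by positivity : 0 ≤ δ / 2)
        have e : δ / 2 * (2 / δ * Real.log (4 * C)) = Real.log (4 * C) := by field_simp
        linarith
      have h3 : Real.exp (-(δ / 2) * T) ≤ (4 * C)⁻¹ := by
        rw [neg_mul, Real.exp_neg]
        apply inv_anti₀ (by positivity)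
        rw [← Real.exp_log (show 0 < 4 * C by positivity)]
        exact Real.exp_le_exp.2 h2
      calc C * Real.exp (-(δ / 2) * T) ≤ C * (4 * C)⁻¹ := mul_le_mul_of_nonneg_left h3 hC.le
        _ = 1 / 4 := by field_simp
    · have h1 : (2 + Real.log 2) / (ε / 2) ≤ T :=
        ((le_max_right _ _).trans (le_max_right _ _)).trans hT
      rw [div_le_iff₀ (by positivity)] at h1
      linarith
  refine ⟨max n₀ 1, T₀, fun n M hn hT => ?_⟩
  have hn1 : 1 ≤ n := (le_max_right _ _).trans hn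
  have hn2 : (n₀ : ℝ) ≤ n := by exact_mod_cast (le_max_left _ _).trans hn
  have hN0 : (0 : ℝ) < 2 * n + 1 := by positivity
  obtain ⟨A, β, hA, hβ, hM⟩ := hall n hn1 a ha1
  obtain ⟨hT1, hT2⟩ := hT₀.2 _ hT
  have hTp : 0 ≤ ht n M := hT₀.1.trans hT
  set T := ht n M with hTd
  set E := EE (hom n) M (fun c => cexp (((a * (2 * Real.pi / (2 * n + 1) * dis c) : ℝ) : ℂ) * I))
    with hE
  have hM' : ‖E - A * cexp (-β * (T : ℝ))‖ ≤ C * Real.exp (-δ * T) := hM M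
  have hβ' : ‖β - 3 * a ^ 2‖ ≤ ε' := by
    refine hβ.trans ?_
    have h1 : |a| / (2 * (n : ℝ) + 1) ^ 2 ≤ 1 / (2 * n + 1) := by
      rw [div_le_div_iff₀ (by positivity) hN0]
      nlinarith
    have h2 : a ^ 2 / (2 * (n : ℝ) + 1) ≤ 1 / (2 * n + 1) := by
      apply div_le_div_of_nonneg_right _ hN0.le
      rw [← sq_abs]
      nlinarith
    have h3 : 2 * C / ε' < n := lt_of_lt_of_le hn₀ hn2
    have h4 : 2 * C / (2 * n + 1) ≤ ε' := by
      rw [div_le_iff₀ hN0]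
      rw [div_lt_iff₀ hε'0] at h3
      nlinarith
    calc C * (|a| / (2 * (n : ℝ) + 1) ^ 2 + a ^ 2 / (2 * n + 1))
        ≤ C * (1 / (2 * n + 1) + 1 / (2 * n + 1)) :=
          mul_le_mul_of_nonneg_left (add_le_add h1 h2) hC.le
      _ = 2 * C / (2 * n + 1) := by ring
      _ ≤ _ := h4
  set b := β.re with hb
  have hb1 : |b - 3 * a ^ 2| ≤ ε' := by
    have h1 := Complex.abs_re_le_norm (β - 3 * a ^ 2)
    have h2 : (β - 3 * (a : ℂ) ^ 2).re = b - 3 * a ^ 2 := by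
      have : (3 * (a : ℂ) ^ 2) = ((3 * a ^ 2 : ℝ) : ℂ) := by push_cast; ring
      rw [this, Complex.sub_re, Complex.ofReal_re]
    rw [h2] at h1
    exact h1.trans hβ'
  have hb2 := abs_le.1 hb1
  have he1 : ε' ≤ ε / 2 := min_le_left _ _
  have he2 : ε' ≤ δ / 4 := min_le_right _ _
  have hbδ : b ≤ δ / 2 := by linarith
  have hnorm : ‖cexp (-β * (T : ℝ))‖ = Real.exp (-b * T) := by
    rw [Complex.norm_exp]
    congr 1
    simp [hb]
  have hA' : 1 / 2 ≤ ‖A‖ ∧ ‖A‖ ≤ 3 / 2 := by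
    have h1 := norm_sub_norm_le (1 : ℂ) (1 - A)
    rw [sub_sub_cancel, norm_one, norm_sub_rev] at h1
    have h2 := norm_sub_norm_le A 1
    rw [norm_one] at h2
    constructor <;> linarith
  have hmain : ‖A * cexp (-β * (T : ℝ))‖ = ‖A‖ * Real.exp (-b * T) := by rw [norm_mul, hnorm]
  have herr : C * Real.exp (-δ * T) ≤ 1 / 4 * Real.exp (-b * T) := by
    have h1 : Real.exp (-δ * T) = Real.exp (-(δ / 2) * T) * Real.exp (-(δ / 2) * T) := by
      rw [← Real.exp_add]; congr 1; ring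
    have h2 : Real.exp (-(δ / 2) * T) ≤ Real.exp (-b * T) := by
      apply Real.exp_le_exp.2
      nlinarith
    rw [h1, ← mul_assoc]
    exact mul_le_mul hT1 h2 (Real.exp_pos _).le (by norm_num)
  have hx := Real.exp_pos (-b * T)
  have hlow : 1 / 4 * Real.exp (-b * T) ≤ ‖E‖ := by
    have h1 := norm_sub_norm_le (A * cexp (-β * (T : ℝ))) E
    rw [norm_sub_rev] at h1
    have h2 := mul_le_mul_of_nonneg_right hA'.1 hx.le
    rw [hmain] at h1
    linarith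
  have hup : ‖E‖ ≤ 2 * Real.exp (-b * T) := by
    have h1 := norm_sub_norm_le E (A * cexp (-β * (T : ℝ)))
    have h2 := mul_le_mul_of_nonneg_right hA'.2 hx.le
    rw [hmain] at h1
    linarith
  have hbT1 : b * T ≤ (3 * a ^ 2 + ε / 2) * T := mul_le_mul_of_nonneg_right (by linarith) hTp
  have hbT2 : (3 * a ^ 2 - ε / 2) * T ≤ b * T := mul_le_mul_of_nonneg_right (by linarith) hTp
  have hl2 : 0 < Real.log 2 := Real.log_pos (by norm_num)
  refine ⟨le_trans ?_ hlow, hup.trans ?_⟩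
  · have h1 : (1 / 4 : ℝ) = Real.exp (-(2 * Real.log 2)) := by
      rw [Real.exp_neg, two_mul, Real.exp_add, Real.exp_log (by norm_num)]
      norm_num
    rw [h1, ← Real.exp_add]
    apply Real.exp_le_exp.2
    have h2 : Real.log 2 < 1 := by
      have := Real.log_two_lt_d9
      linarith
    nlinarith
  · have h1 : (2 : ℝ) = Real.exp (Real.log 2) := (Real.exp_log (by norm_num)).symm
    calc 2 * Real.exp (-b * T) = Real.exp (Real.log 2 + -b * T) := by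
          rw [Real.exp_add, Real.exp_log (by norm_num)]
      _ ≤ _ := by
        apply Real.exp_le_exp.2
        nlinarith

end H729I
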