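import Pool.Agent.Run7.h729.Iso.Fx4
import Pool.Agent.H906R3.K6.L7

/-!
# The row operators commute
-/

set_option autoImplicit false

namespace H729I
open H906K Pool.Agent.H974R3 Polynomial Complex Filter Topology

variable {n : ℕ}

/-- the twist as a unit -/
noncomputable def zt (n : ℕ) (α : ℝ) : ℂˣ :=
  Units.mk0 (cexp ((1 : ℂ) / (2 * n + 1) * I * α)) (Complex.exp_ne_zero _)

theorem zt_zpow (α : ℝ) (d : ℤ) : ((zt n α ^ d : ℂˣ) : ℂ) = phs n α d := by
  unfold zt phs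
  rw [Units.val_zpow_eq_zpow_val, Units.val_mk0, ← Complex.exp_int_mul]
  congr 1
  ring

theorem TL_Hs {θ : ℝ} (hθ : θ ∈ Set.Icc 0 Real.pi) (α : ℝ) (F : Pat (2 * n + 1) → ℂ)
    (σ : Pat (2 * n + 1)) :
    (TL (2 * n) om (cexp ((ph θ : ℂ) * I)) (zt n α)).vecMul F σ
      = (1 + cexp ((ph θ : ℂ) * I)) ^ (2 * n + 1) * Hs n θ α F σ := by
  classical
  unfold Matrix.vecMul dotProduct TL Hs
  simp only [Finset.mul_sum]
  rw [Finset.sum_comm]
  refine Finset.sum_congr rfl fun b _ => ?_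
  have h4 : ∀ τ, F τ * (if Tc (2 * n) b σ = τ then
        (∏ j, wt om (b j) (cexp ((ph θ : ℂ) * I))) * ((zt n α ^ dTc (2 * n) b σ : ℂˣ) : ℂ) else 0)
        = if Tc (2 * n) b σ = τ then F τ * ((∏ j, wt om (b j) (cexp ((ph θ : ℂ) * I)))
          * ((zt n α ^ dTc (2 * n) b σ : ℂˣ) : ℂ)) else 0 := by
    intro τ
    split_ifs <;> simp
  have h6 := Wc_eq n hθ b
  unfold Wc at h6
  rw [Finset.sum_congr rfl fun τ _ => h4 τ, Finset.sum_ite_eq, if_pos (Finset.mem_univ _),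
    zt_zpow, h6]
  ring

theorem Hs_smul (θ α : ℝ) (a : ℂ) (F : Pat (2 * n + 1) → ℂ) (σ : Pat (2 * n + 1)) :
    Hs n θ α (fun τ => a * F τ) σ = a * Hs n θ α F σ := by
  unfold Hs
  rw [Finset.mul_sum]
  refine Finset.sum_congr rfl fun b _ => ?_
  ring

/-- **the row operators commute** -/
theorem Hs_comm {θ θ' : ℝ} (hθ : θ ∈ Set.Icc 0 Real.pi) (hθ' : θ' ∈ Set.Icc 0 Real.pi) (α : ℝ)
    (F : Pat (2 * n + 1) → ℂ) : Hs n θ α (Hs n θ' α F) = Hs n θ' α (Hs n θ α F) := by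
  have hom : om ^ 2 + om + 1 = 0 := l8_om
  have key : ∀ {θ θ' : ℝ}, θ ∈ Set.Icc 0 Real.pi → θ' ∈ Set.Icc 0 Real.pi → ∀ σ,
      ((TL (2 * n) om (cexp ((ph θ' : ℂ) * I)) (zt n α)
        * TL (2 * n) om (cexp ((ph θ : ℂ) * I)) (zt n α)).vecMul F) σ
      = (1 + cexp ((ph θ : ℂ) * I)) ^ (2 * n + 1) * (1 + cexp ((ph θ' : ℂ) * I)) ^ (2 * n + 1)
        * Hs n θ α (Hs n θ' α F) σ := by
    intro θ θ' hθ hθ' σ
    rw [← Matrix.vecMul_vecMul]
    have e : (TL (2 * n) om (cexp ((ph θ' : ℂ) * I)) (zt n α)).vecMul F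
        = fun σ => (1 + cexp ((ph θ' : ℂ) * I)) ^ (2 * n + 1) * Hs n θ' α F σ :=
      funext fun σ => TL_Hs hθ' α F σ
    rw [e, TL_Hs hθ, Hs_smul]
    ring
  funext σ
  have h1 := key hθ hθ' σ
  have h2 := key hθ' hθ σ
  rw [TL_comm n om _ _ hom, h2] at h1
  have n1 := pow_ne_zero (2 * n + 1) (one_add_ne hθ)
  have n2 := pow_ne_zero (2 * n + 1) (one_add_ne hθ')
  have h3 : (1 + cexp ((ph θ : ℂ) * I)) ^ (2 * n + 1) * (1 + cexp ((ph θ' : ℂ) * I)) ^ (2 * n + 1)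
      * Hs n θ' α (Hs n θ α F) σ = (1 + cexp ((ph θ : ℂ) * I)) ^ (2 * n + 1)
        * (1 + cexp ((ph θ' : ℂ) * I)) ^ (2 * n + 1) * Hs n θ α (Hs n θ' α F) σ := by
    rw [← h1]; ring
  exact (mul_left_cancel₀ (mul_ne_zero n1 n2) h3).symm

theorem Hm_Hs {θ : ℝ} (hθ : θ ∈ Set.Icc 0 Real.pi) (m : ℕ) (α : ℝ) (F : Pat (2 * n + 1) → ℂ) :
    Hm n m α (Hs n θ α F) = Hs n θ α (Hm n m α F) := by
  rw [Hm_iter, Hm_iter]
  induction m generalizing F with
  | zero => rfl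
  | succ m ih =>
    rw [Function.iterate_succ_apply, Hs_comm half_mem hθ, ih, Function.iterate_succ_apply]

theorem Bk_congr {ϑ ϑ' : ℕ → ℝ} (M : ℕ) (h : ∀ s, s < M → ϑ s = ϑ' s) (α : ℝ)
    (F : Pat (2 * n + 1) → ℂ) : Bk n ϑ M α F = Bk n ϑ' M α F := by
  induction M generalizing F with
  | zero => rw [Bk_zero, Bk_zero]
  | succ M ih =>
    rw [Bk_succ, Bk_succ, h M (by omega), ih fun s hs => h s (by omega)]

open Classical in
/-- the number of homogeneous rows -/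
noncomputable def hc (ϑ : ℕ → ℝ) (M : ℕ) : ℕ := ((Finset.range M).filter fun s => ϑ s = Real.pi / 2).card

/-- **rearrangement of the rows** -/
theorem rearr {ϑ : ℕ → ℝ} (hϑ : ∀ t, ϑ t ∈ Set.Icc 0 Real.pi) (M : ℕ) :
    ∃ (ϑ' : ℕ → ℝ) (M' : ℕ), (∀ t, ϑ' t ∈ Set.Icc 0 Real.pi) ∧
      (∀ (α : ℝ) (F : Pat (2 * n + 1) → ℂ), Bk n ϑ M α F = Bk n ϑ' M' α (Hm n (hc ϑ M) α F)) ∧
      ∀ g : ℝ → ℂ, ∏ s ∈ Finset.range M, g (ϑ s)
        = (∏ s ∈ Finset.range M', g (ϑ' s)) * g (Real.pi / 2) ^ hc ϑ M := by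
  classical
  induction M with
  | zero =>
    refine ⟨ϑ, 0, hϑ, fun α F => ?_, fun g => ?_⟩
    · unfold hc
      rw [Finset.range_zero, Finset.filter_empty, Finset.card_empty, Bk_zero, Bk_zero, Hm_iter]
      rfl
    · unfold hc
      simp
  | succ M ih =>
    obtain ⟨ϑ', M', h1, h2, h3⟩ := ih
    by_cases hM : ϑ M = Real.pi / 2
    · have hcs : hc ϑ (M + 1) = hc ϑ M + 1 := by
        unfold hc
        rw [Finset.range_add_one, Finset.filter_insert, if_pos hM, Finset.card_insert_of_notMem]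
        simp
      refine ⟨ϑ', M', h1, fun α F => ?_, fun g => ?_⟩
      · rw [Bk_succ, h2, hM, hcs, Hm_iter, Hm_iter, Function.iterate_succ_apply]
      · rw [Finset.prod_range_succ, h3, hM, hcs, pow_succ]
        ring
    · have hcs : hc ϑ (M + 1) = hc ϑ M := by
        unfold hc
        rw [Finset.range_add_one, Finset.filter_insert, if_neg hM]
      refine ⟨fun s => if s = M' then ϑ M else ϑ' s, M' + 1, fun t => ?_, fun α F => ?_, fun g => ?_⟩
      · beta_reduce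
        split_ifs
        · exact hϑ M
        · exact h1 t
      · rw [Bk_succ, h2, Hm_Hs (hϑ M), Bk_succ, hcs]
        beta_reduce
        rw [if_pos rfl]
        refine Bk_congr M' (fun s hs => ?_) α _
        rw [if_neg (by omega)]
      · rw [Finset.prod_range_succ, Finset.prod_range_succ, h3, hcs]
        beta_reduce
        rw [if_pos rfl]
        have : ∏ s ∈ Finset.range M', g (if s = M' then ϑ M else ϑ' s)
            = ∏ s ∈ Finset.range M', g (ϑ' s) := by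
          refine Finset.prod_congr rfl fun s hs => ?_
          have := Finset.mem_range.1 hs
          rw [if_neg (by omega)]
        rw [this]
        ring

end H729I
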