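import Pool.Agent.Run7.h729.Iso.Fy2

/-!
# The characteristic function at a fixed twist, with additional rows
-/

set_option autoImplicit false

namespace H729I
open H906K Pool.Agent.H974R3 Polynomial Complex Filter Topology

variable {n : ℕ} {t : (PowerSeries ℂ)[X]} {w : Pat (2 * n + 1) → PowerSeries ℂ}
  {μ : Pat (2 * n + 1) → ℝ}

theorem fixe_j : ∃ C0 : ℝ, 200 ≤ C0 ∧ ∀ n : ℕ, 1 ≤ n → ∀ (t : (PowerSeries ℂ)[X])
    (w : Pat (2 * n + 1) → PowerSeries ℂ) (μ : Pat (2 * n + 1) → ℝ) (g : ℕ → ℝ)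
    (h : Eg n t w μ), Lb n t g → ∀ (α : ℝ) (j : ℕ), 1 ≤ j →
    C0 * (|α| * j) + 4 * dl n (j * (2 * n + 1)) ≤ 1 / 200 →
    ev α (dt h : PowerSeries ℂ) ≠ 0 →
    ∃ A : ℂ, ‖A - 1‖ ≤ 64 * (C0 * (|α| * j) + 4 * dl n (j * (2 * n + 1))) ∧
      ∀ ϑ : ℕ → ℝ, (∀ t, ϑ t ∈ Set.Icc 0 Real.pi) → ∀ M' k r : ℕ,
        ‖Bk n ϑ M' α (Hm n (k * (j * (2 * n + 1)) + r) α (fun _ => 1)) (start n)
        - (∏ s ∈ Finset.range M', lm t n α (ϑ s))
          * (lm t n α (Real.pi / 2) ^ (k * (j * (2 * n + 1)) + r) * A)‖ ≤ 11 * (1 / 2) ^ k := by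
  obtain ⟨C0, hC0, hk⟩ := kp_exists
  refine ⟨C0 + 200, by linarith, ?_⟩
  intro n hn t w μ g h hb α j hj hκ hne
  have hjr : (1 : ℝ) ≤ j := by exact_mod_cast hj
  have h0 : 0 ≤ |α| * j := by positivity
  have hd0 := dl_nonneg n (j * (2 * n + 1))
  have h1 : 200 * (|α| * j) ≤ 1 / 200 := by nlinarith [mul_nonneg hC0.le h0]
  have h2 : |α| ≤ |α| * j := le_mul_of_one_le_right (abs_nonneg _) hjr
  have hKp := (hk n hn t w μ h α j hj).mono
    (show C0 * (|α| * j) + 4 * dl n (j * (2 * n + 1))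
      ≤ (C0 + 200) * (|α| * j) + 4 * dl n (j * (2 * n + 1)) by linarith)
  have h3 := lm_pow h hb hn hj (α := α) (by linarith) (by linarith)
  have h4 : ‖lm t n α (Real.pi / 2) ^ (j * (2 * n + 1)) - 1‖
      ≤ (C0 + 200) * (|α| * j) + 4 * dl n (j * (2 * n + 1)) := by
    refine h3.trans ?_
    have := mul_nonneg hC0.le h0
    linarith
  exact gap_env h (by linarith) hKp hκ h4 hne

theorem fixe_good : ∃ ρ C δ : ℝ, 0 < ρ ∧ ρ < 1 / 10000 ∧ 0 < C ∧ 0 < δ ∧ ∀ n : ℕ, 1 ≤ n →
    ∀ (t : (PowerSeries ℂ)[X]) (w : Pat (2 * n + 1) → PowerSeries ℂ) (μ : Pat (2 * n + 1) → ℝ)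
    (g : ℕ → ℝ) (h : Eg n t w μ), Lb n t g → ∀ α : ℝ, |α| ≤ ρ →
    ev α (dt h : PowerSeries ℂ) ≠ 0 → ∃ A : ℂ, ‖A - 1‖ ≤ C * √|α| ∧
      ∀ ϑ : ℕ → ℝ, (∀ t, ϑ t ∈ Set.Icc 0 Real.pi) → ∀ M' M : ℕ,
        ‖Bk n ϑ M' α (Hm n M α (fun _ => 1)) (start n)
          - (∏ s ∈ Finset.range M', lm t n α (ϑ s)) * (lm t n α (Real.pi / 2) ^ M * A)‖
        ≤ C * Real.exp (-δ * (M / (2 * n + 1))) := by
  obtain ⟨C0, hC0, hfix⟩ := fixe_j
  obtain ⟨q, hq0, hq1, hdl⟩ := dl_le
  have hq' : 0 < 1 - q := by linarith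
  obtain ⟨i0, hi0⟩ := exists_pow_lt_of_lt_one (show (0 : ℝ) < 1 / 1600 by norm_num) hq1
  set j0 := i0 + 1 with hj0
  have hj01 : 1 ≤ j0 := by omega
  have hj0r : (1 : ℝ) ≤ j0 := by exact_mod_cast hj01
  have hqj : q ^ j0 ≤ 1 / 1600 := by
    have : q ^ j0 ≤ q ^ i0 := pow_le_pow_of_le_one hq0 hq1.le (by omega)
    linarith
  set C1 : ℝ := 2 * C0 + 4 / (1 - q) with hC1
  have hC1p : 0 < C1 := by positivity
  have hl2 : 0 < Real.log 2 := Real.log_pos (by norm_num)
  set ρ : ℝ := 1 / (400 * C0 * j0) with hρ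
  have hρ0 : 0 < ρ := by positivity
  have hρ1 : C0 * (ρ * j0) = 1 / 400 := by rw [hρ]; field_simp
  have hρ2 : ρ < 1 / 10000 := by
    rw [hρ]
    apply one_div_lt_one_div_of_lt (by norm_num)
    nlinarith
  refine ⟨ρ, 64 * (C1 + j0) + 22, Real.log 2 / j0, hρ0, hρ2, by positivity, by positivity, ?_⟩
  intro n hn t w μ g h hb α hα hne
  have hN0 : (0 : ℝ) < 2 * n + 1 := by positivity
  set m0 := j0 * (2 * n + 1) with hm0
  have hdl0 : dl n m0 ≤ 1 / 1600 := (hdl n m0 j0 hn le_rfl).trans hqj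
  have hκ0 : C0 * (|α| * j0) + 4 * dl n m0 ≤ 1 / 200 := by
    have h1 : C0 * (|α| * j0) ≤ C0 * (ρ * j0) := by gcongr
    linarith
  obtain ⟨A, hA1, hA2e⟩ := hfix n hn t w μ g h hb α j0 hj01 hκ0 hne
  have hA2 : ∀ k r : ℕ, ‖Hm n (k * (j0 * (2 * n + 1)) + r) α (fun _ => 1) (start n)
      - lm t n α (Real.pi / 2) ^ (k * (j0 * (2 * n + 1)) + r) * A‖ ≤ 11 * (1 / 2) ^ k := by
    intro k r
    have := hA2e (fun _ => Real.pi / 2) (fun _ => half_mem) 0 k r
    rwa [Bk_zero, Finset.prod_range_zero, one_mul] at this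
  have hA3 : ∀ M : ℕ, ‖Hm n M α (fun _ => 1) (start n) - lm t n α (Real.pi / 2) ^ M * A‖
      ≤ 11 * (1 / 2) ^ (M / m0) := by
    intro M
    have := hA2 (M / m0) (M % m0)
    rwa [Nat.div_add_mod' M m0] at this
  refine ⟨A, ?_, fun ϑ hϑ M' M => ?_⟩
  · rcases eq_or_ne α 0 with ha | ha
    · -- the trivial case
      have h1 : ∀ M : ℕ, Hm n M α (fun _ => 1) (start n) = 1 := by
        intro M
        rw [ha, Hm0_eq, EE_const]
      have h2 : lm t n α (Real.pi / 2) = 1 := by
        unfold lm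
        rw [ha, Complex.ofReal_zero, ev_at_zero, tz_c0 h.hT half_mem]
      have h3 : ∀ k : ℕ, ‖(1 : ℂ) - A‖ ≤ 11 * (1 / 2) ^ k := by
        intro k
        have := hA2 k 0
        rw [h1, h2, one_pow, one_mul] at this
        exact this
      have h4 : ‖(1 : ℂ) - A‖ ≤ 0 := by
        have ht : Tendsto (fun k : ℕ => 11 * (1 / 2 : ℝ) ^ k) atTop (𝓝 (11 * 0)) :=
          (tendsto_pow_atTop_nhds_zero_of_lt_one (by norm_num) (by norm_num)).const_mul 11
        rw [mul_zero] at ht
        exact ge_of_tendsto ht (Eventually.of_forall h3)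
      rw [norm_sub_rev] at h4
      refine h4.trans ?_
      positivity
    · have hap : 0 < |α| := abs_pos.2 ha
      set s := √|α| with hs
      have hsp : 0 < s := Real.sqrt_pos.2 hap
      have hss : s * s = |α| := Real.mul_self_sqrt hap.le
      rcases lt_or_ge (1 / 200) ((C1 + j0) * s) with hbig | hsmall
      · refine hA1.trans ?_
        have : 0 ≤ 22 * s := by positivity
        linarith
      · set j : ℕ := ⌈1 / s⌉₊ with hj
        have hj1 : 1 / s ≤ j := Nat.le_ceil _
        have hj2 : (j : ℝ) < 1 / s + 1 := Nat.ceil_lt_add_one (by positivity)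
        have hs1 : s ≤ 1 := by nlinarith
        have hjj : (j0 : ℝ) ≤ j := by
          refine le_trans ?_ hj1
          rw [le_div_iff₀ hsp]
          have : 0 ≤ C1 * s := by positivity
          nlinarith
        have hjn : j0 ≤ j := by exact_mod_cast hjj
        have hj1' : 1 ≤ j := hj01.trans hjn
        have hjp : (0 : ℝ) < j := by linarith
        have hαj : |α| * j ≤ 2 * s := by
          calc |α| * j ≤ |α| * (1 / s + 1) := mul_le_mul_of_nonneg_left hj2.le hap.le
            _ = s + s * s := by rw [← hss]; field_simp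
            _ ≤ s + s * 1 := by nlinarith
            _ = 2 * s := by ring
        have hdlj : dl n (j * (2 * n + 1)) ≤ s / (1 - q) := by
          refine (hdl n _ j hn le_rfl).trans ?_
          have h1 := pow_decay hq0 hq1.le j
          have h2 : 0 ≤ q ^ j := pow_nonneg hq0 j
          have h3 : q ^ j ≤ 1 / (j * (1 - q)) := by
            rw [le_div_iff₀ (by positivity)]
            linarith
          refine h3.trans ?_
          rw [div_le_div_iff₀ (by positivity) hq']
          have h4 : 1 ≤ s * j := by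
            rw [div_le_iff₀ hsp] at hj1
            linarith
          nlinarith
        have hκ : C0 * (|α| * j) + 4 * dl n (j * (2 * n + 1)) ≤ C1 * s := by
          have h1 : C0 * (|α| * j) ≤ C0 * (2 * s) := by gcongr
          have h2 : C1 * s = C0 * (2 * s) + 4 * (s / (1 - q)) := by rw [hC1]; ring
          linarith
        have hC1s : C1 * s ≤ 1 / 200 := by
          have : 0 ≤ (j0 : ℝ) * s := by positivity
          linarith
        obtain ⟨A', hA1', hA2e'⟩ := hfix n hn t w μ g h hb α j hj1' (hκ.trans hC1s) hne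
        have hA2' : ∀ k r : ℕ, ‖Hm n (k * (j * (2 * n + 1)) + r) α (fun _ => 1) (start n)
            - lm t n α (Real.pi / 2) ^ (k * (j * (2 * n + 1)) + r) * A'‖ ≤ 11 * (1 / 2) ^ k := by
          intro k r
          have := hA2e' (fun _ => Real.pi / 2) (fun _ => half_mem) 0 k r
          rwa [Bk_zero, Finset.prod_range_zero, one_mul] at this
        -- the two values agree
        have hlj : 3 / 4 ≤ ‖lm t n α (Real.pi / 2) ^ (j * (2 * n + 1))‖ := by
          have h0 : 0 ≤ |α| * j := by positivity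
          have hd0 := dl_nonneg n (j * (2 * n + 1))
          have h1 : 200 * (|α| * j) ≤ 1 / 200 := by
            have : 200 * (|α| * j) ≤ C0 * (|α| * j) := mul_le_mul_of_nonneg_right hC0 h0
            linarith
          have h2 : |α| ≤ |α| * j := le_mul_of_one_le_right (abs_nonneg _) (by exact_mod_cast hj1')
          have h3 := lm_pow h hb hn hj1' (α := α) (by linarith) (by linarith)
          have h4 := norm_sub_norm_le (1 : ℂ) (1 - lm t n α (Real.pi / 2) ^ (j * (2 * n + 1)))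
          rw [sub_sub_cancel, norm_one, norm_sub_rev] at h4
          linarith
        have hdiff : ∀ k : ℕ, ‖A' - A‖ ≤ 22 * (2 / 3) ^ k := by
          intro k
          set M := k * (j * (2 * n + 1)) with hM
          have h1 := hA2' k 0
          rw [add_zero, ← hM] at h1
          have h2 := hA3 M
          have h3 : k ≤ M / m0 := by
            rw [Nat.le_div_iff_mul_le (by rw [hm0]; positivity), hm0, hM]
            exact Nat.mul_le_mul_left k (Nat.mul_le_mul_right _ hjn)
          have h4 : (1 / 2 : ℝ) ^ (M / m0) ≤ (1 / 2) ^ k :=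
            pow_le_pow_of_le_one (by norm_num) (by norm_num) h3
          set L := lm t n α (Real.pi / 2) with hL
          have h5 : L ^ M * (A' - A) = (Hm n M α (fun _ => 1) (start n) - L ^ M * A)
              - (Hm n M α (fun _ => 1) (start n) - L ^ M * A') := by ring
          have h6 : ‖L ^ M‖ * ‖A' - A‖ ≤ 22 * (1 / 2) ^ k := by
            rw [← norm_mul, h5]
            refine (norm_sub_le _ _).trans ?_
            linarith
          have h7 : (3 / 4 : ℝ) ^ k ≤ ‖L ^ M‖ := by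
            have e : L ^ M = (L ^ (j * (2 * n + 1))) ^ k := by
              rw [← pow_mul, hM]; congr 1; ring
            rw [e, norm_pow (L ^ (j * (2 * n + 1))) k]
            exact pow_le_pow_left₀ (by norm_num) hlj k
          have h8 : (3 / 4 : ℝ) ^ k * ‖A' - A‖ ≤ 22 * (1 / 2) ^ k :=
            (mul_le_mul_of_nonneg_right h7 (norm_nonneg _)).trans h6
          have h9 : (3 / 4 : ℝ) ^ k * (2 / 3) ^ k = (1 / 2) ^ k := by
            rw [← mul_pow]; norm_num
          rw [← h9] at h8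
          have h10 : (0 : ℝ) < (3 / 4) ^ k := by positivity
          have h11 : (3 / 4 : ℝ) ^ k * ‖A' - A‖ ≤ (3 / 4) ^ k * (22 * (2 / 3) ^ k) := by linarith
          exact le_of_mul_le_mul_left h11 h10
        have hAA : A' = A := by
          have ht : Tendsto (fun k : ℕ => 22 * (2 / 3 : ℝ) ^ k) atTop (𝓝 (22 * 0)) :=
            (tendsto_pow_atTop_nhds_zero_of_lt_one (by norm_num) (by norm_num)).const_mul 22
          rw [mul_zero] at ht
          have h1 := ge_of_tendsto ht (Eventually.of_forall hdiff)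
          exact sub_eq_zero.1 (norm_le_zero_iff.1 h1)
        rw [← hAA]
        refine hA1'.trans ?_
        have h1 : 0 ≤ (j0 : ℝ) * s := by positivity
        have h2 : 0 ≤ 22 * s := by positivity
        linarith
  · have h0 : ‖Bk n ϑ M' α (Hm n M α (fun _ => 1)) (start n)
          - (∏ s ∈ Finset.range M', lm t n α (ϑ s)) * (lm t n α (Real.pi / 2) ^ M * A)‖
        ≤ 11 * (1 / 2) ^ (M / m0) := by
      have := hA2e ϑ hϑ M' (M / m0) (M % m0)
      rwa [Nat.div_add_mod' M m0] at this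
    refine h0.trans ?_
    have h1 := half_pow hj01 n M
    have h2 : 0 ≤ 64 * (C1 + j0) * Real.exp (-(Real.log 2 / j0) * (M / (2 * n + 1))) := by positivity
    linarith

end H729I
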