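import Pool.Agent.Run7.h729.Iso.Fz1
import Pool.Agent.Run7.h729.Iso.Dil11

/-!
# The logarithm of the eigenvalue at all physical angles
-/

set_option autoImplicit false

namespace H729I
open H906K Pool.Agent.H974R3 Polynomial Complex Filter Topology

/-- the higher coefficients at all angles -/
theorem lc_all : ∃ r K : ℝ, 0 < r ∧ r ≤ 1 / 10000 ∧ 0 < K ∧ ∀ n : ℕ, 1 ≤ n →
    ∀ (t : (PowerSeries ℂ)[X]) (w : Pat (2 * n + 1) → PowerSeries ℂ) (μ : Pat (2 * n + 1) → ℝ),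
      Eg n t w μ → ∃ e : ℕ → ℝ, (∀ k, 0 ≤ e k) ∧ (∀ L, ps e L ≤ K / (2 * n + 1) ^ 2) ∧
        ∀ k : ℕ, 3 ≤ k → ∀ θ ∈ Set.Icc 0 Real.pi, ‖lc n t θ k‖ * r ^ k ≤ Real.sin θ * e k := by
  obtain ⟨r, K, hr, hr', hK, h1⟩ := lc_small
  have hpi := Real.pi_pos
  refine ⟨r, K + 1, hr, hr', by positivity, fun n hn t w μ h => ?_⟩
  obtain ⟨e, e0, es, he⟩ := h1 n hn t w μ h
  obtain ⟨Q, s1, s2, V1, V2, d⟩ := dat_exists h.hT
  obtain ⟨g, g0, gs, gb⟩ := coef_bounds d
  obtain ⟨m, rfl⟩ : ∃ m, n = m + 1 := ⟨n - 1, by omega⟩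
  have hcl : closure (Set.Ioo 0 Real.pi) = Set.Icc 0 Real.pi := closure_Ioo hpi.ne
  have hm : (0 : ℝ) ≤ m := Nat.cast_nonneg m
  set N : ℝ := 2 * ((m + 1 : ℕ) : ℝ) + 1 with hN
  have hNm : N = 2 * m + 3 := by rw [hN]; push_cast; ring
  have hN0 : 0 < N := by rw [hNm]; positivity
  have hG : ∀ k, ∀ u : ℝ, ‖PowerSeries.coeff k (lgs (tz (m + 1) t (u + Real.pi / 3 * I)))
        + PowerSeries.coeff k (lgs (tz (m + 1) t (u - Real.pi / 3 * I)))‖
        ≤ g k / (1 / 10000) ^ k * |ta u| ^ (2 * m + 3) := by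
    intro k u
    have h1 := gb k u
    have e : g k / (1 / 10000) ^ k * |ta u| ^ (2 * m + 3)
        = (g k * |ta u| ^ (2 * m + 3)) / (1 / 10000) ^ k := by ring
    rw [e, le_div_iff₀ (by positivity)]
    exact h1
  refine ⟨fun k => e k + 2 / N ^ 2 * g k, fun k => add_nonneg (e0 k) (mul_nonneg (by positivity) (g0 k)),
    fun L => ?_, fun k hk θ hθ => ?_⟩
  · rw [ps_add, ps_mul]
    have h2 := es L
    have h3 : 2 / N ^ 2 * ps g L ≤ 2 / N ^ 2 * (1 / 2000) :=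
      mul_le_mul_of_nonneg_left (gs L) (by positivity)
    have h4 : 2 / N ^ 2 * (1 / 2000) ≤ 1 / N ^ 2 := by
      rw [div_mul_eq_mul_div]
      apply div_le_div_of_nonneg_right _ (by positivity)
      norm_num
    rw [add_div]
    exact add_le_add h2 (h3.trans h4)
  · have hint : ∀ θ ∈ Set.Ioo 0 Real.pi, ‖lc (m + 1) t θ k‖ * r ^ k
        ≤ Real.sin θ * (e k + 2 / N ^ 2 * g k) := by
      intro θ hθ
      have h2 := phys_fine m (nic_lt d k) (a := g k / (1 / 10000) ^ k)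
        (div_nonneg (g0 k) (by positivity)) (hG k) (lt_zero h.hT h.w0 h.hL (by omega)) hθ
      have hs := Real.sin_pos_of_mem_Ioo hθ
      have h3 : PowerSeries.coeff k (lgs (tz (m + 1) t ((0 : ℝ) : ℂ))) = lc (m + 1) t (Real.pi / 2) k := by
        unfold lc
        rw [ph_half]
        simp
      rw [h3] at h2
      have h4 : ‖lc (m + 1) t θ k‖ ≤ Real.sin θ * ‖lc (m + 1) t (Real.pi / 2) k‖
          + 2 * (g k / (1 / 10000) ^ k) * Real.sin θ / ((2 * m + 1) * (2 * m + 3) * (2 * m + 5)) := by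
        have h5 := norm_add_le ((Real.sin θ : ℂ) * lc (m + 1) t (Real.pi / 2) k)
          (lc (m + 1) t θ k - (Real.sin θ : ℂ) * lc (m + 1) t (Real.pi / 2) k)
        rw [add_sub_cancel, norm_mul, Complex.norm_real, Real.norm_eq_abs, abs_of_pos hs] at h5
        have h6 : ‖lc (m + 1) t θ k - (Real.sin θ : ℂ) * lc (m + 1) t (Real.pi / 2) k‖
          ≤ 2 * (g k / (1 / 10000) ^ k) * Real.sin θ / ((2 * m + 1) * (2 * m + 3) * (2 * m + 5)) := h2
        linarith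
      have hrk : r ^ k ≤ (1 / 10000) ^ k := pow_le_pow_left₀ hr.le hr' k
      have hrk0 : 0 < r ^ k := by positivity
      have h5 : 1 / ((2 * (m : ℝ) + 1) * (2 * m + 3) * (2 * m + 5)) ≤ 1 / N ^ 2 := by
        apply one_div_le_one_div_of_le (by positivity)
        rw [hNm]
        nlinarith
      have h6 : 2 * (g k / (1 / 10000) ^ k) * Real.sin θ / ((2 * m + 1) * (2 * m + 3) * (2 * m + 5))
          * r ^ k ≤ Real.sin θ * (2 / N ^ 2 * g k) := by
        have q1 : g k / (1 / 10000) ^ k * r ^ k ≤ g k := by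
          rw [div_mul_eq_mul_div, div_le_iff₀ (by positivity)]
          exact mul_le_mul_of_nonneg_left hrk (g0 k)
        have q2 : 0 ≤ g k / (1 / 10000) ^ k * r ^ k := mul_nonneg (div_nonneg (g0 k) (by positivity)) hrk0.le
        calc _ = 2 * Real.sin θ * (g k / (1 / 10000) ^ k * r ^ k)
              * (1 / ((2 * m + 1) * (2 * m + 3) * (2 * m + 5))) := by ring
          _ ≤ 2 * Real.sin θ * g k * (1 / N ^ 2) := by
              apply mul_le_mul _ h5 (by positivity) (mul_nonneg (by positivity) (g0 k))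
              exact mul_le_mul_of_nonneg_left q1 (by positivity)
          _ = _ := by ring
      have h7 := he k hk
      calc _ ≤ (Real.sin θ * ‖lc (m + 1) t (Real.pi / 2) k‖
          + 2 * (g k / (1 / 10000) ^ k) * Real.sin θ / ((2 * m + 1) * (2 * m + 3) * (2 * m + 5))) * r ^ k :=
            mul_le_mul_of_nonneg_right h4 hrk0.le
        _ = Real.sin θ * (‖lc (m + 1) t (Real.pi / 2) k‖ * r ^ k)
          + 2 * (g k / (1 / 10000) ^ k) * Real.sin θ / ((2 * m + 1) * (2 * m + 3) * (2 * m + 5)) * r ^ k := by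
            ring
        _ ≤ Real.sin θ * e k + Real.sin θ * (2 / N ^ 2 * g k) :=
            add_le_add (mul_le_mul_of_nonneg_left h7 hs.le) h6
        _ = _ := by ring
    refine le_on_closure (s := Set.Ioo 0 Real.pi) (f := fun θ => ‖lc (m + 1) t θ k‖ * r ^ k)
      (g := fun θ => Real.sin θ * (e k + 2 / N ^ 2 * g k)) hint ?_ ?_ ?_
    · rw [hcl]
      exact ((lc_cont (nic_lt d k)).norm).mul continuousOn_const
    · exact (Continuous.continuousOn (by fun_prop))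
    · rw [hcl]; exact hθ

/-- **the logarithm of the eigenvalue at all angles** -/
theorem log_all : ∃ r K : ℝ, 0 < r ∧ r < 1 / 10000 ∧ 0 < K ∧ ∀ n : ℕ, 1 ≤ n →
    ∀ (t : (PowerSeries ℂ)[X]) (w : Pat (2 * n + 1) → PowerSeries ℂ) (μ : Pat (2 * n + 1) → ℝ)
      (g : ℕ → ℝ), Eg n t w μ → Lb n t g → ∀ α : ℝ, |α| ≤ r → ∀ θ ∈ Set.Icc 0 Real.pi,
        ‖ev α (lgs (tz n t ((ph θ : ℂ) * I))) - I * ((α * Real.cos θ / (2 * n + 1) : ℝ) : ℂ)
          + ((3 * α ^ 2 * Real.sin θ / (2 * Real.pi * (2 * n + 1)) : ℝ) : ℂ)‖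
          ≤ K * Real.sin θ * (|α| / (2 * n + 1) ^ 3 + α ^ 2 / (2 * n + 1) ^ 2) := by
  obtain ⟨r, K, hr, hr', hK, h1⟩ := lc_all
  obtain ⟨K2, hK2, h2⟩ := main_asy
  refine ⟨r / 2, K2 + K2 + (1 / r) ^ 2 * K, by positivity, by linarith, by positivity, ?_⟩
  intro n hn t w μ g h hb α hα θ hθ
  obtain ⟨e, e0, es, he⟩ := h1 n hn t w μ h
  obtain ⟨f, g', v, D, hc, -, -, hA⟩ := h2 n hn
  obtain ⟨a1, a2⟩ := hA _ hθ
  have hN0 : (0 : ℝ) < 2 * n + 1 := by positivity
  have hpi := Real.pi_pos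
  have hs0 : 0 ≤ Real.sin θ := Real.sin_nonneg_of_mem_Icc hθ
  have hs1 := Real.sin_le_one θ
  set S0 := Real.sin θ with hS0
  set C0 := Real.cos θ with hC0
  set N : ℝ := 2 * n + 1 with hN
  have hs := su_lgs hb hn hθ
  have hrr : ‖(α : ℂ)‖ = |α| := by rw [Complex.norm_real, Real.norm_eq_abs]
  have hαr : |α| ≤ r := by linarith
  have hsum : Summable (fun k => PowerSeries.coeff k (lgs (tz n t ((ph θ : ℂ) * I)))
      * (α : ℂ) ^ k) :=
    (Su.nz (Su.mono (norm_nonneg _) (by rw [hrr]; linarith) hs)).of_norm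
  obtain ⟨c1, c2⟩ := lc_vD h hc hθ
  have hle0 : ∀ k, 3 ≤ k → ‖PowerSeries.coeff k (lgs (tz n t ((ph θ : ℂ) * I)))‖ * r ^ k
      ≤ S0 * e k := fun k hk => he k hk θ hθ
  unfold lc at c1 c2
  have hsplit : ev α (lgs (tz n t ((ph θ : ℂ) * I)))
      = (I * (α * v θ / N : ℝ) - ((α ^ 2 * D θ / (2 * N ^ 2) : ℝ) : ℂ))
        + ∑' k, PowerSeries.coeff (k + 3) (lgs (tz n t ((ph θ : ℂ) * I)))
          * (α : ℂ) ^ (k + 3) := by
    unfold ev
    rw [← hsum.sum_add_tsum_nat_add 3]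
    congr 1
    rw [Finset.sum_range_succ, Finset.sum_range_succ, Finset.sum_range_one, lgs_zero, c1, c2, hN]
    push_cast
    ring
  have hes : Summable e := by
    refine summable_of_sum_range_le (c := K / (2 * n + 1) ^ 2) e0 fun L => ?_
    rcases L with _ | L
    · rw [Finset.range_zero, Finset.sum_empty]; positivity
    · exact es L
  have he3 : Summable (fun k => e (k + 3)) := (summable_nat_add_iff 3).2 hes
  have he1 : ∑' k, e (k + 3) ≤ K / N ^ 2 := by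
    refine he3.tsum_le_of_sum_range_le fun L => ?_
    have h1 : ∑ i ∈ Finset.range L, e (i + 3) ≤ ps e (L + 2) := by
      unfold ps
      rw [show L + 2 + 1 = L + 1 + 1 + 1 from rfl, Finset.sum_range_succ', Finset.sum_range_succ',
        Finset.sum_range_succ']
      have a0 := e0 0
      have a1 := e0 (0 + 1)
      have a2 := e0 (0 + 1 + 1)
      have e : ∀ i, e (i + 1 + 1 + 1) = e (i + 3) := fun i => rfl
      simp only [e]
      linarith
    exact h1.trans (es _)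
  set x := |α| / r with hx
  have hx0 : 0 ≤ x := by positivity
  have hx1 : x ≤ 1 := by rw [hx, div_le_one hr]; exact hαr
  have hle : ∀ k, ‖PowerSeries.coeff (k + 3) (lgs (tz n t ((ph θ : ℂ) * I)))
      * (α : ℂ) ^ (k + 3)‖ ≤ x ^ 2 * S0 * e (k + 3) := by
    intro k
    rw [norm_mul, norm_pow, hrr]
    have h3 : |α| ^ (k + 3) = x ^ (k + 3) * r ^ (k + 3) := by
      rw [hx, ← mul_pow]
      congr 1
      field_simp
    have h4 : x ^ (k + 3) ≤ x ^ 2 := pow_le_pow_of_le_one hx0 hx1 (by omega)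
    rw [h3]
    calc _ = x ^ (k + 3) * (‖PowerSeries.coeff (k + 3) (lgs (tz n t ((ph θ : ℂ) * I)))‖
          * r ^ (k + 3)) := by ring
      _ ≤ x ^ 2 * (S0 * e (k + 3)) := mul_le_mul h4 (hle0 (k + 3) (by omega)) (by positivity) (by positivity)
      _ = _ := by ring
  have htail : ‖∑' k, PowerSeries.coeff (k + 3) (lgs (tz n t ((ph θ : ℂ) * I)))
      * (α : ℂ) ^ (k + 3)‖ ≤ (1 / r) ^ 2 * K * (S0 * (α ^ 2 / N ^ 2)) := by
    refine (tsum_of_norm_bounded (he3.mul_left _).hasSum hle).trans ?_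
    rw [tsum_mul_left]
    calc x ^ 2 * S0 * ∑' k, e (k + 3) ≤ x ^ 2 * S0 * (K / N ^ 2) :=
          mul_le_mul_of_nonneg_left he1 (by positivity)
      _ = _ := by
        rw [hx, div_pow, sq_abs]
        ring
  rw [hsplit]
  set S := ∑' k, PowerSeries.coeff (k + 3) (lgs (tz n t ((ph θ : ℂ) * I)))
      * (α : ℂ) ^ (k + 3) with hS
  have e1 : (I * (α * v θ / N : ℝ) - ((α ^ 2 * D θ / (2 * N ^ 2) : ℝ) : ℂ))
      + S - I * ((α * C0 / N : ℝ) : ℂ) + ((3 * α ^ 2 * S0 / (2 * Real.pi * N) : ℝ) : ℂ)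
      = I * ((α * (v θ - C0) / N : ℝ) : ℂ)
        - ((α ^ 2 / (4 * Real.pi * N) * (2 * Real.pi * D θ / N - 6 * S0) : ℝ) : ℂ) + S := by
    have e2 : α ^ 2 / (4 * Real.pi * N) * (2 * Real.pi * D θ / N - 6 * S0)
        = α ^ 2 * D θ / (2 * N ^ 2) - 3 * α ^ 2 * S0 / (2 * Real.pi * N) := by
      field_simp
      ring
    rw [e2]
    push_cast
    ring
  rw [e1]
  have n1 : ‖I * ((α * (v θ - C0) / N : ℝ) : ℂ)‖ ≤ K2 * (S0 * (|α| / N ^ 3)) := by
    rw [norm_mul, Complex.norm_I, one_mul, Complex.norm_real, Real.norm_eq_abs, abs_div, abs_mul,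
      abs_of_pos hN0]
    have q1 : |v θ - C0| ≤ K2 * S0 / N ^ 2 := by
      refine a1.trans ?_
      apply div_le_div_of_nonneg_right _ (by positivity)
      have : S0 ^ 2 ≤ S0 := by nlinarith
      exact mul_le_mul_of_nonneg_left this hK2.le
    calc |α| * |v θ - C0| / N ≤ |α| * (K2 * S0 / N ^ 2) / N := by gcongr
      _ = _ := by field_simp
  have n2 : ‖((α ^ 2 / (4 * Real.pi * N) * (2 * Real.pi * D θ / N - 6 * S0) : ℝ) : ℂ)‖
      ≤ K2 * (S0 * (α ^ 2 / N ^ 2)) := by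
    rw [Complex.norm_real, Real.norm_eq_abs, abs_mul, abs_of_nonneg (by positivity)]
    have h5 : α ^ 2 / (4 * Real.pi * N) ≤ α ^ 2 / N := by
      apply div_le_div_of_nonneg_left (by positivity) hN0
      nlinarith [Real.pi_gt_three]
    calc _ ≤ α ^ 2 / N * (K2 * S0 / N) := mul_le_mul h5 a2 (abs_nonneg _) (by positivity)
      _ = _ := by ring
  have h6 := norm_add_le (I * ((α * (v θ - C0) / N : ℝ) : ℂ)
        - ((α ^ 2 / (4 * Real.pi * N) * (2 * Real.pi * D θ / N - 6 * S0) : ℝ) : ℂ)) S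
  have h7 := norm_sub_le (I * ((α * (v θ - C0) / N : ℝ) : ℂ))
    ((α ^ 2 / (4 * Real.pi * N) * (2 * Real.pi * D θ / N - 6 * S0) : ℝ) : ℂ)
  have p1 : 0 ≤ S0 * (|α| / N ^ 3) := by positivity
  have p2 : 0 ≤ S0 * (α ^ 2 / N ^ 2) := by positivity
  have p3 : 0 ≤ (1 / r) ^ 2 * K := by positivity
  nlinarith [mul_nonneg hK2.le p1, mul_nonneg hK2.le p2, mul_nonneg p3 p1]

end H729I
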