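import Pool.Agent.Run7.h729.Iso.Fy3
import Pool.Agent.Run7.h729.Iso.Fz2

/-!
# The winding exponents in layered isoradial environments
-/

set_option autoImplicit false

namespace H729I
open H906K Pool.Agent.H974R3 Polynomial Complex Filter Topology

variable {n : ℕ} {t : (PowerSeries ℂ)[X]} {w : Pat (2 * n + 1) → PowerSeries ℂ}
  {μ : Pat (2 * n + 1) → ℝ}

theorem Bk_cont (ϑ : ℕ → ℝ) (M : ℕ) {F : ℝ → Pat (2 * n + 1) → ℂ}
    (hF : ∀ σ, Continuous fun β => F β σ) (σ : Pat (2 * n + 1)) :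
    Continuous (fun β : ℝ => Bk n ϑ M β (F β) σ) := by
  unfold Bk EE
  refine continuous_finsetSum _ fun c _ => ?_
  exact ((phs_cont _).mul (hF _)).const_smul _

theorem fixe_all : ∃ ρ C δ : ℝ, 0 < ρ ∧ ρ < 1 / 10000 ∧ 0 < C ∧ 0 < δ ∧ ∀ n : ℕ, 1 ≤ n →
    ∀ (t : (PowerSeries ℂ)[X]) (w : Pat (2 * n + 1) → PowerSeries ℂ) (μ : Pat (2 * n + 1) → ℝ)
    (g : ℕ → ℝ), Eg n t w μ → Lb n t g → ∀ α : ℝ, |α| ≤ ρ → ∃ A : ℂ, ‖A - 1‖ ≤ C * √|α| ∧
      ∀ ϑ : ℕ → ℝ, (∀ t, ϑ t ∈ Set.Icc 0 Real.pi) → ∀ M' M : ℕ,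
        ‖Bk n ϑ M' α (Hm n M α (fun _ => 1)) (start n)
          - (∏ s ∈ Finset.range M', lm t n α (ϑ s)) * (lm t n α (Real.pi / 2) ^ M * A)‖
        ≤ C * Real.exp (-δ * (M / (2 * n + 1))) := by
  obtain ⟨ρ, C, δ, hρ, hρ', hC, hδ, hgood⟩ := fixe_good
  refine ⟨ρ / 2, C, δ, by positivity, by linarith, hC, hδ, ?_⟩
  intro n hn t w μ g h hb α hα
  have hα' : |α| < 1 / 10000 := by linarith
  have hex : ∀ β : ℝ, ∃ A : ℂ, |β| ≤ ρ → ev β (dt h : PowerSeries ℂ) ≠ 0 →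
      ‖A - 1‖ ≤ C * √|β| ∧ ∀ ϑ : ℕ → ℝ, (∀ t, ϑ t ∈ Set.Icc 0 Real.pi) → ∀ M' M : ℕ,
        ‖Bk n ϑ M' β (Hm n M β (fun _ => 1)) (start n)
          - (∏ s ∈ Finset.range M', lm t n β (ϑ s)) * (lm t n β (Real.pi / 2) ^ M * A)‖
        ≤ C * Real.exp (-δ * (M / (2 * n + 1))) := by
    intro β
    by_cases h1 : |β| ≤ ρ ∧ ev β (dt h : PowerSeries ℂ) ≠ 0
    · obtain ⟨A, hA⟩ := hgood n hn t w μ g h hb β h1.1 h1.2
      exact ⟨A, fun _ _ => hA⟩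
    · exact ⟨0, fun h2 h3 => absurd ⟨h2, h3⟩ h1⟩
  choose Af hAf using hex
  set U : Ultrafilter ℝ := Ultrafilter.of (𝓝[≠] α) with hU
  have hUle : (U : Filter ℝ) ≤ 𝓝[≠] α := Ultrafilter.of_le _
  have hUn : (U : Filter ℝ) ≤ 𝓝 α := hUle.trans nhdsWithin_le_nhds
  have hev : ∀ᶠ β in (U : Filter ℝ), |β| ≤ ρ ∧ ev (β : ℂ) (dt h : PowerSeries ℂ) ≠ 0 := by
    have h1 : ∀ᶠ β : ℝ in 𝓝 α, |β| < ρ :=
      continuous_abs.continuousAt.eventually (gt_mem_nhds (by linarith))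
    filter_upwards [hUle (dt_iso h hα'), hUn h1] with β h2 h3
    exact ⟨le_of_lt h3, h2⟩
  have hmem : ∀ᶠ β in (U : Filter ℝ), Af β ∈ Metric.closedBall (1 : ℂ) (C * √ρ) := by
    filter_upwards [hev] with β hβ
    rw [mem_closedBall_iff_norm]
    refine (hAf β hβ.1 hβ.2).1.trans ?_
    exact mul_le_mul_of_nonneg_left (Real.sqrt_le_sqrt hβ.1) hC.le
  obtain ⟨A, -, hA⟩ := (isCompact_closedBall (1 : ℂ) (C * √ρ)).ultrafilter_le_nhds (U.map Af)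
    (by rw [le_principal_iff]; exact hmem)
  have hAt : Tendsto Af (U : Filter ℝ) (𝓝 A) := hA
  refine ⟨A, ?_, fun ϑ hϑ M' M => ?_⟩
  · have h1 : Tendsto (fun β => ‖Af β - 1‖) (U : Filter ℝ) (𝓝 ‖A - 1‖) := (hAt.sub_const 1).norm
    have h2 : Tendsto (fun β : ℝ => C * √|β|) (U : Filter ℝ) (𝓝 (C * √|α|)) := by
      have : Continuous (fun β : ℝ => C * √|β|) := by fun_prop
      exact (this.tendsto α).mono_left hUn
    refine le_of_tendsto_of_tendsto h1 h2 ?_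
    filter_upwards [hev] with β hβ
    exact (hAf β hβ.1 hβ.2).1
  · have hcont : Continuous (fun β : ℝ => Bk n ϑ M' β (Hm n M β (fun _ => 1)) (start n)) :=
      Bk_cont ϑ M' (fun σ => Bk_cont (fun _ => Real.pi / 2) M (fun _ => continuous_const) σ) _
    have h1 : Tendsto (fun β : ℝ => Bk n ϑ M' β (Hm n M β (fun _ => 1)) (start n)) (U : Filter ℝ)
        (𝓝 (Bk n ϑ M' α (Hm n M α (fun _ => 1)) (start n))) := (hcont.tendsto α).mono_left hUn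
    have hlm : ∀ θ ∈ Set.Icc 0 Real.pi, Tendsto (fun β : ℝ => lm t n β θ) (U : Filter ℝ)
        (𝓝 (lm t n α θ)) := by
      intro θ hθ
      have h3 := ev_cont (h.su _ hθ) hα'
      exact h3.tendsto.mono_left hUn
    have h2 := hlm _ half_mem
    have h4 : Tendsto (fun β : ℝ => ∏ s ∈ Finset.range M', lm t n β (ϑ s)) (U : Filter ℝ)
        (𝓝 (∏ s ∈ Finset.range M', lm t n α (ϑ s))) :=
      tendsto_finsetProd _ fun s _ => hlm _ (hϑ s)
    have h3 : Tendsto (fun β : ℝ => ‖Bk n ϑ M' β (Hm n M β (fun _ => 1)) (start n)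
          - (∏ s ∈ Finset.range M', lm t n β (ϑ s)) * (lm t n β (Real.pi / 2) ^ M * Af β)‖)
        (U : Filter ℝ) (𝓝 ‖Bk n ϑ M' α (Hm n M α (fun _ => 1)) (start n)
          - (∏ s ∈ Finset.range M', lm t n α (ϑ s)) * (lm t n α (Real.pi / 2) ^ M * A)‖) :=
      (h1.sub (h4.mul ((h2.pow M).mul hAt))).norm
    refine le_of_tendsto h3 ?_
    filter_upwards [hev] with β hβ
    exact (hAf β hβ.1 hβ.2).2 ϑ hϑ M' M

/-- the characteristic function in an arbitrary environment -/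
theorem wind_env : ∃ ρ C δ : ℝ, 0 < ρ ∧ 0 < C ∧ 0 < δ ∧ ∀ n : ℕ, 1 ≤ n → ∀ a : ℝ, |a| ≤ ρ →
    ∃ A : ℂ, ‖A - 1‖ ≤ C * √|a| ∧ ∀ ϑ : ℕ → ℝ, (∀ t, ϑ t ∈ Set.Icc 0 Real.pi) → ∀ M : ℕ,
      ∃ β : ℂ, ‖β - 3 * a ^ 2‖ ≤ C * (|a| / (2 * n + 1) ^ 2 + a ^ 2 / (2 * n + 1)) ∧
      ‖EE (det n ϑ) M (fun c =>
        cexp (((a * (2 * Real.pi / (2 * n + 1) * (dis c - cosS ϑ M)) : ℝ) : ℂ) * I))
        - A * cexp (-β * (hgt n ϑ M : ℝ))‖ ≤ C * Real.exp (-δ * ht n (hc ϑ M)) := by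
  obtain ⟨ρ, C, δ, hρ, hρ', hC, hδ, hall⟩ := fixe_all
  obtain ⟨r, K, hr, hr', hK, hlog⟩ := log_all
  have hpi := Real.pi_pos
  have hpi7 : 2 * Real.pi < 7 := by linarith [Real.pi_lt_d2]
  refine ⟨min ρ r / 7, 3 * C + 7 * K, δ / (2 * Real.pi), by positivity, by positivity,
    by positivity, ?_⟩
  intro n hn a ha
  have hN0 : (0 : ℝ) < 2 * n + 1 := by positivity
  obtain ⟨t, w, μ, g, h, hb⟩ := eg_exists hn
  set α := 2 * Real.pi * a with hα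
  have hαa : |α| = 2 * Real.pi * |a| := by
    rw [hα, abs_mul, abs_of_pos (by positivity : 0 < 2 * Real.pi)]
  have hαm : |α| ≤ min ρ r := by
    rw [hαa]
    have h1 : 0 ≤ |a| := abs_nonneg a
    have h2 : 7 * |a| ≤ min ρ r := by linarith
    nlinarith
  have hα1 : |α| ≤ ρ := hαm.trans (min_le_left _ _)
  have hα2 : |α| ≤ r := hαm.trans (min_le_right _ _)
  obtain ⟨A, hA1, hA2⟩ := hall n hn t w μ g h hb α hα1
  have hNC : ((2 * n + 1 : ℝ) : ℂ) ≠ 0 := by exact_mod_cast hN0.ne'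
  refine ⟨A, ?_, fun ϑ hϑ M => ?_⟩
  · refine hA1.trans ?_
    have h1 : √|α| ≤ 3 * √|a| := by
      rw [hαa]
      rw [Real.sqrt_le_left (by positivity), mul_pow, Real.sq_sqrt (abs_nonneg a)]
      nlinarith [abs_nonneg a]
    have h2 : 0 ≤ √|a| := Real.sqrt_nonneg _
    calc C * √|α| ≤ C * (3 * √|a|) := mul_le_mul_of_nonneg_left h1 hC.le
      _ ≤ _ := by nlinarith [mul_nonneg hK.le h2]
  -- the logarithms
  set L : ℝ → ℂ := fun θ => ev α (lgs (tz n t ((ph θ : ℂ) * I))) with hL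
  have hlm : ∀ θ ∈ Set.Icc 0 Real.pi, lm t n α θ = cexp (L θ) := fun θ hθ => by
    unfold lm
    exact ev_tz h hb hn hθ (by rw [Complex.norm_real, Real.norm_eq_abs]; linarith)
  set T := hgt n ϑ M with hT
  have hT0 : 0 ≤ T := hgt_nonneg hϑ M
  set S : ℂ := ∑ s ∈ Finset.range M, (L (ϑ s) - I * ((α * Real.cos (ϑ s) / (2 * n + 1) : ℝ) : ℂ))
    with hS
  have hTsum : ∑ s ∈ Finset.range M, Real.sin (ϑ s) = (2 * n + 1) / (2 * Real.pi) * T := by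
    rw [hT]
    unfold hgt
    field_simp
  have hSb : ‖S + ((3 * a ^ 2 * T : ℝ) : ℂ)‖
      ≤ (3 * C + 7 * K) * (|a| / (2 * n + 1) ^ 2 + a ^ 2 / (2 * n + 1)) * T := by
    have e1 : S + ((3 * a ^ 2 * T : ℝ) : ℂ) = ∑ s ∈ Finset.range M,
        (L (ϑ s) - I * ((α * Real.cos (ϑ s) / (2 * n + 1) : ℝ) : ℂ)
          + ((3 * α ^ 2 * Real.sin (ϑ s) / (2 * Real.pi * (2 * n + 1)) : ℝ) : ℂ)) := by
      rw [Finset.sum_add_distrib, ← hS]
      congr 1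
      rw [← Complex.ofReal_sum]
      congr 1
      have : ∀ s, 3 * α ^ 2 * Real.sin (ϑ s) / (2 * Real.pi * (2 * n + 1))
          = 3 * α ^ 2 / (2 * Real.pi * (2 * n + 1)) * Real.sin (ϑ s) := fun s => by ring
      rw [Finset.sum_congr rfl fun s _ => this s, ← Finset.mul_sum, hTsum, hα]
      field_simp
    rw [e1]
    refine (norm_sum_le _ _).trans ?_
    refine (Finset.sum_le_sum fun s _ => hlog n hn t w μ g h hb α hα2 (ϑ s) (hϑ s)).trans ?_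
    rw [← Finset.sum_mul, ← Finset.mul_sum, hTsum]
    have e4 : K * ((2 * n + 1) / (2 * Real.pi) * T) * (|α| / (2 * n + 1) ^ 3
        + α ^ 2 / (2 * n + 1) ^ 2) = (K * (|a| / (2 * n + 1) ^ 2)
        + (2 * Real.pi) * K * (a ^ 2 / (2 * n + 1))) * T := by
      rw [hαa, hα]; field_simp
    rw [e4]
    apply mul_le_mul_of_nonneg_right _ hT0
    have p1 : 0 ≤ |a| / (2 * (n : ℝ) + 1) ^ 2 := by positivity
    have p2 : 0 ≤ a ^ 2 / (2 * (n : ℝ) + 1) := by positivity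
    have p3 : (2 * Real.pi) * K * (a ^ 2 / (2 * (n : ℝ) + 1)) ≤ 7 * K * (a ^ 2 / (2 * (n : ℝ) + 1)) := by
      gcongr
    have p4 := mul_nonneg hK.le p1
    have p5 := mul_nonneg hC.le p1
    have p6 := mul_nonneg hC.le p2
    linarith
  -- the exponent
  obtain ⟨β, hβ1, hβ2⟩ : ∃ β : ℂ, ‖β - 3 * a ^ 2‖
      ≤ (3 * C + 7 * K) * (|a| / (2 * n + 1) ^ 2 + a ^ 2 / (2 * n + 1)) ∧ -β * (T : ℂ) = S := by
    have hc0 : 0 ≤ (3 * C + 7 * K) * (|a| / (2 * n + 1) ^ 2 + a ^ 2 / (2 * n + 1)) := by positivity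
    rcases hT0.eq_or_lt with h0 | hTp
    · refine ⟨3 * a ^ 2, by rw [sub_self, norm_zero]; exact hc0, ?_⟩
      rw [← h0, mul_zero, mul_zero] at hSb
      have h1 := norm_le_zero_iff.1 hSb
      rw [Complex.ofReal_zero, add_zero] at h1
      rw [h1, ← h0, Complex.ofReal_zero, mul_zero]
    · have hTC : (T : ℂ) ≠ 0 := by exact_mod_cast hTp.ne'
      refine ⟨-S / T, ?_, by field_simp⟩
      have e1 : -S / (T : ℂ) - 3 * (a : ℂ) ^ 2 = -(S + ((3 * a ^ 2 * T : ℝ) : ℂ)) / T := by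
        push_cast
        field_simp
        ring
      rw [e1, norm_div, norm_neg, Complex.norm_real, Real.norm_eq_abs, abs_of_pos hTp,
        div_le_iff₀ hTp]
      exact hSb
  refine ⟨β, hβ1, ?_⟩
  obtain ⟨ϑ', M', k1, k2, k3⟩ := rearr (n := n) hϑ M
  have h1 := hA2 ϑ' k1 M' (hc ϑ M)
  rw [← k2, ← mul_assoc, ← k3 (lm t n α)] at h1
  have e1 : Bk n ϑ M α (fun _ => 1) (start n) = EE (det n ϑ) M (fun c =>
      cexp (((a * (2 * Real.pi / (2 * n + 1) * dis c) : ℝ) : ℂ) * I)) := by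
    unfold Bk
    congr 1
    funext c
    unfold phs dis
    rw [mul_one, hα]
    congr 1
    push_cast
    ring
  have e2 : ∏ s ∈ Finset.range M, lm t n α (ϑ s)
      = cexp (((a * (2 * Real.pi / (2 * n + 1) * cosS ϑ M) : ℝ) : ℂ) * I) * cexp (-β * (T : ℂ)) := by
    rw [Finset.prod_congr rfl fun s _ => hlm _ (hϑ s), ← Complex.exp_sum, ← Complex.exp_add, hβ2, hS,
      Finset.sum_sub_distrib]
    congr 1
    have e3 : ((a * (2 * Real.pi / (2 * n + 1) * cosS ϑ M) : ℝ) : ℂ) * I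
        = ∑ s ∈ Finset.range M, I * ((α * Real.cos (ϑ s) / (2 * n + 1) : ℝ) : ℂ) := by
      rw [← Finset.mul_sum, ← Complex.ofReal_sum, mul_comm]
      congr 2
      unfold cosS
      have : ∀ s, α * Real.cos (ϑ s) / (2 * n + 1) = α / (2 * n + 1) * Real.cos (ϑ s) :=
        fun s => by ring
      rw [Finset.sum_congr rfl fun s _ => this s, ← Finset.mul_sum, hα]
      ring
    rw [e3]
    ring
  set z : ℂ := cexp (((a * (2 * Real.pi / (2 * n + 1) * cosS ϑ M) : ℝ) : ℂ) * I) with hz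
  have hz1 : ‖z‖ = 1 := Complex.norm_exp_ofReal_mul_I _
  have e5 : EE (det n ϑ) M (fun c =>
      cexp (((a * (2 * Real.pi / (2 * n + 1) * dis c) : ℝ) : ℂ) * I))
      = z * EE (det n ϑ) M (fun c =>
        cexp (((a * (2 * Real.pi / (2 * n + 1) * (dis c - cosS ϑ M)) : ℝ) : ℂ) * I)) := by
    rw [← EE_cmul]
    congr 1
    funext c
    rw [hz, ← Complex.exp_add]
    congr 1
    push_cast
    ring
  rw [e1, e2, e5] at h1
  have e6 : z * EE (det n ϑ) M (fun c =>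
        cexp (((a * (2 * Real.pi / (2 * n + 1) * (dis c - cosS ϑ M)) : ℝ) : ℂ) * I))
      - z * cexp (-β * (T : ℂ)) * A
      = z * (EE (det n ϑ) M (fun c =>
        cexp (((a * (2 * Real.pi / (2 * n + 1) * (dis c - cosS ϑ M)) : ℝ) : ℂ) * I))
        - A * cexp (-β * (T : ℂ))) := by ring
  rw [e6, norm_mul, hz1, one_mul] at h1
  refine h1.trans ?_
  have e7 : -(δ / (2 * Real.pi)) * ht n (hc ϑ M) = -δ * (hc ϑ M / (2 * n + 1)) := by
    unfold ht; field_simp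
  rw [e7]
  have p1 : 0 < Real.exp (-δ * (hc ϑ M / (2 * n + 1))) := Real.exp_pos _
  nlinarith [mul_pos hK p1, mul_pos hC p1]

end H729I
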