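import Pool.Agent.Run7.h729.Iso.Fy4

/-!
# The winding exponents in environments with a positive fraction of homogeneous rows
-/

set_option autoImplicit false

namespace H729I
open H906K Pool.Agent.H974R3 Polynomial Complex Filter Topology

/-- **the winding exponents in environments with a positive fraction of homogeneous rows** -/
theorem wind_env_exp {η : ℝ} (hη : 0 < η) : ∃ ρ : ℝ, 0 < ρ ∧ ∀ a : ℝ, |a| ≤ ρ → ∀ ε : ℝ, 0 < ε →
    ∃ n₀ : ℕ, ∃ T₀ : ℝ, ∀ n M : ℕ, ∀ ϑ : ℕ → ℝ, (∀ t, ϑ t ∈ Set.Icc 0 Real.pi) → n₀ ≤ n →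
      T₀ ≤ hgt n ϑ M → η * hgt n ϑ M ≤ ht n (hc ϑ M) →
      Real.exp (-(3 * a ^ 2 + ε) * hgt n ϑ M) ≤ ‖EE (det n ϑ) M (fun c =>
        cexp (((a * (2 * Real.pi / (2 * n + 1) * (dis c - cosS ϑ M)) : ℝ) : ℂ) * I))‖ ∧
      ‖EE (det n ϑ) M (fun c => cexp (((a * (2 * Real.pi / (2 * n + 1) * (dis c - cosS ϑ M)) : ℝ)
        : ℂ) * I))‖ ≤ Real.exp (-(3 * a ^ 2 - ε) * hgt n ϑ M) := by
  obtain ⟨ρ, C, δ0, hρ, hC, hδ0, hall⟩ := wind_env
  obtain ⟨δ, hδd⟩ : ∃ δ, δ = δ0 * η := ⟨_, rfl⟩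
  have hδ : 0 < δ := by rw [hδd]; positivity
  -- the bound of the arguments
  set ρ' : ℝ := min ρ (min (1 / (2 * C) ^ 2) (min 1 (δ / (12 + 0)))) with hρ'
  have hρ'0 : 0 < ρ' := by positivity
  refine ⟨ρ', hρ'0, fun a ha ε hε => ?_⟩
  have ha1 : |a| ≤ ρ := ha.trans (min_le_left _ _)
  have ha2 : |a| ≤ 1 / (2 * C) ^ 2 := ha.trans ((min_le_right _ _).trans (min_le_left _ _))
  have ha3 : |a| ≤ 1 := ha.trans ((min_le_right _ _).trans ((min_le_right _ _).trans
    (min_le_left _ _)))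
  have ha4 : |a| ≤ δ / 12 := by
    have := ha.trans ((min_le_right _ _).trans ((min_le_right _ _).trans (min_le_right _ _)))
    simpa using this
  have hCs : C * √|a| ≤ 1 / 2 := by
    have h1 : √|a| ≤ 1 / (2 * C) := by
      rw [Real.sqrt_le_left (by positivity), div_pow, one_pow]
      exact ha2
    calc C * √|a| ≤ C * (1 / (2 * C)) := mul_le_mul_of_nonneg_left h1 hC.le
      _ = 1 / 2 := by field_simp
  have ha0 : 0 ≤ |a| := abs_nonneg a
  have hasq : 3 * a ^ 2 ≤ δ / 4 := by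
    rw [← sq_abs]
    nlinarith
  -- the choice of the parameters
  set ε' : ℝ := min (ε / 2) (δ / 4) with hε'
  have hε'0 : 0 < ε' := lt_min (by positivity) (by positivity)
  obtain ⟨n₀, hn₀⟩ := exists_nat_gt (2 * C / ε')
  obtain ⟨T₀, hT₀⟩ : ∃ T₀ : ℝ, 0 ≤ T₀ ∧ ∀ T : ℝ, T₀ ≤ T → C * Real.exp (-(δ / 2) * T) ≤ 1 / 4 ∧
      2 + Real.log 2 ≤ ε / 2 * T := by
    refine ⟨max 0 (max (2 / δ * Real.log (4 * C)) ((2 + Real.log 2) / (ε / 2))), le_max_left _ _,
      fun T hT => ⟨?_, ?_⟩⟩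
    · have h1 : 2 / δ * Real.log (4 * C) ≤ T := ((le_max_left _ _).trans (le_max_right _ _)).trans hT
      have h2 : Real.log (4 * C) ≤ δ / 2 * T := by
        have := mul_le_mul_of_nonneg_left h1 (by positivity : 0 ≤ δ / 2)
        have e : δ / 2 * (2 / δ * Real.log (4 * C)) = Real.log (4 * C) := by field_simp
        linarith
      have h3 : Real.exp (-(δ / 2) * T) ≤ (4 * C)⁻¹ := by
        rw [neg_mul, Real.exp_neg]
        apply inv_anti₀ (by positivity)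
        rw [← Real.exp_log (show 0 < 4 * C by positivity)]
        exact Real.exp_le_exp.2 h2
      calc C * Real.exp (-(δ / 2) * T) ≤ C * (4 * C)⁻¹ := mul_le_mul_of_nonneg_left h3 hC.le
        _ = 1 / 4 := by field_simp
    · have h1 : (2 + Real.log 2) / (ε / 2) ≤ T :=
        ((le_max_right _ _).trans (le_max_right _ _)).trans hT
      rw [div_le_iff₀ (by positivity)] at h1
      linarith
  refine ⟨max n₀ 1, T₀, fun n M ϑ hϑ hn hT hfr => ?_⟩
  have hn1 : 1 ≤ n := (le_max_right _ _).trans hn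
  have hn2 : (n₀ : ℝ) ≤ n := by exact_mod_cast (le_max_left _ _).trans hn
  have hN0 : (0 : ℝ) < 2 * n + 1 := by positivity
  obtain ⟨A, hA, hM0⟩ := hall n hn1 a ha1
  obtain ⟨β, hβ, hM⟩ := hM0 ϑ hϑ M
  obtain ⟨hT1, hT2⟩ := hT₀.2 _ hT
  have hTp : 0 ≤ hgt n ϑ M := hT₀.1.trans hT
  set T := hgt n ϑ M with hTd
  set E := EE (det n ϑ) M (fun c => cexp (((a * (2 * Real.pi / (2 * n + 1)
    * (dis c - cosS ϑ M)) : ℝ) : ℂ) * I)) with hE
  have hM' : ‖E - A * cexp (-β * (T : ℝ))‖ ≤ C * Real.exp (-δ * T) := by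
    refine hM.trans ?_
    apply mul_le_mul_of_nonneg_left _ hC.le
    apply Real.exp_le_exp.2
    rw [hδd]
    nlinarith [mul_le_mul_of_nonneg_left hfr hδ0.le]
  have hβ' : ‖β - 3 * a ^ 2‖ ≤ ε' := by
    refine hβ.trans ?_
    have h1 : |a| / (2 * (n : ℝ) + 1) ^ 2 ≤ 1 / (2 * n + 1) := by
      rw [div_le_div_iff₀ (by positivity) hN0]
      nlinarith
    have h2 : a ^ 2 / (2 * (n : ℝ) + 1) ≤ 1 / (2 * n + 1) := by
      apply div_le_div_of_nonneg_right _ hN0.le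
      rw [← sq_abs]
      nlinarith
    have h3 : 2 * C / ε' < n := lt_of_lt_of_le hn₀ hn2
    have h4 : 2 * C / (2 * n + 1) ≤ ε' := by
      rw [div_le_iff₀ hN0]
      rw [div_lt_iff₀ hε'0] at h3
      nlinarith
    calc C * (|a| / (2 * (n : ℝ) + 1) ^ 2 + a ^ 2 / (2 * n + 1))
        ≤ C * (1 / (2 * n + 1) + 1 / (2 * n + 1)) :=
          mul_le_mul_of_nonneg_left (add_le_add h1 h2) hC.le
      _ = 2 * C / (2 * n + 1) := by ring
      _ ≤ _ := h4
  set b := β.re with hb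
  have hb1 : |b - 3 * a ^ 2| ≤ ε' := by
    have h1 := Complex.abs_re_le_norm (β - 3 * a ^ 2)
    have h2 : (β - 3 * (a : ℂ) ^ 2).re = b - 3 * a ^ 2 := by
      have : (3 * (a : ℂ) ^ 2) = ((3 * a ^ 2 : ℝ) : ℂ) := by push_cast; ring
      rw [this, Complex.sub_re, Complex.ofReal_re]
    rw [h2] at h1
    exact h1.trans hβ'
  have hb2 := abs_le.1 hb1
  have he1 : ε' ≤ ε / 2 := min_le_left _ _
  have he2 : ε' ≤ δ / 4 := min_le_right _ _
  have hbδ : b ≤ δ / 2 := by linarith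
  have hnorm : ‖cexp (-β * (T : ℝ))‖ = Real.exp (-b * T) := by
    rw [Complex.norm_exp]
    congr 1
    simp [hb]
  have hA' : 1 / 2 ≤ ‖A‖ ∧ ‖A‖ ≤ 3 / 2 := by
    have h1 := norm_sub_norm_le (1 : ℂ) (1 - A)
    rw [sub_sub_cancel, norm_one, norm_sub_rev] at h1
    have h2 := norm_sub_norm_le A 1
    rw [norm_one] at h2
    constructor <;> linarith
  have hmain : ‖A * cexp (-β * (T : ℝ))‖ = ‖A‖ * Real.exp (-b * T) := by rw [norm_mul, hnorm]
  have herr : C * Real.exp (-δ * T) ≤ 1 / 4 * Real.exp (-b * T) := by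
    have h1 : Real.exp (-δ * T) = Real.exp (-(δ / 2) * T) * Real.exp (-(δ / 2) * T) := by
      rw [← Real.exp_add]; congr 1; ring
    have h2 : Real.exp (-(δ / 2) * T) ≤ Real.exp (-b * T) := by
      apply Real.exp_le_exp.2
      nlinarith
    rw [h1, ← mul_assoc]
    exact mul_le_mul hT1 h2 (Real.exp_pos _).le (by norm_num)
  have hx := Real.exp_pos (-b * T)
  have hlow : 1 / 4 * Real.exp (-b * T) ≤ ‖E‖ := by
    have h1 := norm_sub_norm_le (A * cexp (-β * (T : ℝ))) E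
    rw [norm_sub_rev] at h1
    have h2 := mul_le_mul_of_nonneg_right hA'.1 hx.le
    rw [hmain] at h1
    linarith
  have hup : ‖E‖ ≤ 2 * Real.exp (-b * T) := by
    have h1 := norm_sub_norm_le E (A * cexp (-β * (T : ℝ)))
    have h2 := mul_le_mul_of_nonneg_right hA'.2 hx.le
    rw [hmain] at h1
    linarith
  have hbT1 : b * T ≤ (3 * a ^ 2 + ε / 2) * T := mul_le_mul_of_nonneg_right (by linarith) hTp
  have hbT2 : (3 * a ^ 2 - ε / 2) * T ≤ b * T := mul_le_mul_of_nonneg_right (by linarith) hTp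
  have hl2 : 0 < Real.log 2 := Real.log_pos (by norm_num)
  refine ⟨le_trans ?_ hlow, hup.trans ?_⟩
  · have h1 : (1 / 4 : ℝ) = Real.exp (-(2 * Real.log 2)) := by
      rw [Real.exp_neg, two_mul, Real.exp_add, Real.exp_log (by norm_num)]
      norm_num
    rw [h1, ← Real.exp_add]
    apply Real.exp_le_exp.2
    have h2 : Real.log 2 < 1 := by
      have := Real.log_two_lt_d9
      linarith
    nlinarith
  · have h1 : (2 : ℝ) = Real.exp (Real.log 2) := (Real.exp_log (by norm_num)).symm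
    calc 2 * Real.exp (-b * T) = Real.exp (Real.log 2 + -b * T) := by
          rw [Real.exp_add, Real.exp_log (by norm_num)]
      _ ≤ _ := by
        apply Real.exp_le_exp.2
        nlinarith

end H729I
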