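import Pool.Agent.Run7.h729.Iso.Phy

/-!
# The values at the physical points are the sine times the value at the symmetric point
-/

set_option autoImplicit false

namespace H729I
open H906K Pool.Agent.H974R3 Polynomial Complex MeasureTheory Filter Topology

/-- the kernel of the representation, decomposed -/
theorem phys_rep2 (m : ℕ) {f : ℂ → ℂ} (hf : Nic f) {a : ℝ} (ha : 0 ≤ a)
    (hG : ∀ u : ℝ, ‖f (u + Real.pi / 3 * I) + f (u - Real.pi / 3 * I)‖ ≤ a * |ta u| ^ (2 * m + 3)) :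
    ∃ J : ℂ, ∀ θ ∈ Set.Ioo 0 Real.pi,
      ‖f ((ph θ : ℂ) * I) - (Real.cos θ : ℂ) * J - (Real.sin θ : ℂ) * f ((0 : ℝ) : ℂ)‖
        ≤ 2 * a * Real.sin θ / ((2 * m + 1) * (2 * m + 3) * (2 * m + 5)) := by
  have hpi := Real.pi_pos
  have hpi3 := Real.pi_gt_three
  have hrep := hf.rep 0
  obtain ⟨h1, K, h2⟩ := hf
  set G : ℝ → ℂ := fun u => f (u + Real.pi / 3 * I) + f (u - Real.pi / 3 * I) with hGd
  have him1 : ∀ u : ℝ, |((u : ℂ) + Real.pi / 3 * I).im| < 2 * Real.pi / 5 := fun u => (u_p u).2.1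
  have him2 : ∀ u : ℝ, |((u : ℂ) - Real.pi / 3 * I).im| < 2 * Real.pi / 5 := fun u => (u_m u).2.1
  have hGc : Continuous G := by
    refine Continuous.add ?_ ?_
    · rw [continuous_iff_continuousAt]
      intro u
      refine ContinuousAt.comp (f := fun t : ℝ => ((t : ℂ) + Real.pi / 3 * I))
        (h1 _ (him1 u)).continuousAt ?_
      fun_prop
    · rw [continuous_iff_continuousAt]
      intro u
      refine ContinuousAt.comp (f := fun t : ℝ => ((t : ℂ) - Real.pi / 3 * I))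
        (h1 _ (him2 u)).continuousAt ?_
      fun_prop
  have hSm : Measurable (fun u : ℝ => Real.sinh (3 * u / 2)) :=
    (Real.continuous_sinh.comp (by fun_prop)).measurable
  have hCm : Measurable (fun u : ℝ => Real.cosh (3 * u / 2)) :=
    (Real.continuous_cosh.comp (by fun_prop)).measurable
  have hSc : Measurable (fun u : ℝ => ((Real.sinh (3 * u / 2) : ℝ) : ℂ)) :=
    Complex.measurable_ofReal.comp hSm
  have hGa : ∀ u, ‖G u‖ ≤ a := by
    intro u
    refine (hG u).trans ?_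
    have : |ta u| ^ (2 * m + 3) ≤ 1 := pow_le_one₀ (abs_nonneg _) (ta_abs u)
    nlinarith
  -- the singular integral
  have i1 : Integrable (fun u : ℝ => G u / ((Real.sinh (3 * u / 2) : ℝ) : ℂ)) := by
    refine (one_sub_int.const_mul (a / 2)).mono' (hGc.measurable.div hSc).aestronglyMeasurable
      (Eventually.of_forall fun u => ?_)
    rw [norm_div, Complex.norm_real, Real.norm_eq_abs, div_eq_mul_one_div]
    have e : 1 / |Real.sinh (3 * u / 2)| = |1 / Real.sinh (3 * u / 2)| := by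
      rw [abs_div, abs_one]
    rw [e]
    calc ‖G u‖ * |1 / Real.sinh (3 * u / 2)|
        ≤ (a * |ta u| ^ (2 * m + 3)) * |1 / Real.sinh (3 * u / 2)| :=
          mul_le_mul_of_nonneg_right (hG u) (abs_nonneg _)
      _ = a * (|ta u| ^ (2 * m + 3) * |1 / Real.sinh (3 * u / 2)|) := by ring
      _ ≤ a * ((1 - ta u ^ 2) / 2) := mul_le_mul_of_nonneg_left (pt_B m u) ha
      _ = _ := by ring
  -- the regular integral
  have i3 : Integrable (fun u : ℝ => (kk u : ℂ) * G u) := by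
    refine (kk_integrable.const_mul a).mono'
      ((Complex.continuous_ofReal.comp kk_cont).mul hGc).aestronglyMeasurable
      (Eventually.of_forall fun u => ?_)
    rw [norm_mul, Complex.norm_real, Real.norm_eq_abs, abs_of_pos (kk_pos u), mul_comm]
    exact mul_le_mul_of_nonneg_right (hGa u) (kk_pos u).le
  have hf0 : f ((0 : ℝ) : ℂ) = ∫ u : ℝ, (kk u : ℂ) * G u := by
    rw [hrep]
    congr 1
    funext u
    rw [zero_sub, kk_even]
  refine ⟨(3 / (4 * Real.pi) : ℝ) * I * ∫ u : ℝ, G u / ((Real.sinh (3 * u / 2) : ℝ) : ℂ), ?_⟩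
  intro θ hθ
  have hs := Real.sin_pos_of_mem_Ioo hθ
  have hs1 := Real.sin_le_one θ
  obtain ⟨e1, e2⟩ := ph_trig θ
  have h3 := H729I.strip_im f K (fun z hz => h1 z (by linarith)) (fun z hz => h2 z (by linarith))
    (ph θ) (ph_lt hθ)
  set c := Real.sin θ with hc
  set s := Real.cos θ with hsd
  have b2 : ∀ u : ℝ, ‖G u / ((Real.sinh (3 * u / 2) * (Real.sinh (3 * u / 2) ^ 2 + c ^ 2) : ℝ) : ℂ)‖
      ≤ a / 8 * w3 m u := by
    intro u
    rw [norm_div, Complex.norm_real, Real.norm_eq_abs, div_eq_mul_one_div]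
    have e : 1 / |Real.sinh (3 * u / 2) * (Real.sinh (3 * u / 2) ^ 2 + c ^ 2)|
        = |1 / (Real.sinh (3 * u / 2) * (Real.sinh (3 * u / 2) ^ 2 + c ^ 2))| := by
      rw [abs_div, abs_one]
    rw [e]
    calc _ ≤ (a * |ta u| ^ (2 * m + 3)) *
            |1 / (Real.sinh (3 * u / 2) * (Real.sinh (3 * u / 2) ^ 2 + c ^ 2))| :=
          mul_le_mul_of_nonneg_right (hG u) (abs_nonneg _)
      _ = a * (|ta u| ^ (2 * m + 3) *
            |1 / (Real.sinh (3 * u / 2) * (Real.sinh (3 * u / 2) ^ 2 + c ^ 2))|) := by ring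
      _ ≤ a * (w3 m u / 8) := mul_le_mul_of_nonneg_left (pt_A m u c) ha
      _ = _ := by ring
  have i2 : Integrable (fun u : ℝ => G u /
      ((Real.sinh (3 * u / 2) * (Real.sinh (3 * u / 2) ^ 2 + c ^ 2) : ℝ) : ℂ)) := by
    refine ((w3_int m).const_mul (a / 8)).mono'
      (hGc.measurable.div (Complex.measurable_ofReal.comp
        (hSm.mul ((hSm.pow_const 2).add_const _)))).aestronglyMeasurable
      (Eventually.of_forall fun u => b2 u)
  have b4 : ∀ u : ℝ, ‖G u / ((Real.cosh (3 * u / 2) * (Real.sinh (3 * u / 2) ^ 2 + c ^ 2) : ℝ) : ℂ)‖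
      ≤ a / 4 * w3 m u := by
    intro u
    rw [norm_div, Complex.norm_real, Real.norm_eq_abs, div_eq_mul_one_div]
    have e : 1 / |Real.cosh (3 * u / 2) * (Real.sinh (3 * u / 2) ^ 2 + c ^ 2)|
        = |1 / (Real.cosh (3 * u / 2) * (Real.sinh (3 * u / 2) ^ 2 + c ^ 2))| := by
      rw [abs_div, abs_one]
    rw [e]
    calc _ ≤ (a * |ta u| ^ (2 * m + 3)) *
            |1 / (Real.cosh (3 * u / 2) * (Real.sinh (3 * u / 2) ^ 2 + c ^ 2))| :=
          mul_le_mul_of_nonneg_right (hG u) (abs_nonneg _)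
      _ = a * (|ta u| ^ (2 * m + 3) *
            |1 / (Real.cosh (3 * u / 2) * (Real.sinh (3 * u / 2) ^ 2 + c ^ 2))|) := by ring
      _ ≤ a * (w3 m u / 4) := mul_le_mul_of_nonneg_left (pt_C m u c) ha
      _ = _ := by ring
  have i4 : Integrable (fun u : ℝ => G u /
      ((Real.cosh (3 * u / 2) * (Real.sinh (3 * u / 2) ^ 2 + c ^ 2) : ℝ) : ℂ)) := by
    refine ((w3_int m).const_mul (a / 4)).mono'
      (hGc.measurable.div (Complex.measurable_ofReal.comp
        (hCm.mul ((hSm.pow_const 2).add_const _)))).aestronglyMeasurable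
      (Eventually.of_forall fun u => b4 u)
  have key : f ((ph θ : ℂ) * I)
      - (s : ℂ) * ((3 / (4 * Real.pi) : ℝ) * I * ∫ u : ℝ, G u / ((Real.sinh (3 * u / 2) : ℝ) : ℂ))
      - (c : ℂ) * f ((0 : ℝ) : ℂ)
      = ((3 / (4 * Real.pi) * c * (1 - c ^ 2) : ℝ) : ℂ) * (∫ u : ℝ, G u /
      ((Real.cosh (3 * u / 2) * (Real.sinh (3 * u / 2) ^ 2 + c ^ 2) : ℝ) : ℂ))
        - ((3 / (4 * Real.pi) * s * c ^ 2 : ℝ) : ℂ) * I * ∫ u : ℝ, G u /
      ((Real.sinh (3 * u / 2) * (Real.sinh (3 * u / 2) ^ 2 + c ^ 2) : ℝ) : ℂ) := by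
    rw [sub_eq_iff_eq_add, sub_eq_iff_eq_add]
    have hpt : ∀ u : ℝ, kkc ((ph θ : ℂ) * I - u) * (f (u + Real.pi / 3 * Complex.I)
        + f (u - Real.pi / 3 * Complex.I))
        = ((c : ℂ) * ((kk u : ℂ) * G u) + ((3 / (4 * Real.pi) * c * (1 - c ^ 2) : ℝ) : ℂ) * (G u /
      ((Real.cosh (3 * u / 2) * (Real.sinh (3 * u / 2) ^ 2 + c ^ 2) : ℝ) : ℂ)))
        - ((3 / (4 * Real.pi) * s * c ^ 2 : ℝ) : ℂ) * I * (G u /
      ((Real.sinh (3 * u / 2) * (Real.sinh (3 * u / 2) ^ 2 + c ^ 2) : ℝ) : ℂ))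
        + (s : ℂ) * ((3 / (4 * Real.pi) : ℝ) * I) * (G u / ((Real.sinh (3 * u / 2) : ℝ) : ℂ)) := by
      intro u
      rw [kkc_eq, e1, e2]
      have h2 : Real.sinh (3 * u / 2) ^ 2 + c ^ 2 ≠ 0 := by positivity
      have hC := (Real.cosh_pos (3 * u / 2)).ne'
      have hev : 3 / (4 * Real.pi) * (Real.cosh (3 * u / 2) * c)
            / (Real.sinh (3 * u / 2) ^ 2 + c ^ 2)
          = c * kk u + 3 / (4 * Real.pi) * c * (1 - c ^ 2) * (1 / (Real.cosh (3 * u / 2)
              * (Real.sinh (3 * u / 2) ^ 2 + c ^ 2))) := by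
        have hsq := Real.cosh_sq (3 * u / 2)
        unfold kk
        field_simp
        rw [hsq]
        ring
      rw [hev]
      by_cases hS : Real.sinh (3 * u / 2) = 0
      · rw [hS]
        push_cast
        rw [show f (u + Real.pi / 3 * Complex.I) + f (u - Real.pi / 3 * Complex.I) = G u from rfl]
        simp only [zero_mul, mul_zero, zero_div, div_zero, add_zero, sub_zero]
        ring
      · have hr : 3 / (4 * Real.pi) * (Real.sinh (3 * u / 2) * s)
              / (Real.sinh (3 * u / 2) ^ 2 + c ^ 2)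
            = 3 / (4 * Real.pi) * s * (1 / Real.sinh (3 * u / 2))
              - 3 / (4 * Real.pi) * s * c ^ 2 * (1 / (Real.sinh (3 * u / 2)
                * (Real.sinh (3 * u / 2) ^ 2 + c ^ 2))) := by
          field_simp
          ring
        rw [hr]
        push_cast
        rw [show f (u + Real.pi / 3 * Complex.I) + f (u - Real.pi / 3 * Complex.I) = G u from rfl]
        ring
    rw [h3, hf0]
    simp_rw [hpt]
    have i34 : Integrable (fun u : ℝ => (c : ℂ) * ((kk u : ℂ) * G u)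
        + ((3 / (4 * Real.pi) * c * (1 - c ^ 2) : ℝ) : ℂ) * (G u /
      ((Real.cosh (3 * u / 2) * (Real.sinh (3 * u / 2) ^ 2 + c ^ 2) : ℝ) : ℂ))) :=
      (i3.const_mul _).add (i4.const_mul _)
    have i23 : Integrable (fun u : ℝ => ((c : ℂ) * ((kk u : ℂ) * G u)
        + ((3 / (4 * Real.pi) * c * (1 - c ^ 2) : ℝ) : ℂ) * (G u /
      ((Real.cosh (3 * u / 2) * (Real.sinh (3 * u / 2) ^ 2 + c ^ 2) : ℝ) : ℂ)))
        - ((3 / (4 * Real.pi) * s * c ^ 2 : ℝ) : ℂ) * I * (G u /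
      ((Real.sinh (3 * u / 2) * (Real.sinh (3 * u / 2) ^ 2 + c ^ 2) : ℝ) : ℂ))) :=
      i34.sub (i2.const_mul _)
    rw [integral_add i23 (i1.const_mul _), integral_sub i34 (i2.const_mul _),
      integral_add (i3.const_mul _) (i4.const_mul _), integral_const_mul, integral_const_mul,
      integral_const_mul, integral_const_mul]
    ring
  rw [key]
  refine (norm_sub_le _ _).trans ?_
  have hc2 : 0 ≤ 1 - c ^ 2 ∧ 1 - c ^ 2 ≤ 1 := ⟨by nlinarith, by nlinarith [_root_.sq_nonneg c]⟩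
  have n3 : ‖((3 / (4 * Real.pi) * c * (1 - c ^ 2) : ℝ) : ℂ) * (∫ u : ℝ, G u /
      ((Real.cosh (3 * u / 2) * (Real.sinh (3 * u / 2) ^ 2 + c ^ 2) : ℝ) : ℂ))‖
      ≤ 3 / (4 * Real.pi) * c * (a / 4 * ((64 / 3) / ((2 * m + 1) * (2 * m + 3) * (2 * m + 5)))) := by
    rw [norm_mul, Complex.norm_real, Real.norm_eq_abs]
    have q1 : |3 / (4 * Real.pi) * c * (1 - c ^ 2)| ≤ 3 / (4 * Real.pi) * c := by
      rw [abs_mul, abs_of_pos (by positivity : 0 < 3 / (4 * Real.pi) * c), abs_of_nonneg hc2.1]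
      exact mul_le_of_le_one_right (by positivity) hc2.2
    have q2 : ‖∫ u : ℝ, G u /
      ((Real.cosh (3 * u / 2) * (Real.sinh (3 * u / 2) ^ 2 + c ^ 2) : ℝ) : ℂ)‖
      ≤ a / 4 * ((64 / 3) / ((2 * m + 1) * (2 * m + 3) * (2 * m + 5))) := by
      refine (norm_integral_le_of_norm_le ((w3_int m).const_mul (a / 4))
        (Eventually.of_forall fun u => b4 u)).trans ?_
      rw [integral_const_mul, w3_integral]
    exact mul_le_mul q1 q2 (norm_nonneg _) (by positivity)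
  have n2 : ‖((3 / (4 * Real.pi) * s * c ^ 2 : ℝ) : ℂ) * I * ∫ u : ℝ, G u /
      ((Real.sinh (3 * u / 2) * (Real.sinh (3 * u / 2) ^ 2 + c ^ 2) : ℝ) : ℂ)‖
      ≤ 3 / (4 * Real.pi) * c * (a / 8 * ((64 / 3) / ((2 * m + 1) * (2 * m + 3) * (2 * m + 5)))) := by
    rw [norm_mul, norm_mul, Complex.norm_I, mul_one, Complex.norm_real, Real.norm_eq_abs]
    have q1 : |3 / (4 * Real.pi) * s * c ^ 2| ≤ 3 / (4 * Real.pi) * c := by
      rw [abs_mul, abs_mul, abs_of_pos (by positivity : 0 < 3 / (4 * Real.pi)),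
        abs_of_pos (by positivity : 0 < c ^ 2)]
      have q2 : |s| ≤ 1 := Real.abs_cos_le_one θ
      have q3 : |s| * c ^ 2 ≤ c := by
        have : c ^ 2 ≤ c := by nlinarith
        nlinarith [abs_nonneg s]
      rw [mul_assoc]
      exact mul_le_mul_of_nonneg_left q3 (by positivity)
    have q2 : ‖∫ u : ℝ, G u /
      ((Real.sinh (3 * u / 2) * (Real.sinh (3 * u / 2) ^ 2 + c ^ 2) : ℝ) : ℂ)‖
      ≤ a / 8 * ((64 / 3) / ((2 * m + 1) * (2 * m + 3) * (2 * m + 5))) := by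
      refine (norm_integral_le_of_norm_le ((w3_int m).const_mul (a / 8))
        (Eventually.of_forall fun u => b2 u)).trans ?_
      rw [integral_const_mul, w3_integral]
    exact mul_le_mul q1 q2 (norm_nonneg _) (by positivity)
  refine (add_le_add n3 n2).trans ?_
  have hm : (0 : ℝ) ≤ m := Nat.cast_nonneg m
  have e5 : 3 / (4 * Real.pi) * c * (a / 4 * ((64 / 3) / ((2 * m + 1) * (2 * m + 3) * (2 * m + 5))))
      + 3 / (4 * Real.pi) * c * (a / 8 * ((64 / 3) / ((2 * m + 1) * (2 * m + 3) * (2 * m + 5))))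
      = a * c / ((2 * m + 1) * (2 * m + 3) * (2 * m + 5)) * (6 / Real.pi) := by
    field_simp
    ring
  rw [e5]
  have q9 : 6 / Real.pi ≤ 2 := by
    rw [div_le_iff₀ hpi]; linarith
  have hac : 0 ≤ a * c / ((2 * m + 1) * (2 * m + 3) * (2 * m + 5)) := by positivity
  calc a * c / ((2 * m + 1) * (2 * m + 3) * (2 * m + 5)) * (6 / Real.pi)
      ≤ a * c / ((2 * m + 1) * (2 * m + 3) * (2 * m + 5)) * 2 := mul_le_mul_of_nonneg_left q9 hac
    _ = _ := by ring

/-- the same when the function vanishes at `iπ/3` -/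
theorem phys_fine (m : ℕ) {f : ℂ → ℂ} (hf : Nic f) {a : ℝ} (ha : 0 ≤ a)
    (hG : ∀ u : ℝ, ‖f (u + Real.pi / 3 * I) + f (u - Real.pi / 3 * I)‖ ≤ a * |ta u| ^ (2 * m + 3))
    (h0 : f (Real.pi / 3 * I) = 0) {θ : ℝ} (hθ : θ ∈ Set.Ioo 0 Real.pi) :
    ‖f ((ph θ : ℂ) * I) - (Real.sin θ : ℂ) * f ((0 : ℝ) : ℂ)‖
      ≤ 2 * a * Real.sin θ / ((2 * m + 1) * (2 * m + 3) * (2 * m + 5)) := by
  have hpi := Real.pi_pos
  obtain ⟨J, hJ⟩ := phys_rep2 m hf ha hG
  have h1 : Tendsto (fun θ : ℝ => f ((ph θ : ℂ) * I) - (Real.cos θ : ℂ) * J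
      - (Real.sin θ : ℂ) * f ((0 : ℝ) : ℂ)) (𝓝[>] 0) (𝓝 (-J)) := by
    have hc : ContinuousAt (fun θ : ℝ => f ((ph θ : ℂ) * I) - (Real.cos θ : ℂ) * J
        - (Real.sin θ : ℂ) * f ((0 : ℝ) : ℂ)) 0 := by
      refine ContinuousAt.sub (ContinuousAt.sub ?_ (by fun_prop)) (by fun_prop)
      refine ContinuousAt.comp (f := fun θ : ℝ => ((ph θ : ℝ) : ℂ) * I) (hf.1 _ ?_).continuousAt ?_
      · have : ((ph 0 : ℝ) : ℂ) * I = ((Real.pi / 3 : ℝ) : ℂ) * I := by unfold ph; simp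
        simp only [this]
        simp only [Complex.mul_im, Complex.ofReal_re, Complex.I_im, mul_one, Complex.ofReal_im,
          Complex.I_re, mul_zero, add_zero]
        rw [abs_of_pos (by positivity)]
        linarith
      · unfold ph
        fun_prop
    have h2 := hc.tendsto
    have h3 : f ((ph 0 : ℂ) * I) - (Real.cos 0 : ℂ) * J - (Real.sin 0 : ℂ) * f ((0 : ℝ) : ℂ)
        = -J := by
      have : ((ph 0 : ℝ) : ℂ) * I = (Real.pi : ℂ) / 3 * I := by unfold ph; push_cast; ring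
      rw [this, h0, Real.cos_zero, Real.sin_zero]
      simp
    rw [h3] at h2
    exact h2.mono_left nhdsWithin_le_nhds
  have h2 : Tendsto (fun θ : ℝ => 2 * a * Real.sin θ / ((2 * m + 1) * (2 * m + 3) * (2 * m + 5)))
      (𝓝[>] 0) (𝓝 0) := by
    have hc : ContinuousAt (fun θ : ℝ => 2 * a * Real.sin θ
      / ((2 * m + 1) * (2 * m + 3) * (2 * m + 5))) 0 := by fun_prop
    have := hc.tendsto
    rw [Real.sin_zero, mul_zero, zero_div] at this
    exact this.mono_left nhdsWithin_le_nhds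
  have h3 : ‖-J‖ ≤ 0 := by
    refine le_of_tendsto_of_tendsto h1.norm h2 ?_
    filter_upwards [Ioo_mem_nhdsGT hpi] with θ hθ
    exact hJ θ hθ
  have hJ0 : J = 0 := by
    rw [norm_neg] at h3
    exact norm_le_zero_iff.1 h3
  have := hJ θ hθ
  rwa [hJ0, mul_zero, sub_zero] at this

end H729I
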