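import Pool.Agent.Run7.h729.Iso.Lam

/-!
# The first two coefficients: drift and diffusivity
-/

set_option autoImplicit false

namespace H729I
open H906K Pool.Agent.H974R3 Polynomial Complex Filter Topology

variable {n : ℕ} {t : (PowerSeries ℂ)[X]} {w : Pat (2 * n + 1) → PowerSeries ℂ}
  {μ : Pat (2 * n + 1) → ℝ} {f g : Pat (2 * n + 1) → ℝ} {v D : ℝ → ℝ}

theorem msC (h : Eg n t w μ) {θ : ℝ} (hθ : θ ∈ Set.Icc 0 Real.pi) (F : Pat (2 * n + 1) → ℂ) :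
    ∑ σ, ((μ σ : ℝ) : ℂ) * ∑ b : Fin (2 * n + 1) → Bool, ((rw1 n (prob θ) b : ℝ) : ℂ)
      * F (Tc (2 * n) b σ) = ∑ σ, ((μ σ : ℝ) : ℂ) * F σ := by
  have h1 := h.ms θ hθ (fun σ => (F σ).re)
  have h2 := h.ms θ hθ (fun σ => (F σ).im)
  unfold Qo at h1 h2
  apply Complex.ext
  · simp only [Complex.re_sum, Complex.re_ofReal_mul]
    exact h1
  · simp only [Complex.im_sum, Complex.im_ofReal_mul]
    exact h2

theorem avg0 (h : Eg n t w μ) {θ : ℝ} (hθ : θ ∈ Set.Icc 0 Real.pi) {φ : Pat (2 * n + 1) → ℂ} {c : ℂ}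
    (hφ : ∀ σ, ∑ b : Fin (2 * n + 1) → Bool, ((rw1 n (prob θ) b : ℝ) : ℂ) * φ (Tc (2 * n) b σ)
      = φ σ + c) : c = 0 := by
  have h1 := msC h hθ φ
  simp only [hφ, mul_add] at h1
  rw [Finset.sum_add_distrib, ← Finset.sum_mul, ← Complex.ofReal_sum, h.m1] at h1
  have h2 := add_eq_left.1 h1
  simpa using h2

theorem rw1_sumC (θ : ℝ) : ∑ b : Fin (2 * n + 1) → Bool, ((rw1 n (prob θ) b : ℝ) : ℂ) = 1 := by
  rw [← Complex.ofReal_sum, rw1_sum, Complex.ofReal_one]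

theorem harmC (h : Eg n t w μ) {φ : Pat (2 * n + 1) → ℂ}
    (hφ : ∀ σ, ∑ b : Fin (2 * n + 1) → Bool, ((rw1 n (prob (Real.pi / 2)) b : ℝ) : ℂ)
      * φ (Tc (2 * n) b σ) = φ σ) : ∃ c, ∀ σ, φ σ = c := by
  have key : ∀ a : Pat (2 * n + 1) → ℝ, (∀ σ, Qo n (Real.pi / 2) a σ = a σ) →
      ∀ σ, a σ = ∑ τ, μ τ * a τ := by
    intro a ha σ
    have h1 : (fun σ => a σ - ∑ τ, μ τ * a τ) = 0 := by
      apply harm h
      intro σ
      have e1 : Qo n (Real.pi / 2) (fun σ => a σ - ∑ τ, μ τ * a τ) σ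
          = a σ - ∑ τ, μ τ * a τ := by
        have := ha σ
        unfold Qo at this ⊢
        simp only [mul_sub]
        rw [Finset.sum_sub_distrib, ← Finset.sum_mul, rw1_sum, one_mul, this]
      have e2 : ∑ τ, μ τ * (a τ - ∑ τ, μ τ * a τ) = 0 := by
        simp only [mul_sub]
        rw [Finset.sum_sub_distrib, ← Finset.sum_mul, h.m1, one_mul, sub_self]
      rw [e1, e2]
      ring
    have := congrFun h1 σ
    simp only [Pi.zero_apply] at this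
    linarith
  have h1 := key (fun σ => (φ σ).re) (fun σ => by
    have := congrArg Complex.re (hφ σ)
    simp only [Complex.re_sum, Complex.re_ofReal_mul] at this
    exact this)
  have h2 := key (fun σ => (φ σ).im) (fun σ => by
    have := congrArg Complex.im (hφ σ)
    simp only [Complex.im_sum, Complex.im_ofReal_mul] at this
    exact this)
  refine ⟨⟨∑ τ, μ τ * (φ τ).re, ∑ τ, μ τ * (φ τ).im⟩, fun σ => Complex.ext (h1 σ) (h2 σ)⟩

theorem eig1 (h : Eg n t w μ) {θ : ℝ} (hθ : θ ∈ Set.Icc 0 Real.pi) (σ : Pat (2 * n + 1)) :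
    ∑ b : Fin (2 * n + 1) → Bool, ((rw1 n (prob θ) b : ℝ) : ℂ)
      * ((dTc (2 * n) b σ : ℂ) / (2 * n + 1) * I + PowerSeries.coeff 1 (wr n w (Tc (2 * n) b σ)))
      = PowerSeries.coeff 1 (wr n w σ) + lc n t θ 1 := by
  have h1 := congrArg (PowerSeries.coeff 1) (eig h.hL hθ σ)
  rw [map_sum, e4_mul1, tz_c0 h.hT hθ, wr_zero h.w0, one_mul, mul_one] at h1
  have h2 := lgs_rec (tz_c0 h.hT hθ) le_rfl
  rw [Finset.Ico_self, Finset.sum_empty, add_zero] at h2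
  rw [h2] at h1
  rw [show lc n t θ 1 = PowerSeries.coeff 1 (lgs (tz n t ((ph θ : ℂ) * I))) from rfl, ← h1]
  refine Finset.sum_congr rfl fun b _ => ?_
  rw [PowerSeries.coeff_C_mul, e4_mul1, wr_zero h.w0, e4_expI, e4_expI]
  simp

theorem eig2 (h : Eg n t w μ) {θ : ℝ} (hθ : θ ∈ Set.Icc 0 Real.pi) (σ : Pat (2 * n + 1)) :
    ∑ b : Fin (2 * n + 1) → Bool, ((rw1 n (prob θ) b : ℝ) : ℂ)
      * (((dTc (2 * n) b σ : ℂ) / (2 * n + 1) * I) ^ 2 / 2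
        + PowerSeries.coeff 1 (wr n w (Tc (2 * n) b σ)) * ((dTc (2 * n) b σ : ℂ) / (2 * n + 1) * I)
        + PowerSeries.coeff 2 (wr n w (Tc (2 * n) b σ)))
      = PowerSeries.coeff 2 (wr n w σ) + lc n t θ 1 * PowerSeries.coeff 1 (wr n w σ)
        + (lc n t θ 2 + lc n t θ 1 ^ 2 / 2) := by
  have h1 := congrArg (PowerSeries.coeff 2) (eig h.hL hθ σ)
  rw [map_sum, e4_mul2, tz_c0 h.hT hθ, wr_zero h.w0, one_mul, mul_one] at h1
  have h2 := lgs_rec (tz_c0 h.hT hθ) le_rfl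
  rw [Finset.Ico_self, Finset.sum_empty, add_zero] at h2
  have h3 := lgs_rec (tz_c0 h.hT hθ) (k := 2) (by norm_num)
  rw [show Finset.Ico 1 2 = {1} from rfl, Finset.sum_singleton] at h3
  rw [h3, show 2 - 1 = 1 from rfl, h2] at h1
  have h4 : lc n t θ 1 = PowerSeries.coeff 1 (lgs (tz n t ((ph θ : ℂ) * I))) := rfl
  have h5 : lc n t θ 2 = PowerSeries.coeff 2 (lgs (tz n t ((ph θ : ℂ) * I))) := rfl
  rw [← h4, ← h5] at h1
  have h6 : PowerSeries.coeff 2 (wr n w σ) + lc n t θ 1 * PowerSeries.coeff 1 (wr n w σ)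
        + (lc n t θ 2 + lc n t θ 1 ^ 2 / 2) = PowerSeries.coeff 2 (wr n w σ)
        + lc n t θ 1 * PowerSeries.coeff 1 (wr n w σ)
        + (lc n t θ 2 + ((1 : ℕ) : ℂ) / ((2 : ℕ) : ℂ) * lc n t θ 1 * lc n t θ 1) := by
    push_cast; ring
  rw [h6, ← h1]
  refine Finset.sum_congr rfl fun b _ => ?_
  rw [PowerSeries.coeff_C_mul, e4_mul2, wr_zero h.w0, e4_expI, e4_expI, e4_expI]
  simp

/-- **the first two coefficients** -/
theorem lc_vD (h : Eg n t w μ) (hc : Crr n f g v D) {θ : ℝ} (hθ : θ ∈ Set.Icc 0 Real.pi) :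
    lc n t θ 1 = I * (v θ : ℂ) / (2 * n + 1) ∧
    lc n t θ 2 = -((D θ : ℝ) : ℂ) / (2 * (2 * n + 1) ^ 2) := by
  have hN := Nc_ne n
  set N : ℂ := 2 * (n : ℂ) + 1 with hNd
  set F : Pat (2 * n + 1) → ℂ := fun σ => -I * N * PowerSeries.coeff 1 (wr n w σ) with hF
  set H : Pat (2 * n + 1) → ℂ := fun σ => -2 * N ^ 2 * PowerSeries.coeff 2 (wr n w σ) with hH
  have a1 : ∀ σ, PowerSeries.coeff 1 (wr n w σ) = I / N * F σ := by
    intro σ
    rw [hF]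
    field_simp
    linear_combination (PowerSeries.coeff 1 (wr n w σ)) * Complex.I_sq
  have a2 : ∀ σ, PowerSeries.coeff 2 (wr n w σ) = -1 / (2 * N ^ 2) * H σ := by
    intro σ
    rw [hH]
    field_simp
  -- the first equation
  have q1 : ∀ θ ∈ Set.Icc 0 Real.pi, ∀ σ, ∑ b : Fin (2 * n + 1) → Bool,
      ((rw1 n (prob θ) b : ℝ) : ℂ) * ((dTc (2 * n) b σ : ℂ) + F (Tc (2 * n) b σ))
      = F σ + (-I * N * lc n t θ 1) := by
    intro θ hθ σ
    have h1 := eig1 h hθ σ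
    have h2 := congrArg (fun x => -I * N * x) h1
    beta_reduce at h2
    rw [Finset.mul_sum] at h2
    rw [hF]
    beta_reduce
    rw [← mul_add, ← h2]
    refine Finset.sum_congr rfl fun b _ => ?_
    rw [← hNd]
    field_simp
    linear_combination (((rw1 n (prob θ) b : ℝ) : ℂ) * (dTc (2 * n) b σ : ℂ)) * Complex.I_sq
  have r1 : ∀ θ ∈ Set.Icc 0 Real.pi, ∀ σ, ∑ b : Fin (2 * n + 1) → Bool,
      ((rw1 n (prob θ) b : ℝ) : ℂ) * ((dTc (2 * n) b σ : ℂ) + (f (Tc (2 * n) b σ) : ℂ))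
      = (f σ : ℂ) + (v θ : ℂ) := by
    intro θ hθ σ
    have := congrArg (fun x : ℝ => (x : ℂ)) (hc.m1 θ hθ σ)
    push_cast at this
    exact this
  have hV : ∀ θ ∈ Set.Icc 0 Real.pi, -I * N * lc n t θ 1 = v θ := by
    intro θ hθ
    rw [← sub_eq_zero]
    refine avg0 h hθ (φ := fun σ => F σ - (f σ : ℂ)) fun σ => ?_
    have e1 := q1 θ hθ σ
    have e2 := r1 θ hθ σ
    have e3 : F σ - (f σ : ℂ) + (-I * N * lc n t θ 1 - (v θ : ℂ))
        = (F σ + (-I * N * lc n t θ 1)) - ((f σ : ℂ) + (v θ : ℂ)) := by ring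
    rw [e3, ← e1, ← e2, ← Finset.sum_sub_distrib]
    exact Finset.sum_congr rfl fun b _ => by ring
  obtain ⟨c0, hc0⟩ := harmC h (φ := fun σ => F σ - (f σ : ℂ)) (fun σ => by
    have e1 := q1 _ half_mem σ
    have e2 := r1 _ half_mem σ
    rw [hV _ half_mem] at e1
    have e3 : F σ - (f σ : ℂ) = (F σ + (v (Real.pi / 2) : ℂ)) - ((f σ : ℂ) + (v (Real.pi / 2) : ℂ)) := by
      ring
    rw [e3, ← e1, ← e2, ← Finset.sum_sub_distrib]
    exact Finset.sum_congr rfl fun b _ => by ring)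
  have hFc : ∀ σ, F σ = (f σ : ℂ) + c0 := fun σ => by
    have := hc0 σ
    beta_reduce at this
    linear_combination this
  have hl1 : lc n t θ 1 = I * (v θ : ℂ) / N := by
    rw [← hV θ hθ]
    field_simp
    linear_combination (lc n t θ 1) * Complex.I_sq
  refine ⟨hl1, ?_⟩
  -- the second equation
  set W : ℂ := -2 * N ^ 2 * (lc n t θ 2 + lc n t θ 1 ^ 2 / 2) with hW
  have q2 : ∀ σ, ∑ b : Fin (2 * n + 1) → Bool, ((rw1 n (prob θ) b : ℝ) : ℂ)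
      * ((dTc (2 * n) b σ : ℂ) ^ 2 + 2 * (dTc (2 * n) b σ : ℂ) * ((f (Tc (2 * n) b σ) : ℂ) + c0)
        + H (Tc (2 * n) b σ)) = H σ + 2 * (v θ : ℂ) * ((f σ : ℂ) + c0) + W := by
    intro σ
    have h1 := eig2 h hθ σ
    have h2 := congrArg (fun x => -2 * N ^ 2 * x) h1
    beta_reduce at h2
    rw [Finset.mul_sum] at h2
    have e : H σ + 2 * (v θ : ℂ) * ((f σ : ℂ) + c0) + W = -2 * N ^ 2 * (PowerSeries.coeff 2 (wr n w σ)
        + lc n t θ 1 * PowerSeries.coeff 1 (wr n w σ) + (lc n t θ 2 + lc n t θ 1 ^ 2 / 2)) := by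
      rw [a1 σ, hl1, ← hFc σ, hW, hH, hl1]
      field_simp
      linear_combination (2 * (v θ : ℂ) * F σ) * Complex.I_sq
    rw [e, ← h2]
    refine Finset.sum_congr rfl fun b _ => ?_
    rw [a1, a2, hFc, ← hNd]
    field_simp
    linear_combination (((rw1 n (prob θ) b : ℝ) : ℂ) * ((dTc (2 * n) b σ : ℂ) ^ 2
      + 2 * (dTc (2 * n) b σ : ℂ) * ((f (Tc (2 * n) b σ) : ℂ) + c0))) * Complex.I_sq
  have r2 : ∀ σ, ∑ b : Fin (2 * n + 1) → Bool, ((rw1 n (prob θ) b : ℝ) : ℂ)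
      * (((dTc (2 * n) b σ : ℂ) + (f (Tc (2 * n) b σ) : ℂ) - (f σ : ℂ) - (v θ : ℂ)) ^ 2
        + (g (Tc (2 * n) b σ) : ℂ)) = (g σ : ℂ) + (D θ : ℂ) := by
    intro σ
    have := congrArg (fun x : ℝ => (x : ℂ)) (hc.m2 θ hθ σ)
    push_cast at this
    exact this
  have hz : W - D θ - (v θ : ℂ) ^ 2 = 0 := by
    refine avg0 h hθ (φ := fun σ => H σ - (g σ : ℂ) - (f σ : ℂ) ^ 2 - 2 * c0 * (f σ : ℂ)) fun σ => ?_
    have e1 := q2 σ
    have e2 := r2 σ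
    have e3 := r1 θ hθ σ
    have e4 := rw1_sumC (n := n) θ
    have e5 : ∀ b : Fin (2 * n + 1) → Bool, ((rw1 n (prob θ) b : ℝ) : ℂ)
        * (H (Tc (2 * n) b σ) - (g (Tc (2 * n) b σ) : ℂ) - (f (Tc (2 * n) b σ) : ℂ) ^ 2
          - 2 * c0 * (f (Tc (2 * n) b σ) : ℂ))
        = ((rw1 n (prob θ) b : ℝ) : ℂ) * ((dTc (2 * n) b σ : ℂ) ^ 2
          + 2 * (dTc (2 * n) b σ : ℂ) * ((f (Tc (2 * n) b σ) : ℂ) + c0) + H (Tc (2 * n) b σ))
        - ((rw1 n (prob θ) b : ℝ) : ℂ) * (((dTc (2 * n) b σ : ℂ) + (f (Tc (2 * n) b σ) : ℂ)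
          - (f σ : ℂ) - (v θ : ℂ)) ^ 2 + (g (Tc (2 * n) b σ) : ℂ))
        - (2 * ((f σ : ℂ) + (v θ : ℂ)) + 2 * c0) * (((rw1 n (prob θ) b : ℝ) : ℂ)
          * ((dTc (2 * n) b σ : ℂ) + (f (Tc (2 * n) b σ) : ℂ)))
        + ((f σ : ℂ) + (v θ : ℂ)) ^ 2 * ((rw1 n (prob θ) b : ℝ) : ℂ) := by
      intro b; ring
    rw [Finset.sum_congr rfl fun b _ => e5 b, Finset.sum_add_distrib, Finset.sum_sub_distrib,
      Finset.sum_sub_distrib, ← Finset.mul_sum, ← Finset.mul_sum, e1, e2, e3, e4]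
    ring
  have hW2 : W = (D θ : ℂ) + (v θ : ℂ) ^ 2 := by linear_combination hz
  have e6 : lc n t θ 2 = -W / (2 * N ^ 2) - lc n t θ 1 ^ 2 / 2 := by
    rw [hW]; field_simp; ring
  rw [e6, hW2, hl1]
  field_simp
  linear_combination (-(v θ : ℂ) ^ 2) * Complex.I_sq

end H729I
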