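import Pool.Agent.Run7.h729.Iso.Str

/-!
# Bounds of all the Taylor coefficients of the eigenvalue, uniform in the circumference
-/

set_option autoImplicit false

namespace H729I
open H906K Pool.Agent.H974R3 Polynomial Complex

/-- weighted sup norms of the coefficients -/
noncomputable def wq (r : ℝ) (F : ℝ → PowerSeries ℂ) (k : ℕ) : ℝ :=
  if k = 0 then 0 else sn1 (fun u => PowerSeries.coeff k (F u)) * r ^ k

theorem wq_nonneg {r : ℝ} (hr : 0 ≤ r) (F : ℝ → PowerSeries ℂ) (k : ℕ) : 0 ≤ wq r F k := by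
  unfold wq
  split_ifs
  · exact le_rfl
  · exact mul_nonneg (sn_nonneg1 _) (by positivity)

theorem wq_zero (r : ℝ) (F : ℝ → PowerSeries ℂ) : wq r F 0 = 0 := if_pos rfl

theorem cv_eq {a b : ℕ → ℝ} (a0 : a 0 = 0) (b0 : b 0 = 0) (k : ℕ) :
    cv a b k = ∑ j ∈ Finset.Ico 1 k, a j * b (k - j) := by
  unfold cv
  rcases Nat.eq_zero_or_pos k with rfl | hk
  · simp [a0]
  · rw [Finset.sum_range_succ, Nat.sub_self, b0, mul_zero, add_zero, Finset.range_eq_Ico,
      Finset.sum_eq_sum_Ico_succ_bot hk, a0, zero_mul, zero_add]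

theorem wq_conv {r : ℝ} (hr : 0 ≤ r) {F G : ℝ → PowerSeries ℂ}
    (hF : ∀ k, Bd (fun u => PowerSeries.coeff k (F u)))
    (hG : ∀ k, Bd (fun u => PowerSeries.coeff k (G u))) (k : ℕ) (u : ℝ) :
    ‖∑ j ∈ Finset.Ico 1 k, ((j : ℂ) / k) * PowerSeries.coeff j (G u)
      * PowerSeries.coeff (k - j) (F u)‖ * r ^ k ≤ cv (wq r G) (wq r F) k := by
  rw [cv_eq (wq_zero _ _) (wq_zero _ _)]
  refine (mul_le_mul_of_nonneg_right (norm_sum_le _ _) (by positivity)).trans ?_
  rw [Finset.sum_mul]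
  refine Finset.sum_le_sum fun j hj => ?_
  have hj' := Finset.mem_Ico.1 hj
  have hk0 : (0 : ℝ) < k := by exact_mod_cast (by omega : 0 < k)
  unfold wq
  rw [if_neg (by omega), if_neg (by omega), norm_mul, norm_mul]
  have h1 : ‖((j : ℂ) / k)‖ ≤ 1 := by
    rw [norm_div, Complex.norm_natCast, Complex.norm_natCast, div_le_one hk0]
    exact_mod_cast hj'.2.le
  have h2 := le_sn (hG j) u
  have h3 := le_sn (hF (k - j)) u
  have h4 : r ^ k = r ^ j * r ^ (k - j) := by rw [← pow_add]; congr 1; omega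
  rw [h4]
  have h5 : ‖((j : ℂ) / k)‖ * ‖PowerSeries.coeff j (G u)‖ * ‖PowerSeries.coeff (k - j) (F u)‖
      ≤ 1 * sn1 (fun u => PowerSeries.coeff j (G u))
        * sn1 (fun u => PowerSeries.coeff (k - j) (F u)) := by
    gcongr
    exact mul_nonneg zero_le_one (sn_nonneg1 _)
  calc _ ≤ (1 * sn1 (fun u => PowerSeries.coeff j (G u))
        * sn1 (fun u => PowerSeries.coeff (k - j) (F u))) * (r ^ j * r ^ (k - j)) :=
        mul_le_mul_of_nonneg_right h5 (by positivity)
    _ = _ := by ring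

theorem wq_rec {r : ℝ} (hr : 0 ≤ r) {F : ℝ → PowerSeries ℂ}
    (h0 : ∀ u, PowerSeries.coeff 0 (F u) = 1) (hF : ∀ k, Bd (fun u => PowerSeries.coeff k (F u)))
    (hL : ∀ k, Bd (fun u => PowerSeries.coeff k (lgs (F u)))) (k : ℕ) :
    wq r F k ≤ wq r (fun u => lgs (F u)) k + cv (wq r (fun u => lgs (F u))) (wq r F) k ∧
    wq r (fun u => lgs (F u)) k ≤ wq r F k + cv (wq r (fun u => lgs (F u))) (wq r F) k := by
  rcases Nat.eq_zero_or_pos k with rfl | hk
  · rw [wq_zero, wq_zero]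
    have := cv_nonneg (wq_nonneg hr (fun u => lgs (F u))) (wq_nonneg hr F) 0
    constructor <;> linarith
  have hc := wq_conv hr hF hL k
  set c := cv (wq r (fun u => lgs (F u))) (wq r F) k with hcdef
  have e1 : wq r F k = sn1 (fun u => PowerSeries.coeff k (F u)) * r ^ k := if_neg (by omega)
  have e2 : wq r (fun u => lgs (F u)) k = sn1 (fun u => PowerSeries.coeff k (lgs (F u))) * r ^ k :=
    if_neg (by omega)
  rcases eq_or_lt_of_le hr with hr0 | hr0
  · rw [e1, e2, ← hr0, zero_pow (by omega), mul_zero, mul_zero, zero_add]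
    have : 0 ≤ c := (mul_nonneg (norm_nonneg _) (by positivity)).trans (hc 0)
    exact ⟨this, this⟩
  have hrk : 0 < r ^ k := by positivity
  rw [e1, e2]
  constructor
  · rw [← le_div_iff₀ hrk]
    refine sn_le fun u => ?_
    rw [le_div_iff₀ hrk, lgs_rec (h0 u) hk]
    have h1 := le_sn (hL k) u
    have h2 := hc u
    have h3 := norm_add_le (PowerSeries.coeff k (lgs (F u))) (∑ j ∈ Finset.Ico 1 k, ((j : ℂ) / k)
      * PowerSeries.coeff j (lgs (F u)) * PowerSeries.coeff (k - j) (F u))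
    nlinarith [mul_le_mul_of_nonneg_right h3 hrk.le, mul_le_mul_of_nonneg_right h1 hrk.le]
  · rw [← le_div_iff₀ hrk]
    refine sn_le fun u => ?_
    rw [le_div_iff₀ hrk]
    have h0' := lgs_rec (h0 u) hk
    have h1 := le_sn (hF k) u
    have h2 := hc u
    have h3 := norm_sub_le (PowerSeries.coeff k (F u)) (∑ j ∈ Finset.Ico 1 k, ((j : ℂ) / k)
      * PowerSeries.coeff j (lgs (F u)) * PowerSeries.coeff (k - j) (F u))
    have h4 : PowerSeries.coeff k (F u) - (∑ j ∈ Finset.Ico 1 k, ((j : ℂ) / k)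
      * PowerSeries.coeff j (lgs (F u)) * PowerSeries.coeff (k - j) (F u))
        = PowerSeries.coeff k (lgs (F u)) := by rw [h0']; ring
    rw [h4] at h3
    nlinarith [mul_le_mul_of_nonneg_right h3 hrk.le, mul_le_mul_of_nonneg_right h1 hrk.le]

/-- the majorant of the logarithm -/
noncomputable def gm (y : ℕ → ℝ) : ℕ → ℝ
  | k => y k + ∑ j : Fin k, gm y j * y (k - j)
decreasing_by exact j.2

theorem gm_eq (y : ℕ → ℝ) (k : ℕ) : gm y k = y k + ∑ j ∈ Finset.range k, gm y j * y (k - j) := by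
  rw [gm, Finset.sum_range]

theorem gm_nonneg {y : ℕ → ℝ} (hy : ∀ k, 0 ≤ y k) (k : ℕ) : 0 ≤ gm y k := by
  induction k using Nat.strong_induction_on with
  | _ k ih =>
    rw [gm_eq]
    exact add_nonneg (hy k) (Finset.sum_nonneg fun j hj =>
      mul_nonneg (ih j (Finset.mem_range.1 hj)) (hy _))

theorem gm_zero {y : ℕ → ℝ} (hy : y 0 = 0) : gm y 0 = 0 := by
  rw [gm_eq]; simp [hy]

theorem gm_le {y : ℕ → ℝ} (h0 : y 0 = 0) (k : ℕ) : gm y k ≤ y k + cv (gm y) y k := by
  rw [gm_eq]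
  unfold cv
  rw [Finset.sum_range_succ, Nat.sub_self, h0, mul_zero, add_zero]

theorem gm_bound {y : ℕ → ℝ} (hy : ∀ k, 0 ≤ y k) (h0 : y 0 = 0) {r w : ℝ} (hr : 0 ≤ r)
    (hw : 0 ≤ w) (hw1 : w ≤ 1) {F : PowerSeries ℂ} (hF0 : PowerSeries.coeff 0 F = 1)
    (hF : ∀ k, 1 ≤ k → ‖PowerSeries.coeff k F‖ * r ^ k ≤ y k * w) (k : ℕ) :
    ‖PowerSeries.coeff k (lgs F)‖ * r ^ k ≤ gm y k * w := by
  induction k using Nat.strong_induction_on with
  | _ k ih =>
    rcases Nat.eq_zero_or_pos k with rfl | hk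
    · rw [lgs_zero, norm_zero, zero_mul]
      exact mul_nonneg (gm_nonneg hy 0) hw
    have h1 := lgs_rec hF0 hk
    have h2 : PowerSeries.coeff k (lgs F) = PowerSeries.coeff k F - ∑ j ∈ Finset.Ico 1 k,
        ((j : ℂ) / k) * PowerSeries.coeff j (lgs F) * PowerSeries.coeff (k - j) F := by
      rw [h1]; ring
    rw [h2]
    have h3 := norm_sub_le (PowerSeries.coeff k F) (∑ j ∈ Finset.Ico 1 k,
        ((j : ℂ) / k) * PowerSeries.coeff j (lgs F) * PowerSeries.coeff (k - j) F)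
    have h4 : ‖∑ j ∈ Finset.Ico 1 k, ((j : ℂ) / k) * PowerSeries.coeff j (lgs F)
        * PowerSeries.coeff (k - j) F‖ * r ^ k ≤ ∑ j ∈ Finset.Ico 1 k, gm y j * y (k - j) * w := by
      refine (mul_le_mul_of_nonneg_right (norm_sum_le _ _) (by positivity)).trans ?_
      rw [Finset.sum_mul]
      refine Finset.sum_le_sum fun j hj => ?_
      have hj' := Finset.mem_Ico.1 hj
      have hk0 : (0 : ℝ) < k := by exact_mod_cast (by omega : 0 < k)
      rw [norm_mul, norm_mul]
      have h1 : ‖((j : ℂ) / k)‖ ≤ 1 := by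
        rw [norm_div, Complex.norm_natCast, Complex.norm_natCast, div_le_one hk0]
        exact_mod_cast hj'.2.le
      have h5 := ih j hj'.2
      have h6 := hF (k - j) (by omega)
      have h7 : r ^ k = r ^ j * r ^ (k - j) := by rw [← pow_add]; congr 1; omega
      have h8 : 0 ≤ y (k - j) * w := mul_nonneg (hy _) hw
      have h9 : 0 ≤ gm y j * w := mul_nonneg (gm_nonneg hy _) hw
      calc ‖((j : ℂ) / k)‖ * ‖PowerSeries.coeff j (lgs F)‖ * ‖PowerSeries.coeff (k - j) F‖ * r ^ k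
          = ‖((j : ℂ) / k)‖ * ((‖PowerSeries.coeff j (lgs F)‖ * r ^ j)
            * (‖PowerSeries.coeff (k - j) F‖ * r ^ (k - j))) := by rw [h7]; ring
        _ ≤ 1 * ((gm y j * w) * (y (k - j) * w)) := by
            apply mul_le_mul h1 _ (by positivity) zero_le_one
            exact mul_le_mul h5 h6 (by positivity) h9
        _ = (gm y j * y (k - j) * w) * w := by ring
        _ ≤ (gm y j * y (k - j) * w) * 1 := by
            apply mul_le_mul_of_nonneg_left hw1
            exact mul_nonneg (mul_nonneg (gm_nonneg hy _) (hy _)) hw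
        _ = _ := mul_one _
    have h5 : gm y k * w = y k * w + ∑ j ∈ Finset.Ico 1 k, gm y j * y (k - j) * w := by
      rw [gm_eq, Finset.range_eq_Ico, Finset.sum_eq_sum_Ico_succ_bot hk, gm_zero h0, zero_mul,
        zero_add, add_mul, Finset.sum_mul]
    rw [h5]
    have h6 := hF k hk
    have h7 := mul_le_mul_of_nonneg_right h3 (show 0 ≤ r ^ k by positivity)
    rw [add_mul] at h7
    linarith

/-! ## the coefficients of `2 - 2 cos 3α` -/

/-- the coefficients of `2 - 2 cos 3α` -/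
noncomputable def kc : PowerSeries ℂ := 2 - (expI 3 + expI (-3))

theorem kc_coeff (m : ℕ) : PowerSeries.coeff m kc
    = (if m = 0 then 2 else 0) - ((3 * I) ^ m / (m.factorial : ℂ) + (-3 * I) ^ m / (m.factorial : ℂ)) := by
  unfold kc
  rw [map_sub, map_add, e4_expI, e4_expI]
  congr 1
  have : (2 : PowerSeries ℂ) = PowerSeries.C 2 := (map_ofNat PowerSeries.C 2).symm
  rw [this, PowerSeries.coeff_C]

theorem kc0 : PowerSeries.coeff 0 kc = 0 := by rw [kc_coeff]; simp; norm_num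

theorem kc1 : PowerSeries.coeff 1 kc = 0 := by rw [kc_coeff]; simp

theorem kc2 : PowerSeries.coeff 2 kc = 9 := by
  rw [kc_coeff]
  have hI : I ^ 2 = -1 := I_sq
  simp only [Nat.factorial, mul_pow]
  norm_num [hI]

theorem kc3 : PowerSeries.coeff 3 kc = 0 := by
  rw [kc_coeff]
  have hI : I ^ 3 = -I := by rw [pow_succ, I_sq]; ring
  simp only [mul_pow, hI]
  norm_num
  ring

theorem fac_bound (m : ℕ) : (3 : ℝ) ^ (m + 4) / ((m + 4).factorial : ℝ) ≤ 3.375 := by
  induction m with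
  | zero => norm_num [Nat.factorial]
  | succ m ih =>
    have e : (3 : ℝ) ^ (m + 1 + 4) / ((m + 1 + 4).factorial : ℝ)
        = ((3 : ℝ) ^ (m + 4) / ((m + 4).factorial : ℝ)) * (3 / ((m : ℝ) + 5)) := by
      have : (m + 1 + 4).factorial = (m + 5) * (m + 4).factorial := rfl
      rw [this]
      push_cast
      have h1 : ((m + 4).factorial : ℝ) ≠ 0 := by positivity
      have h2 : (m : ℝ) + 5 ≠ 0 := by positivity
      rw [show m + 1 + 4 = (m + 4) + 1 from rfl, pow_succ]
      field_simp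
    rw [e]
    have h1 : (3 : ℝ) / ((m : ℝ) + 5) ≤ 1 := by
      rw [div_le_one (by positivity)]
      have : (0 : ℝ) ≤ m := Nat.cast_nonneg m
      linarith
    have h2 : 0 ≤ (3 : ℝ) / ((m : ℝ) + 5) := by positivity
    have h3 : 0 ≤ (3 : ℝ) ^ (m + 4) / ((m + 4).factorial : ℝ) := by positivity
    nlinarith

theorem kc_bound (m : ℕ) : ‖PowerSeries.coeff (m + 4) kc‖ ≤ 6.75 := by
  rw [kc_coeff, if_neg (by omega), zero_sub, norm_neg]
  refine (norm_add_le _ _).trans ?_
  rw [norm_div, norm_div, norm_pow, norm_pow, norm_mul, norm_mul, norm_I, norm_neg,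
    Complex.norm_natCast]
  have : ‖(3 : ℂ)‖ = 3 := by norm_num
  rw [this, mul_one]
  have := fac_bound m
  linarith

end H729I
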