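import Pool.Agent.Run7.h729.Iso.Ind

/-!
# Bounds of all the Taylor coefficients of the eigenvalue, second part
-/

set_option autoImplicit false

namespace H729I
open H906K Pool.Agent.H974R3 Polynomial Complex

variable {n : ℕ} {t Q : (PowerSeries ℂ)[X]} {s1 s2 V1 V2 : ℝ[X]}

/-- what is known about the eigenvalue -/
structure Datq (n : ℕ) (t Q : (PowerSeries ℂ)[X]) (s1 s2 V1 V2 : ℝ[X]) : Prop where
  h : TSpec n t
  hQ : QSpec n t Q
  hR : RPert n s1 s2 V1 V2
  hs : C (1 / (2 * n + 1 : ℂ)) * e4_cf 1 t = s1.map (algebraMap ℝ ℂ)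

theorem dat_exists (h : TSpec n t) : ∃ Q s1 s2 V1 V2, Datq n t Q s1 s2 V1 V2 := by
  obtain ⟨Q, hQ⟩ := qspec h
  have hP := pert_of_tspec' n t h
  obtain ⟨s1, s2, V1, V2, hR, hs1, -⟩ := rpert_of_pert n _ _ hP
  exact ⟨Q, s1, s2, V1, V2, h, hQ, hR, hs1⟩

/-- the first coefficient on the line -/
noncomputable def X1 (n : ℕ) (s1 : ℝ[X]) (u : ℝ) : ℝ := (Xc n s1 u).re

theorem tz_one (d : Datq n t Q s1 s2 V1 V2) (z : ℂ) : PowerSeries.coeff 1 (tz n t z) = Xc n s1 z := by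
  rw [tz_coeff, pow_one, d.hs]
  rfl

theorem X1_eq (d : Datq n t Q s1 s2 V1 V2) (u : ℝ) : Xc n s1 u = (X1 n s1 u : ℂ) := by
  obtain ⟨-, -, h3, -⟩ := Xc_an n s1 (g5_deg d.hR.pert.deg1)
  apply Complex.ext
  · simp [X1]
  · rw [h3 u]; simp

theorem X1_le (d : Datq n t Q s1 s2 V1 V2) (u : ℝ) : |X1 n s1 u| ≤ √3 :=
  (sys_bounds (by omega) (sys_of_rpert d.hR)).1 u

/-- the first coefficient of the product -/
noncomputable def Ax (n : ℕ) (s1 : ℝ[X]) (u : ℝ) : ℂ :=
  Xc n s1 (u + Real.pi / 3 * I) + Xc n s1 (u - Real.pi / 3 * I)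

theorem Ax_le (d : Datq n t Q s1 s2 V1 V2) (u : ℝ) : ‖Ax n s1 u‖ ≤ 2 * √3 * |ta u| ^ (2 * n + 1) := by
  unfold Ax
  rw [g5_A1 d.hR u, Complex.norm_real, Real.norm_eq_abs]
  exact (sys_bounds (by omega) (sys_of_rpert d.hR)).2.2.2.1 u

theorem u_half (u : ℝ) : |(u : ℂ).im| ≤ Real.pi / 2 := by
  rw [Complex.ofReal_im, abs_zero]; positivity

theorem u_p (u : ℝ) : |((u : ℂ) + Real.pi / 3 * I).im| ≤ Real.pi / 2 ∧
    |((u : ℂ) + Real.pi / 3 * I).im| < 2 * Real.pi / 5 ∧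
    |((u : ℂ) + Real.pi / 3 * I).im| ≤ 2 * Real.pi / 3 := by
  have := Real.pi_pos
  rw [g2_im_add, Complex.ofReal_im, zero_add, abs_of_pos (by positivity)]
  refine ⟨?_, ?_, ?_⟩ <;> linarith

theorem u_m (u : ℝ) : |((u : ℂ) - Real.pi / 3 * I).im| ≤ Real.pi / 2 ∧
    |((u : ℂ) - Real.pi / 3 * I).im| < 2 * Real.pi / 5 ∧
    |((u : ℂ) - Real.pi / 3 * I).im| ≤ 2 * Real.pi / 3 := by
  have := Real.pi_pos
  rw [g2_im_sub, Complex.ofReal_im, zero_sub, abs_neg, abs_of_pos (by positivity)]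
  refine ⟨?_, ?_, ?_⟩ <;> linarith

theorem tz_mulR (d : Datq n t Q s1 s2 V1 V2) (u : ℝ) :
    tz n t (u + Real.pi / 3 * I) * tz n t (u - Real.pi / 3 * I)
      = 1 + PowerSeries.X * (PowerSeries.C (Ax n s1 u) * Bz n Q V1 u) :=
  tz_mul d.h d.hQ d.hR (u_half u)

/-- the product of the two values of `B` -/
noncomputable def Rh (n : ℕ) (Q : (PowerSeries ℂ)[X]) (V1 : ℝ[X]) (u : ℝ) : PowerSeries ℂ :=
  Bz n Q V1 (u + Real.pi / 3 * I) * Bz n Q V1 (u - Real.pi / 3 * I)

theorem nic_line {f : ℂ → ℂ} (h : Nic f) : Bd (fun u : ℝ => f (u + Real.pi / 3 * I)) ∧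
    Bd (fun u : ℝ => f (u - Real.pi / 3 * I)) := by
  have hpi := Real.pi_pos
  constructor
  · have := h.bd_line (c := Real.pi / 3) (by rw [abs_of_pos (by positivity)]; linarith)
    push_cast at this
    exact this
  · have := h.bd_line (c := -(Real.pi / 3)) (by rw [abs_neg, abs_of_pos (by positivity)]; linarith)
    push_cast at this
    simpa only [neg_mul, ← sub_eq_add_neg] using this

theorem Bd.add {f g : ℝ → ℂ} (hf : Bd f) (hg : Bd g) : Bd (fun u => f u + g u) := by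
  obtain ⟨a, ha⟩ := hf
  obtain ⟨b, hb⟩ := hg
  refine ⟨a + b, ?_⟩
  rintro _ ⟨u, rfl⟩
  exact (norm_add_le _ _).trans (add_le_add (ha ⟨u, rfl⟩) (hb ⟨u, rfl⟩))

theorem Bd.mul {f g : ℝ → ℂ} (hf : Bd f) (hg : Bd g) : Bd (fun u => f u * g u) := by
  refine ⟨sn1 f * sn1 g, ?_⟩
  rintro _ ⟨u, rfl⟩
  beta_reduce
  rw [norm_mul]
  exact mul_le_mul (le_sn hf u) (le_sn hg u) (norm_nonneg _) (sn_nonneg1 _)

theorem Bd.sum {ι : Type*} (s : Finset ι) {f : ι → ℝ → ℂ} (hf : ∀ i ∈ s, Bd (f i)) :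
    Bd (fun u => ∑ i ∈ s, f i u) := by
  classical
  induction s using Finset.induction_on with
  | empty => exact ⟨0, by rintro _ ⟨u, rfl⟩; simp⟩
  | insert a s ha ih =>
    have h1 := (hf a (Finset.mem_insert_self a s)).add
      (ih fun i hi => hf i (Finset.mem_insert_of_mem hi))
    simpa only [Finset.sum_insert ha] using h1

theorem bd_Rh (d : Datq n t Q s1 s2 V1 V2) (k : ℕ) :
    Bd (fun u => PowerSeries.coeff k (Rh n Q V1 u)) := by
  have e : (fun u : ℝ => PowerSeries.coeff k (Rh n Q V1 u)) = fun u : ℝ =>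
      ∑ p ∈ Finset.HasAntidiagonal.antidiagonal k, PowerSeries.coeff p.1 (Bz n Q V1 (u + Real.pi / 3 * I))
        * PowerSeries.coeff p.2 (Bz n Q V1 (u - Real.pi / 3 * I)) := by
    funext u
    unfold Rh
    rw [PowerSeries.coeff_mul]
  rw [e]
  exact Bd.sum _ fun p _ => ((nic_line (nic_Bz d.hQ d.hR p.1)).1).mul
    ((nic_line (nic_Bz d.hQ d.hR p.2)).2)

theorem Bz_zero' (d : Datq n t Q s1 s2 V1 V2) {z : ℂ} (hz : |z.im| ≤ Real.pi / 2) :
    PowerSeries.coeff 0 (Bz n Q V1 z) = 1 := Bz_zero d.h d.hQ d.hR d.hs hz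

theorem Rh_zero (d : Datq n t Q s1 s2 V1 V2) (u : ℝ) : PowerSeries.coeff 0 (Rh n Q V1 u) = 1 := by
  unfold Rh
  rw [e4_mul0, Bz_zero' d (u_p u).1, Bz_zero' d (u_m u).1, one_mul]

theorem nic_lB (d : Datq n t Q s1 s2 V1 V2) (k : ℕ) :
    Nic (fun z => PowerSeries.coeff k (lgs (Bz n Q V1 z))) := by
  have hpi := Real.pi_pos
  exact nic_lgs (fun z hz => Bz_zero' d (by linarith)) (nic_Bz d.hQ d.hR) k

theorem nic_lt (d : Datq n t Q s1 s2 V1 V2) (k : ℕ) :
    Nic (fun z => PowerSeries.coeff k (lgs (tz n t z))) := by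
  have hpi := Real.pi_pos
  exact nic_lgs (fun z hz => tz_zero d.h (by linarith)) (nic_tz d.h) k

theorem lgs_Rh (d : Datq n t Q s1 s2 V1 V2) (u : ℝ) : lgs (Rh n Q V1 u)
    = lgs (Bz n Q V1 (u + Real.pi / 3 * I)) + lgs (Bz n Q V1 (u - Real.pi / 3 * I)) :=
  lgs_mul (Bz_zero' d (u_p u).1) (Bz_zero' d (u_m u).1)

theorem bd_lRh (d : Datq n t Q s1 s2 V1 V2) (k : ℕ) :
    Bd (fun u => PowerSeries.coeff k (lgs (Rh n Q V1 u))) := by
  have h := ((nic_line (nic_lB d k)).1).add ((nic_line (nic_lB d k)).2)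
  refine (congrArg Bd ?_).mp h
  funext u
  rw [lgs_Rh d, map_add]

theorem lgs_tz (d : Datq n t Q s1 s2 V1 V2) (u : ℝ) :
    lgs (tz n t (u + Real.pi / 3 * I)) + lgs (tz n t (u - Real.pi / 3 * I))
      = lgs (1 + PowerSeries.X * (PowerSeries.C (Ax n s1 u) * Bz n Q V1 u)) := by
  rw [← tz_mulR d, lgs_mul (tz_zero d.h (u_p u).2.2) (tz_zero d.h (u_m u).2.2)]

/-- the relation between `R` and the eigenvalue -/
theorem Rh_rel (d : Datq n t Q s1 s2 V1 V2) (u : ℝ) (k : ℕ) :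
    ((9 + X1 n s1 u ^ 2 : ℝ) : ℂ) * PowerSeries.coeff k (Rh n Q V1 u)
      = PowerSeries.coeff (k + 2) ((tz n t u - 1) ^ 2 + kc * tz n t u) := by
  have h1 := Bz_prod d.h d.hQ d.hR u
  set A := Xc n s1 (u + Real.pi / 3 * I + Real.pi / 3 * I)
        + Xc n s1 (u + Real.pi / 3 * I - Real.pi / 3 * I) with hA
  set B := Xc n s1 (u - Real.pi / 3 * I + Real.pi / 3 * I)
        + Xc n s1 (u - Real.pi / 3 * I - Real.pi / 3 * I) with hB
  have h2 : PowerSeries.X ^ 2 * (PowerSeries.C (A * B) * Rh n Q V1 u)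
      = (tz n t u - 1) ^ 2 + kc * tz n t u := by
    unfold kc Rh
    rw [← h1, map_mul]
    ring
  have h3 : ∀ m, PowerSeries.coeff (m + 2) ((tz n t u - 1) ^ 2 + kc * tz n t u)
      = A * B * PowerSeries.coeff m (Rh n Q V1 u) := by
    intro m
    rw [← h2, PowerSeries.coeff_X_pow_mul, PowerSeries.coeff_C_mul]
  have h4 := h3 0
  rw [Rh_zero d, mul_one] at h4
  have h5 : PowerSeries.coeff (0 + 2) ((tz n t u - 1) ^ 2 + kc * tz n t u)
      = ((9 + X1 n s1 u ^ 2 : ℝ) : ℂ) := by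
    rw [map_add, pow_two, zero_add, e4_mul2, e4_mul2, kc0, kc1, kc2]
    simp only [map_sub, tz_one d, X1_eq d, tz_zero d.h (show |((u : ℝ) : ℂ).im| ≤ 2 * Real.pi / 3 by
      rw [Complex.ofReal_im, abs_zero]; positivity)]
    have c0 : PowerSeries.coeff 0 (1 : PowerSeries ℂ) = 1 := PowerSeries.coeff_zero_one
    have c1 : PowerSeries.coeff 1 (1 : PowerSeries ℂ) = 0 := by
      rw [PowerSeries.coeff_one, if_neg one_ne_zero]
    rw [c0, c1]
    push_cast
    ring
  rw [h5] at h4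
  rw [h3 k, h4]

/-- weights of the coefficients of `2 - 2 cos 3α` -/
noncomputable def sq (r : ℝ) (k : ℕ) : ℝ := if k < 2 then 0 else 6.75 * r ^ k

theorem sq_nonneg {r : ℝ} (hr : 0 ≤ r) (k : ℕ) : 0 ≤ sq r k := by
  unfold sq; split_ifs
  · exact le_rfl
  · positivity

theorem ps_sq {r : ℝ} (hr : 0 < r) (hr1 : r ≤ 1 / 10000) (K : ℕ) : ps (sq r) K ≤ r := by
  have h : ∀ K, (1 - r) * ps (sq r) (K + 1) = 6.75 * r ^ 2 * (1 - r ^ K) := by
    intro K
    induction K with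
    | zero =>
      rw [ps_succ, ps_zero]
      have e0 : sq r 0 = 0 := if_pos (by norm_num)
      have e1 : sq r (0 + 1) = 0 := if_pos (by norm_num)
      rw [e0, e1]
      ring
    | succ K ih =>
      rw [ps_succ, mul_add, ih]
      have e0 : sq r (K + 1 + 1) = 6.75 * r ^ (K + 1 + 1) := if_neg (by omega)
      rw [e0]
      ring
  have h1 := h K
  have h2 : ps (sq r) K ≤ ps (sq r) (K + 1) := ps_le (sq_nonneg hr.le) (Nat.le_succ K)
  have h3 : 0 ≤ r ^ K := by positivity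
  have h4 := ps_nonneg (sq_nonneg hr.le) (K + 1)
  have h5 : (1 - r) * ps (sq r) (K + 1) ≤ (1 - r) * r := by
    rw [h1]
    have : 6.75 * r ^ 2 * (1 - r ^ K) ≤ 6.75 * r ^ 2 * 1 := by
      apply mul_le_mul_of_nonneg_left _ (by positivity)
      linarith
    nlinarith
  have h6 := le_of_mul_le_mul_left h5 (by linarith)
  linarith

/-- the inequality for `R` -/
theorem r8 (d : Datq n t Q s1 s2 V1 V2) {r : ℝ} (hr : 0 < r) {k : ℕ} (hk : 1 ≤ k) :
    wq r (Rh n Q V1) k ≤ 0.28869 * (wq r (fun u : ℝ => tz n t u) (k + 1) / r)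
      + (1 / 9) * (cv (fun j => if j = 0 then 0 else wq r (fun u : ℝ => tz n t u) (j + 1) / r)
        (fun j => if j = 0 then 0 else wq r (fun u : ℝ => tz n t u) (j + 1) / r) k
        + 9 * wq r (fun u : ℝ => tz n t u) k + sq r k
        + cv (sq r) (wq r (fun u : ℝ => tz n t u)) k) := by
  have hb : ∀ j, Bd (fun u : ℝ => PowerSeries.coeff j (tz n t u)) := fun j => (nic_tz d.h j).bd
  have hs3 : √3 ≤ 1.7321 := by
    rw [Real.sqrt_le_left (by norm_num)]; norm_num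
  have hs30 : 0 ≤ √3 := Real.sqrt_nonneg 3
  have hs3s : √3 * √3 = 3 := Real.mul_self_sqrt (by norm_num)
  set T := wq r (fun u : ℝ => tz n t u) with hT
  have hrk : 0 < r ^ k := by positivity
  have hTe : ∀ j, 1 ≤ j → ∀ u : ℝ, ‖PowerSeries.coeff j (tz n t u)‖ * r ^ j ≤ T j := by
    intro j hj u
    rw [hT]
    unfold wq
    rw [if_neg (by omega)]
    exact mul_le_mul_of_nonneg_right (le_sn (hb j) u) (by positivity)
  have hT0 : ∀ j, 0 ≤ T j := fun j => wq_nonneg hr.le _ j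
  have e1 : wq r (Rh n Q V1) k = sn1 (fun u => PowerSeries.coeff k (Rh n Q V1 u)) * r ^ k :=
    if_neg (by omega)
  rw [e1, ← le_div_iff₀ hrk]
  refine sn_le fun u => ?_
  rw [le_div_iff₀ hrk]
  obtain ⟨m, rfl⟩ : ∃ m, k = m + 1 := ⟨k - 1, by omega⟩
  have z0 : PowerSeries.coeff 0 (tz n t (u : ℂ)) = 1 :=
    tz_zero d.h (show |((u : ℝ) : ℂ).im| ≤ 2 * Real.pi / 3 by
      rw [Complex.ofReal_im, abs_zero]; positivity)
  set x := X1 n s1 u with hx
  have hx3 : |x| ≤ √3 := X1_le d u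
  have hrel := Rh_rel d u (m + 1)
  rw [← hx] at hrel
  -- the coefficients
  set a : ℕ → ℂ := fun j => PowerSeries.coeff j (tz n t (u : ℂ)) with ha
  have ha1 : a 1 = (x : ℂ) := by rw [ha]; dsimp only; rw [tz_one d, X1_eq d]
  have hd : ∀ j, PowerSeries.coeff j (tz n t (u : ℂ) - 1) = if j = 0 then 0 else a j := by
    intro j
    rw [map_sub, PowerSeries.coeff_one]
    split_ifs with hj
    · rw [hj, z0, sub_self]
    · rw [sub_zero]
  have p1 : PowerSeries.coeff (m + 1 + 2) ((tz n t (u : ℂ) - 1) ^ 2)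
      = 2 * a 1 * a (m + 2) + ∑ j ∈ Finset.range m, a (j + 2) * a (m + 1 - j) := by
    rw [pow_two, PowerSeries.coeff_mul, Finset.Nat.sum_antidiagonal_eq_sum_range_succ
      (fun i j => PowerSeries.coeff i (tz n t (u : ℂ) - 1) * PowerSeries.coeff j (tz n t (u : ℂ) - 1))]
    simp only [hd]
    rw [Finset.sum_range_succ, Finset.sum_range_succ, Finset.sum_range_succ', Finset.sum_range_succ']
    have q1 : m + 1 + 2 - (m + 1 + 2) = 0 := by omega
    have q2 : m + 1 + 2 - (m + 1 + 1) = 1 := by omega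
    rw [q1, q2]
    simp only [if_true, if_neg (Nat.succ_ne_zero _), mul_zero, zero_mul, add_zero, one_ne_zero,
      if_false, zero_add, Nat.add_eq_zero_iff, and_false, OfNat.ofNat_ne_zero]
    have q3 : m + 1 + 2 - 1 = m + 2 := by omega
    rw [q3, if_neg (by omega)]
    have q4 : ∑ j ∈ Finset.range m, a (j + 1 + 1) * (if m + 1 + 2 - (j + 1 + 1) = 0 then 0
        else a (m + 1 + 2 - (j + 1 + 1))) = ∑ j ∈ Finset.range m, a (j + 2) * a (m + 1 - j) := by
      refine Finset.sum_congr rfl fun j hj => ?_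
      have := Finset.mem_range.1 hj
      rw [if_neg (by omega)]
      congr 2
      omega
    rw [q4]
    ring
  have p2 : PowerSeries.coeff (m + 1 + 2) (kc * tz n t (u : ℂ))
      = 9 * a (m + 1) + ∑ j ∈ Finset.range m, PowerSeries.coeff (j + 4) kc * a (m - 1 - j) := by
    rw [PowerSeries.coeff_mul, Finset.Nat.sum_antidiagonal_eq_sum_range_succ
      (fun i j => PowerSeries.coeff i kc * PowerSeries.coeff j (tz n t (u : ℂ)))]
    rw [Finset.sum_range_succ', Finset.sum_range_succ', Finset.sum_range_succ',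
      Finset.sum_range_succ']
    simp only [zero_add]
    rw [kc0, kc1, kc2, kc3, zero_mul, zero_mul, zero_mul, add_zero, add_zero, add_zero]
    have q3 : m + 1 + 2 - 2 = m + 1 := by omega
    rw [q3, add_comm]
    congr 1
    refine Finset.sum_congr rfl fun j hj => ?_
    have := Finset.mem_range.1 hj
    have q4 : m + 1 + 2 - (j + 1 + 1 + 1 + 1) = m - 1 - j := by omega
    rw [q4]
  -- the bounds
  have b1 : ‖∑ j ∈ Finset.range m, a (j + 2) * a (m + 1 - j)‖ * r ^ (m + 1)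
      ≤ cv (fun j => if j = 0 then 0 else T (j + 1) / r)
        (fun j => if j = 0 then 0 else T (j + 1) / r) (m + 1) := by
    refine (mul_le_mul_of_nonneg_right (norm_sum_le _ _) hrk.le).trans ?_
    rw [cv_eq (by simp) (by simp), Finset.sum_Ico_eq_sum_range, Nat.add_sub_cancel, Finset.sum_mul]
    refine Finset.sum_le_sum fun j hj => ?_
    have hj' := Finset.mem_range.1 hj
    rw [if_neg (by omega), if_neg (by omega), norm_mul]
    have h1 := hTe (j + 2) (by omega) u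
    have h2 := hTe (m + 1 - j) (by omega) u
    have e3 : 1 + j + 1 = j + 2 := by omega
    have e4 : m + 1 - (1 + j) + 1 = m + 1 - j := by omega
    rw [e3, e4]
    have e5 : r ^ (m + 1) = r ^ (j + 1) * r ^ (m - j) := by rw [← pow_add]; congr 1; omega
    have e6 : r ^ (j + 2) = r ^ (j + 1) * r := pow_succ _ _
    have e7 : r ^ (m + 1 - j) = r ^ (m - j) * r := by
      rw [← pow_succ]; congr 1; omega
    rw [e6] at h1
    rw [e7] at h2
    have h1' : ‖a (j + 2)‖ * r ^ (j + 1) ≤ T (j + 2) / r := by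
      rw [le_div_iff₀ hr, mul_assoc]; exact h1
    have h2' : ‖a (m + 1 - j)‖ * r ^ (m - j) ≤ T (m + 1 - j) / r := by
      rw [le_div_iff₀ hr, mul_assoc]; exact h2
    calc ‖a (j + 2)‖ * ‖a (m + 1 - j)‖ * r ^ (m + 1)
        = (‖a (j + 2)‖ * r ^ (j + 1)) * (‖a (m + 1 - j)‖ * r ^ (m - j)) := by rw [e5]; ring
      _ ≤ _ := mul_le_mul h1' h2' (by positivity) (div_nonneg (hT0 _) hr.le)
  have b2 : ‖∑ j ∈ Finset.range m, PowerSeries.coeff (j + 4) kc * a (m - 1 - j)‖ * r ^ (m + 1)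
      ≤ sq r (m + 1) + cv (sq r) T (m + 1) := by
    refine (mul_le_mul_of_nonneg_right (norm_sum_le _ _) hrk.le).trans ?_
    have hsq : ∀ j, sq r (j + 2) = 6.75 * r ^ (j + 2) := fun j => if_neg (by omega)
    have e2 : cv (sq r) T (m + 1) = ∑ j ∈ Finset.range m, sq r (j + 2) * T (m - 1 - j) := by
      unfold cv
      rw [Finset.sum_range_succ', Finset.sum_range_succ']
      have w0 : sq r 0 = 0 := if_pos (by norm_num)
      have w1 : sq r (0 + 1) = 0 := if_pos (by norm_num)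
      rw [w0, w1, zero_mul, zero_mul, add_zero, add_zero]
      refine Finset.sum_congr rfl fun j hj => ?_
      have q4 : m + 1 - (j + 1 + 1) = m - 1 - j := by omega
      rw [q4]
    have e3 : ∑ j ∈ Finset.range m, (if j = m - 1 then sq r (m + 1) else 0) ≤ sq r (m + 1) := by
      rw [Finset.sum_ite_eq']
      split_ifs
      · exact le_rfl
      · exact sq_nonneg hr.le _
    rw [e2, Finset.sum_mul]
    have e4 : ∑ j ∈ Finset.range m, ‖PowerSeries.coeff (j + 4) kc * a (m - 1 - j)‖ * r ^ (m + 1)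
        ≤ ∑ j ∈ Finset.range m, ((if j = m - 1 then sq r (m + 1) else 0)
          + sq r (j + 2) * T (m - 1 - j)) := by
      refine Finset.sum_le_sum fun j hj => ?_
      have hj' := Finset.mem_range.1 hj
      rw [norm_mul, hsq j]
      have h0 := kc_bound j
      split_ifs with hjm
      · have q : m - 1 - j = 0 := by omega
        rw [q, ha]
        dsimp only
        rw [z0, norm_one, mul_one]
        have : sq r (m + 1) = 6.75 * r ^ (m + 1) := if_neg (by omega)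
        rw [this]
        have h1 := hT0 0
        have h2 : 0 ≤ 6.75 * r ^ (j + 2) * T 0 := by positivity
        have h3 := mul_le_mul_of_nonneg_right h0 hrk.le
        linarith
      · have h1 := hTe (m - 1 - j) (by omega) u
        have e5 : r ^ (m + 1) = r ^ (j + 2) * r ^ (m - 1 - j) := by
          rw [← pow_add]; congr 1; omega
        rw [zero_add, e5]
        calc ‖PowerSeries.coeff (j + 4) kc‖ * ‖a (m - 1 - j)‖ * (r ^ (j + 2) * r ^ (m - 1 - j))
            = ‖PowerSeries.coeff (j + 4) kc‖ * (r ^ (j + 2) * (‖a (m - 1 - j)‖ * r ^ (m - 1 - j))) := by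
              ring
          _ ≤ 6.75 * (r ^ (j + 2) * T (m - 1 - j)) := by
              apply mul_le_mul h0 _ (by positivity) (by norm_num)
              exact mul_le_mul_of_nonneg_left h1 (by positivity)
          _ = _ := by ring
    rw [Finset.sum_add_distrib] at e4
    linarith
  have h9 : 0 < 9 + x ^ 2 := by positivity
  have h10 : ‖PowerSeries.coeff (m + 1) (Rh n Q V1 u)‖ * (9 + x ^ 2)
      ≤ 2 * |x| * ‖a (m + 2)‖ + ‖∑ j ∈ Finset.range m, a (j + 2) * a (m + 1 - j)‖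
        + 9 * ‖a (m + 1)‖ + ‖∑ j ∈ Finset.range m, PowerSeries.coeff (j + 4) kc * a (m - 1 - j)‖ := by
    have h1 : ‖PowerSeries.coeff (m + 1) (Rh n Q V1 u)‖ * (9 + x ^ 2)
        = ‖((9 + x ^ 2 : ℝ) : ℂ) * PowerSeries.coeff (m + 1) (Rh n Q V1 u)‖ := by
      rw [norm_mul, Complex.norm_real, Real.norm_eq_abs, abs_of_pos h9, mul_comm]
    rw [h1, hrel, map_add, p1, p2, ha1]
    refine (norm_add_le _ _).trans ?_
    have h2 := norm_add_le (2 * (x : ℂ) * a (m + 2)) (∑ j ∈ Finset.range m, a (j + 2) * a (m + 1 - j))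
    have h3 := norm_add_le (9 * a (m + 1))
      (∑ j ∈ Finset.range m, PowerSeries.coeff (j + 4) kc * a (m - 1 - j))
    have h4 : ‖2 * (x : ℂ) * a (m + 2)‖ = 2 * |x| * ‖a (m + 2)‖ := by
      rw [norm_mul, norm_mul, Complex.norm_real, Real.norm_eq_abs]; norm_num
    have h5 : ‖(9 : ℂ) * a (m + 1)‖ = 9 * ‖a (m + 1)‖ := by
      rw [norm_mul]; norm_num
    rw [h4] at h2
    rw [h5] at h3
    linarith
  have h11 := hTe (m + 2) (by omega) u
  have h12 := hTe (m + 1) (by omega) u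
  have h13 : ‖a (m + 2)‖ * r ^ (m + 1) ≤ T (m + 2) / r := by
    rw [le_div_iff₀ hr, mul_assoc, ← pow_succ]; exact h11
  set R := ‖PowerSeries.coeff (m + 1) (Rh n Q V1 u)‖ * r ^ (m + 1) with hRdef
  have hR0 : 0 ≤ R := by positivity
  have h14 : R * (9 + x ^ 2) ≤ 2 * |x| * (T (m + 2) / r)
      + (cv (fun j => if j = 0 then 0 else T (j + 1) / r)
        (fun j => if j = 0 then 0 else T (j + 1) / r) (m + 1) + 9 * T (m + 1)
        + (sq r (m + 1) + cv (sq r) T (m + 1))) := by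
    have h1 := mul_le_mul_of_nonneg_right h10 hrk.le
    have h2 : 2 * |x| * ‖a (m + 2)‖ * r ^ (m + 1) ≤ 2 * |x| * (T (m + 2) / r) := by
      rw [mul_assoc]
      exact mul_le_mul_of_nonneg_left h13 (by positivity)
    have h3 : 9 * ‖a (m + 1)‖ * r ^ (m + 1) ≤ 9 * T (m + 1) := by
      rw [mul_assoc]
      exact mul_le_mul_of_nonneg_left h12 (by norm_num)
    have e : R * (9 + x ^ 2) = ‖PowerSeries.coeff (m + 1) (Rh n Q V1 u)‖ * (9 + x ^ 2) * r ^ (m + 1) := by
      rw [hRdef]; ring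
    rw [e]
    refine h1.trans ?_
    rw [add_mul, add_mul, add_mul]
    linarith
  set W := cv (fun j => if j = 0 then 0 else T (j + 1) / r)
        (fun j => if j = 0 then 0 else T (j + 1) / r) (m + 1) + 9 * T (m + 1)
        + (sq r (m + 1) + cv (sq r) T (m + 1)) with hW
  have hU0 : 0 ≤ T (m + 2) / r := div_nonneg (hT0 _) hr.le
  have nU' : ∀ j, 0 ≤ (fun j => if j = 0 then (0 : ℝ) else T (j + 1) / r) j := fun j => by
    dsimp only; split_ifs; exacts [le_rfl, div_nonneg (hT0 _) hr.le]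
  have hW0 : 0 ≤ W := by
    rw [hW]
    have := cv_nonneg nU' nU' (m + 1)
    have := hT0 (m + 1)
    have := sq_nonneg hr.le (m + 1)
    have := cv_nonneg (sq_nonneg hr.le) hT0 (m + 1)
    positivity
  have h15 : R ≤ 0.28869 * (T (m + 2) / r) + (1 / 9) * W := by
    have h16 : 2 * |x| ≤ 0.28869 * (9 + x ^ 2) := by
      have h17 : |x| ^ 2 = x ^ 2 := sq_abs x
      have h18 : |x| ≤ 1.7321 := hx3.trans hs3
      have h19 := abs_nonneg x
      nlinarith
    have h20 : (0.28869 * (T (m + 2) / r) + (1 / 9) * W) * (9 + x ^ 2) ≥ R * (9 + x ^ 2) := by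
      have h21 := mul_le_mul_of_nonneg_right h16 hU0
      have h22 : 0 ≤ W * x ^ 2 := mul_nonneg hW0 (_root_.sq_nonneg x)
      nlinarith
    exact le_of_mul_le_mul_right h20 h9
  have e9 : m + 1 + 1 = m + 2 := rfl
  rw [e9]
  have e10 : cv (fun j => if j = 0 then 0 else T (j + 1) / r)
        (fun j => if j = 0 then 0 else T (j + 1) / r) (m + 1) + 9 * T (m + 1) + sq r (m + 1)
        + cv (sq r) T (m + 1) = W := by rw [hW]; ring
  rw [e10]
  exact h15

end H729I
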