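import Pool.Agent.Run7.h729.Iso.Egv

/-!
# The Taylor coefficients of the logarithm of the eigenvalue
-/

set_option autoImplicit false

namespace H729I
open H906K Pool.Agent.H974R3 Polynomial Complex Filter Topology

variable {n : ℕ} {t : (PowerSeries ℂ)[X]} {w : Pat (2 * n + 1) → PowerSeries ℂ}
  {μ : Pat (2 * n + 1) → ℝ}

/-- the coefficients of the logarithm of the eigenvalue -/
noncomputable def lc (n : ℕ) (t : (PowerSeries ℂ)[X]) (θ : ℝ) (k : ℕ) : ℂ :=
  PowerSeries.coeff k (lgs (tz n t ((ph θ : ℂ) * I)))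

/-- uniform bounds -/
structure Lb (n : ℕ) (t : (PowerSeries ℂ)[X]) (g : ℕ → ℝ) : Prop where
  g0 : ∀ k, 0 ≤ g k
  gs : ∀ K, ps g K ≤ 1 / 2000
  l2 : ∀ k, 2 ≤ k → ∀ θ ∈ Set.Icc 0 Real.pi,
    ‖lc n t θ k‖ * (1 / 10000) ^ k ≤ g k * (3 * Real.sin θ / (2 * n + 1))
  l1 : ∀ θ ∈ Set.Icc 0 Real.pi, ‖lc n t θ 1‖ * (1 / 10000) ≤ (1 / 10000 + 3 * g 1) / (2 * n + 1)

theorem lc_cont {F : ℂ → ℂ} (hF : Nic F) :
    ContinuousOn (fun θ : ℝ => F ((ph θ : ℂ) * I)) (Set.Icc 0 Real.pi) := by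
  intro θ hθ
  have h1 := ph_mem hθ
  refine ContinuousAt.continuousWithinAt ?_
  refine ContinuousAt.comp (f := fun θ : ℝ => ((ph θ : ℝ) : ℂ) * I) (hF.1 _ ?_).continuousAt ?_
  · simp only [Complex.mul_im, Complex.ofReal_re, Complex.I_im, mul_one, Complex.ofReal_im,
      Complex.I_re, mul_zero, add_zero]
    have hpi := Real.pi_pos
    have : |ph θ| ≤ Real.pi / 3 := by
      unfold ph
      rw [abs_le]
      constructor <;> linarith [hθ.1, hθ.2]
    linarith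
  · unfold ph
    fun_prop

theorem lt_one_zero (h : TSpec n t)
    (hw : ∀ σ, PowerSeries.coeff 0 (w σ) = 1)
    (hL : (TL (2 * n) (C (PowerSeries.C om)) (X : (PowerSeries ℂ)[X]) ezX).vecMul (fun σ => C (w σ))
      = t • (fun σ => C (w σ))) :
    PowerSeries.coeff 1 (lgs (tz n t (Real.pi / 3 * I))) = I / (2 * n + 1) := by
  have hθ : (0 : ℝ) ∈ Set.Icc 0 Real.pi := ⟨le_rfl, Real.pi_pos.le⟩
  have hph : ((ph 0 : ℝ) : ℂ) * I = Real.pi / 3 * I := by unfold ph; push_cast; ring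
  set F : Pat (2 * n + 1) → Pat (2 * n + 1) := Tc (2 * n) (fun _ => false) with hF
  have h1 : ∀ σ, wr n w (F σ) * expI (1 / (2 * n + 1)) = tz n t (Real.pi / 3 * I) * wr n w σ := by
    intro σ
    have h2 := eig hL hθ σ
    rw [hph, prob_zero] at h2
    rw [← h2, Finset.sum_eq_single (fun _ => false)]
    · rw [rw1_zero, if_pos rfl, dTc_false]
      simp [hF]
    · intro b _ hb
      rw [rw1_zero, if_neg hb]
      simp
    · intro hb
      exact absurd (Finset.mem_univ _) hb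
  have h2 : ∀ p : ℕ, ∀ σ, wr n w (F^[p] σ) * expI (1 / (2 * n + 1)) ^ p
      = tz n t (Real.pi / 3 * I) ^ p * wr n w σ := by
    intro p
    induction p with
    | zero => intro σ; simp
    | succ p ih =>
      intro σ
      rw [Function.iterate_succ_apply, pow_succ, pow_succ]
      linear_combination (expI (1 / (2 * n + 1))) * ih (F σ)
        + tz n t (Real.pi / 3 * I) ^ p * h1 σ
  obtain ⟨b, p, hp, hb⟩ := finite_orbit F (base n)
  have h3 := h2 p b
  rw [hb, mul_comm] at h3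
  have hb0 : wr n w b ≠ 0 := by
    intro h0
    have := wr_zero hw b
    rw [h0, map_zero] at this
    exact zero_ne_one this
  have h4 := mul_right_cancel₀ hb0 h3
  have hz : |((Real.pi : ℂ) / 3 * I).im| ≤ 2 * Real.pi / 3 := by
    have : ((Real.pi : ℂ) / 3 * I).im = Real.pi / 3 := by
      have : ((Real.pi : ℂ) / 3 * I) = ((Real.pi / 3 : ℝ) : ℂ) * I := by push_cast; ring
      rw [this]; simp
    rw [this, abs_of_pos (by positivity)]
    linarith [Real.pi_pos]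
  have h5 := lgs_of_pow (F := expI (1 / (2 * n + 1))) (G := tz n t (Real.pi / 3 * I))
    (by rw [e4_expI]; simp) (tz_zero h hz) hp h4
  rw [← h5, lgs_expI, PowerSeries.coeff_C_mul, PowerSeries.coeff_X, if_pos rfl, mul_one]
  ring

theorem lam_bds (hn : 1 ≤ n) (h : TSpec n t) (hw : ∀ σ, PowerSeries.coeff 0 (w σ) = 1)
    (hL : (TL (2 * n) (C (PowerSeries.C om)) (X : (PowerSeries ℂ)[X]) ezX).vecMul (fun σ => C (w σ))
      = t • (fun σ => C (w σ))) : ∃ g : ℕ → ℝ, Lb n t g := by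
  have hpi := Real.pi_pos
  obtain ⟨Q, s1, s2, V1, V2, d⟩ := dat_exists h
  obtain ⟨g, g0, gs, gb⟩ := coef_bounds d
  obtain ⟨m, rfl⟩ : ∃ m, n = m + 1 := ⟨n - 1, by omega⟩
  have hr : (0 : ℝ) < 1 / 10000 := by norm_num
  have hcl : closure (Set.Ioo 0 Real.pi) = Set.Icc 0 Real.pi := closure_Ioo hpi.ne
  have hm : (0 : ℝ) ≤ m := Nat.cast_nonneg m
  have hden : (1 : ℝ) / (2 * m + 1) ≤ 3 / (2 * ((m + 1 : ℕ) : ℝ) + 1) := by
    push_cast
    rw [div_le_div_iff₀ (by positivity) (by positivity)]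
    linarith
  have hG : ∀ k, ∀ u : ℝ, ‖PowerSeries.coeff k (lgs (tz (m + 1) t (u + Real.pi / 3 * I)))
        + PowerSeries.coeff k (lgs (tz (m + 1) t (u - Real.pi / 3 * I)))‖
        ≤ g k / (1 / 10000) ^ k * |ta u| ^ (2 * m + 3) := by
    intro k u
    have h1 := gb k u
    have e : g k / (1 / 10000) ^ k * |ta u| ^ (2 * m + 3)
        = (g k * |ta u| ^ (2 * m + 3)) / (1 / 10000) ^ k := by ring
    rw [e, le_div_iff₀ (by positivity)]
    exact h1
  refine ⟨g, g0, gs, fun k hk θ hθ => ?_, fun θ hθ => ?_⟩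
  · -- the higher coefficients
    have hint : ∀ θ ∈ Set.Ioo 0 Real.pi, ‖lc (m + 1) t θ k‖ * (1 / 10000) ^ k
        ≤ g k * (3 * Real.sin θ / (2 * ((m + 1 : ℕ) : ℝ) + 1)) := by
      intro θ hθ
      have h1 := phys_zero m (nic_lt d k) (a := g k / (1 / 10000) ^ k)
        (div_nonneg (g0 k) (by positivity)) (hG k) (lt_zero h hw hL hk) hθ
      have hs := Real.sin_pos_of_mem_Ioo hθ
      have h2 := mul_le_mul_of_nonneg_right h1 (by positivity : (0 : ℝ) ≤ (1 / 10000) ^ k)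
      refine h2.trans ?_
      have e : g k / (1 / 10000) ^ k * Real.sin θ / (2 * m + 1) * (1 / 10000) ^ k
          = g k * Real.sin θ * (1 / (2 * m + 1)) := by
        field_simp
      rw [e]
      calc g k * Real.sin θ * (1 / (2 * m + 1))
          ≤ g k * Real.sin θ * (3 / (2 * ((m + 1 : ℕ) : ℝ) + 1)) :=
            mul_le_mul_of_nonneg_left hden (mul_nonneg (g0 k) hs.le)
        _ = _ := by ring
    refine le_on_closure (s := Set.Ioo 0 Real.pi) (f := fun θ => ‖lc (m + 1) t θ k‖ * (1 / 10000) ^ k)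
      (g := fun θ => g k * (3 * Real.sin θ / (2 * ((m + 1 : ℕ) : ℝ) + 1))) hint ?_ ?_ ?_
    · rw [hcl]
      exact ((lc_cont (nic_lt d k)).norm).mul continuousOn_const
    · exact (Continuous.continuousOn (by fun_prop))
    · rw [hcl]; exact hθ
  · -- the first coefficient
    obtain ⟨J, hJ⟩ := phys_rep m (nic_lt d 1) (a := g 1 / (1 / 10000) ^ 1)
      (div_nonneg (g0 1) (by positivity)) (hG 1)
    have hJv : J = I / (2 * ((m + 1 : ℕ) : ℂ) + 1) := by
      have h1 : Tendsto (fun θ : ℝ => PowerSeries.coeff 1 (lgs (tz (m + 1) t ((ph θ : ℂ) * I)))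
          - (Real.cos θ : ℂ) * J) (𝓝[>] 0) (𝓝 (I / (2 * ((m + 1 : ℕ) : ℂ) + 1) - J)) := by
        have hc1 : Tendsto (fun θ : ℝ => PowerSeries.coeff 1 (lgs (tz (m + 1) t ((ph θ : ℂ) * I))))
            (𝓝[>] 0) (𝓝 (I / (2 * ((m + 1 : ℕ) : ℂ) + 1))) := by
          have h2 := lc_cont (nic_lt d 1) 0 ⟨le_rfl, hpi.le⟩
          have h3 : ((ph 0 : ℝ) : ℂ) * I = (Real.pi : ℂ) / 3 * I := by unfold ph; push_cast; ring
          unfold ContinuousWithinAt at h2
          beta_reduce at h2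
          rw [h3, lt_one_zero h hw hL] at h2
          have h4 := h2.mono_left (nhdsWithin_mono 0 Set.Ioo_subset_Icc_self)
          rwa [nhdsWithin_Ioo_eq_nhdsGT hpi] at h4
        have hc2 : Tendsto (fun θ : ℝ => (Real.cos θ : ℂ) * J) (𝓝[>] 0) (𝓝 J) := by
          have hc : ContinuousAt (fun θ : ℝ => (Real.cos θ : ℂ) * J) 0 := by fun_prop
          have := hc.tendsto
          rw [Real.cos_zero, Complex.ofReal_one, one_mul] at this
          exact this.mono_left nhdsWithin_le_nhds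
        exact hc1.sub hc2
      have h2 : Tendsto (fun θ : ℝ => g 1 / (1 / 10000) ^ 1 * Real.sin θ / (2 * m + 1)) (𝓝[>] 0) (𝓝 0) := by
        have hc : ContinuousAt (fun θ : ℝ => g 1 / (1 / 10000) ^ 1 * Real.sin θ / (2 * m + 1)) 0 := by
          fun_prop
        have := hc.tendsto
        rw [Real.sin_zero, mul_zero, zero_div] at this
        exact this.mono_left nhdsWithin_le_nhds
      have h3 : ‖I / (2 * ((m + 1 : ℕ) : ℂ) + 1) - J‖ ≤ 0 := by
        refine le_of_tendsto_of_tendsto h1.norm h2 ?_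
        filter_upwards [Ioo_mem_nhdsGT hpi] with θ hθ
        exact hJ θ hθ
      exact (sub_eq_zero.1 (norm_le_zero_iff.1 h3)).symm
    have hNc : ‖(2 * ((m + 1 : ℕ) : ℂ) + 1)‖ = 2 * ((m + 1 : ℕ) : ℝ) + 1 := by
      have : (2 * ((m + 1 : ℕ) : ℂ) + 1) = ((2 * ((m + 1 : ℕ) : ℝ) + 1 : ℝ) : ℂ) := by push_cast; ring
      rw [this, Complex.norm_real, Real.norm_of_nonneg (by positivity)]
    have hint : ∀ θ ∈ Set.Ioo 0 Real.pi, ‖lc (m + 1) t θ 1‖ * (1 / 10000)
        ≤ (1 / 10000 + 3 * g 1) / (2 * ((m + 1 : ℕ) : ℝ) + 1) := by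
      intro θ hθ
      have h1 := hJ θ hθ
      have hs := Real.sin_pos_of_mem_Ioo hθ
      have hs1 := Real.sin_le_one θ
      have h2 : ‖lc (m + 1) t θ 1‖ ≤ ‖(Real.cos θ : ℂ) * J‖ + g 1 / (1 / 10000) ^ 1 * Real.sin θ
          / (2 * m + 1) := by
        have h3 := norm_add_le ((Real.cos θ : ℂ) * J) (lc (m + 1) t θ 1 - (Real.cos θ : ℂ) * J)
        rw [add_sub_cancel] at h3
        have h4 : ‖lc (m + 1) t θ 1 - (Real.cos θ : ℂ) * J‖
            ≤ g 1 / (1 / 10000) ^ 1 * Real.sin θ / (2 * m + 1) := h1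
        linarith
      have h3 : ‖(Real.cos θ : ℂ) * J‖ ≤ 1 / (2 * ((m + 1 : ℕ) : ℝ) + 1) := by
        rw [norm_mul, hJv, norm_div, Complex.norm_I, hNc, Complex.norm_real, Real.norm_eq_abs]
        have := Real.abs_cos_le_one θ
        have h5 : (0 : ℝ) ≤ 1 / (2 * ((m + 1 : ℕ) : ℝ) + 1) := by positivity
        nlinarith
      have h4 : g 1 / (1 / 10000) ^ 1 * Real.sin θ / (2 * m + 1)
          ≤ g 1 / (1 / 10000) * (3 / (2 * ((m + 1 : ℕ) : ℝ) + 1)) := by
        have h5 : 0 ≤ g 1 / (1 / 10000) := div_nonneg (g0 1) (by norm_num)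
        calc g 1 / (1 / 10000) ^ 1 * Real.sin θ / (2 * m + 1)
            = g 1 / (1 / 10000) * (Real.sin θ * (1 / (2 * m + 1))) := by rw [pow_one]; ring
          _ ≤ g 1 / (1 / 10000) * (1 * (3 / (2 * ((m + 1 : ℕ) : ℝ) + 1))) := by
              apply mul_le_mul_of_nonneg_left _ h5
              exact mul_le_mul hs1 hden (by positivity) (by norm_num)
          _ = _ := by ring
      calc ‖lc (m + 1) t θ 1‖ * (1 / 10000)
          ≤ (1 / (2 * ((m + 1 : ℕ) : ℝ) + 1) + g 1 / (1 / 10000)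
            * (3 / (2 * ((m + 1 : ℕ) : ℝ) + 1))) * (1 / 10000) :=
            mul_le_mul_of_nonneg_right (by linarith) hr.le
        _ = _ := by field_simp
    refine le_on_closure (s := Set.Ioo 0 Real.pi) (f := fun θ => ‖lc (m + 1) t θ 1‖ * (1 / 10000))
      (g := fun _ => (1 / 10000 + 3 * g 1) / (2 * ((m + 1 : ℕ) : ℝ) + 1)) hint ?_ ?_ ?_
    · rw [hcl]
      exact ((lc_cont (nic_lt d 1)).norm).mul continuousOn_const
    · exact continuousOn_const
    · rw [hcl]; exact hθ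

theorem lc_zero (θ : ℝ) : lc n t θ 0 = 0 := lgs_zero _

theorem g_le {g : ℕ → ℝ} (g0 : ∀ k, 0 ≤ g k) (gs : ∀ K, ps g K ≤ 1 / 2000) (k : ℕ) :
    g k ≤ 1 / 2000 := by
  refine le_trans ?_ (gs k)
  unfold ps
  exact Finset.single_le_sum (fun i _ => g0 i) (Finset.mem_range.2 (Nat.lt_succ_self k))

/-- the partial sums of the norms of the coefficients -/
theorem lc_ps {g : ℕ → ℝ} (hb : Lb n t g) (hn : 1 ≤ n) {θ : ℝ} (hθ : θ ∈ Set.Icc 0 Real.pi) (K : ℕ) :
    ps (fun k => ‖lc n t θ k‖ * (1 / 10000) ^ k) K ≤ 1 / (100 * (2 * n + 1)) := by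
  have hN : (3 : ℝ) ≤ 2 * n + 1 := by
    have : (1 : ℝ) ≤ n := by exact_mod_cast hn
    linarith
  have hN0 : (0 : ℝ) < 2 * n + 1 := by linarith
  have h1 : ∀ k, ‖lc n t θ k‖ * (1 / 10000) ^ k
      ≤ (if k = 1 then 1 / 10000 / (2 * (n : ℝ) + 1) else 0) + 3 / (2 * (n : ℝ) + 1) * g k := by
    intro k
    have hgk : 0 ≤ 3 / (2 * (n : ℝ) + 1) * g k := mul_nonneg (by positivity) (hb.g0 k)
    rcases Nat.eq_zero_or_pos k with rfl | hk
    · rw [lc_zero, norm_zero, zero_mul, if_neg (by norm_num)]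
      linarith
    · rcases Nat.lt_or_ge 1 k with h2 | h2
      · rw [if_neg (by omega), zero_add]
        refine (hb.l2 k h2 θ hθ).trans ?_
        have hs1 := Real.sin_le_one θ
        calc g k * (3 * Real.sin θ / (2 * n + 1)) ≤ g k * (3 * 1 / (2 * n + 1)) := by
              apply mul_le_mul_of_nonneg_left _ (hb.g0 k)
              apply div_le_div_of_nonneg_right _ hN0.le
              linarith
          _ = _ := by ring
      · have : k = 1 := by omega
        subst this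
        rw [if_pos rfl, pow_one]
        refine (hb.l1 θ hθ).trans (le_of_eq ?_)
        ring
  have h2 := ps_mono (a := fun k => ‖lc n t θ k‖ * (1 / 10000) ^ k) K (fun k _ => h1 k)
  rw [ps_add, ps_mul] at h2
  have h3 : ps (fun k => if k = 1 then 1 / 10000 / (2 * (n : ℝ) + 1) else 0) K
      ≤ 1 / 10000 / (2 * n + 1) := by
    unfold ps
    rw [Finset.sum_ite_eq' (Finset.range (K + 1)) 1]
    split_ifs
    · exact le_rfl
    · positivity
  have h4 := mul_le_mul_of_nonneg_left (hb.gs K) (by positivity : 0 ≤ 3 / (2 * (n : ℝ) + 1))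
  have h5 : 1 / 10000 / (2 * (n : ℝ) + 1) + 3 / (2 * n + 1) * (1 / 2000) ≤ 1 / (100 * (2 * n + 1)) := by
    rw [div_add' _ _ _ hN0.ne', div_le_div_iff₀ hN0 (by positivity)]
    have : 3 / (2 * (n : ℝ) + 1) * (1 / 2000) * (2 * n + 1) = 3 / 2000 := by field_simp
    rw [this]
    linarith
  linarith

theorem su_lgs {g : ℕ → ℝ} (hb : Lb n t g) (hn : 1 ≤ n) {θ : ℝ} (hθ : θ ∈ Set.Icc 0 Real.pi) :
    Su (1 / 10000) (lgs (tz n t ((ph θ : ℂ) * I))) := by
  refine summable_of_sum_range_le (c := 1 / (100 * (2 * n + 1))) (fun k => by positivity) fun K => ?_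
  rcases K with _ | K
  · rw [Finset.range_zero, Finset.sum_empty]; positivity
  · exact lc_ps hb hn hθ K

theorem tz_c0 (h : TSpec n t) {θ : ℝ} (hθ : θ ∈ Set.Icc 0 Real.pi) :
    PowerSeries.coeff 0 (tz n t ((ph θ : ℂ) * I)) = 1 := by
  apply tz_zero h
  have hpi := Real.pi_pos
  have : |ph θ| ≤ Real.pi / 3 := by
    unfold ph
    rw [abs_le]
    constructor <;> linarith [hθ.1, hθ.2]
  simp only [Complex.mul_im, Complex.ofReal_re, Complex.I_im, mul_one, Complex.ofReal_im,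
    Complex.I_re, mul_zero, add_zero]
  linarith

theorem eg_exists (hn : 1 ≤ n) : ∃ (t : (PowerSeries ℂ)[X]) (w : Pat (2 * n + 1) → PowerSeries ℂ)
    (μ : Pat (2 * n + 1) → ℝ) (g : ℕ → ℝ), Eg n t w μ ∧ Lb n t g := by
  obtain ⟨v, w, t, hv, hw, ht, hr, hl⟩ := left_all n
  obtain ⟨μ, m1, ms⟩ := stat_exists n
  obtain ⟨g, hb⟩ := lam_bds hn ht hw hl
  refine ⟨t, w, μ, g, ⟨ht, hw, hl, m1, ms, fun θ hθ => ?_⟩, hb⟩
  refine su_of_lgs (by norm_num) (tz_c0 ht hθ) fun K => ?_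
  refine (lc_ps hb hn hθ K).trans ?_
  have : (0 : ℝ) ≤ n := Nat.cast_nonneg n
  rw [div_le_div_iff₀ (by positivity) (by norm_num)]
  linarith

theorem ev_tz {g : ℕ → ℝ} (h : Eg n t w μ) (hb : Lb n t g) (hn : 1 ≤ n) {θ : ℝ}
    (hθ : θ ∈ Set.Icc 0 Real.pi) {z : ℂ} (hz : ‖z‖ < 1 / 10000) :
    ev z (tz n t ((ph θ : ℂ) * I)) = cexp (ev z (lgs (tz n t ((ph θ : ℂ) * I)))) :=
  ev_exp (tz_c0 h.hT hθ) (h.su θ hθ) (su_lgs hb hn hθ) hz

end H729I
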