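import Mathlib

/-!
# A majorant argument for real sequences
-/

set_option autoImplicit false

namespace H729I

open Finset

/-- partial sums -/
def ps (a : ℕ → ℝ) (K : ℕ) : ℝ := ∑ k ∈ range (K + 1), a k

/-- convolution -/
def cv (a b : ℕ → ℝ) (k : ℕ) : ℝ := ∑ j ∈ range (k + 1), a j * b (k - j)

theorem ps_succ (a : ℕ → ℝ) (K : ℕ) : ps a (K + 1) = ps a K + a (K + 1) := by
  unfold ps; rw [sum_range_succ]

theorem ps_zero (a : ℕ → ℝ) : ps a 0 = a 0 := by unfold ps; simp

theorem ps_nonneg {a : ℕ → ℝ} (h : ∀ k, 0 ≤ a k) (K : ℕ) : 0 ≤ ps a K :=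
  sum_nonneg fun k _ => h k

theorem ps_mono {a b : ℕ → ℝ} (K : ℕ) (h : ∀ k ≤ K, a k ≤ b k) : ps a K ≤ ps b K :=
  sum_le_sum fun k hk => h k (by have := mem_range.1 hk; omega)

theorem ps_le {a : ℕ → ℝ} (h : ∀ k, 0 ≤ a k) {K L : ℕ} (hKL : K ≤ L) : ps a K ≤ ps a L :=
  sum_le_sum_of_subset_of_nonneg (by
    intro k hk
    have := mem_range.1 hk
    exact mem_range.2 (by omega)) fun k _ _ => h k

theorem ps_add (a b : ℕ → ℝ) (K : ℕ) : ps (fun k => a k + b k) K = ps a K + ps b K := by
  unfold ps; rw [sum_add_distrib]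

theorem ps_mul (c : ℝ) (a : ℕ → ℝ) (K : ℕ) : ps (fun k => c * a k) K = c * ps a K := by
  unfold ps; rw [mul_sum]

theorem cv_nonneg {a b : ℕ → ℝ} (ha : ∀ k, 0 ≤ a k) (hb : ∀ k, 0 ≤ b k) (k : ℕ) : 0 ≤ cv a b k :=
  sum_nonneg fun j _ => mul_nonneg (ha j) (hb _)

theorem cv_sig (a b : ℕ → ℝ) (K : ℕ) : ps (cv a b) K
    = ∑ x ∈ (range (K + 1)).sigma (fun k => range (k + 1)), a x.2 * b (x.1 - x.2) := by
  unfold ps cv
  rw [sum_sigma]

theorem cv_le' {a b : ℕ → ℝ} (ha : ∀ k, 0 ≤ a k) (hb : ∀ k, 0 ≤ b k) (K : ℕ) :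
    ps (cv a b) K ≤ ps a K * ps b K := by
  classical
  rw [cv_sig]
  unfold ps
  rw [sum_mul_sum, ← sum_product']
  have hinj : Set.InjOn (fun x : (_ : ℕ) × ℕ => (x.2, x.1 - x.2))
      ((range (K + 1)).sigma (fun k => range (k + 1)) : Set ((_ : ℕ) × ℕ)) := by
    rintro ⟨k, j⟩ h1 ⟨k', j'⟩ h2 h
    simp only [coe_sigma, Set.mem_sigma_iff, coe_range, Set.mem_Iio] at h1 h2
    simp only [Prod.mk.injEq] at h
    obtain ⟨h3, h4⟩ := h
    have : k = k' := by omega
    subst this
    subst h3
    rfl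
  have e : ∑ x ∈ (range (K + 1)).sigma (fun k => range (k + 1)), a x.2 * b (x.1 - x.2)
      = ∑ y ∈ ((range (K + 1)).sigma (fun k => range (k + 1))).image
        (fun x : (_ : ℕ) × ℕ => (x.2, x.1 - x.2)), a y.1 * b y.2 := by
    rw [sum_image hinj]
  rw [e]
  apply sum_le_sum_of_subset_of_nonneg
  · intro y hy
    rw [mem_image] at hy
    obtain ⟨⟨k, j⟩, h1, rfl⟩ := hy
    simp only [mem_sigma, mem_range] at h1
    simp only [mem_product, mem_range]
    omega
  · intro y _ _
    exact mul_nonneg (ha _) (hb _)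

theorem cv_le {a b : ℕ → ℝ} (ha : ∀ k, 0 ≤ a k) (hb : ∀ k, 0 ≤ b k) (a0 : a 0 = 0) (b0 : b 0 = 0)
    (K : ℕ) : ps (cv a b) (K + 1) ≤ ps a K * ps b K := by
  classical
  set a' : ℕ → ℝ := fun k => if k ≤ K then a k else 0 with ha'
  set b' : ℕ → ℝ := fun k => if k ≤ K then b k else 0 with hb'
  have h1 : ps (cv a b) (K + 1) = ps (cv a' b') (K + 1) := by
    unfold ps cv
    refine sum_congr rfl fun k hk => sum_congr rfl fun j hj => ?_
    have h1 := mem_range.1 hk
    have h2 := mem_range.1 hj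
    rw [ha', hb']
    dsimp only
    by_cases hj0 : j = 0
    · subst hj0; rw [a0]; simp [a0]
    · by_cases hjk : j = k
      · subst hjk; rw [Nat.sub_self, b0]; simp [b0]
      · rw [if_pos (by omega), if_pos (by omega)]
  have na : ∀ k, 0 ≤ a' k := fun k => by rw [ha']; dsimp only; split_ifs; exacts [ha k, le_rfl]
  have nb : ∀ k, 0 ≤ b' k := fun k => by rw [hb']; dsimp only; split_ifs; exacts [hb k, le_rfl]
  have e1 : ps a' (K + 1) = ps a K := by
    rw [ps_succ, ha']
    dsimp only
    rw [if_neg (by omega), add_zero]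
    unfold ps
    exact sum_congr rfl fun k hk => if_pos (by have := mem_range.1 hk; omega)
  have e2 : ps b' (K + 1) = ps b K := by
    rw [ps_succ, hb']
    dsimp only
    rw [if_neg (by omega), add_zero]
    unfold ps
    exact sum_congr rfl fun k hk => if_pos (by have := mem_range.1 hk; omega)
  rw [h1, ← e1, ← e2]
  exact cv_le' na nb _

/-- the hypotheses of the majorant argument (all sequences are weighted by the powers of `r`) -/
structure MajH (r : ℝ) (l t b h y g q p s : ℕ → ℝ) : Prop where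
  nl : ∀ k, 0 ≤ l k
  nt : ∀ k, 0 ≤ t k
  nb : ∀ k, 0 ≤ b k
  nh : ∀ k, 0 ≤ h k
  ny : ∀ k, 0 ≤ y k
  ng : ∀ k, 0 ≤ g k
  nq : ∀ k, 0 ≤ q k
  np : ∀ k, 0 ≤ p k
  ns : ∀ k, 0 ≤ s k
  l0 : l 0 = 0
  t0 : t 0 = 0
  b0 : b 0 = 0
  h0 : h 0 = 0
  y0 : y 0 = 0
  g0 : g 0 = 0
  q0 : q 0 = 0
  p0 : p 0 = 0
  r1 : ∀ k, t k ≤ l k + cv l t k
  r2 : ∀ k, h k ≤ b k + cv b h k
  r3 : ∀ k, g k ≤ y k + cv g y k
  r4 : ∀ k, p k ≤ q k + cv p q k
  r5 : ∀ k, 1 ≤ k → l (k + 1) ≤ g (k + 1) / 2
  r5' : l 1 ≤ 1.7321 * r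
  r6 : ∀ k, b k ≤ p k / 2
  r7 : y 1 ≤ 3.4642 * r
  r7' : ∀ k, 1 ≤ k → y (k + 1) ≤ 3.4642 * r * h k
  r8 : ∀ k, 1 ≤ k → q k ≤ 0.28869 * (t (k + 1) / r)
    + (1 / 9) * (cv (fun j => if j = 0 then 0 else t (j + 1) / r)
      (fun j => if j = 0 then 0 else t (j + 1) / r) k + 9 * t k + s k + cv s t k)
  r9 : ∀ K, ps s K ≤ r

theorem ps_shift (a : ℕ → ℝ) (r : ℝ) (hr : r ≠ 0) (K : ℕ) :
    ps (fun j => if j = 0 then 0 else a (j + 1) / r) K = (ps a (K + 1) - a 0 - a 1) / r := by
  induction K with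
  | zero => rw [ps_zero, ps_succ, ps_zero]; simp
  | succ K ih =>
    rw [ps_succ, ih, if_neg (by omega), ps_succ a (K + 1)]
    field_simp
    ring

theorem maj {r : ℝ} (hr : 0 < r) (hr1 : r ≤ 1 / 10000) {l t b h y g q p s : ℕ → ℝ}
    (H : MajH r l t b h y g q p s) (K : ℕ) :
    ps (fun j => if j = 0 then 0 else l (j + 1) / r) K ≤ 1 / 50 ∧ ps b K ≤ 1 / 50 ∧
    ps l (K + 1) ≤ 2 * r ∧ ps t (K + 1) ≤ 3 * r ∧ ps h K ≤ 1 / 24 ∧ ps y (K + 1) ≤ 4 * r ∧
    ps g (K + 1) ≤ 5 * r ∧ ps q K ≤ 1 / 50 ∧ ps p K ≤ 1 / 24 := by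
  have hrne := hr.ne'
  have hst := fun (a : ℕ → ℝ) => ps_shift a r hrne
  induction K with
  | zero =>
    have e1 : ps l 1 ≤ 2 * r := by
      rw [ps_succ, ps_zero, H.l0, zero_add]; have := H.r5'; linarith
    have e2 : ps t 1 ≤ 3 * r := by
      rw [ps_succ, ps_zero, H.t0, zero_add]
      have h1 := H.r1 1
      have h2 : cv l t 1 = 0 := by unfold cv; rw [sum_range_succ, sum_range_one, H.l0]; simp [H.t0]
      have := H.r5'
      rw [h2] at h1; simp only [zero_add]; linarith
    have e3 : ps y 1 ≤ 4 * r := by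
      rw [ps_succ, ps_zero, H.y0, zero_add]; have := H.r7; simp only [zero_add]; linarith
    have e4 : ps g 1 ≤ 5 * r := by
      rw [ps_succ, ps_zero, H.g0, zero_add]
      have h1 := H.r3 1
      have h2 : cv g y 1 = 0 := by unfold cv; rw [sum_range_succ, sum_range_one, H.g0]; simp [H.y0]
      have := H.r7
      rw [h2] at h1; simp only [zero_add]; linarith
    refine ⟨?_, ?_, e1, e2, ?_, e3, e4, ?_, ?_⟩
    · rw [ps_zero, if_pos rfl]; norm_num
    · rw [ps_zero, H.b0]; norm_num
    · rw [ps_zero, H.h0]; norm_num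
    · rw [ps_zero, H.q0]; norm_num
    · rw [ps_zero, H.p0]; norm_num
  | succ K ih =>
    obtain ⟨iE, iB, iL, iT, iH, iY, iG, iQ, iP⟩ := ih
    have nL := ps_nonneg H.nl (K + 1)
    have nT := ps_nonneg H.nt (K + 1)
    have nB := ps_nonneg H.nb K
    have nH := ps_nonneg H.nh K
    have nY := ps_nonneg H.ny (K + 1)
    have nG := ps_nonneg H.ng (K + 1)
    have nQ := ps_nonneg H.nq K
    have nP := ps_nonneg H.np K
    -- convolutions
    have cLT := cv_le H.nl H.nt H.l0 H.t0 (K + 1)
    have cBH := cv_le H.nb H.nh H.b0 H.h0 K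
    have cGY := cv_le H.ng H.ny H.g0 H.y0 (K + 1)
    have cPQ := cv_le H.np H.nq H.p0 H.q0 K
    have bLT : ps (cv l t) (K + 2) ≤ 6 * r ^ 2 := by
      refine cLT.trans ?_
      nlinarith
    have bBH : ps (cv b h) (K + 1) ≤ 1 / 1200 := by
      refine cBH.trans ?_
      nlinarith
    have bGY : ps (cv g y) (K + 2) ≤ 20 * r ^ 2 := by
      refine cGY.trans ?_
      nlinarith
    have bPQ : ps (cv p q) (K + 1) ≤ 1 / 1200 := by
      refine cPQ.trans ?_
      nlinarith
    -- the unknown partial sums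
    set E := ps (fun j => if j = 0 then 0 else l (j + 1) / r) (K + 1) with hE
    set B := ps b (K + 1) with hB
    have eE : E = (ps l (K + 2) - l 1) / r := by rw [hE, hst, H.l0, sub_zero]
    have nE : 0 ≤ E := ps_nonneg (fun j => by
      split_ifs; exacts [le_rfl, div_nonneg (H.nl _) hr.le]) _
    -- h
    have hH : ps h (K + 1) ≤ B + 1 / 1200 := by
      have h1 : ps h (K + 1) ≤ ps (fun k => b k + cv b h k) (K + 1) := ps_mono _ fun k _ => H.r2 k
      rw [ps_add] at h1
      linarith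
    -- t
    have hT : ps t (K + 2) ≤ ps l (K + 2) + 6 * r ^ 2 := by
      have h1 : ps t (K + 2) ≤ ps (fun k => l k + cv l t k) (K + 2) := ps_mono _ fun k _ => H.r1 k
      rw [ps_add] at h1
      linarith
    set U := ps (fun j => if j = 0 then 0 else t (j + 1) / r) (K + 1) with hU
    have nU : 0 ≤ U := ps_nonneg (fun j => by
      split_ifs; exacts [le_rfl, div_nonneg (H.nt _) hr.le]) _
    have hU1 : U ≤ E + 6 * r := by
      have h1 : U ≤ ps (fun j => (if j = 0 then 0 else l (j + 1) / r)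
          + (if j = 0 then 0 else cv l t (j + 1) / r)) (K + 1) := by
        rw [hU]
        refine ps_mono _ fun k _ => ?_
        split_ifs with hk
        · simp
        · rw [← add_div]
          exact div_le_div_of_nonneg_right (H.r1 _) hr.le
      rw [ps_add, ← hE, hst (cv l t)] at h1
      have h2 : (ps (cv l t) (K + 1 + 1) - cv l t 0 - cv l t 1) / r ≤ 6 * r := by
        rw [div_le_iff₀ hr]
        have h3 := cv_nonneg H.nl H.nt 0
        have h4 := cv_nonneg H.nl H.nt 1
        nlinarith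
      linarith
    set U0 := ps (fun j => if j = 0 then 0 else t (j + 1) / r) K with hU0
    have nU0 : 0 ≤ U0 := ps_nonneg (fun j => by
      split_ifs; exacts [le_rfl, div_nonneg (H.nt _) hr.le]) _
    have hU01 : U0 ≤ 1 / 50 + 6 * r := by
      have h1 : U0 ≤ ps (fun j => (if j = 0 then 0 else l (j + 1) / r)
          + (if j = 0 then 0 else cv l t (j + 1) / r)) K := by
        rw [hU0]
        refine ps_mono _ fun k _ => ?_
        split_ifs with hk
        · simp
        · rw [← add_div]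
          exact div_le_div_of_nonneg_right (H.r1 _) hr.le
      rw [ps_add, hst (cv l t)] at h1
      have h2 : (ps (cv l t) (K + 1) - cv l t 0 - cv l t 1) / r ≤ 6 * r := by
        rw [div_le_iff₀ hr]
        have h3 := cv_nonneg H.nl H.nt 0
        have h4 := cv_nonneg H.nl H.nt 1
        have h5 := ps_le (cv_nonneg H.nl H.nt) (show K + 1 ≤ K + 2 by omega)
        nlinarith
      linarith
    -- y
    have hY : ps y (K + 2) ≤ 3.4642 * r + 3.4642 * r * ps h (K + 1) := by
      have h1 := hst y (K + 1)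
      have h2 : ps (fun j => if j = 0 then 0 else y (j + 1) / r) (K + 1)
          ≤ ps (fun j => 3.4642 * h j) (K + 1) := by
        refine ps_mono _ fun k _ => ?_
        split_ifs with hk
        · have := H.nh k; positivity
        · rw [div_le_iff₀ hr]
          have := H.r7' k (by omega)
          linarith
      rw [ps_mul, h1, H.y0, sub_zero, div_le_iff₀ hr] at h2
      have h3 := H.r7
      have e : K + 1 + 1 = K + 2 := rfl
      rw [e] at h2
      linarith
    -- the equation for E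
    have hE1 : E ≤ 1.7321 * ps h (K + 1) + 10 * r := by
      have h2 : E ≤ ps (fun j => 1.7321 * h j + (if j = 0 then 0 else cv g y (j + 1) / r) / 2)
          (K + 1) := by
        rw [hE]
        refine ps_mono _ fun k _ => ?_
        split_ifs with hk
        · have := H.nh k; simp only [zero_div, add_zero]; positivity
        · have h3 := H.r5 k (by omega)
          have h4 := H.r3 (k + 1)
          have h5 := H.r7' k (by omega)
          rw [div_le_iff₀ hr]
          have h6 : (1.7321 * h k + cv g y (k + 1) / r / 2) * r = 1.7321 * h k * r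
              + cv g y (k + 1) / 2 := by field_simp
          rw [h6]
          linarith
      have h3 : ps (fun j => 1.7321 * h j + (if j = 0 then 0 else cv g y (j + 1) / r) / 2) (K + 1)
          = 1.7321 * ps h (K + 1) + (ps (cv g y) (K + 2) - cv g y 0 - cv g y 1) / r / 2 := by
        have h4 := hst (cv g y) (K + 1)
        have h5 : ps (fun j => (if j = 0 then 0 else cv g y (j + 1) / r) / 2) (K + 1)
            = ps (fun j => if j = 0 then 0 else cv g y (j + 1) / r) (K + 1) / 2 := by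
          unfold ps; rw [sum_div]
        rw [ps_add, ps_mul, h5, h4]
      rw [h3] at h2
      have h6 : (ps (cv g y) (K + 2) - cv g y 0 - cv g y 1) / r / 2 ≤ 10 * r := by
        rw [div_div, div_le_iff₀ (by positivity)]
        have h3 := cv_nonneg H.ng H.ny 0
        have h4 := cv_nonneg H.ng H.ny 1
        nlinarith
      linarith
    -- the equation for q
    have hs9 := H.r9 (K + 1)
    have hQ : ps q (K + 1) ≤ 0.28869 * U + (1 / 9) * (U0 ^ 2 + 9 * ps t (K + 1) + r
        + r * ps t (K + 1)) := by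
      have h1 : ps q (K + 1) ≤ ps (fun k => 0.28869 * (if k = 0 then 0 else t (k + 1) / r)
          + (1 / 9) * (cv (fun j => if j = 0 then 0 else t (j + 1) / r)
            (fun j => if j = 0 then 0 else t (j + 1) / r) k + 9 * t k + s k + cv s t k)) (K + 1) := by
        refine ps_mono _ fun k _ => ?_
        by_cases hk : k = 0
        · subst hk
          rw [H.q0, if_pos rfl]
          have a1 := cv_nonneg (a := fun j => if j = 0 then 0 else t (j + 1) / r)
            (b := fun j => if j = 0 then 0 else t (j + 1) / r)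
            (fun j => by split_ifs; exacts [le_rfl, div_nonneg (H.nt _) hr.le])
            (fun j => by split_ifs; exacts [le_rfl, div_nonneg (H.nt _) hr.le]) 0
          have a2 := cv_nonneg H.ns H.nt 0
          have a3 := H.nt 0
          have a4 := H.ns 0
          positivity
        · have h2 := H.r8 k (by omega)
          rw [if_neg hk]
          exact h2
      have nU' : ∀ j, 0 ≤ (fun j => if j = 0 then (0 : ℝ) else t (j + 1) / r) j := fun j => by
        dsimp only; split_ifs; exacts [le_rfl, div_nonneg (H.nt _) hr.le]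
      have h2 := cv_le nU' nU' (by simp) (by simp) K
      rw [← hU0] at h2
      have h3 := cv_le' H.ns H.nt (K + 1)
      have h4 : ps (fun k => 0.28869 * (if k = 0 then 0 else t (k + 1) / r)
          + (1 / 9) * (cv (fun j => if j = 0 then 0 else t (j + 1) / r)
            (fun j => if j = 0 then 0 else t (j + 1) / r) k + 9 * t k + s k + cv s t k)) (K + 1)
          = 0.28869 * U + (1 / 9) * (ps (cv (fun j => if j = 0 then 0 else t (j + 1) / r)
            (fun j => if j = 0 then 0 else t (j + 1) / r)) (K + 1) + 9 * ps t (K + 1)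
            + ps s (K + 1) + ps (cv s t) (K + 1)) := by
        rw [ps_add, ps_mul, ps_mul, ps_add, ps_add, ps_add, ps_mul]
      rw [h4] at h1
      have h5 : ps s (K + 1) * ps t (K + 1) ≤ r * ps t (K + 1) :=
        mul_le_mul_of_nonneg_right hs9 nT
      have h6 : U0 * U0 = U0 ^ 2 := by ring
      rw [h6] at h2
      linarith
    have hQ1 : ps q (K + 1) ≤ 0.28869 * E + 1 / 1500 := by
      have h1 : U0 ^ 2 ≤ 0.0207 ^ 2 := by
        apply pow_le_pow_left₀ nU0
        linarith
      have h2 : ps t (K + 1) ≤ 3 * r := iT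
      have h3 : r * ps t (K + 1) ≤ r := by nlinarith
      nlinarith
    have hP1 : ps p (K + 1) ≤ ps q (K + 1) + 1 / 1200 := by
      have h1 : ps p (K + 1) ≤ ps (fun k => q k + cv p q k) (K + 1) := ps_mono _ fun k _ => H.r4 k
      rw [ps_add] at h1
      linarith
    have hB1 : B ≤ ps p (K + 1) / 2 := by
      have h1 : B ≤ ps (fun k => (1 / 2) * p k) (K + 1) := by
        rw [hB]
        exact ps_mono _ fun k _ => by have := H.r6 k; linarith
      rw [ps_mul] at h1
      linarith
    have fE : E ≤ 1 / 50 := by linarith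
    have fB : B ≤ 1 / 50 := by linarith
    have fH : ps h (K + 1) ≤ 1 / 24 := by linarith
    have fL : ps l (K + 2) ≤ 2 * r := by
      have h1 : ps l (K + 2) = E * r + l 1 := by
        rw [eE]; field_simp; ring
      rw [h1]
      have := H.r5'
      nlinarith
    have fT : ps t (K + 2) ≤ 3 * r := by nlinarith
    have fY : ps y (K + 2) ≤ 4 * r := by nlinarith [ps_nonneg H.nh (K + 1)]
    have fG : ps g (K + 2) ≤ 5 * r := by
      have h1 : ps g (K + 2) ≤ ps (fun k => y k + cv g y k) (K + 2) := ps_mono _ fun k _ => H.r3 k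
      rw [ps_add] at h1
      nlinarith
    exact ⟨fE, fB, fL, fT, fH, fY, fG, by linarith, by linarith⟩

end H729I
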