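import Pool.Agent.Run7.h729.Iso.Asy2
import Pool.Agent.Run7.h729.Iso.Maj

/-!
# Formal logarithms of power series, functions on the strip
-/

set_option autoImplicit false

namespace H729I

open Finset

/-- the formal logarithm of a power series with constant coefficient one -/
noncomputable def lgs (F : PowerSeries ℂ) : PowerSeries ℂ :=
  PowerSeries.mk fun k => if k = 0 then 0 else
    PowerSeries.coeff (k - 1) (PowerSeries.derivative ℂ F * F⁻¹) / k

theorem lgs_zero (F : PowerSeries ℂ) : PowerSeries.coeff 0 (lgs F) = 0 := by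
  unfold lgs; simp

theorem lgs_deriv (F : PowerSeries ℂ) : PowerSeries.derivative ℂ (lgs F)
    = PowerSeries.derivative ℂ F * F⁻¹ := by
  ext k
  rw [PowerSeries.coeff_derivative]
  unfold lgs
  rw [PowerSeries.coeff_mk, if_neg (Nat.succ_ne_zero k), Nat.add_sub_cancel]
  have : ((k : ℂ) + 1) ≠ 0 := Nat.cast_add_one_ne_zero k
  push_cast
  field_simp

theorem lgs_mul {F G : PowerSeries ℂ} (hF : PowerSeries.coeff 0 F = 1)
    (hG : PowerSeries.coeff 0 G = 1) : lgs (F * G) = lgs F + lgs G := by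
  have hF' : PowerSeries.constantCoeff F = 1 := by
    rw [← PowerSeries.coeff_zero_eq_constantCoeff_apply]; exact hF
  have hG' : PowerSeries.constantCoeff G = 1 := by
    rw [← PowerSeries.coeff_zero_eq_constantCoeff_apply]; exact hG
  apply PowerSeries.derivative.ext
  · rw [map_add, lgs_deriv, lgs_deriv, lgs_deriv, Derivation.leibniz, smul_eq_mul, smul_eq_mul]
    have h1 : F * F⁻¹ = 1 := PowerSeries.mul_inv_cancel F (by rw [hF']; exact one_ne_zero)
    have h2 : G * G⁻¹ = 1 := PowerSeries.mul_inv_cancel G (by rw [hG']; exact one_ne_zero)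
    have h3 : (F * G)⁻¹ = F⁻¹ * G⁻¹ := by
      rw [PowerSeries.inv_eq_iff_mul_eq_one (by rw [map_mul, hF', hG']; norm_num)]
      linear_combination h1 + F * F⁻¹ * h2
    rw [h3]
    linear_combination (PowerSeries.derivative ℂ G * G⁻¹) * h1
      + (PowerSeries.derivative ℂ F * F⁻¹) * h2
  · rw [map_add, ← PowerSeries.coeff_zero_eq_constantCoeff_apply,
      ← PowerSeries.coeff_zero_eq_constantCoeff_apply,
      ← PowerSeries.coeff_zero_eq_constantCoeff_apply, lgs_zero, lgs_zero, lgs_zero, add_zero]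

/-- the recursion for the coefficients -/
theorem lgs_rec {F : PowerSeries ℂ} (hF : PowerSeries.coeff 0 F = 1) {k : ℕ} (hk : 1 ≤ k) :
    PowerSeries.coeff k F = PowerSeries.coeff k (lgs F)
      + ∑ j ∈ Ico 1 k, ((j : ℂ) / k) * PowerSeries.coeff j (lgs F) * PowerSeries.coeff (k - j) F := by
  have hF' : PowerSeries.constantCoeff F = 1 := by
    rw [← PowerSeries.coeff_zero_eq_constantCoeff_apply]; exact hF
  obtain ⟨k, rfl⟩ : ∃ m, k = m + 1 := ⟨k - 1, by omega⟩
  have h1 : F * F⁻¹ = 1 := PowerSeries.mul_inv_cancel F (by rw [hF']; exact one_ne_zero)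
  have h2 : PowerSeries.derivative ℂ F = PowerSeries.derivative ℂ (lgs F) * F := by
    rw [lgs_deriv]
    linear_combination (-PowerSeries.derivative ℂ F) * h1
  have h3 := congrArg (PowerSeries.coeff k) h2
  rw [PowerSeries.coeff_derivative, PowerSeries.coeff_mul,
    Finset.Nat.sum_antidiagonal_eq_sum_range_succ (fun i j => PowerSeries.coeff i
      (PowerSeries.derivative ℂ (lgs F)) * PowerSeries.coeff j F)] at h3
  simp only [PowerSeries.coeff_derivative] at h3
  rw [sum_range_succ, Nat.sub_self, hF] at h3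
  have hk0 : ((k : ℂ) + 1) ≠ 0 := Nat.cast_add_one_ne_zero k
  rw [sum_Ico_eq_sum_range, Nat.add_sub_cancel]
  have h4 : PowerSeries.coeff (k + 1) F = PowerSeries.coeff (k + 1) (lgs F)
      + (∑ x ∈ range k, PowerSeries.coeff (x + 1) (lgs F) * ((x : ℂ) + 1)
        * PowerSeries.coeff (k - x) F) / ((k : ℂ) + 1) := by
    field_simp
    linear_combination h3
  rw [h4, sum_div]
  congr 1
  refine sum_congr rfl fun x hx => ?_
  have e : k + 1 - (1 + x) = k - x := by omega
  rw [e, add_comm 1 x]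
  push_cast
  ring

/-- holomorphic and bounded functions on the strip -/
def Nic (f : ℂ → ℂ) : Prop := (∀ z : ℂ, |z.im| < 2 * Real.pi / 5 → DifferentiableAt ℂ f z) ∧
  ∃ K : ℝ, ∀ z : ℂ, |z.im| < 2 * Real.pi / 5 → ‖f z‖ ≤ K

theorem strip_open : IsOpen {z : ℂ | |z.im| < 2 * Real.pi / 5} :=
  isOpen_lt (by fun_prop) continuous_const

theorem Nic.congr {f g : ℂ → ℂ} (hf : Nic f) (h : ∀ z : ℂ, |z.im| < 2 * Real.pi / 5 → g z = f z) :
    Nic g := by
  obtain ⟨h1, K, h2⟩ := hf
  refine ⟨fun z hz => ?_, K, fun z hz => by rw [h z hz]; exact h2 z hz⟩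
  refine (h1 z hz).congr_of_eventuallyEq ?_
  filter_upwards [strip_open.mem_nhds hz] with w hw
  exact h w hw

theorem Nic.const (c : ℂ) : Nic (fun _ => c) := ⟨fun _ _ => differentiableAt_const c, ‖c‖,
  fun _ _ => le_rfl⟩

theorem Nic.add {f g : ℂ → ℂ} (hf : Nic f) (hg : Nic g) : Nic (fun z => f z + g z) := by
  obtain ⟨h1, K, h2⟩ := hf
  obtain ⟨h3, L, h4⟩ := hg
  exact ⟨fun z hz => (h1 z hz).add (h3 z hz), K + L, fun z hz =>
    (norm_add_le _ _).trans (add_le_add (h2 z hz) (h4 z hz))⟩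

theorem Nic.mul {f g : ℂ → ℂ} (hf : Nic f) (hg : Nic g) : Nic (fun z => f z * g z) := by
  obtain ⟨h1, K, h2⟩ := hf
  obtain ⟨h3, L, h4⟩ := hg
  refine ⟨fun z hz => (h1 z hz).mul (h3 z hz), |K| * |L|, fun z hz => ?_⟩
  rw [norm_mul]
  exact mul_le_mul ((h2 z hz).trans (le_abs_self K)) ((h4 z hz).trans (le_abs_self L))
    (norm_nonneg _) (abs_nonneg _)

theorem Nic.sub {f g : ℂ → ℂ} (hf : Nic f) (hg : Nic g) : Nic (fun z => f z - g z) := by
  refine (hf.add ((Nic.const (-1)).mul hg)).congr fun z _ => ?_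
  ring

theorem Nic.sum {ι : Type*} (s : Finset ι) {f : ι → ℂ → ℂ} (hf : ∀ i ∈ s, Nic (f i)) :
    Nic (fun z => ∑ i ∈ s, f i z) := by
  classical
  induction s using Finset.induction_on with
  | empty => simpa using Nic.const 0
  | insert a s ha ih =>
    refine ((hf a (mem_insert_self a s)).add (ih fun i hi => hf i (mem_insert_of_mem hi))).congr
      fun z _ => ?_
    rw [sum_insert ha]

theorem nic_lgs {F : ℂ → PowerSeries ℂ}
    (h0 : ∀ z : ℂ, |z.im| < 2 * Real.pi / 5 → PowerSeries.coeff 0 (F z) = 1)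
    (h : ∀ k, Nic (fun z => PowerSeries.coeff k (F z))) (k : ℕ) :
    Nic (fun z => PowerSeries.coeff k (lgs (F z))) := by
  induction k using Nat.strong_induction_on with
  | _ k ih =>
    rcases Nat.eq_zero_or_pos k with rfl | hk
    · exact (Nic.const 0).congr fun z _ => lgs_zero _
    · refine ((h k).sub (Nic.sum (Ico 1 k) (f := fun j z => ((j : ℂ) / k) *
        PowerSeries.coeff j (lgs (F z)) * PowerSeries.coeff (k - j) (F z))
        fun j hj => ((Nic.const ((j : ℂ) / k)).mul (ih j (mem_Ico.1 hj).2)).mul (h (k - j)))).congr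
          fun z hz => ?_
      rw [lgs_rec (h0 z hz) hk]
      ring

/-- the sup norm on the line -/
noncomputable def sn1 (f : ℝ → ℂ) : ℝ := ⨆ u, ‖f u‖

def Bd (f : ℝ → ℂ) : Prop := BddAbove (Set.range fun u => ‖f u‖)

theorem le_sn {f : ℝ → ℂ} (h : Bd f) (u : ℝ) : ‖f u‖ ≤ sn1 f := le_ciSup h u

theorem sn_le {f : ℝ → ℂ} {c : ℝ} (h : ∀ u, ‖f u‖ ≤ c) : sn1 f ≤ c := ciSup_le h

theorem sn_nonneg1 (f : ℝ → ℂ) : 0 ≤ sn1 f := Real.iSup_nonneg fun _ => norm_nonneg _

theorem Nic.bd {f : ℂ → ℂ} (h : Nic f) : Bd (fun u : ℝ => f u) := by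
  obtain ⟨-, K, h2⟩ := h
  refine ⟨K, ?_⟩
  rintro _ ⟨u, rfl⟩
  apply h2
  rw [Complex.ofReal_im, abs_zero]
  positivity

theorem Nic.bd_line {f : ℂ → ℂ} (h : Nic f) {c : ℝ} (hc : |c| < 2 * Real.pi / 5) :
    Bd (fun u : ℝ => f (u + c * Complex.I)) := by
  obtain ⟨-, K, h2⟩ := h
  refine ⟨K, ?_⟩
  rintro _ ⟨u, rfl⟩
  apply h2
  simpa using hc

/-- the representation formula on the strip -/
theorem Nic.rep {f : ℂ → ℂ} (h : Nic f) (l : ℝ) :
    f l = ∫ u : ℝ, (H906K.kk (l - u) : ℂ) * (f (u + Real.pi / 3 * Complex.I)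
      + f (u - Real.pi / 3 * Complex.I)) := by
  obtain ⟨h1, K, h2⟩ := h
  have hpi := Real.pi_pos
  exact H906K.strip_rep f K (fun z hz => h1 z (by linarith)) (fun z hz => h2 z (by linarith)) l

theorem Nic.rep_le {f : ℂ → ℂ} (h : Nic f) {c : ℝ} (hc : ∀ u : ℝ,
    ‖f (u + Real.pi / 3 * Complex.I) + f (u - Real.pi / 3 * Complex.I)‖ ≤ c) (l : ℝ) :
    ‖f l‖ ≤ c / 2 := by
  rw [h.rep l]
  have h1 := MeasureTheory.norm_integral_le_of_norm_le
    (f := fun u => (H906K.kk (l - u) : ℂ) * (f (u + Real.pi / 3 * Complex.I)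
      + f (u - Real.pi / 3 * Complex.I)))
    ((H906K.a2a_integrable_shift l).mul_const c) (Filter.Eventually.of_forall fun u => by
      rw [norm_mul, Complex.norm_real, Real.norm_eq_abs, abs_of_pos (H906K.kk_pos _)]
      exact mul_le_mul_of_nonneg_left (hc u) (H906K.kk_pos _).le)
  rw [MeasureTheory.integral_mul_const, H906K.a2a_integral_shift] at h1
  linarith

end H729I
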