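import Pool.Agent.Run7.h729.Iso.Cla

/-!
# Blocks of rows: the Markov property
-/

set_option autoImplicit false

namespace H729I
open H906K Pool.Agent.H974R3 Polynomial Complex Filter Topology

variable {n : ℕ} {t : (PowerSeries ℂ)[X]} {w : Pat (2 * n + 1) → PowerSeries ℂ}
  {μ : Pat (2 * n + 1) → ℝ}

/-- the environment from the row `K` on -/
def shf (K : ℕ) (ϑ : ℕ → ℝ) : ℕ → ℝ := fun t => ϑ (K + t)

theorem shf_cat (K : ℕ) (ϑ : ℕ → ℝ) : shf K (cat K ϑ) = ϑ := by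
  funext t
  exact cat_add K ϑ t

theorem EE_prod {V : Type*} [AddCommGroup V] [Module ℝ V] (ϑ : ℕ → ℝ) (K M : ℕ)
    (Ξ : Conf n K → Conf n M → V) :
    EE (det n ϑ) (K + M) (fun c => Ξ (rows c K) (rgh K c))
      = EE (det n ϑ) K (fun c' => EE (det n (shf K ϑ)) M (fun ω => Ξ c' ω)) := by
  induction M with
  | zero =>
    show EE (det n ϑ) K (fun c : Conf n K => Ξ (rows c K) (rgh K (m := 0) c)) = _
    congr 1
    funext c
    have e1 : rows c K = c := rows_self c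
    have e2 : rgh K (m := 0) c = fun t => t.elim0 := by
      funext i; exact i.elim0
    rw [EE_zero, e1, e2]
  | succ M ih =>
    show EE (det n ϑ) (K + M + 1) _ = _
    rw [EE_succ]
    have h1 := ih (fun c' ω => ∑ b : Fin (2 * n + 1) → Bool, rw1 n (prob (ϑ (K + M))) b • Ξ c' (app ω b))
    have e1 : (fun c : Conf n (K + M) => ∑ b : Fin (2 * n + 1) → Bool,
        rw1 n (prob (det n ϑ (K + M) c)) b • Ξ (rows (app c b) K) (rgh K (m := M + 1) (app c b)))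
        = fun c => ∑ b : Fin (2 * n + 1) → Bool, rw1 n (prob (ϑ (K + M))) b
          • Ξ (rows c K) (app (rgh K c) b) := by
      funext c
      refine Finset.sum_congr rfl fun b _ => ?_
      rw [rgh_app, rows_app c b (by omega)]
      rfl
    show EE (det n ϑ) (K + M) (fun c : Conf n (K + M) => ∑ b : Fin (2 * n + 1) → Bool,
        rw1 n (prob (det n ϑ (K + M) c)) b • Ξ (rows (app c b) K) (rgh K (m := M + 1) (app c b))) = _
    rw [e1, h1]
    congr 1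
    funext c'
    rw [EE_succ]
    rfl

theorem cc_split {K M : ℕ} (c : Conf n (K + M)) : cc (rows c K) (rgh K c) = c := by
  funext i
  unfold cc
  refine Fin.addCases (fun i => ?_) (fun i => ?_) i
  · rw [Fin.append_left]
    funext j
    unfold rows
    rw [dif_pos (show ((i : ℕ)) < K + M by omega)]
    rfl
  · rw [Fin.append_right]
    rfl

theorem dis_split {K M : ℕ} (c : Conf n (K + M)) :
    dis c = dis (rows c K) + ((run (2 * n) M (rgh K c) (pat (rows c K))).2 : ℝ) ∧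
    pat c = (run (2 * n) M (rgh K c) (pat (rows c K))).1 := by
  have h := run_cc (rows c K) (rgh K c) (start n)
  rw [cc_split] at h
  unfold dis pat
  rw [h]
  refine ⟨?_, rfl⟩
  push_cast
  rfl

/-- the phase of a displacement -/
noncomputable def phs (n : ℕ) (α : ℝ) (d : ℤ) : ℂ := cexp ((d : ℂ) / (2 * n + 1) * I * α)

theorem phs_norm (α : ℝ) (d : ℤ) : ‖phs n α d‖ = 1 := by
  unfold phs
  have : (d : ℂ) / (2 * n + 1) * I * α = (((d : ℝ) / (2 * n + 1) * α : ℝ) : ℂ) * I := by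
    push_cast; ring
  rw [this, Complex.norm_exp_ofReal_mul_I]

theorem phs_add (α : ℝ) (d d' : ℤ) : phs n α (d + d') = phs n α d * phs n α d' := by
  unfold phs
  rw [← Complex.exp_add]
  congr 1
  push_cast
  ring

/-- the operator of a block of rows -/
noncomputable def Bk (n : ℕ) (ϑ : ℕ → ℝ) (M : ℕ) (α : ℝ) (F : Pat (2 * n + 1) → ℂ)
    (σ : Pat (2 * n + 1)) : ℂ :=
  EE (det n ϑ) M (fun ω => phs n α (run (2 * n) M ω σ).2 * F (run (2 * n) M ω σ).1)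

/-- the operator of one row -/
noncomputable def Hs (n : ℕ) (θ : ℝ) (α : ℝ) (F : Pat (2 * n + 1) → ℂ) (σ : Pat (2 * n + 1)) : ℂ :=
  ∑ b : Fin (2 * n + 1) → Bool, ((rw1 n (prob θ) b : ℝ) : ℂ) * (phs n α (dTc (2 * n) b σ)
    * F (Tc (2 * n) b σ))

theorem Bk_zero (ϑ : ℕ → ℝ) (α : ℝ) (F : Pat (2 * n + 1) → ℂ) : Bk n ϑ 0 α F = F := by
  funext σ
  unfold Bk
  rw [EE_zero]
  show phs n α 0 * F σ = F σ
  unfold phs
  simp

theorem Bk_succ (ϑ : ℕ → ℝ) (M : ℕ) (α : ℝ) (F : Pat (2 * n + 1) → ℂ) :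
    Bk n ϑ (M + 1) α F = Bk n ϑ M α (Hs n (ϑ M) α F) := by
  funext σ
  unfold Bk
  rw [EE_succ]
  congr 1
  funext ω
  unfold Hs
  rw [Finset.mul_sum]
  refine Finset.sum_congr rfl fun b _ => ?_
  rw [run_app', phs_add, Complex.real_smul]
  show ((rw1 n (prob (ϑ M)) b : ℝ) : ℂ) * _ = _
  ring

theorem Hs_Ps (h : Eg n t w μ) {α : ℝ} (hα : |α| ≤ 1 / 10000) {θ : ℝ} (hθ : θ ∈ Set.Icc 0 Real.pi) :
    Hs n θ α (Ps h α) = fun σ => ev α (tz n t ((ph θ : ℂ) * I)) * Ps h α σ := by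
  funext σ
  have hz : ‖(α : ℂ)‖ ≤ 1 / 10000 := by rwa [Complex.norm_real, Real.norm_eq_abs]
  rw [← Ps_eig h hz hθ σ]
  unfold Hs phs
  refine Finset.sum_congr rfl fun b _ => ?_
  ring

theorem EE_cmul {M : ℕ} (θ : Strat n) (a : ℂ) (F : Conf n M → ℂ) :
    EE θ M (fun c => a * F c) = a * EE θ M F := by
  unfold EE
  rw [Finset.mul_sum]
  refine Finset.sum_congr rfl fun c _ => ?_
  rw [Complex.real_smul, Complex.real_smul]
  ring

theorem Bk_cmul (ϑ : ℕ → ℝ) (M : ℕ) (α : ℝ) (a : ℂ) (F : Pat (2 * n + 1) → ℂ) (σ : Pat (2 * n + 1)) :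
    Bk n ϑ M α (fun τ => a * F τ) σ = a * Bk n ϑ M α F σ := by
  unfold Bk
  rw [← EE_cmul]
  congr 1
  funext ω
  ring

theorem Bk_sub (ϑ : ℕ → ℝ) (M : ℕ) (α : ℝ) (F G : Pat (2 * n + 1) → ℂ) (σ : Pat (2 * n + 1)) :
    Bk n ϑ M α (fun τ => F τ - G τ) σ = Bk n ϑ M α F σ - Bk n ϑ M α G σ := by
  unfold Bk
  rw [← EE_sub]
  congr 1
  funext ω
  ring

/-- the eigenvalue -/
noncomputable def lm (t : (PowerSeries ℂ)[X]) (n : ℕ) (α θ : ℝ) : ℂ := ev α (tz n t ((ph θ : ℂ) * I))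

theorem Bk_Ps (h : Eg n t w μ) {α : ℝ} (hα : |α| ≤ 1 / 10000) {ϑ : ℕ → ℝ}
    (hϑ : ∀ t, ϑ t ∈ Set.Icc 0 Real.pi) (M : ℕ) (σ : Pat (2 * n + 1)) :
    Bk n ϑ M α (Ps h α) σ = (∏ s ∈ Finset.range M, lm t n α (ϑ s)) * Ps h α σ := by
  induction M generalizing σ with
  | zero => rw [Bk_zero]; simp
  | succ M ih =>
    rw [Bk_succ, Hs_Ps h hα (hϑ M), Bk_cmul, ih, Finset.prod_range_succ]
    unfold lm
    ring

theorem EE_pat (ϑ : ℕ → ℝ) (M : ℕ) (F : Pat (2 * n + 1) → ℝ) (σ : Pat (2 * n + 1)) :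
    EE (det n ϑ) M (fun ω => F (run (2 * n) M ω σ).1) = QQ n ϑ M F σ := by
  induction M generalizing F with
  | zero => rw [EE_zero]; rfl
  | succ M ih =>
    rw [EE_succ]
    show _ = QQ n ϑ M (Qo n (ϑ M) F) σ
    rw [← ih]
    congr 1
    funext ω
    unfold Qo
    refine Finset.sum_congr rfl fun b _ => ?_
    rw [run_app', smul_eq_mul]
    rfl

theorem Bk_norm {ϑ : ℕ → ℝ} (hϑ : ∀ t, ϑ t ∈ Set.Icc 0 Real.pi) (M : ℕ) (α : ℝ)
    (F : Pat (2 * n + 1) → ℂ) (σ : Pat (2 * n + 1)) :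
    ‖Bk n ϑ M α F σ‖ ≤ QQ n ϑ M (fun τ => ‖F τ‖) σ := by
  unfold Bk
  refine (EE_norm (det_adm hϑ) _).trans (le_of_eq ?_)
  rw [← EE_pat]
  congr 1
  funext ω
  rw [norm_mul, phs_norm, one_mul]

/-- the `L^1` norm of the stationary law -/
noncomputable def n1 (μ : Pat (2 * n + 1) → ℝ) (F : Pat (2 * n + 1) → ℂ) : ℝ := ∑ σ, μ σ * ‖F σ‖

theorem n1_Bk (h : Eg n t w μ) {ϑ : ℕ → ℝ} (hϑ : ∀ t, ϑ t ∈ Set.Icc 0 Real.pi) (M : ℕ) (α : ℝ)
    (F : Pat (2 * n + 1) → ℂ) : n1 μ (Bk n ϑ M α F) ≤ n1 μ F := by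
  unfold n1
  rw [← QQ_stat h.ms hϑ M (fun τ => ‖F τ‖)]
  exact Finset.sum_le_sum fun σ _ => mul_le_mul_of_nonneg_left (Bk_norm hϑ M α F σ) (mu_nonneg h σ)

theorem n1_add (h : Eg n t w μ) (F G : Pat (2 * n + 1) → ℂ) :
    n1 μ (fun σ => F σ + G σ) ≤ n1 μ F + n1 μ G := by
  unfold n1
  rw [← Finset.sum_add_distrib]
  refine Finset.sum_le_sum fun σ _ => ?_
  rw [← mul_add]
  exact mul_le_mul_of_nonneg_left (norm_add_le _ _) (mu_nonneg h σ)

theorem n1_cmul (a : ℂ) (F : Pat (2 * n + 1) → ℂ) : n1 μ (fun σ => a * F σ) = ‖a‖ * n1 μ F := by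
  unfold n1
  rw [Finset.mul_sum]
  refine Finset.sum_congr rfl fun σ _ => ?_
  rw [norm_mul]; ring

theorem n1_neg (F : Pat (2 * n + 1) → ℂ) : n1 μ (fun σ => -F σ) = n1 μ F := by
  unfold n1
  simp only [norm_neg]

theorem n1_const (h : Eg n t w μ) (a : ℂ) : n1 μ (fun _ => a) = ‖a‖ := by
  unfold n1
  rw [← Finset.sum_mul, h.m1, one_mul]

theorem n1_nonneg (h : Eg n t w μ) (F : Pat (2 * n + 1) → ℂ) : 0 ≤ n1 μ F :=
  Finset.sum_nonneg fun σ _ => mul_nonneg (mu_nonneg h σ) (norm_nonneg _)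

theorem mu_n1 (h : Eg n t w μ) (F : Pat (2 * n + 1) → ℂ) :
    ‖∑ σ, ((μ σ : ℝ) : ℂ) * F σ‖ ≤ n1 μ F := by
  unfold n1
  refine (norm_sum_le _ _).trans (Finset.sum_le_sum fun σ _ => ?_)
  rw [norm_mul, Complex.norm_real, Real.norm_of_nonneg (mu_nonneg h σ)]

/-- the block operator applied to one, as a mean value above `K` homogeneous rows -/
theorem EE_block (ϑ : ℕ → ℝ) (K M : ℕ) (α : ℝ) (F : Pat (2 * n + 1) → ℂ) :
    EE (det n (cat K ϑ)) (K + M) (fun c => cexp (((dis c - dis (rows c K) : ℝ) : ℂ) / (2 * n + 1)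
      * I * α) * F (pat c)) = EE (det n (cat K ϑ)) K (fun c => Bk n ϑ M α F (pat c)) := by
  have h := EE_prod (V := ℂ) (cat K ϑ) K M (fun c' ω => phs n α (run (2 * n) M ω (pat c')).2
    * F (run (2 * n) M ω (pat c')).1)
  rw [shf_cat] at h
  unfold Bk
  rw [← h]
  congr 1
  funext c
  obtain ⟨h1, h2⟩ := dis_split c
  rw [← h2]
  congr 1
  unfold phs
  congr 3
  have : dis c - dis (rows c K) = ((run (2 * n) M (rgh K c) (pat (rows c K))).2 : ℝ) := by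
    linarith
  rw [this]
  push_cast
  rfl

end H729I
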