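import Pool.Agent.Run7.h729.Iso.Chf

/-!
# Exponential supermartingales and the maximal inequality
-/

set_option autoImplicit false

namespace H729I
open H906K Pool.Agent.H974R3 Set

variable {n : ℕ} {f g : Pat (2 * n + 1) → ℝ} {v D : ℝ → ℝ}

/-- one row, real version -/
theorem step_real (h : Crr n f g v D) {R : ℝ} (hB : Bnd n f g v D R) {θ : ℝ}
    (hθ : θ ∈ Icc 0 Real.pi) (σ : Pat (2 * n + 1)) (l : ℝ) (hl : |l| * R ≤ 1) :
    ∑ b : Fin (2 * n + 1) → Bool, rw1 n (prob θ) b *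
        (Real.exp (l * inc f v θ σ b - l ^ 2 * D θ / 2) * (1 + l ^ 2 * g (Tc (2 * n) b σ) / 2))
      ≤ 1 + l ^ 2 * g σ / 2 + 6 * R ^ 3 * (|l| ^ 3 * Real.sin θ) := by
  have h1 := step_row h hB hθ σ 1 (by simp) l hl
  have e : (∑ b : Fin (2 * n + 1) → Bool, (rw1 n (prob θ) b : ℂ) *
        (Complex.exp ((1 : ℂ) * (l * inc f v θ σ b) - (1 : ℂ) ^ 2 * ((l : ℂ) ^ 2 * D θ) / 2)
          * (1 + (1 : ℂ) ^ 2 * ((l : ℂ) ^ 2 * g (Tc (2 * n) b σ)) / 2))
      - (1 + (1 : ℂ) ^ 2 * ((l : ℂ) ^ 2 * g σ) / 2))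
      = ((∑ b : Fin (2 * n + 1) → Bool, rw1 n (prob θ) b *
        (Real.exp (l * inc f v θ σ b - l ^ 2 * D θ / 2) * (1 + l ^ 2 * g (Tc (2 * n) b σ) / 2))
        - (1 + l ^ 2 * g σ / 2) : ℝ) : ℂ) := by
    push_cast
    congr 1
    · refine Finset.sum_congr rfl fun b _ => ?_
      congr 2
      · congr 1; ring
      · ring
    · ring
  rw [e, Complex.norm_real, Real.norm_eq_abs] at h1
  have h2 := (abs_le.1 h1).2
  have e3 : |l| ^ 3 = |l| * l ^ 2 := by rw [pow_succ', sq_abs]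
  rw [e3]
  have e4 : 6 * R ^ 3 * |l| * (l ^ 2 * Real.sin θ) = 6 * R ^ 3 * (|l| * l ^ 2 * Real.sin θ) := by ring
  rw [e4] at h2
  linarith

/-- the exponent of the compensator -/
noncomputable def Ee (D : ℝ → ℝ) (R : ℝ) (θ l : Strat n) (M : ℕ) (c : Conf n M) : ℝ :=
  AA D θ l M c / 2 + 12 * R ^ 3 * Sm (fun t c => |l t c| ^ 3 * Real.sin (θ t c)) M c
    + R * TV2 l M c

/-- the supermartingale -/
noncomputable def Vv (f g : Pat (2 * n + 1) → ℝ) (v D : ℝ → ℝ) (R : ℝ) (θ l : Strat n) (M : ℕ)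
    (c : Conf n M) : ℝ :=
  Real.exp (NN f v θ l M c - Ee D R θ l M c) * (1 + l M c ^ 2 * g (pat c) / 2)

theorem half_le {R l G : ℝ} (hR : 1 ≤ R) (hl : |l| * R ≤ 1) (hG : |G| ≤ R) :
    1 / 2 ≤ 1 + l ^ 2 * G / 2 := by
  have h1 := (abs_le.1 hG).1
  have hl0 := abs_nonneg l
  have h2 : |l| ≤ 1 := by nlinarith
  have h3 : l ^ 2 * R ≤ 1 := by
    rw [← sq_abs]
    nlinarith
  have h4 : l ^ 2 * (-R) ≤ l ^ 2 * G := mul_le_mul_of_nonneg_left h1 (sq_nonneg l)
  linarith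

theorem Vv_step (h : Crr n f g v D) {R : ℝ} (hB : Bnd n f g v D R) {θ : Strat n} (hθ : Adm θ)
    (l : Strat n) (hl : ∀ t c, |l t c| * R ≤ 1) (M : ℕ) (c : Conf n M) :
    ∑ b : Fin (2 * n + 1) → Bool, rw1 n (prob (θ M c)) b * Vv f g v D R θ l (M + 1) (app c b)
      ≤ Vv f g v D R θ l M c := by
  have hR := hB.one
  have hR0 : 0 < R := by linarith
  set ϑ := θ M c with hϑ
  set l0 := l M c with hl0
  have hmem := hθ M c
  have hp := prob_mem hmem
  have hs : 0 ≤ Real.sin ϑ := Real.sin_nonneg_of_nonneg_of_le_pi hmem.1 hmem.2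
  have hhalf := half_le hR (hl M c) (hB.bg (pat c))
  set pre : ℝ := Real.exp (NN f v θ l M c - Ee D R θ l M c) with hpre
  have hpre0 : 0 < pre := Real.exp_pos _
  set dm : ℝ := Real.exp (-(12 * R ^ 3 * (|l0| ^ 3 * Real.sin ϑ))) with hdm
  have hdm0 : 0 < dm := Real.exp_pos _
  have hterm : ∀ b, Vv f g v D R θ l (M + 1) (app c b)
      ≤ pre * dm * (Real.exp (l0 * inc f v ϑ (pat c) b - l0 ^ 2 * D ϑ / 2)
        * (1 + l0 ^ 2 * g (Tc (2 * n) b (pat c)) / 2)) := by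
    intro b
    set l1 := l (M + 1) (app c b) with hl1
    have hg1 := hB.bg (Tc (2 * n) b (pat c))
    have hh0 := half_le hR (hl M c) hg1
    have hr : 1 + l1 ^ 2 * g (Tc (2 * n) b (pat c)) / 2
        ≤ (1 + l0 ^ 2 * g (Tc (2 * n) b (pat c)) / 2) * Real.exp (R * |l1 ^ 2 - l0 ^ 2|) := by
      have h1 : (l1 ^ 2 - l0 ^ 2) * g (Tc (2 * n) b (pat c)) ≤ |l1 ^ 2 - l0 ^ 2| * R := by
        refine (le_abs_self _).trans ?_
        rw [abs_mul]
        exact mul_le_mul_of_nonneg_left hg1 (abs_nonneg _)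
      have h2 := Real.add_one_le_exp (R * |l1 ^ 2 - l0 ^ 2|)
      have h3 : 0 ≤ R * |l1 ^ 2 - l0 ^ 2| := mul_nonneg hR0.le (abs_nonneg _)
      have h4 : (1 + l0 ^ 2 * g (Tc (2 * n) b (pat c)) / 2) * (R * |l1 ^ 2 - l0 ^ 2| + 1)
          ≤ (1 + l0 ^ 2 * g (Tc (2 * n) b (pat c)) / 2) * Real.exp (R * |l1 ^ 2 - l0 ^ 2|) :=
        mul_le_mul_of_nonneg_left h2 (by linarith)
      have h5 : 1 / 2 * (R * |l1 ^ 2 - l0 ^ 2|)
          ≤ (1 + l0 ^ 2 * g (Tc (2 * n) b (pat c)) / 2) * (R * |l1 ^ 2 - l0 ^ 2|) :=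
        mul_le_mul_of_nonneg_right hh0 h3
      linarith
    have hE : Ee D R θ l (M + 1) (app c b) = Ee D R θ l M c + l0 ^ 2 * D ϑ / 2
        + 12 * R ^ 3 * (|l0| ^ 3 * Real.sin ϑ) + R * |l1 ^ 2 - l0 ^ 2| := by
      unfold Ee
      rw [AA_app, Sm_app, TV2_app]
      ring
    unfold Vv
    rw [(run_app c b).1, NN_app, hE]
    have e1 : Real.exp (NN f v θ l M c + l0 * inc f v ϑ (pat c) b - (Ee D R θ l M c
          + l0 ^ 2 * D ϑ / 2 + 12 * R ^ 3 * (|l0| ^ 3 * Real.sin ϑ) + R * |l1 ^ 2 - l0 ^ 2|))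
        = pre * dm * Real.exp (l0 * inc f v ϑ (pat c) b - l0 ^ 2 * D ϑ / 2)
          * Real.exp (-(R * |l1 ^ 2 - l0 ^ 2|)) := by
      rw [hpre, hdm, ← Real.exp_add, ← Real.exp_add, ← Real.exp_add]
      congr 1
      ring
    rw [e1]
    have e2 : Real.exp (-(R * |l1 ^ 2 - l0 ^ 2|)) * Real.exp (R * |l1 ^ 2 - l0 ^ 2|) = 1 := by
      rw [← Real.exp_add, neg_add_cancel, Real.exp_zero]
    calc pre * dm * Real.exp (l0 * inc f v ϑ (pat c) b - l0 ^ 2 * D ϑ / 2)
          * Real.exp (-(R * |l1 ^ 2 - l0 ^ 2|)) * (1 + l1 ^ 2 * g (Tc (2 * n) b (pat c)) / 2)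
        ≤ pre * dm * Real.exp (l0 * inc f v ϑ (pat c) b - l0 ^ 2 * D ϑ / 2)
          * Real.exp (-(R * |l1 ^ 2 - l0 ^ 2|)) *
          ((1 + l0 ^ 2 * g (Tc (2 * n) b (pat c)) / 2) * Real.exp (R * |l1 ^ 2 - l0 ^ 2|)) :=
          mul_le_mul_of_nonneg_left hr (by positivity)
      _ = pre * dm * (Real.exp (l0 * inc f v ϑ (pat c) b - l0 ^ 2 * D ϑ / 2)
          * (1 + l0 ^ 2 * g (Tc (2 * n) b (pat c)) / 2)) *
          (Real.exp (-(R * |l1 ^ 2 - l0 ^ 2|)) * Real.exp (R * |l1 ^ 2 - l0 ^ 2|)) := by ring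
      _ = _ := by rw [e2, mul_one]
  calc ∑ b : Fin (2 * n + 1) → Bool, rw1 n (prob ϑ) b * Vv f g v D R θ l (M + 1) (app c b)
      ≤ ∑ b : Fin (2 * n + 1) → Bool, rw1 n (prob ϑ) b *
        (pre * dm * (Real.exp (l0 * inc f v ϑ (pat c) b - l0 ^ 2 * D ϑ / 2)
          * (1 + l0 ^ 2 * g (Tc (2 * n) b (pat c)) / 2))) :=
        Finset.sum_le_sum fun b _ => mul_le_mul_of_nonneg_left (hterm b) (rw1_nonneg n hp b)
    _ = pre * dm * ∑ b : Fin (2 * n + 1) → Bool, rw1 n (prob ϑ) b *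
        (Real.exp (l0 * inc f v ϑ (pat c) b - l0 ^ 2 * D ϑ / 2)
          * (1 + l0 ^ 2 * g (Tc (2 * n) b (pat c)) / 2)) := by
        rw [Finset.mul_sum]
        exact Finset.sum_congr rfl fun b _ => by ring
    _ ≤ pre * dm * (1 + l0 ^ 2 * g (pat c) / 2 + 6 * R ^ 3 * (|l0| ^ 3 * Real.sin ϑ)) :=
        mul_le_mul_of_nonneg_left (step_real h hB hmem (pat c) l0 (hl M c)) (by positivity)
    _ ≤ pre * dm * ((1 + l0 ^ 2 * g (pat c) / 2)
          * Real.exp (12 * R ^ 3 * (|l0| ^ 3 * Real.sin ϑ))) := by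
        apply mul_le_mul_of_nonneg_left _ (by positivity)
        have h2 := Real.add_one_le_exp (12 * R ^ 3 * (|l0| ^ 3 * Real.sin ϑ))
        have h3 : 0 ≤ 12 * R ^ 3 * (|l0| ^ 3 * Real.sin ϑ) := by positivity
        have h4 := mul_le_mul_of_nonneg_left h2 (show 0 ≤ 1 + l0 ^ 2 * g (pat c) / 2 by linarith)
        have h5 := mul_le_mul_of_nonneg_right hhalf h3
        linarith
    _ = pre * (1 + l0 ^ 2 * g (pat c) / 2) *
          (dm * Real.exp (12 * R ^ 3 * (|l0| ^ 3 * Real.sin ϑ))) := by ring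
    _ = Vv f g v D R θ l M c := by
        rw [hdm, ← Real.exp_add, neg_add_cancel, Real.exp_zero, mul_one]
        rfl

open Classical in
/-- the maximal inequality for nonnegative supermartingales -/
theorem max_ineq {θ : Strat n} (hθ : Adm θ) (V : (t : ℕ) → Conf n t → ℝ)
    (hV : ∀ t c, ∑ b : Fin (2 * n + 1) → Bool, rw1 n (prob (θ t c)) b * V (t + 1) (app c b)
      ≤ V t c) (hV0 : ∀ t c, 0 ≤ V t c) {y : ℝ} (M : ℕ) :
    y * EE θ M (fun c => if ∃ t ≤ M, y ≤ V t (rows c t) then (1 : ℝ) else 0)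
      ≤ V 0 (fun t => t.elim0) := by
  set W : (m : ℕ) → Conf n m → ℝ := fun m c => if ∃ t ≤ m, y ≤ V t (rows c t) then y else V m c
    with hW
  have hdec : ∀ m, EE θ (m + 1) (W (m + 1)) ≤ EE θ m (W m) := by
    intro m
    rw [EE_succ]
    refine EE_mono hθ fun c => ?_
    by_cases hc : ∃ t ≤ m, y ≤ V t (rows c t)
    · have e1 : W m c = y := if_pos hc
      have e2 : ∀ b, W (m + 1) (app c b) = y := by
        intro b
        obtain ⟨t, ht, hy⟩ := hc
        exact if_pos ⟨t, by omega, by rw [rows_app c b ht]; exact hy⟩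
      rw [e1]
      simp only [e2, smul_eq_mul]
      rw [← Finset.sum_mul, rw1_sum, one_mul]
    · have e1 : W m c = V m c := if_neg hc
      have e2 : ∀ b, W (m + 1) (app c b) ≤ V (m + 1) (app c b) := by
        intro b
        rw [hW]
        dsimp only
        split_ifs with hh
        · obtain ⟨t, ht, hy⟩ := hh
          rcases Nat.lt_or_ge m t with h1 | h1
          · have : t = m + 1 := by omega
            subst this
            rw [rows_self] at hy
            exact hy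
          · exfalso
            apply hc
            exact ⟨t, h1, by rw [rows_app c b h1] at hy; exact hy⟩
        · exact le_rfl
      rw [e1]
      refine le_trans ?_ (hV m c)
      exact Finset.sum_le_sum fun b _ => mul_le_mul_of_nonneg_left (e2 b)
        (rw1_nonneg n (prob_mem (hθ m c)) b)
  have hall : ∀ m, EE θ m (W m) ≤ W 0 (fun t => t.elim0) := by
    intro m
    induction m with
    | zero => rw [EE_zero]
    | succ m ih => exact (hdec m).trans ih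
  have h0 : W 0 (fun t => t.elim0) ≤ V 0 (fun t => t.elim0) := by
    rw [hW]
    dsimp only
    split_ifs with hh
    · obtain ⟨t, ht, hy⟩ := hh
      have : t = 0 := by omega
      subst this
      rw [rows_self] at hy
      exact hy
    · exact le_rfl
  refine le_trans ?_ ((hall M).trans h0)
  rw [← EE_mul]
  refine EE_mono hθ fun c => ?_
  rw [hW]
  dsimp only
  split_ifs with hh
  · rw [mul_one]
  · rw [mul_zero]; exact hV0 M c

open Classical in
theorem tail_NN (h : Crr n f g v D) {R : ℝ} (hB : Bnd n f g v D R) {θ : Strat n} (hθ : Adm θ)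
    (l : Strat n) (hl : ∀ t c, |l t c| * R ≤ 1) {L y : ℝ} (M : ℕ)
    (hL : ∀ t ≤ M, ∀ c : Conf n t, Ee D R θ l t c ≤ L) :
    EE θ M (fun c => if ∃ t ≤ M, y ≤ NN f v θ l t (rows c t) then (1 : ℝ) else 0)
      ≤ 3 * Real.exp (L - y) := by
  have hR := hB.one
  set y' : ℝ := Real.exp (y - L) / 2 with hy'
  have hy0 : 0 < y' := by positivity
  have h1 := max_ineq hθ (Vv f g v D R θ l) (Vv_step h hB hθ l hl) (fun t c => by
    unfold Vv
    exact mul_nonneg (Real.exp_pos _).le (by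
      have := half_le hR (hl t c) (hB.bg (pat c))
      linarith)) (y := y') M
  have h2 : Vv f g v D R θ l 0 (fun t => t.elim0) ≤ 3 / 2 := by
    unfold Vv
    have e1 : Ee D R θ l 0 (fun t => t.elim0) = 0 := by
      unfold Ee
      have e0 : AA D θ l 0 (fun t => t.elim0) = 0 := Sm_zero _ _
      rw [e0, Sm_zero, TV2_zero]
      ring
    rw [NN_zero, e1, sub_zero, Real.exp_zero, one_mul]
    have hG := (abs_le.1 (hB.bg (pat (fun t => t.elim0 : Conf n 0)))).2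
    have hl0 := hl 0 (fun t => t.elim0)
    have ha := abs_nonneg (l 0 (fun t => t.elim0 : Conf n 0))
    have h3 : l 0 (fun t => t.elim0) ^ 2 * R ≤ 1 := by
      have h2 : |l 0 (fun t => t.elim0)| ≤ 1 := by nlinarith
      rw [← sq_abs]
      nlinarith
    have h4 := mul_le_mul_of_nonneg_left hG (sq_nonneg (l 0 (fun t => t.elim0)))
    linarith
  have h3 : EE θ M (fun c => if ∃ t ≤ M, y ≤ NN f v θ l t (rows c t) then (1 : ℝ) else 0)
      ≤ EE θ M (fun c => if ∃ t ≤ M, y' ≤ Vv f g v D R θ l t (rows c t) then (1 : ℝ) else 0) := by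
    refine EE_mono hθ fun c => ?_
    by_cases hc : ∃ t ≤ M, y ≤ NN f v θ l t (rows c t)
    · have hc2 : ∃ t ≤ M, y' ≤ Vv f g v D R θ l t (rows c t) := by
        obtain ⟨t, ht, hy⟩ := hc
        refine ⟨t, ht, ?_⟩
        unfold Vv
        have a1 := half_le hR (hl t (rows c t)) (hB.bg (pat (rows c t)))
        have a2 := hL t ht (rows c t)
        calc y' = Real.exp (y - L) * (1 / 2) := by rw [hy']; ring
          _ ≤ _ := mul_le_mul (Real.exp_le_exp.2 (by linarith)) a1 (by norm_num) (Real.exp_pos _).le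
      rw [if_pos hc, if_pos hc2]
    · rw [if_neg hc]
      split_ifs <;> norm_num
  have h4 : EE θ M (fun c => if ∃ t ≤ M, y' ≤ Vv f g v D R θ l t (rows c t) then (1 : ℝ) else 0)
      ≤ 3 / 2 / y' := by
    rw [le_div_iff₀ hy0]
    linarith
  refine h3.trans (h4.trans (le_of_eq ?_))
  rw [hy']
  have : Real.exp (L - y) = 1 / Real.exp (y - L) := by
    rw [one_div, ← Real.exp_neg]; congr 1; ring
  rw [this]
  have := (Real.exp_pos (y - L)).ne'
  field_simp

end H729I
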