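import Pool.Agent.Run7.h729.Iso.Seq

/-!
# Windows of the clock
-/

set_option autoImplicit false

namespace H729I

variable {S s : ℕ → ℝ}

/-- the part of the step `t` in the window between the levels `h1` and `h2`, with the whole step
which crosses `h2` -/
noncomputable def lw (S s : ℕ → ℝ) (h1 h2 : ℝ) (t : ℕ) : ℝ :=
  (1 - cx S s h1 t) * (if S t ≤ h2 then 1 else 0)

theorem ind_mem (S : ℕ → ℝ) (h2 : ℝ) (t : ℕ) :
    0 ≤ (if S t ≤ h2 then (1 : ℝ) else 0) ∧ (if S t ≤ h2 then (1 : ℝ) else 0) ≤ 1 := by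
  split_ifs <;> norm_num

theorem ind_anti (hc : Clk S s) (h2 : ℝ) (t : ℕ) :
    (if S (t + 1) ≤ h2 then (1 : ℝ) else 0) ≤ (if S t ≤ h2 then (1 : ℝ) else 0) := by
  by_cases h : S t ≤ h2
  · rw [if_pos h]
    exact (ind_mem S h2 (t + 1)).2
  · have h' : ¬ S (t + 1) ≤ h2 := fun h3 => h ((clk_mono hc (Nat.le_succ t)).trans h3)
    rw [if_neg h, if_neg h']

theorem lw_nonneg (h1 h2 : ℝ) (t : ℕ) : 0 ≤ lw S s h1 h2 t :=
  mul_nonneg (by linarith [cx_le_one (S := S) (s := s) h1 t]) (ind_mem S h2 t).1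

theorem lw_le_one (h1 h2 : ℝ) (t : ℕ) : lw S s h1 h2 t ≤ 1 := by
  have a1 := cx_nonneg (S := S) (s := s) h1 t
  have a2 := cx_le_one (S := S) (s := s) h1 t
  have a3 := ind_mem S h2 t
  calc lw S s h1 h2 t ≤ 1 * 1 := mul_le_mul (by linarith) a3.2 a3.1 (by norm_num)
    _ = 1 := one_mul 1

theorem lw_sum (hc : Clk S s) {h1 h2 : ℝ} (h0 : 0 ≤ h1) (h12 : h1 ≤ h2) (M : ℕ) :
    ∑ t ∈ Finset.range M, s t * lw S s h1 h2 t ≤ h2 - h1 + 1 := by
  have key : ∑ t ∈ Finset.range M, s t * lw S s h1 h2 t ≤ min (S M) (h2 + 1) - min h1 (S M) := by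
    induction M with
    | zero =>
      simp only [Finset.range_zero, Finset.sum_empty]
      rw [hc.zero, min_eq_left (by linarith), min_eq_right h0]
      linarith
    | succ M ih =>
      rw [Finset.sum_range_succ]
      have hm := clk_mono hc (Nat.le_succ M)
      by_cases h : S M ≤ h2
      · have e : s M * lw S s h1 h2 M = s M - s M * cx S s h1 M := by
          unfold lw
          rw [if_pos h]
          ring
        have e2 : min (S (M + 1)) (h2 + 1) = S (M + 1) := by
          apply min_eq_left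
          rw [hc.step]
          linarith [hc.le M]
        have e3 : min (S M) (h2 + 1) = S M := min_eq_left (by linarith)
        rw [e, cx_mul hc, e2, hc.step M]
        rw [e3] at ih
        rw [hc.step M] at *
        linarith
      · have e : lw S s h1 h2 M = 0 := by
          unfold lw
          rw [if_neg h, mul_zero]
        have h3 : h1 ≤ S M := by linarith
        rw [e, mul_zero, add_zero, min_eq_left (show h1 ≤ S (M + 1) from h3.trans hm)]
        rw [min_eq_left h3] at ih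
        have : min (S M) (h2 + 1) ≤ min (S (M + 1)) (h2 + 1) := min_le_min hm le_rfl
        linarith
  rcases le_total h1 (S M) with h | h
  · rw [min_eq_left h] at key
    linarith [min_le_right (S M) (h2 + 1)]
  · rw [min_eq_right h] at key
    linarith [min_le_left (S M) (h2 + 1)]

theorem tele (F : ℕ → ℝ) (hF : ∀ t, F t ∈ Set.Icc (0 : ℝ) 1) (M : ℕ) :
    |∑ t ∈ Finset.range M, (F (t + 1) - F t)| ≤ 1 := by
  rw [Finset.sum_range_sub F]
  have a := hF M
  have b := hF 0
  rw [abs_le]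
  constructor
  · linarith [a.1, b.2]
  · linarith [a.2, b.1]

theorem lw_tv (hc : Clk S s) (h1 h2 : ℝ) (M : ℕ) :
    ∑ t ∈ Finset.range M, |lw S s h1 h2 (t + 1) - lw S s h1 h2 t| ≤ 2 := by
  have h : ∀ t ∈ Finset.range M, |lw S s h1 h2 (t + 1) - lw S s h1 h2 t|
      ≤ ((1 - cx S s h1 (t + 1)) - (1 - cx S s h1 t))
        - ((if S (t + 1) ≤ h2 then (1 : ℝ) else 0) - (if S t ≤ h2 then (1 : ℝ) else 0)) := by
    intro t _
    have a1 := cx_nonneg (S := S) (s := s) h1 (t + 1)
    have a2 := cx_le_one (S := S) (s := s) h1 (t + 1)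
    have a1' := cx_nonneg (S := S) (s := s) h1 t
    have a2' := cx_le_one (S := S) (s := s) h1 t
    have a3 := ind_mem S h2 (t + 1)
    have a3' := ind_mem S h2 t
    have a4 := cx_anti hc h1 t
    have a5 := ind_anti hc h2 t
    unfold lw
    generalize (if S (t + 1) ≤ h2 then (1 : ℝ) else 0) = p at *
    generalize (if S t ≤ h2 then (1 : ℝ) else 0) = q at *
    generalize cx S s h1 (t + 1) = u at *
    generalize cx S s h1 t = w at *
    rw [abs_le]
    constructor <;> nlinarith [mul_nonneg (sub_nonneg.2 a4) a3.1,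
      mul_nonneg (sub_nonneg.2 a5) (sub_nonneg.2 a2'), mul_nonneg (sub_nonneg.2 a4) (sub_nonneg.2 a3.2),
      mul_nonneg (sub_nonneg.2 a5) a1']
  refine (Finset.sum_le_sum h).trans ?_
  rw [Finset.sum_sub_distrib]
  have e1 := tele (fun t => 1 - cx S s h1 t) (fun t => ⟨by
    linarith [cx_le_one (S := S) (s := s) h1 t], by
    linarith [cx_nonneg (S := S) (s := s) h1 t]⟩) M
  have e2 := tele (fun t => if S t ≤ h2 then (1 : ℝ) else 0) (fun t => ind_mem S h2 t) M
  have f1 := (abs_le.1 e1).2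
  have f2 := (abs_le.1 e2).1
  linarith

theorem lw_tv2 (hc : Clk S s) (h1 h2 : ℝ) (M : ℕ) :
    ∑ t ∈ Finset.range M, |lw S s h1 h2 (t + 1) ^ 2 - lw S s h1 h2 t ^ 2| ≤ 4 := by
  have h : ∀ t ∈ Finset.range M, |lw S s h1 h2 (t + 1) ^ 2 - lw S s h1 h2 t ^ 2|
      ≤ 2 * |lw S s h1 h2 (t + 1) - lw S s h1 h2 t| := by
    intro t _
    have e : lw S s h1 h2 (t + 1) ^ 2 - lw S s h1 h2 t ^ 2
        = (lw S s h1 h2 (t + 1) + lw S s h1 h2 t) * (lw S s h1 h2 (t + 1) - lw S s h1 h2 t) := by ring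
    rw [e, abs_mul]
    apply mul_le_mul_of_nonneg_right _ (abs_nonneg _)
    have a1 := lw_nonneg (S := S) (s := s) h1 h2 t
    have a2 := lw_le_one (S := S) (s := s) h1 h2 t
    have a3 := lw_nonneg (S := S) (s := s) h1 h2 (t + 1)
    have a4 := lw_le_one (S := S) (s := s) h1 h2 (t + 1)
    rw [abs_of_nonneg (by linarith)]
    linarith
  refine (Finset.sum_le_sum h).trans ?_
  rw [← Finset.mul_sum]
  linarith [lw_tv hc h1 h2 M]

theorem abel_bd (z μ : ℕ → ℝ) (hμ : ∀ t, μ (t + 1) ≤ μ t) (h0 : ∀ t, 0 ≤ μ t) (h1 : μ 0 ≤ 1) {B : ℝ}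
    (M : ℕ) (hB : ∀ m ≤ M, |∑ t ∈ Finset.range m, z t| ≤ B) :
    |∑ t ∈ Finset.range M, z t * μ t| ≤ B := by
  have hB0 : 0 ≤ B := (abs_nonneg _).trans (hB 0 (Nat.zero_le M))
  have key : ∀ m ≤ M, |∑ t ∈ Finset.range m, z t * μ t - μ m * ∑ t ∈ Finset.range m, z t|
      ≤ B * (μ 0 - μ m) := by
    intro m
    induction m with
    | zero => intro _; simp
    | succ m ih =>
      intro hm
      have ih' := ih (by omega)
      have e : ∑ t ∈ Finset.range (m + 1), z t * μ t - μ (m + 1) * ∑ t ∈ Finset.range (m + 1), z t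
          = (∑ t ∈ Finset.range m, z t * μ t - μ m * ∑ t ∈ Finset.range m, z t)
            + (μ m - μ (m + 1)) * ∑ t ∈ Finset.range (m + 1), z t := by
        rw [Finset.sum_range_succ, Finset.sum_range_succ]
        ring
      rw [e]
      refine (abs_add_le _ _).trans ?_
      rw [abs_mul, abs_of_nonneg (sub_nonneg.2 (hμ m))]
      have := mul_le_mul_of_nonneg_left (hB (m + 1) hm) (sub_nonneg.2 (hμ m))
      linarith
  have h2 := key M le_rfl
  have e : ∑ t ∈ Finset.range M, z t * μ t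
      = (∑ t ∈ Finset.range M, z t * μ t - μ M * ∑ t ∈ Finset.range M, z t)
        + μ M * ∑ t ∈ Finset.range M, z t := by ring
  rw [e]
  refine (abs_add_le _ _).trans ?_
  rw [abs_mul, abs_of_nonneg (h0 M)]
  have h3 := mul_le_mul_of_nonneg_left (hB M le_rfl) (h0 M)
  have h4 : B * (μ 0 - μ M) + μ M * B ≤ B := by nlinarith
  linarith

theorem win_bd (hc : Clk S s) {h1 h2 h : ℝ} (h1h : h1 ≤ h) (hh2 : h ≤ h2) (y : ℕ → ℝ) {B : ℝ}
    (M : ℕ) (hB : ∀ m ≤ M, |∑ t ∈ Finset.range m, y t * lw S s h1 h2 t| ≤ B) :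
    |∑ t ∈ Finset.range M, y t * (cx S s h t - cx S s h1 t)| ≤ B := by
  set μ : ℕ → ℝ := fun t => if cx S s h1 t = 1 then 1 else
    (cx S s h t - cx S s h1 t) / (1 - cx S s h1 t) with hμ
  have hle : ∀ t, cx S s h1 t ≤ cx S s h t := fun t => cx_mono hc h1h t
  have hlt : ∀ t, cx S s h1 t ≠ 1 → 0 < 1 - cx S s h1 t := fun t ht => by
    have := lt_of_le_of_ne (cx_le_one (S := S) (s := s) h1 t) ht
    linarith
  have h0 : ∀ t, 0 ≤ μ t := by
    intro t
    rw [hμ]
    dsimp only
    split_ifs with ht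
    · norm_num
    · exact div_nonneg (sub_nonneg.2 (hle t)) (hlt t ht).le
  have h1' : ∀ t, μ t ≤ 1 := by
    intro t
    rw [hμ]
    dsimp only
    split_ifs with ht
    · norm_num
    · rw [div_le_one (hlt t ht)]
      linarith [cx_le_one (S := S) (s := s) h t]
  have hanti : ∀ t, μ (t + 1) ≤ μ t := by
    intro t
    by_cases ht : cx S s h1 t = 1
    · have : μ t = 1 := by rw [hμ]; exact if_pos ht
      rw [this]
      exact h1' _
    · have e0 := cx_zero_succ hc ht
      have e1 : μ (t + 1) = cx S s h (t + 1) := by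
        rw [hμ]
        dsimp only
        rw [e0, if_neg (by norm_num), sub_zero, sub_zero, div_one]
      by_cases ht2 : cx S s h t = 1
      · have : μ t = 1 := by
          rw [hμ]
          dsimp only
          rw [if_neg ht, ht2, div_self (hlt t ht).ne']
        rw [this]
        exact h1' _
      · rw [e1, cx_zero_succ hc ht2]
        exact h0 t
  have e : ∀ t, y t * (cx S s h t - cx S s h1 t) = y t * lw S s h1 h2 t * μ t := by
    intro t
    by_cases ht : cx S s h1 t = 1
    · have h3 : cx S s h t = 1 := le_antisymm (cx_le_one _ _) (by rw [← ht]; exact hle t)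
      unfold lw
      rw [ht, h3]
      ring
    · have e1 : μ t = (cx S s h t - cx S s h1 t) / (1 - cx S s h1 t) := by
        rw [hμ]
        exact if_neg ht
      by_cases hS : S t ≤ h2
      · unfold lw
        rw [e1, if_pos hS]
        have := (hlt t ht).ne'
        field_simp
      · have a1 : cx S s h t = 0 := cx_zero_of hc (by linarith)
        have a2 : cx S s h1 t = 0 := cx_zero_of hc (by linarith)
        unfold lw
        rw [if_neg hS, a1, a2]
        ring
  simp only [e]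
  exact abel_bd _ μ hanti h0 (h1' 0) M hB

end H729I
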