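import Pool.Agent.Run7.h729.Iso.Fdd
import Pool.Agent.Run7.h729.Iso.Win
import Pool.Agent.Run7.h729.Iso.Sup

/-!
# The modulus of continuity of the path
-/

set_option autoImplicit false

namespace H729I
open H906K Pool.Agent.H974R3 Set Filter Topology

variable {n : ℕ} {f g : Pat (2 * n + 1) → ℝ} {v D : ℝ → ℝ}

/-- elementary estimates of the scale -/
structure Scl (N H R a q : ℝ) : Prop where
  a0 : 0 ≤ a
  a2 : a ^ 2 = Real.pi / (3 * N * H)
  aR : a * R ≤ q
  a2R : a ^ 2 * R ≤ q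
  a3R : a ^ 3 * R ^ 3 * H ≤ q
  Hq : 1 / H ≤ q
  q0 : 0 < q

theorem scl {N H R : ℝ} (hN : 3 ≤ N) (hH : 1 ≤ H) (hR : 1 ≤ R) :
    Scl N H R √(Real.pi / (3 * N * H)) (R ^ 3 / √H) := by
  have hpi := Real.pi_pos
  have hH0 : 0 < H := by linarith
  have hR0 : 0 < R := by linarith
  have hN0 : 0 < N := by linarith
  set a : ℝ := √(Real.pi / (3 * N * H)) with ha
  have ha0 : 0 ≤ a := Real.sqrt_nonneg _
  have ha2 : a ^ 2 = Real.pi / (3 * N * H) := Real.sq_sqrt (by positivity)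
  set q : ℝ := R ^ 3 / √H with hq
  have hsH : 0 < √H := Real.sqrt_pos.2 hH0
  have hsH1 : 1 ≤ √H := Real.one_le_sqrt.2 hH
  have hsHsq : √H ^ 2 = H := Real.sq_sqrt hH0.le
  have hq0 : 0 < q := by positivity
  have hR3' : 1 ≤ R ^ 3 := one_le_pow₀ hR
  have hRR3 : R ≤ R ^ 3 := by
    calc R = R ^ 1 := (pow_one R).symm
      _ ≤ R ^ 3 := pow_le_pow_right₀ hR (by norm_num)
  have ha3 : a ^ 2 ≤ 1 / H := by
    rw [ha2, div_le_div_iff₀ (by positivity) hH0]
    have := Real.pi_lt_four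
    nlinarith [mul_pos hN0 hH0]
  have ha4 : a ≤ 1 / √H := by
    apply le_of_sq_le_sq _ (by positivity)
    rw [div_pow, hsHsq, one_pow]
    exact ha3
  refine ⟨ha0, ha2, ?_, ?_, ?_, ?_, hq0⟩
  · calc a * R ≤ 1 / √H * R ^ 3 := mul_le_mul ha4 hRR3 hR0.le (by positivity)
      _ = q := by rw [hq]; ring
  · have h1 : 1 / H ≤ 1 / √H := by
      apply one_div_le_one_div_of_le hsH
      calc √H = √H * 1 := by ring
        _ ≤ √H * √H := mul_le_mul_of_nonneg_left hsH1 hsH.le
        _ = H := by rw [← pow_two, hsHsq]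
    calc a ^ 2 * R ≤ 1 / √H * R ^ 3 := mul_le_mul (ha3.trans h1) hRR3 hR0.le (by positivity)
      _ = q := by rw [hq]; ring
  · have h1 : a ^ 3 * H ≤ 1 / √H := by
      calc a ^ 3 * H = a * (a ^ 2 * H) := by ring
        _ ≤ 1 / √H * (1 / H * H) := by
          apply mul_le_mul ha4 _ (by positivity) (by positivity)
          exact mul_le_mul_of_nonneg_right ha3 hH0.le
        _ = 1 / √H := by field_simp
    calc a ^ 3 * R ^ 3 * H = (a ^ 3 * H) * R ^ 3 := by ring
      _ ≤ 1 / √H * R ^ 3 := mul_le_mul_of_nonneg_right h1 (by positivity)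
      _ = q := by rw [hq]; ring
  · rw [hq, div_le_div_iff₀ hH0 hsH]
    calc 1 * √H ≤ √H * √H := mul_le_mul_of_nonneg_right hsH1 hsH.le
      _ = 1 * H := by rw [← pow_two, hsHsq, one_mul]
      _ ≤ R ^ 3 * H := mul_le_mul_of_nonneg_right hR3' hH0.le

/-- the coefficients of a window -/
noncomputable def lv (θ : Strat n) (b h1 h2 : ℝ) : Strat n :=
  fun t c => b * lw (Sq θ c) (sn θ c) h1 h2 t

theorem lv_rows (θ : Strat n) (b h1 h2 : ℝ) {M : ℕ} (c : Conf n M) (t : ℕ) :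
    lv θ b h1 h2 t (rows c t) = b * lw (Sq θ c) (sn θ c) h1 h2 t := by
  unfold lv lw cx
  rw [Sq_rows θ c le_rfl, sn_rows θ c le_rfl]

theorem lv_abs (θ : Strat n) (b h1 h2 : ℝ) (t : ℕ) (c : Conf n t) : |lv θ b h1 h2 t c| ≤ |b| := by
  unfold lv
  rw [abs_mul, abs_of_nonneg (lw_nonneg h1 h2 t)]
  calc |b| * lw (Sq θ c) (sn θ c) h1 h2 t ≤ |b| * 1 :=
        mul_le_mul_of_nonneg_left (lw_le_one h1 h2 t) (abs_nonneg b)
    _ = |b| := mul_one _

/-- sums of `sin` along a window -/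
theorem lv_sin {θ : Strat n} (hθ : AdmO θ) (b : ℝ) {h1 h2 : ℝ} (h0 : 0 ≤ h1) (h12 : h1 ≤ h2) (k : ℕ)
    (hk : 1 ≤ k) (M : ℕ) (c : Conf n M) :
    Sm (fun t c => |lv θ b h1 h2 t c| ^ k * Real.sin (θ t c)) M c ≤ |b| ^ k * (h2 - h1 + 1) := by
  have h := lw_sum (clk hθ c) h0 h12 M
  have e : Sm (fun t c => |lv θ b h1 h2 t c| ^ k * Real.sin (θ t c)) M c
      ≤ |b| ^ k * ∑ t ∈ Finset.range M, sn θ c t * lw (Sq θ c) (sn θ c) h1 h2 t := by
    unfold Sm
    rw [Finset.mul_sum]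
    refine Finset.sum_le_sum fun t _ => ?_
    show |lv θ b h1 h2 t (rows c t)| ^ k * Real.sin (θ t (rows c t)) ≤ _
    rw [lv_rows, abs_mul, abs_of_nonneg (lw_nonneg h1 h2 t), mul_pow]
    have hs : 0 ≤ sn θ c t := ((clk hθ c).pos t).le
    have h3 : lw (Sq θ c) (sn θ c) h1 h2 t ^ k ≤ lw (Sq θ c) (sn θ c) h1 h2 t := by
      calc _ ≤ lw (Sq θ c) (sn θ c) h1 h2 t ^ 1 :=
            pow_le_pow_of_le_one (lw_nonneg h1 h2 t) (lw_le_one h1 h2 t) hk
        _ = _ := pow_one _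
    have e4 : |b| ^ k * lw (Sq θ c) (sn θ c) h1 h2 t ^ k * Real.sin (θ t (rows c t))
        = |b| ^ k * (sn θ c t * lw (Sq θ c) (sn θ c) h1 h2 t ^ k) := by
      unfold sn
      ring
    rw [e4]
    exact mul_le_mul_of_nonneg_left (mul_le_mul_of_nonneg_left h3 hs) (by positivity)
  exact e.trans (mul_le_mul_of_nonneg_left h (by positivity))

open Classical in
/-- the tail of the windowed sums -/
theorem win_tail (h : Crr n f g v D) {R K : ℝ} (hB : Bnd n f g v D R) (hA : Asym n v D K)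
    (hn : 1 ≤ n) (hK : 0 ≤ K) {θ : Strat n} (hθ : AdmO θ) {H : ℝ} (hH : 1 ≤ H) {a q x : ℝ}
    (hs : Scl (2 * n + 1) H R a q) (hx : 0 ≤ x) (hxq : x * q ≤ 1) {h1 h2 : ℝ} (h0 : 0 ≤ h1)
    (h12 : h1 ≤ h2) {J : ℝ} (hJ : 1 ≤ J) (hw : h2 - h1 + 1 ≤ 3 * H / J) (M : ℕ) (y : ℝ) :
    EE θ M (fun c => if ∃ m ≤ M, y < |x * (a * ∑ t ∈ Finset.range m,
        (Yd v θ (t + 1) (rows c (t + 1)) - Yd v θ t (rows c t)) *
          lw (Sq θ c) (sn θ c) h1 h2 t)| then (1 : ℝ) else 0)
      ≤ 6 * Real.exp (3 * x ^ 2 * (1 + K) / (2 * J) + q * (36 * x ^ 3 + 4 * x ^ 2 + 4 * x) - y) := by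
  have hpi := Real.pi_pos
  have hN3 : (3 : ℝ) ≤ 2 * n + 1 := by
    have : (1 : ℝ) ≤ n := by exact_mod_cast hn
    linarith
  have hH0 : 0 < H := by linarith
  have hR := hB.one
  have hR0 : 0 < R := by linarith
  have hq0 := hs.q0
  have ha0 := hs.a0
  have adm := hθ.adm
  set N : ℝ := 2 * n + 1 with hNdef
  have hN0 : 0 < N := by linarith
  have hJ0 : 0 < J := by linarith
  have hxa0 : 0 ≤ x * a := mul_nonneg hx ha0
  have hxaR : x * a * R ≤ 1 := by
    calc x * a * R = x * (a * R) := by ring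
      _ ≤ x * q := mul_le_mul_of_nonneg_left hs.aR hx
      _ ≤ 1 := hxq
  set L : ℝ := 3 * x ^ 2 * (1 + K) / (2 * J) + q * (36 * x ^ 3 + 4 * x ^ 2) with hLdef
  have hwpos : 0 ≤ h2 - h1 + 1 := by linarith
  have hw3 : h2 - h1 + 1 ≤ 3 * H := hw.trans (div_le_self (by positivity) hJ)
  have hone : ∀ b : ℝ, |b| = x * a →
      EE θ M (fun c => if ∃ t ≤ M, y - 4 * x * q ≤ NN f v θ (lv θ b h1 h2) t (rows c t)
        then (1 : ℝ) else 0) ≤ 3 * Real.exp (L - (y - 4 * x * q)) := by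
    intro b hb
    refine tail_NN h hB adm (lv θ b h1 h2) (fun t c => ?_) M (fun t _ c => ?_)
    · exact (mul_le_mul_of_nonneg_right (lv_abs θ b h1 h2 t c) hR0.le).trans (by rw [hb]; exact hxaR)
    · unfold Ee
      have t1 : AA D θ (lv θ b h1 h2) t c ≤ 3 * x ^ 2 * (1 + K) / J := by
        have hDb : ∀ φ ∈ Icc 0 Real.pi, D φ ≤ (3 * N / Real.pi + K / (2 * Real.pi)) * Real.sin φ := by
          intro φ hφ
          have := (abs_le.1 (asym_D hA hφ)).2
          linarith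
        have u1 : AA D θ (lv θ b h1 h2) t c ≤ (3 * N / Real.pi + K / (2 * Real.pi)) *
            Sm (fun t c => |lv θ b h1 h2 t c| ^ 2 * Real.sin (θ t c)) t c := by
          unfold AA Sm
          rw [Finset.mul_sum]
          refine Finset.sum_le_sum fun r _ => ?_
          have := mul_le_mul_of_nonneg_left (hDb _ (adm r (rows c r)))
            (sq_nonneg (lv θ b h1 h2 r (rows c r)))
          beta_reduce
          rw [sq_abs]
          linarith
        have u2 := lv_sin hθ b h0 h12 2 (by norm_num) t c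
        have u3 : (3 * N / Real.pi + K / (2 * Real.pi)) * (|b| ^ 2 * (h2 - h1 + 1))
            ≤ 3 * x ^ 2 * (1 + K) / J := by
          have e : (3 * N / Real.pi + K / (2 * Real.pi)) * (|b| ^ 2 * (h2 - h1 + 1))
              = x ^ 2 * (1 + K / (6 * N)) * ((h2 - h1 + 1) / H) := by
            rw [hb, mul_pow, hs.a2]
            field_simp
            ring
          rw [e]
          have e2 : 3 * x ^ 2 * (1 + K) / J = x ^ 2 * (1 + K) * (3 / J) := by ring
          rw [e2]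
          have k1 : K / (6 * N) ≤ K := div_le_self hK (by linarith)
          have k2 : 0 ≤ K / (6 * N) := by positivity
          have k3 : (h2 - h1 + 1) / H ≤ 3 / J := by
            rw [div_le_div_iff₀ hH0 hJ0]
            rw [le_div_iff₀ hJ0] at hw
            linarith
          apply mul_le_mul _ k3 (by positivity) (by positivity)
          exact mul_le_mul_of_nonneg_left (by linarith) (sq_nonneg x)
        exact u1.trans ((mul_le_mul_of_nonneg_left u2 (by positivity)).trans u3)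
      have t2 : 12 * R ^ 3 * Sm (fun t c => |lv θ b h1 h2 t c| ^ 3 * Real.sin (θ t c)) t c
          ≤ 36 * x ^ 3 * q := by
        have u2 := lv_sin hθ b h0 h12 3 (by norm_num) t c
        calc _ ≤ 12 * R ^ 3 * (|b| ^ 3 * (3 * H)) := by
              apply mul_le_mul_of_nonneg_left _ (by positivity)
              exact u2.trans (mul_le_mul_of_nonneg_left hw3 (by positivity))
          _ = 36 * x ^ 3 * (a ^ 3 * R ^ 3 * H) := by rw [hb]; ring
          _ ≤ _ := mul_le_mul_of_nonneg_left hs.a3R (by positivity)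
      have t3 : R * TV2 (lv θ b h1 h2) t c ≤ 4 * x ^ 2 * q := by
        have u1 : TV2 (lv θ b h1 h2) t c ≤ |b| ^ 2 * 4 := by
          have e : TV2 (lv θ b h1 h2) t c = |b| ^ 2 * ∑ r ∈ Finset.range t,
              |lw (Sq θ c) (sn θ c) h1 h2 (r + 1) ^ 2 - lw (Sq θ c) (sn θ c) h1 h2 r ^ 2| := by
            unfold TV2
            rw [Finset.mul_sum]
            refine Finset.sum_congr rfl fun r _ => ?_
            rw [lv_rows, lv_rows, mul_pow, mul_pow, ← mul_sub, abs_mul,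
              abs_of_nonneg (sq_nonneg b), sq_abs]
          rw [e]
          exact mul_le_mul_of_nonneg_left (lw_tv2 (clk hθ c) h1 h2 t) (by positivity)
        calc _ ≤ R * (|b| ^ 2 * 4) := mul_le_mul_of_nonneg_left u1 hR0.le
          _ = 4 * x ^ 2 * (a ^ 2 * R) := by rw [hb]; ring
          _ ≤ _ := mul_le_mul_of_nonneg_left hs.a2R (by positivity)
      have e5 : L = 3 * x ^ 2 * (1 + K) / J / 2 + 36 * x ^ 3 * q + 4 * x ^ 2 * q := by
        rw [hLdef]
        field_simp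
        ring
      rw [e5]
      linarith
  -- comparison
  have hcmp : ∀ c : Conf n M, (∃ m ≤ M, y < |x * (a * ∑ t ∈ Finset.range m,
        (Yd v θ (t + 1) (rows c (t + 1)) - Yd v θ t (rows c t)) *
          lw (Sq θ c) (sn θ c) h1 h2 t)|) →
      (∃ t ≤ M, y - 4 * x * q ≤ NN f v θ (lv θ (x * a) h1 h2) t (rows c t)) ∨
      (∃ t ≤ M, y - 4 * x * q ≤ NN f v θ (lv θ (-(x * a)) h1 h2) t (rows c t)) := by
    rintro c ⟨m, hm, hy⟩
    have hNN : ∀ b : ℝ, |b| = x * a → |NN f v θ (lv θ b h1 h2) m (rows c m) - b *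
        ∑ t ∈ Finset.range m, (Yd v θ (t + 1) (rows c (t + 1)) - Yd v θ t (rows c t)) *
          lw (Sq θ c) (sn θ c) h1 h2 t| ≤ 4 * x * q := by
      intro b hb
      have e1 : NN f v θ (lv θ b h1 h2) m (rows c m) - b *
          ∑ t ∈ Finset.range m, (Yd v θ (t + 1) (rows c (t + 1)) - Yd v θ t (rows c t)) *
            lw (Sq θ c) (sn θ c) h1 h2 t
          = ∑ t ∈ Finset.range m, (b * lw (Sq θ c) (sn θ c) h1 h2 t) *
            (f (pat (rows c (t + 1))) - f (pat (rows c t))) := by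
        unfold NN
        rw [Finset.mul_sum, ← Finset.sum_sub_distrib]
        refine Finset.sum_congr rfl fun t ht => ?_
        have ht' := Finset.mem_range.1 ht
        rw [rows_rows c (show t ≤ m by omega), rows_rows c (show t + 1 ≤ m by omega), lv_rows]
        unfold Uu Yd
        ring
      rw [e1]
      refine (sbp (fun t => b * lw (Sq θ c) (sn θ c) h1 h2 t) (fun t => f (pat (rows c t))) m R
        (fun t => hB.bf _)).trans ?_
      have w1 : ∀ t, |b * lw (Sq θ c) (sn θ c) h1 h2 t| ≤ x * a := by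
        intro t
        rw [abs_mul, abs_of_nonneg (lw_nonneg h1 h2 t), hb]
        calc _ ≤ x * a * 1 := mul_le_mul_of_nonneg_left (lw_le_one h1 h2 t) hxa0
          _ = _ := mul_one _
      have w2 : ∑ t ∈ Finset.range m, |b * lw (Sq θ c) (sn θ c) h1 h2 (t + 1)
          - b * lw (Sq θ c) (sn θ c) h1 h2 t| ≤ x * a * 2 := by
        have e : ∑ t ∈ Finset.range m, |b * lw (Sq θ c) (sn θ c) h1 h2 (t + 1)
          - b * lw (Sq θ c) (sn θ c) h1 h2 t| = x * a * ∑ t ∈ Finset.range m,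
            |lw (Sq θ c) (sn θ c) h1 h2 (t + 1) - lw (Sq θ c) (sn θ c) h1 h2 t| := by
          rw [Finset.mul_sum]
          refine Finset.sum_congr rfl fun t _ => ?_
          rw [← mul_sub, abs_mul, hb]
        rw [e]
        exact mul_le_mul_of_nonneg_left (lw_tv (clk hθ c) h1 h2 m) hxa0
      calc R * (|b * lw (Sq θ c) (sn θ c) h1 h2 m| + |b * lw (Sq θ c) (sn θ c) h1 h2 0|
            + ∑ t ∈ Finset.range m, |b * lw (Sq θ c) (sn θ c) h1 h2 (t + 1)
              - b * lw (Sq θ c) (sn θ c) h1 h2 t|)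
          ≤ R * (x * a + x * a + x * a * 2) := by
            apply mul_le_mul_of_nonneg_left _ hR0.le
            have := w1 m
            have := w1 0
            linarith
        _ = 4 * x * (a * R) := by ring
        _ ≤ 4 * x * q := mul_le_mul_of_nonneg_left hs.aR (by positivity)
    have p1 := abs_le.1 (hNN (x * a) (abs_of_nonneg hxa0))
    have p2 := abs_le.1 (hNN (-(x * a)) (by rw [abs_neg]; exact abs_of_nonneg hxa0))
    rw [← mul_assoc] at hy
    rcases lt_abs.1 hy with h3 | h3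
    · left
      exact ⟨m, hm, by linarith [p1.1]⟩
    · right
      refine ⟨m, hm, ?_⟩
      rw [neg_mul] at p2
      linarith [p2.1]
  have hfin : EE θ M (fun c => if ∃ m ≤ M, y < |x * (a * ∑ t ∈ Finset.range m,
        (Yd v θ (t + 1) (rows c (t + 1)) - Yd v θ t (rows c t)) *
          lw (Sq θ c) (sn θ c) h1 h2 t)| then (1 : ℝ) else 0)
      ≤ EE θ M (fun c => (if ∃ t ≤ M, y - 4 * x * q ≤ NN f v θ (lv θ (x * a) h1 h2) t (rows c t)
          then (1 : ℝ) else 0) +
        (if ∃ t ≤ M, y - 4 * x * q ≤ NN f v θ (lv θ (-(x * a)) h1 h2) t (rows c t)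
          then (1 : ℝ) else 0)) := by
    refine EE_mono adm fun c => ?_
    by_cases hc : ∃ m ≤ M, y < |x * (a * ∑ t ∈ Finset.range m,
        (Yd v θ (t + 1) (rows c (t + 1)) - Yd v θ t (rows c t)) *
          lw (Sq θ c) (sn θ c) h1 h2 t)|
    · rw [if_pos hc]
      rcases hcmp c hc with h3 | h3
      · rw [if_pos h3]
        have : (0 : ℝ) ≤ if ∃ t ≤ M, y - 4 * x * q ≤ NN f v θ (lv θ (-(x * a)) h1 h2) t (rows c t)
          then (1 : ℝ) else 0 := by split_ifs <;> norm_num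
        linarith
      · rw [if_pos h3]
        have : (0 : ℝ) ≤ if ∃ t ≤ M, y - 4 * x * q ≤ NN f v θ (lv θ (x * a) h1 h2) t (rows c t)
          then (1 : ℝ) else 0 := by split_ifs <;> norm_num
        linarith
    · rw [if_neg hc]
      have a1 : (0 : ℝ) ≤ if ∃ t ≤ M, y - 4 * x * q ≤ NN f v θ (lv θ (-(x * a)) h1 h2) t (rows c t)
          then (1 : ℝ) else 0 := by split_ifs <;> norm_num
      have a2 : (0 : ℝ) ≤ if ∃ t ≤ M, y - 4 * x * q ≤ NN f v θ (lv θ (x * a) h1 h2) t (rows c t)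
          then (1 : ℝ) else 0 := by split_ifs <;> norm_num
      linarith
  rw [EE_add] at hfin
  refine hfin.trans ((add_le_add (hone (x * a) (abs_of_nonneg hxa0))
    (hone (-(x * a)) (by rw [abs_neg]; exact abs_of_nonneg hxa0))).trans (le_of_eq ?_))
  have e6 : L - (y - 4 * x * q) = 3 * x ^ 2 * (1 + K) / (2 * J)
      + q * (36 * x ^ 3 + 4 * x ^ 2 + 4 * x) - y := by
    rw [hLdef]; ring
  rw [e6]
  ring

theorem exists_J {c η : ℝ} (hc : 0 < c) (hη : 0 < η) :
    ∃ J : ℕ, 1 ≤ J ∧ (J : ℝ) * (18 * Real.exp (-(c * J))) ≤ η := by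
  have h1 := Real.tendsto_pow_mul_exp_neg_atTop_nhds_zero 1
  have h2 : Tendsto (fun J : ℕ => c * (J : ℝ)) atTop atTop :=
    tendsto_natCast_atTop_atTop.const_mul_atTop hc
  have h3 := h1.comp h2
  have h4 : ∀ᶠ J : ℕ in atTop, (c * (J : ℝ)) ^ 1 * Real.exp (-(c * J)) < η * c / 18 :=
    h3.eventually (gt_mem_nhds (by positivity))
  obtain ⟨J, hJ, hJ1⟩ := (h4.and (eventually_ge_atTop 1)).exists
  refine ⟨J, hJ1, ?_⟩
  rw [pow_one] at hJ
  have : c * ((J : ℝ) * (18 * Real.exp (-(c * J)))) ≤ c * η := by nlinarith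
  exact le_of_mul_le_mul_left this hc

theorem EE_sum' {M : ℕ} (θ : Strat n) (J : ℕ) (F : ℕ → Conf n M → ℝ) :
    EE θ M (fun c => ∑ j ∈ Finset.range J, F j c) = ∑ j ∈ Finset.range J, EE θ M (F j) := by
  unfold EE
  rw [Finset.sum_comm]
  refine Finset.sum_congr rfl fun c _ => ?_
  rw [Finset.smul_sum]

/-- splitting of the unit interval in windows -/
theorem windows (w : unitInterval → ℝ) {J : ℕ} (hJ : 1 ≤ J) {ε : ℝ}
    (h : ∃ s t : unitInterval, |(s : ℝ) - t| ≤ 1 / J ∧ ε ≤ |w s - w t|) :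
    ∃ j < J, ∃ s r : unitInterval, (r : ℝ) = j / J ∧ r ≤ s ∧ (s : ℝ) ≤ (j + 2) / J ∧
      ε / 2 ≤ |w s - w r| := by
  have hJ0 : (0 : ℝ) < J := by exact_mod_cast hJ
  have key : ∀ s t : unitInterval, s ≤ t → |(s : ℝ) - t| ≤ 1 / J → ε ≤ |w s - w t| →
      ∃ j < J, ∃ s r : unitInterval, (r : ℝ) = j / J ∧ r ≤ s ∧ (s : ℝ) ≤ (j + 2) / J ∧
      ε / 2 ≤ |w s - w r| := by
    intro s t hst hd hε
    have hst' : (s : ℝ) ≤ t := hst
    set j : ℕ := min ⌊(s : ℝ) * J⌋₊ (J - 1) with hj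
    have hjJ : j < J := by
      have := min_le_right ⌊(s : ℝ) * J⌋₊ (J - 1)
      omega
    have hsJ0 : 0 ≤ (s : ℝ) * J := mul_nonneg s.2.1 hJ0.le
    have hjs : (j : ℝ) ≤ s * J := by
      refine le_trans ?_ (Nat.floor_le hsJ0)
      exact_mod_cast min_le_left _ _
    have hsj : (s : ℝ) * J ≤ j + 1 := by
      rcases le_total ⌊(s : ℝ) * J⌋₊ (J - 1) with h3 | h3
      · have : j = ⌊(s : ℝ) * J⌋₊ := min_eq_left h3
        rw [this]
        exact (Nat.lt_floor_add_one _).le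
      · have h4 : j = J - 1 := min_eq_right h3
        have h5 : j + 1 = J := by omega
        have h6 : (j : ℝ) + 1 = J := by exact_mod_cast h5
        rw [h6]
        calc (s : ℝ) * J ≤ 1 * J := mul_le_mul_of_nonneg_right s.2.2 hJ0.le
          _ = J := one_mul _
    have hr0 : (0 : ℝ) ≤ j / J := by positivity
    have hr1 : (j : ℝ) / J ≤ 1 := by
      rw [div_le_one hJ0]
      exact_mod_cast hjJ.le
    set r : unitInterval := ⟨j / J, hr0, hr1⟩ with hr
    have hrs : r ≤ s := by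
      show (j : ℝ) / J ≤ s
      rw [div_le_iff₀ hJ0]
      exact hjs
    have ht2 : (t : ℝ) ≤ (j + 2) / J := by
      rw [le_div_iff₀ hJ0]
      rw [abs_sub_comm, abs_of_nonneg (sub_nonneg.2 hst')] at hd
      rw [le_div_iff₀ hJ0] at hd
      linarith
    have hs2 : (s : ℝ) ≤ (j + 2) / J := by
      rw [le_div_iff₀ hJ0]
      linarith
    by_cases h5 : ε / 2 ≤ |w s - w r|
    · exact ⟨j, hjJ, s, r, rfl, hrs, hs2, h5⟩
    · refine ⟨j, hjJ, t, r, rfl, hrs.trans hst, ht2, ?_⟩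
      have h6 : |w s - w t| ≤ |w s - w r| + |w t - w r| := by
        have : w s - w t = (w s - w r) - (w t - w r) := by ring
        rw [this]
        exact abs_sub _ _
      linarith [not_le.1 h5]
  obtain ⟨s, t, hd, hε⟩ := h
  rcases le_total s t with h3 | h3
  · exact key s t h3 hd hε
  · exact key t s h3 (by rw [abs_sub_comm]; exact hd) (by rw [abs_sub_comm]; exact hε)

open Classical in
theorem mod_est {K ε η : ℝ} (hK : 0 ≤ K) (hε : 0 < ε) (hη : 0 < η) :
    ∃ δ q0 : ℝ, 0 < δ ∧ 0 < q0 ∧ ∀ (n : ℕ) (f g : Pat (2 * n + 1) → ℝ) (v D : ℝ → ℝ) (R : ℝ),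
      Crr n f g v D → Bnd n f g v D R → Asym n v D K → 1 ≤ n → ∀ (θ : Strat n), AdmO θ →
      ∀ H : ℝ, 1 ≤ H → R ^ 3 / √H ≤ q0 → ∀ M : ℕ,
      EE θ M (fun c => if ∃ s t : unitInterval, |(s : ℝ) - t| ≤ δ ∧
        ε ≤ |wp v θ H (√(Real.pi / (3 * (2 * n + 1) * H))) c s
          - wp v θ H (√(Real.pi / (3 * (2 * n + 1) * H))) c t| then (1 : ℝ) else 0) ≤ η := by
  obtain ⟨J, hJ1, hJ⟩ := exists_J (c := ε ^ 2 / (54 * (1 + K))) (η := η) (by positivity) hη
  have hJR : (1 : ℝ) ≤ J := by exact_mod_cast hJ1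
  have hJ0 : (0 : ℝ) < J := by linarith
  set x : ℝ := ε * J / (9 * (1 + K)) with hx
  have hx0 : 0 < x := by positivity
  refine ⟨1 / J, min (1 / (x + (36 * x ^ 3 + 4 * x ^ 2 + 4 * x))) (1 / J), by positivity,
    by positivity, ?_⟩
  intro n f g v D R h hB hA hn θ hθ H hH hq M
  have hN3 : (3 : ℝ) ≤ 2 * n + 1 := by
    have : (1 : ℝ) ≤ n := by exact_mod_cast hn
    linarith
  have hH0 : 0 < H := by linarith
  have hs := scl hN3 hH hB.one
  set a : ℝ := √(Real.pi / (3 * (2 * n + 1) * H)) with ha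
  set q : ℝ := R ^ 3 / √H with hqd
  have hq0 := hs.q0
  have hq1 : q ≤ 1 / (x + (36 * x ^ 3 + 4 * x ^ 2 + 4 * x)) := hq.trans (min_le_left _ _)
  have hq2 : q ≤ 1 / J := hq.trans (min_le_right _ _)
  have hq3 : q * (x + (36 * x ^ 3 + 4 * x ^ 2 + 4 * x)) ≤ 1 := by
    rwa [le_div_iff₀ (by positivity)] at hq1
  have hxq : x * q ≤ 1 := by
    have : 0 ≤ q * (36 * x ^ 3 + 4 * x ^ 2 + 4 * x) := by positivity
    nlinarith
  have hqx : q * (36 * x ^ 3 + 4 * x ^ 2 + 4 * x) ≤ 1 := by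
    have : 0 ≤ q * x := by positivity
    nlinarith
  have hHJ : J ≤ H := by
    have h1 : 1 / H ≤ 1 / J := hs.Hq.trans hq2
    exact (one_div_le_one_div hH0 hJ0).1 h1
  -- each window
  have hwin : ∀ j < J, EE θ M (fun c => if ∃ m ≤ M, x * (ε / 3) < |x * (a * ∑ t ∈ Finset.range m,
        (Yd v θ (t + 1) (rows c (t + 1)) - Yd v θ t (rows c t)) *
          lw (Sq θ c) (sn θ c) (j / J * H) ((j + 2) / J * H) t)| then (1 : ℝ) else 0)
      ≤ 18 * Real.exp (-(ε ^ 2 / (54 * (1 + K)) * J)) := by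
    intro j _
    have h12 : (j : ℝ) / J * H ≤ (j + 2) / J * H := by
      apply mul_le_mul_of_nonneg_right _ hH0.le
      exact div_le_div_of_nonneg_right (by linarith) hJ0.le
    have hw : (j + 2) / J * H - (j : ℝ) / J * H + 1 ≤ 3 * H / J := by
      rw [le_div_iff₀ hJ0]
      have e : (((j : ℝ) + 2) / J * H - (j : ℝ) / J * H + 1) * J = 2 * H + J := by
        field_simp
        ring
      rw [e]
      linarith
    refine (win_tail h hB hA hn hK hθ hH hs hx0.le hxq (by positivity) h12 hJR hw M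
      (x * (ε / 3))).trans ?_
    have e1 : 3 * x ^ 2 * (1 + K) / (2 * J) - x * (ε / 3) = -(ε ^ 2 / (54 * (1 + K)) * J) := by
      rw [hx]
      field_simp
      ring
    have e2 : 3 * x ^ 2 * (1 + K) / (2 * J) + q * (36 * x ^ 3 + 4 * x ^ 2 + 4 * x) - x * (ε / 3)
        ≤ 1 + -(ε ^ 2 / (54 * (1 + K)) * J) := by
      rw [← e1]; linarith
    calc 6 * Real.exp _ ≤ 6 * Real.exp (1 + -(ε ^ 2 / (54 * (1 + K)) * J)) :=
          mul_le_mul_of_nonneg_left (Real.exp_le_exp.2 e2) (by norm_num)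
      _ = 6 * Real.exp 1 * Real.exp (-(ε ^ 2 / (54 * (1 + K)) * J)) := by
          rw [Real.exp_add]; ring
      _ ≤ 18 * Real.exp (-(ε ^ 2 / (54 * (1 + K)) * J)) := by
          apply mul_le_mul_of_nonneg_right _ (Real.exp_pos _).le
          have := Real.exp_one_lt_d9
          linarith
  -- the union
  have hun : EE θ M (fun c => if ∃ s t : unitInterval, |(s : ℝ) - t| ≤ 1 / J ∧
        ε ≤ |wp v θ H a c s - wp v θ H a c t| then (1 : ℝ) else 0)
      ≤ EE θ M (fun c => ∑ j ∈ Finset.range J, if ∃ m ≤ M, x * (ε / 3) <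
        |x * (a * ∑ t ∈ Finset.range m,
        (Yd v θ (t + 1) (rows c (t + 1)) - Yd v θ t (rows c t)) *
          lw (Sq θ c) (sn θ c) (j / J * H) ((j + 2) / J * H) t)| then (1 : ℝ) else 0) := by
    refine EE_mono hθ.adm fun c => ?_
    have hnn : ∀ j ∈ Finset.range J, (0 : ℝ) ≤ if ∃ m ≤ M, x * (ε / 3) <
        |x * (a * ∑ t ∈ Finset.range m,
        (Yd v θ (t + 1) (rows c (t + 1)) - Yd v θ t (rows c t)) *
          lw (Sq θ c) (sn θ c) (j / J * H) ((j + 2) / J * H) t)| then (1 : ℝ) else 0 := by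
      intro j _
      split_ifs <;> norm_num
    split_ifs with hc
    · obtain ⟨j, hj, s, r, hr, hrs, hs2, hε2⟩ := windows (fun s => wp v θ H a c s) hJ1 hc
      have hex : ∃ m ≤ M, x * (ε / 3) < |x * (a * ∑ t ∈ Finset.range m,
        (Yd v θ (t + 1) (rows c (t + 1)) - Yd v θ t (rows c t)) *
          lw (Sq θ c) (sn θ c) (j / J * H) ((j + 2) / J * H) t)| := by
        by_contra hcon
        push Not at hcon
        have hb : ∀ m ≤ M, |∑ t ∈ Finset.range m,
            (a * (Yd v θ (t + 1) (rows c (t + 1)) - Yd v θ t (rows c t))) *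
            lw (Sq θ c) (sn θ c) (j / J * H) ((j + 2) / J * H) t| ≤ ε / 3 := by
          intro m hm
          have h3 := hcon m hm
          rw [abs_mul, abs_of_pos hx0] at h3
          have h4 := le_of_mul_le_mul_left h3 hx0
          have e : ∑ t ∈ Finset.range m,
            (a * (Yd v θ (t + 1) (rows c (t + 1)) - Yd v θ t (rows c t))) *
            lw (Sq θ c) (sn θ c) (j / J * H) ((j + 2) / J * H) t = a * ∑ t ∈ Finset.range m,
            (Yd v θ (t + 1) (rows c (t + 1)) - Yd v θ t (rows c t)) *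
            lw (Sq θ c) (sn θ c) (j / J * H) ((j + 2) / J * H) t := by
            rw [Finset.mul_sum]
            exact Finset.sum_congr rfl fun t _ => by ring
          rw [e]
          exact h4
        have hrs' : (j : ℝ) / J * H ≤ s * H := by
          rw [← hr]
          exact mul_le_mul_of_nonneg_right hrs hH0.le
        have hs2' : (s : ℝ) * H ≤ (j + 2) / J * H := mul_le_mul_of_nonneg_right hs2 hH0.le
        have h5 := win_bd (clk hθ c) hrs' hs2' _ M hb
        have e : wp v θ H a c s - wp v θ H a c r = ∑ t ∈ Finset.range M,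
            (a * (Yd v θ (t + 1) (rows c (t + 1)) - Yd v θ t (rows c t))) *
            (cx (Sq θ c) (sn θ c) (s * H) t - cx (Sq θ c) (sn θ c) (j / J * H) t) := by
          simp only [wp, ContinuousMap.coe_mk]
          rw [hr, Finset.mul_sum, Finset.mul_sum, ← Finset.sum_sub_distrib]
          exact Finset.sum_congr rfl fun t _ => by ring
        rw [← e] at h5
        have h6 : ε / 2 ≤ |wp v θ H a c s - wp v θ H a c r| := hε2
        linarith
      calc (1 : ℝ) = if ∃ m ≤ M, x * (ε / 3) < |x * (a * ∑ t ∈ Finset.range m,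
            (Yd v θ (t + 1) (rows c (t + 1)) - Yd v θ t (rows c t)) *
            lw (Sq θ c) (sn θ c) (j / J * H) ((j + 2) / J * H) t)| then (1 : ℝ) else 0 := by
            rw [if_pos hex]
        _ ≤ _ := Finset.single_le_sum (f := fun j : ℕ => if ∃ m ≤ M, x * (ε / 3) <
            |x * (a * ∑ t ∈ Finset.range m,
            (Yd v θ (t + 1) (rows c (t + 1)) - Yd v θ t (rows c t)) *
            lw (Sq θ c) (sn θ c) (j / J * H) ((j + 2) / J * H) t)| then (1 : ℝ) else 0) hnn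
            (Finset.mem_range.2 hj)
    · exact Finset.sum_nonneg hnn
  rw [EE_sum'] at hun
  refine hun.trans ((Finset.sum_le_sum fun j hj => hwin j (Finset.mem_range.1 hj)).trans ?_)
  rw [Finset.sum_const, Finset.card_range, nsmul_eq_mul]
  exact hJ

end H729I
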