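import Pool.Agent.Run7.h729.Iso.Env

/-!
# Layered percolation on cylinders of odd circumference: moments
-/

set_option autoImplicit false

namespace H729I
open H906K Pool.Agent.H974R3 Polynomial Complex

/-- the correctors `f`, `g`, the drift `v` and the diffusivity `D` -/
structure Crr (n : ℕ) (f g : Pat (2 * n + 1) → ℝ) (v D : ℝ → ℝ) : Prop where
  m1 : ∀ θ ∈ Set.Icc 0 Real.pi, ∀ σ, ∑ b : Fin (2 * n + 1) → Bool,
    rw1 n (prob θ) b * ((dTc (2 * n) b σ : ℝ) + f (Tc (2 * n) b σ)) = f σ + v θ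
  m2 : ∀ θ ∈ Set.Icc 0 Real.pi, ∀ σ, ∑ b : Fin (2 * n + 1) → Bool,
    rw1 n (prob θ) b * (((dTc (2 * n) b σ : ℝ) + f (Tc (2 * n) b σ) - f σ - v θ) ^ 2
      + g (Tc (2 * n) b σ)) = g σ + D θ

/-- the first two Taylor coefficients of the normalised eigenvalue -/
noncomputable def T1 (n : ℕ) (t : (PowerSeries ℂ)[X]) (θ : ℝ) : ℂ :=
  (e4_cf 1 t).eval (cexp ((ph θ : ℂ) * I)) / (1 + cexp ((ph θ : ℂ) * I)) ^ (2 * n + 1)
noncomputable def T2 (n : ℕ) (t : (PowerSeries ℂ)[X]) (θ : ℝ) : ℂ :=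
  (e4_cf 2 t).eval (cexp ((ph θ : ℂ) * I)) / (1 + cexp ((ph θ : ℂ) * I)) ^ (2 * n + 1)

theorem crr_exists (n : ℕ) : ∃ (f g : Pat (2 * n + 1) → ℝ) (t : (PowerSeries ℂ)[X]), TSpec n t ∧
    (∀ θ ∈ Set.Icc 0 Real.pi, (T1 n t θ).re = 0) ∧
    Crr n f g (fun θ => (T1 n t θ).im) (fun θ => -2 * (T2 n t θ).re - (T1 n t θ).im ^ 2) := by
  obtain ⟨f, a, t, ht, h⟩ := moments n
  refine ⟨f, fun σ => -(2 * a σ + f σ ^ 2), t, ht, fun θ hθ => (h θ hθ).1, ?_, ?_⟩
  · intro θ hθ σ
    exact ((h θ hθ).2 σ).1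
  · intro θ hθ σ
    obtain ⟨h1, h2⟩ := (h θ hθ).2 σ
    change _ = f σ + (T1 n t θ).im at h1
    change _ = (T2 n t θ).re - (T1 n t θ).im * f σ + a σ at h2
    have h3 := rw1_sum n (prob θ)
    set v := (T1 n t θ).im with hv
    have e : ∀ b : Fin (2 * n + 1) → Bool, rw1 n (prob θ) b *
        (((dTc (2 * n) b σ : ℝ) + f (Tc (2 * n) b σ) - f σ - v) ^ 2
          + -(2 * a (Tc (2 * n) b σ) + f (Tc (2 * n) b σ) ^ 2))
        = -2 * (rw1 n (prob θ) b * (a (Tc (2 * n) b σ) - (dTc (2 * n) b σ : ℝ) * f (Tc (2 * n) b σ)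
          - (dTc (2 * n) b σ : ℝ) ^ 2 / 2))
        - 2 * (f σ + v) * (rw1 n (prob θ) b * ((dTc (2 * n) b σ : ℝ) + f (Tc (2 * n) b σ)))
        + (f σ + v) ^ 2 * rw1 n (prob θ) b := by
      intro b
      ring
    rw [Finset.sum_congr rfl fun b _ => e b, Finset.sum_add_distrib, Finset.sum_sub_distrib,
      ← Finset.mul_sum, ← Finset.mul_sum, ← Finset.mul_sum, h1, h2, h3]
    ring

variable {n : ℕ} {f g : Pat (2 * n + 1) → ℝ} {v D : ℝ → ℝ}

/-- the compensated displacement -/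
noncomputable def Uu (f : Pat (2 * n + 1) → ℝ) (v : ℝ → ℝ) (θ : Strat n) (M : ℕ) (c : Conf n M) : ℝ :=
  dis c + f (pat c) - Sm (fun t c => v (θ t c)) M c

theorem Uu_app (θ : Strat n) {M : ℕ} (c : Conf n M) (b : Fin (2 * n + 1) → Bool) :
    Uu f v θ (M + 1) (app c b) = Uu f v θ M c
      + ((dTc (2 * n) b (pat c) : ℝ) + f (Tc (2 * n) b (pat c)) - f (pat c) - v (θ M c)) := by
  unfold Uu
  rw [Sm_app, (run_app c b).1, (run_app c b).2]
  ring

theorem dis_zero (c : Conf n 0) : dis c = 0 := by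
  unfold dis run
  simp

theorem pat_zero (c : Conf n 0) : pat c = start n := rfl

theorem step_mean (h : Crr n f g v D) {θ : ℝ} (hθ : θ ∈ Set.Icc 0 Real.pi) (σ : Pat (2 * n + 1)) :
    ∑ b : Fin (2 * n + 1) → Bool, rw1 n (prob θ) b *
      ((dTc (2 * n) b σ : ℝ) + f (Tc (2 * n) b σ) - f σ - v θ) = 0 := by
  have h1 := h.m1 θ hθ σ
  have h3 := rw1_sum n (prob θ)
  have e : ∀ b : Fin (2 * n + 1) → Bool, rw1 n (prob θ) b *
      ((dTc (2 * n) b σ : ℝ) + f (Tc (2 * n) b σ) - f σ - v θ)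
      = rw1 n (prob θ) b * ((dTc (2 * n) b σ : ℝ) + f (Tc (2 * n) b σ))
        - (f σ + v θ) * rw1 n (prob θ) b := by
    intro b
    ring
  rw [Finset.sum_congr rfl fun b _ => e b, Finset.sum_sub_distrib, ← Finset.mul_sum, h1, h3]
  ring

theorem mean_Uu (h : Crr n f g v D) {θ : Strat n} (hθ : Adm θ) (M : ℕ) :
    EE θ M (Uu f v θ M) = f (start n) := by
  induction M with
  | zero =>
    rw [EE_zero]
    unfold Uu
    rw [dis_zero, pat_zero, Sm_zero]
    ring
  | succ M ih =>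
    rw [EE_succ, ← ih]
    congr 1
    funext c
    have h1 := step_mean h (hθ M c) (pat c)
    have h3 := rw1_sum n (prob (θ M c))
    have e : ∀ b : Fin (2 * n + 1) → Bool, rw1 n (prob (θ M c)) b • Uu f v θ (M + 1) (app c b)
        = Uu f v θ M c * rw1 n (prob (θ M c)) b + rw1 n (prob (θ M c)) b *
      ((dTc (2 * n) b (pat c) : ℝ) + f (Tc (2 * n) b (pat c)) - f (pat c) - v (θ M c)) := by
      intro b
      rw [Uu_app, smul_eq_mul]
      ring
    rw [Finset.sum_congr rfl fun b _ => e b, Finset.sum_add_distrib, ← Finset.mul_sum, h1, h3]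
    ring

theorem sq_Uu (h : Crr n f g v D) {θ : Strat n} (hθ : Adm θ) (M : ℕ) :
    EE θ M (fun c => (Uu f v θ M c - f (start n)) ^ 2 + g (pat c)
      - Sm (fun t c => D (θ t c)) M c) = g (start n) := by
  induction M with
  | zero =>
    rw [EE_zero]
    unfold Uu
    rw [dis_zero, pat_zero, Sm_zero, Sm_zero]
    ring
  | succ M ih =>
    rw [EE_succ, ← ih]
    congr 1
    funext c
    have h1 := step_mean h (hθ M c) (pat c)
    have h2 := h.m2 (θ M c) (hθ M c) (pat c)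
    have h3 := rw1_sum n (prob (θ M c))
    have e : ∀ b : Fin (2 * n + 1) → Bool, rw1 n (prob (θ M c)) b •
        ((Uu f v θ (M + 1) (app c b) - f (start n)) ^ 2 + g (pat (app c b))
          - Sm (fun t c => D (θ t c)) (M + 1) (app c b))
        = ((Uu f v θ M c - f (start n)) ^ 2 - Sm (fun t c => D (θ t c)) M c - D (θ M c))
            * rw1 n (prob (θ M c)) b
          + 2 * (Uu f v θ M c - f (start n)) * (rw1 n (prob (θ M c)) b *
      ((dTc (2 * n) b (pat c) : ℝ) + f (Tc (2 * n) b (pat c)) - f (pat c) - v (θ M c)))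
          + rw1 n (prob (θ M c)) b * (((dTc (2 * n) b (pat c) : ℝ) + f (Tc (2 * n) b (pat c))
            - f (pat c) - v (θ M c)) ^ 2 + g (Tc (2 * n) b (pat c))) := by
      intro b
      rw [Uu_app, Sm_app, (run_app c b).1, smul_eq_mul]
      ring
    rw [Finset.sum_congr rfl fun b _ => e b, Finset.sum_add_distrib, Finset.sum_add_distrib,
      ← Finset.mul_sum, ← Finset.mul_sum, h1, h2, h3]
    ring

/-- the Cauchy-Schwarz inequality -/
theorem EE_cs {M : ℕ} {θ : Strat n} (hθ : Adm θ) (F : Conf n M → ℝ) :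
    (EE θ M fun c => |F c|) ^ 2 ≤ EE θ M fun c => F c ^ 2 := by
  set a := EE θ M fun c => |F c| with ha
  have h1 : 0 ≤ EE θ M fun c => (|F c| - a) ^ 2 := by
    unfold EE
    exact Finset.sum_nonneg fun c _ => mul_nonneg (wgt_nonneg hθ c) (sq_nonneg _)
  have h2 : (EE θ M fun c => (|F c| - a) ^ 2) = (EE θ M fun c => F c ^ 2) - a ^ 2 := by
    have e : (fun c => (|F c| - a) ^ 2) = fun c => (F c ^ 2 - (2 * a) * |F c|) + a ^ 2 := by
      funext c
      rw [sub_sq, sq_abs]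
      ring
    rw [e, EE_add, EE_sub, EE_mul, EE_const, ← ha]
    ring
  linarith

/-- bounds of the correctors -/
noncomputable def bd (f : Pat (2 * n + 1) → ℝ) : ℝ := ∑ σ, |f σ|

theorem bd_le (f : Pat (2 * n + 1) → ℝ) (σ : Pat (2 * n + 1)) : |f σ| ≤ bd f :=
  Finset.single_le_sum (f := fun σ => |f σ|) (fun _ _ => abs_nonneg _) (Finset.mem_univ σ)

theorem bd_nonneg (f : Pat (2 * n + 1) → ℝ) : 0 ≤ bd f := Finset.sum_nonneg fun _ _ => abs_nonneg _

theorem D_nonneg (h : Crr n f g v D) {θ : ℝ} (hθ : θ ∈ Set.Icc 0 Real.pi) : 0 ≤ D θ := by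
  obtain ⟨σ, -, hσ⟩ := Finset.exists_min_image Finset.univ g ⟨start n, Finset.mem_univ _⟩
  have h1 := h.m2 θ hθ σ
  have h2 : ∑ b : Fin (2 * n + 1) → Bool, rw1 n (prob θ) b * g σ ≤
      ∑ b : Fin (2 * n + 1) → Bool, rw1 n (prob θ) b *
        (((dTc (2 * n) b σ : ℝ) + f (Tc (2 * n) b σ) - f σ - v θ) ^ 2
        + g (Tc (2 * n) b σ)) := by
    refine Finset.sum_le_sum fun b _ => mul_le_mul_of_nonneg_left ?_
      (rw1_nonneg n (prob_mem hθ) b)
    have := hσ (Tc (2 * n) b σ) (Finset.mem_univ _)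
    nlinarith [sq_nonneg ((dTc (2 * n) b σ : ℝ) + f (Tc (2 * n) b σ) - f σ - v θ)]
  rw [← Finset.sum_mul, rw1_sum, one_mul, h1] at h2
  linarith

/-- **mean and variance** of the displacement in every adaptive environment -/
theorem mean_le (h : Crr n f g v D) {θ : Strat n} (hθ : Adm θ) (M : ℕ) :
    |EE θ M (fun c => dis c - Sm (fun t c => v (θ t c)) M c)| ≤ 2 * bd f := by
  have h1 := mean_Uu h hθ M
  have h2 : EE θ M (fun c => dis c - Sm (fun t c => v (θ t c)) M c)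
      = f (start n) - EE θ M (fun c => f (pat c)) := by
    rw [← h1, ← EE_sub]
    congr 1
    funext c
    unfold Uu
    ring
  rw [h2]
  have h3 : |EE θ M (fun c => f (pat c))| ≤ bd f := by
    refine (EE_abs hθ _).trans ?_
    refine (EE_mono hθ (fun c => bd_le f (pat c))).trans ?_
    rw [EE_const]
  have h4 := bd_le f (start n)
  calc |f (start n) - EE θ M (fun c => f (pat c))| ≤ |f (start n)| + |EE θ M (fun c => f (pat c))| :=
        abs_sub _ _
    _ ≤ _ := by linarith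

theorem var_le (h : Crr n f g v D) {θ : Strat n} (hθ : Adm θ) (M : ℕ) :
    |EE θ M (fun c => (dis c - Sm (fun t c => v (θ t c)) M c) ^ 2)
      - EE θ M (Sm (fun t c => D (θ t c)) M)|
      ≤ 4 * bd f * √(EE θ M (Sm (fun t c => D (θ t c)) M) + 2 * bd g)
        + 4 * bd f ^ 2 + 2 * bd g := by
  have h1 := sq_Uu h hθ M
  set W : Conf n M → ℝ := fun c => Uu f v θ M c - f (start n) with hW
  set Q := EE θ M (Sm (fun t c => D (θ t c)) M) with hQ
  have h2 : EE θ M (fun c => W c ^ 2) = Q + (g (start n) - EE θ M (fun c => g (pat c))) := by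
    have e : EE θ M (fun c => W c ^ 2 + g (pat c) - Sm (fun t c => D (θ t c)) M c)
        = EE θ M (fun c => W c ^ 2) + EE θ M (fun c => g (pat c)) - Q := by
      rw [hQ, ← EE_add, ← EE_sub]
    rw [e] at h1
    linarith
  have h3 : |EE θ M (fun c => g (pat c))| ≤ bd g := by
    refine (EE_abs hθ _).trans ?_
    refine (EE_mono hθ (fun c => bd_le g (pat c))).trans ?_
    rw [EE_const]
  have h4 : |g (start n) - EE θ M (fun c => g (pat c))| ≤ 2 * bd g := by
    have := bd_le g (start n)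
    calc _ ≤ |g (start n)| + |EE θ M (fun c => g (pat c))| := abs_sub _ _
      _ ≤ _ := by linarith
  have h5 : EE θ M (fun c => W c ^ 2) ≤ Q + 2 * bd g := by
    rw [h2]
    have := abs_le.1 h4
    linarith
  have h6 : EE θ M (fun c => |W c|) ≤ √(Q + 2 * bd g) :=
    Real.le_sqrt_of_sq_le ((EE_cs hθ W).trans h5)
  -- the difference
  set r : Conf n M → ℝ := fun c => f (start n) - f (pat c) with hr
  have hrb : ∀ c, |r c| ≤ 2 * bd f := by
    intro c
    have a1 := bd_le f (start n)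
    have a2 := bd_le f (pat c)
    calc |r c| ≤ |f (start n)| + |f (pat c)| := abs_sub _ _
      _ ≤ _ := by linarith
  have h7 : ∀ c, (dis c - Sm (fun t c => v (θ t c)) M c) ^ 2 = W c ^ 2 + (2 * (W c * r c) + r c ^ 2) := by
    intro c
    simp only [hW, hr, Uu]
    ring
  have h8 : EE θ M (fun c => (dis c - Sm (fun t c => v (θ t c)) M c) ^ 2)
      = EE θ M (fun c => W c ^ 2) + EE θ M (fun c => 2 * (W c * r c) + r c ^ 2) := by
    rw [← EE_add]
    congr 1
    funext c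
    exact h7 c
  have h9 : |EE θ M (fun c => 2 * (W c * r c) + r c ^ 2)| ≤ 4 * bd f * √(Q + 2 * bd g)
      + 4 * bd f ^ 2 := by
    refine (EE_abs hθ _).trans ?_
    have hb := bd_nonneg f
    refine (EE_mono hθ (G := fun c => 4 * bd f * |W c| + 4 * bd f ^ 2) (fun c => ?_)).trans ?_
    · have a1 := hrb c
      have a2 := abs_nonneg (r c)
      have a3 := abs_nonneg (W c)
      calc |2 * (W c * r c) + r c ^ 2| ≤ |2 * (W c * r c)| + |r c ^ 2| := abs_add_le _ _
        _ = 2 * (|W c| * |r c|) + |r c| ^ 2 := by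
          rw [abs_mul, abs_mul, abs_pow, abs_of_pos (by norm_num : (0:ℝ) < 2)]
        _ ≤ _ := by nlinarith
    · rw [EE_add, EE_mul, EE_const]
      have := mul_le_mul_of_nonneg_left h6 (by positivity : 0 ≤ 4 * bd f)
      linarith
  rw [h8, h2]
  have h10 : Q + (g (start n) - EE θ M fun c => g (pat c))
      + EE θ M (fun c => 2 * (W c * r c) + r c ^ 2) - Q
      = (g (start n) - EE θ M fun c => g (pat c))
        + EE θ M (fun c => 2 * (W c * r c) + r c ^ 2) := by ring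
  rw [h10]
  calc _ ≤ |g (start n) - EE θ M fun c => g (pat c)|
        + |EE θ M (fun c => 2 * (W c * r c) + r c ^ 2)| := abs_add_le _ _
    _ ≤ _ := by linarith

end H729I
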