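import Pool.Agent.Run7.h729.Iso.Gau

/-!
# Several blocks above a homogeneous cylinder
-/

set_option autoImplicit false

namespace H729I
open H906K Pool.Agent.H974R3 Polynomial Complex Filter Topology

variable {n : ℕ} {t : (PowerSeries ℂ)[X]} {w : Pat (2 * n + 1) → PowerSeries ℂ}
  {μ : Pat (2 * n + 1) → ℝ}

theorem Qo_cls {F : Pat (2 * n + 1) → ℝ} (hF : Cls F) (θ : ℝ) : Cls (Qo n θ F) := by
  intro σ σ' hσ
  unfold Qo
  refine Finset.sum_congr rfl fun b _ => ?_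
  rw [hF _ _ (hσ.step b).2]

theorem QQ_cls {F : Pat (2 * n + 1) → ℝ} (hF : Cls F) (ϑ : ℕ → ℝ) (M : ℕ) : Cls (QQ n ϑ M F) := by
  induction M generalizing F with
  | zero => exact hF
  | succ M ih => exact ih (Qo_cls hF _)

theorem QQ_bd {ϑ : ℕ → ℝ} (hϑ : ∀ t, ϑ t ∈ Set.Icc 0 Real.pi) {F : Pat (2 * n + 1) → ℝ} {B : ℝ}
    (hF : ∀ σ, |F σ| ≤ B) (M : ℕ) (σ : Pat (2 * n + 1)) : |QQ n ϑ M F σ| ≤ B := by
  rw [← EE_pat]
  refine (EE_abs (det_adm hϑ) _).trans ?_
  have := EE_mono (det_adm (n := n) hϑ) (M := M) (F := fun ω => |F (run (2 * n) M ω σ).1|)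
    (G := fun _ => B) (fun ω => hF _)
  rwa [EE_const] at this

theorem Bk1_norm {ϑ : ℕ → ℝ} (hϑ : ∀ t, ϑ t ∈ Set.Icc 0 Real.pi) (M : ℕ) (α : ℝ)
    (σ : Pat (2 * n + 1)) : ‖Bk n ϑ M α (fun _ => 1) σ‖ ≤ 1 := by
  refine (Bk_norm hϑ M α _ σ).trans ?_
  rw [← EE_pat]
  simp only [norm_one]
  rw [EE_const]

theorem Bk1_cls (ϑ : ℕ → ℝ) (M : ℕ) (α : ℝ) : Cls (Bk n ϑ M α (fun _ => 1)) := by
  intro σ σ' hσ
  unfold Bk
  congr 1
  funext ω
  rw [hσ M ω]

/-- functions of the pattern at a level of the environment -/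
theorem EE_level (h : Eg n t w μ) (hn : 1 ≤ n) {ϑ : ℕ → ℝ} (hϑ : ∀ t, ϑ t ∈ Set.Icc 0 Real.pi)
    (K M : ℕ) {F : Pat (2 * n + 1) → ℝ} (hc : Cls F) {B : ℝ} (hB : ∀ σ, |F σ| ≤ B) :
    EE (det n (cat K ϑ)) (K + M) (fun c => F (pat c)) ≤ ∑ σ, μ σ * F σ + 2 * B * dl n K := by
  rw [EE_cat, EE_hom K ϑ K le_rfl, ← QQ_stat h.ms hϑ M F]
  have := (abs_le.1 (mixC h hn (QQ_cls hc ϑ M) (fun σ _ => QQ_bd hϑ hB M σ) K)).2
  linarith

/-- the phase of a block -/
noncomputable def ps1 (n : ℕ) (a : ℝ) (x : ℝ) : ℂ := cexp ((x : ℂ) / (2 * n + 1) * I * ((2 * Real.pi * a : ℝ) : ℂ))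

theorem ps1_norm (a x : ℝ) : ‖ps1 n a x‖ = 1 := by
  unfold ps1
  have : (x : ℂ) / (2 * n + 1) * I * ((2 * Real.pi * a : ℝ) : ℂ)
      = ((x / (2 * n + 1) * (2 * Real.pi * a) : ℝ) : ℂ) * I := by
    push_cast; ring
  rw [this, Complex.norm_exp_ofReal_mul_I]

/-- the product of the phases of the blocks -/
noncomputable def PP {R : ℕ} (K : ℕ) (τ : ℕ → ℕ) (a : ℕ → ℝ) (r : ℕ) (c : Conf n R) : ℂ :=
  ∏ i ∈ Finset.range r, ps1 n (a i) (dis (rows c (K + τ (i + 1))) - dis (rows c (K + τ i)))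

theorem PP_norm {R : ℕ} (K : ℕ) (τ : ℕ → ℕ) (a : ℕ → ℝ) (r : ℕ) (c : Conf n R) :
    ‖PP K τ a r c‖ = 1 := by
  unfold PP
  rw [norm_prod]
  simp only [ps1_norm, Finset.prod_const_one]

theorem PP_rows {R A : ℕ} (K : ℕ) {τ : ℕ → ℕ} (hτ : Monotone τ) (a : ℕ → ℝ) (r : ℕ) (c : Conf n R)
    (hA : K + τ r ≤ A) : PP K τ a r (rows c A) = PP K τ a r c := by
  unfold PP
  refine Finset.prod_congr rfl fun i hi => ?_
  have hi' := Finset.mem_range.1 hi
  have h1 : τ (i + 1) ≤ τ r := hτ hi'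
  have h2 : τ i ≤ τ r := hτ hi'.le
  rw [rows_rows c (by omega), rows_rows c (by omega)]

/-- **several blocks** -/
theorem multi_aux (h : Eg n t w μ) (hn : 1 ≤ n) {ϑ : ℕ → ℝ} (hϑ : ∀ t, ϑ t ∈ Set.Icc 0 Real.pi)
    {C : ℝ} (hC : ∀ ϑ : ℕ → ℝ, (∀ t, ϑ t ∈ Set.Icc 0 Real.pi) → ∀ (M : ℕ) (a : ℝ),
      n1 μ (fun σ => Bk n ϑ M (2 * Real.pi * a) (fun _ => 1) σ - gv n ϑ M a)
        ≤ err C n a (hgt n ϑ M)) (K : ℕ) {τ : ℕ → ℕ} (hτ : Monotone τ)
    (a : ℕ → ℝ) (r : ℕ) : ∀ R, K + τ r ≤ R →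
    ‖EE (det n (cat K ϑ)) R (PP K τ a r) - ∏ i ∈ Finset.range r,
      gv n (shf (τ i) ϑ) (τ (i + 1) - τ i) (a i)‖
      ≤ ∑ i ∈ Finset.range r, (err C n (a i) (hgt n (shf (τ i) ϑ) (τ (i + 1) - τ i))
        + 4 * dl n K) := by
  induction r with
  | zero =>
    intro R _
    unfold PP
    simp only [Finset.range_zero, Finset.prod_empty, Finset.sum_empty]
    rw [EE_const, sub_self, norm_zero]
  | succ r ih =>
    intro R hR
    set ϑ' := shf (τ r) ϑ with hϑ'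
    have hϑ'a : ∀ t, ϑ' t ∈ Set.Icc 0 Real.pi := fun t => hϑ _
    have hle : τ r ≤ τ (r + 1) := hτ (Nat.le_succ r)
    obtain ⟨l, hl⟩ := Nat.exists_eq_add_of_le hle
    have hl' : τ (r + 1) - τ r = l := by omega
    have hsh : shf (K + τ r) (cat K ϑ) = ϑ' := by
      funext s
      unfold shf
      rw [add_assoc, cat_add]
      rfl
    set g := gv n ϑ' l (a r) with hg
    set B1 : Pat (2 * n + 1) → ℂ := Bk n ϑ' l (2 * Real.pi * a r) (fun _ => 1) with hB1
    -- the Markov property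
    have h1 : EE (det n (cat K ϑ)) R (PP K τ a (r + 1))
        = EE (det n (cat K ϑ)) (K + τ r) (fun c => PP K τ a r c * B1 (pat c)) := by
      have e1 := EE_rows (det n (cat K ϑ)) (m := K + τ r + l) (M := R) (by omega)
        (PP K τ a (r + 1) : Conf n (K + τ r + l) → ℂ)
      have e2 : (fun c : Conf n R => PP K τ a (r + 1) (rows c (K + τ r + l)))
          = PP K τ a (r + 1) := by
        funext c
        exact PP_rows K hτ a (r + 1) c (by omega)
      rw [e2] at e1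
      rw [e1]
      have e3 := EE_prod (n := n) (V := ℂ) (cat K ϑ) (K + τ r) l (fun c' ω => PP K τ a r c'
        * (phs n (2 * Real.pi * a r) (run (2 * n) l ω (pat c')).2 * 1))
      rw [hsh] at e3
      have e4 : (fun c' : Conf n (K + τ r) => EE (det n ϑ') l (fun ω => PP K τ a r c'
          * (phs n (2 * Real.pi * a r) (run (2 * n) l ω (pat c')).2 * 1)))
          = fun c' => PP K τ a r c' * B1 (pat c') := by
        funext c'
        rw [EE_cmul]
        rfl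
      rw [e4] at e3
      rw [← e3]
      congr 1
      funext c
      have e5 : PP K τ a (r + 1) c = PP K τ a r c
          * ps1 n (a r) (dis (rows c (K + τ (r + 1))) - dis (rows c (K + τ r))) := by
        unfold PP
        rw [Finset.prod_range_succ]
      rw [e5, PP_rows K hτ a r c le_rfl]
      congr 1
      have e6 : K + τ (r + 1) = K + τ r + l := by omega
      rw [e6, rows_self, (dis_split c).1, add_sub_cancel_left, mul_one]
      unfold ps1 phs
      rfl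
    have h2 : EE (det n (cat K ϑ)) R (PP K τ a r) = EE (det n (cat K ϑ)) (K + τ r) (PP K τ a r) := by
      have e1 := EE_rows (det n (cat K ϑ)) (m := K + τ r) (M := R) (by omega)
        (PP K τ a r : Conf n (K + τ r) → ℂ)
      have e2 : (fun c : Conf n R => PP K τ a r (rows c (K + τ r))) = PP K τ a r := by
        funext c
        exact PP_rows K hτ a r c le_rfl
      rwa [e2] at e1
    have hgn : ‖g‖ ≤ 1 := gv_norm hϑ'a l (a r)
    -- the error of the last block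
    have h3 : ‖EE (det n (cat K ϑ)) (K + τ r) (fun c => PP K τ a r c * B1 (pat c))
        - g * EE (det n (cat K ϑ)) (K + τ r) (PP K τ a r)‖
        ≤ err C n (a r) (hgt n ϑ' l) + 4 * dl n K := by
      rw [← EE_cmul, ← EE_sub]
      refine (EE_norm (det_adm (cat_mem hϑ)) _).trans ?_
      have e1 : (fun c : Conf n (K + τ r) => ‖PP K τ a r c * B1 (pat c) - g * PP K τ a r c‖)
          = fun c => (fun σ => ‖B1 σ - g‖) (pat c) := by
        funext c
        have : PP K τ a r c * B1 (pat c) - g * PP K τ a r c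
            = PP K τ a r c * (B1 (pat c) - g) := by ring
        rw [this, norm_mul, PP_norm, one_mul]
      rw [e1]
      have hcl : Cls (fun σ => ‖B1 σ - g‖) := fun σ σ' hσ => by
        show ‖B1 σ - g‖ = ‖B1 σ' - g‖
        have e0 : B1 σ = B1 σ' := Bk1_cls ϑ' l _ σ σ' hσ
        rw [e0]
      have hbd : ∀ σ, |‖B1 σ - g‖| ≤ 2 := fun σ => by
        rw [abs_of_nonneg (norm_nonneg _)]
        have := norm_sub_le (B1 σ) g
        have := Bk1_norm hϑ'a l (2 * Real.pi * a r) σ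
        linarith
      refine (EE_level h hn hϑ K (τ r) hcl hbd).trans ?_
      have := hC ϑ' hϑ'a l (a r)
      have e : n1 μ (fun σ => Bk n ϑ' l (2 * Real.pi * a r) (fun _ => 1) σ - gv n ϑ' l (a r))
          = ∑ σ, μ σ * ‖B1 σ - g‖ := rfl
      rw [e] at this
      linarith
    have h4 := ih (K + τ r) le_rfl
    rw [Finset.prod_range_succ, Finset.sum_range_succ, hl', h1, ← hϑ', ← hg]
    have e : EE (det n (cat K ϑ)) (K + τ r) (fun c => PP K τ a r c * B1 (pat c))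
        - (∏ i ∈ Finset.range r, gv n (shf (τ i) ϑ) (τ (i + 1) - τ i) (a i)) * g
        = (EE (det n (cat K ϑ)) (K + τ r) (fun c => PP K τ a r c * B1 (pat c))
          - g * EE (det n (cat K ϑ)) (K + τ r) (PP K τ a r))
          + g * (EE (det n (cat K ϑ)) (K + τ r) (PP K τ a r)
            - ∏ i ∈ Finset.range r, gv n (shf (τ i) ϑ) (τ (i + 1) - τ i) (a i)) := by ring
    rw [e]
    refine (norm_add_le _ _).trans ?_
    rw [norm_mul]
    have h5 : ‖g‖ * ‖EE (det n (cat K ϑ)) (K + τ r) (PP K τ a r)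
            - ∏ i ∈ Finset.range r, gv n (shf (τ i) ϑ) (τ (i + 1) - τ i) (a i)‖
        ≤ 1 * ‖EE (det n (cat K ϑ)) (K + τ r) (PP K τ a r)
            - ∏ i ∈ Finset.range r, gv n (shf (τ i) ϑ) (τ (i + 1) - τ i) (a i)‖ :=
      mul_le_mul_of_nonneg_right hgn (norm_nonneg _)
    linarith

end H729I
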