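import Pool.Agent.Run7.h729.Iso.Cof
import Pool.Agent.Run7.h729.Iso.Deg

/-!
# Bounds of the Taylor coefficients of the eigenvalue at the physical points
-/

set_option autoImplicit false

namespace H729I
open H906K Pool.Agent.H974R3 Polynomial Complex MeasureTheory Filter Topology

variable {n : ℕ} {t Q : (PowerSeries ℂ)[X]} {s1 s2 V1 V2 : ℝ[X]}

/-- the rescaled left eigenvector -/
noncomputable def wr (n : ℕ) (w : Pat (2 * n + 1) → PowerSeries ℂ) (σ : Pat (2 * n + 1)) :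
    PowerSeries ℂ := PowerSeries.rescale (1 / (2 * n + 1 : ℂ)) (w σ)

theorem wr_zero {w : Pat (2 * n + 1) → PowerSeries ℂ} (hw : ∀ σ, PowerSeries.coeff 0 (w σ) = 1)
    (σ : Pat (2 * n + 1)) : PowerSeries.coeff 0 (wr n w σ) = 1 := by
  unfold wr
  rw [PowerSeries.coeff_rescale, pow_zero, one_mul, hw]

/-- **the eigenvalue equation for the averaging operators** -/
theorem eig {w : Pat (2 * n + 1) → PowerSeries ℂ}
    (h : (TL (2 * n) (C (PowerSeries.C om)) (X : (PowerSeries ℂ)[X]) ezX).vecMul (fun σ => C (w σ))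
      = t • (fun σ => C (w σ))) {θ : ℝ} (hθ : θ ∈ Set.Icc 0 Real.pi) (σ : Pat (2 * n + 1)) :
    ∑ b : Fin (2 * n + 1) → Bool, PowerSeries.C ((rw1 n (prob θ) b : ℝ) : ℂ)
      * (wr n w (Tc (2 * n) b σ) * expI (dTc (2 * n) b σ / (2 * n + 1)))
      = tz n t ((ph θ : ℂ) * I) * wr n w σ := by
  have h1 := congrArg (PowerSeries.rescale (1 / (2 * n + 1 : ℂ)))
    (left_eval h (cexp ((ph θ : ℂ) * I)) σ)
  rw [map_sum, map_mul] at h1
  have hne := pow_ne_zero (2 * n + 1) (one_add_ne hθ)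
  have h2 := congrArg (fun p => PowerSeries.C (((1 + cexp ((ph θ : ℂ) * I)) ^ (2 * n + 1))⁻¹) * p) h1
  unfold tz Sx wr
  rw [mul_assoc, ← h2, Finset.mul_sum]
  refine Finset.sum_congr rfl fun b _ => ?_
  have h3 := rescale_expI n ((dTc (2 * n) b σ : ℂ) / (2 * n + 1))
  rw [div_mul_cancel₀ _ (Nc_ne n)] at h3
  have h4 : PowerSeries.C (((1 + cexp ((ph θ : ℂ) * I)) ^ (2 * n + 1))⁻¹)
      * PowerSeries.C ((1 + cexp ((ph θ : ℂ) * I)) ^ (2 * n + 1)) = 1 := by
    rw [← map_mul, inv_mul_cancel₀ hne, map_one]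
  rw [map_mul, map_mul, rescale_C, Wc_eq n hθ, h3, map_mul]
  linear_combination (-(PowerSeries.C ((rw1 n (prob θ) b : ℝ) : ℂ)
    * ((PowerSeries.rescale (1 / (2 * n + 1 : ℂ))) (w (Tc (2 * n) b σ))
      * expI (dTc (2 * n) b σ / (2 * n + 1))))) * h4

theorem lgs_pow {F : PowerSeries ℂ} (hF : PowerSeries.coeff 0 F = 1) (p : ℕ) :
    PowerSeries.coeff 0 (F ^ p) = 1 ∧ lgs (F ^ p) = (p : ℂ) • lgs F := by
  induction p with
  | zero =>
    refine ⟨by simp, ?_⟩
    rw [pow_zero, Nat.cast_zero, zero_smul]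
    have h1 := lgs_mul (F := 1) (G := 1) (by simp) (by simp)
    rw [mul_one] at h1
    exact left_eq_add.1 h1
  | succ p ih =>
    refine ⟨by rw [pow_succ, e4_mul0, ih.1, hF, mul_one], ?_⟩
    rw [pow_succ, lgs_mul ih.1 hF, ih.2]
    push_cast
    rw [add_smul, one_smul]

theorem lgs_of_pow {F G : PowerSeries ℂ} (hF : PowerSeries.coeff 0 F = 1)
    (hG : PowerSeries.coeff 0 G = 1) {p : ℕ} (hp : 0 < p) (h : F ^ p = G ^ p) : lgs F = lgs G := by
  have h1 := (lgs_pow hF p).2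
  have h2 := (lgs_pow hG p).2
  rw [h, h2] at h1
  have hp' : (p : ℂ) ≠ 0 := by exact_mod_cast hp.ne'
  have h3 := smul_right_injective (PowerSeries ℂ) hp' h1
  exact h3.symm

theorem lgs_expI (c : ℂ) : lgs (expI c) = PowerSeries.C (c * I) * PowerSeries.X := by
  have h0 : PowerSeries.constantCoeff (expI c) = 1 := by
    rw [← PowerSeries.coeff_zero_eq_constantCoeff_apply, e4_expI]
    simp
  apply PowerSeries.derivative.ext
  · rw [lgs_deriv]
    have h1 : PowerSeries.derivative ℂ (expI c) = PowerSeries.C (c * I) * expI c := by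
      ext k
      rw [PowerSeries.coeff_derivative, PowerSeries.coeff_C_mul, e4_expI, e4_expI,
        Nat.factorial_succ]
      have h2 : ((k : ℂ) + 1) ≠ 0 := Nat.cast_add_one_ne_zero k
      have h3 : (k.factorial : ℂ) ≠ 0 := by exact_mod_cast k.factorial_ne_zero
      push_cast
      field_simp
      ring
    have h2 : expI c * (expI c)⁻¹ = 1 :=
      PowerSeries.mul_inv_cancel _ (by rw [h0]; exact one_ne_zero)
    rw [h1, mul_assoc, h2, mul_one]
    rw [Derivation.leibniz, PowerSeries.derivative_C, smul_zero, add_zero, smul_eq_mul]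
    have h3 : PowerSeries.derivative ℂ (PowerSeries.X : PowerSeries ℂ) = 1 := by
      ext k
      rw [PowerSeries.coeff_derivative, PowerSeries.coeff_X, PowerSeries.coeff_one]
      rcases k with _ | k
      · simp
      · simp
    rw [h3, mul_one]
  · rw [← PowerSeries.coeff_zero_eq_constantCoeff_apply, lgs_zero,
      ← PowerSeries.coeff_zero_eq_constantCoeff_apply]
    simp

theorem finite_orbit {α : Type*} [Finite α] (F : α → α) (a : α) :
    ∃ b : α, ∃ p : ℕ, 0 < p ∧ F^[p] b = b := by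
  obtain ⟨i, j, hij, h⟩ := Finite.exists_ne_map_eq_of_infinite (fun k : ℕ => F^[k] a)
  rcases lt_or_gt_of_ne hij with h1 | h1
  · refine ⟨F^[i] a, j - i, by omega, ?_⟩
    rw [← Function.iterate_add_apply, Nat.sub_add_cancel h1.le]
    exact h.symm
  · refine ⟨F^[j] a, i - j, by omega, ?_⟩
    rw [← Function.iterate_add_apply, Nat.sub_add_cancel h1.le]
    exact h

/-- the logarithm of the eigenvalue at angle zero -/
theorem lt_zero (h : TSpec n t) {w : Pat (2 * n + 1) → PowerSeries ℂ}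
    (hw : ∀ σ, PowerSeries.coeff 0 (w σ) = 1)
    (hL : (TL (2 * n) (C (PowerSeries.C om)) (X : (PowerSeries ℂ)[X]) ezX).vecMul (fun σ => C (w σ))
      = t • (fun σ => C (w σ))) {k : ℕ} (hk : 2 ≤ k) :
    PowerSeries.coeff k (lgs (tz n t (Real.pi / 3 * I))) = 0 := by
  have hθ : (0 : ℝ) ∈ Set.Icc 0 Real.pi := ⟨le_rfl, Real.pi_pos.le⟩
  have hph : ((ph 0 : ℝ) : ℂ) * I = Real.pi / 3 * I := by unfold ph; push_cast; ring
  set F : Pat (2 * n + 1) → Pat (2 * n + 1) := Tc (2 * n) (fun _ => false) with hF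
  have h1 : ∀ σ, wr n w (F σ) * expI (1 / (2 * n + 1)) = tz n t (Real.pi / 3 * I) * wr n w σ := by
    intro σ
    have h2 := eig hL hθ σ
    rw [hph, prob_zero] at h2
    rw [← h2, Finset.sum_eq_single (fun _ => false)]
    · rw [rw1_zero, if_pos rfl, dTc_false]
      simp [hF]
    · intro b _ hb
      rw [rw1_zero, if_neg hb]
      simp
    · intro hb
      exact absurd (Finset.mem_univ _) hb
  have h2 : ∀ p : ℕ, ∀ σ, wr n w (F^[p] σ) * expI (1 / (2 * n + 1)) ^ p
      = tz n t (Real.pi / 3 * I) ^ p * wr n w σ := by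
    intro p
    induction p with
    | zero => intro σ; simp
    | succ p ih =>
      intro σ
      rw [Function.iterate_succ_apply, pow_succ, pow_succ]
      linear_combination (expI (1 / (2 * n + 1))) * ih (F σ)
        + tz n t (Real.pi / 3 * I) ^ p * h1 σ
  have : Nonempty (Pat (2 * n + 1)) := ⟨base n⟩
  obtain ⟨b, p, hp, hb⟩ := finite_orbit F (Classical.arbitrary _)
  have h3 := h2 p b
  rw [hb, mul_comm] at h3
  have hb0 : wr n w b ≠ 0 := by
    intro h0
    have := wr_zero hw b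
    rw [h0, map_zero] at this
    exact zero_ne_one this
  have h4 := mul_right_cancel₀ hb0 h3
  have hz : |((Real.pi : ℂ) / 3 * I).im| ≤ 2 * Real.pi / 3 := by
    have : ((Real.pi : ℂ) / 3 * I).im = Real.pi / 3 := by
      have : ((Real.pi : ℂ) / 3 * I) = ((Real.pi / 3 : ℝ) : ℂ) * I := by push_cast; ring
      rw [this]; simp
    rw [this, abs_of_pos (by positivity)]
    linarith [Real.pi_pos]
  have h5 := lgs_of_pow (F := expI (1 / (2 * n + 1))) (G := tz n t (Real.pi / 3 * I))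
    (by rw [e4_expI]; simp) (tz_zero h hz) hp h4
  rw [← h5, lgs_expI, PowerSeries.coeff_C_mul, PowerSeries.coeff_X, if_neg (by omega), mul_zero]

/-- the kernel of the representation, decomposed -/
theorem phys_rep (m : ℕ) {f : ℂ → ℂ} (hf : Nic f) {a : ℝ} (ha : 0 ≤ a)
    (hG : ∀ u : ℝ, ‖f (u + Real.pi / 3 * I) + f (u - Real.pi / 3 * I)‖ ≤ a * |ta u| ^ (2 * m + 3)) :
    ∃ J : ℂ, ∀ θ ∈ Set.Ioo 0 Real.pi,
      ‖f ((ph θ : ℂ) * I) - (Real.cos θ : ℂ) * J‖ ≤ a * Real.sin θ / (2 * m + 1) := by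
  have hpi := Real.pi_pos
  have hpi3 := Real.pi_gt_three
  obtain ⟨h1, K, h2⟩ := hf
  set G : ℝ → ℂ := fun u => f (u + Real.pi / 3 * I) + f (u - Real.pi / 3 * I) with hGd
  have him1 : ∀ u : ℝ, |((u : ℂ) + Real.pi / 3 * I).im| < 2 * Real.pi / 5 := fun u => (u_p u).2.1
  have him2 : ∀ u : ℝ, |((u : ℂ) - Real.pi / 3 * I).im| < 2 * Real.pi / 5 := fun u => (u_m u).2.1
  have hGc : Continuous G := by
    refine Continuous.add ?_ ?_
    · rw [continuous_iff_continuousAt]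
      intro u
      refine ContinuousAt.comp (f := fun t : ℝ => ((t : ℂ) + Real.pi / 3 * I))
        (h1 _ (him1 u)).continuousAt ?_
      fun_prop
    · rw [continuous_iff_continuousAt]
      intro u
      refine ContinuousAt.comp (f := fun t : ℝ => ((t : ℂ) - Real.pi / 3 * I))
        (h1 _ (him2 u)).continuousAt ?_
      fun_prop
  have hSm : Measurable (fun u : ℝ => Real.sinh (3 * u / 2)) :=
    (Real.continuous_sinh.comp (by fun_prop)).measurable
  have hSc : Measurable (fun u : ℝ => ((Real.sinh (3 * u / 2) : ℝ) : ℂ)) :=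
    Complex.measurable_ofReal.comp hSm
  -- the singular integral
  have i1 : Integrable (fun u : ℝ => G u / ((Real.sinh (3 * u / 2) : ℝ) : ℂ)) := by
    refine (one_sub_int.const_mul (a / 2)).mono' (hGc.measurable.div hSc).aestronglyMeasurable
      (Eventually.of_forall fun u => ?_)
    rw [norm_div, Complex.norm_real, Real.norm_eq_abs, div_eq_mul_one_div]
    have e : 1 / |Real.sinh (3 * u / 2)| = |1 / Real.sinh (3 * u / 2)| := by
      rw [abs_div, abs_one]
    rw [e]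
    calc ‖G u‖ * |1 / Real.sinh (3 * u / 2)|
        ≤ (a * |ta u| ^ (2 * m + 3)) * |1 / Real.sinh (3 * u / 2)| :=
          mul_le_mul_of_nonneg_right (hG u) (abs_nonneg _)
      _ = a * (|ta u| ^ (2 * m + 3) * |1 / Real.sinh (3 * u / 2)|) := by ring
      _ ≤ a * ((1 - ta u ^ 2) / 2) := mul_le_mul_of_nonneg_left (pt_B m u) ha
      _ = _ := by ring
  refine ⟨(3 / (4 * Real.pi) : ℝ) * I * ∫ u : ℝ, G u / ((Real.sinh (3 * u / 2) : ℝ) : ℂ), ?_⟩
  intro θ hθ
  have hs := Real.sin_pos_of_mem_Ioo hθ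
  have hs1 := Real.sin_le_one θ
  obtain ⟨e1, e2⟩ := ph_trig θ
  have h3 := H729I.strip_im f K (fun z hz => h1 z (by linarith)) (fun z hz => h2 z (by linarith))
    (ph θ) (ph_lt hθ)
  set c := Real.sin θ with hc
  set s := Real.cos θ with hsd
  have b2 : ∀ u : ℝ, ‖G u / ((Real.sinh (3 * u / 2) * (Real.sinh (3 * u / 2) ^ 2 + c ^ 2) : ℝ) : ℂ)‖
      ≤ a / 8 * w3 m u := by
    intro u
    rw [norm_div, Complex.norm_real, Real.norm_eq_abs, div_eq_mul_one_div]
    have e : 1 / |Real.sinh (3 * u / 2) * (Real.sinh (3 * u / 2) ^ 2 + c ^ 2)|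
        = |1 / (Real.sinh (3 * u / 2) * (Real.sinh (3 * u / 2) ^ 2 + c ^ 2))| := by
      rw [abs_div, abs_one]
    rw [e]
    calc _ ≤ (a * |ta u| ^ (2 * m + 3)) *
            |1 / (Real.sinh (3 * u / 2) * (Real.sinh (3 * u / 2) ^ 2 + c ^ 2))| :=
          mul_le_mul_of_nonneg_right (hG u) (abs_nonneg _)
      _ = a * (|ta u| ^ (2 * m + 3) *
            |1 / (Real.sinh (3 * u / 2) * (Real.sinh (3 * u / 2) ^ 2 + c ^ 2))|) := by ring
      _ ≤ a * (w3 m u / 8) := mul_le_mul_of_nonneg_left (pt_A m u c) ha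
      _ = _ := by ring
  have i2 : Integrable (fun u : ℝ => G u /
      ((Real.sinh (3 * u / 2) * (Real.sinh (3 * u / 2) ^ 2 + c ^ 2) : ℝ) : ℂ)) := by
    refine ((w3_int m).const_mul (a / 8)).mono'
      (hGc.measurable.div (Complex.measurable_ofReal.comp
        (hSm.mul ((hSm.pow_const 2).add_const _)))).aestronglyMeasurable
      (Eventually.of_forall fun u => b2 u)
  -- the even part
  have b3 : ∀ u : ℝ, ‖(((3 / (4 * Real.pi) * (Real.cosh (3 * u / 2) * c)
      / (Real.sinh (3 * u / 2) ^ 2 + c ^ 2) : ℝ)) : ℂ) * G u‖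
      ≤ 3 / (8 * Real.pi) * a * c * (ta u ^ (2 * m) * (1 - ta u ^ 2)) := by
    intro u
    have hC := Real.cosh_pos (3 * u / 2)
    have hden : 0 < Real.sinh (3 * u / 2) ^ 2 + c ^ 2 := by positivity
    rw [norm_mul, Complex.norm_real, Real.norm_eq_abs, abs_of_nonneg (by positivity)]
    have h1t : 0 < 1 - ta u ^ 2 := by have := ta_sq_lt u; linarith
    have q1 := sinh_ta u
    have q2 := cosh_ta u
    have q3 : |ta u| ^ (2 * m + 3) * Real.cosh (3 * u / 2)
        ≤ (Real.sinh (3 * u / 2) ^ 2 + c ^ 2) * (ta u ^ (2 * m) * (1 - ta u ^ 2) / 2) := by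
      have q4 : |ta u| ^ (2 * m + 3) ≤ ta u ^ (2 * m) * ta u ^ 2 := by
        rw [← pow_add, ← Even.pow_abs (n := 2 * m + 2) ⟨m + 1, by ring⟩]
        exact pow_le_pow_of_le_one (abs_nonneg _) (ta_abs u) (by omega)
      have q5 : Real.cosh (3 * u / 2) * (1 - ta u ^ 2) ^ 2 ≤ 2 * (1 - ta u ^ 2) := by
        rw [pow_two, ← mul_assoc, q2]
        apply mul_le_mul_of_nonneg_right _ h1t.le
        linarith [ta_sq_lt u]
      have q6 : Real.sinh (3 * u / 2) ^ 2 * (1 - ta u ^ 2) ^ 2 = 4 * ta u ^ 2 := by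
        rw [← mul_pow, q1]; ring
      have q7 : 0 ≤ ta u ^ (2 * m) := by rw [pow_mul]; positivity
      have q8 : ta u ^ 2 * Real.cosh (3 * u / 2)
          ≤ Real.sinh (3 * u / 2) ^ 2 * ((1 - ta u ^ 2) / 2) := by
        have h2t : 0 < (1 - ta u ^ 2) ^ 2 := by positivity
        rw [← mul_le_mul_iff_left₀ h2t]
        calc ta u ^ 2 * Real.cosh (3 * u / 2) * (1 - ta u ^ 2) ^ 2
            = ta u ^ 2 * (Real.cosh (3 * u / 2) * (1 - ta u ^ 2) ^ 2) := by ring
          _ ≤ ta u ^ 2 * (2 * (1 - ta u ^ 2)) := mul_le_mul_of_nonneg_left q5 (_root_.sq_nonneg _)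
          _ = (Real.sinh (3 * u / 2) ^ 2 * (1 - ta u ^ 2) ^ 2) * ((1 - ta u ^ 2) / 2) := by
              rw [q6]; ring
          _ = _ := by ring
      calc |ta u| ^ (2 * m + 3) * Real.cosh (3 * u / 2)
          ≤ (ta u ^ (2 * m) * ta u ^ 2) * Real.cosh (3 * u / 2) :=
            mul_le_mul_of_nonneg_right q4 hC.le
        _ = ta u ^ (2 * m) * (ta u ^ 2 * Real.cosh (3 * u / 2)) := by ring
        _ ≤ ta u ^ (2 * m) * (Real.sinh (3 * u / 2) ^ 2 * ((1 - ta u ^ 2) / 2)) :=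
            mul_le_mul_of_nonneg_left q8 q7
        _ ≤ ta u ^ (2 * m) * ((Real.sinh (3 * u / 2) ^ 2 + c ^ 2) * ((1 - ta u ^ 2) / 2)) := by
            apply mul_le_mul_of_nonneg_left _ q7
            apply mul_le_mul_of_nonneg_right _ (by positivity)
            nlinarith [_root_.sq_nonneg c]
        _ = _ := by ring
    calc 3 / (4 * Real.pi) * (Real.cosh (3 * u / 2) * c)
          / (Real.sinh (3 * u / 2) ^ 2 + c ^ 2) * ‖G u‖
        ≤ 3 / (4 * Real.pi) * (Real.cosh (3 * u / 2) * c)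
          / (Real.sinh (3 * u / 2) ^ 2 + c ^ 2) * (a * |ta u| ^ (2 * m + 3)) :=
          mul_le_mul_of_nonneg_left (hG u) (by positivity)
      _ = 3 / (4 * Real.pi) * a * c * ((|ta u| ^ (2 * m + 3) * Real.cosh (3 * u / 2))
          / (Real.sinh (3 * u / 2) ^ 2 + c ^ 2)) := by ring
      _ ≤ 3 / (4 * Real.pi) * a * c * (ta u ^ (2 * m) * (1 - ta u ^ 2) / 2) := by
          apply mul_le_mul_of_nonneg_left _ (by positivity)
          rw [div_le_iff₀ hden]
          linarith [q3]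
      _ = _ := by ring
  have hwd : ∀ u, HasDerivAt (fun u => 4 / 3 * (ta u ^ (2 * m + 1) / (2 * m + 1)))
      (ta u ^ (2 * m) * (1 - ta u ^ 2)) u := by
    intro u
    have h1 := ta_deriv u
    have a1 := ((h1.pow (2 * m + 1)).div_const (2 * (m : ℝ) + 1)).const_mul (4 / 3)
    refine a1.congr_deriv ?_
    have e1 : 2 * m + 1 - 1 = 2 * m := by omega
    rw [e1]
    push_cast
    have n1 : (2 * (m : ℝ) + 1) ≠ 0 := by positivity
    field_simp
  have hwi : Integrable (fun u => ta u ^ (2 * m) * (1 - ta u ^ 2)) := by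
    refine one_sub_int.mono' ((ta_cont.pow _).mul
      (continuous_const.sub (ta_cont.pow 2))).aestronglyMeasurable (Eventually.of_forall fun u => ?_)
    have h1 := ta_sq_lt u
    have h0 : 0 ≤ ta u ^ 2 := _root_.sq_nonneg _
    have h4 : ta u ^ (2 * m) ≤ 1 := by rw [pow_mul]; exact pow_le_one₀ h0 h1.le
    have h5 : 0 ≤ ta u ^ (2 * m) := by rw [pow_mul]; positivity
    rw [Real.norm_of_nonneg (mul_nonneg h5 (by linarith))]
    nlinarith
  have hwI : ∫ u, ta u ^ (2 * m) * (1 - ta u ^ 2) = ((8 : ℝ) / 3) / (2 * m + 1) := by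
    have htop : Tendsto (fun u => 4 / 3 * (ta u ^ (2 * m + 1) / (2 * (m : ℝ) + 1))) atTop
        (𝓝 (4 / 3 * (1 ^ (2 * m + 1) / (2 * m + 1)))) :=
      ((ta_top.pow _).div_const _).const_mul _
    have hbot : Tendsto (fun u => 4 / 3 * (ta u ^ (2 * m + 1) / (2 * (m : ℝ) + 1))) atBot
        (𝓝 (4 / 3 * ((-1) ^ (2 * m + 1) / (2 * m + 1)))) :=
      ((ta_bot.pow _).div_const _).const_mul _
    rw [integral_of_hasDerivAt_of_tendsto hwd hwi hbot htop]
    have o1 : (-1 : ℝ) ^ (2 * m + 1) = -1 := Odd.neg_one_pow ⟨m, rfl⟩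
    rw [o1, one_pow]
    ring
  have i3 : Integrable (fun u : ℝ => (((3 / (4 * Real.pi) * (Real.cosh (3 * u / 2) * c)
      / (Real.sinh (3 * u / 2) ^ 2 + c ^ 2) : ℝ)) : ℂ) * G u) := by
    refine (hwi.const_mul (3 / (8 * Real.pi) * a * c)).mono' ?_ (Eventually.of_forall fun u => b3 u)
    refine Continuous.aestronglyMeasurable ((Complex.continuous_ofReal.comp ?_).mul hGc)
    refine Continuous.div (by fun_prop) (by fun_prop) fun u => ?_
    positivity
  have key : f ((ph θ : ℂ) * I)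
      - (s : ℂ) * ((3 / (4 * Real.pi) : ℝ) * I * ∫ u : ℝ, G u / ((Real.sinh (3 * u / 2) : ℝ) : ℂ))
      = (∫ u : ℝ, (((3 / (4 * Real.pi) * (Real.cosh (3 * u / 2) * c)
      / (Real.sinh (3 * u / 2) ^ 2 + c ^ 2) : ℝ)) : ℂ) * G u)
        - ((3 / (4 * Real.pi) * s * c ^ 2 : ℝ) : ℂ) * I * ∫ u : ℝ, G u /
      ((Real.sinh (3 * u / 2) * (Real.sinh (3 * u / 2) ^ 2 + c ^ 2) : ℝ) : ℂ) := by
    rw [sub_eq_iff_eq_add]
    have hpt : ∀ u : ℝ, kkc ((ph θ : ℂ) * I - u) * (f (u + Real.pi / 3 * Complex.I)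
        + f (u - Real.pi / 3 * Complex.I))
        = (((3 / (4 * Real.pi) * (Real.cosh (3 * u / 2) * c)
      / (Real.sinh (3 * u / 2) ^ 2 + c ^ 2) : ℝ)) : ℂ) * G u
        - ((3 / (4 * Real.pi) * s * c ^ 2 : ℝ) : ℂ) * I * (G u /
      ((Real.sinh (3 * u / 2) * (Real.sinh (3 * u / 2) ^ 2 + c ^ 2) : ℝ) : ℂ))
        + (s : ℂ) * ((3 / (4 * Real.pi) : ℝ) * I) * (G u / ((Real.sinh (3 * u / 2) : ℝ) : ℂ)) := by
      intro u
      rw [kkc_eq, e1, e2]
      by_cases hS : Real.sinh (3 * u / 2) = 0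
      · rw [hS]; simp; left; rfl
      · have h2 : Real.sinh (3 * u / 2) ^ 2 + c ^ 2 ≠ 0 := by positivity
        have hr : 3 / (4 * Real.pi) * (Real.sinh (3 * u / 2) * s)
              / (Real.sinh (3 * u / 2) ^ 2 + c ^ 2)
            = 3 / (4 * Real.pi) * s * (1 / Real.sinh (3 * u / 2))
              - 3 / (4 * Real.pi) * s * c ^ 2 * (1 / (Real.sinh (3 * u / 2)
                * (Real.sinh (3 * u / 2) ^ 2 + c ^ 2))) := by
          field_simp
          ring
        rw [hr]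
        push_cast
        rw [show f (u + Real.pi / 3 * Complex.I) + f (u - Real.pi / 3 * Complex.I) = G u from rfl]
        ring
    rw [h3]
    simp_rw [hpt]
    have i23 : Integrable (fun u : ℝ => (((3 / (4 * Real.pi) * (Real.cosh (3 * u / 2) * c)
        / (Real.sinh (3 * u / 2) ^ 2 + c ^ 2) : ℝ)) : ℂ) * G u
        - ((3 / (4 * Real.pi) * s * c ^ 2 : ℝ) : ℂ) * I * (G u /
      ((Real.sinh (3 * u / 2) * (Real.sinh (3 * u / 2) ^ 2 + c ^ 2) : ℝ) : ℂ))) :=
      i3.sub (i2.const_mul _)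
    rw [integral_add i23 (i1.const_mul _), integral_sub i3 (i2.const_mul _), integral_const_mul,
      integral_const_mul]
    ring
  rw [key]
  refine (norm_sub_le _ _).trans ?_
  have n3 : ‖∫ u : ℝ, (((3 / (4 * Real.pi) * (Real.cosh (3 * u / 2) * c)
      / (Real.sinh (3 * u / 2) ^ 2 + c ^ 2) : ℝ)) : ℂ) * G u‖
      ≤ 3 / (8 * Real.pi) * a * c * ((8 / 3) / (2 * m + 1)) := by
    refine (norm_integral_le_of_norm_le (hwi.const_mul (3 / (8 * Real.pi) * a * c))
      (Eventually.of_forall fun u => b3 u)).trans ?_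
    rw [integral_const_mul, hwI]
  have n2 : ‖((3 / (4 * Real.pi) * s * c ^ 2 : ℝ) : ℂ) * I * ∫ u : ℝ, G u /
      ((Real.sinh (3 * u / 2) * (Real.sinh (3 * u / 2) ^ 2 + c ^ 2) : ℝ) : ℂ)‖
      ≤ 3 / (4 * Real.pi) * c * (a / 8 * ((64 / 3) / ((2 * m + 1) * (2 * m + 3) * (2 * m + 5)))) := by
    rw [norm_mul, norm_mul, Complex.norm_I, mul_one, Complex.norm_real, Real.norm_eq_abs]
    have q1 : |3 / (4 * Real.pi) * s * c ^ 2| ≤ 3 / (4 * Real.pi) * c := by
      rw [abs_mul, abs_mul, abs_of_pos (by positivity : 0 < 3 / (4 * Real.pi)),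
        abs_of_pos (by positivity : 0 < c ^ 2)]
      have q2 : |s| ≤ 1 := Real.abs_cos_le_one θ
      have q3 : |s| * c ^ 2 ≤ c := by
        have : c ^ 2 ≤ c := by nlinarith
        nlinarith [abs_nonneg s]
      rw [mul_assoc]
      exact mul_le_mul_of_nonneg_left q3 (by positivity)
    have q2 : ‖∫ u : ℝ, G u /
      ((Real.sinh (3 * u / 2) * (Real.sinh (3 * u / 2) ^ 2 + c ^ 2) : ℝ) : ℂ)‖
      ≤ a / 8 * ((64 / 3) / ((2 * m + 1) * (2 * m + 3) * (2 * m + 5))) := by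
      refine (norm_integral_le_of_norm_le ((w3_int m).const_mul (a / 8))
        (Eventually.of_forall fun u => b2 u)).trans ?_
      rw [integral_const_mul, w3_integral]
    exact mul_le_mul q1 q2 (norm_nonneg _) (by positivity)
  refine (add_le_add n3 n2).trans ?_
  have hm : (0 : ℝ) ≤ m := Nat.cast_nonneg m
  have h15 : (15 : ℝ) ≤ (2 * m + 3) * (2 * m + 5) := by nlinarith
  have e5 : 3 / (4 * Real.pi) * c * (a / 8 * ((64 / 3) / ((2 * m + 1) * (2 * m + 3) * (2 * m + 5))))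
      = a * c / (2 * m + 1) * (2 / Real.pi / ((2 * m + 3) * (2 * m + 5))) := by
    field_simp
    ring
  have e6 : 3 / (8 * Real.pi) * a * c * ((8 / 3) / (2 * m + 1))
      = a * c / (2 * m + 1) * (1 / Real.pi) := by
    field_simp
  rw [e5, e6, ← mul_add]
  have q9 : 1 / Real.pi + 2 / Real.pi / ((2 * m + 3) * (2 * m + 5)) ≤ 1 := by
    have w1 : 1 / Real.pi ≤ 1 / 3 := one_div_le_one_div_of_le (by norm_num) hpi3.le
    have w2 : 2 / Real.pi / ((2 * m + 3) * (2 * m + 5)) ≤ 2 / Real.pi / 15 :=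
      div_le_div_of_nonneg_left (by positivity) (by norm_num) h15
    have w3 : 2 / Real.pi / 15 = (2 / 15) * (1 / Real.pi) := by ring
    rw [w3] at w2
    linarith
  have hac : 0 ≤ a * c / (2 * m + 1) := by positivity
  calc a * c / (2 * m + 1) * (1 / Real.pi + 2 / Real.pi / ((2 * m + 3) * (2 * m + 5)))
      ≤ a * c / (2 * m + 1) * 1 := mul_le_mul_of_nonneg_left q9 hac
    _ = _ := mul_one _

/-- the same when the function vanishes at `iπ/3` -/
theorem phys_zero (m : ℕ) {f : ℂ → ℂ} (hf : Nic f) {a : ℝ} (ha : 0 ≤ a)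
    (hG : ∀ u : ℝ, ‖f (u + Real.pi / 3 * I) + f (u - Real.pi / 3 * I)‖ ≤ a * |ta u| ^ (2 * m + 3))
    (h0 : f (Real.pi / 3 * I) = 0) {θ : ℝ} (hθ : θ ∈ Set.Ioo 0 Real.pi) :
    ‖f ((ph θ : ℂ) * I)‖ ≤ a * Real.sin θ / (2 * m + 1) := by
  have hpi := Real.pi_pos
  obtain ⟨J, hJ⟩ := phys_rep m hf ha hG
  have h1 : Tendsto (fun θ : ℝ => f ((ph θ : ℂ) * I) - (Real.cos θ : ℂ) * J) (𝓝[>] 0) (𝓝 (-J)) := by
    have hc : ContinuousAt (fun θ : ℝ => f ((ph θ : ℂ) * I) - (Real.cos θ : ℂ) * J) 0 := by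
      refine ContinuousAt.sub ?_ (by fun_prop)
      refine ContinuousAt.comp (f := fun θ : ℝ => ((ph θ : ℝ) : ℂ) * I) (hf.1 _ ?_).continuousAt ?_
      · have : ((ph 0 : ℝ) : ℂ) * I = ((Real.pi / 3 : ℝ) : ℂ) * I := by unfold ph; simp
        simp only [this]
        simp only [Complex.mul_im, Complex.ofReal_re, Complex.I_im, mul_one, Complex.ofReal_im,
          Complex.I_re, mul_zero, add_zero]
        rw [abs_of_pos (by positivity)]
        linarith
      · unfold ph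
        fun_prop
    have h2 := hc.tendsto
    have h3 : f ((ph 0 : ℂ) * I) - (Real.cos 0 : ℂ) * J = -J := by
      have : ((ph 0 : ℝ) : ℂ) * I = (Real.pi : ℂ) / 3 * I := by unfold ph; push_cast; ring
      rw [this, h0, Real.cos_zero]
      simp
    rw [h3] at h2
    exact h2.mono_left nhdsWithin_le_nhds
  have h2 : Tendsto (fun θ : ℝ => a * Real.sin θ / (2 * m + 1)) (𝓝[>] 0) (𝓝 0) := by
    have hc : ContinuousAt (fun θ : ℝ => a * Real.sin θ / (2 * m + 1)) 0 := by fun_prop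
    have := hc.tendsto
    rw [Real.sin_zero, mul_zero, zero_div] at this
    exact this.mono_left nhdsWithin_le_nhds
  have h3 : ‖-J‖ ≤ 0 := by
    refine le_of_tendsto_of_tendsto h1.norm h2 ?_
    filter_upwards [Ioo_mem_nhdsGT hpi] with θ hθ
    exact hJ θ hθ
  have hJ0 : J = 0 := by
    rw [norm_neg] at h3
    exact norm_le_zero_iff.1 h3
  have := hJ θ hθ
  rwa [hJ0, mul_zero, sub_zero] at this

end H729I
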