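import Pool.Agent.Run7.h729.Iso.Mom

/-!
# Layered percolation on cylinders of odd circumference: the reflection
-/

set_option autoImplicit false

namespace H729I
open H906K Pool.Agent.H974R3 Polynomial Complex

theorem jx_val (m : ℕ) (j : ℤ) : (((jx m j) : ℕ) : ℤ) = j % ((m : ℤ) + 1) := by
  unfold jx
  have h1 := Int.emod_nonneg j (show ((m : ℤ) + 1) ≠ 0 by omega)
  simp only
  omega

theorem jx_congr (m : ℕ) {a b : ℤ} (h : a % ((m : ℤ) + 1) = b % ((m : ℤ) + 1)) : jx m a = jx m b := by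
  apply Fin.ext
  have h1 := jx_val m a
  have h2 := jx_val m b
  omega

theorem jx_sub (m : ℕ) (a j : ℤ) : jx m (a - ((jx m j : ℕ) : ℤ)) = jx m (a - j) := by
  apply jx_congr
  rw [jx_val]
  rw [Int.sub_emod, Int.emod_emod, ← Int.sub_emod]

/-- the reflection of the sites about the defect -/
def rho (n : ℕ) (j : Fin (2 * n + 1)) : Fin (2 * n + 1) := jx (2 * n) (4 * n - ((j : ℕ) : ℤ))

theorem rho_rho (n : ℕ) (j : Fin (2 * n + 1)) : rho n (rho n j) = j := by
  unfold rho
  rw [jx_sub]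
  apply Fin.ext
  have h := jx_val (2 * n) (4 * (n : ℤ) - (4 * (n : ℤ) - ((j : ℕ) : ℤ)))
  have h2 : 4 * (n : ℤ) - (4 * (n : ℤ) - ((j : ℕ) : ℤ)) = ((j : ℕ) : ℤ) := by ring
  have h3 : ((j : ℕ) : ℤ) % (((2 * n : ℕ) : ℤ) + 1) = ((j : ℕ) : ℤ) := by
    apply Int.emod_eq_of_lt
    · positivity
    · have := j.2; push_cast; omega
  rw [h2] at h ⊢
  rw [h3] at h
  exact_mod_cast h

/-- the reflected configuration -/
def refl {n M : ℕ} (c : Conf n M) : Conf n M := fun t j => !(c t (rho n j))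

theorem refl_refl {n M : ℕ} (c : Conf n M) : refl (refl c) = c := by
  funext t j
  unfold refl
  rw [rho_rho, Bool.not_not]

/-- the reflection of the edges -/
def RE (n : ℕ) : Edg → Edg
  | Edg.v j t => Edg.v (4 * n - j) t
  | Edg.h j t => Edg.h (4 * n + 1 - j) t

theorem refl_jx {n M : ℕ} (c : Conf n M) (t : Fin M) (j : ℤ) :
    refl c t (jx (2 * n) (4 * n - j)) = !(c t (jx (2 * n) j)) := by
  unfold refl rho
  rw [jx_sub]
  congr 3
  ring

theorem link_refl {n M : ℕ} (c : Conf n M) {a b : Edg} (h : Link n M c a b) :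
    Relation.EqvGen (Link n M (refl c)) (RE n a) (RE n b) := by
  cases h with
  | br j t h =>
    have e : (4 * (n : ℤ) + 1 - (j + 1)) = 4 * n - j := by ring
    simp only [RE, e]
    exact Relation.EqvGen.rel _ _ (Link.bl (4 * n - j) t (by rw [refl_jx, h]; rfl))
  | lt j t h =>
    have e : (4 * (n : ℤ) + 1 - j) = (4 * n - j) + 1 := by ring
    simp only [RE, e]
    exact Relation.EqvGen.rel _ _ (Link.rt (4 * n - j) t (by rw [refl_jx, h]; rfl))
  | bl j t h =>
    have e : (4 * (n : ℤ) + 1 - j) = (4 * n - j) + 1 := by ring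
    simp only [RE, e]
    exact Relation.EqvGen.rel _ _ (Link.br (4 * n - j) t (by rw [refl_jx, h]; rfl))
  | rt j t h =>
    have e : (4 * (n : ℤ) + 1 - (j + 1)) = 4 * n - j := by ring
    simp only [RE, e]
    exact Relation.EqvGen.rel _ _ (Link.lt (4 * n - j) t (by rw [refl_jx, h]; rfl))
  | bot k i hi =>
    have h1 := Link.bot (n := n) (M := M) (c := refl c) (1 - k) (n - 1 - i) (by omega)
    have e1 : (1 - k) * (2 * (n : ℤ) + 1) + 2 * ((n - 1 - i : ℕ) : ℤ)
        = 4 * n - (k * (2 * n + 1) + 2 * i + 1) := by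
      have : ((n - 1 - i : ℕ) : ℤ) = n - 1 - i := by omega
      rw [this]
      ring
    have e2 : (1 - k) * (2 * (n : ℤ) + 1) + 2 * ((n - 1 - i : ℕ) : ℤ) + 1
        = 4 * n - (k * (2 * n + 1) + 2 * i) := by
      rw [e1]
      ring
    rw [e2, e1] at h1
    exact Relation.EqvGen.symm _ _ (Relation.EqvGen.rel _ _ h1)

theorem eqv_refl {n M : ℕ} (c : Conf n M) {a b : Edg} (h : Relation.EqvGen (Link n M c) a b) :
    Relation.EqvGen (Link n M (refl c)) (RE n a) (RE n b) := by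
  induction h with
  | rel _ _ h => exact link_refl c h
  | refl _ => exact Relation.EqvGen.refl _
  | symm _ _ _ ih => exact Relation.EqvGen.symm _ _ ih
  | trans _ _ _ _ _ ih1 ih2 => exact Relation.EqvGen.trans _ _ _ ih1 ih2

theorem dis_refl {n M : ℕ} (c : Conf n M) : dis (refl c) = -dis c := by
  have h1 : End n M c (run (2 * n) M c (start n)).2 := (end_run n M c _).2 rfl
  have h2 := eqv_refl c h1
  have h3 : End n M (refl c) (-(run (2 * n) M c (start n)).2) := by
    unfold End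
    simp only [RE] at h2
    have e1 : (4 * (n : ℤ) - 2 * n) = 2 * n := by ring
    have e2 : (4 * (n : ℤ) - (2 * n + (run (2 * n) M c (start n)).2))
        = 2 * n + -(run (2 * n) M c (start n)).2 := by ring
    rw [e1, e2] at h2
    exact h2
  have h4 := (end_run n M (refl c) _).1 h3
  unfold dis
  rw [← h4]
  push_cast
  rfl

theorem prob_refl {θ : ℝ} (h : θ ∈ Set.Icc 0 Real.pi) : prob (Real.pi - θ) = 1 - prob θ := by
  have h3 : Real.sin (θ / 3) + Real.sin ((Real.pi - θ) / 3) ≠ 0 := by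
    rw [prob_den]; exact (ph_cos h).ne'
  unfold prob
  have e : (Real.pi - (Real.pi - θ)) / 3 = θ / 3 := by ring
  rw [e, add_comm (Real.sin ((Real.pi - θ) / 3))]
  field_simp
  ring

theorem rw1_refl (n : ℕ) {θ : ℝ} (h : θ ∈ Set.Icc 0 Real.pi) (b : Fin (2 * n + 1) → Bool) :
    rw1 n (prob (Real.pi - θ)) (fun j => !(b (rho n j))) = rw1 n (prob θ) b := by
  unfold rw1
  rw [prob_refl h]
  have e : ∀ j, (if (!(b (rho n j))) = true then 1 - prob θ else 1 - (1 - prob θ))
      = if b (rho n j) = true then prob θ else 1 - prob θ := by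
    intro j
    cases b (rho n j) <;> simp
  simp only [e]
  exact Equiv.prod_comp (Function.Involutive.toPerm (rho n) (rho_rho n))
    (fun j => if b j = true then prob θ else 1 - prob θ)

theorem EE_refl {n : ℕ} {θ : ℝ} (h : θ ∈ Set.Icc 0 Real.pi) (M : ℕ) (F : Conf n M → ℝ) :
    EE (fun _ _ => Real.pi - θ) M F = EE (fun _ _ => θ) M (fun c => F (refl c)) := by
  unfold EE
  rw [← Equiv.sum_comp (Function.Involutive.toPerm (refl (n := n) (M := M)) refl_refl)]
  refine Finset.sum_congr rfl fun c _ => ?_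
  change wgt (fun _ _ => Real.pi - θ) M (refl c) • F (refl c) = _
  congr 1
  unfold wgt
  refine Finset.prod_congr rfl fun t _ => ?_
  exact rw1_refl n h (c t)

theorem Sm_const {n : ℕ} (a : ℝ) (M : ℕ) (c : Conf n M) : Sm (fun _ _ => a) M c = M * a := by
  unfold Sm
  simp

theorem lin_zero {a A : ℝ} (h : ∀ M : ℕ, 1 ≤ M → M * |a| ≤ A * √M) : a = 0 := by
  by_contra ha
  have hpos : 0 < |a| := abs_pos.2 ha
  obtain ⟨k, hk⟩ := exists_nat_gt ((A / |a|) ^ 2 + 1)
  have hk1 : 1 ≤ k := by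
    have : (1 : ℝ) ≤ k := by nlinarith [sq_nonneg (A / |a|)]
    exact_mod_cast this
  have h1 := h k hk1
  have hk0 : (0 : ℝ) < k := by exact_mod_cast hk1
  have h2 : (k : ℝ) = √k * √k := (Real.mul_self_sqrt hk0.le).symm
  have h3 : 0 < √(k : ℝ) := Real.sqrt_pos.2 hk0
  have h4 : √(k : ℝ) * |a| ≤ A := by
    have : √(k : ℝ) * (√(k : ℝ) * |a|) ≤ √(k : ℝ) * A := by
      rw [← mul_assoc, ← h2]; linarith
    exact le_of_mul_le_mul_left this h3
  have h5 : √(k : ℝ) ≤ A / |a| := by rw [le_div_iff₀ hpos]; exact h4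
  have h6 : (k : ℝ) ≤ (A / |a|) ^ 2 := by
    rw [h2, ← sq]
    exact pow_le_pow_left₀ h3.le h5 2
  linarith

variable {n : ℕ} {f g : Pat (2 * n + 1) → ℝ} {v D : ℝ → ℝ}

theorem refl_mem {θ : ℝ} (h : θ ∈ Set.Icc 0 Real.pi) : Real.pi - θ ∈ Set.Icc 0 Real.pi :=
  ⟨by linarith [h.2], by linarith [h.1]⟩

theorem v_refl (h : Crr n f g v D) {θ : ℝ} (hθ : θ ∈ Set.Icc 0 Real.pi) :
    v (Real.pi - θ) = -v θ := by
  have key : ∀ M : ℕ, 1 ≤ M → M * |v (Real.pi - θ) + v θ| ≤ (4 * bd f) * √M := by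
    intro M hM
    have h1 := mean_le h (θ := fun _ _ => θ) (fun _ _ => hθ) M
    have h2 := mean_le h (θ := fun _ _ => Real.pi - θ) (fun _ _ => refl_mem hθ) M
    simp only [Sm_const] at h1 h2
    rw [EE_sub, EE_const] at h1 h2
    rw [EE_refl hθ] at h2
    have e : EE (fun _ _ => θ) M (fun c : Conf n M => dis (refl c))
        = -EE (fun _ _ => θ) M (fun c : Conf n M => dis c) := by
      simp only [dis_refl]
      have := EE_mul (n := n) (M := M) (fun _ _ => θ) (-1) (fun c => dis c)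
      simpa using this
    rw [e] at h2
    have h3 : (M : ℝ) * |v (Real.pi - θ) + v θ| = |M * v (Real.pi - θ) + M * v θ| := by
      rw [← mul_add, abs_mul, abs_of_nonneg (Nat.cast_nonneg M : (0 : ℝ) ≤ M)]
    rw [h3]
    have h4 := abs_le.1 h1
    have h5 := abs_le.1 h2
    have hs : (1 : ℝ) ≤ √M := by
      rw [Real.one_le_sqrt]
      exact_mod_cast hM
    have hb := bd_nonneg f
    have h6 : |(M : ℝ) * v (Real.pi - θ) + M * v θ| ≤ 4 * bd f := by
      rw [abs_le]
      constructor <;> linarith [h4.1, h4.2, h5.1, h5.2]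
    calc _ ≤ 4 * bd f := h6
      _ = 4 * bd f * 1 := by ring
      _ ≤ _ := mul_le_mul_of_nonneg_left hs (by positivity)
  have := lin_zero key
  linarith

theorem D_refl (h : Crr n f g v D) {θ : ℝ} (hθ : θ ∈ Set.Icc 0 Real.pi) :
    D (Real.pi - θ) = D θ := by
  have hD1 := D_nonneg h hθ
  have hD2 := D_nonneg h (refl_mem hθ)
  have hf := bd_nonneg f
  have hg := bd_nonneg g
  set A := 4 * bd f * √(D θ + 2 * bd g) + 4 * bd f * √(D (Real.pi - θ) + 2 * bd g)
    + 2 * (4 * bd f ^ 2 + 2 * bd g) with hA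
  have key : ∀ M : ℕ, 1 ≤ M → M * |D (Real.pi - θ) - D θ| ≤ A * √M := by
    intro M hM
    have h1 := var_le h (θ := fun _ _ => θ) (fun _ _ => hθ) M
    have h2 := var_le h (θ := fun _ _ => Real.pi - θ) (fun _ _ => refl_mem hθ) M
    have e0 : ∀ a : ℝ, Sm (n := n) (fun _ _ => a) M = fun _ => M * a := fun a =>
      funext fun c => Sm_const a M c
    simp only [e0] at h1 h2
    rw [EE_const] at h1 h2
    rw [EE_refl hθ] at h2
    have e : (fun c : Conf n M => (dis (refl c) - M * v (Real.pi - θ)) ^ 2)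
        = fun c => (dis c - M * v θ) ^ 2 := by
      funext c
      rw [dis_refl, v_refl h hθ]
      ring
    rw [e] at h2
    have hs : (1 : ℝ) ≤ √M := by
      rw [Real.one_le_sqrt]
      exact_mod_cast hM
    have hM' : (1 : ℝ) ≤ M := by exact_mod_cast hM
    have hsq : ∀ d : ℝ, 0 ≤ d → √(M * d + 2 * bd g) ≤ √(d + 2 * bd g) * √M := by
      intro d hd
      rw [← Real.sqrt_mul (by positivity)]
      apply Real.sqrt_le_sqrt
      nlinarith
    have h3 := hsq _ hD1
    have h4 := hsq _ hD2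
    set E2 := EE (fun _ _ => θ) M (fun c : Conf n M => (dis c - M * v θ) ^ 2) with hE2
    have h5 : (M : ℝ) * |D (Real.pi - θ) - D θ| = |M * D (Real.pi - θ) - M * D θ| := by
      rw [← mul_sub, abs_mul, abs_of_nonneg (Nat.cast_nonneg M : (0 : ℝ) ≤ M)]
    rw [h5]
    have h6 : |(M : ℝ) * D (Real.pi - θ) - M * D θ| ≤ |E2 - M * D θ| + |E2 - M * D (Real.pi - θ)| := by
      have : (M : ℝ) * D (Real.pi - θ) - M * D θ = (E2 - M * D θ) - (E2 - M * D (Real.pi - θ)) := by
        ring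
      rw [this]
      exact abs_sub _ _
    refine h6.trans ?_
    have h7 : 4 * bd f * √(M * D θ + 2 * bd g) ≤ 4 * bd f * (√(D θ + 2 * bd g) * √M) :=
      mul_le_mul_of_nonneg_left h3 (by positivity)
    have h8 : 4 * bd f * √(M * D (Real.pi - θ) + 2 * bd g)
        ≤ 4 * bd f * (√(D (Real.pi - θ) + 2 * bd g) * √M) :=
      mul_le_mul_of_nonneg_left h4 (by positivity)
    have h9 : (4 * bd f ^ 2 + 2 * bd g) * 1 ≤ (4 * bd f ^ 2 + 2 * bd g) * √M :=
      mul_le_mul_of_nonneg_left hs (by positivity)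
    rw [hA]
    nlinarith [h1, h2, h7, h8, h9]
  have := lin_zero key
  linarith

end H729I
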