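import Pool.Agent.Run7.h729.Iso.Step

/-!
# Constants of the rows
-/

set_option autoImplicit false

namespace H729I
open H906K Pool.Agent.H974R3 Set

/-- the increment of the compensated displacement in one row -/
noncomputable def inc {n : ℕ} (f : Pat (2 * n + 1) → ℝ) (v : ℝ → ℝ) (θ : ℝ) (σ : Pat (2 * n + 1))
    (b : Fin (2 * n + 1) → Bool) : ℝ :=
  (dTc (2 * n) b σ : ℝ) + f (Tc (2 * n) b σ) - f σ - v θ

/-- bounds for the rows -/
structure Bnd (n : ℕ) (f g : Pat (2 * n + 1) → ℝ) (v D : ℝ → ℝ) (R : ℝ) : Prop where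
  one : 1 ≤ R
  bf : ∀ σ, |f σ| ≤ R
  bg : ∀ σ, |g σ| ≤ R
  bu : ∀ θ ∈ Icc 0 Real.pi, ∀ σ b, |inc f v θ σ b| ≤ R
  bD : ∀ θ ∈ Icc 0 Real.pi, D θ ≤ R * Real.sin θ
  bm : ∀ θ ∈ Icc 0 Real.pi, ∀ σ, ∑ b : Fin (2 * n + 1) → Bool,
    rw1 n (prob θ) b * |inc f v θ σ b| ≤ R * Real.sin θ

theorem prob_le {θ : ℝ} (h0 : 0 ≤ θ) (h1 : θ ≤ Real.pi / 2) : prob θ ≤ 2 * Real.sin θ := by
  have hpi := Real.pi_pos
  have hmem : θ ∈ Icc 0 Real.pi := ⟨h0, by linarith⟩
  have h2 := ph_mem hmem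
  have h3 : 1 / 2 ≤ Real.cos (ph θ / 2) := by
    rw [← Real.cos_pi_div_three, ← Real.cos_abs (ph θ / 2)]
    apply Real.cos_le_cos_of_nonneg_of_le_pi (abs_nonneg _) (by linarith)
    rw [abs_le]
    constructor <;> linarith [h2.1, h2.2]
  have h4 : Real.sin (θ / 3) ≤ Real.sin θ :=
    Real.sin_le_sin_of_le_of_le_pi_div_two (by linarith) h1 (by linarith)
  have h5 : 0 ≤ Real.sin θ := Real.sin_nonneg_of_nonneg_of_le_pi h0 (by linarith)
  unfold prob
  rw [prob_den, div_le_iff₀ (by linarith)]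
  nlinarith

theorem one_sub_cos_le {θ : ℝ} (h0 : 0 ≤ θ) (h1 : θ ≤ Real.pi / 2) :
    |1 - Real.cos θ| ≤ Real.sin θ := by
  have hpi := Real.pi_pos
  have h2 := Real.cos_le_one θ
  have h3 : 0 ≤ Real.cos θ := Real.cos_nonneg_of_mem_Icc ⟨by linarith, h1⟩
  have h5 : 0 ≤ Real.sin θ := Real.sin_nonneg_of_nonneg_of_le_pi h0 (by linarith)
  rw [abs_of_nonneg (by linarith)]
  have h6 := Real.sin_sq_add_cos_sq θ
  nlinarith

theorem pow_one_sub (n : ℕ) {p : ℝ} (hp : 0 ≤ p ∧ p ≤ 1) :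
    1 - (1 - p) ^ (2 * n + 1) ≤ (2 * n + 1) * p := by
  have h := one_add_mul_le_pow (a := -p) (by linarith [hp.2]) (2 * n + 1)
  have e : (1 : ℝ) + -p = 1 - p := by ring
  rw [e] at h
  push_cast at h
  linarith

theorem sum_le_one {n : ℕ} {p : ℝ} (hp : 0 ≤ p ∧ p ≤ 1) (u : (Fin (2 * n + 1) → Bool) → ℝ)
    (R1 : ℝ) (hR1 : 0 ≤ R1) (hu : ∀ b, |u b| ≤ R1) (b0 : Fin (2 * n + 1) → Bool) :
    ∑ b, rw1 n p b * |u b| ≤ |u b0| + R1 * (1 - rw1 n p b0) := by
  have h1 := rw1_sum n p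
  have h2 : ∑ b, rw1 n p b * |u b| ≤ ∑ b, (rw1 n p b * R1 + if b = b0 then rw1 n p b0 * (|u b0| - R1)
      else 0) := by
    refine Finset.sum_le_sum fun b _ => ?_
    by_cases hb : b = b0
    · rw [if_pos hb, hb]
      linarith
    · rw [if_neg hb, add_zero]
      exact mul_le_mul_of_nonneg_left (hu b) (rw1_nonneg n hp b)
  rw [Finset.sum_add_distrib, ← Finset.sum_mul, h1, Finset.sum_ite_eq' Finset.univ b0,
    if_pos (Finset.mem_univ _)] at h2
  have h3 : rw1 n p b0 ≤ 1 := by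
    rw [← h1]
    exact Finset.single_le_sum (fun b _ => rw1_nonneg n hp b) (Finset.mem_univ b0)
  have h4 := rw1_nonneg n hp b0
  have h5 := abs_nonneg (u b0)
  nlinarith

theorem bnd_exists {n : ℕ} {f g : Pat (2 * n + 1) → ℝ} {v D : ℝ → ℝ} (h : Crr n f g v D) (K : ℝ)
    (hv : ∀ θ ∈ Icc 0 Real.pi, |v θ - Real.cos θ| ≤ K * Real.sin θ)
    (hD : ∀ θ ∈ Icc 0 Real.pi, D θ ≤ K * Real.sin θ) : ∃ R, Bnd n f g v D R := by
  have hpi := Real.pi_pos
  have hdg := dg h
  have hf := bd_nonneg f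
  have hg := bd_nonneg g
  obtain ⟨d, hd0, hd⟩ : ∃ d : ℝ, 0 ≤ d ∧ ∀ σ b, |(dTc (2 * n) b σ : ℝ)| ≤ d := by
    refine ⟨∑ σ : Pat (2 * n + 1), ∑ b : Fin (2 * n + 1) → Bool, |(dTc (2 * n) b σ : ℝ)|,
      Finset.sum_nonneg fun _ _ => Finset.sum_nonneg fun _ _ => abs_nonneg _, fun σ b => ?_⟩
    refine le_trans ?_ (Finset.single_le_sum (f := fun σ => ∑ b : Fin (2 * n + 1) → Bool,
      |(dTc (2 * n) b σ : ℝ)|) (fun _ _ => Finset.sum_nonneg fun _ _ => abs_nonneg _)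
      (Finset.mem_univ σ))
    exact Finset.single_le_sum (f := fun b => |(dTc (2 * n) b σ : ℝ)|)
      (fun _ _ => abs_nonneg _) (Finset.mem_univ b)
  have hK : 0 ≤ K := by
    have := hv (Real.pi / 2) ⟨by positivity, by linarith⟩
    rw [Real.sin_pi_div_two, mul_one] at this
    exact (abs_nonneg _).trans this
  have hvb : ∀ θ ∈ Icc 0 Real.pi, |v θ| ≤ 1 + K := by
    intro θ hθ
    have h1 := hv θ hθ
    have h2 := Real.abs_cos_le_one θ
    have h3 := Real.sin_le_one θ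
    have h4 : K * Real.sin θ ≤ K * 1 := mul_le_mul_of_nonneg_left h3 hK
    have e : v θ = (v θ - Real.cos θ) + Real.cos θ := by ring
    rw [e]
    refine (abs_add_le _ _).trans ?_
    linarith
  set R1 : ℝ := d + 2 * bd f + 1 + K with hR1
  have hR1n : 0 ≤ R1 := by positivity
  have hub : ∀ θ ∈ Icc 0 Real.pi, ∀ σ b, |inc f v θ σ b| ≤ R1 := by
    intro θ hθ σ b
    unfold inc
    have a1 := hd σ b
    have a2 := bd_le f σ
    have a3 := bd_le f (Tc (2 * n) b σ)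
    have a4 := hvb θ hθ
    have e : (dTc (2 * n) b σ : ℝ) + f (Tc (2 * n) b σ) - f σ - v θ
        = ((dTc (2 * n) b σ : ℝ) + f (Tc (2 * n) b σ)) - (f σ + v θ) := by ring
    rw [e]
    calc _ ≤ |(dTc (2 * n) b σ : ℝ) + f (Tc (2 * n) b σ)| + |f σ + v θ| := abs_sub _ _
      _ ≤ (|(dTc (2 * n) b σ : ℝ)| + |f (Tc (2 * n) b σ)|) + (|f σ| + |v θ|) :=
        add_le_add (abs_add_le _ _) (abs_add_le _ _)
      _ ≤ _ := by linarith
  -- the mean of the absolute value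
  have hm : ∀ θ ∈ Icc 0 Real.pi, ∀ σ, ∑ b : Fin (2 * n + 1) → Bool,
      rw1 n (prob θ) b * |inc f v θ σ b| ≤ (1 + K + R1 * ((2 * n + 1) * 2)) * Real.sin θ := by
    intro θ hθ σ
    have hp := prob_mem hθ
    have hs : 0 ≤ Real.sin θ := Real.sin_nonneg_of_nonneg_of_le_pi hθ.1 hθ.2
    rcases le_total θ (Real.pi / 2) with hle | hle
    · have h1 := sum_le_one hp (inc f v θ σ) R1 hR1n (hub θ hθ σ) (fun _ => false)
      have h2 : |inc f v θ σ (fun _ => false)| ≤ (1 + K) * Real.sin θ := by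
        unfold inc
        rw [dTc_false, hdg.f0]
        push_cast
        have e : (1 : ℝ) + f σ - f σ - v θ = (1 - Real.cos θ) - (v θ - Real.cos θ) := by ring
        rw [e]
        refine (abs_sub _ _).trans ?_
        have := one_sub_cos_le hθ.1 hle
        have := hv θ hθ
        linarith
      have h3 : 1 - rw1 n (prob θ) (fun _ => false) ≤ (2 * n + 1) * (2 * Real.sin θ) := by
        have e : rw1 n (prob θ) (fun _ => false) = (1 - prob θ) ^ (2 * n + 1) := by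
          unfold rw1; simp
        rw [e]
        refine (pow_one_sub n hp).trans ?_
        exact mul_le_mul_of_nonneg_left (prob_le hθ.1 hle) (by positivity)
      have h4 := mul_le_mul_of_nonneg_left h3 hR1n
      linarith
    · have h1 := sum_le_one hp (inc f v θ σ) R1 hR1n (hub θ hθ σ) (fun _ => true)
      have hc := one_sub_cos_le (θ := Real.pi - θ) (by linarith [hθ.2]) (by linarith)
      rw [Real.cos_pi_sub, Real.sin_pi_sub] at hc
      have h2 : |inc f v θ σ (fun _ => true)| ≤ (1 + K) * Real.sin θ := by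
        unfold inc
        rw [dTc_true, hdg.f1]
        push_cast
        have e : (-1 : ℝ) + f σ - f σ - v θ = -(1 - -Real.cos θ) - (v θ - Real.cos θ) := by ring
        rw [e]
        refine (abs_sub _ _).trans ?_
        rw [abs_neg]
        have := hv θ hθ
        linarith
      have hp2 := prob_le (θ := Real.pi - θ) (by linarith [hθ.2]) (by linarith)
      rw [prob_refl hθ, Real.sin_pi_sub] at hp2
      have h3 : 1 - rw1 n (prob θ) (fun _ => true) ≤ (2 * n + 1) * (2 * Real.sin θ) := by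
        have e : rw1 n (prob θ) (fun _ => true) = (1 - (1 - prob θ)) ^ (2 * n + 1) := by
          unfold rw1; simp
        rw [e]
        refine (pow_one_sub n ⟨by linarith [hp.2], by linarith [hp.1]⟩).trans ?_
        exact mul_le_mul_of_nonneg_left hp2 (by positivity)
      have h4 := mul_le_mul_of_nonneg_left h3 hR1n
      linarith
  refine ⟨1 + bd f + bd g + K + R1 + (1 + K + R1 * ((2 * n + 1) * 2)), ?_, ?_, ?_, ?_, ?_, ?_⟩
  · have : 0 ≤ R1 * ((2 * (n : ℝ) + 1) * 2) := by positivity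
    linarith
  · intro σ
    have := bd_le f σ
    have : 0 ≤ R1 * ((2 * (n : ℝ) + 1) * 2) := by positivity
    linarith
  · intro σ
    have := bd_le g σ
    have : 0 ≤ R1 * ((2 * (n : ℝ) + 1) * 2) := by positivity
    linarith
  · intro θ hθ σ b
    have := hub θ hθ σ b
    have : 0 ≤ R1 * ((2 * (n : ℝ) + 1) * 2) := by positivity
    linarith
  · intro θ hθ
    have hs : 0 ≤ Real.sin θ := Real.sin_nonneg_of_nonneg_of_le_pi hθ.1 hθ.2
    refine (hD θ hθ).trans (mul_le_mul_of_nonneg_right ?_ hs)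
    have : 0 ≤ R1 * ((2 * (n : ℝ) + 1) * 2) := by positivity
    linarith
  · intro θ hθ σ
    have hs : 0 ≤ Real.sin θ := Real.sin_nonneg_of_nonneg_of_le_pi hθ.1 hθ.2
    refine (hm θ hθ σ).trans (mul_le_mul_of_nonneg_right ?_ hs)
    linarith

end H729I
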