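import Pool.Agent.Run7.h729.Iso.Asy2

/-!
# One row: the exponential functional with correctors
-/

set_option autoImplicit false

namespace H729I
open Complex

theorem exp_three (x : ℂ) (hx : ‖x‖ ≤ 1) : ‖cexp x - (1 + x + x ^ 2 / 2)‖ ≤ 2 / 9 * ‖x‖ ^ 3 := by
  have h := Complex.exp_bound hx (n := 3) (by norm_num)
  have e : ∑ m ∈ Finset.range 3, x ^ m / (m.factorial : ℂ) = 1 + x + x ^ 2 / 2 := by
    simp [Finset.sum_range_succ, Nat.factorial]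
  rw [e] at h
  refine h.trans (le_of_eq ?_)
  norm_num [Nat.factorial]
  ring

theorem exp_two (x : ℂ) (hx : ‖x‖ ≤ 1) : ‖cexp x - (1 + x)‖ ≤ 3 / 4 * ‖x‖ ^ 2 := by
  have h := Complex.exp_bound hx (n := 2) (by norm_num)
  have e : ∑ m ∈ Finset.range 2, x ^ m / (m.factorial : ℂ) = 1 + x := by
    simp [Finset.sum_range_succ, Nat.factorial]
  rw [e] at h
  refine h.trans (le_of_eq ?_)
  norm_num [Nat.factorial]
  ring

theorem step_z {ι : Type*} [Fintype ι] (w u g : ι → ℝ) (z : ℂ) (g0 D s R : ℝ)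
    (hw : ∀ i, 0 ≤ w i) (h1 : ∑ i, w i = 1) (hm : ∑ i, w i * u i = 0)
    (h2 : ∑ i, w i * (u i ^ 2 + g i) = g0 + D) (hs : ∑ i, w i * |u i| ≤ s) (hR : 1 ≤ R)
    (hu : ∀ i, |u i| ≤ R) (hg : ∀ i, |g i| ≤ R) (hg0 : |g0| ≤ R) (hD : 0 ≤ D) (hDR : D ≤ R)
    (hz : ‖z‖ * R ≤ 1) :
    ‖∑ i, (w i : ℂ) * (cexp (z * u i - z ^ 2 * D / 2) * (1 + z ^ 2 * g i / 2))
      - (1 + z ^ 2 * g0 / 2)‖ ≤ ‖z‖ ^ 3 * (D + 5 * R ^ 2 * s) := by
  have hz0 : 0 ≤ ‖z‖ := norm_nonneg z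
  have hR0 : 0 < R := by linarith
  have hz1 : ‖z‖ ≤ 1 := by nlinarith
  have hz2 : ‖z‖ ^ 2 * R ≤ ‖z‖ := by nlinarith
  have nz2 : ‖z ^ 2‖ = ‖z‖ ^ 2 := norm_pow z 2
  have n2 : ‖(2 : ℂ)‖ = 2 := by simp
  have n4 : ‖(4 : ℂ)‖ = 4 := by simp
  set y : ℂ := z ^ 2 * D / 2 with hy
  have ny : ‖y‖ = ‖z‖ ^ 2 * D / 2 := by
    rw [hy, norm_div, norm_mul, nz2, n2, Complex.norm_real, Real.norm_of_nonneg hD]
  have ny1 : ‖y‖ ≤ 1 / 2 := by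
    rw [ny]
    have : ‖z‖ ^ 2 * D ≤ ‖z‖ ^ 2 * R := mul_le_mul_of_nonneg_left hDR (by positivity)
    linarith
  -- the remainder of one term
  set ρ : ι → ℂ := fun i => cexp (z * u i) - (1 + z * u i + (z * u i) ^ 2 / 2) with hρ
  have nρ : ∀ i, ‖ρ i‖ ≤ 2 / 9 * (‖z‖ * |u i|) ^ 3 := by
    intro i
    have h3 : ‖z * (u i : ℂ)‖ = ‖z‖ * |u i| := by
      rw [norm_mul, Complex.norm_real, Real.norm_eq_abs]
    have h4 := exp_three (z * (u i : ℂ)) (by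
      rw [h3]
      exact (mul_le_mul_of_nonneg_left (hu i) hz0).trans hz)
    rw [h3] at h4
    exact h4
  set T : ι → ℂ := fun i => ρ i * (1 + z ^ 2 * g i / 2) + z ^ 3 * u i * g i / 2
    + z ^ 4 * u i ^ 2 * g i / 4 with hT
  have nT : ∀ i, ‖T i‖ ≤ 2 * R ^ 2 * ‖z‖ ^ 3 * |u i| := by
    intro i
    have a0 := abs_nonneg (u i)
    have a1 : ‖1 + z ^ 2 * (g i : ℂ) / 2‖ ≤ 3 / 2 := by
      have : ‖z ^ 2 * (g i : ℂ) / 2‖ ≤ 1 / 2 := by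
        rw [norm_div, norm_mul, nz2, n2, Complex.norm_real, Real.norm_eq_abs]
        have := mul_le_mul_of_nonneg_left (hg i) (by positivity : 0 ≤ ‖z‖ ^ 2)
        linarith
      calc _ ≤ ‖(1 : ℂ)‖ + ‖z ^ 2 * (g i : ℂ) / 2‖ := norm_add_le _ _
        _ ≤ 1 + 1 / 2 := by rw [norm_one]; linarith
        _ = _ := by norm_num
    have a2 : ‖ρ i * (1 + z ^ 2 * (g i : ℂ) / 2)‖ ≤ 1 / 3 * R ^ 2 * ‖z‖ ^ 3 * |u i| := by
      rw [norm_mul]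
      have b1 : (‖z‖ * |u i|) ^ 3 ≤ ‖z‖ ^ 3 * (R ^ 2 * |u i|) := by
        have : |u i| ^ 3 ≤ R ^ 2 * |u i| := by
          have c1 : |u i| ^ 2 ≤ R ^ 2 := pow_le_pow_left₀ a0 (hu i) 2
          calc |u i| ^ 3 = |u i| ^ 2 * |u i| := by ring
            _ ≤ _ := mul_le_mul_of_nonneg_right c1 a0
        rw [mul_pow]
        exact mul_le_mul_of_nonneg_left this (by positivity)
      have b2 := nρ i
      calc ‖ρ i‖ * ‖1 + z ^ 2 * (g i : ℂ) / 2‖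
          ≤ (2 / 9 * (‖z‖ ^ 3 * (R ^ 2 * |u i|))) * (3 / 2) := by
            apply mul_le_mul (b2.trans (by linarith)) a1 (norm_nonneg _) (by positivity)
        _ = _ := by ring
    have a3 : ‖z ^ 3 * (u i : ℂ) * (g i : ℂ) / 2‖ ≤ 1 / 2 * R * ‖z‖ ^ 3 * |u i| := by
      rw [norm_div, norm_mul, norm_mul, norm_pow, n2, Complex.norm_real, Complex.norm_real,
        Real.norm_eq_abs, Real.norm_eq_abs]
      have := mul_le_mul_of_nonneg_left (hg i) (by positivity : 0 ≤ ‖z‖ ^ 3 * |u i|)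
      linarith
    have a4 : ‖z ^ 4 * (u i : ℂ) ^ 2 * (g i : ℂ) / 4‖ ≤ 1 / 4 * R * ‖z‖ ^ 3 * |u i| := by
      rw [norm_div, norm_mul, norm_mul, norm_pow, norm_pow, n4, Complex.norm_real,
        Complex.norm_real, Real.norm_eq_abs, Real.norm_eq_abs]
      have b1 : ‖z‖ * |u i| ≤ 1 := (mul_le_mul_of_nonneg_left (hu i) hz0).trans hz
      have b2 : ‖z‖ ^ 4 * |u i| ^ 2 * |g i| ≤ ‖z‖ ^ 3 * |u i| * R := by
        calc ‖z‖ ^ 4 * |u i| ^ 2 * |g i| = (‖z‖ ^ 3 * |u i|) * ((‖z‖ * |u i|) * |g i|) := by ring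
          _ ≤ (‖z‖ ^ 3 * |u i|) * (1 * R) := by
            apply mul_le_mul_of_nonneg_left _ (by positivity)
            exact mul_le_mul b1 (hg i) (abs_nonneg _) (by norm_num)
          _ = _ := by ring
      linarith
    have hRR : R ≤ R ^ 2 := by nlinarith
    have b5 : 0 ≤ ‖z‖ ^ 3 * |u i| := by positivity
    calc ‖T i‖ ≤ ‖ρ i * (1 + z ^ 2 * (g i : ℂ) / 2)‖ + ‖z ^ 3 * (u i : ℂ) * (g i : ℂ) / 2‖
          + ‖z ^ 4 * (u i : ℂ) ^ 2 * (g i : ℂ) / 4‖ := norm_add₃_le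
      _ ≤ 1 / 3 * R ^ 2 * ‖z‖ ^ 3 * |u i| + 1 / 2 * R * ‖z‖ ^ 3 * |u i|
          + 1 / 4 * R * ‖z‖ ^ 3 * |u i| := by linarith
      _ ≤ _ := by nlinarith
  set r : ℂ := ∑ i, (w i : ℂ) * T i with hr
  have nr : ‖r‖ ≤ 2 * R ^ 2 * ‖z‖ ^ 3 * s := by
    calc ‖r‖ ≤ ∑ i, ‖(w i : ℂ) * T i‖ := norm_sum_le _ _
      _ ≤ ∑ i, 2 * R ^ 2 * ‖z‖ ^ 3 * (w i * |u i|) := by
        refine Finset.sum_le_sum fun i _ => ?_
        rw [norm_mul, Complex.norm_real, Real.norm_of_nonneg (hw i)]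
        have := mul_le_mul_of_nonneg_left (nT i) (hw i)
        linarith
      _ = 2 * R ^ 2 * ‖z‖ ^ 3 * ∑ i, w i * |u i| := by rw [Finset.mul_sum]
      _ ≤ _ := mul_le_mul_of_nonneg_left hs (by positivity)
  -- the sum
  set P : ℂ := 1 + z ^ 2 * g0 / 2 + y with hP
  have hsum : ∑ i, (w i : ℂ) * (cexp (z * u i) * (1 + z ^ 2 * g i / 2)) = P + r := by
    have e1 : ∀ i, (w i : ℂ) * (cexp (z * u i) * (1 + z ^ 2 * g i / 2))
        = ((w i : ℝ) : ℂ) + z * ((w i * u i : ℝ) : ℂ)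
          + z ^ 2 / 2 * ((w i * (u i ^ 2 + g i) : ℝ) : ℂ) + (w i : ℂ) * T i := by
      intro i
      simp only [hT, hρ]
      push_cast
      ring
    rw [Finset.sum_congr rfl fun i _ => e1 i, Finset.sum_add_distrib, Finset.sum_add_distrib,
      Finset.sum_add_distrib, ← Finset.mul_sum, ← Finset.mul_sum, ← Complex.ofReal_sum,
      ← Complex.ofReal_sum, ← Complex.ofReal_sum, h1, hm, h2]
    rw [hP, hy]
    push_cast
    ring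
  have hall : ∑ i, (w i : ℂ) * (cexp (z * u i - z ^ 2 * D / 2) * (1 + z ^ 2 * g i / 2))
      = cexp (-y) * (P + r) := by
    rw [← hsum, Finset.mul_sum]
    refine Finset.sum_congr rfl fun i _ => ?_
    have : z * (u i : ℂ) - z ^ 2 * D / 2 = -y + z * u i := by rw [hy]; ring
    rw [this, Complex.exp_add]
    ring
  rw [hall]
  set η : ℂ := cexp (-y) - (1 + -y) with hη
  have nη : ‖η‖ ≤ 3 / 4 * ‖y‖ ^ 2 := by
    have := exp_two (-y) (by rw [norm_neg]; linarith)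
    rwa [norm_neg] at this
  have nE : ‖cexp (-y)‖ ≤ 2 := by
    have e : cexp (-y) = 1 + -y + η := by rw [hη]; ring
    rw [e]
    calc _ ≤ ‖(1 : ℂ)‖ + ‖-y‖ + ‖η‖ := norm_add₃_le
      _ ≤ 1 + 1 / 2 + 3 / 4 * (1 / 2) ^ 2 := by
        rw [norm_one, norm_neg]
        have : ‖y‖ ^ 2 ≤ (1 / 2) ^ 2 := pow_le_pow_left₀ (norm_nonneg y) ny1 2
        linarith
      _ ≤ 2 := by norm_num
  have nP1 : ‖1 - P‖ ≤ ‖z‖ ^ 2 * R := by
    have e : 1 - P = -(z ^ 2 * g0 / 2) + -y := by rw [hP]; ring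
    rw [e]
    refine (norm_add_le _ _).trans ?_
    rw [norm_neg, norm_neg, ny, norm_div, norm_mul, nz2, n2, Complex.norm_real, Real.norm_eq_abs]
    have a1 := mul_le_mul_of_nonneg_left hg0 (by positivity : 0 ≤ ‖z‖ ^ 2)
    have a2 := mul_le_mul_of_nonneg_left hDR (by positivity : 0 ≤ ‖z‖ ^ 2)
    linarith
  have nP : ‖P‖ ≤ 2 := by
    have e : P = 1 - (1 - P) := by ring
    rw [e]
    calc _ ≤ ‖(1 : ℂ)‖ + ‖1 - P‖ := norm_sub_le _ _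
      _ ≤ 1 + 1 := by rw [norm_one]; linarith
      _ = 2 := by norm_num
  have e : cexp (-y) * (P + r) - (1 + z ^ 2 * g0 / 2) = y * (1 - P) + η * P + cexp (-y) * r := by
    rw [hη, hP]
    ring
  rw [e]
  have b1 : ‖y * (1 - P)‖ ≤ ‖z‖ ^ 3 * D / 2 := by
    rw [norm_mul, ny]
    calc ‖z‖ ^ 2 * D / 2 * ‖1 - P‖ ≤ ‖z‖ ^ 2 * D / 2 * (‖z‖ ^ 2 * R) :=
          mul_le_mul_of_nonneg_left nP1 (by positivity)
      _ = ‖z‖ ^ 3 * D / 2 * (‖z‖ * R) := by ring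
      _ ≤ ‖z‖ ^ 3 * D / 2 * 1 := mul_le_mul_of_nonneg_left hz (by positivity)
      _ = _ := by ring
  have b2 : ‖η * P‖ ≤ 3 / 8 * (‖z‖ ^ 3 * D) := by
    rw [norm_mul]
    calc ‖η‖ * ‖P‖ ≤ 3 / 4 * ‖y‖ ^ 2 * 2 :=
          mul_le_mul nη nP (norm_nonneg _) (by positivity)
      _ = 3 / 8 * (‖z‖ ^ 3 * D) * (‖z‖ * D) := by rw [ny]; ring
      _ ≤ 3 / 8 * (‖z‖ ^ 3 * D) * 1 := by
        apply mul_le_mul_of_nonneg_left _ (by positivity)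
        exact (mul_le_mul_of_nonneg_left hDR hz0).trans hz
      _ = _ := by ring
  have hs0 : 0 ≤ s := le_trans (Finset.sum_nonneg fun i _ => mul_nonneg (hw i) (abs_nonneg _)) hs
  have b3 : ‖cexp (-y) * r‖ ≤ 4 * R ^ 2 * ‖z‖ ^ 3 * s := by
    rw [norm_mul]
    calc _ ≤ 2 * (2 * R ^ 2 * ‖z‖ ^ 3 * s) :=
          mul_le_mul nE nr (norm_nonneg _) (by norm_num)
      _ = _ := by ring
  have b4 : 0 ≤ R ^ 2 * ‖z‖ ^ 3 * s := by positivity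
  have b5 : 0 ≤ ‖z‖ ^ 3 * D := by positivity
  calc _ ≤ ‖y * (1 - P)‖ + ‖η * P‖ + ‖cexp (-y) * r‖ := norm_add₃_le
    _ ≤ _ := by nlinarith

end H729I
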