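import Pool.Agent.Run7.h729.Iso.Mom
import Pool.Agent.H974R3.Markov

/-!
# The common stationary law of the patterns and mixing
-/

set_option autoImplicit false

namespace H729I
open H906K Pool.Agent.H974R3 Polynomial Complex Filter Topology

/-- the Markov operator of one row -/
noncomputable def Qo (n : ℕ) (θ : ℝ) (F : Pat (2 * n + 1) → ℝ) (σ : Pat (2 * n + 1)) : ℝ :=
  ∑ b : Fin (2 * n + 1) → Bool, rw1 n (prob θ) b * F (Tc (2 * n) b σ)

/-- the stationary law: it does not depend on the angle -/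
theorem stat_exists (n : ℕ) : ∃ μ : Pat (2 * n + 1) → ℝ, ∑ σ, μ σ = 1 ∧
    ∀ θ ∈ Set.Icc 0 Real.pi, ∀ F : Pat (2 * n + 1) → ℝ,
      ∑ σ, μ σ * Qo n θ F σ = ∑ σ, μ σ * F σ := by
  obtain ⟨v, w, t, hv, hw, ht, hr, hl⟩ := left_all n
  refine ⟨fun σ => (PowerSeries.coeff 0 (v σ)).re, ?_, fun θ h F => ?_⟩
  · rw [← Complex.re_sum, ← map_sum, hv]
    simp
  · set x := cexp ((ph θ : ℂ) * I) with hx
    have hne : (1 + x) ^ (2 * n + 1) ≠ 0 := pow_ne_zero _ (one_add_ne h)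
    have h3 := right_eval hr ht x (fun σ => ((F σ : ℝ) : ℂ))
    have h4 : ∀ σ, ∑ b : Fin (2 * n + 1) → Bool, Wc n x b * ((F (Tc (2 * n) b σ) : ℝ) : ℂ)
        = (1 + x) ^ (2 * n + 1) * ((Qo n θ F σ : ℝ) : ℂ) := by
      intro σ
      unfold Qo
      rw [Complex.ofReal_sum, Finset.mul_sum]
      refine Finset.sum_congr rfl fun b _ => ?_
      rw [hx, Wc_eq n h]
      push_cast
      ring
    simp only [h4] at h3
    have h5 : ∑ σ, PowerSeries.coeff 0 (v σ) * ((1 + x) ^ (2 * n + 1) * ((Qo n θ F σ : ℝ) : ℂ))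
        = (1 + x) ^ (2 * n + 1) * ∑ σ, PowerSeries.coeff 0 (v σ) * ((Qo n θ F σ : ℝ) : ℂ) := by
      rw [Finset.mul_sum]
      exact Finset.sum_congr rfl fun σ _ => by ring
    rw [h5] at h3
    have h6 := mul_left_cancel₀ hne h3
    have h7 := congrArg Complex.re h6
    rw [Complex.re_sum, Complex.re_sum] at h7
    calc ∑ σ, (PowerSeries.coeff 0 (v σ)).re * Qo n θ F σ
        = ∑ σ, (PowerSeries.coeff 0 (v σ) * ((Qo n θ F σ : ℝ) : ℂ)).re := by
          refine Finset.sum_congr rfl fun σ _ => ?_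
          rw [Complex.re_mul_ofReal]
      _ = ∑ σ, (((F σ : ℝ) : ℂ) * PowerSeries.coeff 0 (v σ)).re := h7
      _ = _ := by
          refine Finset.sum_congr rfl fun σ _ => ?_
          rw [Complex.re_ofReal_mul]
          ring

/-- differences are at most `B` -/
def Os {n : ℕ} (F : Pat (2 * n + 1) → ℝ) (B : ℝ) : Prop := ∀ τ τ', |F τ - F τ'| ≤ B

theorem Qo_sub (n : ℕ) (θ : ℝ) (F : Pat (2 * n + 1) → ℝ) (σ σ' : Pat (2 * n + 1)) :
    Qo n θ F σ - Qo n θ F σ' = ∑ b : Fin (2 * n + 1) → Bool, rw1 n (prob θ) b *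
      (F (Tc (2 * n) b σ) - F (Tc (2 * n) b σ')) := by
  unfold Qo
  rw [← Finset.sum_sub_distrib]
  exact Finset.sum_congr rfl fun b _ => by ring

theorem Qo_os {n : ℕ} {θ : ℝ} (h : θ ∈ Set.Icc 0 Real.pi) {F : Pat (2 * n + 1) → ℝ} {B : ℝ}
    (hF : Os F B) : Os (Qo n θ F) B := by
  intro τ τ'
  rw [Qo_sub]
  refine (Finset.abs_sum_le_sum_abs _ _).trans ?_
  calc ∑ b : Fin (2 * n + 1) → Bool, |rw1 n (prob θ) b * (F (Tc (2 * n) b τ) - F (Tc (2 * n) b τ'))|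
      ≤ ∑ b : Fin (2 * n + 1) → Bool, rw1 n (prob θ) b * B := by
        refine Finset.sum_le_sum fun b _ => ?_
        rw [abs_mul, abs_of_nonneg (rw1_nonneg n (prob_mem h) b)]
        exact mul_le_mul_of_nonneg_left (hF _ _) (rw1_nonneg n (prob_mem h) b)
    _ = B := by rw [← Finset.sum_mul, rw1_sum, one_mul]

theorem half_mem : Real.pi / 2 ∈ Set.Icc 0 Real.pi := ⟨by positivity, by linarith [Real.pi_pos]⟩

theorem prob_half : prob (Real.pi / 2) = 1 / 2 := by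
  unfold prob
  have e : (Real.pi - Real.pi / 2) / 3 = Real.pi / 2 / 3 := by ring
  rw [e]
  have : 0 < Real.sin (Real.pi / 2 / 3) :=
    Real.sin_pos_of_pos_of_lt_pi (by positivity) (by linarith [Real.pi_pos])
  generalize Real.sin (Real.pi / 2 / 3) = s at this
  field_simp
  ring

theorem rw1_half (n : ℕ) (b : Fin (2 * n + 1) → Bool) :
    rw1 n (prob (Real.pi / 2)) b = (1 / 2) ^ (2 * n + 1) := by
  unfold rw1
  rw [prob_half]
  have : ∀ j, (if b j = true then (1 / 2 : ℝ) else 1 - 1 / 2) = 1 / 2 := by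
    intro j
    split_ifs <;> norm_num
  simp only [this, Finset.prod_const, Finset.card_univ, Fintype.card_fin]

theorem word_os {n K : ℕ} {w : Pat (2 * n + 1) → Pat (2 * n + 1)} (hw : IsWord (2 * n) K w) :
    ∀ (F : Pat (2 * n + 1) → ℝ) (B : ℝ), Os F B → ∀ σ σ',
      |(Qo n (Real.pi / 2))^[K] F σ - (Qo n (Real.pi / 2))^[K] F σ'|
        ≤ (1 - ((1 / 2 : ℝ) ^ (2 * n + 1)) ^ K) * B
          + ((1 / 2 : ℝ) ^ (2 * n + 1)) ^ K * |F (w σ) - F (w σ')| := by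
  induction hw with
  | id => intro F B _ σ σ'; simp
  | step c w K _ ih =>
    intro F B hF σ σ'
    set δ : ℝ := (1 / 2 : ℝ) ^ (2 * n + 1) with hδ
    have hδ0 : 0 < δ := by positivity
    have h1 := ih (Qo n (Real.pi / 2) F) B (Qo_os half_mem hF) σ σ'
    rw [Function.iterate_succ_apply]
    have hB : 0 ≤ B := (abs_nonneg _).trans (hF σ σ)
    have h2 : |Qo n (Real.pi / 2) F (w σ) - Qo n (Real.pi / 2) F (w σ')|
        ≤ (1 - δ) * B + δ * |F ((Tc (2 * n) c ∘ w) σ) - F ((Tc (2 * n) c ∘ w) σ')| := by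
      rw [Qo_sub]
      refine (Finset.abs_sum_le_sum_abs _ _).trans ?_
      have e : ∀ b : Fin (2 * n + 1) → Bool, |rw1 n (prob (Real.pi / 2)) b *
          (F (Tc (2 * n) b (w σ)) - F (Tc (2 * n) b (w σ')))|
          = δ * |F (Tc (2 * n) b (w σ)) - F (Tc (2 * n) b (w σ'))| := by
        intro b
        rw [rw1_half, abs_mul, abs_of_pos (by positivity : 0 < (1 / 2 : ℝ) ^ (2 * n + 1))]
      rw [Finset.sum_congr rfl fun b _ => e b, ← Finset.mul_sum,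
        ← Finset.add_sum_erase _ _ (Finset.mem_univ c)]
      have h3 : ∑ b ∈ Finset.univ.erase c, |F (Tc (2 * n) b (w σ)) - F (Tc (2 * n) b (w σ'))|
          ≤ (2 ^ (2 * n + 1) - 1) * B := by
        refine (Finset.sum_le_sum fun b _ => hF _ _).trans ?_
        rw [Finset.sum_const, Finset.card_erase_of_mem (Finset.mem_univ c), nsmul_eq_mul]
        refine mul_le_mul_of_nonneg_right (le_of_eq ?_) hB
        rw [Nat.cast_sub]
        · simp [Finset.card_univ]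
        · simp [Finset.card_univ, Nat.one_le_two_pow]
      have h4 : δ * (2 ^ (2 * n + 1) - 1) = 1 - δ := by
        have : δ * 2 ^ (2 * n + 1) = 1 := by
          rw [hδ, ← mul_pow]; norm_num
        linarith
      have h5 := mul_le_mul_of_nonneg_left h3 hδ0.le
      have e2 : (Tc (2 * n) c ∘ w) σ = Tc (2 * n) c (w σ) := rfl
      have e3 : (Tc (2 * n) c ∘ w) σ' = Tc (2 * n) c (w σ') := rfl
      rw [e2, e3]
      calc δ * (|F (Tc (2 * n) c (w σ)) - F (Tc (2 * n) c (w σ'))| +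
            ∑ b ∈ Finset.univ.erase c, |F (Tc (2 * n) b (w σ)) - F (Tc (2 * n) b (w σ'))|)
          = δ * |F (Tc (2 * n) c (w σ)) - F (Tc (2 * n) c (w σ'))| +
            δ * ∑ b ∈ Finset.univ.erase c, |F (Tc (2 * n) b (w σ)) - F (Tc (2 * n) b (w σ'))| := by
            ring
        _ ≤ _ := by
          have : δ * ((2 ^ (2 * n + 1) - 1) * B) = (1 - δ) * B := by rw [← mul_assoc, h4]
          linarith
    have h3 := mul_le_mul_of_nonneg_left h2 (pow_nonneg hδ0.le K)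
    refine h1.trans ?_
    rw [pow_succ]
    linarith

theorem iter_os {n : ℕ} {F : Pat (2 * n + 1) → ℝ} {B : ℝ} (hF : Os F B) (K : ℕ) :
    Os ((Qo n (Real.pi / 2))^[K] F) B := by
  induction K generalizing F with
  | zero => exact hF
  | succ K ih =>
    rw [Function.iterate_succ_apply]
    exact ih (Qo_os half_mem hF)

theorem os_exists {n : ℕ} (F : Pat (2 * n + 1) → ℝ) : Os F (2 * bd F) := by
  intro τ τ'
  refine (abs_sub _ _).trans ?_
  have := bd_le F τ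
  have := bd_le F τ'
  linarith

theorem os_tendsto {n : ℕ} (F : Pat (2 * n + 1) → ℝ) {ε : ℝ} (hε : 0 < ε) :
    ∃ K0, ∀ K ≥ K0, Os ((Qo n (Real.pi / 2))^[K] F) ε := by
  obtain ⟨K1, w, hw, hbase⟩ := exists_word n
  set ρ : ℝ := 1 - ((1 / 2 : ℝ) ^ (2 * n + 1)) ^ K1 with hρ
  have hδ : 0 < ((1 / 2 : ℝ) ^ (2 * n + 1)) ^ K1 := by positivity
  have hδ1 : ((1 / 2 : ℝ) ^ (2 * n + 1)) ^ K1 ≤ 1 := by
    apply pow_le_one₀ (by positivity)
    apply pow_le_one₀ (by norm_num) (by norm_num)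
  have hρ0 : 0 ≤ ρ := by linarith
  have hρ1 : ρ < 1 := by linarith
  have hstep : ∀ m : ℕ, Os ((Qo n (Real.pi / 2))^[K1 * m] F) (ρ ^ m * (2 * bd F)) := by
    intro m
    induction m with
    | zero => simpa using os_exists F
    | succ m ih =>
      intro τ τ'
      have e : K1 * (m + 1) = K1 + K1 * m := by ring
      rw [e, Function.iterate_add_apply]
      have h1 := word_os hw _ _ ih τ τ'
      rw [hbase, hbase, sub_self, abs_zero, mul_zero, add_zero] at h1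
      calc _ ≤ ρ * (ρ ^ m * (2 * bd F)) := h1
        _ = ρ ^ (m + 1) * (2 * bd F) := by ring
  have hlim : Tendsto (fun m : ℕ => ρ ^ m * (2 * bd F)) atTop (𝓝 0) := by
    have := (tendsto_pow_atTop_nhds_zero_of_lt_one hρ0 hρ1).mul_const (2 * bd F)
    simpa using this
  obtain ⟨m, hm⟩ := (hlim.eventually (gt_mem_nhds hε)).exists
  refine ⟨K1 * m, fun K hK τ τ' => ?_⟩
  obtain ⟨k, rfl⟩ := Nat.exists_eq_add_of_le hK
  have e : K1 * m + k = k + K1 * m := add_comm _ _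
  rw [e, Function.iterate_add_apply]
  exact (iter_os (hstep m) k τ τ').trans hm.le

theorem mix {n : ℕ} {μ : Pat (2 * n + 1) → ℝ} (h1 : ∑ σ, μ σ = 1)
    (hμ : ∀ θ ∈ Set.Icc 0 Real.pi, ∀ F : Pat (2 * n + 1) → ℝ,
      ∑ σ, μ σ * Qo n θ F σ = ∑ σ, μ σ * F σ) (F : Pat (2 * n + 1) → ℝ) (σ : Pat (2 * n + 1)) :
    Tendsto (fun K => (Qo n (Real.pi / 2))^[K] F σ) atTop (𝓝 (∑ τ, μ τ * F τ)) := by
  have hinv : ∀ K : ℕ, ∀ G : Pat (2 * n + 1) → ℝ,
      ∑ τ, μ τ * (Qo n (Real.pi / 2))^[K] G τ = ∑ τ, μ τ * G τ := by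
    intro K
    induction K with
    | zero => intro G; rfl
    | succ K ih =>
      intro G
      rw [Function.iterate_succ_apply, ih, hμ _ half_mem]
  rw [Metric.tendsto_atTop]
  intro ε hε
  have hb : 0 < bd μ + 1 := by linarith [bd_nonneg μ]
  obtain ⟨K0, hK0⟩ := os_tendsto F (show 0 < ε / (2 * (bd μ + 1)) by positivity)
  refine ⟨K0, fun K hK => ?_⟩
  rw [Real.dist_eq, ← hinv K F]
  have e : (Qo n (Real.pi / 2))^[K] F σ - ∑ τ, μ τ * (Qo n (Real.pi / 2))^[K] F τ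
      = ∑ τ, μ τ * ((Qo n (Real.pi / 2))^[K] F σ - (Qo n (Real.pi / 2))^[K] F τ) := by
    simp only [mul_sub]
    rw [Finset.sum_sub_distrib, ← Finset.sum_mul, h1, one_mul]
  rw [e]
  refine lt_of_le_of_lt (Finset.abs_sum_le_sum_abs _ _) ?_
  calc ∑ τ, |μ τ * ((Qo n (Real.pi / 2))^[K] F σ - (Qo n (Real.pi / 2))^[K] F τ)|
      ≤ ∑ τ, |μ τ| * (ε / (2 * (bd μ + 1))) := by
        refine Finset.sum_le_sum fun τ _ => ?_
        rw [abs_mul]
        exact mul_le_mul_of_nonneg_left (hK0 K hK σ τ) (abs_nonneg _)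
    _ = bd μ * (ε / (2 * (bd μ + 1))) := by rw [← Finset.sum_mul]; rfl
    _ ≤ (bd μ + 1) * (ε / (2 * (bd μ + 1))) :=
        mul_le_mul_of_nonneg_right (by linarith) (by positivity)
    _ = ε / 2 := by field_simp
    _ < ε := by linarith

/-! ## environments -/

/-- a fixed environment -/
def det (n : ℕ) (ϑ : ℕ → ℝ) : Strat n := fun t _ => ϑ t

/-- `K` homogeneous rows, then the environment `ϑ` -/
noncomputable def cat (K : ℕ) (ϑ : ℕ → ℝ) : ℕ → ℝ := fun t => if t < K then Real.pi / 2 else ϑ (t - K)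

theorem det_adm {n : ℕ} {ϑ : ℕ → ℝ} (h : ∀ t, ϑ t ∈ Set.Icc 0 Real.pi) : Adm (det n ϑ) :=
  fun t _ => h t

theorem cat_mem {K : ℕ} {ϑ : ℕ → ℝ} (h : ∀ t, ϑ t ∈ Set.Icc 0 Real.pi) (t : ℕ) :
    cat K ϑ t ∈ Set.Icc 0 Real.pi := by
  unfold cat
  split_ifs
  · exact half_mem
  · exact h _

theorem cat_add (K : ℕ) (ϑ : ℕ → ℝ) (t : ℕ) : cat K ϑ (K + t) = ϑ t := by
  unfold cat
  rw [if_neg (by omega)]
  congr 1
  omega

theorem EE_pat_succ {n : ℕ} (ϑ : ℕ → ℝ) (M : ℕ) (F : Pat (2 * n + 1) → ℝ) :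
    EE (det n ϑ) (M + 1) (fun c => F (pat c)) = EE (det n ϑ) M (fun c => Qo n (ϑ M) F (pat c)) := by
  rw [EE_succ]
  congr 1
  funext c
  unfold Qo det
  refine Finset.sum_congr rfl fun b _ => ?_
  rw [(run_app c b).1, smul_eq_mul]

/-- the composition of the Markov operators -/
noncomputable def QQ (n : ℕ) (ϑ : ℕ → ℝ) : ℕ → (Pat (2 * n + 1) → ℝ) → (Pat (2 * n + 1) → ℝ)
  | 0, F => F
  | M + 1, F => QQ n ϑ M (Qo n (ϑ M) F)

theorem QQ_stat {n : ℕ} {μ : Pat (2 * n + 1) → ℝ}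
    (hμ : ∀ θ ∈ Set.Icc 0 Real.pi, ∀ F : Pat (2 * n + 1) → ℝ,
      ∑ σ, μ σ * Qo n θ F σ = ∑ σ, μ σ * F σ) {ϑ : ℕ → ℝ} (h : ∀ t, ϑ t ∈ Set.Icc 0 Real.pi)
    (M : ℕ) (F : Pat (2 * n + 1) → ℝ) : ∑ σ, μ σ * QQ n ϑ M F σ = ∑ σ, μ σ * F σ := by
  induction M generalizing F with
  | zero => rfl
  | succ M ih =>
    show ∑ σ, μ σ * QQ n ϑ M (Qo n (ϑ M) F) σ = _
    rw [ih, hμ _ (h M)]

theorem EE_cat {n : ℕ} (K : ℕ) (ϑ : ℕ → ℝ) (M : ℕ) (F : Pat (2 * n + 1) → ℝ) :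
    EE (det n (cat K ϑ)) (K + M) (fun c => F (pat c))
      = EE (det n (cat K ϑ)) K (fun c => QQ n ϑ M F (pat c)) := by
  induction M generalizing F with
  | zero => rfl
  | succ M ih =>
    show EE (det n (cat K ϑ)) (K + M + 1) (fun c => F (pat c)) = _
    rw [EE_pat_succ, cat_add, ih]
    rfl

theorem EE_hom {n : ℕ} (K : ℕ) (ϑ : ℕ → ℝ) (m : ℕ) (hm : m ≤ K) (F : Pat (2 * n + 1) → ℝ) :
    EE (det n (cat K ϑ)) m (fun c => F (pat c)) = (Qo n (Real.pi / 2))^[m] F (start n) := by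
  induction m generalizing F with
  | zero => rw [EE_zero]; rfl
  | succ m ih =>
    rw [EE_pat_succ, Function.iterate_succ_apply]
    have e : cat K ϑ m = Real.pi / 2 := by
      unfold cat
      rw [if_pos (by omega)]
    rw [e]
    exact ih (by omega) (Qo n (Real.pi / 2) F)

theorem EE_lim {n : ℕ} {μ : Pat (2 * n + 1) → ℝ} (h1 : ∑ σ, μ σ = 1)
    (hμ : ∀ θ ∈ Set.Icc 0 Real.pi, ∀ F : Pat (2 * n + 1) → ℝ,
      ∑ σ, μ σ * Qo n θ F σ = ∑ σ, μ σ * F σ) {ϑ : ℕ → ℝ} (h : ∀ t, ϑ t ∈ Set.Icc 0 Real.pi)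
    (M : ℕ) (F : Pat (2 * n + 1) → ℝ) :
    Tendsto (fun K => EE (det n (cat K ϑ)) (K + M) (fun c => F (pat c))) atTop
      (𝓝 (∑ σ, μ σ * F σ)) := by
  rw [← QQ_stat hμ h M F]
  refine (mix h1 hμ (QQ n ϑ M F) (start n)).congr fun K => ?_
  rw [EE_cat, EE_hom K ϑ K le_rfl]

end H729I
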