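import Pool.Agent.Run7.h729.Iso.Lgp

/-!
# The eigenvalue as a power series in the twist: functions on the strip
-/

set_option autoImplicit false

namespace H729I
open H906K Pool.Agent.H974R3 Polynomial Complex

variable {n : ℕ} {t : (PowerSeries ℂ)[X]}

theorem Nc_ne (n : ℕ) : (2 * (n : ℂ) + 1) ≠ 0 := by
  exact_mod_cast (by omega : 2 * n + 1 ≠ 0)

/-- the eigenvalue at `x` as a power series in the rescaled twist -/
noncomputable def Sx (n : ℕ) (t : (PowerSeries ℂ)[X]) (x : ℂ) : PowerSeries ℂ :=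
  PowerSeries.rescale (1 / (2 * n + 1 : ℂ)) (t.eval (PowerSeries.C x))

theorem Sx_coeff (k : ℕ) (x : ℂ) : PowerSeries.coeff k (Sx n t x)
    = (1 / (2 * n + 1 : ℂ)) ^ k * (e4_cf k t).eval x := by
  unfold Sx; rw [PowerSeries.coeff_rescale, e4_eval]

theorem rescale_C (a b : ℂ) : PowerSeries.rescale a (PowerSeries.C b) = PowerSeries.C b := by
  ext k
  rw [PowerSeries.coeff_rescale, PowerSeries.coeff_C]
  split_ifs with h
  · rw [h, pow_zero, one_mul]
  · rw [mul_zero]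

theorem rescale_expI (n : ℕ) (a : ℂ) :
    PowerSeries.rescale (1 / (2 * n + 1 : ℂ)) (expI (a * (2 * n + 1))) = expI a := by
  ext k
  rw [PowerSeries.coeff_rescale]
  unfold expI
  rw [PowerSeries.coeff_rescale, PowerSeries.coeff_rescale, ← mul_assoc, ← mul_pow]
  congr 2
  have := Nc_ne n
  field_simp

/-- the normalised eigenvalue on the strip -/
noncomputable def tz (n : ℕ) (t : (PowerSeries ℂ)[X]) (z : ℂ) : PowerSeries ℂ :=
  PowerSeries.C (((1 + cexp z) ^ (2 * n + 1))⁻¹) * Sx n t (cexp z)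

theorem tz_coeff (k : ℕ) (z : ℂ) : PowerSeries.coeff k (tz n t z)
    = (C ((1 / (2 * n + 1 : ℂ)) ^ k) * e4_cf k t).eval (cexp z) / (1 + cexp z) ^ (2 * n + 1) := by
  unfold tz
  rw [PowerSeries.coeff_C_mul, Sx_coeff, eval_mul, eval_C]
  ring

theorem nic_frac {p : ℂ[X]} (hp : p.natDegree ≤ 2 * n + 1) :
    Nic (fun z => p.eval (cexp z) / (1 + cexp z) ^ (2 * n + 1)) := by
  have hpi := Real.pi_pos
  refine ⟨fun z hz => ?_, ?_⟩
  · have hz' : |z.im| ≤ 2 * Real.pi / 3 := by linarith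
    apply DifferentiableAt.div
    · exact (Polynomial.differentiable _).differentiableAt.comp z
        Complex.differentiable_exp.differentiableAt
    · exact ((differentiableAt_const _).add Complex.differentiable_exp.differentiableAt).pow _
    · exact pow_ne_zero _ (g3a_ne z hz')
  · obtain ⟨K, hK⟩ := (isCompact_closedBall (0 : ℂ) 2).exists_bound_of_continuousOn
      (f := fun w => (g3aQ (2 * n + 1) p).eval w)
      (Polynomial.continuous _).continuousOn
    refine ⟨K, fun z hz => ?_⟩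
    have hz' : |z.im| ≤ 2 * Real.pi / 3 := by linarith
    beta_reduce
    rw [g3a_rep _ _ hp _ (g3a_ne z hz')]
    apply hK
    rw [mem_closedBall_zero_iff, norm_div, div_le_iff₀ (norm_pos_iff.2 (g3a_ne z hz'))]
    have := g3a_den z hz'
    linarith

theorem nic_tz (h : TSpec n t) (k : ℕ) : Nic (fun z => PowerSeries.coeff k (tz n t z)) := by
  simp only [tz_coeff]
  exact nic_frac ((natDegree_C_mul_le _ _).trans (e4_cf_deg k t h.deg))

theorem tz_zero (h : TSpec n t) {z : ℂ} (hz : |z.im| ≤ 2 * Real.pi / 3) :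
    PowerSeries.coeff 0 (tz n t z) = 1 := by
  rw [tz_coeff, e4_cf0 h, pow_zero, map_one, one_mul, eval_pow, eval_add, eval_one, eval_X]
  exact div_self (pow_ne_zero _ (g3a_ne z hz))

/-- the quotient in `div` with its degree -/
theorem div_deg (h : TSpec n t) : ∃ Q : (PowerSeries ℂ)[X], Q.natDegree ≤ 2 * n + 1 ∧ ∀ x : ℂ,
    t.eval (PowerSeries.C (om * x)) * t.eval (PowerSeries.C (om ^ 2 * x))
      = PowerSeries.C (((1 + om * x) * (1 + om ^ 2 * x)) ^ (2 * n + 1))
        + PowerSeries.C ((1 + x) ^ (2 * n + 1)) * Q.eval (PowerSeries.C x) := by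
  obtain ⟨Q, hQ⟩ := h.div
  refine ⟨Q, ?_, fun x => ?_⟩
  · have hm : ((1 + X : (PowerSeries ℂ)[X]) ^ (2 * n + 1)).Monic := by
      have : (1 + X : (PowerSeries ℂ)[X]) = X + C 1 := by rw [C_1, add_comm]
      rw [this]
      exact (monic_X_add_C 1).pow _
    have hlin : ∀ a : PowerSeries ℂ, (C a * X : (PowerSeries ℂ)[X]).natDegree ≤ 1 := fun a =>
      (natDegree_C_mul_le _ _).trans natDegree_X_le
    have hc : ∀ a : PowerSeries ℂ, (t.comp (C a * X)).natDegree ≤ 2 * n + 1 := fun a => by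
      refine natDegree_comp_le.trans ?_
      calc t.natDegree * (C a * X : (PowerSeries ℂ)[X]).natDegree ≤ (2 * n + 1) * 1 :=
            Nat.mul_le_mul h.deg (hlin a)
        _ = 2 * n + 1 := mul_one _
    have h1 : ∀ a : PowerSeries ℂ, (1 + C a * X : (PowerSeries ℂ)[X]).natDegree ≤ 1 := fun a => by
      refine (natDegree_add_le _ _).trans (max_le ?_ (hlin a))
      simp
    have hd : (t.comp (C (PowerSeries.C om) * X) * t.comp (C (PowerSeries.C (om ^ 2)) * X)
        - ((1 + C (PowerSeries.C om) * X) * (1 + C (PowerSeries.C (om ^ 2)) * X)) ^ (2 * n + 1)).natDegree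
        ≤ (2 * n + 1) + (2 * n + 1) := by
      refine (natDegree_sub_le _ _).trans (max_le ?_ ?_)
      · exact natDegree_mul_le.trans (add_le_add (hc _) (hc _))
      · refine natDegree_pow_le.trans ?_
        calc (2 * n + 1) * ((1 + C (PowerSeries.C om) * X)
              * (1 + C (PowerSeries.C (om ^ 2)) * X) : (PowerSeries ℂ)[X]).natDegree
            ≤ (2 * n + 1) * (1 + 1) :=
              Nat.mul_le_mul le_rfl (natDegree_mul_le.trans (add_le_add (h1 _) (h1 _)))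
          _ = (2 * n + 1) + (2 * n + 1) := by ring
    by_cases hQ0 : Q = 0
    · rw [hQ0]; simp
    rw [hQ, hm.natDegree_mul' hQ0] at hd
    have hd2 : ((1 + X : (PowerSeries ℂ)[X]) ^ (2 * n + 1)).natDegree = 2 * n + 1 := by
      have : (1 + X : (PowerSeries ℂ)[X]) = X + C 1 := by rw [C_1, add_comm]
      rw [this, (monic_X_add_C (1 : PowerSeries ℂ)).natDegree_pow, natDegree_X_add_C, mul_one]
    omega
  · have hf := congrArg (fun p => p.eval (PowerSeries.C x)) hQ
    simp only [eval_mul, eval_comp, eval_add, eval_sub, eval_pow, eval_C, eval_X, eval_one] at hf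
    simp only [map_pow, map_mul, map_add, map_one] at hf ⊢
    linear_combination hf

/-- the rescaled quotient -/
structure QSpec (n : ℕ) (t Q : (PowerSeries ℂ)[X]) : Prop where
  deg : Q.natDegree ≤ 2 * n + 1
  rel : ∀ x : ℂ, Sx n t (om * x) * Sx n t (om ^ 2 * x)
      = PowerSeries.C (((1 + om * x) * (1 + om ^ 2 * x)) ^ (2 * n + 1))
        + PowerSeries.C ((1 + x) ^ (2 * n + 1)) * Sx n Q x

theorem resc_alg (r p1 p2 : ℂ) (a b c : PowerSeries ℂ)
    (h : a * b = PowerSeries.C p1 + PowerSeries.C p2 * c) :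
    PowerSeries.rescale r a * PowerSeries.rescale r b
      = PowerSeries.C p1 + PowerSeries.C p2 * PowerSeries.rescale r c := by
  have := congrArg (PowerSeries.rescale r) h
  simpa only [map_mul, map_add, rescale_C] using this

theorem qspec (h : TSpec n t) : ∃ Q, QSpec n t Q := by
  obtain ⟨Q, h1, h2⟩ := div_deg h
  exact ⟨Q, h1, fun x => resc_alg _ _ _ _ _ _ (h2 x)⟩

theorem om_norm : om ^ 2 + om + 1 = 0 := g2_om1

theorem Sx_zero (h : TSpec n t) (x : ℂ) : PowerSeries.coeff 0 (Sx n t x) = (1 + x) ^ (2 * n + 1) := by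
  rw [Sx_coeff, e4_cf0 h, pow_zero, one_mul, eval_pow, eval_add, eval_one, eval_X]

theorem mulX_inj {p q : ℂ[X]} {N : ℕ} (h : ∀ x : ℂ, (1 + x) ^ N * p.eval x = (1 + x) ^ N * q.eval x) :
    p = q := by
  have h1 : (1 + X : ℂ[X]) ^ N * p = (1 + X) ^ N * q := by
    apply Polynomial.funext
    intro x
    simpa using h x
  have h2 : (1 + X : ℂ[X]) ^ N ≠ 0 := by
    apply pow_ne_zero
    intro h0
    have := congrArg (fun p => p.eval (0 : ℂ)) h0
    simp at this
  exact mul_left_cancel₀ h2 h1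

theorem q_zero {Q : (PowerSeries ℂ)[X]} (h : TSpec n t) (hQ : QSpec n t Q) : e4_cf 0 Q = 0 := by
  refine mulX_inj (N := 2 * n + 1) fun x => ?_
  have h1 := congrArg (PowerSeries.coeff 0) (hQ.rel x)
  rw [e4_mul0, map_add, PowerSeries.coeff_C_mul, Sx_zero h, Sx_zero h, Sx_coeff, pow_zero, one_mul,
    PowerSeries.coeff_zero_C, mul_pow] at h1
  rw [eval_zero, mul_zero]
  linear_combination -h1

theorem q_one {Q : (PowerSeries ℂ)[X]} {s1 s2 V1 V2 : ℝ[X]} (h : TSpec n t) (hQ : QSpec n t Q)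
    (hR : RPert n s1 s2 V1 V2) (hs : C (1 / (2 * n + 1 : ℂ)) * e4_cf 1 t = s1.map (algebraMap ℝ ℂ)) :
    C (1 / (2 * n + 1 : ℂ)) * e4_cf 1 Q = V1.map (algebraMap ℝ ℂ) := by
  refine mulX_inj (N := 2 * n + 1) fun x => ?_
  have h1 := congrArg (PowerSeries.coeff 1) (hQ.rel x)
  have hs' : ∀ w : ℂ, PowerSeries.coeff 1 (Sx n t w) = (s1.map (algebraMap ℝ ℂ)).eval w := by
    intro w
    rw [Sx_coeff, pow_one, ← hs, eval_mul, eval_C]
  rw [e4_mul1, map_add, PowerSeries.coeff_C_mul, hs', hs', Sx_zero h, Sx_zero h, Sx_coeff, pow_one,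
    PowerSeries.coeff_C, if_neg one_ne_zero, zero_add] at h1
  have h2 := hR.d1 x
  rw [eval_mul, eval_C]
  linear_combination -h1 + h2

/-- the normalised quotient -/
noncomputable def Bz (n : ℕ) (Q : (PowerSeries ℂ)[X]) (V1 : ℝ[X]) (z : ℂ) : PowerSeries ℂ :=
  PowerSeries.mk fun k => PowerSeries.coeff (k + 1) (Sx n Q (-cexp z))
    / (V1.map (algebraMap ℝ ℂ)).eval (-cexp z)

theorem re_strip {z : ℂ} (hz : |z.im| ≤ Real.pi / 2) : (-cexp z).re ≤ 0 := by
  rw [Complex.neg_re, Complex.exp_re]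
  have hpi := Real.pi_pos
  have : 0 ≤ Real.cos z.im := by
    apply Real.cos_nonneg_of_mem_Icc
    rw [abs_le] at hz
    constructor <;> linarith
  have := mul_nonneg (Real.exp_pos z.re).le this
  linarith

theorem V1_ne {s1 s2 V1 V2 : ℝ[X]} (hR : RPert n s1 s2 V1 V2) {w : ℂ} (hw : w.re ≤ 0) :
    (V1.map (algebraMap ℝ ℂ)).eval w ≠ 0 := by
  intro h0
  obtain ⟨r, hr, hwr⟩ := hR.roots w h0
  rw [hwr, Complex.ofReal_re] at hw
  linarith

theorem nic_quot {s1 s2 V1 V2 : ℝ[X]} (hR : RPert n s1 s2 V1 V2) {q : ℂ[X]}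
    (hq : q.natDegree ≤ 2 * n + 1) :
    Nic (fun z => q.eval (-cexp z) / (V1.map (algebraMap ℝ ℂ)).eval (-cexp z)) := by
  have hpi := Real.pi_pos
  obtain ⟨-, -, v3, -⟩ := g3b_vals hR
  have hp : (V1.map (algebraMap ℝ ℂ)).natDegree ≤ 2 * n + 1 :=
    (Polynomial.natDegree_map_le).trans hR.degV1.le
  have hN : (V1.map (algebraMap ℝ ℂ)).coeff (2 * n + 1) ≠ 0 := by
    rw [Polynomial.coeff_map, v3]
    have : (2 * Real.sqrt 3 : ℝ) ≠ 0 := by positivity
    simpa using this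
  have hroot : ∀ w : ℂ, w.re ≤ 0 → (V1.map (algebraMap ℝ ℂ)).eval w ≠ 0 := fun w hw => V1_ne hR hw
  refine ⟨fun z hz => ?_, ?_⟩
  · have e1 : DifferentiableAt ℂ (fun z : ℂ => -Complex.exp z) z :=
      (Complex.differentiable_exp z).neg
    have hq' : DifferentiableAt ℂ (fun z : ℂ => q.eval (-Complex.exp z)) z :=
      (q.differentiable _).comp z e1
    have hp' : DifferentiableAt ℂ (fun z : ℂ => (V1.map (algebraMap ℝ ℂ)).eval (-Complex.exp z)) z :=
      ((V1.map (algebraMap ℝ ℂ)).differentiable _).comp z e1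
    exact hq'.div hp' (hroot _ (re_strip (by linarith)))
  · obtain ⟨K1, hK1⟩ := g3b_bdd (V1.map (algebraMap ℝ ℂ)) q hroot
    obtain ⟨K2, hK2⟩ := g3b_bdd ((V1.map (algebraMap ℝ ℂ)).reflect (2 * n + 1))
      (q.reflect (2 * n + 1)) (g3b_ne hp hN hroot)
    refine ⟨max K1 K2, fun z hz => ?_⟩
    have hre := re_strip (z := z) (by linarith)
    rcases le_total z.re 0 with h0 | h0
    · refine (hK1 _ hre ?_).trans (le_max_left _ _)
      rw [norm_neg, Complex.norm_exp]
      exact Real.exp_le_one_iff.2 h0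
    · refine le_trans ?_ (le_max_right K1 K2)
      beta_reduce
      rw [g3b_quot (2 * n + 1) _ q hp hq _ (neg_ne_zero.2 (Complex.exp_ne_zero z))]
      have e1 : (-Complex.exp z)⁻¹ = -Complex.exp (-z) := by
        rw [Complex.exp_neg, inv_neg]
      rw [e1]
      apply hK2
      · apply re_strip
        rw [Complex.neg_im, abs_neg]
        linarith
      · rw [norm_neg, Complex.norm_exp]
        apply Real.exp_le_one_iff.2
        simpa using h0

variable {Q : (PowerSeries ℂ)[X]} {s1 s2 V1 V2 : ℝ[X]}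

theorem nic_Bz (hQ : QSpec n t Q) (hR : RPert n s1 s2 V1 V2) (k : ℕ) :
    Nic (fun z => PowerSeries.coeff k (Bz n Q V1 z)) := by
  have := nic_quot hR (q := C ((1 / (2 * n + 1 : ℂ)) ^ (k + 1)) * e4_cf (k + 1) Q)
    ((natDegree_C_mul_le _ _).trans (e4_cf_deg (k + 1) Q hQ.deg))
  refine this.congr fun z _ => ?_
  unfold Bz
  rw [PowerSeries.coeff_mk, Sx_coeff, eval_mul, eval_C]

theorem Bz_zero (h : TSpec n t) (hQ : QSpec n t Q) (hR : RPert n s1 s2 V1 V2)
    (hs : C (1 / (2 * n + 1 : ℂ)) * e4_cf 1 t = s1.map (algebraMap ℝ ℂ)) {z : ℂ}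
    (hz : |z.im| ≤ Real.pi / 2) : PowerSeries.coeff 0 (Bz n Q V1 z) = 1 := by
  have h1 := q_one h hQ hR hs
  unfold Bz
  rw [PowerSeries.coeff_mk, Sx_coeff, ← h1, eval_mul, eval_C, zero_add, pow_one]
  apply div_self
  have h2 := V1_ne hR (re_strip hz)
  rw [← h1, eval_mul, eval_C] at h2
  exact h2

theorem Bz_mul (h : TSpec n t) (hQ : QSpec n t Q) (hR : RPert n s1 s2 V1 V2) {z : ℂ}
    (hz : |z.im| ≤ Real.pi / 2) : Sx n Q (-cexp z)
      = PowerSeries.X * (PowerSeries.C ((V1.map (algebraMap ℝ ℂ)).eval (-cexp z)) * Bz n Q V1 z) := by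
  have h2 := V1_ne hR (re_strip hz)
  ext k
  rcases k with _ | k
  · rw [Sx_coeff, q_zero h hQ]
    simp
  · rw [PowerSeries.coeff_succ_X_mul, PowerSeries.coeff_C_mul]
    unfold Bz
    rw [PowerSeries.coeff_mk]
    field_simp

/-- the product of the two shifted functions -/
theorem tz_mul (h : TSpec n t) (hQ : QSpec n t Q) (hR : RPert n s1 s2 V1 V2) {z : ℂ}
    (hz : |z.im| ≤ Real.pi / 2) :
    tz n t (z + Real.pi / 3 * I) * tz n t (z - Real.pi / 3 * I)
      = 1 + PowerSeries.X * (PowerSeries.C (Xc n s1 (z + Real.pi / 3 * I)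
        + Xc n s1 (z - Real.pi / 3 * I)) * Bz n Q V1 z) := by
  have hpi := Real.pi_pos
  have hz' : |z.im| < 2 * Real.pi / 3 := by linarith
  obtain ⟨-, -, h3, h4⟩ := g2_ne hz'
  rw [g2_sum hR z hz']
  unfold tz
  rw [g2_exp_add, g2_exp_sub]
  have h5 := hQ.rel (-cexp z)
  rw [Bz_mul h hQ hR hz] at h5
  have e1 : -om ^ 2 * cexp z = om ^ 2 * (-cexp z) := by ring
  have e2 : -om * cexp z = om * (-cexp z) := by ring
  rw [e1, e2]
  have e3 : 1 + om ^ 2 * -cexp z = 1 - om ^ 2 * cexp z := by ring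
  have e4 : 1 + om * -cexp z = 1 - om * cexp z := by ring
  rw [e3, e4] at h5 ⊢
  have hd := g2_den (cexp z)
  have e5 : PowerSeries.C (((1 - om ^ 2 * cexp z) ^ (2 * n + 1))⁻¹)
      * PowerSeries.C (((1 - om * cexp z) ^ (2 * n + 1))⁻¹)
      * PowerSeries.C (((1 - om * cexp z) * (1 - om ^ 2 * cexp z)) ^ (2 * n + 1)) = 1 := by
    rw [← map_mul, ← map_mul, ← map_one (PowerSeries.C (R := ℂ))]
    congr 1
    rw [mul_pow]
    have := pow_ne_zero (2 * n + 1) h3
    have := pow_ne_zero (2 * n + 1) h4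
    field_simp
  have e6 : PowerSeries.C ((1 - cexp z) ^ (2 * n + 1) * (V1.map (algebraMap ℝ ℂ)).eval (-cexp z)
        / (1 + cexp z + cexp z ^ 2) ^ (2 * n + 1))
      = PowerSeries.C (((1 - om ^ 2 * cexp z) ^ (2 * n + 1))⁻¹)
      * PowerSeries.C (((1 - om * cexp z) ^ (2 * n + 1))⁻¹)
      * PowerSeries.C ((1 + -cexp z) ^ (2 * n + 1))
      * PowerSeries.C ((V1.map (algebraMap ℝ ℂ)).eval (-cexp z)) := by
    rw [← map_mul, ← map_mul, ← map_mul]
    congr 1
    rw [← hd, mul_pow, ← sub_eq_add_neg]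
    have := pow_ne_zero (2 * n + 1) h3
    have := pow_ne_zero (2 * n + 1) h4
    field_simp
  rw [e6]
  linear_combination (PowerSeries.C (((1 - om ^ 2 * cexp z) ^ (2 * n + 1))⁻¹)
      * PowerSeries.C (((1 - om * cexp z) ^ (2 * n + 1))⁻¹)) * h5 + e5

theorem resc_alg3 (r p1 p2 p3 p4 : ℂ) (a b c k : PowerSeries ℂ)
    (h : a * b * c = PowerSeries.C p1 * c + PowerSeries.C p2 * a + PowerSeries.C p3 * b
      - PowerSeries.C p4 * k) :
    PowerSeries.rescale r a * PowerSeries.rescale r b * PowerSeries.rescale r c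
      = PowerSeries.C p1 * PowerSeries.rescale r c + PowerSeries.C p2 * PowerSeries.rescale r a
        + PowerSeries.C p3 * PowerSeries.rescale r b - PowerSeries.C p4 * PowerSeries.rescale r k := by
  have := congrArg (PowerSeries.rescale r) h
  simpa only [map_mul, map_add, map_sub, rescale_C] using this

theorem fus_alg {R : Type*} [CommRing R] (A1 A2 A3 D1 D2 D3 S1 S2 S3 K : R) (i1 : A1 * D1 = 1)
    (i2 : A2 * D2 = 1) (i3 : A3 * D3 = 1) (hf : S2 * S3 * S1 = (D2 * D3) * S1 + (D3 * D1) * S2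
      + (D1 * D2) * S3 - (D1 * (D2 * D3)) * K) :
    (A2 * S2) * (A3 * S3) * (A1 * S1) = A1 * S1 + A2 * S2 + A3 * S3 - K := by
  have j : A1 * A2 * A3 * (D1 * (D2 * D3)) = 1 := by
    linear_combination i1 * A2 * A3 * D2 * D3 + i2 * A3 * D3 + i3
  have hf2 : A1 * A2 * A3 * (S2 * S3 * S1) = (A2 * D2) * (A3 * D3) * (A1 * S1)
      + (A3 * D3) * (A1 * D1) * (A2 * S2) + (A1 * D1) * (A2 * D2) * (A3 * S3)
      - (A1 * A2 * A3 * (D1 * (D2 * D3))) * K := by
    rw [hf]; ring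
  rw [j, i1, i2, i3] at hf2
  linear_combination hf2

/-- the sum of the three values -/
theorem tz_fus (h : TSpec n t) (u : ℝ) :
    tz n t (u + Real.pi / 3 * I + Real.pi / 3 * I) * tz n t (u - Real.pi / 3 * I - Real.pi / 3 * I)
      * tz n t u = tz n t u + tz n t (u + Real.pi / 3 * I + Real.pi / 3 * I)
        + tz n t (u - Real.pi / 3 * I - Real.pi / 3 * I) - (expI 3 + expI (-3)) := by
  have hpi := Real.pi_pos
  obtain ⟨h1, h2, h3⟩ := g2_ne' (z := (u : ℂ)) (by simpa using by positivity)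
  have hf := resc_alg3 (1 / (2 * n + 1 : ℂ)) _ _ _ _ _ _ _ _ (e4_fus h (cexp u))
  have e3 : expI (-(3 * (2 * n + 1 : ℂ))) = expI ((-3) * (2 * n + 1)) := by congr 1; ring
  rw [map_add, rescale_expI, e3, rescale_expI] at hf
  have e1 : -om ^ 2 * (-om ^ 2 * cexp u) = om * cexp u := by
    linear_combination om * cexp u * g2_om3
  have e2 : -om * (-om * cexp (u : ℂ)) = om ^ 2 * cexp u := by ring
  have p1 := pow_ne_zero (2 * n + 1) h1
  have p2 := pow_ne_zero (2 * n + 1) h2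
  have p3 := pow_ne_zero (2 * n + 1) h3
  have q1 : PowerSeries.C (((1 + om * cexp (u : ℂ)) * (1 + om ^ 2 * cexp u)) ^ (2 * n + 1))
      = PowerSeries.C ((1 + om * cexp (u : ℂ)) ^ (2 * n + 1))
        * PowerSeries.C ((1 + om ^ 2 * cexp (u : ℂ)) ^ (2 * n + 1)) := by
    rw [← map_mul PowerSeries.C, mul_pow]
  have q2 : PowerSeries.C (((1 + om ^ 2 * cexp (u : ℂ)) * (1 + cexp u)) ^ (2 * n + 1))
      = PowerSeries.C ((1 + om ^ 2 * cexp (u : ℂ)) ^ (2 * n + 1))
        * PowerSeries.C ((1 + cexp (u : ℂ)) ^ (2 * n + 1)) := by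
    rw [← map_mul PowerSeries.C, mul_pow]
  have q3 : PowerSeries.C (((1 + cexp (u : ℂ)) * (1 + om * cexp u)) ^ (2 * n + 1))
      = PowerSeries.C ((1 + cexp (u : ℂ)) ^ (2 * n + 1))
        * PowerSeries.C ((1 + om * cexp (u : ℂ)) ^ (2 * n + 1)) := by
    rw [← map_mul PowerSeries.C, mul_pow]
  have q4 : PowerSeries.C ((1 + cexp (u : ℂ) ^ 3) ^ (2 * n + 1))
      = PowerSeries.C ((1 + cexp (u : ℂ)) ^ (2 * n + 1))
        * (PowerSeries.C ((1 + om * cexp (u : ℂ)) ^ (2 * n + 1))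
          * PowerSeries.C ((1 + om ^ 2 * cexp (u : ℂ)) ^ (2 * n + 1))) := by
    rw [← map_mul PowerSeries.C, ← map_mul PowerSeries.C, g2_cube, mul_pow, mul_pow]
  rw [q1, q2, q3, q4] at hf
  unfold tz
  rw [g2_exp_add, g2_exp_add, g2_exp_sub, g2_exp_sub, e1, e2]
  refine fus_alg _ _ _ _ _ _ _ _ _ _ ?_ ?_ ?_ hf
  · rw [← map_mul PowerSeries.C, inv_mul_cancel₀ p1, map_one]
  · rw [← map_mul PowerSeries.C, inv_mul_cancel₀ p2, map_one]
  · rw [← map_mul PowerSeries.C, inv_mul_cancel₀ p3, map_one]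

/-- the product of the two values of `B` -/
theorem Bz_prod (h : TSpec n t) (hQ : QSpec n t Q) (hR : RPert n s1 s2 V1 V2) (u : ℝ) :
    PowerSeries.X * (PowerSeries.C (Xc n s1 (u + Real.pi / 3 * I + Real.pi / 3 * I)
        + Xc n s1 (u + Real.pi / 3 * I - Real.pi / 3 * I)) * Bz n Q V1 (u + Real.pi / 3 * I))
      * (PowerSeries.X * (PowerSeries.C (Xc n s1 (u - Real.pi / 3 * I + Real.pi / 3 * I)
        + Xc n s1 (u - Real.pi / 3 * I - Real.pi / 3 * I)) * Bz n Q V1 (u - Real.pi / 3 * I)))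
      = (tz n t u - 1) ^ 2 + (2 - (expI 3 + expI (-3))) * tz n t u := by
  have hpi := Real.pi_pos
  have z1 : |((u : ℂ) + Real.pi / 3 * I).im| ≤ Real.pi / 2 := by
    rw [g2_im_add, Complex.ofReal_im, zero_add, abs_of_pos (by positivity)]; linarith
  have z2 : |((u : ℂ) - Real.pi / 3 * I).im| ≤ Real.pi / 2 := by
    rw [g2_im_sub, Complex.ofReal_im, zero_sub, abs_neg, abs_of_pos (by positivity)]; linarith
  have h1 := tz_mul h hQ hR z1
  have h2 := tz_mul h hQ hR z2
  have h3 := tz_fus h u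
  have e1 : (u : ℂ) + Real.pi / 3 * I - Real.pi / 3 * I = u := by ring
  have e2 : (u : ℂ) - Real.pi / 3 * I + Real.pi / 3 * I = u := by ring
  rw [e1] at h1 ⊢
  rw [e2] at h2 ⊢
  generalize tz n t (u + Real.pi / 3 * I + Real.pi / 3 * I) = b at *
  generalize tz n t (u - Real.pi / 3 * I - Real.pi / 3 * I) = c at *
  generalize tz n t u = a at *
  have h1' := eq_sub_of_add_eq' h1.symm
  have h2' := eq_sub_of_add_eq' h2.symm
  rw [h1', h2']
  linear_combination a * h3

end H729I
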