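import Pool.Agent.H906R3.K6.A1
import Pool.Agent.H906R3.K6.A2a
import Pool.Agent.H906R3.K6.A8

/-!
# The representation of bounded analytic functions in a strip, at imaginary points
-/

set_option autoImplicit false

namespace H729I
open MeasureTheory Filter Topology Complex Set H906K

/-- the kernel on the complex plane -/
noncomputable def kkc (z : ℂ) : ℂ := 3 / (4 * Real.pi * Complex.cosh (3 * z / 2))

theorem b1_arg (φ : ℝ) (w : ℂ) :
    3 * ((φ : ℂ) * I - w) / 2 = ((-(3 * w.re / 2) : ℝ) : ℂ) + ((3 * (φ - w.im) / 2 : ℝ) : ℂ) * I := by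
  conv_lhs => rw [← re_add_im w]
  push_cast
  ring

theorem b1_cosh (a b : ℝ) : Complex.cosh ((a : ℂ) + (b : ℂ) * I)
    = ((Real.cosh a * Real.cos b : ℝ) : ℂ) + ((Real.sinh a * Real.sin b : ℝ) : ℂ) * I := by
  rw [Complex.cosh_add, Complex.sinh_mul_I, Complex.cosh_mul_I]
  push_cast
  ring

theorem b1_norm_cosh (a b : ℝ) : Real.cosh a * |Real.cos b| ≤ ‖Complex.cosh ((a : ℂ) + (b : ℂ) * I)‖ := by
  rw [b1_cosh]
  refine (le_of_eq ?_).trans (Complex.abs_re_le_norm _)
  rw [Complex.add_re, Complex.re_ofReal_mul, Complex.I_re, mul_zero, add_zero, Complex.ofReal_re,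
    abs_mul, abs_of_pos (Real.cosh_pos a)]

/-- the case `f (φ I) = 0` -/
theorem b1_zero (h : ℂ → ℂ) (K : ℝ)
    (hf : ∀ z : ℂ, |z.im| ≤ Real.pi / 3 → DifferentiableAt ℂ h z)
    (hb : ∀ z : ℂ, |z.im| ≤ Real.pi / 3 → ‖h z‖ ≤ K) (φ : ℝ) (hφ : |φ| < Real.pi / 3)
    (hl : h ((φ : ℂ) * I) = 0) :
    ∫ u : ℝ, kkc ((φ : ℂ) * I - u) * (h (u + Real.pi / 3 * I) + h (u - Real.pi / 3 * I)) = 0 := by
  have hpi := Real.pi_pos
  have hφ2 := abs_lt.1 hφ
  obtain ⟨l, hlz⟩ : ∃ l : ℂ, l = (φ : ℂ) * I := ⟨_, rfl⟩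
  have hlre : l.re = 0 := by rw [hlz]; simp
  have hlim : l.im = φ := by rw [hlz]; simp
  rw [← hlz] at hl ⊢
  set s : ℂ → ℂ := fun w => Complex.sinh (3 * (l - w) / 2) with hs
  have hsd : Differentiable ℂ s := by
    intro w
    simp only [hs]
    fun_prop
  have hs0 : s l = 0 := by simp [hs]
  have hsder : HasDerivAt s (-(3 / 2)) l := by
    have h1 : HasDerivAt (fun w : ℂ => 3 * (l - w) / 2) (-(3 / 2)) l := by
      have := (((hasDerivAt_id l).const_sub l).const_mul 3).div_const 2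
      refine this.congr_deriv ?_
      ring
    have h2 := h1.csinh
    refine h2.congr_deriv ?_
    simp
  have harg : ∀ w : ℂ, 3 * (l - w) / 2 = ((-(3 * w.re / 2) : ℝ) : ℂ)
      + ((3 * (φ - w.im) / 2 : ℝ) : ℂ) * I := by
    intro w
    rw [hlz]
    exact b1_arg φ w
  -- sinh does not vanish in the strip except at `l`
  have hsne : ∀ w : ℂ, |w.im| ≤ Real.pi / 3 → w ≠ l → s w ≠ 0 := by
    intro w hw hwl hsw
    simp only [hs] at hsw
    rw [harg] at hsw
    have h1 := a1_normSq_sinh (-(3 * w.re / 2)) (3 * (φ - w.im) / 2)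
    rw [hsw, Complex.normSq_zero] at h1
    have h2 : Real.sinh (-(3 * w.re / 2)) = 0 := by
      have := sq_nonneg (Real.sin (3 * (φ - w.im) / 2))
      have := sq_nonneg (Real.sinh (-(3 * w.re / 2)))
      exact pow_eq_zero_iff (two_ne_zero) |>.mp (by linarith)
    have h3 : Real.sin (3 * (φ - w.im) / 2) = 0 := by
      have := sq_nonneg (Real.sin (3 * (φ - w.im) / 2))
      have := sq_nonneg (Real.sinh (-(3 * w.re / 2)))
      exact pow_eq_zero_iff (two_ne_zero) |>.mp (by linarith)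
    rw [Real.sinh_eq_zero] at h2
    have hw2 := abs_le.mp hw
    have h4 : 3 * (φ - w.im) / 2 = 0 := by
      refine (Real.sin_eq_zero_iff_of_lt_of_lt ?_ ?_).mp h3
      · linarith [hφ2.1, hw2.2]
      · linarith [hφ2.2, hw2.1]
    apply hwl
    apply Complex.ext
    · rw [hlre]; linarith
    · rw [hlim]; linarith
  set G : ℂ → ℂ := fun w => dslope h l w / dslope s l w with hG
  have hφ' : ∀ w : ℂ, |w.im| ≤ Real.pi / 3 → dslope s l w ≠ 0 := by
    intro w hw
    by_cases hwl : w = l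
    · rw [hwl, dslope_same, hsder.deriv]
      norm_num
    · rw [dslope_of_ne _ hwl, slope_def_field, hs0, sub_zero]
      exact div_ne_zero (hsne w hw hwl) (sub_ne_zero.mpr hwl)
  have hGne : ∀ w : ℂ, |w.im| ≤ Real.pi / 3 → w ≠ l → G w = h w / s w := by
    intro w hw hwl
    have h1 := hsne w hw hwl
    have h2 := sub_ne_zero.mpr hwl
    simp only [hG]
    rw [dslope_of_ne _ hwl, dslope_of_ne _ hwl, slope_def_field, slope_def_field, hs0, hl,
      sub_zero, sub_zero]
    field_simp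
  have hS : {z : ℂ | |z.im| ≤ Real.pi / 3} ∈ 𝓝 l := by
    have h1 : {z : ℂ | |z.im| < Real.pi / 3} ∈ 𝓝 l := by
      refine IsOpen.mem_nhds ?_ ?_
      · exact isOpen_lt (by fun_prop) continuous_const
      · show |l.im| < Real.pi / 3
        rw [hlim]; exact hφ
    refine Filter.mem_of_superset h1 ?_
    intro z hz
    have hz' : |z.im| < Real.pi / 3 := hz
    exact hz'.le
  have hdG : ∀ w : ℂ, |w.im| ≤ Real.pi / 3 → DifferentiableAt ℂ G w := by
    intro w hw
    have h1 : DifferentiableAt ℂ (dslope h l) w := by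
      by_cases hwl : w = l
      · have h2 : DifferentiableOn ℂ h {z : ℂ | |z.im| ≤ Real.pi / 3} :=
          fun z hz => (hf z hz).differentiableWithinAt
        have h3 := (Complex.differentiableOn_dslope hS).mpr h2
        rw [hwl]
        exact h3.differentiableAt hS
      · exact (differentiableAt_dslope_of_ne hwl).mpr (hf w hw)
    have h4 : DifferentiableAt ℂ (dslope s l) w := by
      have h5 := (Complex.differentiableOn_dslope (Filter.univ_mem (f := 𝓝 l))).mpr
        hsd.differentiableOn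
      exact h5.differentiableAt Filter.univ_mem
    exact h1.div h4 (hφ' w hw)
  -- bounds
  have hK : 0 ≤ K := (norm_nonneg _).trans (hb 0 (by simp; positivity))
  obtain ⟨M, hM⟩ : ∃ M, ∀ w ∈ (Icc (0 - 1 : ℝ) (0 + 1)) ×ℂ (Icc (-(Real.pi / 3)) (Real.pi / 3)),
      ‖G w‖ ≤ M := by
    have hc : IsCompact ((Icc (0 - 1 : ℝ) (0 + 1)) ×ℂ (Icc (-(Real.pi / 3)) (Real.pi / 3))) :=
      isCompact_Icc.reProdIm isCompact_Icc
    refine hc.exists_bound_of_continuousOn ?_
    intro w hw
    rw [mem_reProdIm] at hw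
    exact (hdG w (abs_le.mpr hw.2)).continuousAt.continuousWithinAt
  have hM0 : 0 ≤ M := (norm_nonneg _).trans (hM 0 (by
    rw [mem_reProdIm]; simp; positivity))
  have hBd : ∀ t y : ℝ, -(Real.pi / 3) ≤ y → y ≤ Real.pi / 3 →
      ‖G (t + y * I)‖ ≤ (8 * K + M * Real.exp 1) * Real.exp (-|t - 0|) := by
    intro t y h1 h2
    have him : |((t : ℂ) + y * I).im| ≤ Real.pi / 3 := by
      simpa [abs_le] using ⟨h1, h2⟩
    have he := Real.exp_pos (-|t - 0|)
    by_cases ht : |t - 0| ≤ 1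
    · have h3 := hM (t + y * I) (by
        rw [mem_reProdIm]
        have := abs_le.mp ht
        simp only [add_re, ofReal_re, mul_re, I_re, mul_zero, ofReal_im, I_im, mul_one, sub_self,
          add_zero, add_im, mul_im, zero_add]
        exact ⟨⟨by linarith, by linarith⟩, ⟨h1, h2⟩⟩)
      have h4 : 1 ≤ Real.exp 1 * Real.exp (-|t - 0|) := by
        rw [← Real.exp_add]
        exact Real.one_le_exp (by linarith)
      calc ‖G (t + y * I)‖ ≤ M * 1 := by rw [mul_one]; exact h3
        _ ≤ M * (Real.exp 1 * Real.exp (-|t - 0|)) := mul_le_mul_of_nonneg_left h4 hM0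
        _ ≤ (8 * K + M * Real.exp 1) * Real.exp (-|t - 0|) := by nlinarith [mul_nonneg hK he.le]
    · push Not at ht
      have hne : (t : ℂ) + y * I ≠ l := by
        intro h
        have := congrArg Complex.re h
        rw [hlre] at this
        simp at this
        rw [this] at ht
        simp at ht
        linarith
      rw [hGne _ him hne, norm_div]
      have h5 : Real.exp |t - 0| / 4 ≤ ‖s (t + y * I)‖ := by
        simp only [hs]
        rw [harg]
        refine le_trans ?_ (a1_norm_sinh _ _)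
        have h6 : ((t : ℂ) + y * I).re = t := by simp
        rw [h6, Real.abs_sinh, Real.sinh_eq]
        have h7 : |t - 0| ≤ |-(3 * t / 2)| := by
          rw [abs_neg, abs_div, abs_mul, sub_zero]
          have := abs_nonneg t
          norm_num
          linarith
        have h8 := Real.exp_le_exp.mpr h7
        have h9 : Real.exp (-|-(3 * t / 2)|) ≤ 1 / 2 * Real.exp |t - 0| := by
          have h10 : Real.exp (-|-(3 * t / 2)|) ≤ 1 := Real.exp_le_one_iff.mpr (by
            have := abs_nonneg (-(3 * t / 2)); linarith)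
          have h11 : 1 + 1 ≤ Real.exp |t - 0| := by
            have := Real.add_one_le_exp (|t - 0|)
            linarith
          linarith
        linarith
      have h6 : 0 < Real.exp |t - 0| := Real.exp_pos _
      rw [div_le_iff₀ (lt_of_lt_of_le (by positivity) h5)]
      have h7 : Real.exp (-|t - 0|) * Real.exp |t - 0| = 1 := by
        rw [← Real.exp_add]; simp
      calc ‖h (t + y * I)‖ ≤ K := hb _ him
        _ ≤ (8 * K + M * Real.exp 1) * Real.exp (-|t - 0|) * (Real.exp |t - 0| / 4) := by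
          have : (8 * K + M * Real.exp 1) * Real.exp (-|t - 0|) * (Real.exp |t - 0| / 4)
            = (8 * K + M * Real.exp 1) / 4 * (Real.exp (-|t - 0|) * Real.exp |t - 0|) := by ring
          rw [this, h7]
          nlinarith [mul_nonneg hM0 (Real.exp_pos 1).le]
        _ ≤ _ := mul_le_mul_of_nonneg_left h5 (by positivity)
  have hBi : Integrable (fun t : ℝ => (8 * K + M * Real.exp 1) * Real.exp (-|t - 0|)) :=
    (a1_int_abs 0).const_mul _
  have htop : Tendsto (fun t : ℝ => (8 * K + M * Real.exp 1) * Real.exp (-|t - 0|))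
      atTop (𝓝 0) := by
    have h1 := (u2_exp_top.comp (tendsto_atTop_add_const_right atTop (-0) tendsto_id)).const_mul
      (8 * K + M * Real.exp 1)
    simpa [Function.comp_def, sub_eq_add_neg] using h1
  have hbot : Tendsto (fun t : ℝ => (8 * K + M * Real.exp 1) * Real.exp (-|t - 0|))
      atBot (𝓝 0) := by
    have h1 := (u2_exp_bot.comp (tendsto_atBot_add_const_right atBot (-0) tendsto_id)).const_mul
      (8 * K + M * Real.exp 1)
    simpa [Function.comp_def, sub_eq_add_neg] using h1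
  have hdG' : ∀ t y : ℝ, -(Real.pi / 3) ≤ y → y ≤ Real.pi / 3 →
      DifferentiableAt ℂ G (t + y * I) := by
    intro t y h1 h2
    refine hdG _ ?_
    simpa [abs_le] using ⟨h1, h2⟩
  have hmain := u2_strip G (-(Real.pi / 3)) (Real.pi / 3) (by linarith) _ hBi htop hbot hdG' hBd
  have hi1 := a1_line_int G (-(Real.pi / 3)) _ hBi (fun t => hdG' t _ le_rfl (by linarith))
    (fun t => hBd t _ le_rfl (by linarith))
  have hi2 := a1_line_int G (Real.pi / 3) _ hBi (fun t => hdG' t _ (by linarith) le_rfl)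
    (fun t => hBd t _ (by linarith) le_rfl)
  have hpt : ∀ u : ℝ, kkc (l - u) * (h (u + Real.pi / 3 * I) + h (u - Real.pi / 3 * I))
      = (3 / (4 * Real.pi)) * (-I) * (G (u + ((Real.pi / 3 : ℝ) : ℂ) * I)
        - G (u + ((-(Real.pi / 3) : ℝ) : ℂ) * I)) := by
    intro u
    have hne1 : (u : ℂ) + ((Real.pi / 3 : ℝ) : ℂ) * I ≠ l := by
      intro hh
      have := congrArg Complex.im hh
      rw [hlim] at this
      simp at this
      linarith [hφ2.2]
    have hne2 : (u : ℂ) + ((-(Real.pi / 3) : ℝ) : ℂ) * I ≠ l := by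
      intro hh
      have := congrArg Complex.im hh
      rw [hlim] at this
      simp at this
      linarith [hφ2.1]
    have him1 : |((u : ℂ) + ((Real.pi / 3 : ℝ) : ℂ) * I).im| ≤ Real.pi / 3 := by
      simp [abs_of_pos (show 0 < Real.pi / 3 by positivity)]
    have him2 : |((u : ℂ) + ((-(Real.pi / 3) : ℝ) : ℂ) * I).im| ≤ Real.pi / 3 := by
      simp [abs_of_pos (show 0 < Real.pi / 3 by positivity)]
    rw [hGne _ him1 hne1, hGne _ him2 hne2]
    have hc : (Complex.cosh (3 * (l - u) / 2)) ≠ 0 := by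
      rw [harg]
      have h1 := b1_norm_cosh (-(3 * (u : ℂ).re / 2)) (3 * (φ - (u : ℂ).im) / 2)
      have h2 : 0 < Real.cos (3 * (φ - (u : ℂ).im) / 2) := by
        apply Real.cos_pos_of_mem_Ioo
        simp only [Complex.ofReal_im, sub_zero]
        exact ⟨by linarith [hφ2.1], by linarith [hφ2.2]⟩
      rw [← norm_pos_iff]
      refine lt_of_lt_of_le ?_ h1
      rw [abs_of_pos h2]
      exact mul_pos (Real.cosh_pos _) h2
    have hs1 : s (u + ((Real.pi / 3 : ℝ) : ℂ) * I) = -I * Complex.cosh (3 * (l - u) / 2) := by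
      simp only [hs]
      have : 3 * (l - (u + ((Real.pi / 3 : ℝ) : ℂ) * I)) / 2
          = 3 * (l - u) / 2 - (Real.pi / 2 : ℂ) * I := by
        push_cast; ring
      rw [this, Complex.sinh_sub, Complex.sinh_mul_I, Complex.cosh_mul_I, Complex.cos_pi_div_two,
        Complex.sin_pi_div_two]
      ring
    have hs2 : s (u + ((-(Real.pi / 3) : ℝ) : ℂ) * I) = I * Complex.cosh (3 * (l - u) / 2) := by
      simp only [hs]
      have : 3 * (l - (u + ((-(Real.pi / 3) : ℝ) : ℂ) * I)) / 2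
          = 3 * (l - u) / 2 + (Real.pi / 2 : ℂ) * I := by
        push_cast; ring
      rw [this, Complex.sinh_add, Complex.sinh_mul_I, Complex.cosh_mul_I, Complex.cos_pi_div_two,
        Complex.sin_pi_div_two]
      ring
    rw [hs1, hs2]
    have he1 : (u : ℂ) + Real.pi / 3 * I = u + ((Real.pi / 3 : ℝ) : ℂ) * I := by push_cast; ring
    have he2 : (u : ℂ) - Real.pi / 3 * I = u + ((-(Real.pi / 3) : ℝ) : ℂ) * I := by
      push_cast; ring
    unfold kkc
    rw [he1, he2]
    have hpi' : (Real.pi : ℂ) ≠ 0 := by exact_mod_cast hpi.ne'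
    have hI := Complex.I_ne_zero
    field_simp
    ring
  simp_rw [hpt]
  rw [integral_const_mul, integral_sub hi2 hi1, hmain, sub_self, mul_zero]

/-- the kernel in real terms -/
theorem kkc_eq (φ u : ℝ) : kkc ((φ : ℂ) * I - u) =
    ((3 / (4 * Real.pi) * (Real.cosh (3 * u / 2) * Real.cos (3 * φ / 2))
      / (Real.sinh (3 * u / 2) ^ 2 + Real.cos (3 * φ / 2) ^ 2) : ℝ) : ℂ)
    + ((3 / (4 * Real.pi) * (Real.sinh (3 * u / 2) * Real.sin (3 * φ / 2))
      / (Real.sinh (3 * u / 2) ^ 2 + Real.cos (3 * φ / 2) ^ 2) : ℝ) : ℂ) * I := by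
  unfold kkc
  have h1 : 3 * ((φ : ℂ) * I - u) / 2 = ((-(3 * u / 2) : ℝ) : ℂ) + ((3 * φ / 2 : ℝ) : ℂ) * I := by
    push_cast; ring
  rw [h1, b1_cosh, Real.cosh_neg, Real.sinh_neg]
  set C := Real.cosh (3 * u / 2)
  set S := Real.sinh (3 * u / 2)
  set c := Real.cos (3 * φ / 2)
  set s := Real.sin (3 * φ / 2)
  have hC : C ^ 2 = S ^ 2 + 1 := Real.cosh_sq _
  have hc : s ^ 2 + c ^ 2 = 1 := Real.sin_sq_add_cos_sq _
  have hpi := Real.pi_pos
  have hpi' : (Real.pi : ℂ) ≠ 0 := by exact_mod_cast hpi.ne'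
  have key : (C * c) ^ 2 + (S * s) ^ 2 = S ^ 2 + c ^ 2 := by
    linear_combination c ^ 2 * hC + S ^ 2 * hc
  by_cases h0 : S ^ 2 + c ^ 2 = 0
  · have hS0 : S = 0 := by nlinarith [sq_nonneg S, sq_nonneg c]
    have hc0 : c = 0 := by nlinarith [sq_nonneg S, sq_nonneg c]
    rw [hS0, hc0]
    simp
  · have hz : ((C * c : ℝ) : ℂ) + ((-S * s : ℝ) : ℂ) * I ≠ 0 := by
      intro hh
      have a1 := congrArg Complex.re hh
      have a2 := congrArg Complex.im hh
      rw [Complex.add_re, Complex.re_ofReal_mul, Complex.I_re, mul_zero, add_zero,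
        Complex.ofReal_re, Complex.zero_re] at a1
      rw [Complex.add_im, Complex.im_ofReal_mul, Complex.I_im, mul_one,
        Complex.ofReal_im, Complex.zero_im, zero_add] at a2
      apply h0
      rw [← key, a1]
      have : S * s = 0 := by linarith
      rw [this]
      ring
    have h0' : ((S : ℂ) ^ 2 + (c : ℂ) ^ 2) ≠ 0 := by exact_mod_cast h0
    have key' : ((C : ℂ) * c) ^ 2 + ((S : ℂ) * s) ^ 2 = (S : ℂ) ^ 2 + (c : ℂ) ^ 2 := by
      exact_mod_cast key
    rw [div_eq_iff (mul_ne_zero (mul_ne_zero (by norm_num) hpi') hz)]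
    push_cast
    field_simp
    linear_combination (-key') + ((S : ℂ) * s) ^ 2 * Complex.I_sq

theorem kkc_cont (φ : ℝ) (hφ : |φ| < Real.pi / 3) :
    Continuous (fun u : ℝ => kkc ((φ : ℂ) * I - u)) := by
  have hpi := Real.pi_pos
  have hpi' : (Real.pi : ℂ) ≠ 0 := by exact_mod_cast hpi.ne'
  have hφ2 := abs_lt.1 hφ
  unfold kkc
  refine Continuous.div continuous_const ?_ ?_
  · fun_prop
  · intro u
    have h1 : 3 * ((φ : ℂ) * I - u) / 2 = ((-(3 * u / 2) : ℝ) : ℂ) + ((3 * φ / 2 : ℝ) : ℂ) * I := by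
      push_cast; ring
    rw [h1]
    refine mul_ne_zero (mul_ne_zero (by norm_num) hpi') ?_
    have h2 : 0 < Real.cos (3 * φ / 2) := by
      apply Real.cos_pos_of_mem_Ioo
      exact ⟨by linarith, by linarith⟩
    rw [← norm_pos_iff]
    refine lt_of_lt_of_le ?_ (b1_norm_cosh _ _)
    rw [abs_of_pos h2]
    exact mul_pos (Real.cosh_pos _) h2

theorem kkc_le (φ : ℝ) {y : ℝ} (hφ : |φ| < Real.pi / 3) (hy : |y| ≤ |φ|) (u : ℝ) :
    ‖kkc ((y : ℂ) * I - u)‖ ≤ (1 / Real.cos (3 * φ / 2)) * kk u := by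
  have hpi := Real.pi_pos
  have hφ2 := abs_lt.1 hφ
  have h2 : 0 < Real.cos (3 * φ / 2) := by
    apply Real.cos_pos_of_mem_Ioo
    exact ⟨by linarith, by linarith⟩
  have h3 : Real.cos (3 * φ / 2) ≤ Real.cos (3 * y / 2) := by
    rw [← Real.cos_abs (3 * φ / 2), ← Real.cos_abs (3 * y / 2)]
    apply Real.cos_le_cos_of_nonneg_of_le_pi (abs_nonneg _)
    · rw [abs_div, abs_mul]
      norm_num
      linarith
    · rw [abs_div, abs_div, abs_mul, abs_mul]
      norm_num
      linarith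
  unfold kkc
  have h1 : 3 * ((y : ℂ) * I - u) / 2 = ((-(3 * u / 2) : ℝ) : ℂ) + ((3 * y / 2 : ℝ) : ℂ) * I := by
    push_cast; ring
  rw [h1, norm_div, norm_mul, norm_mul]
  have h4 := b1_norm_cosh (-(3 * u / 2)) (3 * y / 2)
  rw [Real.cosh_neg, abs_of_pos (lt_of_lt_of_le h2 h3)] at h4
  have hC := Real.cosh_pos (3 * u / 2)
  have e1 : ‖(3 : ℂ)‖ = 3 := by simp
  have e2 : ‖(4 : ℂ)‖ = 4 := by simp
  have e3 : ‖((Real.pi : ℝ) : ℂ)‖ = Real.pi := by
    rw [Complex.norm_real, Real.norm_of_nonneg hpi.le]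
  rw [e1, e2, e3]
  unfold kk
  rw [one_div, inv_mul_eq_div, div_div]
  apply div_le_div_of_nonneg_left (by norm_num) (by positivity)
  have h5 : Real.cosh (3 * u / 2) * Real.cos (3 * φ / 2)
      ≤ Real.cosh (3 * u / 2) * Real.cos (3 * y / 2) := mul_le_mul_of_nonneg_left h3 hC.le
  nlinarith

theorem kk_zero_top : Tendsto kk atTop (𝓝 0) := by
  have h : Tendsto (fun l : ℝ => 3 / (2 * Real.pi) * Real.exp (-(3 * |l| / 2))) atTop (𝓝 0) := by
    have h1 : Tendsto (fun l : ℝ => -(3 * |l| / 2)) atTop atBot := by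
      have : (fun l : ℝ => -(3 * |l| / 2)) = fun l => (-(3 / 2)) * |l| := by funext l; ring
      rw [this]
      exact Tendsto.const_mul_atTop_of_neg (by norm_num) tendsto_abs_atTop_atTop
    have h2 := (Real.tendsto_exp_atBot.comp h1).const_mul (3 / (2 * Real.pi))
    rw [mul_zero] at h2
    exact h2
  exact squeeze_zero (fun l => (kk_pos l).le) kk_le h

theorem kk_zero_bot : Tendsto kk atBot (𝓝 0) := by
  have h1 : kk = fun l => kk (-l) := by funext l; rw [kk_even]
  rw [h1]
  exact kk_zero_top.comp tendsto_neg_atBot_atTop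

theorem kkc_integral (φ : ℝ) (hφ : |φ| < Real.pi / 3) :
    ∫ u : ℝ, kkc ((φ : ℂ) * I - u) = 1 / 2 := by
  have hpi := Real.pi_pos
  have hpi' : (Real.pi : ℂ) ≠ 0 := by exact_mod_cast hpi.ne'
  have hφ2 := abs_lt.1 hφ
  have hev : ∀ t y : ℝ, kkc ((y : ℂ) * I - t) = kkc (t + (((-y : ℝ)) : ℂ) * I) := by
    intro t y
    unfold kkc
    have : 3 * ((t : ℂ) + ((-y : ℝ) : ℂ) * I) / 2 = -(3 * ((y : ℂ) * I - t) / 2) := by
      push_cast; ring
    rw [this, Complex.cosh_neg]
  have hBi : Integrable (fun t : ℝ => (1 / Real.cos (3 * φ / 2)) * kk t) := kk_integrable.const_mul _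
  have ht1 : Tendsto (fun t : ℝ => (1 / Real.cos (3 * φ / 2)) * kk t) atTop (𝓝 0) := by
    have := kk_zero_top.const_mul (1 / Real.cos (3 * φ / 2))
    rwa [mul_zero] at this
  have ht2 : Tendsto (fun t : ℝ => (1 / Real.cos (3 * φ / 2)) * kk t) atBot (𝓝 0) := by
    have := kk_zero_bot.const_mul (1 / Real.cos (3 * φ / 2))
    rwa [mul_zero] at this
  have hdiff : ∀ t y : ℝ, |y| ≤ |φ| → DifferentiableAt ℂ kkc (t + y * I) := by
    intro t y hy
    have hy2 : |y| < Real.pi / 3 := lt_of_le_of_lt hy hφ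
    have hy3 := abs_lt.1 hy2
    unfold kkc
    refine DifferentiableAt.div (differentiableAt_const _) (by fun_prop) ?_
    have h1 : 3 * ((t : ℂ) + y * I) / 2 = ((3 * t / 2 : ℝ) : ℂ) + ((3 * y / 2 : ℝ) : ℂ) * I := by
      push_cast; ring
    rw [h1]
    refine mul_ne_zero (mul_ne_zero (by norm_num) hpi') ?_
    have h2 : 0 < Real.cos (3 * y / 2) := by
      apply Real.cos_pos_of_mem_Ioo
      exact ⟨by linarith, by linarith⟩
    rw [← norm_pos_iff]
    refine lt_of_lt_of_le ?_ (b1_norm_cosh _ _)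
    rw [abs_of_pos h2]
    exact mul_pos (Real.cosh_pos _) h2
  have hbd : ∀ t y : ℝ, |y| ≤ |φ| → ‖kkc (t + y * I)‖ ≤ (1 / Real.cos (3 * φ / 2)) * kk t := by
    intro t y hy
    have h1 := hev t (-y)
    rw [neg_neg] at h1
    rw [← h1]
    exact kkc_le φ hφ (by rwa [abs_neg]) t
  have hreal : ∫ t : ℝ, kkc (t + ((0 : ℝ) : ℂ) * I) = 1 / 2 := by
    have h1 : ∀ t : ℝ, kkc (t + ((0 : ℝ) : ℂ) * I) = ((kk t : ℝ) : ℂ) := by
      intro t
      unfold kkc kk
      push_cast
      simp
    simp_rw [h1]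
    have h2 : ∫ u : ℝ, ((kk u : ℝ) : ℂ) = (((∫ u : ℝ, kk u) : ℝ) : ℂ) := integral_ofReal
    rw [h2, kk_integral]
    push_cast
    ring
  simp_rw [hev]
  rcases le_total (-φ) 0 with h | h
  · have h1 := u2_strip kkc (-φ) 0 h _ hBi ht1 ht2
      (fun t y h1 h2 => hdiff t y (by
        rw [abs_of_nonpos h2, abs_of_nonneg (by linarith)]; linarith))
      (fun t y h1 h2 => hbd t y (by
        rw [abs_of_nonpos h2, abs_of_nonneg (by linarith)]; linarith))
    rw [h1, hreal]
  · have h1 := u2_strip kkc 0 (-φ) h _ hBi ht1 ht2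
      (fun t y h1 h2 => hdiff t y (by
        rw [abs_of_nonneg h1, abs_of_nonpos (by linarith)]; linarith))
      (fun t y h1 h2 => hbd t y (by
        rw [abs_of_nonneg h1, abs_of_nonpos (by linarith)]; linarith))
    rw [← h1, hreal]

/-- **the representation at imaginary points** -/
theorem strip_im (f : ℂ → ℂ) (K : ℝ)
    (hf : ∀ z : ℂ, |z.im| ≤ Real.pi / 3 → DifferentiableAt ℂ f z)
    (hb : ∀ z : ℂ, |z.im| ≤ Real.pi / 3 → ‖f z‖ ≤ K) (φ : ℝ) (hφ : |φ| < Real.pi / 3) :
    f ((φ : ℂ) * I) = ∫ u : ℝ, kkc ((φ : ℂ) * I - u) * (f (u + Real.pi / 3 * Complex.I)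
      + f (u - Real.pi / 3 * Complex.I)) := by
  have hpi := Real.pi_pos
  have h0 := b1_zero (fun z => f z - f ((φ : ℂ) * I)) (K + ‖f ((φ : ℂ) * I)‖)
    (fun z hz => (hf z hz).sub_const _)
    (fun z hz => (norm_sub_le _ _).trans (by have := hb z hz; linarith)) φ hφ (by simp)
  have him1 : ∀ u : ℝ, |((u : ℂ) + Real.pi / 3 * I).im| ≤ Real.pi / 3 := by
    intro u
    have : ((u : ℂ) + Real.pi / 3 * I) = u + ((Real.pi / 3 : ℝ) : ℂ) * I := by push_cast; ring
    rw [this]
    simp [abs_of_pos (show 0 < Real.pi / 3 by positivity)]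
  have him2 : ∀ u : ℝ, |((u : ℂ) - Real.pi / 3 * I).im| ≤ Real.pi / 3 := by
    intro u
    have : ((u : ℂ) - Real.pi / 3 * I) = u - ((Real.pi / 3 : ℝ) : ℂ) * I := by push_cast; ring
    rw [this]
    simp [abs_of_pos (show 0 < Real.pi / 3 by positivity)]
  have hki : Integrable (fun u : ℝ => kkc ((φ : ℂ) * I - u)) :=
    (kk_integrable.const_mul (1 / Real.cos (3 * φ / 2))).mono'
      (kkc_cont φ hφ).aestronglyMeasurable (Eventually.of_forall fun u => kkc_le φ hφ le_rfl u)
  have hi : Integrable (fun u : ℝ => kkc ((φ : ℂ) * I - u) * (f (u + Real.pi / 3 * Complex.I)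
      + f (u - Real.pi / 3 * Complex.I))) := by
    refine (hki.norm.const_mul (2 * K)).mono' ?_ (Eventually.of_forall fun u => ?_)
    · have hc : Continuous (fun u : ℝ => kkc ((φ : ℂ) * I - u) * (f (u + Real.pi / 3 * Complex.I)
          + f (u - Real.pi / 3 * Complex.I))) := by
        refine (kkc_cont φ hφ).mul (Continuous.add ?_ ?_)
        · rw [continuous_iff_continuousAt]
          intro u
          refine ContinuousAt.comp (f := fun t : ℝ => ((t : ℂ) + Real.pi / 3 * I))
            (hf _ (him1 u)).continuousAt ?_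
          fun_prop
        · rw [continuous_iff_continuousAt]
          intro u
          refine ContinuousAt.comp (f := fun t : ℝ => ((t : ℂ) - Real.pi / 3 * I))
            (hf _ (him2 u)).continuousAt ?_
          fun_prop
      exact hc.aestronglyMeasurable
    · rw [norm_mul, mul_comm]
      refine mul_le_mul_of_nonneg_right ?_ (norm_nonneg _)
      have h1 := hb _ (him1 u)
      have h2 := hb _ (him2 u)
      exact (norm_add_le _ _).trans (by linarith)
  have hi2 : Integrable (fun u : ℝ => kkc ((φ : ℂ) * I - u) * (2 * f ((φ : ℂ) * I))) :=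
    hki.mul_const _
  have h1 : ∀ u : ℝ, kkc ((φ : ℂ) * I - u) * ((fun z => f z - f ((φ : ℂ) * I)) (u + Real.pi / 3 * I)
      + (fun z => f z - f ((φ : ℂ) * I)) (u - Real.pi / 3 * I))
      = kkc ((φ : ℂ) * I - u) * (f (u + Real.pi / 3 * Complex.I) + f (u - Real.pi / 3 * Complex.I))
        - kkc ((φ : ℂ) * I - u) * (2 * f ((φ : ℂ) * I)) := by
    intro u
    ring
  simp_rw [h1] at h0
  rw [integral_sub hi hi2, integral_mul_const, kkc_integral φ hφ, sub_eq_zero] at h0
  rw [h0]
  ring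

end H729I
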