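import Pool.Agent.Run7.h729.Iso.Fbd
import Pool.Agent.Run7.h729.Iso.Fdd

/-!
# Mean and variance of the winding, uniformly in the circumference and in the environment
-/

set_option autoImplicit false

namespace H729I
open H906K Pool.Agent.H974R3 Filter Topology

variable {n : ℕ} {f g : Pat (2 * n + 1) → ℝ} {v D : ℝ → ℝ}

/-- the norm of `L^2` -/
noncomputable def nr {M : ℕ} (θ : Strat n) (F : Conf n M → ℝ) : ℝ := √(EE θ M (fun c => F c ^ 2))

theorem nr_nonneg {M : ℕ} (θ : Strat n) (F : Conf n M → ℝ) : 0 ≤ nr θ F := Real.sqrt_nonneg _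

theorem EE_sq_nonneg {M : ℕ} {θ : Strat n} (hθ : Adm θ) (F : Conf n M → ℝ) :
    0 ≤ EE θ M (fun c => F c ^ 2) :=
  Finset.sum_nonneg fun c _ => mul_nonneg (wgt_nonneg hθ c) (sq_nonneg _)

theorem nr_sq {M : ℕ} {θ : Strat n} (hθ : Adm θ) (F : Conf n M → ℝ) :
    nr θ F ^ 2 = EE θ M (fun c => F c ^ 2) := Real.sq_sqrt (EE_sq_nonneg hθ F)

theorem EE_mul_le {M : ℕ} {θ : Strat n} (hθ : Adm θ) (F G : Conf n M → ℝ) :
    EE θ M (fun c => F c * G c) ≤ nr θ F * nr θ G := by
  have h1 := Finset.sum_mul_sq_le_sq_mul_sq Finset.univ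
    (fun c : Conf n M => √(wgt θ M c) * F c) (fun c => √(wgt θ M c) * G c)
  have e1 : ∀ c : Conf n M, √(wgt θ M c) * F c * (√(wgt θ M c) * G c) = wgt θ M c • (F c * G c) := by
    intro c
    have := Real.mul_self_sqrt (wgt_nonneg hθ c)
    rw [smul_eq_mul]
    linear_combination (F c * G c) * this
  have e2 : ∀ (F : Conf n M → ℝ) (c : Conf n M), (√(wgt θ M c) * F c) ^ 2 = wgt θ M c • F c ^ 2 := by
    intro F c
    rw [mul_pow, Real.sq_sqrt (wgt_nonneg hθ c), smul_eq_mul]
  rw [Finset.sum_congr rfl fun c _ => e1 c, Finset.sum_congr rfl fun c _ => e2 F c,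
    Finset.sum_congr rfl fun c _ => e2 G c] at h1
  change EE θ M (fun c => F c * G c) ^ 2 ≤ EE θ M (fun c => F c ^ 2) * EE θ M (fun c => G c ^ 2) at h1
  rw [← nr_sq hθ F, ← nr_sq hθ G, ← mul_pow] at h1
  exact (abs_le_of_sq_le_sq' h1 (mul_nonneg (nr_nonneg _ _) (nr_nonneg _ _))).2

theorem nr_add {M : ℕ} {θ : Strat n} (hθ : Adm θ) (F G : Conf n M → ℝ) :
    nr θ (fun c => F c + G c) ≤ nr θ F + nr θ G := by
  have h1 := EE_mul_le hθ F G
  have h0 : 0 ≤ nr θ F + nr θ G := add_nonneg (nr_nonneg _ _) (nr_nonneg _ _)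
  apply le_of_sq_le_sq _ h0
  rw [nr_sq hθ]
  have e : (fun c => (F c + G c) ^ 2) = fun c => (F c ^ 2 + 2 * (F c * G c)) + G c ^ 2 := by
    funext c; ring
  rw [e, EE_add, EE_add, EE_mul, ← nr_sq hθ F, ← nr_sq hθ G]
  nlinarith

theorem nr_sub_le {M : ℕ} {θ : Strat n} (hθ : Adm θ) (F G : Conf n M → ℝ) :
    |nr θ F - nr θ G| ≤ nr θ (fun c => F c - G c) := by
  rw [abs_le]
  constructor
  · have h := nr_add hθ F (fun c => G c - F c)
    have e1 : (fun c => F c + (G c - F c)) = G := by funext c; ring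
    have e2 : nr θ (fun c => G c - F c) = nr θ (fun c => F c - G c) := by
      unfold nr
      congr 2
      funext c
      ring
    rw [e1, e2] at h
    linarith
  · have h := nr_add hθ G (fun c => F c - G c)
    have e1 : (fun c => G c + (F c - G c)) = F := by funext c; ring
    rw [e1] at h
    linarith

theorem nr_const {M : ℕ} (θ : Strat n) (a : ℝ) : nr (M := M) θ (fun _ => a) = |a| := by
  unfold nr
  rw [EE_const, Real.sqrt_sq_eq_abs]

/-- the increment of the martingale over the rows `K, …, K+M-1` -/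
noncomputable def Zz (f : Pat (2 * n + 1) → ℝ) (v : ℝ → ℝ) (θ : Strat n) (K : ℕ) {M : ℕ}
    (c : Conf n (K + M)) : ℝ := Uu f v θ (K + M) c - Uu f v θ K (rows c K)

theorem Zz_app (θ : Strat n) (K : ℕ) {M : ℕ} (c : Conf n (K + M)) (b : Fin (2 * n + 1) → Bool) :
    Zz f v θ K (M := M + 1) (app c b) = Zz f v θ K c
      + ((dTc (2 * n) b (pat c) : ℝ) + f (Tc (2 * n) b (pat c)) - f (pat c) - v (θ (K + M) c)) := by
  unfold Zz
  rw [rows_app c b (by omega)]
  show Uu f v θ (K + M + 1) (app c b) - _ = _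
  rw [Uu_app]
  ring

theorem Zz_mean (h : Crr n f g v D) {θ : Strat n} (hθ : Adm θ) (K M : ℕ) :
    EE θ (K + M) (fun c => Zz f v θ K c) = 0 := by
  induction M with
  | zero =>
    have : (fun c : Conf n (K + 0) => Zz f v θ K c) = fun _ => 0 := by
      funext c
      have e1 : rows c K = c := rows_self c
      unfold Zz
      rw [e1]
      exact sub_self _
    rw [this, EE_const]
  | succ M ih =>
    show EE θ (K + M + 1) _ = _
    rw [EE_succ, ← ih]
    congr 1
    funext c
    have h1 := step_mean h (hθ (K + M) c) (pat c)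
    have e : ∀ b : Fin (2 * n + 1) → Bool, rw1 n (prob (θ (K + M) c)) b •
        Zz f v θ K (M := M + 1) (app c b)
        = Zz f v θ K c * rw1 n (prob (θ (K + M) c)) b + rw1 n (prob (θ (K + M) c)) b *
      ((dTc (2 * n) b (pat c) : ℝ) + f (Tc (2 * n) b (pat c)) - f (pat c) - v (θ (K + M) c)) := by
      intro b
      rw [Zz_app, smul_eq_mul]
      ring
    rw [Finset.sum_congr rfl fun b _ => e b, Finset.sum_add_distrib, ← Finset.mul_sum, h1, rw1_sum]
    ring

theorem Zz_sq (h : Crr n f g v D) {ϑ : ℕ → ℝ} (hϑ : ∀ t, ϑ t ∈ Set.Icc 0 Real.pi) (K M : ℕ) :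
    EE (det n (cat K ϑ)) (K + M) (fun c => Zz f v (det n (cat K ϑ)) K c ^ 2)
      = ∑ t ∈ Finset.range M, D (ϑ t) + EE (det n (cat K ϑ)) K (fun c => g (pat c))
        - EE (det n (cat K ϑ)) (K + M) (fun c => g (pat c)) := by
  set θ := det n (cat K ϑ) with hθ
  have adm : Adm θ := det_adm (cat_mem hϑ)
  induction M with
  | zero =>
    have : (fun c : Conf n (K + 0) => Zz f v θ K c ^ 2) = fun _ => 0 := by
      funext c
      have e1 : rows c K = c := rows_self c
      unfold Zz
      rw [e1]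
      show (Uu f v θ K c - Uu f v θ K c) ^ 2 = 0
      rw [sub_self]
      ring
    rw [this, EE_const]
    simp
  | succ M ih =>
    have hp : EE θ (K + M + 1) (fun c => g (pat c))
        = EE θ (K + M) (fun c => Qo n (ϑ M) g (pat c)) := by
      rw [hθ, EE_pat_succ, cat_add]
    suffices goal : EE θ (K + M + 1) (fun c => Zz f v θ K (M := M + 1) c ^ 2)
        = ∑ t ∈ Finset.range (M + 1), D (ϑ t) + EE θ K (fun c => g (pat c))
          - EE θ (K + M + 1) (fun c : Conf n (K + M + 1) => g (pat c)) from goal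
    rw [hp, Finset.sum_range_succ, EE_succ]
    have e : (fun c : Conf n (K + M) => ∑ b : Fin (2 * n + 1) → Bool,
        rw1 n (prob (θ (K + M) c)) b • Zz f v θ K (M := M + 1) (app c b) ^ 2)
        = fun c => (Zz f v θ K c ^ 2 + g (pat c)) + (D (ϑ M) - Qo n (ϑ M) g (pat c)) := by
      funext c
      have e0 : θ (K + M) c = ϑ M := cat_add K ϑ M
      rw [e0]
      have h1 := step_mean h (hϑ M) (pat c)
      have h2 := h.m2 (ϑ M) (hϑ M) (pat c)
      have e1 : ∀ b : Fin (2 * n + 1) → Bool, rw1 n (prob (ϑ M)) b •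
          Zz f v θ K (M := M + 1) (app c b) ^ 2
          = Zz f v θ K c ^ 2 * rw1 n (prob (ϑ M)) b
            + 2 * Zz f v θ K c * (rw1 n (prob (ϑ M)) b *
              ((dTc (2 * n) b (pat c) : ℝ) + f (Tc (2 * n) b (pat c)) - f (pat c) - v (ϑ M)))
            + (rw1 n (prob (ϑ M)) b * (((dTc (2 * n) b (pat c) : ℝ) + f (Tc (2 * n) b (pat c))
              - f (pat c) - v (ϑ M)) ^ 2 + g (Tc (2 * n) b (pat c)))
              - rw1 n (prob (ϑ M)) b * g (Tc (2 * n) b (pat c))) := by
        intro b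
        rw [Zz_app, e0, smul_eq_mul]
        ring
      rw [Finset.sum_congr rfl fun b _ => e1 b, Finset.sum_add_distrib, Finset.sum_add_distrib,
        Finset.sum_sub_distrib, ← Finset.mul_sum, ← Finset.mul_sum, h1, h2, rw1_sum]
      unfold Qo
      ring
    rw [e, EE_add, EE_add, EE_sub, EE_const, ih]
    ring

/-- the compensated displacement over the rows `K, …, K+M-1` -/
noncomputable def Aa (φ : ℝ → ℝ) (ϑ : ℕ → ℝ) (K : ℕ) {M : ℕ} (c : Conf n (K + M)) : ℝ :=
  dis c - dis (rows c K) - ∑ t ∈ Finset.range M, φ (ϑ t)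

theorem Zz_eq (ϑ : ℕ → ℝ) (K : ℕ) {M : ℕ} (c : Conf n (K + M)) :
    Zz f v (det n (cat K ϑ)) K c
      = Aa v ϑ K c + ((f (pat c) - f (start n)) - (f (pat (rows c K)) - f (start n))) := by
  unfold Zz Uu Aa Sm
  rw [Finset.sum_range_add]
  have e1 : ∑ t ∈ Finset.range M, v (det n (cat K ϑ) (K + t) (rows c (K + t)))
      = ∑ t ∈ Finset.range M, v (ϑ t) := by
    refine Finset.sum_congr rfl fun t _ => ?_
    show v (cat K ϑ (K + t)) = _
    rw [cat_add]
  have e2 : ∑ t ∈ Finset.range K, v (det n (cat K ϑ) t (rows (rows c K) t))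
      = ∑ t ∈ Finset.range K, v (det n (cat K ϑ) t (rows c t)) := rfl
  rw [e1, e2]
  ring

theorem hom_cat (K : ℕ) (ϑ : ℕ → ℝ) (F : Pat (2 * n + 1) → ℝ) :
    EE (det n (cat K ϑ)) K (fun c => F (pat c)) = EE (hom n) K (fun c => F (pat c)) := by
  rw [EE_hom K ϑ K le_rfl]
  have h := EE_hom (n := n) K (fun _ => Real.pi / 2) K le_rfl F
  have e : det n (cat K (fun _ => Real.pi / 2)) = hom n := by
    funext t c
    show cat K (fun _ => Real.pi / 2) t = Real.pi / 2
    unfold cat
    split_ifs <;> rfl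
  rw [e] at h
  rw [h]

/-- **mean and variance of the winding** -/
theorem winding {B K' : ℝ} (hB : MomB B) (hK' : 0 ≤ K') (hn : 1 ≤ n) (h : Crr n f g v D)
    (hA : Asym n v D K') {ϑ : ℕ → ℝ} (hϑ : ∀ t, ϑ t ∈ Set.Icc 0 Real.pi) (M : ℕ) :
    ∃ K0, ∀ K ≥ K0,
      |EE (det n (cat K ϑ)) (K + M) (fun c => Aa Real.cos ϑ K c)|
        ≤ 1 / (2 * n + 1) ^ 2 + K' * (∑ t ∈ Finset.range M, Real.sin (ϑ t)) / (2 * n + 1) ^ 2 ∧
      |nr (det n (cat K ϑ)) (fun c : Conf n (K + M) => Aa Real.cos ϑ K c)
        - √(3 * (2 * n + 1) / Real.pi * ∑ t ∈ Finset.range M, Real.sin (ϑ t))|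
        ≤ (2 * B + 2) * (2 * n + 1)
          + K' * √((∑ t ∈ Finset.range M, Real.sin (ϑ t)) / (2 * n + 1))
          + K' * (∑ t ∈ Finset.range M, Real.sin (ϑ t)) / (2 * n + 1) ^ 2 := by
  obtain ⟨μ, hμ1, hμ⟩ := stat_exists n
  have hpi := Real.pi_pos
  have hN3 : (3 : ℝ) ≤ 2 * n + 1 := by
    have : (1 : ℝ) ≤ n := by exact_mod_cast hn
    linarith
  set N : ℝ := 2 * n + 1 with hN
  have hN0 : 0 < N := by linarith
  have hB0 := hB.1
  set S : ℝ := ∑ t ∈ Finset.range M, Real.sin (ϑ t) with hS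
  have hsin : ∀ t, 0 ≤ Real.sin (ϑ t) := fun t =>
    Real.sin_nonneg_of_nonneg_of_le_pi (hϑ t).1 (hϑ t).2
  have hS0 : 0 ≤ S := Finset.sum_nonneg fun t _ => hsin t
  -- limits
  set F2 : Pat (2 * n + 1) → ℝ := fun σ => (f σ - f (start n)) ^ 2 with hF2
  have l1 := EE_lim hμ1 hμ hϑ M F2
  have l2 := EE_lim hμ1 hμ hϑ 0 F2
  have l3 := (EE_lim hμ1 hμ hϑ M g).sub (EE_lim hμ1 hμ hϑ 0 g)
  have l4 := (EE_lim hμ1 hμ hϑ M f).sub (EE_lim hμ1 hμ hϑ 0 f)
  rw [sub_self] at l3 l4
  have hK2 : ∀ K, EE (det n (cat K ϑ)) K (fun c => F2 (pat c)) ≤ (B * N) ^ 2 := fun K => by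
    rw [hom_cat]
    exact f_two h hB hn K
  have hm2 : ∑ σ, μ σ * F2 σ ≤ (B * N) ^ 2 := le_of_tendsto' l2 fun K => hK2 K
  have ev1 : ∀ᶠ K in atTop, EE (det n (cat K ϑ)) (K + M) (fun c => F2 (pat c)) < (B * N) ^ 2 + 1 :=
    l1.eventually (gt_mem_nhds (by linarith))
  have ev3 : ∀ᶠ K in atTop, |EE (det n (cat K ϑ)) (K + M) (fun c => g (pat c))
      - EE (det n (cat K ϑ)) (K + 0) (fun c => g (pat c))| < 1 := by
    have := l3.abs
    rw [abs_zero] at this
    exact this.eventually (gt_mem_nhds one_pos)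
  have ev4 : ∀ᶠ K in atTop, |EE (det n (cat K ϑ)) (K + M) (fun c => f (pat c))
      - EE (det n (cat K ϑ)) (K + 0) (fun c => f (pat c))| < 1 / N ^ 2 := by
    have := l4.abs
    rw [abs_zero] at this
    exact this.eventually (gt_mem_nhds (by positivity))
  obtain ⟨K0, hK0⟩ := eventually_atTop.1 (ev1.and (ev3.and ev4))
  refine ⟨K0, fun K hK => ?_⟩
  obtain ⟨a1, a3, a4⟩ := hK0 K hK
  set θ := det n (cat K ϑ) with hθ
  have adm : Adm θ := det_adm (cat_mem hϑ)
  -- the sums of `v - cos`
  set E : ℝ := ∑ t ∈ Finset.range M, (v (ϑ t) - Real.cos (ϑ t)) with hE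
  have hEb : |E| ≤ K' * S / N ^ 2 := by
    rw [hE]
    refine (Finset.abs_sum_le_sum_abs _ _).trans ?_
    have : K' * S / N ^ 2 = ∑ t ∈ Finset.range M, K' * Real.sin (ϑ t) / N ^ 2 := by
      rw [hS, Finset.mul_sum, Finset.sum_div]
    rw [this]
    refine Finset.sum_le_sum fun t _ => ?_
    refine ((hA _ (hϑ t)).1).trans ?_
    apply div_le_div_of_nonneg_right _ (by positivity)
    apply mul_le_mul_of_nonneg_left _ hK'
    have := Real.sin_le_one (ϑ t)
    nlinarith [hsin t]
  have hAcos : ∀ c : Conf n (K + M), Aa Real.cos ϑ K c = Aa v ϑ K c + E := by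
    intro c
    unfold Aa
    rw [hE, Finset.sum_sub_distrib]
    ring
  constructor
  · -- the mean
    have h1 := Zz_mean h adm K M
    have e1 : (fun c : Conf n (K + M) => Zz f v θ K c)
        = fun c => (Aa v ϑ K c + f (pat c)) - f (pat (rows c K)) := by
      funext c
      rw [hθ, Zz_eq]
      ring
    rw [e1, EE_sub, EE_add] at h1
    have e2 : EE θ (K + M) (fun c => f (pat (rows c K))) = EE θ (K + 0) (fun c => f (pat c)) :=
      EE_rows θ (by omega) (fun c : Conf n K => f (pat c))
    rw [e2] at h1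
    have e3 : EE θ (K + M) (fun c => Aa Real.cos ϑ K c) = EE θ (K + M) (fun c => Aa v ϑ K c) + E := by
      have : (fun c : Conf n (K + M) => Aa Real.cos ϑ K c) = fun c => Aa v ϑ K c + E := by
        funext c; exact hAcos c
      rw [this, EE_add, EE_const]
    rw [e3]
    have h2 : |EE θ (K + M) (fun c => Aa v ϑ K c)| ≤ 1 / N ^ 2 := by
      have : EE θ (K + M) (fun c => Aa v ϑ K c) = -(EE θ (K + M) (fun c => f (pat c))
        - EE θ (K + 0) (fun c => f (pat c))) := by linarith
      rw [this, abs_neg]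
      exact a4.le
    exact (abs_add_le _ _).trans (add_le_add h2 hEb)
  · -- the variance
    have z1 := Zz_sq h hϑ K M
    rw [← hθ] at z1
    set SD : ℝ := ∑ t ∈ Finset.range M, D (ϑ t) with hSD
    have hSD0 : 0 ≤ SD := Finset.sum_nonneg fun t _ => D_nonneg h (hϑ t)
    have b1 : |nr θ (fun c : Conf n (K + M) => Zz f v θ K c) - √SD| ≤ 1 := by
      unfold nr
      rw [z1]
      have hnn : 0 ≤ SD + EE θ K (fun c => g (pat c)) - EE θ (K + M) (fun c => g (pat c)) := by
        rw [← z1]
        exact EE_sq_nonneg adm _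
      have hdiff : |(SD + EE θ K (fun c => g (pat c)) - EE θ (K + M) (fun c => g (pat c))) - SD|
          ≤ 1 := by
        have : (SD + EE θ K (fun c => g (pat c)) - EE θ (K + M) (fun c => g (pat c))) - SD
          = -(EE θ (K + M) (fun c => g (pat c)) - EE θ (K + 0) (fun c => g (pat c))) := by
          show _ = -(EE θ (K + M) (fun c => g (pat c)) - EE θ K (fun c => g (pat c)))
          ring
        rw [this, abs_neg]
        exact a3.le
      have key : ∀ x y : ℝ, 0 ≤ x → 0 ≤ y → |x - y| ≤ 1 → |√x - √y| ≤ 1 := by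
        intro x y hx hy hxy
        have hx' := Real.sq_sqrt hx
        have hy' := Real.sq_sqrt hy
        have hx0 := Real.sqrt_nonneg x
        have hy0 := Real.sqrt_nonneg y
        rw [abs_le] at hxy ⊢
        constructor
        · by_contra hc
          push Not at hc
          nlinarith
        · by_contra hc
          push Not at hc
          nlinarith
      exact key _ _ hnn hSD0 hdiff
    have b2 : nr θ (fun c : Conf n (K + M) => f (pat c) - f (start n)) ≤ B * N + 1 := by
      unfold nr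
      rw [Real.sqrt_le_left (by positivity)]
      have : (fun c : Conf n (K + M) => (f (pat c) - f (start n)) ^ 2) = fun c => F2 (pat c) := rfl
      rw [this]
      have : 0 < B * N := by positivity
      nlinarith
    have b3 : nr θ (fun c : Conf n (K + M) => f (pat (rows c K)) - f (start n)) ≤ B * N := by
      unfold nr
      rw [Real.sqrt_le_left (by positivity)]
      have e : EE θ (K + M) (fun c => (f (pat (rows c K)) - f (start n)) ^ 2)
          = EE θ K (fun c => F2 (pat c)) :=
        EE_rows θ (by omega) (fun c : Conf n K => F2 (pat c))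
      rw [e]
      exact hK2 K
    have b4 : |nr θ (fun c : Conf n (K + M) => Aa Real.cos ϑ K c)
        - nr θ (fun c : Conf n (K + M) => Zz f v θ K c)|
        ≤ K' * S / N ^ 2 + ((B * N + 1) + B * N) := by
      refine (nr_sub_le adm _ _).trans ?_
      have e : (fun c : Conf n (K + M) => Aa Real.cos ϑ K c - Zz f v θ K c)
          = fun c => E + ((f (pat (rows c K)) - f (start n)) - (f (pat c) - f (start n))) := by
        funext c
        rw [hAcos, hθ, Zz_eq]
        ring
      rw [e]
      refine (nr_add adm (fun _ => E) _).trans ?_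
      rw [nr_const]
      refine add_le_add hEb ?_
      have e2 : (fun c : Conf n (K + M) => (f (pat (rows c K)) - f (start n))
          - (f (pat c) - f (start n)))
          = fun c => (f (pat (rows c K)) - f (start n)) + (-1) * (f (pat c) - f (start n)) := by
        funext c; ring
      rw [e2]
      refine (nr_add adm _ _).trans ?_
      have e3 : nr θ (fun c : Conf n (K + M) => (-1) * (f (pat c) - f (start n)))
          = nr θ (fun c : Conf n (K + M) => f (pat c) - f (start n)) := by
        unfold nr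
        congr 2
        funext c
        ring
      rw [e3]
      linarith
    have b5 : |√SD - √(3 * N / Real.pi * S)| ≤ K' * √(S / N) := by
      have hd : |SD - 3 * N / Real.pi * S| ≤ K' / (2 * Real.pi) * S := by
        have e1 : SD - 3 * N / Real.pi * S = ∑ t ∈ Finset.range M,
            (D (ϑ t) - 3 * N / Real.pi * Real.sin (ϑ t)) := by
          rw [Finset.sum_sub_distrib, hS, Finset.mul_sum]
        have e2 : K' / (2 * Real.pi) * S = ∑ t ∈ Finset.range M,
            K' / (2 * Real.pi) * Real.sin (ϑ t) := by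
          rw [hS, Finset.mul_sum]
        rw [e1, e2]
        exact (Finset.abs_sum_le_sum_abs _ _).trans
          (Finset.sum_le_sum fun t _ => asym_D hA (hϑ t))
      rcases eq_or_lt_of_le hS0 with hS1 | hS1
      · rw [← hS1] at hd ⊢
        have hz : SD = 0 := by
          have := abs_le.1 hd
          have h1 := this.1
          have h2 := this.2
          simp only [mul_zero, sub_zero] at h1 h2
          linarith
        rw [hz]
        simp
      · set P : ℝ := 3 * N / Real.pi * S with hP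
        have hP0 : 0 < P := by positivity
        have hsP : 0 < √P := Real.sqrt_pos.2 hP0
        have h1 : |√SD - √P| * √P ≤ |SD - P| := by
          have e1 : SD - P = (√SD - √P) * (√SD + √P) := by
            have h1 := Real.mul_self_sqrt hSD0
            have h2 := Real.mul_self_sqrt hP0.le
            linear_combination -h1 + h2
          rw [e1, abs_mul, abs_of_nonneg (add_nonneg (Real.sqrt_nonneg SD) hsP.le)]
          apply mul_le_mul_of_nonneg_left _ (abs_nonneg _)
          linarith [Real.sqrt_nonneg SD]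
        have h2 : K' / (2 * Real.pi) * S ≤ K' * √(S / N) * √P := by
          have e1 : √(S / N) * √P = √(3 / Real.pi) * S := by
            rw [← Real.sqrt_mul (by positivity)]
            have : S / N * P = 3 / Real.pi * S ^ 2 := by
              rw [hP]; field_simp
            rw [this, Real.sqrt_mul (by positivity), Real.sqrt_sq hS0]
          have e2 : 1 / (2 * Real.pi) ≤ √(3 / Real.pi) := by
            apply Real.le_sqrt_of_sq_le
            rw [div_pow, one_pow, div_le_div_iff₀ (by positivity) hpi]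
            have := Real.pi_gt_three
            nlinarith
          calc K' / (2 * Real.pi) * S = K' * (1 / (2 * Real.pi) * S) := by ring
            _ ≤ K' * (√(3 / Real.pi) * S) := by
              apply mul_le_mul_of_nonneg_left _ hK'
              exact mul_le_mul_of_nonneg_right e2 hS0
            _ = K' * √(S / N) * √P := by rw [← e1]; ring
        have h3 : |√SD - √P| * √P ≤ K' * √(S / N) * √P := h1.trans (hd.trans h2)
        exact le_of_mul_le_mul_right h3 hsP
    have c1 := abs_le.1 b1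
    have c4 := abs_le.1 b4
    have c5 := abs_le.1 b5
    rw [abs_le]
    constructor <;> nlinarith [c1.1, c1.2, c4.1, c4.2, c5.1, c5.2]

end H729I
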