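import Pool.Agent.Run7.h729.Iso.Uni
import Pool.Agent.Run7.h729.Iso.Nsc

/-!
# Mean and variance at the natural scale, in terms of the phase `wph`
-/

set_option autoImplicit false

namespace H729I
open H906K Pool.Agent.H974R3 Filter Topology

theorem wph_Aa {n : ℕ} (θ : ℕ → ℝ) (K M : ℕ) (c : Conf n (K + M)) :
    wph θ K 0 M c = 2 * Real.pi / (2 * n + 1) * Aa Real.cos θ K c := by
  unfold wph Aa
  have e : rows c (K + M) = c := rows_self c
  rw [e, add_zero, ← Finset.range_eq_Ico]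

theorem var_nat : ∃ C : ℝ, ∀ n : ℕ, 1 ≤ n → ∀ θ : ℕ → ℝ, (∀ t, θ t ∈ Set.Icc 0 Real.pi) →
    ∀ M : ℕ, ∃ K₀ : ℕ, ∀ K ≥ K₀,
        |EE (det n (cat K θ)) (K + M) (fun c => wph θ K 0 M c)|
          ≤ C * (1 + 2 * Real.pi / (2 * n + 1) * ∑ t ∈ Finset.Ico 0 M, Real.sin (θ t))
            / (2 * n + 1) ^ 2 ∧
        |√(EE (det n (cat K θ)) (K + M) (fun c => wph θ K 0 M c ^ 2))
          - √(6 * (2 * Real.pi / (2 * n + 1) * ∑ t ∈ Finset.Ico 0 M, Real.sin (θ t)))|
          ≤ C * (1 + √(2 * Real.pi / (2 * n + 1) * ∑ t ∈ Finset.Ico 0 M, Real.sin (θ t))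
              / (2 * n + 1)
            + 2 * Real.pi / (2 * n + 1) * (∑ t ∈ Finset.Ico 0 M, Real.sin (θ t))
              / (2 * n + 1) ^ 2) := by
  obtain ⟨K', hK', hall⟩ := main_asy
  obtain ⟨B, hB⟩ := momB_exists
  have hpi := Real.pi_pos
  have hB0 := hB.1
  refine ⟨2 * Real.pi * (2 * B + 2) + 2 * Real.pi * K' + K' + 2 * Real.pi, ?_⟩
  intro n hn θ hθ M
  obtain ⟨f, g, v, D, hc, -, -, hA⟩ := hall n hn
  obtain ⟨K0, hK0⟩ := winding hB hK'.le hn hc hA hθ M
  refine ⟨K0, fun K hK => ?_⟩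
  obtain ⟨hm, hv⟩ := hK0 K hK
  have hN3 : (3 : ℝ) ≤ 2 * n + 1 := by
    have : (1 : ℝ) ≤ n := by exact_mod_cast hn
    linarith
  rw [← Finset.range_eq_Ico]
  set N : ℝ := 2 * n + 1 with hN
  have hN0 : 0 < N := by linarith
  set S : ℝ := ∑ t ∈ Finset.range M, Real.sin (θ t) with hS
  have hS0 : 0 ≤ S := Finset.sum_nonneg fun t _ =>
    Real.sin_nonneg_of_nonneg_of_le_pi (hθ t).1 (hθ t).2
  set T : ℝ := 2 * Real.pi / N * S with hT
  have hT0 : 0 ≤ T := by positivity
  have hST : S = T * N / (2 * Real.pi) := by rw [hT]; field_simp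
  set C : ℝ := 2 * Real.pi * (2 * B + 2) + 2 * Real.pi * K' + K' + 2 * Real.pi with hC
  have hcoef : (0 : ℝ) < 2 * Real.pi / N := by positivity
  constructor
  · have e : (fun c : Conf n (K + M) => wph θ K 0 M c)
        = fun c => 2 * Real.pi / N * Aa Real.cos θ K c := by
      funext c; exact wph_Aa θ K M c
    rw [e, EE_mul, abs_mul, abs_of_pos hcoef]
    refine (mul_le_mul_of_nonneg_left hm hcoef.le).trans ?_
    have e1 : 2 * Real.pi / N * (1 / N ^ 2 + K' * S / N ^ 2)
        = (2 * Real.pi / N + K' * T) / N ^ 2 := by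
      rw [hT]; field_simp
    rw [e1]
    apply div_le_div_of_nonneg_right _ (by positivity)
    have e2 : 2 * Real.pi / N ≤ 2 * Real.pi := by
      apply div_le_self (by positivity); linarith
    have e3 : 0 ≤ 2 * Real.pi * (2 * B + 2) + 2 * Real.pi * K' := by positivity
    nlinarith
  · have e : √(EE (det n (cat K θ)) (K + M) (fun c : Conf n (K + M) => wph θ K 0 M c ^ 2))
        = 2 * Real.pi / N * nr (det n (cat K θ))
          (fun c : Conf n (K + M) => Aa Real.cos θ K c) := by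
      unfold nr
      have e0 : (fun c : Conf n (K + M) => wph θ K 0 M c ^ 2)
          = fun c => (2 * Real.pi / N) ^ 2 * Aa Real.cos θ K c ^ 2 := by
        funext c; rw [wph_Aa θ K M c, mul_pow]
      rw [e0, EE_mul, Real.sqrt_mul (by positivity), Real.sqrt_sq hcoef.le]
    rw [e]
    have e1 : √(6 * T) = 2 * Real.pi / N * √(3 * N / Real.pi * S) := by
      have h1 : 2 * Real.pi / N = √((2 * Real.pi / N) ^ 2) := (Real.sqrt_sq hcoef.le).symm
      rw [h1, ← Real.sqrt_mul (by positivity)]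
      congr 1
      rw [hT]
      field_simp
      ring
    rw [e1, ← mul_sub, abs_mul, abs_of_pos hcoef]
    refine (mul_le_mul_of_nonneg_left hv hcoef.le).trans ?_
    have e2 : √(S / N) ≤ √T := by
      apply Real.sqrt_le_sqrt
      rw [hT, div_mul_eq_mul_div]
      apply div_le_div_of_nonneg_right _ hN0.le
      nlinarith [Real.pi_gt_three]
    have e3 : 2 * Real.pi / N * ((2 * B + 2) * N + K' * √(S / N) + K' * S / N ^ 2)
        = 2 * Real.pi * (2 * B + 2) + 2 * Real.pi * K' * (√(S / N) / N) + K' * (T / N ^ 2) := by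
      rw [hT]; field_simp
    rw [e3]
    have e4 : √(S / N) / N ≤ √T / N := div_le_div_of_nonneg_right e2 hN0.le
    have e5 : 0 ≤ √T / N := by positivity
    have e6 : 0 ≤ T / N ^ 2 := by positivity
    have e7 : 2 * Real.pi * K' * (√(S / N) / N) ≤ 2 * Real.pi * K' * (√T / N) :=
      mul_le_mul_of_nonneg_left e4 (by positivity)
    have e8 : 2 * Real.pi * (2 * B + 2) ≤ C := by
      rw [hC]; have : 0 ≤ 2 * Real.pi * K' + K' + 2 * Real.pi := by positivity
      linarith
    have e9 : 2 * Real.pi * K' ≤ C := by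
      rw [hC]; have : 0 ≤ 2 * Real.pi * (2 * B + 2) + K' + 2 * Real.pi := by positivity
      linarith
    have e10 : K' ≤ C := by
      rw [hC]; have : 0 ≤ 2 * Real.pi * (2 * B + 2) + 2 * Real.pi * K' + 2 * Real.pi := by positivity
      linarith
    have e11 := mul_le_mul_of_nonneg_right e9 e5
    have e12 := mul_le_mul_of_nonneg_right e10 e6
    linarith

end H729I
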